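import Pool.Agent.Lib.Emb.NegDefs

/-!
# Chunk NP: the function `φ`

Substituting `w = 2t - 1`: `φ(u) = e^{iu/2} (1/2) ∫_{-1}^1 (1-|w|) cos(w u/2) dw` and
`∫_{-1}^1 (1-|w|) cos(wy) dw = 2(1-cos y)/y²` (proved in `Pool/Agent/Lib/Circ2/Esseen.lean`,
`S1_k_formula`).
-/

open MeasureTheory Complex
open scoped BigOperators

namespace Emb

private theorem np_F1 (u : ℝ) (hu : u ≠ 0) :
    ∫ t in (0 : ℝ)..(1 / 2), ((2 * t : ℝ) : ℂ) * Complex.exp (((t * u : ℝ) : ℂ) * I) =
      Complex.exp (((u / 2 : ℝ) : ℂ) * I) / (I * u) +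
        2 * Complex.exp (((u / 2 : ℝ) : ℂ) * I) / (u : ℂ) ^ 2 - 2 / (u : ℂ) ^ 2 := by
  have hu' : (u : ℂ) ≠ 0 := Complex.ofReal_ne_zero.2 hu
  rw [intervalIntegral.integral_eq_sub_of_hasDerivAt
    (f := fun t : ℝ => 2 * (t : ℂ) * Complex.exp ((t : ℂ) * u * I) / (I * u) +
      2 * Complex.exp ((t : ℂ) * u * I) / (u : ℂ) ^ 2)]
  · simp only [Complex.ofReal_zero, zero_mul, Complex.exp_zero, mul_zero, zero_div, zero_add,
      mul_one]
    have e : (((1 / 2 : ℝ) : ℝ) : ℂ) * u * I = ((u / 2 : ℝ) : ℂ) * I := by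
      push_cast
      ring
    rw [e]
    push_cast
    ring
  · intro t _
    have h1 : HasDerivAt (fun t : ℝ => (t : ℂ)) 1 t := Complex.ofRealCLM.hasDerivAt
    have h2 : HasDerivAt (fun t : ℝ => (t : ℂ) * u * I) (1 * u * I) t :=
      (h1.mul_const (u : ℂ)).mul_const I
    have h3 := h2.cexp
    have h4 := (((h1.const_mul (2 : ℂ)).mul h3).div_const (I * u)).add
      ((h3.const_mul (2 : ℂ)).div_const ((u : ℂ) ^ 2))
    refine h4.congr_deriv ?_
    have e : ((t * u : ℝ) : ℂ) * I = (t : ℂ) * u * I := by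
      push_cast
      ring
    rw [e]
    have hI : I * I = -1 := Complex.I_mul_I
    push_cast
    field_simp
    ring_nf
    rw [Complex.I_sq]
    ring
  · apply Continuous.intervalIntegrable
    fun_prop

private theorem np_F2 (u : ℝ) (hu : u ≠ 0) :
    ∫ t in (1 / 2 : ℝ)..1, ((2 - 2 * t : ℝ) : ℂ) * Complex.exp (((t * u : ℝ) : ℂ) * I) =
      -2 * Complex.exp ((u : ℂ) * I) / (u : ℂ) ^ 2 -
        Complex.exp (((u / 2 : ℝ) : ℂ) * I) / (I * u) +
        2 * Complex.exp (((u / 2 : ℝ) : ℂ) * I) / (u : ℂ) ^ 2 := by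
  have hu' : (u : ℂ) ≠ 0 := Complex.ofReal_ne_zero.2 hu
  rw [intervalIntegral.integral_eq_sub_of_hasDerivAt
    (f := fun t : ℝ => (2 - 2 * (t : ℂ)) * Complex.exp ((t : ℂ) * u * I) / (I * u) -
      2 * Complex.exp ((t : ℂ) * u * I) / (u : ℂ) ^ 2)]
  · have e : (((1 / 2 : ℝ) : ℝ) : ℂ) * u * I = ((u / 2 : ℝ) : ℂ) * I := by
      push_cast
      ring
    simp only [e]
    push_cast
    simp only [one_mul]
    ring
  · intro t _
    have h1 : HasDerivAt (fun t : ℝ => (t : ℂ)) 1 t := Complex.ofRealCLM.hasDerivAt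
    have h2 : HasDerivAt (fun t : ℝ => (t : ℂ) * u * I) (1 * u * I) t :=
      (h1.mul_const (u : ℂ)).mul_const I
    have h3 := h2.cexp
    have h4 := (((((h1.const_mul (2 : ℂ)).const_sub (2 : ℂ))).mul h3).div_const (I * u)).sub
      ((h3.const_mul (2 : ℂ)).div_const ((u : ℂ) ^ 2))
    refine h4.congr_deriv ?_
    have e : ((t * u : ℝ) : ℂ) * I = (t : ℂ) * u * I := by
      push_cast
      ring
    rw [e]
    push_cast
    field_simp
    ring_nf
    rw [Complex.I_sq]
    ring
  · apply Continuous.intervalIntegrable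
    fun_prop

theorem phiT_eq (u : ℝ) : phiT u = Complex.exp (((u / 2 : ℝ) : ℂ) * I) * (kph u : ℂ) := by
  have hint : ∀ a b : ℝ, IntervalIntegrable (fun t : ℝ => (tau t : ℂ) *
      Complex.exp (((t * u : ℝ) : ℂ) * I)) volume a b := by
    intro a b
    apply Continuous.intervalIntegrable
    unfold tau
    fun_prop
  have hsplit : phiT u = (∫ t in (0 : ℝ)..(1 / 2), ((2 * t : ℝ) : ℂ) *
      Complex.exp (((t * u : ℝ) : ℂ) * I)) +
      ∫ t in (1 / 2 : ℝ)..1, ((2 - 2 * t : ℝ) : ℂ) * Complex.exp (((t * u : ℝ) : ℂ) * I) := by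
    unfold phiT
    rw [← intervalIntegral.integral_add_adjacent_intervals (hint 0 (1 / 2)) (hint (1 / 2) 1)]
    congr 1
    · apply intervalIntegral.integral_congr
      intro t ht
      rw [Set.uIcc_of_le (by norm_num)] at ht
      have : tau t = 2 * t := by
        unfold tau
        rw [abs_of_nonpos (by linarith [ht.2])]
        ring
      simp only [this]
    · apply intervalIntegral.integral_congr
      intro t ht
      rw [Set.uIcc_of_le (by norm_num)] at ht
      have : tau t = 2 - 2 * t := by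
        unfold tau
        rw [abs_of_nonneg (by linarith [ht.1])]
        ring
      simp only [this]
  rw [hsplit]
  by_cases hu : u = 0
  · subst hu
    have h1 : ∫ t in (0 : ℝ)..(1 / 2), ((2 * t : ℝ) : ℂ) *
        Complex.exp (((t * 0 : ℝ) : ℂ) * I) = ((1 / 4 : ℝ) : ℂ) := by
      simp only [mul_zero, Complex.ofReal_zero, zero_mul, Complex.exp_zero, mul_one]
      rw [intervalIntegral.integral_ofReal, intervalIntegral.integral_const_mul, integral_id]
      norm_num
    have h2 : ∫ t in (1 / 2 : ℝ)..1, ((2 - 2 * t : ℝ) : ℂ) *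
        Complex.exp (((t * 0 : ℝ) : ℂ) * I) = ((1 / 4 : ℝ) : ℂ) := by
      simp only [mul_zero, Complex.ofReal_zero, zero_mul, Complex.exp_zero, mul_one]
      rw [intervalIntegral.integral_ofReal, intervalIntegral.integral_sub (by simp)
        (Continuous.intervalIntegrable (by fun_prop) _ _),
        intervalIntegral.integral_const_mul, integral_id]
      norm_num
    rw [h1, h2, kph, if_pos rfl]
    simp only [zero_div, Complex.ofReal_zero, zero_mul, Complex.exp_zero, one_mul]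
    push_cast
    norm_num
  · have hu' : (u : ℂ) ≠ 0 := Complex.ofReal_ne_zero.2 hu
    rw [np_F1 u hu, np_F2 u hu, kph, if_neg hu]
    have e1 : Complex.exp ((u : ℂ) * I) =
        Complex.exp (((u / 2 : ℝ) : ℂ) * I) * Complex.exp (((u / 2 : ℝ) : ℂ) * I) := by
      rw [← Complex.exp_add]
      congr 1
      push_cast
      ring
    have e2 : (Real.cos (u / 2) : ℂ) = (Complex.exp (((u / 2 : ℝ) : ℂ) * I) +
        Complex.exp (-((u / 2 : ℝ) : ℂ) * I)) / 2 := by
      rw [Complex.ofReal_cos, Complex.cos]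
    have e3 : Complex.exp (((u / 2 : ℝ) : ℂ) * I) * Complex.exp (-((u / 2 : ℝ) : ℂ) * I) = 1 := by
      rw [← Complex.exp_add, ← Complex.exp_zero]
      congr 1
      ring
    rw [e1]
    push_cast [e2]
    push_cast at e3
    set A := Complex.exp ((u : ℂ) / 2 * I) with hA
    set B := Complex.exp (-((u : ℂ) / 2) * I) with hB
    field_simp
    linear_combination (4 * I) * e3

theorem kph_nonneg (u : ℝ) : 0 ≤ kph u := by
  unfold kph
  split_ifs
  · norm_num
  · have := Real.cos_le_one (u / 2)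
    apply div_nonneg _ (sq_nonneg u)
    linarith

theorem kph_lower (u : ℝ) (hu : |u| ≤ 2) : 1 / 4 ≤ kph u := by
  unfold kph
  split_ifs with h
  · norm_num
  · have hv : |u / 2| ≤ 1 := by
      rw [abs_div, abs_two]
      linarith
    have h1 := Real.cos_bound hv
    have h2 : |u / 2| ^ 4 ≤ (u / 2) ^ 2 := by
      have e : |u / 2| ^ 4 = ((u / 2) ^ 2) ^ 2 := by
        rw [← sq_abs (u / 2)]
        ring
      rw [e]
      have h3 : (u / 2) ^ 2 ≤ 1 := by
        rw [← sq_abs]
        nlinarith [abs_nonneg (u / 2)]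
      nlinarith [sq_nonneg (u / 2)]
    have h3 := (abs_le.1 h1).2
    have hpos : 0 < u ^ 2 := by positivity
    rw [le_div_iff₀ hpos]
    nlinarith

private theorem kph_le_half (u : ℝ) : kph u ≤ 1 / 2 := by
  unfold kph
  split_ifs with h
  · exact le_refl _
  · have hpos : 0 < u ^ 2 := by positivity
    have h1 := Real.one_sub_sq_div_two_le_cos (x := u / 2)
    rw [div_le_iff₀ hpos]
    nlinarith

theorem kph_upper (u : ℝ) : kph u ≤ 16 / (1 + |u|) ^ 2 := by
  have hpos : 0 < (1 + |u|) ^ 2 := by positivity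
  by_cases h4 : |u| ≤ 4
  · refine (kph_le_half u).trans ?_
    rw [le_div_iff₀ hpos]
    nlinarith [abs_nonneg u]
  · have h4' : 4 < |u| := not_le.1 h4
    have hu : u ≠ 0 := by
      rintro rfl
      simp at h4'
      linarith
    unfold kph
    rw [if_neg hu]
    have h1 := Real.neg_one_le_cos (u / 2)
    have hp : 0 < u ^ 2 := by positivity
    rw [div_le_div_iff₀ hp hpos]
    have e : u ^ 2 = |u| ^ 2 := (sq_abs u).symm
    rw [e]
    have h2 : 4 * (1 - Real.cos (u / 2)) ≤ 8 := by linarith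
    have h3 : (1 + |u|) ^ 2 ≤ 2 * |u| ^ 2 := by nlinarith
    calc 4 * (1 - Real.cos (u / 2)) * (1 + |u|) ^ 2 ≤ 8 * (2 * |u| ^ 2) :=
          mul_le_mul h2 h3 hpos.le (by norm_num)
      _ = 16 * |u| ^ 2 := by ring

theorem norm_phiT (u : ℝ) : ‖phiT u‖ ≤ 1 := by
  rw [phiT_eq, norm_mul, Complex.norm_exp_ofReal_mul_I, one_mul, Complex.norm_real,
    Real.norm_of_nonneg (kph_nonneg u)]
  linarith [kph_le_half u]

end Emb
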