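import Pool.Agent.Lib.Emb.NegMoment
import Pool.Agent.Lib.Emb.NegPhi

/-!
# Chunk NX: the truncated test function is a Dirichlet polynomial and converges uniformly

`kk (pr n) t ω = ∑'_{m pr n-smooth} m^{-1/2} e^{it log m} zn m ω`
(`EulerProduct`-type identity `prod_filter_prime_geometric_eq_tsum_factoredNumbers` for the
completely multiplicative `m ↦ m^{-1/2} e^{it log m} zn m ω`), `∑ m^{-1/2} < ∞` over smooth `m`
(`∏ (1-p^{-1/2})^{-1}`), so `|fX n X ω - ff n ω| ≤ ∑_P P^{-1/2} ∑_{m > X, smooth} m^{-1/2} → 0`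
uniformly in `ω`.
`fX` and `FX` are obtained from the coefficients `aX` by exchanging the sums.
-/

open MeasureTheory Complex Filter
open scoped BigOperators ENNReal

namespace Emb

theorem zn_mulT (m n : ℕ) (hm : m ≠ 0) (hn : n ≠ 0) (ω : Om) :
    zn (m * n) ω = zn m ω * zn n ω := by
  unfold zn
  rw [Nat.factorization_mul hm hn]
  refine Finsupp.prod_add_index' (fun p => ?_) (fun p a b => ?_)
  · simp
  · rw [Nat.cast_add, fourier_add]

theorem norm_znT (n : ℕ) (ω : Om) : ‖zn n ω‖ = 1 := by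
  unfold zn
  rw [Finsupp.prod, norm_prod]
  refine Finset.prod_eq_one fun p _ => ?_
  rw [fourier_apply]
  exact Circle.norm_coe _

theorem zn_oneT (ω : Om) : zn 1 ω = 1 := by
  unfold zn
  simp

theorem zn_primeT {p : ℕ} (hp : p.Prime) (ω : Om) : zn p ω = fourier 1 (ω p) := by
  unfold zn
  rw [hp.factorization, Finsupp.prod_single_index]
  · simp
  · simp

/-- The completely multiplicative function `m ↦ m^{-1/2} e^{it log m} zn m ω`. -/
noncomputable def cmf (t : ℝ) (ω : Om) : ℕ →* ℂ where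
  toFun m := if m = 0 then 0 else
    (((Real.sqrt (m : ℝ))⁻¹ : ℝ) : ℂ) * Complex.exp (((t * Real.log (m : ℝ) : ℝ) : ℂ) * I) * zn m ω
  map_one' := by
    simp [zn_oneT]
  map_mul' a b := by
    by_cases ha : a = 0
    · simp [ha]
    by_cases hb : b = 0
    · simp [hb]
    have ha' : (a : ℝ) ≠ 0 := Nat.cast_ne_zero.mpr ha
    have hb' : (b : ℝ) ≠ 0 := Nat.cast_ne_zero.mpr hb
    rw [if_neg (mul_ne_zero ha hb), if_neg ha, if_neg hb, zn_mulT a b ha hb, Nat.cast_mul,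
      Real.sqrt_mul (Nat.cast_nonneg a), Real.log_mul ha' hb', mul_inv, mul_add, Complex.ofReal_mul,
      Complex.ofReal_add, add_mul, Complex.exp_add]
    ring

theorem cmf_apply (t : ℝ) (ω : Om) {m : ℕ} (hm : m ≠ 0) : cmf t ω m =
    (((Real.sqrt (m : ℝ))⁻¹ : ℝ) : ℂ) * Complex.exp (((t * Real.log (m : ℝ) : ℝ) : ℂ) * I) * zn m ω := by
  show (if m = 0 then 0 else _) = _
  rw [if_neg hm]

theorem norm_cmf (t : ℝ) (ω : Om) {m : ℕ} (hm : m ≠ 0) :
    ‖cmf t ω m‖ = (Real.sqrt (m : ℝ))⁻¹ := by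
  rw [cmf_apply t ω hm, norm_mul, norm_mul, norm_znT, Complex.norm_exp_ofReal_mul_I,
    Complex.norm_real, mul_one, mul_one, Real.norm_eq_abs,
    abs_of_nonneg (inv_nonneg.mpr (Real.sqrt_nonneg _))]

theorem cmf_prime (t : ℝ) (ω : Om) {p : ℕ} (hp : p.Prime) : cmf t ω p = yy p t (ω p) := by
  rw [cmf_apply t ω hp.ne_zero, zn_primeT hp]
  unfold yy
  ring

theorem norm_cmf_prime_lt (t : ℝ) (ω : Om) {p : ℕ} (hp : p.Prime) : ‖cmf t ω p‖ < 1 := by
  rw [norm_cmf t ω hp.ne_zero]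
  have h1 : (1 : ℝ) < p := by exact_mod_cast hp.one_lt
  have h2 : 1 < Real.sqrt (p : ℝ) := by
    rw [Real.lt_sqrt (by norm_num)]
    simpa using h1
  exact inv_lt_one_of_one_lt₀ h2

theorem prime_of_mem_pr {n p : ℕ} (hp : p ∈ pr n) : p.Prime := by
  unfold pr at hp
  exact (Finset.mem_filter.mp hp).2.1

theorem kk_hasSum (n : ℕ) (t : ℝ) (ω : Om) :
    Summable (fun m : Nat.factoredNumbers (pr n) => ‖cmf t ω m‖) ∧
    HasSum (fun m : Nat.factoredNumbers (pr n) => cmf t ω m) (kk (pr n) t ω) := by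
  have h := EulerProduct.summable_and_hasSum_factoredNumbers_prod_filter_prime_geometric
    (f := cmf t ω) (fun {p} hp => norm_cmf_prime_lt t ω hp) (pr n)
  refine ⟨h.1, ?_⟩
  have h2 : kk (pr n) t ω = ∏ p ∈ pr n with p.Prime, (1 - cmf t ω p)⁻¹ := by
    rw [Finset.filter_true_of_mem (fun p hp => prime_of_mem_pr hp)]
    unfold kk k1
    exact Finset.prod_congr rfl fun p hp => by rw [cmf_prime t ω (prime_of_mem_pr hp)]
  rw [h2]
  exact h.2

/-- The summable weights. -/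
noncomputable def aw (n : ℕ) : ℕ → ℝ :=
  Set.indicator (Nat.factoredNumbers (pr n)) (fun m : ℕ => (Real.sqrt (m : ℝ))⁻¹)

noncomputable def cf (n : ℕ) (t : ℝ) (ω : Om) : ℕ → ℂ :=
  Set.indicator (Nat.factoredNumbers (pr n)) (fun m : ℕ => cmf t ω m)

theorem norm_cf (n : ℕ) (t : ℝ) (ω : Om) (m : ℕ) : ‖cf n t ω m‖ = aw n m := by
  unfold cf aw
  by_cases h : m ∈ Nat.factoredNumbers (pr n)
  · rw [Set.indicator_of_mem h, Set.indicator_of_mem h, norm_cmf t ω (Nat.ne_zero_of_mem_factoredNumbers h)]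
  · rw [Set.indicator_of_notMem h, Set.indicator_of_notMem h, norm_zero]

theorem aw_nonneg (n m : ℕ) : 0 ≤ aw n m := by
  rw [← norm_cf n 0 (fun _ => 0) m]
  exact norm_nonneg _

theorem summable_aw (n : ℕ) : Summable (aw n) := by
  have h := (kk_hasSum n 0 (fun _ => 0)).1
  have h2 : Summable (fun m => ‖cf n 0 (fun _ => 0) m‖) := by
    have h3 := (summable_subtype_iff_indicator (s := Nat.factoredNumbers (pr n))
      (f := fun m : ℕ => ‖cmf 0 (fun _ => 0) m‖)).mp h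
    refine h3.congr fun m => ?_
    unfold cf
    by_cases hm : m ∈ Nat.factoredNumbers (pr n)
    · rw [Set.indicator_of_mem hm, Set.indicator_of_mem hm]
    · rw [Set.indicator_of_notMem hm, Set.indicator_of_notMem hm, norm_zero]
  refine h2.congr fun m => ?_
  exact norm_cf n 0 _ m

theorem tsum_cf (n : ℕ) (t : ℝ) (ω : Om) : HasSum (cf n t ω) (kk (pr n) t ω) := by
  have h := (kk_hasSum n t ω).2
  exact hasSum_subtype_iff_indicator.mp h

theorem mem_smX {n X m : ℕ} : m ∈ smX n X ↔ m ∈ Finset.range (X + 1) ∧ m ∈ Nat.factoredNumbers (pr n) := by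
  unfold smX
  rw [Finset.mem_filter, Finset.mem_Icc, Finset.mem_range, Nat.mem_factoredNumbers_iff_primeFactors_subset]
  constructor
  · rintro ⟨⟨h1, h2⟩, h3⟩
    exact ⟨by omega, by omega, h3⟩
  · rintro ⟨h1, h2, h3⟩
    exact ⟨⟨by omega, by omega⟩, h3⟩

theorem sum_smX_eq (n X : ℕ) (t : ℝ) (ω : Om) :
    ∑ m ∈ smX n X, cmf t ω m = ∑ m ∈ Finset.range (X + 1), cf n t ω m := by
  classical
  have h : smX n X = (Finset.range (X + 1)).filter (fun m => m ∈ Nat.factoredNumbers (pr n)) := by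
    ext m
    rw [mem_smX, Finset.mem_filter]
  rw [h, Finset.sum_filter]
  refine Finset.sum_congr rfl fun m _ => ?_
  unfold cf
  by_cases hm : m ∈ Nat.factoredNumbers (pr n)
  · rw [Set.indicator_of_mem hm, if_pos hm]
  · rw [Set.indicator_of_notMem hm, if_neg hm]

/-- The tail. -/
noncomputable def tl (n X : ℕ) : ℝ := ∑' m, aw n (m + (X + 1))

theorem norm_kk_sub_le (n X : ℕ) (t : ℝ) (ω : Om) :
    ‖∑ m ∈ smX n X, cmf t ω m - kk (pr n) t ω‖ ≤ tl n X := by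
  have hs : Summable (cf n t ω) := (tsum_cf n t ω).summable
  have h1 := hs.sum_add_tsum_nat_add (X + 1)
  rw [(tsum_cf n t ω).tsum_eq] at h1
  rw [sum_smX_eq, ← h1, sub_add_cancel_left, norm_neg]
  unfold tl
  have hs2 : Summable (fun m => ‖cf n t ω (m + (X + 1))‖) := by
    have := (summable_nat_add_iff (X + 1)).mpr (summable_aw n)
    refine this.congr fun m => ?_
    exact (norm_cf n t ω _).symm
  refine (norm_tsum_le_tsum_norm hs2).trans (le_of_eq ?_)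
  exact tsum_congr fun m => norm_cf n t ω _

theorem tl_tendsto (n : ℕ) : Tendsto (tl n) atTop (nhds 0) := by
  have h := tendsto_sum_nat_add (aw n)
  exact h.comp (tendsto_add_atTop_nat 1)

theorem continuous_kk_t (n : ℕ) (ω : Om) : Continuous (fun t : ℝ => kk (pr n) t ω) := by
  have h := continuous_kk (S := pr n) (fun _ hp => prime_of_mem_pr hp)
  have h2 : Continuous (fun t : ℝ => ((t, ω) : ℝ × Om)) := Continuous.prodMk_left ω
  exact Continuous.comp (g := fun z : ℝ × Om => kk (pr n) z.1 z.2)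
    (f := fun t : ℝ => ((t, ω) : ℝ × Om)) h h2

theorem abs_tau_le (t : ℝ) (h0 : 0 ≤ t) (h1 : t ≤ 1) : |tau t| ≤ 1 := by
  unfold tau
  have h2 : |2 * t - 1| ≤ 1 := abs_le.mpr ⟨by linarith, by linarith⟩
  have h3 := abs_nonneg (2 * t - 1)
  exact abs_le.mpr ⟨by linarith, by linarith⟩

theorem continuous_tau : Continuous tau := by
  unfold tau
  fun_prop

/-- The truncated coefficient. -/
theorem trunc_eq (n X P : ℕ) (hP : P ≠ 0) (ω : Om) :
    ∑ m ∈ smX n X, (((Real.sqrt (m : ℝ))⁻¹ : ℝ) : ℂ) *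
      phiT (Real.log ((P * m : ℕ) : ℝ) - 2 ^ n) * zn m ω =
    ∫ t in (0 : ℝ)..1, (∑ m ∈ smX n X, cmf t ω m) * (tau t : ℂ) *
      Complex.exp (((t * (Real.log P - 2 ^ n) : ℝ) : ℂ) * I) := by
  have hcont : ∀ m : ℕ, Continuous (fun t : ℝ => (tau t : ℂ) * Complex.exp (((t * (Real.log ((P * m : ℕ) : ℝ) - 2 ^ n) : ℝ) : ℂ) * I)) := by
    intro m
    have := continuous_tau
    fun_prop
  have h1 : ∀ t : ℝ, (∑ m ∈ smX n X, cmf t ω m) * (tau t : ℂ) *
      Complex.exp (((t * (Real.log P - 2 ^ n) : ℝ) : ℂ) * I) =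
      ∑ m ∈ smX n X, ((((Real.sqrt (m : ℝ))⁻¹ : ℝ) : ℂ) * zn m ω) *
        ((tau t : ℂ) * Complex.exp (((t * (Real.log ((P * m : ℕ) : ℝ) - 2 ^ n) : ℝ) : ℂ) * I)) := by
    intro t
    rw [Finset.sum_mul, Finset.sum_mul]
    refine Finset.sum_congr rfl fun m hm => ?_
    have hm0 : m ≠ 0 := Nat.ne_zero_of_mem_factoredNumbers (mem_smX.mp hm).2
    have hm' : (m : ℝ) ≠ 0 := Nat.cast_ne_zero.mpr hm0
    have hP' : (P : ℝ) ≠ 0 := Nat.cast_ne_zero.mpr hP
    rw [cmf_apply t ω hm0]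
    have h2 : Complex.exp (((t * (Real.log ((P * m : ℕ) : ℝ) - 2 ^ n) : ℝ) : ℂ) * I) =
        Complex.exp (((t * Real.log (m : ℝ) : ℝ) : ℂ) * I) *
        Complex.exp (((t * (Real.log P - 2 ^ n) : ℝ) : ℂ) * I) := by
      rw [← Complex.exp_add, ← add_mul, ← Complex.ofReal_add]
      rw [Nat.cast_mul, Real.log_mul hP' hm']
      congr 4
      ring
    rw [h2]
    ring
  simp_rw [h1]
  rw [intervalIntegral.integral_finsetSum]
  · refine Finset.sum_congr rfl fun m _ => ?_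
    rw [intervalIntegral.integral_const_mul]
    unfold phiT
    ring
  · intro m _
    exact (continuous_const.mul (hcont m)).intervalIntegrable _ _

theorem norm_trunc_sub_le (n X P : ℕ) (hP : P ≠ 0) (ω : Om) :
    ‖∑ m ∈ smX n X, (((Real.sqrt (m : ℝ))⁻¹ : ℝ) : ℂ) *
      phiT (Real.log ((P * m : ℕ) : ℝ) - 2 ^ n) * zn m ω - GP n P ω‖ ≤ tl n X := by
  rw [trunc_eq n X P hP ω]
  unfold GP
  have hc1 : Continuous (fun t : ℝ => (∑ m ∈ smX n X, cmf t ω m) * (tau t : ℂ) *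
      Complex.exp (((t * (Real.log P - 2 ^ n) : ℝ) : ℂ) * I)) := by
    have h1 : Continuous (fun t : ℝ => ∑ m ∈ smX n X, cmf t ω m) := by
      refine continuous_finsetSum _ fun m hm => ?_
      have hm0 : m ≠ 0 := Nat.ne_zero_of_mem_factoredNumbers (mem_smX.mp hm).2
      simp_rw [cmf_apply _ ω hm0]
      fun_prop
    have h2 := continuous_tau
    fun_prop
  have hc2 : Continuous (fun t : ℝ => kk (pr n) t ω * (tau t : ℂ) *
      Complex.exp (((t * (Real.log P - 2 ^ n) : ℝ) : ℂ) * I)) := by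
    have h1 := continuous_kk_t n ω
    have h2 := continuous_tau
    fun_prop
  rw [← intervalIntegral.integral_sub (hc1.intervalIntegrable _ _) (hc2.intervalIntegrable _ _)]
  have hb := intervalIntegral.norm_integral_le_of_norm_le_const (a := (0 : ℝ)) (b := 1) (C := tl n X)
    (f := fun t : ℝ => (∑ m ∈ smX n X, cmf t ω m) * (tau t : ℂ) *
      Complex.exp (((t * (Real.log P - 2 ^ n) : ℝ) : ℂ) * I) - kk (pr n) t ω * (tau t : ℂ) *
      Complex.exp (((t * (Real.log P - 2 ^ n) : ℝ) : ℂ) * I)) (by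
    intro t ht
    rw [Set.uIoc_of_le zero_le_one, Set.mem_Ioc] at ht
    have e1 : (∑ m ∈ smX n X, cmf t ω m) * (tau t : ℂ) *
      Complex.exp (((t * (Real.log P - 2 ^ n) : ℝ) : ℂ) * I) - kk (pr n) t ω * (tau t : ℂ) *
      Complex.exp (((t * (Real.log P - 2 ^ n) : ℝ) : ℂ) * I) =
      (∑ m ∈ smX n X, cmf t ω m - kk (pr n) t ω) * (tau t : ℂ) *
      Complex.exp (((t * (Real.log P - 2 ^ n) : ℝ) : ℂ) * I) := by ring
    rw [e1, norm_mul, norm_mul, Complex.norm_exp_ofReal_mul_I, mul_one, Complex.norm_real,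
      Real.norm_eq_abs]
    have h3 := norm_kk_sub_le n X t ω
    have h4 := abs_tau_le t ht.1.le ht.2
    calc ‖∑ m ∈ smX n X, cmf t ω m - kk (pr n) t ω‖ * |tau t|
        ≤ ‖∑ m ∈ smX n X, cmf t ω m - kk (pr n) t ω‖ * 1 :=
          mul_le_mul_of_nonneg_left h4 (norm_nonneg _)
      _ ≤ tl n X := by rw [mul_one]; exact h3)
  simpa using hb

theorem prime_of_mem_PP {n P : ℕ} (hP : P ∈ PP n) : P.Prime := by
  unfold PP at hP
  exact prime_of_mem_pr (Finset.mem_sdiff.mp hP).1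

theorem fX_sub_le (n X : ℕ) (ω : Om) :
    ‖fX n X ω - ff n ω‖ ≤ (∑ P ∈ PP n, (Real.sqrt (P : ℝ))⁻¹) * tl n X := by
  unfold fX ff
  rw [← Finset.sum_sub_distrib, Finset.sum_mul]
  refine (norm_sum_le _ _).trans (Finset.sum_le_sum fun P hP => ?_)
  have hPp := prime_of_mem_PP hP
  have e1 : ∑ m ∈ smX n X, (((Real.sqrt ((P * m : ℕ) : ℝ))⁻¹ : ℝ) : ℂ) *
      phiT (Real.log ((P * m : ℕ) : ℝ) - 2 ^ n) * zn (P * m) ω =
      (((Real.sqrt P)⁻¹ : ℝ) : ℂ) * fourier 1 (ω P) *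
      ∑ m ∈ smX n X, (((Real.sqrt (m : ℝ))⁻¹ : ℝ) : ℂ) *
      phiT (Real.log ((P * m : ℕ) : ℝ) - 2 ^ n) * zn m ω := by
    rw [Finset.mul_sum]
    refine Finset.sum_congr rfl fun m hm => ?_
    have hm0 : m ≠ 0 := Nat.ne_zero_of_mem_factoredNumbers (mem_smX.mp hm).2
    rw [zn_mulT P m hPp.ne_zero hm0, zn_primeT hPp, Nat.cast_mul, Real.sqrt_mul (Nat.cast_nonneg P),
      mul_inv, Complex.ofReal_mul]
    ring
  rw [e1, ← mul_sub, norm_mul, norm_mul]
  have h2 : ‖(fourier 1 (ω P) : ℂ)‖ = 1 := by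
    rw [fourier_apply]
    exact Circle.norm_coe _
  rw [h2, mul_one, Complex.norm_real, Real.norm_eq_abs,
    abs_of_nonneg (inv_nonneg.mpr (Real.sqrt_nonneg _))]
  exact mul_le_mul_of_nonneg_left (norm_trunc_sub_le n X P hPp.ne_zero ω)
    (inv_nonneg.mpr (Real.sqrt_nonneg _))

theorem fX_tendsto (n : ℕ) (ε : ℝ) (hε : 0 < ε) :
    ∃ X0 : ℕ, ∀ X : ℕ, X0 ≤ X → ∀ ω : Om, ‖fX n X ω - ff n ω‖ ≤ ε := by
  have h1 : Tendsto (fun X => (∑ P ∈ PP n, (Real.sqrt (P : ℝ))⁻¹) * tl n X) atTop (nhds 0) := by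
    have := (tl_tendsto n).const_mul (∑ P ∈ PP n, (Real.sqrt (P : ℝ))⁻¹)
    simpa using this
  have h2 := (h1.eventually (gt_mem_nhds hε))
  obtain ⟨X0, hX0⟩ := eventually_atTop.mp h2
  exact ⟨X0, fun X hX ω => (fX_sub_le n X ω).trans (hX0 X hX).le⟩

theorem le_bound {n X P m : ℕ} (hP : P ∈ PP n) (hm : m ∈ smX n X) :
    P * m ∈ Finset.Icc 1 ((∑ P ∈ PP n, P) * X) := by
  have hm1 := mem_smX.mp hm
  have hm0 : m ≠ 0 := Nat.ne_zero_of_mem_factoredNumbers hm1.2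
  have hP0 := (prime_of_mem_PP hP).ne_zero
  rw [Finset.mem_Icc]
  refine ⟨Nat.one_le_iff_ne_zero.mpr (mul_ne_zero hP0 hm0), ?_⟩
  refine Nat.mul_le_mul (Finset.single_le_sum (f := fun P => P) (fun _ _ => Nat.zero_le _) hP) ?_
  have := Finset.mem_range.mp hm1.1
  omega

theorem sum_aX_mul (n X N : ℕ) (hN : (∑ P ∈ PP n, P) * X ≤ N) (g : ℕ → ℂ) :
    ∑ k ∈ Finset.Icc 1 N, aX n X k * g k = ∑ P ∈ PP n, ∑ m ∈ smX n X,
      (((Real.sqrt ((P * m : ℕ) : ℝ))⁻¹ : ℝ) : ℂ) *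
        phiT (Real.log ((P * m : ℕ) : ℝ) - 2 ^ n) * g (P * m) := by
  unfold aX
  simp_rw [Finset.sum_mul]
  rw [Finset.sum_comm]
  refine Finset.sum_congr rfl fun P hP => ?_
  rw [Finset.sum_comm]
  refine Finset.sum_congr rfl fun m hm => ?_
  have hmem : P * m ∈ Finset.Icc 1 N := by
    have h := Finset.mem_Icc.mp (le_bound hP hm)
    exact Finset.mem_Icc.mpr ⟨h.1, h.2.trans hN⟩
  rw [Finset.sum_eq_single_of_mem (P * m) hmem]
  · rw [if_pos rfl]
  · intro k _ hk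
    rw [if_neg (Ne.symm hk), zero_mul]

/-- The test function is given by the coefficients `aX`. -/
theorem fX_eq (n X : ℕ) : ∃ N0 : ℕ, ∀ N : ℕ, N0 ≤ N → ∀ ω : Om,
    fX n X ω = FF (aX n X) N ω := by
  refine ⟨(∑ P ∈ PP n, P) * X, fun N hN ω => ?_⟩
  unfold FF
  rw [sum_aX_mul n X N hN (fun k => zn k ω)]
  rfl

theorem cpow_half (k : ℕ) (hk : k ≠ 0) (s : ℝ) :
    (k : ℂ) ^ (-((1 / 2 : ℂ) + (s : ℂ) * I)) =
      (((Real.sqrt (k : ℝ))⁻¹ : ℝ) : ℂ) * Complex.exp ((-(s * Real.log (k : ℝ)) : ℝ) * I) := by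
  have hk' : (k : ℂ) ≠ 0 := Nat.cast_ne_zero.mpr hk
  have hkr : (0 : ℝ) < k := by exact_mod_cast Nat.pos_of_ne_zero hk
  rw [Complex.cpow_def_of_ne_zero hk']
  have h1 : (((Real.sqrt (k : ℝ))⁻¹ : ℝ) : ℂ) = Complex.exp (((-(1 / 2) * Real.log k : ℝ)) : ℂ) := by
    rw [← Complex.ofReal_exp]
    congr 1
    rw [Real.sqrt_eq_rpow, ← Real.rpow_neg hkr.le, Real.rpow_def_of_pos hkr]
    congr 1
    ring
  rw [h1, ← Complex.exp_add, ← Complex.natCast_log]
  congr 1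
  push_cast
  ring

theorem FX_eq (n X : ℕ) : ∃ N0 : ℕ, ∀ N : ℕ, N0 ≤ N → ∀ s : ℝ,
    FX n X s = DP (aX n X) N ((1 / 2 : ℂ) + (s : ℂ) * I) := by
  refine ⟨(∑ P ∈ PP n, P) * X, fun N hN s => ?_⟩
  unfold DP
  rw [sum_aX_mul n X N hN (fun k => (k : ℂ) ^ (-((1 / 2 : ℂ) + (s : ℂ) * I)))]
  unfold FX
  refine Finset.sum_congr rfl fun P hP => Finset.sum_congr rfl fun m hm => ?_
  have hne : P * m ≠ 0 := by
    have h := Finset.mem_Icc.mp (le_bound hP hm)
    omega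
  rw [cpow_half (P * m) hne s]
  have h1 : ((((P * m : ℕ) : ℝ)⁻¹ : ℝ) : ℂ) = (((Real.sqrt ((P * m : ℕ) : ℝ))⁻¹ : ℝ) : ℂ) *
      (((Real.sqrt ((P * m : ℕ) : ℝ))⁻¹ : ℝ) : ℂ) := by
    rw [← Complex.ofReal_mul, ← mul_inv, Real.mul_self_sqrt (Nat.cast_nonneg _)]
  rw [h1]
  ring

end Emb
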