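import Pool.Agent.Lib.Emb.NegNT
import Pool.Agent.Lib.Emb.NegPhi

/-!
# Chunk NB: lower bound of the Dirichlet series near `1/2 + i/2`

With `u = log(Pm) - 2^n` and `s = 1/2 + s'`, up to a unimodular factor
`FX = ∑ (1/(Pm)) k(u) e^{-is'u}` (`phiT_eq`).
Main term `∑ (1/(Pm)) k(u) ≥ (1/4) ∑_{m ≤ exp(2^(n-1))} (1/m) ∑_{v < log P ≤ v+2} 1/P` with
`v = 2^n - log m ∈ [2^(n-1), 2^n]`; these `P` lie in `PP n` and these `m` in `smX n X` if
`X ≥ exp(2^(n-1))`; `cheb_lower` gives `≥ (1/4) (c/2^n) ∑_{m ≤ exp(2^(n-1))} 1/m ≥ (c/4) 2^{-n} 2^{n-1}`.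
Error `≤ ∑ (1/(Pm)) k(u) min(2,|s'u|) ≤ 2 |s'|^{1/2} ∑ (1/(Pm)) k(u) |u|^{1/2}`, and
`k(u)|u|^{1/2} ≤ 16 (1+|u|)^{-3/2}`; for each `m`, splitting `u` into unit intervals,
`∑_P (1/P) (1+|u|)^{-3/2} ≤ (C/2^n) ∑_{j ∈ ℤ} C (1+|j|)^{-3/2}` (`PP_unit`), and `sum_smooth_le`.
So the error is `≤ C |s'|^{1/2}`.
-/

open MeasureTheory Complex
open scoped BigOperators

namespace Emb

theorem mem_smX_iff {n X m : ℕ} : m ∈ smX n X ↔ (1 ≤ m ∧ m ≤ X) ∧ m.primeFactors ⊆ pr n := by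
  unfold smX
  rw [Finset.mem_filter, Finset.mem_Icc]

theorem mem_PP_iff {n P : ℕ} : P ∈ PP n ↔ P.Prime ∧ 2 * Real.log P ≤ 2 ^ (n + 2) ∧ 2 ^ n < 2 * Real.log P := by
  unfold PP
  rw [Finset.mem_sdiff, mem_pr, mem_pr]
  constructor
  · rintro ⟨⟨h1, h2⟩, h3⟩
    exact ⟨h1, h2, lt_of_not_ge fun h => h3 ⟨h1, h⟩⟩
  · rintro ⟨h1, h2, h3⟩
    exact ⟨⟨h1, h2⟩, fun h => absurd h.2 (not_le.mpr h3)⟩

theorem small_smooth {n m : ℕ} (hn : 1 ≤ n) (hm1 : 1 ≤ m) (hm : (m : ℝ) ≤ Real.exp (2 ^ (n - 1))) :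
    m.primeFactors ⊆ pr n := by
  intro p hp
  have hpp := Nat.prime_of_mem_primeFactors hp
  have hpd := Nat.dvd_of_mem_primeFactors hp
  rw [mem_pr]
  refine ⟨hpp, ?_⟩
  have h1 : (p : ℝ) ≤ m := by exact_mod_cast Nat.le_of_dvd hm1 hpd
  have h0 : (0 : ℝ) < p := by exact_mod_cast hpp.pos
  have h2 : Real.log p ≤ 2 ^ (n - 1) := by
    rw [Real.log_le_iff_le_exp h0]
    exact h1.trans hm
  have h3 : (2 : ℝ) ^ n = 2 * 2 ^ (n - 1) := by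
    rw [← pow_succ']
    congr 1
    omega
  rw [h3]
  linarith

theorem main_term : ∃ (c : ℝ) (n0 : ℕ), 0 < c ∧ ∀ n : ℕ, n0 ≤ n → ∀ X : ℕ,
    Real.exp (2 ^ n) ≤ X →
    c ≤ ∑ P ∈ PP n, ∑ m ∈ smX n X, (((P * m : ℕ) : ℝ))⁻¹ * kph (Real.log ((P * m : ℕ) : ℝ) - 2 ^ n) := by
  obtain ⟨c, v0, hc, hv0, hch⟩ := cheb_lower
  obtain ⟨k, hk⟩ := pow_unbounded_of_one_lt v0 (one_lt_two)
  refine ⟨c / 8, k + 1, by positivity, ?_⟩
  intro n hn X hX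
  have hn1 : 1 ≤ n := by omega
  have h2n : (2 : ℝ) ^ n = 2 * 2 ^ (n - 1) := by
    rw [← pow_succ']
    congr 1
    omega
  have hpos1 : (0 : ℝ) < 2 ^ (n - 1) := by positivity
  have hv0n : v0 ≤ 2 ^ (n - 1) := by
    refine hk.le.trans ?_
    exact pow_le_pow_right₀ one_le_two (by omega)
  have hone : (1 : ℝ) ≤ 2 ^ (n - 1) := hv0.trans hv0n
  set M : ℕ := ⌊Real.exp (2 ^ (n - 1))⌋₊ with hM
  have hMle : ∀ m : ℕ, m ≤ M → (m : ℝ) ≤ Real.exp (2 ^ (n - 1)) := by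
    intro m hm
    exact (Nat.cast_le.mpr hm).trans (Nat.floor_le (Real.exp_pos _).le)
  have hsub : Finset.Icc 1 M ⊆ smX n X := by
    intro m hm
    rw [Finset.mem_Icc] at hm
    rw [mem_smX_iff]
    refine ⟨⟨hm.1, ?_⟩, small_smooth hn1 hm.1 (hMle m hm.2)⟩
    have h1 := hMle m hm.2
    have h2 : Real.exp (2 ^ (n - 1)) ≤ Real.exp (2 ^ n) := Real.exp_le_exp.mpr (by linarith)
    exact_mod_cast (h1.trans h2).trans hX
  rw [Finset.sum_comm]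
  have hterm : ∀ m ∈ Finset.Icc 1 M, (c / (4 * 2 ^ n)) * (m : ℝ)⁻¹ ≤
      ∑ P ∈ PP n, (((P * m : ℕ) : ℝ))⁻¹ * kph (Real.log ((P * m : ℕ) : ℝ) - 2 ^ n) := by
    intro m hm
    rw [Finset.mem_Icc] at hm
    have hm0 : (0 : ℝ) < m := by exact_mod_cast hm.1
    have hm1 : (1 : ℝ) ≤ m := by exact_mod_cast hm.1
    have hlogm : Real.log m ≤ 2 ^ (n - 1) := by
      rw [Real.log_le_iff_le_exp hm0]
      exact hMle m hm.2
    have hlogm0 : 0 ≤ Real.log m := Real.log_nonneg hm1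
    set v : ℝ := 2 ^ n - Real.log m with hv
    have hvlo : 2 ^ (n - 1) ≤ v := by rw [hv]; linarith
    have hvhi : v ≤ 2 ^ n := by rw [hv]; linarith
    have hvpos : 0 < v := lt_of_lt_of_le hpos1 hvlo
    have hcl := hch v (hv0n.trans hvlo) (PP n) (by
      intro p hp h1 h2
      rw [mem_PP_iff]
      refine ⟨hp, ?_, by linarith⟩
      have h4 : (2 : ℝ) ^ (n + 2) = 8 * 2 ^ (n - 1) := by
        have : n + 2 = (n - 1) + 3 := by omega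
        rw [this, pow_add]
        ring
      rw [h4]
      linarith)
    have h1 : (c / (4 * 2 ^ n)) * (m : ℝ)⁻¹ ≤ (1 / 4) * (m : ℝ)⁻¹ * (c / v) := by
      have h5 : c / (4 * 2 ^ n) ≤ (1 / 4) * (c / v) := by
        have h6 : c / 2 ^ n ≤ c / v := div_le_div_of_nonneg_left hc.le hvpos hvhi
        calc c / (4 * 2 ^ n) = (1 / 4) * (c / 2 ^ n) := by
              field_simp
          _ ≤ _ := mul_le_mul_of_nonneg_left h6 (by norm_num)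
      calc (c / (4 * 2 ^ n)) * (m : ℝ)⁻¹ ≤ ((1 / 4) * (c / v)) * (m : ℝ)⁻¹ :=
            mul_le_mul_of_nonneg_right h5 (inv_nonneg.mpr hm0.le)
        _ = _ := by ring
    refine h1.trans ?_
    refine (mul_le_mul_of_nonneg_left hcl (by positivity)).trans ?_
    rw [Finset.mul_sum]
    refine (Finset.sum_le_sum (g := fun P : ℕ => (((P * m : ℕ) : ℝ))⁻¹ * kph (Real.log ((P * m : ℕ) : ℝ) - 2 ^ n)) ?_).trans ?_
    · intro P hP
      rw [Finset.mem_filter] at hP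
      obtain ⟨hP1, hP2, hP3, hP4⟩ := hP
      have hP0 : (0 : ℝ) < P := by exact_mod_cast hP4.pos
      have hlog : Real.log ((P * m : ℕ) : ℝ) = Real.log P + Real.log m := by
        rw [Nat.cast_mul, Real.log_mul hP0.ne' hm0.ne']
      have hk4 : 1 / 4 ≤ kph (Real.log ((P * m : ℕ) : ℝ) - 2 ^ n) := by
        refine kph_lower _ ?_
        rw [hlog, abs_le]
        exact ⟨by linarith, by linarith⟩
      have e1 : 1 / 4 * (m : ℝ)⁻¹ * (1 / (P : ℝ)) = (((P * m : ℕ) : ℝ))⁻¹ * (1 / 4) := by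
        rw [Nat.cast_mul]
        field_simp
      rw [e1]
      exact mul_le_mul_of_nonneg_left hk4 (inv_nonneg.mpr (Nat.cast_nonneg _))
    · exact Finset.sum_le_sum_of_subset_of_nonneg (Finset.filter_subset _ _)
        (fun P _ _ => mul_nonneg (inv_nonneg.mpr (Nat.cast_nonneg _)) (kph_nonneg _))
  have hsum : ∑ m ∈ Finset.Icc 1 M, (c / (4 * 2 ^ n)) * (m : ℝ)⁻¹ ≤
      ∑ m ∈ smX n X, ∑ P ∈ PP n, (((P * m : ℕ) : ℝ))⁻¹ * kph (Real.log ((P * m : ℕ) : ℝ) - 2 ^ n) := by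
    refine (Finset.sum_le_sum hterm).trans ?_
    exact Finset.sum_le_sum_of_subset_of_nonneg hsub
      (fun m _ _ => Finset.sum_nonneg fun P _ =>
        mul_nonneg (inv_nonneg.mpr (Nat.cast_nonneg _)) (kph_nonneg _))
  refine le_trans ?_ hsum
  rw [← Finset.mul_sum]
  have hharm : (2 : ℝ) ^ (n - 1) ≤ ∑ m ∈ Finset.Icc 1 M, (m : ℝ)⁻¹ := by
    have h1 := log_add_one_le_harmonic M
    have h2 : (harmonic M : ℝ) = ∑ m ∈ Finset.Icc 1 M, (m : ℝ)⁻¹ := by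
      rw [harmonic_eq_sum_Icc]
      push_cast
      rfl
    rw [← h2]
    refine le_trans ?_ h1
    rw [Real.le_log_iff_exp_le (by positivity)]
    have h3 := (Nat.lt_floor_add_one (Real.exp (2 ^ (n - 1)))).le
    rw [Nat.cast_add, Nat.cast_one]
    exact h3
  calc c / 8 = (c / (4 * 2 ^ n)) * 2 ^ (n - 1) := by
        rw [h2n]
        field_simp
        norm_num
    _ ≤ _ := mul_le_mul_of_nonneg_left hharm (by positivity)

theorem summable_int_32 : Summable (fun j : ℤ => (1 + |(j : ℝ)|) ^ (-(3 / 2) : ℝ)) := by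
  have h : Summable (fun n : ℕ => (1 + |(n : ℝ)|) ^ (-(3 / 2) : ℝ)) := by
    have h1 : Summable (fun n : ℕ => ((n : ℝ)) ^ (-(3 / 2) : ℝ)) :=
      Real.summable_nat_rpow.mpr (by norm_num)
    have h2 := (summable_nat_add_iff 1).mpr h1
    refine h2.congr fun n => ?_
    rw [abs_of_nonneg (Nat.cast_nonneg n), Nat.cast_add, Nat.cast_one, add_comm]
  refine Summable.of_nat_of_neg ?_ ?_
  · simpa using h
  · simpa using h

theorem kph_sqrt_le (u : ℝ) : kph u * |u| ^ (1 / 2 : ℝ) ≤ 16 * (1 + |u|) ^ (-(3 / 2) : ℝ) := by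
  have h0 : 0 ≤ |u| := abs_nonneg u
  have h1 : (0 : ℝ) < 1 + |u| := by linarith
  have h2 : |u| ^ (1 / 2 : ℝ) ≤ (1 + |u|) ^ (1 / 2 : ℝ) :=
    Real.rpow_le_rpow h0 (by linarith) (by norm_num)
  calc kph u * |u| ^ (1 / 2 : ℝ) ≤ (16 / (1 + |u|) ^ 2) * (1 + |u|) ^ (1 / 2 : ℝ) :=
        mul_le_mul (kph_upper u) h2 (by positivity) (by positivity)
    _ = 16 * ((1 + |u|) ^ (-2 : ℝ) * (1 + |u|) ^ (1 / 2 : ℝ)) := by
        rw [Real.rpow_neg h1.le, Real.rpow_two]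
        ring
    _ = 16 * (1 + |u|) ^ (-(3 / 2) : ℝ) := by
        rw [← Real.rpow_add h1]
        norm_num

theorem floor_weight (u : ℝ) :
    (1 + |u|) ^ (-(3 / 2) : ℝ) ≤ 4 * (1 + |((⌊u⌋ : ℤ) : ℝ)|) ^ (-(3 / 2) : ℝ) := by
  set j : ℝ := ((⌊u⌋ : ℤ) : ℝ) with hj
  have h1 : j ≤ u := Int.floor_le u
  have h2 : u < j + 1 := Int.lt_floor_add_one u
  have hju : |j| ≤ |u| + 1 := by
    have : |j - u| ≤ 1 := abs_le.mpr ⟨by linarith, by linarith⟩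
    calc |j| = |(j - u) + u| := by ring_nf
      _ ≤ |j - u| + |u| := abs_add_le _ _
      _ ≤ |u| + 1 := by linarith
  have hu0 := abs_nonneg u
  have hj0 := abs_nonneg j
  have h3 : (1 + |j|) / 2 ≤ 1 + |u| := by linarith
  have h4 : (1 + |u|) ^ (-(3 / 2) : ℝ) ≤ ((1 + |j|) / 2) ^ (-(3 / 2) : ℝ) :=
    Real.rpow_le_rpow_of_nonpos (by positivity) h3 (by norm_num)
  refine h4.trans ?_
  rw [Real.div_rpow (by positivity) (by norm_num)]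
  have h5 : ((2 : ℝ) ^ (-(3 / 2) : ℝ))⁻¹ ≤ 4 := by
    rw [← Real.rpow_neg (by norm_num)]
    calc (2 : ℝ) ^ (-(-(3 / 2) : ℝ)) ≤ (2 : ℝ) ^ (2 : ℝ) :=
          Real.rpow_le_rpow_of_exponent_le (by norm_num) (by norm_num)
      _ = 4 := by norm_num
  rw [div_eq_mul_inv, mul_comm]
  exact mul_le_mul_of_nonneg_right h5 (by positivity)

theorem error_term : ∃ C : ℝ, 0 < C ∧ ∀ n X : ℕ,
    ∑ P ∈ PP n, ∑ m ∈ smX n X, (((P * m : ℕ) : ℝ))⁻¹ *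
      (kph (Real.log ((P * m : ℕ) : ℝ) - 2 ^ n) *
        |Real.log ((P * m : ℕ) : ℝ) - 2 ^ n| ^ (1 / 2 : ℝ)) ≤ C := by
  obtain ⟨C1, hC1, hPP⟩ := PP_unit
  obtain ⟨C2, hC2, hsm⟩ := sum_smooth_le
  set K : ℝ := ∑' j : ℤ, (1 + |(j : ℝ)|) ^ (-(3 / 2) : ℝ) with hK
  have hK0 : 0 ≤ K := tsum_nonneg fun j => by positivity
  refine ⟨64 * K * C1 * C2 + 1, by positivity, ?_⟩
  intro n X
  have h2n : (0 : ℝ) < 2 ^ n := by positivity
  rw [Finset.sum_comm]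
  have hm : ∀ m ∈ smX n X, ∑ P ∈ PP n, (((P * m : ℕ) : ℝ))⁻¹ *
      (kph (Real.log ((P * m : ℕ) : ℝ) - 2 ^ n) *
        |Real.log ((P * m : ℕ) : ℝ) - 2 ^ n| ^ (1 / 2 : ℝ)) ≤ (64 * K * (C1 / 2 ^ n)) * (1 / (m : ℝ)) := by
    intro m hm
    have hm1 : 1 ≤ m := (mem_smX_iff.mp hm).1.1
    have hm0 : (0 : ℝ) < m := by exact_mod_cast hm1
    set w : ℕ → ℝ := fun P => Real.log P + Real.log m - 2 ^ n with hw
    have hstep : ∀ P ∈ PP n, (((P * m : ℕ) : ℝ))⁻¹ *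
      (kph (Real.log ((P * m : ℕ) : ℝ) - 2 ^ n) *
        |Real.log ((P * m : ℕ) : ℝ) - 2 ^ n| ^ (1 / 2 : ℝ)) ≤
        (64 * (1 / (m : ℝ))) * ((1 / (P : ℝ)) * (1 + |((⌊w P⌋ : ℤ) : ℝ)|) ^ (-(3 / 2) : ℝ)) := by
      intro P hP
      have hPp := (mem_PP_iff.mp hP).1
      have hP0 : (0 : ℝ) < P := by exact_mod_cast hPp.pos
      have hlog : Real.log ((P * m : ℕ) : ℝ) - 2 ^ n = w P := by
        rw [hw, Nat.cast_mul, Real.log_mul hP0.ne' hm0.ne']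
      rw [hlog]
      have h1 := (kph_sqrt_le (w P)).trans (mul_le_mul_of_nonneg_left (floor_weight (w P))
        (by norm_num : (0 : ℝ) ≤ 16))
      calc (((P * m : ℕ) : ℝ))⁻¹ * (kph (w P) * |w P| ^ (1 / 2 : ℝ))
          ≤ (((P * m : ℕ) : ℝ))⁻¹ * (16 * (4 * (1 + |((⌊w P⌋ : ℤ) : ℝ)|) ^ (-(3 / 2) : ℝ))) :=
            mul_le_mul_of_nonneg_left h1 (inv_nonneg.mpr (Nat.cast_nonneg _))
        _ = _ := by
            rw [Nat.cast_mul, mul_inv]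
            ring
    refine (Finset.sum_le_sum hstep).trans ?_
    rw [← Finset.mul_sum]
    have hfib : ∑ P ∈ PP n, (1 / (P : ℝ)) * (1 + |((⌊w P⌋ : ℤ) : ℝ)|) ^ (-(3 / 2) : ℝ) ≤
        K * (C1 / 2 ^ n) := by
      classical
      rw [← Finset.sum_fiberwise_of_maps_to (s := PP n) (t := (PP n).image (fun P => ⌊w P⌋))
        (g := fun P => ⌊w P⌋) (fun P hP => Finset.mem_image_of_mem _ hP)]
      have hj : ∀ j ∈ (PP n).image (fun P => ⌊w P⌋),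
          ∑ P ∈ (PP n).filter (fun P => ⌊w P⌋ = j),
            (1 / (P : ℝ)) * (1 + |((⌊w P⌋ : ℤ) : ℝ)|) ^ (-(3 / 2) : ℝ) ≤
          (1 + |(j : ℝ)|) ^ (-(3 / 2) : ℝ) * (C1 / 2 ^ n) := by
        intro j _
        have h1 : ∑ P ∈ (PP n).filter (fun P => ⌊w P⌋ = j),
            (1 / (P : ℝ)) * (1 + |((⌊w P⌋ : ℤ) : ℝ)|) ^ (-(3 / 2) : ℝ) =
            (1 + |(j : ℝ)|) ^ (-(3 / 2) : ℝ) * ∑ P ∈ (PP n).filter (fun P => ⌊w P⌋ = j), (1 / (P : ℝ)) := by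
          rw [Finset.mul_sum]
          refine Finset.sum_congr rfl fun P hP => ?_
          rw [(Finset.mem_filter.mp hP).2]
          ring
        rw [h1]
        refine mul_le_mul_of_nonneg_left ?_ (by positivity)
        refine le_trans ?_ (hPP n (j + 2 ^ n - Real.log m))
        refine Finset.sum_le_sum_of_subset_of_nonneg ?_ (fun P _ _ => by positivity)
        intro P hP
        rw [Finset.mem_filter] at hP ⊢
        have h2 := Int.floor_eq_iff.mp hP.2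
        refine ⟨hP.1, ?_, ?_⟩
        · have := h2.1
          simp only [hw] at this
          linarith
        · have := h2.2
          simp only [hw] at this
          linarith
      refine (Finset.sum_le_sum hj).trans ?_
      rw [← Finset.sum_mul]
      refine mul_le_mul_of_nonneg_right ?_ (by positivity)
      exact summable_int_32.sum_le_tsum _ (fun j _ => by positivity)
    calc 64 * (1 / (m : ℝ)) * ∑ P ∈ PP n, (1 / (P : ℝ)) * (1 + |((⌊w P⌋ : ℤ) : ℝ)|) ^ (-(3 / 2) : ℝ)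
        ≤ 64 * (1 / (m : ℝ)) * (K * (C1 / 2 ^ n)) := mul_le_mul_of_nonneg_left hfib (by positivity)
      _ = _ := by ring
  refine (Finset.sum_le_sum hm).trans ?_
  rw [← Finset.mul_sum]
  calc (64 * K * (C1 / 2 ^ n)) * ∑ m ∈ smX n X, 1 / (m : ℝ)
      ≤ (64 * K * (C1 / 2 ^ n)) * (C2 * 2 ^ n) := mul_le_mul_of_nonneg_left (hsm n X) (by positivity)
    _ = 64 * K * C1 * C2 := by field_simp
    _ ≤ 64 * K * C1 * C2 + 1 := by linarith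

theorem norm_one_sub_exp_le (y : ℝ) :
    ‖(1 : ℂ) - Complex.exp (((-y : ℝ) : ℂ) * I)‖ ≤ 2 * |y| ^ (1 / 2 : ℝ) := by
  by_cases hy : |y| ≤ 1
  · have h1 : ‖(1 : ℂ) - Complex.exp (((-y : ℝ) : ℂ) * I)‖ ≤ |y| := by
      rw [norm_sub_rev]
      have h := Real.norm_exp_I_mul_ofReal_sub_one_le (x := -y)
      rw [mul_comm] at h
      simpa using h
    have h2 : |y| ≤ |y| ^ (1 / 2 : ℝ) := by
      have h3 := Real.rpow_le_rpow_of_exponent_ge' (abs_nonneg y) hy (by norm_num : (0 : ℝ) ≤ 1 / 2)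
        (by norm_num : (1 / 2 : ℝ) ≤ 1)
      simpa using h3
    have h4 : 0 ≤ |y| ^ (1 / 2 : ℝ) := by positivity
    linarith
  · push Not at hy
    have h1 : ‖(1 : ℂ) - Complex.exp (((-y : ℝ) : ℂ) * I)‖ ≤ 2 := by
      refine (norm_sub_le _ _).trans ?_
      rw [norm_one, Complex.norm_exp_ofReal_mul_I]
      norm_num
    have h2 : (1 : ℝ) ≤ |y| ^ (1 / 2 : ℝ) := Real.one_le_rpow hy.le (by norm_num)
    linarith

theorem FX_lower : ∃ (c δ : ℝ) (n0 : ℕ), 0 < c ∧ 0 < δ ∧ ∀ n : ℕ, n0 ≤ n → ∀ X : ℕ,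
    Real.exp (2 ^ n) ≤ X → ∀ s : ℝ, 1 / 2 ≤ s → s ≤ 1 / 2 + δ → c ≤ ‖FX n X s‖ := by
  obtain ⟨c, n0, hc, hmain⟩ := main_term
  obtain ⟨C, hC, herr⟩ := error_term
  refine ⟨c / 2, (c / (4 * C)) ^ 2, n0, by positivity, by positivity, ?_⟩
  intro n hn X hX s hs1 hs2
  set s' : ℝ := s - 1 / 2 with hs'
  have hs'0 : 0 ≤ s' := by rw [hs']; linarith
  have hs'1 : s' ≤ (c / (4 * C)) ^ 2 := by rw [hs']; linarith
  have hroot : s' ^ (1 / 2 : ℝ) ≤ c / (4 * C) := by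
    have h1 : s' ^ (1 / 2 : ℝ) ≤ ((c / (4 * C)) ^ 2) ^ (1 / 2 : ℝ) :=
      Real.rpow_le_rpow hs'0 hs'1 (by norm_num)
    rw [← Real.sqrt_eq_rpow ((c / (4 * C)) ^ 2), Real.sqrt_sq (by positivity)] at h1
    exact h1
  -- the reduced sum
  have hred : ‖FX n X s‖ = ‖∑ P ∈ PP n, ∑ m ∈ smX n X,
      (((((P * m : ℕ) : ℝ))⁻¹ * kph (Real.log ((P * m : ℕ) : ℝ) - 2 ^ n) : ℝ) : ℂ) *
        Complex.exp (((-(s' * (Real.log ((P * m : ℕ) : ℝ) - 2 ^ n)) : ℝ) : ℂ) * I)‖ := by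
    have h1 : FX n X s = Complex.exp (((-(s * 2 ^ n) : ℝ) : ℂ) * I) * ∑ P ∈ PP n, ∑ m ∈ smX n X,
      (((((P * m : ℕ) : ℝ))⁻¹ * kph (Real.log ((P * m : ℕ) : ℝ) - 2 ^ n) : ℝ) : ℂ) *
        Complex.exp (((-(s' * (Real.log ((P * m : ℕ) : ℝ) - 2 ^ n)) : ℝ) : ℂ) * I) := by
      unfold FX
      rw [Finset.mul_sum]
      refine Finset.sum_congr rfl fun P _ => ?_
      rw [Finset.mul_sum]
      refine Finset.sum_congr rfl fun m _ => ?_
      rw [phiT_eq]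
      set L : ℝ := Real.log ((P * m : ℕ) : ℝ) with hL
      have h2 : Complex.exp ((((L - 2 ^ n) / 2 : ℝ) : ℂ) * I) * Complex.exp ((-(s * L) : ℝ) * I) =
          Complex.exp (((-(s * 2 ^ n) : ℝ) : ℂ) * I) *
            Complex.exp (((-(s' * (L - 2 ^ n)) : ℝ) : ℂ) * I) := by
        rw [← Complex.exp_add, ← Complex.exp_add, ← add_mul, ← add_mul, ← Complex.ofReal_add,
          ← Complex.ofReal_add]
        congr 3
        rw [hs']
        ring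
      calc ((((P * m : ℕ) : ℝ)⁻¹ : ℝ) : ℂ) * (Complex.exp ((((L - 2 ^ n) / 2 : ℝ) : ℂ) * I) *
            (kph (L - 2 ^ n) : ℂ)) * Complex.exp ((-(s * L) : ℝ) * I)
          = ((((P * m : ℕ) : ℝ)⁻¹ : ℝ) : ℂ) * (kph (L - 2 ^ n) : ℂ) *
            (Complex.exp ((((L - 2 ^ n) / 2 : ℝ) : ℂ) * I) * Complex.exp ((-(s * L) : ℝ) * I)) := by
            ring
        _ = _ := by
            rw [h2, Complex.ofReal_mul]
            ring
    rw [h1, norm_mul, Complex.norm_exp_ofReal_mul_I, one_mul]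
  rw [hred]
  set Sm : ℝ := ∑ P ∈ PP n, ∑ m ∈ smX n X, (((P * m : ℕ) : ℝ))⁻¹ *
    kph (Real.log ((P * m : ℕ) : ℝ) - 2 ^ n) with hSm
  have hdiff : ‖(Sm : ℂ) - ∑ P ∈ PP n, ∑ m ∈ smX n X,
      (((((P * m : ℕ) : ℝ))⁻¹ * kph (Real.log ((P * m : ℕ) : ℝ) - 2 ^ n) : ℝ) : ℂ) *
        Complex.exp (((-(s' * (Real.log ((P * m : ℕ) : ℝ) - 2 ^ n)) : ℝ) : ℂ) * I)‖ ≤
      2 * s' ^ (1 / 2 : ℝ) * C := by
    have h1 : (Sm : ℂ) - ∑ P ∈ PP n, ∑ m ∈ smX n X,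
      (((((P * m : ℕ) : ℝ))⁻¹ * kph (Real.log ((P * m : ℕ) : ℝ) - 2 ^ n) : ℝ) : ℂ) *
        Complex.exp (((-(s' * (Real.log ((P * m : ℕ) : ℝ) - 2 ^ n)) : ℝ) : ℂ) * I) =
      ∑ P ∈ PP n, ∑ m ∈ smX n X,
      (((((P * m : ℕ) : ℝ))⁻¹ * kph (Real.log ((P * m : ℕ) : ℝ) - 2 ^ n) : ℝ) : ℂ) *
        (1 - Complex.exp (((-(s' * (Real.log ((P * m : ℕ) : ℝ) - 2 ^ n)) : ℝ) : ℂ) * I)) := by
      rw [hSm]
      simp_rw [Complex.ofReal_sum]
      rw [← Finset.sum_sub_distrib]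
      refine Finset.sum_congr rfl fun P _ => ?_
      rw [← Finset.sum_sub_distrib]
      refine Finset.sum_congr rfl fun m _ => ?_
      ring
    rw [h1]
    refine (norm_sum_le _ _).trans ?_
    have h2 : ∀ P ∈ PP n, ‖∑ m ∈ smX n X,
      (((((P * m : ℕ) : ℝ))⁻¹ * kph (Real.log ((P * m : ℕ) : ℝ) - 2 ^ n) : ℝ) : ℂ) *
        (1 - Complex.exp (((-(s' * (Real.log ((P * m : ℕ) : ℝ) - 2 ^ n)) : ℝ) : ℂ) * I))‖ ≤
        ∑ m ∈ smX n X, (2 * s' ^ (1 / 2 : ℝ)) * ((((P * m : ℕ) : ℝ))⁻¹ *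
      (kph (Real.log ((P * m : ℕ) : ℝ) - 2 ^ n) *
        |Real.log ((P * m : ℕ) : ℝ) - 2 ^ n| ^ (1 / 2 : ℝ))) := by
      intro P _
      refine (norm_sum_le _ _).trans (Finset.sum_le_sum fun m _ => ?_)
      rw [norm_mul, Complex.norm_real, Real.norm_eq_abs, abs_of_nonneg
        (mul_nonneg (inv_nonneg.mpr (Nat.cast_nonneg _)) (kph_nonneg _))]
      set L : ℝ := Real.log ((P * m : ℕ) : ℝ) - 2 ^ n with hL
      have h3 := norm_one_sub_exp_le (s' * L)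
      rw [abs_mul, Real.mul_rpow (abs_nonneg _) (abs_nonneg _), abs_of_nonneg hs'0] at h3
      have h4 : 0 ≤ (((P * m : ℕ) : ℝ))⁻¹ * kph L :=
        mul_nonneg (inv_nonneg.mpr (Nat.cast_nonneg _)) (kph_nonneg _)
      calc (((P * m : ℕ) : ℝ))⁻¹ * kph L * ‖1 - Complex.exp (((-(s' * L) : ℝ) : ℂ) * I)‖
          ≤ (((P * m : ℕ) : ℝ))⁻¹ * kph L * (2 * (s' ^ (1 / 2 : ℝ) * |L| ^ (1 / 2 : ℝ))) :=
            mul_le_mul_of_nonneg_left h3 h4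
        _ = _ := by ring
    refine (Finset.sum_le_sum h2).trans ?_
    simp_rw [← Finset.mul_sum]
    exact mul_le_mul_of_nonneg_left (herr n X) (by positivity)
  have hSmc : c ≤ Sm := hmain n hn X hX
  have h5 : ‖(Sm : ℂ)‖ = Sm := by
    rw [Complex.norm_real, Real.norm_eq_abs, abs_of_nonneg (hc.le.trans hSmc)]
  have h6 : 2 * s' ^ (1 / 2 : ℝ) * C ≤ c / 2 := by
    calc 2 * s' ^ (1 / 2 : ℝ) * C ≤ 2 * (c / (4 * C)) * C := by
          refine mul_le_mul_of_nonneg_right ?_ hC.le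
          exact mul_le_mul_of_nonneg_left hroot (by norm_num)
      _ = c / 2 := by
          field_simp
          norm_num
  have h7 := norm_sub_norm_le (Sm : ℂ) (∑ P ∈ PP n, ∑ m ∈ smX n X,
      (((((P * m : ℕ) : ℝ))⁻¹ * kph (Real.log ((P * m : ℕ) : ℝ) - 2 ^ n) : ℝ) : ℂ) *
        Complex.exp (((-(s' * (Real.log ((P * m : ℕ) : ℝ) - 2 ^ n)) : ℝ) : ℂ) * I))
  rw [h5] at h7
  linarith

end Emb
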