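/-
Embedding problem for Hardy spaces of Dirichlet series (MP_1e909f_an): basic definitions.
Random model: one circle coordinate for every natural number (only primes are used).
-/
import Mathlib

open MeasureTheory Complex
open scoped BigOperators ENNReal

namespace Emb

/-- Configuration space: one circle coordinate for every natural number. -/
abbrev Om : Type := ℕ → UnitAddCircle

/-- Haar probability measure on one circle. -/
noncomputable abbrev haar1 : Measure UnitAddCircle := AddCircle.haarAddCircle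

/-- The product probability measure on `Om`. -/
noncomputable def mu : Measure Om := Measure.infinitePi fun _ : ℕ => haar1

instance : IsProbabilityMeasure mu := by unfold mu; infer_instance

/-- `y_p(t,x) = e(x) p^{-1/2+it}`. -/
noncomputable def yy (p : ℕ) (t : ℝ) (x : UnitAddCircle) : ℂ :=
  fourier 1 x * (((Real.sqrt p)⁻¹ : ℝ) : ℂ) * Complex.exp (((t * Real.log p : ℝ) : ℂ) * I)

/-- `k_p(t,x) = (1 - y)^{-1}`. -/
noncomputable def k1 (p : ℕ) (t : ℝ) (x : UnitAddCircle) : ℂ := (1 - yy p t x)⁻¹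

/-- `m_p(t,x) = (1-1/p)^b (1-y)^{-1} (1 - conj y)^{-b}`. -/
noncomputable def m1 (b : ℝ) (p : ℕ) (t : ℝ) (x : UnitAddCircle) : ℂ :=
  (((1 - 1 / (p : ℝ)) ^ b : ℝ) : ℂ) * k1 p t x * (1 - (starRingEnd ℂ) (yy p t x)) ^ (-(b : ℂ))

/-- The Poisson density `d_p(t,x) = (1-1/p) |k_p(t,x)|^2`. -/
noncomputable def d1 (p : ℕ) (t : ℝ) (x : UnitAddCircle) : ℝ :=
  (1 - 1 / (p : ℝ)) * ‖k1 p t x‖ ^ 2

/-- Product of `k_p` over a finite set. -/
noncomputable def kk (S : Finset ℕ) (t : ℝ) (ω : Om) : ℂ := ∏ p ∈ S, k1 p t (ω p)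

/-- Product of `m_p` over a finite set. -/
noncomputable def mm (b : ℝ) (S : Finset ℕ) (t : ℝ) (ω : Om) : ℂ := ∏ p ∈ S, m1 b p t (ω p)

/-- Product of the Poisson densities over a finite set. -/
noncomputable def dd (S : Finset ℕ) (t : ℝ) (ω : Om) : ℝ := ∏ p ∈ S, d1 p t (ω p)

/-- `U_S = sum over p in S of log p (k_p - 1)`. -/
noncomputable def UU (S : Finset ℕ) (t : ℝ) (ω : Om) : ℂ :=
  ∑ p ∈ S, (Real.log p : ℂ) * (k1 p t (ω p) - 1)

/-- The primes with `2 log p ≤ 2^l` (so `pr 0 = ∅`, `pr 1 = {2}`, `pr 2` = primes up to `e^2`...). -/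
noncomputable def pr (l : ℕ) : Finset ℕ :=
  (Finset.range (⌊Real.exp (2 ^ l)⌋₊ + 1)).filter
    (fun p => p.Prime ∧ 2 * Real.log p ≤ 2 ^ l)

/-- The block number `l`. -/
noncomputable def blk (l : ℕ) : Finset ℕ := pr (l + 1) \ pr l

/-- `mu_l(t) = 2^{-l} prod_{p in pr l} (1-1/p)|k_p(t)|^2`. -/
noncomputable def muL (l : ℕ) (t : ℝ) (ω : Om) : ℝ := (2 ^ l)⁻¹ * dd (pr l) t ω

/-- `Theta_l(t) = 1 + 4^{-l} |U_l(t)|^2`. -/
noncomputable def Th (l : ℕ) (t : ℝ) (ω : Om) : ℝ := 1 + (4 ^ l)⁻¹ * ‖UU (pr l) t ω‖ ^ 2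

/-- The dyadic cell `[i 2^{-l}, (i+1) 2^{-l})`. -/
def cell (l i : ℕ) : Set ℝ := Set.Ico ((i : ℝ) / 2 ^ l) (((i : ℝ) + 1) / 2 ^ l)

/-- Take the coordinates in `S` from `ω`, the other ones from `ω'`. -/
def mix (S : Finset ℕ) (ω ω' : Om) : Om := fun n => if n ∈ S then ω n else ω' n

/-- Conditional expectation (of a nonnegative function) given the coordinates in `S`. -/
noncomputable def El (S : Finset ℕ) (f : Om → ℝ≥0∞) (ω : Om) : ℝ≥0∞ :=
  ∫⁻ ω', f (mix S ω ω') ∂mu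

end Emb
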