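/-
Embedding problem (MP_1e909f_an): further definitions (frequencies, dyadic step functions,
the lifted function, Dirichlet polynomials).
-/
import Pool.Agent.Lib.Emb.Defs

open MeasureTheory Complex
open scoped BigOperators ENNReal

namespace Emb

/-! ### Frequencies -/

/-- Unit mass condition: a weighted family of frequencies with mass at most `D` in every
interval `[n, n+1)`. -/
def UM {ι : Type} (c : ι → ℝ≥0∞) (ξ : ι → ℝ) (D : ℝ≥0∞) : Prop :=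
  ∀ n : ℤ, ∑' i, (if ⌊ξ i⌋ = n then c i else 0) ≤ D

/-- `hat φ ξ = ∫_0^1 φ(t) e^{i t ξ} dt`. -/
noncomputable def hat (φ : ℝ → ℂ) (ξ : ℝ) : ℂ :=
  ∫ t in (0:ℝ)..1, φ t * Complex.exp (((t * ξ : ℝ) : ℂ) * I)

open Classical in
/-- Weights of the early frequencies: pairs `(n1,n2) ≠ (1,1)` of integers composed of primes of
`T`, weight `1/(n1 n2)`, frequency `log n1 - log n2`. -/
noncomputable def cE (T : Finset ℕ) (x : ℕ × ℕ) : ℝ≥0∞ :=
  if x.1 ∈ Nat.factoredNumbers T ∧ x.2 ∈ Nat.factoredNumbers T ∧ x ≠ (1, 1)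
    then ENNReal.ofReal (1 / ((x.1 : ℝ) * x.2)) else 0

/-- Early frequencies. -/
noncomputable def xE (x : ℕ × ℕ) : ℝ := Real.log x.1 - Real.log x.2

open Classical in
/-- Weights of the late frequencies: integers composed of primes of `T' ∪ T` but not of primes of
`T'` alone, weight `1/n`, frequency `log n`. -/
noncomputable def cL (T' T : Finset ℕ) (n : ℕ) : ℝ≥0∞ :=
  if n ∈ Nat.factoredNumbers (T' ∪ T) ∧ n ∉ Nat.factoredNumbers T'
    then ENNReal.ofReal (1 / (n : ℝ)) else 0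

/-- Late frequencies. -/
noncomputable def xL (n : ℕ) : ℝ := Real.log n

/-! ### Dyadic step functions -/

/-- Index of the dyadic cell of level `l` containing `t`. -/
noncomputable def ix (l : ℕ) (t : ℝ) : ℕ := ⌊2 ^ l * t⌋₊

/-- Average over the cell `(l,i)` of the step function with values `a` at level `K` (`l ≤ K`). -/
noncomputable def av (K : ℕ) (a : ℕ → ℝ) (l i : ℕ) : ℝ :=
  (∑ j ∈ Finset.range (2 ^ (K - l)), a (2 ^ (K - l) * i + j)) / 2 ^ (K - l)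

/-- Conditional expectation of level `l` of the step function with values `a` at level `K`. -/
noncomputable def gE (K : ℕ) (a : ℕ → ℝ) (l : ℕ) (t : ℝ) : ℝ := av K a l (ix l t)

/-- Haar martingale differences: `g_k = E_k g - E_{k-1} g` for `1 ≤ k ≤ K`, otherwise `0`. -/
noncomputable def gd (K : ℕ) (a : ℕ → ℝ) (k : ℕ) (t : ℝ) : ℝ :=
  if 1 ≤ k ∧ k ≤ K then gE K a k t - gE K a (k - 1) t else 0

/-- `V_l(i)`: the maximum over the ancestors (levels `j ≤ l`) of the averages of `|a|`;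
for levels beyond `K` the value of level `K`. -/
noncomputable def vV (K : ℕ) (a : ℕ → ℝ) : ℕ → ℕ → ℝ
  | 0, i => av K (fun j => |a j|) 0 i
  | l + 1, i => if l + 1 ≤ K then max (vV K a l (i / 2)) (av K (fun j => |a j|) (l + 1) i)
      else vV K a l (i / 2)

/-- `φ_l = g - E_{l-1} g = Σ_{k ≥ l} g_k` (for a mean zero `g`). -/
noncomputable def phL (K : ℕ) (a : ℕ → ℝ) (l : ℕ) (t : ℝ) : ℝ :=
  ∑ k ∈ Finset.Icc l K, gd K a k t

/-- `A_l(t) = Σ_{k ≥ l} 2^{-(k-l)} g_k(t)^2 + g_{l-1}(t)^2`. -/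
noncomputable def AA (K : ℕ) (a : ℕ → ℝ) (l : ℕ) (t : ℝ) : ℝ :=
  ∑ k ∈ Finset.Icc l K, ((2:ℝ) ^ (k - l))⁻¹ * gd K a k t ^ 2 + gd K a (l - 1) t ^ 2

/-! ### The lifted function -/

/-- `N_l(t) = |M_t^{<l}|^2 + 4^{-l} |∂_t M_t^{<l}|^2`. -/
noncomputable def NN (b : ℝ) (l : ℕ) (t : ℝ) (ω : Om) : ℝ :=
  ‖mm b (pr l) t ω‖ ^ 2 + (4 ^ l)⁻¹ * ‖deriv (fun u => mm b (pr l) u ω) t‖ ^ 2

/-- `X_n = Σ_{k=1}^K ∫_0^1 g_k(t) M_t^{(blocks < min(k+1,n))} K_t^{(blocks in [k+1, n))} dt`. -/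
noncomputable def XX (b : ℝ) (K : ℕ) (a : ℕ → ℝ) (n : ℕ) (ω : Om) : ℂ :=
  ∑ k ∈ Finset.Icc 1 K, ∫ t in (0:ℝ)..1,
    (gd K a k t : ℂ) * (mm b (pr (min (k + 1) n)) t ω * kk (pr n \ pr (k + 1)) t ω)

/-! ### Dirichlet polynomials -/

/-- The Dirichlet polynomial `Σ_{n ≤ N} a_n n^{-s}`. -/
noncomputable def DP (a : ℕ → ℂ) (N : ℕ) (s : ℂ) : ℂ :=
  ∑ n ∈ Finset.Icc 1 N, a n * (n : ℂ) ^ (-s)

/-- The character `z_n` of `Om` (completely multiplicative in `n`). -/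
noncomputable def zn (n : ℕ) (ω : Om) : ℂ :=
  n.factorization.prod fun p e => (fourier (e : ℤ) (ω p) : ℂ)

/-- The Bohr lift of the Dirichlet polynomial. -/
noncomputable def FF (a : ℕ → ℂ) (N : ℕ) (ω : Om) : ℂ :=
  ∑ n ∈ Finset.Icc 1 N, a n * zn n ω

end Emb
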