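/-
CHUNK ELB (partial integration operator; products).

Om = N -> UnitAddCircle, mu = infinitePi haar1, mix S w w' takes the coordinates in S from w and
the others from w'.
`mix_map`: (w,w') ~ mu x mu  =>  mix S w w' ~ mu.  (Measure.eq_infinitePi: check on boxes; a box
 in mix is a product of a box in w (coordinates in S) and a box in w'.) Everything else follows.
`El_dep`: if f depends only on the coordinates in S then f (mix S w w') = f w.
`El_tower`: S subset T: mix S w (mix T w1 w2) has the law: use mix S w w' = mix S w (mix T w' w'')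
 in distribution; El S (El T f) w = int int f(mix T (mix S w w1) w2) and
 mix T (mix S w w1) w2 = mix S w (mix T w1 w2) for S subset T.
`lintegral_El`: int El S f = int f.
`integral_prod_mu`: integral of a product of one-coordinate functions
 (iIndepFun_infinitePi + iIndepFun.integral_fun_prod_comp, or integral_infinitePi_of_piFinset with
 integral_fintype_prod_eq_prod, or Finset induction).
-/
import Pool.Agent.Lib.Emb.Defs2

open MeasureTheory Complex
open scoped BigOperators ENNReal

namespace Emb

theorem measurable_mix (S : Finset ℕ) : Measurable fun z : Om × Om => mix S z.1 z.2 := by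
  unfold mix
  refine measurable_pi_lambda _ fun n => ?_
  by_cases h : n ∈ S
  · simp only [h, if_true]
    exact (measurable_pi_apply n).comp measurable_fst
  · simp only [h, if_false]
    exact (measurable_pi_apply n).comp measurable_snd

theorem continuous_mix (S : Finset ℕ) : Continuous fun z : Om × Om => mix S z.1 z.2 := by
  unfold mix
  refine continuous_pi fun n => ?_
  by_cases h : n ∈ S
  · simp only [h, if_true]
    exact (continuous_apply n).comp continuous_fst
  · simp only [h, if_false]
    exact (continuous_apply n).comp continuous_snd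

theorem measurable_mix_right (S : Finset ℕ) (ω : Om) : Measurable fun ω' : Om => mix S ω ω' :=
  (measurable_mix S).comp (measurable_const.prodMk measurable_id)

theorem mix_map (S : Finset ℕ) : (mu.prod mu).map (fun z : Om × Om => mix S z.1 z.2) = mu := by
  have key : (mu.prod mu).map (fun z : Om × Om => mix S z.1 z.2) =
      Measure.infinitePi fun _ : ℕ => haar1 := by
    apply Measure.eq_infinitePi
    intro s t ht
    have hst : MeasurableSet (Set.pi (s : Set ℕ) t) :=
      MeasurableSet.pi s.countable_toSet fun i _ => ht i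
    rw [Measure.map_apply (measurable_mix S) hst]
    have hpre : (fun z : Om × Om => mix S z.1 z.2) ⁻¹' (Set.pi (s : Set ℕ) t) =
        (Set.pi ((s.filter (fun n => n ∈ S) : Finset ℕ) : Set ℕ) t) ×ˢ
        (Set.pi ((s.filter (fun n => n ∉ S) : Finset ℕ) : Set ℕ) t) := by
      ext z
      simp only [Set.mem_preimage, Set.mem_pi, Finset.mem_coe, Set.mem_prod, Finset.mem_filter, mix]
      constructor
      · intro h
        refine ⟨fun i hi => ?_, fun i hi => ?_⟩
        · have := h i hi.1
          rwa [if_pos hi.2] at this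
        · have := h i hi.1
          rwa [if_neg hi.2] at this
      · rintro ⟨h1, h2⟩ i hi
        by_cases hS : i ∈ S
        · rw [if_pos hS]
          exact h1 i ⟨hi, hS⟩
        · rw [if_neg hS]
          exact h2 i ⟨hi, hS⟩
    rw [hpre, Measure.prod_prod]
    have hmu : mu = Measure.infinitePi fun _ : ℕ => haar1 := rfl
    rw [hmu, Measure.infinitePi_pi _ (fun i _ => ht i), Measure.infinitePi_pi _ (fun i _ => ht i)]
    exact Finset.prod_filter_mul_prod_filter_not s (fun n => n ∈ S) _
  exact key

theorem measurable_El (S : Finset ℕ) {f : Om → ℝ≥0∞} (hf : Measurable f) :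
    Measurable (El S f) := by
  have h : Measurable (fun z : Om × Om => f (mix S z.1 z.2)) := hf.comp (measurable_mix S)
  exact h.lintegral_prod_right'

theorem lintegral_El (S : Finset ℕ) {f : Om → ℝ≥0∞} (hf : Measurable f) :
    ∫⁻ ω, El S f ω ∂mu = ∫⁻ ω, f ω ∂mu := by
  have h : Measurable (fun z : Om × Om => f (mix S z.1 z.2)) := hf.comp (measurable_mix S)
  have h1 := lintegral_prod (μ := mu) (ν := mu) (fun z : Om × Om => f (mix S z.1 z.2))
    h.aemeasurable
  have h2 := lintegral_map (μ := mu.prod mu) hf (measurable_mix S)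
  rw [mix_map S] at h2
  rw [h2, h1]
  rfl

theorem El_dependsOn (S : Finset ℕ) (f : Om → ℝ≥0∞) : DependsOn (El S f) (S : Set ℕ) := by
  intro x y hxy
  have h : ∀ ω', mix S x ω' = mix S y ω' := by
    intro ω'
    funext n
    unfold mix
    by_cases h : n ∈ S
    · rw [if_pos h, if_pos h]
      exact hxy n h
    · rw [if_neg h, if_neg h]
  unfold El
  simp only [h]

theorem El_mul (S : Finset ℕ) {f g : Om → ℝ≥0∞} (hf : Measurable f)
    (hg : DependsOn g (S : Set ℕ)) (ω : Om) :
    El S (fun ω => g ω * f ω) ω = g ω * El S f ω := by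
  have h : ∀ ω', g (mix S ω ω') = g ω := by
    intro ω'
    apply hg
    intro i hi
    unfold mix
    rw [if_pos (by exact_mod_cast hi)]
  unfold El
  simp only [h]
  exact lintegral_const_mul _ (hf.comp (measurable_mix_right S ω))

theorem El_tower {S T : Finset ℕ} (hST : S ⊆ T) {f : Om → ℝ≥0∞} (hf : Measurable f) (ω : Om) :
    El S (El T f) ω = El S f ω := by
  have h : ∀ w1 w2 : Om, mix T (mix S ω w1) w2 = mix S ω (mix T w1 w2) := by
    intro w1 w2
    funext n
    unfold mix
    by_cases hS : n ∈ S
    · have hT := hST hS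
      simp [hS, hT]
    · by_cases hT : n ∈ T
      · simp [hS, hT]
      · simp [hS, hT]
  have h1 : El S (El T f) ω = ∫⁻ w, El T (fun w => f (mix S ω w)) w ∂mu := by
    unfold El
    simp only [h]
  have hm : Measurable (fun w => f (mix S ω w)) := hf.comp (measurable_mix_right S ω)
  rw [h1, lintegral_El T hm]
  rfl

theorem lintegral_mixE (S : Finset ℕ) {f : Om → ℝ≥0∞} (hf : Measurable f) :
    ∫⁻ ω, ∫⁻ ω', f (mix S ω ω') ∂mu ∂mu = ∫⁻ ω, f ω ∂mu :=
  lintegral_El S hf

theorem integrable_of_continuous {f : Om → ℂ} (hf : Continuous f) : Integrable f mu :=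
  hf.integrable_of_hasCompactSupport (HasCompactSupport.of_compactSpace f)

theorem integral_mix (S : Finset ℕ) {f : Om → ℂ} (hf : Continuous f) :
    ∫ ω, ∫ ω', f (mix S ω ω') ∂mu ∂mu = ∫ ω, f ω ∂mu := by
  have hc : Continuous (fun z : Om × Om => f (mix S z.1 z.2)) := hf.comp (continuous_mix S)
  have hi : Integrable (fun z : Om × Om => f (mix S z.1 z.2)) (mu.prod mu) :=
    hc.integrable_of_hasCompactSupport (HasCompactSupport.of_compactSpace _)
  have h1 := integral_prod (μ := mu) (ν := mu) (fun z : Om × Om => f (mix S z.1 z.2)) hi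
  have h2 := integral_map (μ := mu.prod mu) (measurable_mix S).aemeasurable
    (f := f) (by rw [mix_map S]; exact hf.aestronglyMeasurable)
  rw [mix_map S] at h2
  rw [h2, h1]

theorem integral_prod_mu (S : Finset ℕ) (f : ℕ → UnitAddCircle → ℂ)
    (hf : ∀ p ∈ S, Continuous (f p)) :
    ∫ ω, ∏ p ∈ S, f p (ω p) ∂mu = ∏ p ∈ S, ∫ x, f p x ∂haar1 := by
  have h1 := integral_restrict_infinitePi (μ := fun _ : ℕ => haar1) (s := S)
    (f := fun y : (Π _ : S, UnitAddCircle) => ∏ p : S, f p (y p)) (by
      apply Continuous.aestronglyMeasurable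
      apply continuous_finsetProd
      intro p _
      exact (hf p p.2).comp (continuous_apply p))
  have h2 := integral_fintype_prod_eq_prod (ι := S) (𝕜 := ℂ) (E := fun _ => UnitAddCircle)
    (μ := fun _ => haar1) (fun p : S => f p)
  rw [h2] at h1
  have h3 : ∏ p : S, ∫ x, f p x ∂haar1 = ∏ p ∈ S, ∫ x, f p x ∂haar1 :=
    Finset.prod_coe_sort S (fun p => ∫ x, f p x ∂haar1)
  rw [h3] at h1
  rw [← h1]
  have h4 : ∀ ω : Om, ∏ p ∈ S, f p (ω p) = ∏ p : S, f p (S.restrict ω p) := by
    intro ω
    exact (Finset.prod_coe_sort S (fun p => f p (ω p))).symm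
  simp only [h4]
  rfl

end Emb
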