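import Mathlib

/-!
# Finite sums over integers composed of given primes
-/

open scoped BigOperators

namespace Emb

/-- A finite sum of a completely multiplicative function over integers composed of the primes of
`N` is at most the Euler product. -/
theorem sum_le_euler (f : ℕ →* ℝ) (hf : ∀ n, 0 ≤ f n) (hlt : ∀ p : ℕ, p.Prime → f p < 1)
    (N : Finset ℕ) (hN : ∀ p ∈ N, p.Prime) (A : Finset ℕ)
    (hA : ∀ m ∈ A, m ∈ Nat.factoredNumbers N) :
    ∑ m ∈ A, f m ≤ ∏ p ∈ N, (1 - f p)⁻¹ := by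
  have h1 := (EulerProduct.summable_and_hasSum_factoredNumbers_prod_filter_prime_geometric
    (f := f) (fun {p} hp => by rw [Real.norm_of_nonneg (hf p)]; exact hlt p hp) N).2
  have h2 : N.filter Nat.Prime = N := Finset.filter_true_of_mem hN
  rw [h2] at h1
  let s : Finset (Nat.factoredNumbers N) := A.attach.map ⟨fun m => ⟨m.1, hA m.1 m.2⟩,
    fun a b hab => by
      apply Subtype.ext
      exact congrArg (fun x => x.1) hab⟩
  have h4 := sum_le_hasSum s (fun i _ => hf _) h1
  refine le_trans (le_of_eq ?_) h4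
  rw [Finset.sum_map]
  simp only [Function.Embedding.coeFn_mk]
  exact (Finset.sum_attach A fun m => f m).symm

/-- The reciprocal map as a monoid homomorphism. -/
noncomputable def recH : ℕ →* ℝ :=
  (invMonoidHom : ℝ →* ℝ).comp (Nat.castRingHom ℝ : ℕ →* ℝ)

theorem recH_apply (m : ℕ) : recH m = 1 / (m : ℝ) := by
  rw [one_div]
  rfl

theorem sum_inv_le_euler (N : Finset ℕ) (hN : ∀ p ∈ N, p.Prime) (A : Finset ℕ)
    (hA : ∀ m ∈ A, m ∈ Nat.factoredNumbers N) :
    ∑ m ∈ A, 1 / (m : ℝ) ≤ ∏ p ∈ N, (1 - 1 / (p : ℝ))⁻¹ := by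
  have h1 := sum_le_euler recH (fun n => by rw [recH_apply]; positivity)
    (fun p hp => by
      rw [recH_apply]
      have : (1 : ℝ) < p := by exact_mod_cast hp.one_lt
      rw [div_lt_one (by linarith)]
      exact this) N hN A hA
  simpa only [recH_apply] using h1

/-- Chebyshev's upper bound for a finite set of primes. -/
theorem sum_log_le_of_le {x : ℝ} (hx : 0 ≤ x) (S : Finset ℕ)
    (hS : ∀ p ∈ S, p.Prime ∧ (p : ℝ) ≤ x) :
    ∑ p ∈ S, Real.log p ≤ Real.log 4 * x := by
  refine le_trans ?_ (Chebyshev.theta_le_log4_mul_x hx)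
  unfold Chebyshev.theta
  apply Finset.sum_le_sum_of_subset_of_nonneg
  · intro p hp
    obtain ⟨h1, h2⟩ := hS p hp
    rw [Finset.mem_filter, Finset.mem_Ioc]
    exact ⟨⟨h1.pos, Nat.le_floor h2⟩, h1⟩
  · intro p hp _
    have h1 : (1 : ℝ) ≤ p := by exact_mod_cast (Finset.mem_filter.mp hp).2.one_le
    exact Real.log_nonneg h1

end Emb
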