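import Pool.Agent.Lib.Emb.CoreBasic
import Pool.Agent.Lib.Emb.Defs2

/-!
# Negative half (`p < 2`): definitions

Fix a level `n`, `y = exp(2^(n-1))` (so `pr n` = primes `≤ y`), `log x = 2^n`.  The test function is
`f = ∑_{P, m} (P m)^{-1/2} φ(log(P m) - 2^n) z(P m)`, `P` in the set `PP n` of large primes
(`2^(n-1) < log P ≤ 2^(n+1)`), `m` running over the `pr n`-smooth numbers, where
`φ(u) = ∫_0^1 τ(t) e^{itu} dt`, `τ(t) = 1 - |2t-1|`.  Summing over `m`: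
`f = ∑_P P^{-1/2} z_P ∫_0^1 kk (pr n) t ω τ(t) e^{it(log P - 2^n)} dt`.
-/

open MeasureTheory Complex ProbabilityTheory
open scoped BigOperators ENNReal

namespace Emb

/-- The large primes. -/
noncomputable def PP (n : ℕ) : Finset ℕ := pr (n + 2) \ pr n

/-- The tent function on `[0,1]`. -/
noncomputable def tau (t : ℝ) : ℝ := 1 - |2 * t - 1|

/-- `φ(u) = ∫_0^1 τ(t) e^{itu} dt`. -/
noncomputable def phiT (u : ℝ) : ℂ := ∫ t in (0 : ℝ)..1, (tau t : ℂ) * Complex.exp (((t * u : ℝ) : ℂ) * I)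

/-- `k(u) = 4 (1 - cos (u/2)) / u²`, `k(0) = 1/2`; one has `φ(u) = e^{iu/2} k(u)`. -/
noncomputable def kph (u : ℝ) : ℝ := if u = 0 then 1 / 2 else 4 * (1 - Real.cos (u / 2)) / u ^ 2

/-- The coefficient of `z_P` in the test function. -/
noncomputable def GP (n P : ℕ) (ω : Om) : ℂ :=
  ∫ t in (0 : ℝ)..1, kk (pr n) t ω * (tau t : ℂ) *
    Complex.exp (((t * (Real.log P - 2 ^ n) : ℝ) : ℂ) * I)

/-- The test function. -/
noncomputable def ff (n : ℕ) (ω : Om) : ℂ :=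
  ∑ P ∈ PP n, (((Real.sqrt P)⁻¹ : ℝ) : ℂ) * fourier 1 (ω P) * GP n P ω

/-- The `pr n`-smooth numbers up to `X`. -/
noncomputable def smX (n X : ℕ) : Finset ℕ :=
  (Finset.Icc 1 X).filter (fun m => m.primeFactors ⊆ pr n)

/-- The truncated test function. -/
noncomputable def fX (n X : ℕ) (ω : Om) : ℂ :=
  ∑ P ∈ PP n, ∑ m ∈ smX n X, (((Real.sqrt ((P * m : ℕ) : ℝ))⁻¹ : ℝ) : ℂ) *
    phiT (Real.log ((P * m : ℕ) : ℝ) - 2 ^ n) * zn (P * m) ω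

/-- Its Dirichlet series at `1/2 + i s`. -/
noncomputable def FX (n X : ℕ) (s : ℝ) : ℂ :=
  ∑ P ∈ PP n, ∑ m ∈ smX n X, ((((P * m : ℕ) : ℝ)⁻¹ : ℝ) : ℂ) *
    phiT (Real.log ((P * m : ℕ) : ℝ) - 2 ^ n) *
      Complex.exp ((-(s * Real.log ((P * m : ℕ) : ℝ)) : ℝ) * I)

/-- The Dirichlet coefficients of the truncated test function. -/
noncomputable def aX (n X N : ℕ) : ℂ :=
  ∑ P ∈ PP n, ∑ m ∈ smX n X, if P * m = N then
    (((Real.sqrt (N : ℝ))⁻¹ : ℝ) : ℂ) * phiT (Real.log (N : ℝ) - 2 ^ n) else 0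

/-- `W_n = ∫_0^1 ∏ (Poisson densities)`. -/
noncomputable def WW (n : ℕ) (ω : Om) : ℝ≥0∞ :=
  ∫⁻ t in cell 0 0, ENNReal.ofReal (dd (pr n) t ω)

end Emb
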