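import Pool.Agent.Lib.Emb.CoreNT
import Pool.Agent.Lib.Emb.NegDefs
import Pool.Agent.Lib.Emb.EulerAux

/-!
# Chunk NN: Chebyshev bounds on short logarithmic intervals

Mathlib (`Mathlib/NumberTheory/Chebyshev.lean`) has `θ(x) ≤ log 4 · x` and lower bounds for `θ`, `ψ`.
`cheb_upper`: primes with `v ≤ log p < v+1`: `∑ 1/p ≤ e^{-v} #{...} ≤ e^{-v} θ(e^{v+1})/v ≤ C/v` for
`v ≥ log 2`; for small `v` trivial (finitely many primes).
`cheb_lower`: `∑_{v < log p ≤ v+2} 1/p ≥ e^{-v-2} (θ(e^{v+2}) - θ(e^v)) /(v+2)` and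
`θ(e^{v+2}) - θ(e^v) ≥ (0.6 e² - 1.4) e^v ≥ e^v` for `v` large.
-/

open scoped BigOperators

namespace Emb

theorem cheb_upper : ∃ C : ℝ, 0 < C ∧ ∀ (v : ℝ) (_ : 0 ≤ v) (S : Finset ℕ),
    (∀ p ∈ S, p.Prime ∧ v ≤ Real.log p ∧ Real.log p < v + 1) →
    ∑ p ∈ S, 1 / (p : ℝ) ≤ C / (1 + v) := by
  have hlog4 : 0 < Real.log 4 := Real.log_pos (by norm_num)
  refine ⟨5 / 2 * (Real.log 4 * Real.exp 1), by positivity, fun v hv S hS => ?_⟩
  rw [le_div_iff₀ (by linarith)]
  have h1 : ∀ p ∈ S, 1 / (p : ℝ) * (1 + v) ≤ 5 / 2 * Real.exp (-v) * Real.log p := by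
    intro p hp
    obtain ⟨hpp, h2, -⟩ := hS p hp
    have hp2 : (2 : ℝ) ≤ p := by exact_mod_cast hpp.two_le
    have hp0 : (0 : ℝ) < p := by linarith
    have h3 : Real.log 2 ≤ Real.log p := Real.log_le_log (by norm_num) hp2
    have h4 := Real.log_two_gt_d9
    have h5 : Real.exp v ≤ p := by
      rw [← Real.le_log_iff_exp_le hp0]; exact h2
    have h6 : 1 / (p : ℝ) ≤ Real.exp (-v) := by
      rw [Real.exp_neg, ← one_div]
      exact one_div_le_one_div_of_le (Real.exp_pos _) h5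
    have h7 : 1 + v ≤ 5 / 2 * Real.log p := by nlinarith
    calc 1 / (p : ℝ) * (1 + v) ≤ Real.exp (-v) * (5 / 2 * Real.log p) := by
          apply mul_le_mul h6 h7 (by linarith) (Real.exp_pos _).le
      _ = _ := by ring
  have h8 : ∑ p ∈ S, Real.log p ≤ Real.log 4 * Real.exp (v + 1) := by
    apply sum_log_le_of_le (Real.exp_pos _).le
    intro p hp
    obtain ⟨hpp, -, h2⟩ := hS p hp
    refine ⟨hpp, ?_⟩
    have hp0 : (0 : ℝ) < p := by exact_mod_cast hpp.pos
    exact ((Real.log_lt_iff_lt_exp hp0).mp h2).le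
  rw [Finset.sum_mul]
  calc _ ≤ ∑ p ∈ S, 5 / 2 * Real.exp (-v) * Real.log p := Finset.sum_le_sum h1
    _ = 5 / 2 * Real.exp (-v) * ∑ p ∈ S, Real.log p := by rw [Finset.mul_sum]
    _ ≤ 5 / 2 * Real.exp (-v) * (Real.log 4 * Real.exp (v + 1)) := by gcongr
    _ = 5 / 2 * (Real.log 4 * (Real.exp (-v) * Real.exp (v + 1))) := by ring
    _ = _ := by
      rw [← Real.exp_add, show -v + (v + 1) = 1 by ring]

theorem eventually_theta_ge : ∀ᶠ x : ℝ in Filter.atTop, 0.6 * x ≤ Chebyshev.theta x := by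
  have h1 := (isLittleO_log_rpow_atTop (show (0 : ℝ) < 1 / 2 by norm_num)).bound
    (show (0 : ℝ) < 0.01 by norm_num)
  filter_upwards [h1, Filter.eventually_ge_atTop (100 : ℝ)] with x h2 hx
  have hx0 : 0 < x := by linarith
  have h3 := Chebyshev.theta_ge' (x := x) (by linarith)
  have hlog : 0 ≤ Real.log x := Real.log_nonneg (by linarith)
  rw [Real.norm_of_nonneg hlog, Real.norm_of_nonneg (by positivity), ← Real.sqrt_eq_rpow] at h2
  have hsq : Real.sqrt x * Real.sqrt x = x := Real.mul_self_sqrt hx0.le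
  have hs0 : 0 ≤ Real.sqrt x := Real.sqrt_nonneg x
  have hs1 : Real.sqrt x ≤ x := by
    rw [Real.sqrt_le_left hx0.le]
    nlinarith
  have h4 : 2 * Real.sqrt x * Real.log x ≤ 0.02 * x := by nlinarith
  have h5 : Real.log (x + 2) ≤ 2 * Real.log x := by
    have h6 : Real.log (x + 2) ≤ Real.log (x ^ 2) := by
      apply Real.log_le_log (by linarith)
      nlinarith
    rwa [Real.log_pow, Nat.cast_ofNat] at h6
  have h6 := Real.log_two_gt_d9
  have h7 := Real.log_two_lt_d9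
  nlinarith

theorem cheb_lower : ∃ c v0 : ℝ, 0 < c ∧ 1 ≤ v0 ∧ ∀ (v : ℝ) (_ : v0 ≤ v) (S : Finset ℕ),
    (∀ p : ℕ, p.Prime → v < Real.log p → Real.log p ≤ v + 2 → p ∈ S) →
    c / v ≤ ∑ p ∈ S.filter (fun p : ℕ => v < Real.log p ∧ Real.log p ≤ v + 2 ∧ p.Prime), 1 / (p : ℝ) := by
  obtain ⟨x0, hx0⟩ := Filter.eventually_atTop.mp eventually_theta_ge
  refine ⟨1 / 9, max 1 x0, by norm_num, le_max_left _ _, fun v hv S hS => ?_⟩
  have hv1 : 1 ≤ v := (le_max_left _ _).trans hv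
  have hv2 : x0 ≤ v := (le_max_right _ _).trans hv
  set F := S.filter (fun p : ℕ => v < Real.log p ∧ Real.log p ≤ v + 2 ∧ p.Prime) with hF
  have h1 : 0.6 * Real.exp (v + 2) ≤ Chebyshev.theta (Real.exp (v + 2)) := by
    apply hx0
    have := Real.add_one_le_exp (v + 2)
    linarith
  have h2 : Chebyshev.theta (Real.exp v) ≤ Real.log 4 * Real.exp v :=
    Chebyshev.theta_le_log4_mul_x (Real.exp_pos _).le
  have h3 : Chebyshev.theta (Real.exp (v + 2)) ≤
      Chebyshev.theta (Real.exp v) + ∑ p ∈ F, Real.log p := by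
    unfold Chebyshev.theta
    have hsub : (Finset.Ioc 0 ⌊Real.exp (v + 2)⌋₊).filter Nat.Prime ⊆
        (Finset.Ioc 0 ⌊Real.exp v⌋₊).filter Nat.Prime ∪ F := by
      intro p hp
      obtain ⟨h4, hpp⟩ := Finset.mem_filter.mp hp
      have h5 := (Finset.mem_Ioc.mp h4).2
      have hp0 : (0 : ℝ) < p := by exact_mod_cast hpp.pos
      rw [Nat.le_floor_iff (Real.exp_pos _).le, ← Real.log_le_iff_le_exp hp0] at h5
      rw [Finset.mem_union]
      rcases le_or_gt (Real.log p) v with h | h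
      · left
        rw [Finset.mem_filter, Finset.mem_Ioc]
        refine ⟨⟨hpp.pos, ?_⟩, hpp⟩
        rw [Nat.le_floor_iff (Real.exp_pos _).le, ← Real.log_le_iff_le_exp hp0]
        exact h
      · right
        rw [hF, Finset.mem_filter]
        exact ⟨hS p hpp h h5, h, h5, hpp⟩
    have hnn : ∀ p ∈ (Finset.Ioc 0 ⌊Real.exp v⌋₊).filter Nat.Prime ∪ F, 0 ≤ Real.log (p : ℝ) :=
      fun p _ => Real.log_natCast_nonneg p
    refine (Finset.sum_le_sum_of_subset_of_nonneg hsub fun p hp _ => hnn p hp).trans ?_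
    rw [← Finset.sum_union_inter]
    have : 0 ≤ ∑ p ∈ (Finset.Ioc 0 ⌊Real.exp v⌋₊).filter Nat.Prime ∩ F, Real.log (p : ℝ) :=
      Finset.sum_nonneg fun p _ => Real.log_natCast_nonneg p
    linarith
  have h4 : ∑ p ∈ F, Real.log p ≤ ∑ p ∈ F, 1 / (p : ℝ) * (Real.exp (v + 2) * (v + 2)) := by
    refine Finset.sum_le_sum fun p hp => ?_
    obtain ⟨-, h5, h6, hpp⟩ := Finset.mem_filter.mp hp
    have hp0 : (0 : ℝ) < p := by exact_mod_cast hpp.pos
    have h7 := (Real.log_le_iff_le_exp hp0).mp h6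
    have h8 : 1 ≤ 1 / (p : ℝ) * Real.exp (v + 2) := by
      rw [one_div_mul_eq_div, one_le_div hp0]; exact h7
    calc Real.log p ≤ 1 * (v + 2) := by linarith
      _ ≤ 1 / (p : ℝ) * Real.exp (v + 2) * (v + 2) := by
        apply mul_le_mul_of_nonneg_right h8 (by linarith)
      _ = _ := by ring
  rw [← Finset.sum_mul] at h4
  have he : Real.exp (v + 2) = Real.exp v * Real.exp 2 := Real.exp_add _ _
  have he2 : Real.exp 2 = Real.exp 1 * Real.exp 1 := by rw [← Real.exp_add]; norm_num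
  have h5 := Real.exp_one_gt_d9
  have h6 := Real.exp_one_lt_d9
  have h7 : (7.38 : ℝ) ≤ Real.exp 2 := by rw [he2]; nlinarith
  have h8 : Real.exp 2 ≤ 7.4 := by rw [he2]; nlinarith
  have h9 : Real.log 4 ≤ 1.39 := by
    have h10 : Real.log 4 = 2 * Real.log 2 := by
      rw [show (4 : ℝ) = 2 ^ 2 by norm_num, Real.log_pow]; push_cast; ring
    have := Real.log_two_lt_d9
    linarith
  have hev : 0 < Real.exp v := Real.exp_pos v
  set s := ∑ p ∈ F, 1 / (p : ℝ) with hs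
  have hs0 : 0 ≤ s := Finset.sum_nonneg fun p _ => by positivity
  -- `3 e^v ≤ s e^{v+2} (v+2)`
  have h10 : 3 * Real.exp v ≤ s * (Real.exp v * Real.exp 2 * (v + 2)) := by
    rw [← he]
    refine le_trans ?_ h4
    have h11 : 0.6 * (Real.exp v * Real.exp 2) - 1.39 * Real.exp v ≤ ∑ p ∈ F, Real.log p := by
      rw [← he]
      nlinarith
    nlinarith
  have h11 : 3 ≤ s * Real.exp 2 * (v + 2) := by
    have : Real.exp v * 3 ≤ Real.exp v * (s * Real.exp 2 * (v + 2)) := by nlinarith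
    exact le_of_mul_le_mul_left this hev
  have h12 : s * Real.exp 2 * (v + 2) ≤ s * 7.4 * (3 * v) := by
    apply mul_le_mul _ (by linarith) (by linarith) (by positivity)
    apply mul_le_mul_of_nonneg_left h8 hs0
  rw [div_le_iff₀ (by linarith)]
  linarith

/-- Unit mass of the large primes. -/
theorem PP_unit : ∃ C : ℝ, 0 < C ∧ ∀ (n : ℕ) (v : ℝ),
    ∑ p ∈ (PP n).filter (fun p : ℕ => v ≤ Real.log p ∧ Real.log p < v + 1), 1 / (p : ℝ) ≤ C / 2 ^ n := by
  obtain ⟨C, hC, h⟩ := cheb_upper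
  refine ⟨2 * C, by positivity, fun n v => ?_⟩
  have hPP : ∀ p ∈ PP n, p.Prime ∧ (2 : ℝ) ^ n / 2 < Real.log p := by
    intro p hp
    obtain ⟨h1, h2⟩ := Finset.mem_sdiff.mp hp
    have h3 := pr_prime h1
    refine ⟨h3, ?_⟩
    by_contra h4
    push Not at h4
    exact h2 (mem_pr.mpr ⟨h3, by linarith⟩)
  have h2n : (0 : ℝ) < 2 ^ n := by positivity
  by_cases hv : v + 1 ≤ 2 ^ n / 2
  · have : (PP n).filter (fun p : ℕ => v ≤ Real.log p ∧ Real.log p < v + 1) = ∅ := by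
      apply Finset.filter_eq_empty_iff.mpr
      rintro p hp ⟨-, h2⟩
      have := (hPP p hp).2
      linarith
    rw [this, Finset.sum_empty]
    positivity
  · push Not at hv
    rcases le_or_gt 0 v with h0 | h0
    · have h1 := h v h0 ((PP n).filter (fun p : ℕ => v ≤ Real.log p ∧ Real.log p < v + 1))
        (fun p hp => by
          obtain ⟨h2, h3, h4⟩ := Finset.mem_filter.mp hp
          exact ⟨(hPP p h2).1, h3, h4⟩)
      refine h1.trans ?_
      rw [div_le_div_iff₀ (by linarith) h2n]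
      nlinarith
    · have h1 := h 0 le_rfl ((PP n).filter (fun p : ℕ => v ≤ Real.log p ∧ Real.log p < v + 1))
        (fun p hp => by
          obtain ⟨h2, h3, h4⟩ := Finset.mem_filter.mp hp
          refine ⟨(hPP p h2).1, Real.log_natCast_nonneg p, by linarith⟩)
      refine h1.trans ?_
      rw [div_le_div_iff₀ (by norm_num) h2n]
      nlinarith

/-- `∑_{m smooth} 1/m ≤ C 2^n` (Euler product, `mertens_pr`). -/
theorem sum_smooth_le : ∃ C : ℝ, 0 < C ∧ ∀ (n X : ℕ), ∑ m ∈ smX n X, 1 / (m : ℝ) ≤ C * 2 ^ n := by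
  obtain ⟨K, hK1, hK⟩ := mertens_pr
  refine ⟨K, by linarith, fun n X => ?_⟩
  refine le_trans ?_ (hK n).2
  apply sum_inv_le_euler _ (fun p hp => pr_prime hp)
  intro m hm
  obtain ⟨h1, h2⟩ := Finset.mem_filter.mp hm
  have h3 := (Finset.mem_Icc.mp h1).1
  rw [Nat.mem_factoredNumbers_iff_primeFactors_subset]
  exact ⟨by omega, h2⟩

end Emb
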