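import Pool.Agent.Lib.Emb.NegLS
import Pool.Agent.Lib.Emb.NegNT
import Pool.Agent.Lib.Emb.ElB

/-!
# Chunk NM: the `p`-th moment of the test function, `1 ≤ p ≤ 2`

`GP n P ω` depends on the coordinates in `pr n` only and `P ∉ pr n` for `P ∈ PP n`.
`lintegral_mix` is in `ElB.lean` (chunk of helper77's half).
`cond_moment`: for fixed `ω`: `∫ |∑_P c_P e(x_P)|^p ≤ (∫ |…|²)^{p/2} = (∑ |c_P|²)^{p/2}` (Jensen /
`lintegral_rpow` monotonicity of norms on a probability space, orthonormality of the `e(x_P)`).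
`sum_GP`: `∑_P |GP|²/P ≤ C (ρ = C'/2^n) ∫_0^1 |kk|² τ² ≤ C'' ∫_0^1 dd (pr n) = C'' WW`, by `ls_finite`,
`PP_unit`, `|kk|² = V_n dd(pr n)`, `V_n ≤ K 2^n` (`mertens_pr`).
-/

open MeasureTheory Complex
open scoped BigOperators ENNReal

namespace Emb

private lemma int_four {n : ℤ} (hn : n ≠ 0) : ∫ x, (fourier n (x : UnitAddCircle) : ℂ) ∂haar1 = 0 :=
  integral_eq_zero_of_add_right_eq_neg (μ := haar1) (fourier_add_half_inv_index hn Fact.out)

private lemma cont_four (n : ℤ) (P : ℕ) : Continuous fun ω : Om => (fourier n (ω P) : ℂ) :=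
  (fourier n).continuous.comp (continuous_apply P)

private lemma conj_four (x : UnitAddCircle) :
    (starRingEnd ℂ) (fourier 1 x : ℂ) = (fourier (-1) x : ℂ) := by
  rw [fourier_neg]

private lemma int_two {P R : ℕ} (h : P ≠ R) :
    ∫ ω, (fourier 1 ((ω : Om) P) : ℂ) * (fourier (-1) (ω R) : ℂ) ∂mu = 0 := by
  have h1 := integral_prod_mu ({P, R} : Finset ℕ)
    (fun p x => if p = P then (fourier 1 x : ℂ) else (fourier (-1) x : ℂ)) (by
      intro p _
      by_cases hp : p = P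
      · simp only [hp, if_true]; exact (fourier 1).continuous
      · simp only [if_neg hp]; exact (fourier (-1)).continuous)
  simp only [Finset.prod_pair h, if_true, if_neg h.symm] at h1
  rw [h1, int_four one_ne_zero, zero_mul]

private lemma second_moment (S : Finset ℕ) (c : ℕ → ℂ) :
    ∫ ω, ‖∑ P ∈ S, c P * (fourier 1 ((ω : Om) P) : ℂ)‖ ^ 2 ∂mu = ∑ P ∈ S, ‖c P‖ ^ 2 := by
  have hexp : ∀ ω : Om, ((‖∑ P ∈ S, c P * (fourier 1 (ω P) : ℂ)‖ ^ 2 : ℝ) : ℂ) =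
      ∑ P ∈ S, ∑ R ∈ S, (c P * (starRingEnd ℂ) (c R)) *
        ((fourier 1 (ω P) : ℂ) * (fourier (-1) (ω R) : ℂ)) := by
    intro ω
    rw [← Complex.normSq_eq_norm_sq, Complex.normSq_eq_conj_mul_self, mul_comm, map_sum,
      Finset.sum_mul_sum]
    refine Finset.sum_congr rfl fun P _ => Finset.sum_congr rfl fun R _ => ?_
    rw [map_mul, conj_four]
    ring
  have hint : ∀ P R : ℕ, Integrable (fun ω : Om =>
      (c P * (starRingEnd ℂ) (c R)) * ((fourier 1 (ω P) : ℂ) * (fourier (-1) (ω R) : ℂ))) mu :=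
    fun P R => integrable_of_continuous
      (continuous_const.mul ((cont_four 1 P).mul (cont_four (-1) R)))
  have h1 : ((∫ ω, ‖∑ P ∈ S, c P * (fourier 1 ((ω : Om) P) : ℂ)‖ ^ 2 ∂mu : ℝ) : ℂ) =
      ((∑ P ∈ S, ‖c P‖ ^ 2 : ℝ) : ℂ) := by
    rw [← integral_complex_ofReal]
    simp only [hexp]
    rw [integral_finsetSum _ fun P _ => integrable_finsetSum _ fun R _ => hint P R]
    rw [Complex.ofReal_sum]
    refine Finset.sum_congr rfl fun P hP => ?_
    rw [integral_finsetSum _ fun R _ => hint P R, Finset.sum_eq_single P]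
    · rw [integral_const_mul]
      have h2 : ∀ ω : Om, (fourier 1 (ω P) : ℂ) * (fourier (-1) (ω P) : ℂ) = 1 := by
        intro ω
        rw [← fourier_add, add_neg_cancel, fourier_zero]
      simp only [h2]
      rw [integral_const, probReal_univ, one_smul, mul_one, mul_comm,
        ← Complex.normSq_eq_conj_mul_self, Complex.normSq_eq_norm_sq]
    · intro R _ hR
      rw [integral_const_mul, int_two hR.symm, mul_zero]
    · intro h
      exact absurd hP h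
  exact_mod_cast h1

theorem cond_moment (p : ℝ) (hp1 : 1 ≤ p) (hp2 : p ≤ 2) (S : Finset ℕ) (c : ℕ → ℂ) :
    ∫⁻ ω, ENNReal.ofReal (‖∑ P ∈ S, c P * (fourier 1 (ω P) : ℂ)‖ ^ p) ∂mu ≤
      ENNReal.ofReal ((∑ P ∈ S, ‖c P‖ ^ 2) ^ (p / 2)) := by
  set f : Om → ℂ := fun ω => ∑ P ∈ S, c P * (fourier 1 (ω P) : ℂ) with hf
  have hfc : Continuous f :=
    continuous_finsetSum _ fun P _ => continuous_const.mul (cont_four 1 P)
  have hp0 : 0 < p := by linarith
  have h1 := eLpNorm_le_eLpNorm_of_exponent_le (p := ENNReal.ofReal p) (q := 2) (μ := mu)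
    (by rw [← ENNReal.ofReal_ofNat 2]; exact ENNReal.ofReal_le_ofReal hp2)
    hfc.aestronglyMeasurable
  rw [eLpNorm_eq_lintegral_rpow_enorm_toReal (by simpa using hp0) ENNReal.ofReal_ne_top,
    eLpNorm_eq_lintegral_rpow_enorm_toReal (by norm_num) (by norm_num),
    ENNReal.toReal_ofReal hp0.le, ENNReal.toReal_ofNat] at h1
  have h2 : ∀ (r : ℝ) (_ : 0 ≤ r) (ω : Om), ‖f ω‖ₑ ^ r = ENNReal.ofReal (‖f ω‖ ^ r) := by
    intro r hr ω
    rw [← ofReal_norm, ENNReal.ofReal_rpow_of_nonneg (norm_nonneg _) hr]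
  simp only [h2 p hp0.le, h2 2 (by norm_num)] at h1
  have h3 : ∫⁻ ω, ENNReal.ofReal (‖f ω‖ ^ (2 : ℝ)) ∂mu = ENNReal.ofReal (∑ P ∈ S, ‖c P‖ ^ 2) := by
    rw [← second_moment S c, ofReal_integral_eq_lintegral_ofReal]
    · refine lintegral_congr fun ω => ?_
      rw [← Real.rpow_natCast]
      norm_num [hf]
    · have hc2 : Continuous fun ω => ‖f ω‖ ^ 2 := hfc.norm.pow 2
      obtain ⟨C, hC⟩ := isCompact_univ.exists_bound_of_continuousOn hc2.continuousOn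
      exact Integrable.of_bound hc2.aestronglyMeasurable C
        (Filter.Eventually.of_forall fun ω => hC ω (Set.mem_univ _))
    · exact Filter.Eventually.of_forall fun ω => by simp only [Pi.zero_apply]; positivity
  rw [h3] at h1
  have h4 := ENNReal.rpow_le_rpow h1 hp0.le
  rw [← ENNReal.rpow_mul, one_div, inv_mul_cancel₀ hp0.ne', ENNReal.rpow_one,
    ← ENNReal.rpow_mul] at h4
  refine h4.trans (le_of_eq ?_)
  rw [ENNReal.ofReal_rpow_of_nonneg (by positivity) (by positivity)]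
  congr 2
  ring

private lemma mem_PP {n P : ℕ} (h : P ∈ PP n) : P.Prime ∧ P ∉ pr n := by
  unfold PP at h
  rw [Finset.mem_sdiff] at h
  exact ⟨pr_prime h.1, h.2⟩

private lemma tau_bd {t : ℝ} (h0 : 0 ≤ t) (h1 : t ≤ 1) : 0 ≤ tau t ∧ tau t ≤ 1 := by
  unfold tau
  have h2 : |2 * t - 1| ≤ 1 := abs_le.2 ⟨by linarith, by linarith⟩
  exact ⟨by linarith, by linarith [abs_nonneg (2 * t - 1)]⟩

private lemma continuous_tau : Continuous tau := by
  unfold tau
  fun_prop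

private lemma cont_t {S : Finset ℕ} (hS : ∀ p ∈ S, p.Prime) (ω : Om) :
    Continuous (fun t : ℝ => kk S t ω) ∧ Continuous (fun t : ℝ => dd S t ω) := by
  have h0 : Continuous (fun t : ℝ => ((t, ω) : ℝ × Om)) := by fun_prop
  have h1 := (continuous_kk hS).comp h0
  have h2 := (continuous_dd hS).comp h0
  exact ⟨h1, h2⟩

private lemma kk_sq {S : Finset ℕ} (hS : ∀ p ∈ S, p.Prime) (t : ℝ) (ω : Om) :
    ‖kk S t ω‖ ^ 2 = (∏ p ∈ S, (1 - 1 / (p : ℝ))⁻¹) * dd S t ω := by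
  unfold kk dd
  rw [norm_prod, ← Finset.prod_pow, ← Finset.prod_mul_distrib]
  refine Finset.prod_congr rfl fun p hp => ?_
  unfold d1
  have hp2 : (2 : ℝ) ≤ p := by exact_mod_cast (hS p hp).two_le
  have h1 : (1 : ℝ) - 1 / (p : ℝ) ≠ 0 := by
    have : 1 / (p : ℝ) ≤ 1 / 2 := one_div_le_one_div_of_le (by norm_num) hp2
    linarith
  rw [← mul_assoc, inv_mul_cancel₀ h1, one_mul]

private lemma WW_eq (n : ℕ) (ω : Om) :
    WW n ω = ENNReal.ofReal (∫ t in (0 : ℝ)..1, dd (pr n) t ω) := by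
  have hS : ∀ p ∈ pr n, p.Prime := fun p hp => pr_prime hp
  have hc := (cont_t hS ω).2
  rw [intervalIntegral.integral_of_le zero_le_one, ofReal_integral_eq_lintegral_ofReal]
  · unfold WW cell
    rw [show ((0 : ℕ) : ℝ) / 2 ^ 0 = 0 by simp, show (((0 : ℕ) : ℝ) + 1) / 2 ^ 0 = 1 by simp]
    exact setLIntegral_congr Ico_ae_eq_Ioc
  · exact (hc.integrableOn_Icc).mono_set Set.Ioc_subset_Icc_self
  · exact Filter.Eventually.of_forall fun t => (dd_pos hS t ω).le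

theorem sum_GP : ∃ C : ℝ, 0 < C ∧ ∀ (n : ℕ) (ω : Om),
    ENNReal.ofReal (∑ P ∈ PP n, ‖GP n P ω‖ ^ 2 / P) ≤ ENNReal.ofReal C * WW n ω := by
  obtain ⟨C1, hC1, hls⟩ := ls_finite
  obtain ⟨C2, hC2, hun⟩ := PP_unit
  obtain ⟨K, hK, hm⟩ := mertens_pr
  refine ⟨C1 * C2 * K, by positivity, fun n ω => ?_⟩
  have hS : ∀ p ∈ pr n, p.Prime := fun p hp => pr_prime hp
  obtain ⟨hkc, hdc⟩ := cont_t hS ω
  rw [WW_eq, ← ENNReal.ofReal_mul (by positivity)]
  apply ENNReal.ofReal_le_ofReal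
  set φ : ℝ → ℂ := fun t => kk (pr n) t ω * (tau t : ℂ) with hφ
  have hφc : Continuous φ := hkc.mul (Complex.continuous_ofReal.comp continuous_tau)
  have h1 := hls (PP n) (fun P => 1 / (P : ℝ)) (fun P => Real.log P - 2 ^ n) (C2 / 2 ^ n)
    (fun P _ => by positivity) (fun v => by
      refine le_trans (le_of_eq ?_) (hun n (v + 2 ^ n))
      refine Finset.sum_congr ?_ fun _ _ => rfl
      ext P
      simp only [Finset.mem_filter]
      constructor
      · rintro ⟨a, b, c⟩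
        exact ⟨a, by linarith, by linarith⟩
      · rintro ⟨a, b, c⟩
        exact ⟨a, by linarith, by linarith⟩) φ hφc
  have h2 : ∑ P ∈ PP n, ‖GP n P ω‖ ^ 2 / P = ∑ P ∈ PP n, 1 / (P : ℝ) *
      ‖∫ t in (0 : ℝ)..1, φ t * Complex.exp (((t * (Real.log P - 2 ^ n) : ℝ) : ℂ) * I)‖ ^ 2 := by
    refine Finset.sum_congr rfl fun P _ => ?_
    unfold GP
    simp only [hφ]
    ring
  rw [h2]
  refine h1.trans ?_
  have h3 : ∫ t in (0 : ℝ)..1, ‖φ t‖ ^ 2 ≤ ∫ t in (0 : ℝ)..1, K * 2 ^ n * dd (pr n) t ω := by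
    refine intervalIntegral.integral_mono_on zero_le_one
      ((hφc.norm.pow 2).intervalIntegrable _ _)
      ((continuous_const.mul hdc).intervalIntegrable _ _) fun t ht => ?_
    obtain ⟨ht0, ht1⟩ := tau_bd ht.1 ht.2
    have h4 : ‖φ t‖ ^ 2 = ‖kk (pr n) t ω‖ ^ 2 * tau t ^ 2 := by
      simp only [hφ]
      rw [norm_mul, mul_pow, Complex.norm_real, Real.norm_eq_abs, sq_abs]
    rw [h4, kk_sq hS]
    have h5 := (hm n).2
    have h6 := dd_pos hS t ω
    have h7 : tau t ^ 2 ≤ 1 := pow_le_one₀ ht0 ht1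
    have h8 : 0 ≤ ∏ p ∈ pr n, (1 - 1 / (p : ℝ))⁻¹ := le_trans (by positivity) (hm n).1
    calc (∏ p ∈ pr n, (1 - 1 / (p : ℝ))⁻¹) * dd (pr n) t ω * tau t ^ 2
        ≤ (∏ p ∈ pr n, (1 - 1 / (p : ℝ))⁻¹) * dd (pr n) t ω * 1 :=
          mul_le_mul_of_nonneg_left h7 (mul_nonneg h8 h6.le)
      _ = (∏ p ∈ pr n, (1 - 1 / (p : ℝ))⁻¹) * dd (pr n) t ω := mul_one _
      _ ≤ K * 2 ^ n * dd (pr n) t ω := mul_le_mul_of_nonneg_right h5 h6.le
  rw [intervalIntegral.integral_const_mul] at h3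
  calc C1 * (C2 / 2 ^ n) * ∫ t in (0 : ℝ)..1, ‖φ t‖ ^ 2
      ≤ C1 * (C2 / 2 ^ n) * (K * 2 ^ n * ∫ t in (0 : ℝ)..1, dd (pr n) t ω) :=
        mul_le_mul_of_nonneg_left h3 (by positivity)
    _ = C1 * C2 * K * ∫ t in (0 : ℝ)..1, dd (pr n) t ω := by
        field_simp

private lemma continuous_GP (n P : ℕ) : Continuous (GP n P) := by
  have hS : ∀ p ∈ pr n, p.Prime := fun p hp => pr_prime hp
  have h0 : Continuous (Function.uncurry fun (ω : Om) (t : ℝ) =>
      kk (pr n) t ω * (tau t : ℂ) * Complex.exp (((t * (Real.log P - 2 ^ n) : ℝ) : ℂ) * I)) := by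
    have hsw : Continuous (fun z : Om × ℝ => ((z.2, z.1) : ℝ × Om)) := by fun_prop
    have h1 := (continuous_kk hS).comp hsw
    have h2 : Continuous fun z : Om × ℝ => (tau z.2 : ℂ) :=
      Complex.continuous_ofReal.comp (continuous_tau.comp continuous_snd)
    have h3 : Continuous fun z : Om × ℝ =>
      Complex.exp (((z.2 * (Real.log P - 2 ^ n) : ℝ) : ℂ) * I) := by fun_prop
    exact (h1.mul h2).mul h3
  exact intervalIntegral.continuous_parametric_intervalIntegral_of_continuous' h0 0 1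

theorem continuous_ff (n : ℕ) : Continuous (ff n) := by
  unfold ff
  exact continuous_finsetSum _ fun P _ =>
    (continuous_const.mul (cont_four 1 P)).mul (continuous_GP n P)

private lemma GP_mix (n P : ℕ) (ω ω' : Om) : GP n P (mix (pr n) ω ω') = GP n P ω := by
  unfold GP
  refine intervalIntegral.integral_congr fun t _ => ?_
  have h1 : kk (pr n) t (mix (pr n) ω ω') = kk (pr n) t ω := by
    unfold kk
    refine Finset.prod_congr rfl fun p hp => ?_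
    simp only [mix, if_pos hp]
  simp only [h1]

theorem ff_moment (p : ℝ) (hp1 : 1 ≤ p) (hp2 : p ≤ 2) : ∃ C : ℝ, 0 < C ∧ ∀ n : ℕ,
    ∫⁻ ω, ENNReal.ofReal (‖ff n ω‖ ^ p) ∂mu ≤ ENNReal.ofReal C * ∫⁻ ω, WW n ω ^ (p / 2) ∂mu := by
  obtain ⟨C, hC, hsum⟩ := sum_GP
  have hp0 : 0 ≤ p / 2 := by linarith
  refine ⟨C ^ (p / 2), by positivity, fun n => ?_⟩
  have hmeas : Measurable fun ω => ENNReal.ofReal (‖ff n ω‖ ^ p) :=
    ENNReal.measurable_ofReal.comp
      (((continuous_ff n).norm.rpow_const fun _ => Or.inr (by linarith)).measurable)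
  rw [← lintegral_mixE (pr n) hmeas]
  have hS : ∀ p ∈ pr n, p.Prime := fun p hp => pr_prime hp
  have hpt : ∀ ω : Om, ∫⁻ ω', ENNReal.ofReal (‖ff n (mix (pr n) ω ω')‖ ^ p) ∂mu ≤
      ENNReal.ofReal (C ^ (p / 2)) * WW n ω ^ (p / 2) := by
    intro ω
    have h1 : ∀ ω' : Om, ff n (mix (pr n) ω ω') =
        ∑ P ∈ PP n, ((((Real.sqrt P)⁻¹ : ℝ) : ℂ) * GP n P ω) * (fourier 1 (ω' P) : ℂ) := by
      intro ω'
      unfold ff
      refine Finset.sum_congr rfl fun P hP => ?_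
      rw [GP_mix]
      have h2 : mix (pr n) ω ω' P = ω' P := by
        simp only [mix, if_neg (mem_PP hP).2]
      rw [h2]
      ring
    simp only [h1]
    refine (cond_moment p hp1 hp2 (PP n) _).trans ?_
    have h3 : ∑ P ∈ PP n, ‖(((Real.sqrt P)⁻¹ : ℝ) : ℂ) * GP n P ω‖ ^ 2 =
        ∑ P ∈ PP n, ‖GP n P ω‖ ^ 2 / P := by
      refine Finset.sum_congr rfl fun P _ => ?_
      rw [norm_mul, mul_pow, Complex.norm_real, Real.norm_eq_abs, sq_abs, inv_pow,
        Real.sq_sqrt (Nat.cast_nonneg P)]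
      ring
    have h4 : 0 ≤ ∑ P ∈ PP n, ‖GP n P ω‖ ^ 2 / P := by positivity
    rw [h3, ← ENNReal.ofReal_rpow_of_nonneg h4 hp0,
      ← ENNReal.ofReal_rpow_of_nonneg hC.le hp0, ← ENNReal.mul_rpow_of_nonneg _ _ hp0]
    exact ENNReal.rpow_le_rpow (hsum n ω) hp0
  calc ∫⁻ ω, ∫⁻ ω', ENNReal.ofReal (‖ff n (mix (pr n) ω ω')‖ ^ p) ∂mu ∂mu
      ≤ ∫⁻ ω, ENNReal.ofReal (C ^ (p / 2)) * WW n ω ^ (p / 2) ∂mu := lintegral_mono hpt
    _ = ENNReal.ofReal (C ^ (p / 2)) * ∫⁻ ω, WW n ω ^ (p / 2) ∂mu :=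
        lintegral_const_mul' _ _ ENNReal.ofReal_ne_top

end Emb
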