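import Pool.Agent.Lib.Emb.NegW
import Pool.Agent.Lib.Emb.NegMoment
import Pool.Agent.Lib.Emb.NegLower
import Pool.Agent.Lib.Emb.NegApprox

/-!
# Chunk NF: the negative half

For `1 ≤ p < 2`, `L > 0`, `C > 0`: by `WW_tendsto` (`r = p/2`) and `ff_moment` choose `n` with
`∫ |ff n|^p` tiny, then `X` so large that `|fX - ff| ≤ ε` and `X ≥ exp(2^n)`, `N` from `fX_eq`,
`FX_eq`; `τ = 1/2`: `∫_{1/2}^{1/2+L} |F(1/2+it)|^p ≥ min(δ,L) c^p`.
-/

open MeasureTheory Complex Filter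
open scoped BigOperators ENNReal

namespace Emb

private lemma cont_DP (a : ℕ → ℂ) (N : ℕ) :
    Continuous fun t : ℝ => DP a N ((1 / 2 : ℂ) + (t : ℂ) * I) := by
  unfold DP
  refine continuous_finsetSum _ fun n hn => continuous_const.mul ?_
  have hn0 : (n : ℂ) ≠ 0 := by
    have := (Finset.mem_Icc.1 hn).1
    exact_mod_cast (by omega : n ≠ 0)
  refine Continuous.const_cpow ?_ (Or.inl hn0)
  fun_prop

theorem negative (p : ℝ) (hp1 : 1 ≤ p) (hp2 : p < 2) (L : ℝ) (hL : 0 < L) (C : ℝ) (hC : 0 < C) :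
    ∃ (N : ℕ) (a : ℕ → ℂ) (τ : ℝ),
      C * ∫ ω, ‖FF a N ω‖ ^ p ∂mu <
        ∫ t in τ..(τ + L), ‖DP a N ((1 / 2 : ℂ) + (t : ℂ) * I)‖ ^ p := by
  obtain ⟨c, δ, n0, hc, hδ, hlow⟩ := FX_lower
  obtain ⟨C', hC', hff⟩ := ff_moment p hp1 hp2.le
  have hp0 : 0 < p := by linarith
  have hW := WW_tendsto (p / 2) (by linarith) (by linarith)
  set m : ℝ := min δ L * c ^ p with hm
  have hcp : 0 < c ^ p := Real.rpow_pos_of_pos hc p
  have hmin : 0 < min δ L := lt_min hδ hL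
  have hm0 : 0 < m := mul_pos hmin hcp
  -- choice of n
  have hW2 : Tendsto (fun n => ENNReal.ofReal C' * ∫⁻ ω, WW n ω ^ (p / 2) ∂mu) atTop (nhds 0) := by
    have h1 := ENNReal.Tendsto.const_mul (a := ENNReal.ofReal C') hW
      (Or.inr ENNReal.ofReal_ne_top)
    rwa [mul_zero] at h1
  have hpos : (0 : ℝ≥0∞) < ENNReal.ofReal (m / (8 * C)) :=
    ENNReal.ofReal_pos.2 (by positivity)
  obtain ⟨n, hn1, hn2⟩ := ((hW2.eventually (gt_mem_nhds hpos)).and
    (eventually_ge_atTop n0)).exists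
  have hffc := continuous_ff n
  have hfpc : Continuous fun ω => ‖ff n ω‖ ^ p :=
    hffc.norm.rpow_const fun _ => Or.inr hp0.le
  have hffi : Integrable (fun ω => ‖ff n ω‖ ^ p) mu := by
    obtain ⟨D, hD⟩ := isCompact_univ.exists_bound_of_continuousOn hfpc.continuousOn
    exact Integrable.of_bound hfpc.aestronglyMeasurable D
      (Filter.Eventually.of_forall fun ω => hD ω (Set.mem_univ _))
  have hffs : ∫ ω, ‖ff n ω‖ ^ p ∂mu ≤ m / (8 * C) := by
    have h1 : ENNReal.ofReal (∫ ω, ‖ff n ω‖ ^ p ∂mu) ≤ ENNReal.ofReal (m / (8 * C)) := by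
      rw [ofReal_integral_eq_lintegral_ofReal hffi
        (Filter.Eventually.of_forall fun ω => Real.rpow_nonneg (norm_nonneg _) _)]
      exact (hff n).trans hn1.le
    exact (ENNReal.ofReal_le_ofReal_iff (by positivity)).1 h1
  -- choice of ε and X
  set ε : ℝ := min 1 (m / (8 * C)) with hε
  have hε0 : 0 < ε := lt_min one_pos (by positivity)
  have hε1 : ε ≤ 1 := min_le_left _ _
  have hε2 : ε ≤ m / (8 * C) := min_le_right _ _
  obtain ⟨X0, hX0⟩ := fX_tendsto n ε hε0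
  obtain ⟨X1, hX1⟩ := exists_nat_ge (Real.exp (2 ^ n))
  set X : ℕ := max X0 X1 with hX
  have hXe : Real.exp (2 ^ n) ≤ X := by
    refine hX1.trans ?_
    exact_mod_cast le_max_right X0 X1
  obtain ⟨N1, hN1⟩ := fX_eq n X
  obtain ⟨N2, hN2⟩ := FX_eq n X
  set N : ℕ := max N1 N2 with hN
  refine ⟨N, aX n X, 1 / 2, ?_⟩
  -- upper bound
  have hup : ∫ ω, ‖FF (aX n X) N ω‖ ^ p ∂mu ≤ m / (2 * C) := by
    have h1 : ∀ ω : Om, ‖FF (aX n X) N ω‖ ^ p ≤ 2 * ‖ff n ω‖ ^ p + 2 * ε := by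
      intro ω
      rw [← hN1 N (le_max_left _ _) ω]
      have h2 := hX0 X (le_max_left _ _) ω
      have h3 : ‖fX n X ω‖ ≤ ‖ff n ω‖ + ε := by
        have := norm_sub_norm_le (fX n X ω) (ff n ω)
        linarith
      have h4 : ‖fX n X ω‖ ^ p ≤ (‖ff n ω‖ + ε) ^ p :=
        Real.rpow_le_rpow (norm_nonneg _) h3 hp0.le
      have h5 : (‖ff n ω‖ + ε) ^ p ≤ 2 ^ (p - 1) * (‖ff n ω‖ ^ p + ε ^ p) := by
        have h7 := NNReal.rpow_add_le_mul_rpow_add_rpow (⟨‖ff n ω‖, norm_nonneg _⟩ : NNReal)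
          (⟨ε, hε0.le⟩ : NNReal) hp1
        exact_mod_cast h7
      have h6 : (2 : ℝ) ^ (p - 1) ≤ 2 := by
        calc (2 : ℝ) ^ (p - 1) ≤ 2 ^ (1 : ℝ) :=
              Real.rpow_le_rpow_of_exponent_le (by norm_num) (by linarith)
          _ = 2 := Real.rpow_one 2
      have h7 : ε ^ p ≤ ε := by
        calc ε ^ p ≤ ε ^ (1 : ℝ) := Real.rpow_le_rpow_of_exponent_ge hε0 hε1 hp1
          _ = ε := Real.rpow_one ε
      have h8 : 0 ≤ ‖ff n ω‖ ^ p := Real.rpow_nonneg (norm_nonneg _) _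
      have h9 : 0 ≤ ε ^ p := Real.rpow_nonneg hε0.le _
      nlinarith
    have h2 : ∫ ω, ‖FF (aX n X) N ω‖ ^ p ∂mu ≤ ∫ ω, (2 * ‖ff n ω‖ ^ p + 2 * ε) ∂mu :=
      integral_mono_of_nonneg (Filter.Eventually.of_forall fun ω =>
        Real.rpow_nonneg (norm_nonneg _) _) ((hffi.const_mul 2).add (integrable_const _))
        (Filter.Eventually.of_forall h1)
    have h3 : ∫ ω, (2 * ‖ff n ω‖ ^ p + 2 * ε) ∂mu = 2 * ∫ ω, ‖ff n ω‖ ^ p ∂mu + 2 * ε := by
      rw [integral_add (hffi.const_mul 2) (integrable_const _), integral_const_mul, integral_const]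
      simp
    rw [h3] at h2
    have h4 : m / (2 * C) = 4 * (m / (8 * C)) := by
      field_simp
      norm_num
    rw [h4]
    linarith
  have hup2 : C * ∫ ω, ‖FF (aX n X) N ω‖ ^ p ∂mu ≤ m / 2 := by
    calc C * ∫ ω, ‖FF (aX n X) N ω‖ ^ p ∂mu ≤ C * (m / (2 * C)) :=
          mul_le_mul_of_nonneg_left hup hC.le
      _ = m / 2 := by field_simp
  -- lower bound
  have hlo : m ≤ ∫ t in (1 / 2 : ℝ)..(1 / 2 + L), ‖DP (aX n X) N ((1 / 2 : ℂ) + (t : ℂ) * I)‖ ^ p := by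
    have hcont : Continuous fun t : ℝ => ‖DP (aX n X) N ((1 / 2 : ℂ) + (t : ℂ) * I)‖ ^ p :=
      (cont_DP _ _).norm.rpow_const fun _ => Or.inr hp0.le
    have h1 : ∫ t in (1 / 2 : ℝ)..(1 / 2 + min δ L), c ^ p ≤
        ∫ t in (1 / 2 : ℝ)..(1 / 2 + min δ L), ‖DP (aX n X) N ((1 / 2 : ℂ) + (t : ℂ) * I)‖ ^ p := by
      refine intervalIntegral.integral_mono_on (by linarith) (by simp)
        (hcont.intervalIntegrable _ _) fun t ht => ?_
      have h2 := hlow n hn2 X hXe t ht.1 (by linarith [ht.2, min_le_left δ L])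
      rw [hN2 N (le_max_right _ _) t] at h2
      exact Real.rpow_le_rpow hc.le h2 hp0.le
    have h2 : ∫ t in (1 / 2 : ℝ)..(1 / 2 + min δ L), ‖DP (aX n X) N ((1 / 2 : ℂ) + (t : ℂ) * I)‖ ^ p ≤
        ∫ t in (1 / 2 : ℝ)..(1 / 2 + L), ‖DP (aX n X) N ((1 / 2 : ℂ) + (t : ℂ) * I)‖ ^ p := by
      refine intervalIntegral.integral_mono_interval le_rfl (by linarith)
        (by linarith [min_le_right δ L]) ?_ (hcont.intervalIntegrable _ _)
      exact Filter.Eventually.of_forall fun t => Real.rpow_nonneg (norm_nonneg _) _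
    rw [intervalIntegral.integral_const, add_sub_cancel_left, smul_eq_mul] at h1
    exact h1.trans h2
  linarith

end Emb
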