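/-
CHUNK DY1 (dyadic step functions: elementary facts).

All by elementary manipulations of floor and finite sums.
 ix_half: ix l t = ix (l+1) t / 2 (t >= 0): floor(x) = floor(2x)/2.
 av_split: av K a l i = (av K a (l+1) (2i) + av K a (l+1) (2i+1))/2 for l < K.
 av_top: av K a K i = a i.
 gd_haar: for 1 <= k <= K: gd K a k t = d or -d where d depends only on the parent cell; i.e.
   g_k(2i) = - g_k(2i+1) and |g_k| is constant on cells of level k-1.
 phL_eq: if av K a 0 0 = 0 then for t in [0,1): phL K a l t = g(t) - E_(l-1) g(t) (l >= 1), phi 0 = g.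
 prim_bound: H_l(t) = int_0^t phi_l. For each k >= 1 the primitive of g_k vanishes at the end points of
   the cells of level k-1 and is a tent on such a cell: |int_0^t g_k| <= 2^-k |g_k(t)| for t in [0,1).
   So 2^l |H_l(t)| <= sum_(k>=l) 2^-(k-l) |g_k(t)| and by Cauchy-Schwarz (sum 2^-(k-l) <= 2)
   4^l H_l(t)^2 <= 2 sum_(k>=l) 2^-(k-l) g_k(t)^2.
 lint_level: the lintegral over [0,1) of a function of ix K t is 2^-K sum_(i<2^K).
-/
import Pool.Agent.Lib.Emb.Defs2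

open MeasureTheory Complex
open scoped BigOperators ENNReal

namespace Emb

theorem measurable_ix (l : ℕ) : Measurable (ix l) := by
  unfold ix
  exact Nat.measurable_floor.comp (measurable_const.mul measurable_id)

theorem ix_lt {l : ℕ} {t : ℝ} (ht : t ∈ Set.Ico (0:ℝ) 1) : ix l t < 2 ^ l := by
  unfold ix
  rw [Nat.floor_lt (mul_nonneg (by positivity) ht.1)]
  push_cast
  have h2 : (0:ℝ) < 2 ^ l := by positivity
  nlinarith [ht.2]

theorem ix_half {l : ℕ} {t : ℝ} (ht : 0 ≤ t) : ix l t = ix (l + 1) t / 2 := by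
  unfold ix
  rw [← Nat.floor_div_ofNat]
  congr 1
  rw [pow_succ]
  ring

theorem mem_cell_iff {l i : ℕ} {t : ℝ} (ht : 0 ≤ t) : t ∈ cell l i ↔ ix l t = i := by
  have h2 : (0:ℝ) < 2 ^ l := by positivity
  unfold ix cell
  rw [Nat.floor_eq_iff (by positivity), Set.mem_Ico, div_le_iff₀ h2, lt_div_iff₀ h2, mul_comm t]

theorem av_top (K : ℕ) (a : ℕ → ℝ) (i : ℕ) : av K a K i = a i := by
  unfold av
  simp

theorem av_split {K l : ℕ} (h : l < K) (a : ℕ → ℝ) (i : ℕ) :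
    av K a l i = (av K a (l + 1) (2 * i) + av K a (l + 1) (2 * i + 1)) / 2 := by
  unfold av
  obtain ⟨m, hm⟩ : ∃ m, K - l = m + 1 := ⟨K - l - 1, by omega⟩
  have hm' : K - (l + 1) = m := by omega
  rw [hm, hm', pow_succ, mul_two (2 ^ m), Finset.sum_range_add]
  have e1 : ∀ j, (2 ^ m + 2 ^ m) * i + j = 2 ^ m * (2 * i) + j := fun j => by ring
  have e2 : ∀ j, 2 ^ m * (2 * i) + (2 ^ m + j) = 2 ^ m * (2 * i + 1) + j := fun j => by ring
  simp only [e1, e2]
  rw [pow_succ (2:ℝ) m]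
  field_simp

/-- Values of `g_k` on the cells of level `k`. -/
noncomputable def gv (K : ℕ) (a : ℕ → ℝ) (k i : ℕ) : ℝ :=
  if 1 ≤ k ∧ k ≤ K then av K a k i - av K a (k - 1) (i / 2) else 0

theorem gd_eq_gv (K : ℕ) (a : ℕ → ℝ) (k : ℕ) {t : ℝ} (ht : 0 ≤ t) :
    gd K a k t = gv K a k (ix k t) := by
  unfold gd gv gE
  split_ifs with h
  · obtain ⟨k', rfl⟩ : ∃ k', k = k' + 1 := ⟨k - 1, by omega⟩
    rw [Nat.add_sub_cancel, ix_half (l := k') ht]
  · rfl

theorem gv_pair (K : ℕ) (a : ℕ → ℝ) (k i : ℕ) : gv K a k (2 * i) + gv K a k (2 * i + 1) = 0 := by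
  unfold gv
  split_ifs with h
  · obtain ⟨k', rfl⟩ : ∃ k', k = k' + 1 := ⟨k - 1, by omega⟩
    rw [Nat.add_sub_cancel, show 2 * i / 2 = i by omega, show (2 * i + 1) / 2 = i by omega,
      av_split (show k' < K by omega) a i]
    ring
  · ring

theorem gv_sum_even (K : ℕ) (a : ℕ → ℝ) (k j : ℕ) :
    ∑ i ∈ Finset.range (2 * j), gv K a k i = 0 := by
  induction j with
  | zero => simp
  | succ j ih =>
    rw [show 2 * (j + 1) = 2 * j + 1 + 1 by ring, Finset.sum_range_succ, Finset.sum_range_succ, ih,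
      zero_add]
    exact gv_pair K a k j

theorem measurable_gE (K : ℕ) (a : ℕ → ℝ) (l : ℕ) : Measurable (gE K a l) := by
  unfold gE
  exact (measurable_from_top (f := av K a l)).comp (measurable_ix l)

theorem measurable_gd (K : ℕ) (a : ℕ → ℝ) (k : ℕ) : Measurable (gd K a k) := by
  unfold gd
  by_cases h : 1 ≤ k ∧ k ≤ K
  · simp only [h, and_self, if_true]
    exact (measurable_gE K a k).sub (measurable_gE K a (k - 1))
  · simp only [h, if_false]
    exact measurable_const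

theorem measurable_AA (K : ℕ) (a : ℕ → ℝ) (l : ℕ) : Measurable (AA K a l) := by
  unfold AA
  exact (Finset.measurable_fun_sum _ fun k _ =>
    measurable_const.mul ((measurable_gd K a k).pow_const 2)).add
    ((measurable_gd K a (l - 1)).pow_const 2)

theorem AA_nonneg (K : ℕ) (a : ℕ → ℝ) (l : ℕ) (t : ℝ) : 0 ≤ AA K a l t := by
  unfold AA
  positivity

/-- `g_k` is a step function on the cells of level `k`. -/
theorem gd_step (K : ℕ) (a : ℕ → ℝ) (k : ℕ) : ∃ b : ℕ → ℝ, ∀ t ∈ Set.Ico (0:ℝ) 1,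
    gd K a k t = b (ix k t) :=
  ⟨gv K a k, fun _ ht => gd_eq_gv K a k ht.1⟩

theorem bounded_gd (K : ℕ) (a : ℕ → ℝ) (k : ℕ) :
    ∃ B : ℝ, ∀ t ∈ Set.Ico (0:ℝ) 1, |gd K a k t| ≤ B := by
  refine ⟨∑ i ∈ Finset.range (2 ^ k), |gv K a k i|, fun t ht => ?_⟩
  rw [gd_eq_gv K a k ht.1]
  exact Finset.single_le_sum (f := fun i => |gv K a k i|) (fun i _ => abs_nonneg _)
    (Finset.mem_range.2 (ix_lt ht))

theorem integrableOn_gd (K : ℕ) (a : ℕ → ℝ) (k : ℕ) :
    IntegrableOn (gd K a k) (Set.Ico (0:ℝ) 1) := by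
  obtain ⟨B, hB⟩ := bounded_gd K a k
  refine Measure.integrableOn_of_bounded (M := B) (by simp) (measurable_gd K a k).aestronglyMeasurable ?_
  refine (ae_restrict_iff' measurableSet_Ico).2 (Filter.Eventually.of_forall fun t ht => ?_)
  rw [Real.norm_eq_abs]
  exact hB t ht

theorem intervalIntegrable_gd (K : ℕ) (a : ℕ → ℝ) (k : ℕ) {x y : ℝ} (hx : 0 ≤ x) (hxy : x ≤ y)
    (hy : y ≤ 1) : IntervalIntegrable (gd K a k) volume x y := by
  rw [intervalIntegrable_iff_integrableOn_Ico_of_le hxy]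
  exact (integrableOn_gd K a k).mono_set (Set.Ico_subset_Ico hx hy)

theorem gd_cell_integral (K : ℕ) (a : ℕ → ℝ) (k i : ℕ) {t : ℝ}
    (h1 : (i : ℝ) / 2 ^ k ≤ t) (h2 : t ≤ ((i : ℝ) + 1) / 2 ^ k) :
    ∫ u in ((i : ℝ) / 2 ^ k)..t, gd K a k u = gv K a k i * (t - (i : ℝ) / 2 ^ k) := by
  have h0 : (0:ℝ) ≤ (i : ℝ) / 2 ^ k := by positivity
  rw [intervalIntegral.integral_of_le h1, integral_Ioc_eq_integral_Ioo]
  rw [setIntegral_congr_fun (g := fun _ => gv K a k i) measurableSet_Ioo]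
  · rw [← integral_Ioc_eq_integral_Ioo, ← intervalIntegral.integral_of_le h1,
      intervalIntegral.integral_const, smul_eq_mul, mul_comm]
  · intro u hu
    have hu0 : 0 ≤ u := h0.trans hu.1.le
    show gd K a k u = gv K a k i
    rw [gd_eq_gv K a k hu0, (mem_cell_iff hu0).1 ⟨hu.1.le, hu.2.trans_le h2⟩]

theorem gd_prim_node (K : ℕ) (a : ℕ → ℝ) (k : ℕ) {n : ℕ} (hn : n ≤ 2 ^ k) :
    ∫ u in (0:ℝ)..((n : ℝ) / 2 ^ k), gd K a k u = (∑ i ∈ Finset.range n, gv K a k i) / 2 ^ k := by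
  have h2 : (0:ℝ) < 2 ^ k := by positivity
  induction n with
  | zero => simp
  | succ n ih =>
    have hn' : n ≤ 2 ^ k := by omega
    have hle : (n : ℝ) / 2 ^ k ≤ ((n + 1 : ℕ) : ℝ) / 2 ^ k := by
      apply div_le_div_of_nonneg_right _ h2.le
      push_cast; linarith
    have hle1 : ((n + 1 : ℕ) : ℝ) / 2 ^ k ≤ 1 := by
      rw [div_le_one h2]
      exact_mod_cast hn
    rw [← intervalIntegral.integral_add_adjacent_intervals
      (intervalIntegrable_gd K a k le_rfl (by positivity) (hle.trans hle1))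
      (intervalIntegrable_gd K a k (by positivity) hle hle1), ih hn', Finset.sum_range_succ,
      gd_cell_integral K a k n hle (by push_cast; exact le_rfl)]
    push_cast
    field_simp
    ring

theorem gd_prim (K : ℕ) (a : ℕ → ℝ) (k : ℕ) {t : ℝ} (ht : t ∈ Set.Ico (0:ℝ) 1) :
    |∫ u in (0:ℝ)..t, gd K a k u| ≤ (2 ^ k)⁻¹ * |gd K a k t| := by
  have h2 : (0:ℝ) < 2 ^ k := by positivity
  obtain ⟨i, hi⟩ : ∃ i, i = ix k t := ⟨_, rfl⟩
  have hmem : t ∈ cell k i := (mem_cell_iff ht.1).2 hi.symm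
  have hilt : i < 2 ^ k := hi ▸ ix_lt ht
  have hm1 : (i : ℝ) / 2 ^ k ≤ t := hmem.1
  have hm2 : t < ((i : ℝ) + 1) / 2 ^ k := hmem.2
  have hs0 : 0 ≤ t - (i : ℝ) / 2 ^ k := by linarith
  have hs1 : t - (i : ℝ) / 2 ^ k ≤ (2 ^ k)⁻¹ := by
    have : ((i : ℝ) + 1) / 2 ^ k = (i : ℝ) / 2 ^ k + (2 ^ k)⁻¹ := by field_simp
    linarith
  have hsplit : ∫ u in (0:ℝ)..t, gd K a k u =
      (∑ i ∈ Finset.range i, gv K a k i) / 2 ^ k + gv K a k i * (t - (i : ℝ) / 2 ^ k) := by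
    rw [← intervalIntegral.integral_add_adjacent_intervals
      (intervalIntegrable_gd K a k le_rfl (by positivity) (hm1.trans ht.2.le))
      (intervalIntegrable_gd K a k (by positivity) hm1 ht.2.le), gd_prim_node K a k hilt.le,
      gd_cell_integral K a k i hm1 hm2.le]
  rw [hsplit, gd_eq_gv K a k ht.1, ← hi]
  obtain ⟨s, hs⟩ : ∃ s, s = t - (i : ℝ) / 2 ^ k := ⟨_, rfl⟩
  rw [← hs] at hs0 hs1 ⊢
  rcases Nat.even_or_odd' i with ⟨j, rfl | rfl⟩
  · rw [gv_sum_even, zero_div, zero_add, abs_mul, abs_of_nonneg hs0, mul_comm]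
    exact mul_le_mul_of_nonneg_right hs1 (abs_nonneg _)
  · rw [Finset.sum_range_succ, gv_sum_even, zero_add]
    have h3 : gv K a k (2 * j) = - gv K a k (2 * j + 1) := by linarith [gv_pair K a k j]
    rw [h3]
    have h4 : -gv K a k (2 * j + 1) / 2 ^ k + gv K a k (2 * j + 1) * s =
        -(((2 ^ k)⁻¹ - s) * gv K a k (2 * j + 1)) := by
      rw [div_eq_mul_inv]; ring
    rw [h4, abs_neg, abs_mul, abs_of_nonneg (by linarith)]
    exact mul_le_mul_of_nonneg_right (by linarith) (abs_nonneg _)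

theorem gd_integral (K : ℕ) (a : ℕ → ℝ) (k : ℕ) : ∫ t in (0:ℝ)..1, gd K a k t = 0 := by
  have h := gd_prim_node K a k (le_refl (2 ^ k))
  have h2 : (((2 ^ k : ℕ) : ℝ)) / 2 ^ k = 1 := by
    push_cast
    exact div_self (by positivity)
  rw [h2] at h
  rw [h]
  rcases Nat.eq_zero_or_pos k with rfl | hk
  · simp [gv]
  · obtain ⟨k', rfl⟩ : ∃ k', k = k' + 1 := ⟨k - 1, by omega⟩
    rw [show 2 ^ (k' + 1) = 2 * 2 ^ k' by ring, gv_sum_even, zero_div]

/-- The differences sum to `g` when `g` has mean zero. -/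
theorem sum_gd (K : ℕ) (a : ℕ → ℝ) (h0 : av K a 0 0 = 0) {t : ℝ} (ht : t ∈ Set.Ico (0:ℝ) 1) :
    ∑ k ∈ Finset.Icc 1 K, gd K a k t = a (ix K t) := by
  have hz : gE K a 0 t = 0 := by
    unfold gE
    have : ix 0 t = 0 := by
      have := ix_lt (l := 0) ht
      simpa using this
    rw [this, h0]
  have key : ∀ n, n ≤ K → ∑ k ∈ Finset.Icc 1 n, gd K a k t = gE K a n t := by
    intro n
    induction n with
    | zero => intro _; rw [hz]; simp
    | succ n ih =>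
      intro hn
      rw [Finset.sum_Icc_succ_top (by omega), ih (by omega)]
      unfold gd
      rw [if_pos ⟨by omega, hn⟩, Nat.add_sub_cancel]
      ring
  rw [key K le_rfl]
  unfold gE
  exact av_top K a _

theorem measurable_phL (K : ℕ) (a : ℕ → ℝ) (l : ℕ) : Measurable (phL K a l) := by
  unfold phL
  exact Finset.measurable_fun_sum _ fun k _ => measurable_gd K a k

theorem phL_integral (K : ℕ) (a : ℕ → ℝ) (l : ℕ) : ∫ t in (0:ℝ)..1, phL K a l t = 0 := by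
  unfold phL
  rw [intervalIntegral.integral_finsetSum
    (fun k _ => intervalIntegrable_gd K a k le_rfl zero_le_one le_rfl)]
  exact Finset.sum_eq_zero fun k _ => gd_integral K a k

theorem prim_bound (K : ℕ) (a : ℕ → ℝ) (l : ℕ) {t : ℝ} (ht : t ∈ Set.Ico (0:ℝ) 1) :
    (4:ℝ) ^ l * (∫ u in (0:ℝ)..t, phL K a l u) ^ 2 ≤
      2 * ∑ k ∈ Finset.Icc l K, ((2:ℝ) ^ (k - l))⁻¹ * gd K a k t ^ 2 := by
  have h1 : ∫ u in (0:ℝ)..t, phL K a l u = ∑ k ∈ Finset.Icc l K, ∫ u in (0:ℝ)..t, gd K a k u := by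
    unfold phL
    exact intervalIntegral.integral_finsetSum
      (fun k _ => intervalIntegrable_gd K a k le_rfl ht.1 ht.2.le)
  have h2 : (2:ℝ) ^ l * |∫ u in (0:ℝ)..t, phL K a l u| ≤
      ∑ k ∈ Finset.Icc l K, ((2:ℝ) ^ (k - l))⁻¹ * |gd K a k t| := by
    rw [h1]
    calc (2:ℝ) ^ l * |∑ k ∈ Finset.Icc l K, ∫ u in (0:ℝ)..t, gd K a k u|
        ≤ (2:ℝ) ^ l * ∑ k ∈ Finset.Icc l K, |∫ u in (0:ℝ)..t, gd K a k u| :=
          mul_le_mul_of_nonneg_left (Finset.abs_sum_le_sum_abs _ _) (by positivity)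
      _ ≤ (2:ℝ) ^ l * ∑ k ∈ Finset.Icc l K, (2 ^ k)⁻¹ * |gd K a k t| :=
          mul_le_mul_of_nonneg_left (Finset.sum_le_sum fun k _ => gd_prim K a k ht) (by positivity)
      _ = ∑ k ∈ Finset.Icc l K, ((2:ℝ) ^ (k - l))⁻¹ * |gd K a k t| := by
          rw [Finset.mul_sum]
          refine Finset.sum_congr rfl fun k hk => ?_
          have hk' : l ≤ k := (Finset.mem_Icc.1 hk).1
          have h3 : (2:ℝ) ^ k = 2 ^ l * 2 ^ (k - l) := by
            rw [← pow_add]; congr 1; omega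
          rw [h3, mul_inv, ← mul_assoc, ← mul_assoc, mul_inv_cancel₀ (by positivity), one_mul]
  have h3 : (∑ k ∈ Finset.Icc l K, ((2:ℝ) ^ (k - l))⁻¹ * |gd K a k t|) ^ 2 ≤
      (∑ k ∈ Finset.Icc l K, ((2:ℝ) ^ (k - l))⁻¹) *
        ∑ k ∈ Finset.Icc l K, ((2:ℝ) ^ (k - l))⁻¹ * gd K a k t ^ 2 := by
    refine Finset.sum_sq_le_sum_mul_sum_of_sq_eq_mul _ (fun k _ => by positivity)
      (fun k _ => by positivity) (fun k _ => ?_)
    rw [mul_pow, sq_abs]
    ring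
  have h4 : ∑ k ∈ Finset.Icc l K, ((2:ℝ) ^ (k - l))⁻¹ ≤ 2 := by
    have e : Finset.Icc l K = Finset.Ico l (K + 1) := by ext x; simp [Nat.lt_succ_iff]
    rw [e, Finset.sum_Ico_eq_sum_range]
    have e2 : ∀ j ∈ Finset.range (K + 1 - l), ((2:ℝ) ^ (l + j - l))⁻¹ = (1 / 2) ^ j := by
      intro j _
      rw [Nat.add_sub_cancel_left, one_div, inv_pow]
    rw [Finset.sum_congr rfl e2]
    exact sum_geometric_two_le _
  have h5 : 0 ≤ ∑ k ∈ Finset.Icc l K, ((2:ℝ) ^ (k - l))⁻¹ * gd K a k t ^ 2 :=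
    Finset.sum_nonneg fun k _ => by positivity
  calc (4:ℝ) ^ l * (∫ u in (0:ℝ)..t, phL K a l u) ^ 2
      = ((2:ℝ) ^ l * |∫ u in (0:ℝ)..t, phL K a l u|) ^ 2 := by
        rw [mul_pow, sq_abs, ← pow_mul, mul_comm l 2, pow_mul]
        norm_num
    _ ≤ (∑ k ∈ Finset.Icc l K, ((2:ℝ) ^ (k - l))⁻¹ * |gd K a k t|) ^ 2 :=
        pow_le_pow_left₀ (by positivity) h2 2
    _ ≤ _ := h3
    _ ≤ _ := mul_le_mul_of_nonneg_right h4 h5

theorem lint_level (l : ℕ) (f : ℕ → ℝ≥0∞) :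
    ∫⁻ t in Set.Ico (0:ℝ) 1, f (ix l t) = (∑ i ∈ Finset.range (2 ^ l), f i) * (2 ^ l)⁻¹ := by
  have h2 : (0:ℝ) < 2 ^ l := by positivity
  have hcell : ∀ i, MeasurableSet (cell l i) := fun i => measurableSet_Ico
  have h0 : Set.Ico (0:ℝ) 1 = ⋃ i ∈ Finset.range (2 ^ l), cell l i := by
    ext t
    simp only [Set.mem_iUnion, Finset.mem_range, exists_prop]
    constructor
    · intro ht
      exact ⟨ix l t, ix_lt ht, (mem_cell_iff ht.1).2 rfl⟩
    · rintro ⟨i, hi, hm⟩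
      refine ⟨le_trans (by positivity) hm.1, hm.2.trans_le ?_⟩
      rw [div_le_one h2]
      exact_mod_cast hi
  have hdisj : Set.PairwiseDisjoint (↑(Finset.range (2 ^ l)) : Set ℕ) (cell l) := by
    intro i _ j _ hij
    refine Set.disjoint_left.2 fun t h1 h3 => hij ?_
    have ht : 0 ≤ t := le_trans (by positivity) h1.1
    rw [← (mem_cell_iff ht).1 h1, ← (mem_cell_iff ht).1 h3]
  rw [h0, lintegral_biUnion_finset hdisj (fun i _ => hcell i), Finset.sum_mul]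
  refine Finset.sum_congr rfl fun i _ => ?_
  have h3 : ∫⁻ t in cell l i, f (ix l t) = ∫⁻ _t in cell l i, f i := by
    refine setLIntegral_congr_fun (hcell i) fun t ht => ?_
    have ht0 : 0 ≤ t := le_trans (by positivity) ht.1
    show f (ix l t) = f i
    rw [(mem_cell_iff ht0).1 ht]
  rw [h3, lintegral_const, Measure.restrict_apply_univ]
  unfold cell
  rw [Real.volume_Ico]
  have h4 : ((i : ℝ) + 1) / 2 ^ l - (i : ℝ) / 2 ^ l = (2 ^ l)⁻¹ := by field_simp; ring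
  rw [h4, ENNReal.ofReal_inv_of_pos h2, ENNReal.ofReal_pow (by norm_num), ENNReal.ofReal_ofNat]

end Emb
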