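import Pool.Agent.Lib.Emb.CoreBasic
import Pool.Agent.Lib.Helper57.Mertens

/-!
# Chunk N: Mertens bounds for the sets `pr l`

`pr l = primesUpTo ⌊exp(2^l/2)⌋₊` and `Pool.Agent.Lib.Helper57.prod_one_sub_inv_inv_le`
(`∏_{p ≤ n} (1-1/p)⁻¹ ≤ 500 log n`), `Pool.Agent.Lib.Sieve.prod_one_sub_inv_le`
(`∏_{p ≤ n} (1-1/p) ≤ 1/log n`).  Everything else follows:
* `V_{l+j}/V_l = 2^j` up to a constant factor, so `∑_{pr(l+j) \ pr l} -log(1-1/p) = j log 2 + O(1)`;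
* `1/p ≤ -log(1-1/p) ≤ 2/p`;
* `∑_{pr l} log p / p ≤ log + log 4` and `log p ≤ 2^l` on `pr l`.
-/

open scoped BigOperators

namespace Emb

open Pool.Agent.Lib.Sieve in
theorem pr_eq_primesUpTo (l : ℕ) : pr l = primesUpTo ⌊Real.exp (2 ^ l / 2)⌋₊ := by
  ext p
  rw [mem_pr, mem_primesUpTo]
  constructor
  · rintro ⟨hp, h⟩
    refine ⟨hp, ?_⟩
    have hp0 : (0 : ℝ) < p := by exact_mod_cast hp.pos
    apply Nat.le_floor
    rw [← Real.log_le_iff_le_exp hp0]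
    linarith
  · rintro ⟨hp, h⟩
    refine ⟨hp, ?_⟩
    have hp0 : (0 : ℝ) < p := by exact_mod_cast hp.pos
    have h1 : (p : ℝ) ≤ Real.exp (2 ^ l / 2) :=
      (Nat.le_floor_iff (Real.exp_pos _).le).mp h
    rw [← Real.log_le_iff_le_exp hp0] at h1
    linarith

/-- `V_l = ∏_{p ∈ pr l} (1-1/p)⁻¹` is comparable with `2^l`. -/
theorem mertens_pr : ∃ K : ℝ, 1 ≤ K ∧ ∀ l : ℕ,
    (2 : ℝ) ^ l / K ≤ ∏ p ∈ pr l, (1 - 1 / (p : ℝ))⁻¹ ∧
    ∏ p ∈ pr l, (1 - 1 / (p : ℝ))⁻¹ ≤ K * 2 ^ l := by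
  refine ⟨500, by norm_num, fun l => ?_⟩
  rw [pr_eq_primesUpTo]
  rcases Nat.eq_zero_or_pos l with rfl | hl
  · have h1 : ⌊Real.exp ((2 : ℝ) ^ 0 / 2)⌋₊ = 1 := by
      rw [Nat.floor_eq_iff (Real.exp_pos _).le]
      constructor
      · simp
      · have h2 : Real.exp ((2 : ℝ) ^ 0 / 2) ^ 2 = Real.exp 1 := by
          rw [← Real.exp_nat_mul]; norm_num
        have h3 := Real.exp_one_lt_d9
        have h4 := Real.exp_pos ((2 : ℝ) ^ 0 / 2)
        push_cast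
        nlinarith
    rw [h1, Pool.Agent.Lib.Helper57.primesUpTo_one]
    norm_num
  · set x : ℝ := Real.exp (2 ^ l / 2) with hx
    have hpow : (2 : ℝ) ≤ 2 ^ l := by
      calc (2 : ℝ) = 2 ^ 1 := by norm_num
        _ ≤ 2 ^ l := pow_le_pow_right₀ (by norm_num) hl
    have hx2 : (2.7 : ℝ) ≤ x := by
      have h1 : Real.exp 1 ≤ x := Real.exp_le_exp.mpr (by linarith)
      have := Real.exp_one_gt_d9
      linarith
    have hx0 : 0 < x := by linarith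
    have hn2 : 2 ≤ ⌊x⌋₊ := Nat.le_floor (by norm_num; linarith)
    have hn : (2 : ℝ) ≤ (⌊x⌋₊ : ℝ) := by exact_mod_cast hn2
    have hfl : (⌊x⌋₊ : ℝ) ≤ x := Nat.floor_le hx0.le
    have hfl2 : x < (⌊x⌋₊ : ℝ) + 1 := Nat.lt_floor_add_one x
    have hlogx : Real.log x = 2 ^ l / 2 := Real.log_exp _
    have hlogn : 0 < Real.log (⌊x⌋₊ : ℝ) := Real.log_pos (by linarith)
    constructor
    · have h1 := Pool.Agent.Lib.Sieve.prod_one_sub_inv_le ⌊x⌋₊ hn2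
      have h2 : ∏ p ∈ Pool.Agent.Lib.Sieve.primesUpTo ⌊x⌋₊, (1 - 1 / (p : ℝ))⁻¹ =
          (∏ p ∈ Pool.Agent.Lib.Sieve.primesUpTo ⌊x⌋₊, (1 - 1 / (p : ℝ)))⁻¹ := by
        rw [Finset.prod_inv_distrib]
      have hpos : 0 < ∏ p ∈ Pool.Agent.Lib.Sieve.primesUpTo ⌊x⌋₊, (1 - 1 / (p : ℝ)) := by
        apply Finset.prod_pos
        intro p hp
        have hp1 : (1 : ℝ) < p := by
          exact_mod_cast (Pool.Agent.Lib.Sieve.mem_primesUpTo.mp hp).1.one_lt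
        rw [sub_pos, div_lt_one (by linarith)]
        exact hp1
      have h3 : Real.log (⌊x⌋₊ : ℝ) ≤
          (∏ p ∈ Pool.Agent.Lib.Sieve.primesUpTo ⌊x⌋₊, (1 - 1 / (p : ℝ)))⁻¹ := by
        rw [le_inv_comm₀ hlogn hpos]
        rwa [one_div] at h1
      rw [h2]
      refine le_trans ?_ h3
      have h4 : Real.log (x / 2) ≤ Real.log (⌊x⌋₊ : ℝ) :=
        Real.log_le_log (by positivity) (by linarith)
      rw [Real.log_div hx0.ne' (by norm_num), hlogx] at h4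
      have h5 := Real.log_two_lt_d9
      refine le_trans ?_ h4
      linarith
    · have h1 := Pool.Agent.Lib.Helper57.prod_one_sub_inv_inv_le ⌊x⌋₊ hn2
      have h2 : Real.log (⌊x⌋₊ : ℝ) ≤ Real.log x := Real.log_le_log (by linarith) hfl
      rw [hlogx] at h2
      calc _ ≤ _ := h1
        _ ≤ 500 * (2 ^ l / 2) := by gcongr
        _ ≤ 500 * 2 ^ l := by
          have : (0 : ℝ) < 2 ^ l := by positivity
          linarith

theorem inv_prime_le_half {p : ℕ} (hp : p.Prime) : 1 / (p : ℝ) ≤ 1 / 2 := by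
  have : (2 : ℝ) ≤ p := by exact_mod_cast hp.two_le
  exact one_div_le_one_div_of_le (by norm_num) this

theorem one_sub_inv_pos {p : ℕ} (hp : p.Prime) : 0 < 1 - 1 / (p : ℝ) := by
  have := inv_prime_le_half hp
  linarith

theorem log_prod_inv {S : Finset ℕ} (hS : ∀ p ∈ S, p.Prime) :
    Real.log (∏ p ∈ S, (1 - 1 / (p : ℝ))⁻¹) = ∑ p ∈ S, -Real.log (1 - 1 / (p : ℝ)) := by
  rw [Real.log_prod]
  · refine Finset.sum_congr rfl fun p _ => ?_
    rw [Real.log_inv]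
  · intro p hp
    exact inv_ne_zero (one_sub_inv_pos (hS p hp)).ne'

/-- `∑_{p ∈ pr (l+j) \ pr l} -log(1-1/p) = j log 2 + O(1)`. -/
theorem sum_log_block : ∃ K : ℝ, 0 < K ∧ ∀ l j : ℕ,
    |∑ p ∈ pr (l + j) \ pr l, -Real.log (1 - 1 / (p : ℝ)) - j * Real.log 2| ≤ K := by
  obtain ⟨K, hK1, hK⟩ := mertens_pr
  have hK0 : 0 < K := by linarith
  have hlogK : 0 ≤ Real.log K := Real.log_nonneg hK1
  refine ⟨2 * Real.log K + 1, by linarith, fun l j => ?_⟩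
  have key : ∀ m : ℕ, m * Real.log 2 - Real.log K ≤ ∑ p ∈ pr m, -Real.log (1 - 1 / (p : ℝ)) ∧
      ∑ p ∈ pr m, -Real.log (1 - 1 / (p : ℝ)) ≤ m * Real.log 2 + Real.log K := by
    intro m
    obtain ⟨h1, h2⟩ := hK m
    have h0 : (0 : ℝ) < 2 ^ m / K := by positivity
    have h3 := Real.log_le_log h0 h1
    have h4 := Real.log_le_log (lt_of_lt_of_le h0 h1) h2
    rw [log_prod_inv (fun p hp => pr_prime hp), Real.log_div (by positivity) hK0.ne',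
      Real.log_pow] at h3
    rw [log_prod_inv (fun p hp => pr_prime hp), Real.log_mul hK0.ne' (by positivity),
      Real.log_pow] at h4
    constructor <;> linarith
  have hsub : pr l ⊆ pr (l + j) := pr_mono (Nat.le_add_right l j)
  have h5 := Finset.sum_sdiff (f := fun p : ℕ => -Real.log (1 - 1 / (p : ℝ))) hsub
  have h6 := key l
  have h7 := key (l + j)
  push_cast at h7
  rw [abs_le]
  constructor <;> nlinarith [h5, h6.1, h6.2, h7.1, h7.2]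

theorem inv_le_neg_log {p : ℕ} (hp : p.Prime) : 1 / (p : ℝ) ≤ -Real.log (1 - 1 / (p : ℝ)) := by
  have h1 := Real.log_le_sub_one_of_pos (one_sub_inv_pos hp)
  linarith

theorem neg_log_le_two_inv {p : ℕ} (hp : p.Prime) :
    -Real.log (1 - 1 / (p : ℝ)) ≤ 2 * (1 / (p : ℝ)) := by
  have h1 := inv_prime_le_half hp
  have h0 : (0 : ℝ) ≤ 1 / p := by positivity
  have h2 := Pool.Agent.Lib.Helper57.neg_log_one_sub_le h0 h1
  nlinarith

theorem sum_inv_block : ∃ K : ℝ, 0 < K ∧ ∀ l j : ℕ,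
    (1 / 2 * Real.log 2) * j - K ≤ ∑ p ∈ pr (l + j) \ pr l, 1 / (p : ℝ) ∧
    ∑ p ∈ pr (l + j) \ pr l, 1 / (p : ℝ) ≤ Real.log 2 * j + K := by
  obtain ⟨K, hK0, hK⟩ := sum_log_block
  refine ⟨K, hK0, fun l j => ?_⟩
  have h1 := abs_le.mp (hK l j)
  have hpr : ∀ p ∈ pr (l + j) \ pr l, p.Prime := fun p hp =>
    pr_prime (Finset.mem_sdiff.mp hp).1
  have h2 : ∑ p ∈ pr (l + j) \ pr l, 1 / (p : ℝ) ≤
      ∑ p ∈ pr (l + j) \ pr l, -Real.log (1 - 1 / (p : ℝ)) :=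
    Finset.sum_le_sum fun p hp => inv_le_neg_log (hpr p hp)
  have h3 : ∑ p ∈ pr (l + j) \ pr l, -Real.log (1 - 1 / (p : ℝ)) ≤
      2 * ∑ p ∈ pr (l + j) \ pr l, 1 / (p : ℝ) := by
    rw [Finset.mul_sum]
    exact Finset.sum_le_sum fun p hp => neg_log_le_two_inv (hpr p hp)
  constructor
  · nlinarith [h1.1, h1.2]
  · nlinarith [h1.1, h1.2]

theorem sum_log_div : ∃ K : ℝ, 0 < K ∧ ∀ l : ℕ,
    ∑ p ∈ pr l, Real.log p / p ≤ K * 2 ^ l := by
  refine ⟨2, by norm_num, fun l => ?_⟩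
  rw [pr_eq_primesUpTo]
  set x : ℝ := Real.exp (2 ^ l / 2) with hx
  have hx1 : 1 ≤ x := Real.one_le_exp (by positivity)
  have hn1 : 1 ≤ ⌊x⌋₊ := Nat.le_floor (by simpa using hx1)
  have hn : (1 : ℝ) ≤ (⌊x⌋₊ : ℝ) := by exact_mod_cast hn1
  have h1 := Pool.Agent.Lib.Sieve.sum_log_div_le ⌊x⌋₊ hn1
  have h2 : Real.log (⌊x⌋₊ : ℝ) ≤ Real.log x :=
    Real.log_le_log (by linarith) (Nat.floor_le (by linarith))
  have h3 : Real.log x = 2 ^ l / 2 := Real.log_exp _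
  have h4 : Real.log 4 = 2 * Real.log 2 := by
    rw [show (4 : ℝ) = 2 ^ 2 by norm_num, Real.log_pow]; push_cast; ring
  have h5 := Real.log_two_lt_d9
  have h6 : (1 : ℝ) ≤ 2 ^ l := one_le_pow₀ (by norm_num)
  linarith

theorem sum_log_sq_div : ∃ K : ℝ, 0 < K ∧ ∀ l : ℕ,
    ∑ p ∈ pr l, (Real.log p) ^ 2 / p ≤ K * 4 ^ l := by
  obtain ⟨K, hK0, hK⟩ := sum_log_div
  refine ⟨K, hK0, fun l => ?_⟩
  have h1 : ∑ p ∈ pr l, (Real.log p) ^ 2 / p ≤ ∑ p ∈ pr l, 2 ^ l * (Real.log p / p) := by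
    refine Finset.sum_le_sum fun p hp => ?_
    have h2 := (mem_pr.mp hp).2
    have hp1 : (1 : ℝ) ≤ p := by exact_mod_cast (pr_prime hp).one_le
    have h3 : 0 ≤ Real.log p := Real.log_nonneg hp1
    have hp0 : (0 : ℝ) < p := by linarith
    rw [← mul_div_assoc]
    apply div_le_div_of_nonneg_right _ hp0.le
    nlinarith
  rw [← Finset.mul_sum] at h1
  calc _ ≤ _ := h1
    _ ≤ 2 ^ l * (K * 2 ^ l) := by
      apply mul_le_mul_of_nonneg_left (hK l) (by positivity)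
    _ = K * 4 ^ l := by
      rw [show (4 : ℝ) = 2 * 2 by norm_num, mul_pow]; ring

end Emb
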