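/-
NT1: corollaries of CoreNT (helper55's Mertens chunk N) used in the lifting half.
-/
import Pool.Agent.Lib.Emb.Defs2
import Pool.Agent.Lib.Emb.CoreNT

open MeasureTheory Complex
open scoped BigOperators ENNReal

namespace Emb

theorem pr_zeroE : pr 0 = ∅ := by
  apply Finset.eq_empty_of_forall_notMem
  intro p hp
  rw [mem_pr] at hp
  obtain ⟨h1, h2⟩ := hp
  have h3 : (2:ℝ) ≤ p := by exact_mod_cast h1.two_le
  have h4 : Real.log 2 ≤ Real.log p := Real.log_le_log (by norm_num) h3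
  have h5 := Real.log_two_gt_d9
  norm_num at h2
  linarith

theorem mertens_upper : ∃ C : ℝ, 0 < C ∧ ∀ l : ℕ, ∏ p ∈ pr l, (1 - 1 / (p : ℝ))⁻¹ ≤ C * 2 ^ l := by
  obtain ⟨K, hK, h⟩ := mertens_pr
  exact ⟨K, by linarith, fun l => (h l).2⟩

theorem mertens_lower : ∃ c : ℝ, 0 < c ∧ ∀ l : ℕ, c * 2 ^ l ≤ ∏ p ∈ pr l, (1 - 1 / (p : ℝ))⁻¹ := by
  obtain ⟨K, hK, h⟩ := mertens_pr
  refine ⟨1 / K, by positivity, fun l => ?_⟩
  have := (h l).1
  calc 1 / K * 2 ^ l = (2:ℝ) ^ l / K := by ring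
    _ ≤ _ := this

theorem sum_logp_div : ∃ C : ℝ, 0 < C ∧ ∀ l : ℕ, ∑ p ∈ pr l, Real.log p / p ≤ C * 2 ^ l :=
  sum_log_div

end Emb
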