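import Pool.Agent.Lib.Emb.CoreDefs

/-!
# Chunk B: basic facts (positivity, joint continuity) of the cascade functions

All primes `p ≥ 2`, so `‖yy p t x‖ = p^{-1/2} ≤ 2^{-1/2} < 1` and `1 - yy ≠ 0`; everything is a
finite product/sum/max of jointly continuous functions of `(t, ω)`.
-/

open MeasureTheory Complex ProbabilityTheory
open scoped BigOperators ENNReal

namespace Emb

theorem norm_yy (p : ℕ) (t : ℝ) (x : UnitAddCircle) : ‖yy p t x‖ = (Real.sqrt p)⁻¹ := by
  unfold yy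
  rw [norm_mul, norm_mul, Complex.norm_exp_ofReal_mul_I, mul_one, Complex.norm_real,
    Real.norm_eq_abs, abs_of_nonneg (inv_nonneg.2 (Real.sqrt_nonneg _)), fourier_one,
    Circle.norm_coe, one_mul]

theorem coreBasic_yy_lt {p : ℕ} (hp : p.Prime) (t : ℝ) (x : UnitAddCircle) :
    ‖yy p t x‖ < 1 := by
  rw [norm_yy]
  apply inv_lt_one_of_one_lt₀
  rw [Real.lt_sqrt (by norm_num)]
  have : (2 : ℝ) ≤ p := by exact_mod_cast hp.two_le
  linarith

theorem coreBasic_ne {p : ℕ} (hp : p.Prime) (t : ℝ) (x : UnitAddCircle) :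
    1 - yy p t x ≠ 0 := by
  intro h
  have h1 : yy p t x = 1 := (sub_eq_zero.1 h).symm
  have h2 := coreBasic_yy_lt hp t x
  rw [h1, norm_one] at h2
  exact lt_irrefl _ h2

theorem coreBasic_one_sub {p : ℕ} (hp : p.Prime) : (0 : ℝ) < 1 - 1 / (p : ℝ) := by
  have h2 : (2 : ℝ) ≤ p := by exact_mod_cast hp.two_le
  have : 1 / (p : ℝ) ≤ 1 / 2 := one_div_le_one_div_of_le (by norm_num) h2
  linarith

/-- `d_p > 0` for primes. -/
theorem d1_pos {p : ℕ} (hp : p.Prime) (t : ℝ) (x : UnitAddCircle) : 0 < d1 p t x := by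
  unfold d1
  have h : 0 < ‖k1 p t x‖ := by
    rw [norm_pos_iff]
    exact inv_ne_zero (coreBasic_ne hp t x)
  have := coreBasic_one_sub hp
  positivity

theorem pr_prime {l p : ℕ} (hp : p ∈ pr l) : p.Prime := by
  unfold pr at hp
  rw [Finset.mem_filter] at hp
  exact hp.2.1

theorem mem_pr {l p : ℕ} : p ∈ pr l ↔ p.Prime ∧ 2 * Real.log p ≤ 2 ^ l := by
  unfold pr
  rw [Finset.mem_filter]
  refine ⟨fun h => h.2, fun h => ⟨?_, h⟩⟩
  rw [Finset.mem_range, Nat.lt_succ_iff]
  apply Nat.le_floor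
  have hp : (0 : ℝ) < p := by exact_mod_cast h.1.pos
  have h1 : 0 ≤ Real.log p := Real.log_natCast_nonneg p
  calc (p : ℝ) = Real.exp (Real.log p) := (Real.exp_log hp).symm
    _ ≤ Real.exp (2 ^ l) := Real.exp_le_exp.2 (by linarith [h.2])

theorem pr_mono : Monotone pr := by
  intro l l' hl p hp
  rw [mem_pr] at hp ⊢
  exact ⟨hp.1, hp.2.trans (pow_le_pow_right₀ (by norm_num) hl)⟩

theorem dd_pos {S : Finset ℕ} (hS : ∀ p ∈ S, p.Prime) (t : ℝ) (ω : Om) : 0 < dd S t ω := by
  exact Finset.prod_pos fun p hp => d1_pos (hS p hp) t (ω p)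

theorem muL_pos (l : ℕ) (t : ℝ) (ω : Om) : 0 < muL l t ω := by
  exact mul_pos (by positivity) (dd_pos (fun p hp => pr_prime hp) t ω)

theorem one_le_Th (l : ℕ) (t : ℝ) (ω : Om) : 1 ≤ Th l t ω := by
  unfold Th
  have : 0 ≤ ((4 : ℝ) ^ l)⁻¹ * ‖UU (pr l) t ω‖ ^ 2 := by positivity
  linarith

theorem le_Lam (c : ℝ) (l0 : ℕ) {i j : ℕ} (hij : i ≤ j) (t : ℝ) (ω : Om) :
    muL (l0 + i) t ω / (1 + (i : ℝ)) ^ c ≤ Lam c l0 j t ω := by
  unfold Lam runMax
  exact Finset.le_sup' (fun i : ℕ => muL (l0 + i) t ω / (1 + (i : ℝ)) ^ c)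
    (Finset.mem_range.2 (by omega))

theorem Lam_pos (c : ℝ) (l0 j : ℕ) (t : ℝ) (ω : Om) : 0 < Lam c l0 j t ω := by
  refine lt_of_lt_of_le ?_ (le_Lam c l0 (Nat.zero_le j) t ω)
  have := muL_pos (l0 + 0) t ω
  positivity

theorem coreBasic_continuous_yy (p : ℕ) :
    Continuous (fun z : ℝ × UnitAddCircle => yy p z.1 z.2) := by
  unfold yy
  fun_prop

theorem continuous_k1 {p : ℕ} (hp : p.Prime) :
    Continuous (fun z : ℝ × UnitAddCircle => k1 p z.1 z.2) := by
  unfold k1
  exact (continuous_const.sub (coreBasic_continuous_yy p)).inv₀ fun z => coreBasic_ne hp z.1 z.2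

theorem coreBasic_continuous_k1' {p : ℕ} (hp : p.Prime) :
    Continuous (fun z : ℝ × Om => k1 p z.1 (z.2 p)) := by
  have h : Continuous (fun z : ℝ × Om => (z.1, z.2 p)) :=
    continuous_fst.prodMk ((continuous_apply p).comp continuous_snd)
  have h2 := (continuous_k1 hp).comp h
  exact h2

theorem continuous_dd {S : Finset ℕ} (hS : ∀ p ∈ S, p.Prime) :
    Continuous (fun z : ℝ × Om => dd S z.1 z.2) := by
  unfold dd d1
  refine continuous_finsetProd _ fun p hp => ?_
  exact continuous_const.mul ((coreBasic_continuous_k1' (hS p hp)).norm.pow 2)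

theorem continuous_kk {S : Finset ℕ} (hS : ∀ p ∈ S, p.Prime) :
    Continuous (fun z : ℝ × Om => kk S z.1 z.2) := by
  unfold kk
  exact continuous_finsetProd _ fun p hp => coreBasic_continuous_k1' (hS p hp)

theorem continuous_muL (l : ℕ) : Continuous (fun z : ℝ × Om => muL l z.1 z.2) := by
  unfold muL
  exact continuous_const.mul (continuous_dd fun p hp => pr_prime hp)

theorem continuous_UU {S : Finset ℕ} (hS : ∀ p ∈ S, p.Prime) :
    Continuous (fun z : ℝ × Om => UU S z.1 z.2) := by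
  unfold UU
  refine continuous_finsetSum _ fun p hp => ?_
  exact continuous_const.mul ((coreBasic_continuous_k1' (hS p hp)).sub continuous_const)

theorem continuous_Th (l : ℕ) : Continuous (fun z : ℝ × Om => Th l z.1 z.2) := by
  unfold Th
  exact continuous_const.add
    (continuous_const.mul ((continuous_UU fun p hp => pr_prime hp).norm.pow 2))

theorem continuous_Lam (c : ℝ) (l0 j : ℕ) :
    Continuous (fun z : ℝ × Om => Lam c l0 j z.1 z.2) := by
  have h : ∀ i ∈ Finset.range (j + 1), Continuous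
      ((fun (i : ℕ) (z : ℝ × Om) => muL (l0 + i) z.1 z.2 / (1 + (i : ℝ)) ^ c) i) :=
    fun i _ => (continuous_muL (l0 + i)).div_const _
  have hne : (Finset.range (j + 1)).Nonempty := ⟨0, by simp⟩
  have h2 := Continuous.finset_sup'_apply hne h
  exact h2

theorem continuous_rho (c : ℝ) (l0 j : ℕ) :
    Continuous (fun z : ℝ × Om => rho c l0 j z.1 z.2) := by
  unfold rho
  refine (continuous_muL (l0 + j)).div (continuous_const.mul (continuous_Lam c l0 j)) fun z => ?_
  have := Lam_pos c l0 j z.1 z.2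
  positivity

theorem rho_pos (c : ℝ) (l0 j : ℕ) (t : ℝ) (ω : Om) : 0 < rho c l0 j t ω := by
  unfold rho
  have := Lam_pos c l0 j t ω
  have := muL_pos (l0 + j) t ω
  positivity

theorem rho_le_one (c : ℝ) (l0 j : ℕ) (t : ℝ) (ω : Om) : rho c l0 j t ω ≤ 1 := by
  unfold rho
  have h1 := Lam_pos c l0 j t ω
  have h2 := le_Lam c l0 (le_refl j) t ω
  have h3 : (0 : ℝ) < (1 + (j : ℝ)) ^ c := by positivity
  rw [div_le_one (by positivity)]
  rw [div_le_iff₀ h3] at h2
  linarith

end Emb
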