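/-
CHUNK ONEA (single prime: continuity, bounds, derivative, norm formula).
norm_yy, continuous_k1, d1_pos are in CoreBasic.lean (helper55, chunk B).

y = yy p t x has |y| = 1/sqrt p <= 1/sqrt 2 < 1 (p >= 2), so 1-y != 0, Re(1-y) > 0 (slit plane),
|k| <= 1/(1-1/sqrt 2) < 4.  k - 1 = y k, |k-1| <= 4/sqrt p.
d/dt y = i log p y; d/dt k = i log p y k^2 = i log p k (k-1).
m = (1-1/p)^b k (1-conj y)^(-b): log-derivative i log p ((k-1) - b conj(k-1)).
|(1-conj y)^(-b)| = |1-conj y|^(-b) = |k|^b for real b (Complex.norm_cpow..., b real), so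
|m|^2 = (1-1/p)^(2b) |k|^(2+2b) = d1^(1+b) (1-1/p)^(b-1).
conj of cpow: (1 - conj y)^(-b) = conj((1-y)^(-b)) (Complex.conj_cpow, argument not pi), useful for
the derivative.
-/
import Pool.Agent.Lib.Emb.Defs2
import Pool.Agent.Lib.Emb.CoreBasic

open MeasureTheory Complex
open scoped BigOperators ENNReal

namespace Emb

private theorem oa_sqrt {p : ℕ} (hp : p.Prime) : (Real.sqrt p)⁻¹ < 3 / 4 := by
  have h2 : (2 : ℝ) ≤ p := by exact_mod_cast hp.two_le
  have h3 : (4 / 3 : ℝ) < Real.sqrt p := by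
    rw [Real.lt_sqrt (by norm_num)]
    linarith
  rw [inv_lt_comm₀ (by linarith) (by norm_num)]
  linarith

theorem yy_lt_one {p : ℕ} (hp : p.Prime) (t : ℝ) (x : UnitAddCircle) : ‖yy p t x‖ < 3 / 4 := by
  rw [norm_yy]
  exact oa_sqrt hp

theorem continuous_yy (p : ℕ) : Continuous fun z : ℝ × UnitAddCircle => yy p z.1 z.2 := by
  unfold yy
  fun_prop

private theorem oa_re {p : ℕ} (hp : p.Prime) (t : ℝ) (x : UnitAddCircle) :
    0 < (1 - yy p t x).re := by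
  have h1 := yy_lt_one hp t x
  have h2 := Complex.re_le_norm (yy p t x)
  rw [Complex.sub_re, Complex.one_re]
  linarith

private theorem oa_ne {p : ℕ} (hp : p.Prime) (t : ℝ) (x : UnitAddCircle) : 1 - yy p t x ≠ 0 := by
  intro h
  have h1 := oa_re hp t x
  rw [h] at h1
  simp at h1

private theorem oa_conj (p : ℕ) (t : ℝ) (x : UnitAddCircle) :
    1 - (starRingEnd ℂ) (yy p t x) = (starRingEnd ℂ) (1 - yy p t x) := by
  rw [map_sub, map_one]

private theorem oa_slit {p : ℕ} (hp : p.Prime) (t : ℝ) (x : UnitAddCircle) :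
    1 - (starRingEnd ℂ) (yy p t x) ∈ Complex.slitPlane := by
  left
  rw [oa_conj, Complex.conj_re]
  exact oa_re hp t x

private theorem oa_pos {p : ℕ} (hp : p.Prime) : 0 < 1 - 1 / (p : ℝ) := by
  have h2 : (2 : ℝ) ≤ p := by exact_mod_cast hp.two_le
  have h3 : 1 / (p : ℝ) ≤ 1 / 2 := one_div_le_one_div_of_le (by norm_num) h2
  linarith

theorem continuous_m1 (b : ℝ) {p : ℕ} (hp : p.Prime) :
    Continuous fun z : ℝ × UnitAddCircle => m1 b p z.1 z.2 := by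
  unfold m1
  refine (continuous_const.mul (continuous_k1 hp)).mul ?_
  refine Continuous.cpow ?_ continuous_const (fun z => oa_slit hp z.1 z.2)
  exact continuous_const.sub (Complex.continuous_conj.comp (continuous_yy p))

theorem continuous_d1 {p : ℕ} (hp : p.Prime) :
    Continuous fun z : ℝ × UnitAddCircle => d1 p z.1 z.2 := by
  unfold d1
  exact continuous_const.mul ((continuous_k1 hp).norm.pow 2)

theorem k1_sub_one {p : ℕ} (hp : p.Prime) (t : ℝ) (x : UnitAddCircle) :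
    k1 p t x - 1 = yy p t x * k1 p t x := by
  have h := oa_ne hp t x
  unfold k1
  field_simp
  ring

theorem norm_k1_le {p : ℕ} (hp : p.Prime) (t : ℝ) (x : UnitAddCircle) : ‖k1 p t x‖ ≤ 4 := by
  unfold k1
  rw [norm_inv]
  have h1 := yy_lt_one hp t x
  have h2 : 1 / 4 ≤ ‖1 - yy p t x‖ := by
    have h3 := norm_sub_norm_le (1 : ℂ) (yy p t x)
    rw [norm_one] at h3
    linarith
  rw [inv_le_comm₀ (by linarith) (by norm_num)]
  linarith

theorem norm_k1_sub_one_le {p : ℕ} (hp : p.Prime) (t : ℝ) (x : UnitAddCircle) :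
    ‖k1 p t x - 1‖ ≤ 4 / Real.sqrt p := by
  rw [k1_sub_one hp, norm_mul, norm_yy, mul_comm, div_eq_mul_inv]
  exact mul_le_mul_of_nonneg_right (norm_k1_le hp t x) (inv_nonneg.2 (Real.sqrt_nonneg _))

theorem k1_ne_zero {p : ℕ} (hp : p.Prime) (t : ℝ) (x : UnitAddCircle) : k1 p t x ≠ 0 :=
  inv_ne_zero (oa_ne hp t x)

theorem m1_ne_zero (b : ℝ) {p : ℕ} (hp : p.Prime) (t : ℝ) (x : UnitAddCircle) :
    m1 b p t x ≠ 0 := by
  unfold m1
  refine mul_ne_zero (mul_ne_zero ?_ (k1_ne_zero hp t x)) ?_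
  · rw [Complex.ofReal_ne_zero]
    exact (Real.rpow_pos_of_pos (oa_pos hp) b).ne'
  · have h := Complex.slitPlane_ne_zero (oa_slit hp t x)
    intro h0
    rw [Complex.cpow_eq_zero_iff] at h0
    exact h h0.1

private theorem oa_yy {p : ℕ} (t : ℝ) (x : UnitAddCircle) :
    HasDerivAt (fun u : ℝ => yy p u x) (I * (Real.log p : ℂ) * yy p t x) t := by
  unfold yy
  have h1 : HasDerivAt (fun t : ℝ => ((t * Real.log p : ℝ) : ℂ)) ((Real.log p : ℝ) : ℂ) t := by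
    have h0 : HasDerivAt (fun t : ℝ => t * Real.log p) (1 * Real.log p) t :=
      (hasDerivAt_id t).mul_const _
    rw [one_mul] at h0
    exact h0.ofReal_comp
  have h2 := ((h1.mul_const I).cexp).const_mul
    (fourier 1 x * (((Real.sqrt p)⁻¹ : ℝ) : ℂ))
  refine h2.congr_deriv ?_
  ring

theorem hasDerivAt_k1 {p : ℕ} (hp : p.Prime) (t : ℝ) (x : UnitAddCircle) :
    HasDerivAt (fun u : ℝ => k1 p u x)
      (I * (Real.log p : ℂ) * (k1 p t x * (k1 p t x - 1))) t := by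
  have h1 := ((oa_yy (p := p) t x).const_sub 1).inv (oa_ne hp t x)
  refine h1.congr_deriv ?_
  rw [k1_sub_one hp]
  have h := oa_ne hp t x
  unfold k1
  field_simp

theorem hasDerivAt_m1 (b : ℝ) {p : ℕ} (hp : p.Prime) (t : ℝ) (x : UnitAddCircle) :
    HasDerivAt (fun u : ℝ => m1 b p u x)
      (m1 b p t x * (I * (Real.log p : ℂ) *
        ((k1 p t x - 1) - (b : ℂ) * (starRingEnd ℂ) (k1 p t x - 1)))) t := by
  have h1 := hasDerivAt_k1 hp t x
  have h2 : HasDerivAt (fun u : ℝ => (starRingEnd ℂ) (yy p u x))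
      ((starRingEnd ℂ) (I * (Real.log p : ℂ) * yy p t x)) t := (oa_yy (p := p) t x).star
  have h0 : HasDerivAt (fun z : ℂ => z ^ (-(b : ℂ)))
      (-(b : ℂ) * (1 - (starRingEnd ℂ) (yy p t x)) ^ (-(b : ℂ) - 1) * 1)
      (1 - (starRingEnd ℂ) (yy p t x)) :=
    (hasDerivAt_id (1 - (starRingEnd ℂ) (yy p t x))).cpow_const (c := -(b : ℂ)) (oa_slit hp t x)
  have h3 : HasDerivAt (fun u : ℝ => (1 - (starRingEnd ℂ) (yy p u x)) ^ (-(b : ℂ)))
      (-(b : ℂ) * (1 - (starRingEnd ℂ) (yy p t x)) ^ (-(b : ℂ) - 1) * 1 *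
        -(starRingEnd ℂ) (I * (Real.log p : ℂ) * yy p t x)) t :=
    HasDerivAt.comp (h₂ := fun z : ℂ => z ^ (-(b : ℂ)))
      (h := fun u : ℝ => 1 - (starRingEnd ℂ) (yy p u x)) t h0 (h2.const_sub 1)
  have h4 := (h1.const_mul ((((1 - 1 / (p : ℝ)) ^ b : ℝ) : ℂ))).mul h3
  refine h4.congr_deriv ?_
  have hs := Complex.slitPlane_ne_zero (oa_slit hp t x)
  have e1 : (1 - (starRingEnd ℂ) (yy p t x)) ^ (-(b : ℂ) - 1) =
      (1 - (starRingEnd ℂ) (yy p t x)) ^ (-(b : ℂ)) * (1 - (starRingEnd ℂ) (yy p t x))⁻¹ := by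
    rw [Complex.cpow_sub _ _ hs, Complex.cpow_one, div_eq_mul_inv]
  have e2 : (starRingEnd ℂ) (k1 p t x - 1) =
      (starRingEnd ℂ) (yy p t x) * (1 - (starRingEnd ℂ) (yy p t x))⁻¹ := by
    rw [k1_sub_one hp, map_mul, k1, map_inv₀, map_sub, map_one]
  rw [e1, e2, map_mul, map_mul, Complex.conj_I, Complex.conj_ofReal]
  unfold m1
  ring

theorem norm_m1_sq (b : ℝ) {p : ℕ} (hp : p.Prime) (t : ℝ) (x : UnitAddCircle) :
    ‖m1 b p t x‖ ^ 2 = d1 p t x ^ (1 + b) * (1 - 1 / (p : ℝ)) ^ (b - 1) := by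
  have hP := oa_pos hp
  set P : ℝ := 1 - 1 / (p : ℝ) with hPd
  have hk : 0 < ‖k1 p t x‖ := norm_pos_iff.2 (k1_ne_zero hp t x)
  set κ : ℝ := ‖k1 p t x‖ with hκ
  have hs := Complex.slitPlane_ne_zero (oa_slit hp t x)
  have e1 : ‖(1 - (starRingEnd ℂ) (yy p t x)) ^ (-(b : ℂ))‖ = κ ^ b := by
    have e0 : (-(b : ℂ)) = ((-b : ℝ) : ℂ) := by push_cast; rfl
    rw [e0, Complex.norm_cpow_real, oa_conj, Complex.norm_conj, Real.rpow_neg (norm_nonneg _),
      ← Real.inv_rpow (norm_nonneg _), ← norm_inv]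
    rfl
  have e2 : ‖m1 b p t x‖ = P ^ b * κ * κ ^ b := by
    unfold m1
    rw [norm_mul, norm_mul, e1, Complex.norm_real, Real.norm_of_nonneg (Real.rpow_nonneg hP.le b)]
  have e3 : d1 p t x = P * κ ^ 2 := rfl
  rw [e2, e3, Real.mul_rpow hP.le (sq_nonneg κ)]
  have e4 : P ^ (1 + b) * P ^ (b - 1) = P ^ b * P ^ b := by
    rw [← Real.rpow_add hP, ← Real.rpow_add hP]
    congr 1
    ring
  have e5 : (κ ^ 2) ^ (1 + b) = (κ * κ ^ b) ^ 2 := by
    rw [Real.rpow_add (by positivity), Real.rpow_one, mul_pow]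
    congr 1
    rw [← Real.rpow_natCast, ← Real.rpow_mul hk.le, ← Real.rpow_natCast (κ ^ b) 2,
      ← Real.rpow_mul hk.le]
    congr 1
    ring
  rw [e5]
  calc (P ^ b * κ * κ ^ b) ^ 2 = (κ * κ ^ b) ^ 2 * (P ^ b * P ^ b) := by ring
    _ = (κ * κ ^ b) ^ 2 * (P ^ (1 + b) * P ^ (b - 1)) := by rw [e4]
    _ = _ := by ring

end Emb
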