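/-
CHUNK MMB (continuous_kk, continuous_dd, continuous_UU are in CoreBasic.lean)
(finite products: continuity, derivative, dependence on coordinates, pointwise bound of N_l).

`point`: N_l(t) <= C 4^l mu_l(t)^s Theta_l(t), b = s - 1.
 Proof. |M|^2 = prod d1^(1+b) (1-1/p)^(b-1) = (dd)^s * (prod (1-1/p)^-1)^(2-s)
   <= (2^l mu_l)^s (C 2^l)^(2-s) = C 4^l mu_l^s (mertens_upper);
 d/dt M = M * i (U - b conj U) (hasDerivAt_m1 for every factor), so |M'| <= (1+b)|M||U| <= 2|M||U| and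
 N_l <= |M|^2 (1 + 4*4^-l |U|^2) <= 4 |M|^2 Theta_l.
-/
import Pool.Agent.Lib.Emb.OneA
import Pool.Agent.Lib.Emb.NT1

open MeasureTheory Complex
open scoped BigOperators ENNReal

namespace Emb

private theorem mmb_proj (p : ℕ) : Continuous fun z : ℝ × Om => z.2 p :=
  (continuous_apply p).comp continuous_snd

private theorem mmb_pair (p : ℕ) :
    Continuous fun z : ℝ × Om => ((z.1, z.2 p) : ℝ × UnitAddCircle) :=
  Continuous.prodMk continuous_fst (mmb_proj p)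

private theorem mmb_comp {p : ℕ} (F : ℝ × UnitAddCircle → ℂ) (hF : Continuous F) :
    Continuous fun z : ℝ × Om => F (z.1, z.2 p) := hF.comp (mmb_pair p)

private theorem mmb_m1' (b : ℝ) {p : ℕ} (hp : p.Prime) :
    Continuous fun z : ℝ × Om =>
      (fun z : ℝ × UnitAddCircle => m1 b p z.1 z.2) (z.1, z.2 p) :=
  mmb_comp (fun z : ℝ × UnitAddCircle => m1 b p z.1 z.2) (continuous_m1 b hp)

private theorem mmb_m1 (b : ℝ) {p : ℕ} (hp : p.Prime) :
    Continuous fun z : ℝ × Om => m1 b p z.1 (z.2 p) := by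
  have := mmb_m1' b hp
  simpa only using this

theorem continuous_mm (b : ℝ) (S : Finset ℕ) (hS : ∀ p ∈ S, p.Prime) :
    Continuous fun z : ℝ × Om => mm b S z.1 z.2 := by
  unfold mm
  exact continuous_finsetProd S fun p hp => mmb_m1 b (hS p hp)

theorem hasDerivAt_mm (b : ℝ) (S : Finset ℕ) (hS : ∀ p ∈ S, p.Prime) (t : ℝ) (ω : Om) :
    HasDerivAt (fun u : ℝ => mm b S u ω)
      (mm b S t ω * (I * (UU S t ω - (b : ℂ) * (starRingEnd ℂ) (UU S t ω)))) t := by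
  induction S using Finset.induction_on with
  | empty =>
    have h : (fun u : ℝ => mm b ∅ u ω) = fun _ => (1 : ℂ) := by
      funext u; simp [mm]
    rw [h]
    have h2 : mm b ∅ t ω * (I * (UU ∅ t ω - (b : ℂ) * (starRingEnd ℂ) (UU ∅ t ω))) = 0 := by
      simp [UU]
    rw [h2]
    exact hasDerivAt_const t (1 : ℂ)
  | insert p S hpS ih =>
    have ih' := ih fun q hq => hS q (Finset.mem_insert_of_mem hq)
    have hp : p.Prime := hS p (Finset.mem_insert_self p S)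
    have h1 := hasDerivAt_m1 b hp t (ω p)
    have h2 := h1.mul ih'
    have h3 : (fun u : ℝ => mm b (insert p S) u ω) =
        (fun u : ℝ => m1 b p u (ω p)) * (fun u : ℝ => mm b S u ω) := by
      funext u
      simp [mm, Finset.prod_insert hpS]
    rw [h3]
    have h4 : mm b (insert p S) t ω = m1 b p t (ω p) * mm b S t ω := by
      simp [mm, Finset.prod_insert hpS]
    have h5 : UU (insert p S) t ω = (Real.log p : ℂ) * (k1 p t (ω p) - 1) + UU S t ω := by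
      simp [UU, Finset.sum_insert hpS]
    have h6 : (starRingEnd ℂ) (UU (insert p S) t ω) =
        (Real.log p : ℂ) * (starRingEnd ℂ) (k1 p t (ω p) - 1) + (starRingEnd ℂ) (UU S t ω) := by
      rw [h5, map_add, map_mul, conj_ofReal]
    rw [h6, h4, h5]
    refine h2.congr_deriv ?_
    ring

theorem mm_mix (b : ℝ) (S T : Finset ℕ) (h : T ⊆ S) (t : ℝ) (ω ω' : Om) :
    mm b T t (mix S ω ω') = mm b T t ω := by
  unfold mm mix
  refine Finset.prod_congr rfl fun p hp => ?_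
  rw [if_pos (h hp)]

theorem mm_mix' (b : ℝ) (S T : Finset ℕ) (h : Disjoint S T) (t : ℝ) (ω ω' : Om) :
    mm b T t (mix S ω ω') = mm b T t ω' := by
  unfold mm mix
  refine Finset.prod_congr rfl fun p hp => ?_
  rw [if_neg (Finset.disjoint_right.1 h hp)]

theorem kk_mix (S T : Finset ℕ) (h : T ⊆ S) (t : ℝ) (ω ω' : Om) :
    kk T t (mix S ω ω') = kk T t ω := by
  unfold kk mix
  refine Finset.prod_congr rfl fun p hp => ?_
  rw [if_pos (h hp)]

theorem kk_mix' (S T : Finset ℕ) (h : Disjoint S T) (t : ℝ) (ω ω' : Om) :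
    kk T t (mix S ω ω') = kk T t ω' := by
  unfold kk mix
  refine Finset.prod_congr rfl fun p hp => ?_
  rw [if_neg (Finset.disjoint_right.1 h hp)]

theorem continuous_NN (b : ℝ) (l : ℕ) : Continuous fun z : ℝ × Om => NN b l z.1 z.2 := by
  have hS : ∀ p ∈ pr l, p.Prime := fun p hp => pr_prime hp
  have h1 : (fun z : ℝ × Om => NN b l z.1 z.2) = fun z : ℝ × Om =>
      ‖mm b (pr l) z.1 z.2‖ ^ 2 + (4 ^ l)⁻¹ *
        ‖mm b (pr l) z.1 z.2 * (I * (UU (pr l) z.1 z.2 -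
          (b : ℂ) * (starRingEnd ℂ) (UU (pr l) z.1 z.2)))‖ ^ 2 := by
    funext z
    unfold NN
    rw [(hasDerivAt_mm b (pr l) hS z.1 z.2).deriv]
  rw [h1]
  have hm := continuous_mm b (pr l) hS
  have hU := continuous_UU hS
  have hU' : Continuous fun z : ℝ × Om => (starRingEnd ℂ) (UU (pr l) z.1 z.2) :=
    continuous_conj.comp hU
  exact (hm.norm.pow 2).add (continuous_const.mul
    ((hm.mul (continuous_const.mul (hU.sub (continuous_const.mul hU')))).norm.pow 2))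

/-- The norm of `M` in terms of `mu_l` and the Mertens product. -/
theorem norm_mm_sq_eq (s : ℝ) (l : ℕ) (t : ℝ) (ω : Om) :
    ‖mm (s - 1) (pr l) t ω‖ ^ 2 =
      (2 ^ l * muL l t ω) ^ s * (∏ p ∈ pr l, (1 - 1 / (p : ℝ))⁻¹) ^ (2 - s) := by
  have hdd : 2 ^ l * muL l t ω = dd (pr l) t ω := by
    unfold muL
    have h2 : (2 : ℝ) ^ l ≠ 0 := by positivity
    field_simp
  rw [hdd]
  unfold mm dd
  rw [norm_prod, ← Finset.prod_pow]
  rw [← Real.finsetProd_rpow _ _ (fun p hp => (d1_pos (pr_prime hp) t (ω p)).le)]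
  have hq : ∀ p ∈ pr l, 0 < 1 - 1 / (p : ℝ) := by
    intro p hp
    have h3 : (1 : ℝ) < p := by exact_mod_cast (pr_prime hp).one_lt
    have h4 : 1 / (p : ℝ) < 1 := by rw [div_lt_one (by linarith)]; exact h3
    linarith
  rw [← Real.finsetProd_rpow _ _ (fun p hp => (inv_pos.2 (hq p hp)).le)]
  rw [← Finset.prod_mul_distrib]
  refine Finset.prod_congr rfl fun p hp => ?_
  rw [norm_m1_sq (s - 1) (pr_prime hp) t (ω p)]
  have h5 : (1 : ℝ) + (s - 1) = s := by ring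
  rw [h5, Real.inv_rpow (hq p hp).le, ← Real.rpow_neg (hq p hp).le]
  congr 2
  ring

theorem point (s : ℝ) (hs1 : 1 < s) (hs2 : s < 2) : ∃ C : ℝ, 0 < C ∧
    ∀ (l : ℕ) (t : ℝ) (ω : Om), NN (s - 1) l t ω ≤ C * (4 ^ l * muL l t ω ^ s * Th l t ω) := by
  obtain ⟨C, hC, hM⟩ := mertens_upper
  refine ⟨4 * C ^ (2 - s), by positivity, fun l t ω => ?_⟩
  have hS : ∀ p ∈ pr l, p.Prime := fun p hp => pr_prime hp
  have hmu : 0 < muL l t ω := muL_pos l t ω
  have h2l : (0 : ℝ) < 2 ^ l := by positivity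
  -- the bound of the square of M
  have hP0 : 0 ≤ ∏ p ∈ pr l, (1 - 1 / (p : ℝ))⁻¹ := by
    refine Finset.prod_nonneg fun p hp => ?_
    have h3 : (1 : ℝ) < p := by exact_mod_cast (pr_prime hp).one_lt
    have h4 : 1 / (p : ℝ) < 1 := by rw [div_lt_one (by linarith)]; exact h3
    exact inv_nonneg.2 (by linarith)
  have hMM : ‖mm (s - 1) (pr l) t ω‖ ^ 2 ≤ C ^ (2 - s) * (4 ^ l * muL l t ω ^ s) := by
    rw [norm_mm_sq_eq s l t ω]
    have h1 : (∏ p ∈ pr l, (1 - 1 / (p : ℝ))⁻¹) ^ (2 - s) ≤ (C * 2 ^ l) ^ (2 - s) :=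
      Real.rpow_le_rpow hP0 (hM l) (by linarith)
    have h2 : (2 ^ l * muL l t ω) ^ s = (2 ^ l) ^ s * muL l t ω ^ s :=
      Real.mul_rpow h2l.le hmu.le
    have h3 : (C * 2 ^ l) ^ (2 - s) = C ^ (2 - s) * ((2 : ℝ) ^ l) ^ (2 - s) :=
      Real.mul_rpow hC.le h2l.le
    have h4 : ((2 : ℝ) ^ l) ^ s * ((2 : ℝ) ^ l) ^ (2 - s) = 4 ^ l := by
      rw [← Real.rpow_add h2l]
      have h5 : s + (2 - s) = ((2 : ℕ) : ℝ) := by push_cast; ring
      rw [h5, Real.rpow_natCast, ← pow_mul, mul_comm l 2, pow_mul]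
      norm_num
    rw [h2]
    calc (2 ^ l) ^ s * muL l t ω ^ s * (∏ p ∈ pr l, (1 - 1 / (p : ℝ))⁻¹) ^ (2 - s)
        ≤ (2 ^ l) ^ s * muL l t ω ^ s * (C * 2 ^ l) ^ (2 - s) :=
          mul_le_mul_of_nonneg_left h1 (by positivity)
      _ = C ^ (2 - s) * ((((2 : ℝ) ^ l) ^ s * ((2 : ℝ) ^ l) ^ (2 - s)) * muL l t ω ^ s) := by
          rw [h3]; ring
      _ = _ := by rw [h4]
  -- the derivative
  have hder : ‖deriv (fun u => mm (s - 1) (pr l) u ω) t‖ ^ 2 ≤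
      4 * (‖mm (s - 1) (pr l) t ω‖ ^ 2 * ‖UU (pr l) t ω‖ ^ 2) := by
    rw [(hasDerivAt_mm (s - 1) (pr l) hS t ω).deriv]
    rw [norm_mul, norm_mul, norm_I, one_mul]
    have h1 : ‖UU (pr l) t ω - (((s - 1 : ℝ)) : ℂ) * (starRingEnd ℂ) (UU (pr l) t ω)‖ ≤
        2 * ‖UU (pr l) t ω‖ := by
      refine (norm_sub_le _ _).trans ?_
      rw [norm_mul, Complex.norm_conj, Complex.norm_real, Real.norm_eq_abs,
        abs_of_pos (by linarith : 0 < s - 1)]
      have := norm_nonneg (UU (pr l) t ω)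
      nlinarith
    have h2 : 0 ≤ ‖mm (s - 1) (pr l) t ω‖ := norm_nonneg _
    calc (‖mm (s - 1) (pr l) t ω‖ *
          ‖UU (pr l) t ω - (((s - 1 : ℝ)) : ℂ) * (starRingEnd ℂ) (UU (pr l) t ω)‖) ^ 2
        ≤ (‖mm (s - 1) (pr l) t ω‖ * (2 * ‖UU (pr l) t ω‖)) ^ 2 :=
          pow_le_pow_left₀ (by positivity) (mul_le_mul_of_nonneg_left h1 h2) 2
      _ = _ := by ring
  have h4l : (0 : ℝ) < (4 ^ l)⁻¹ := by positivity
  have hNN : NN (s - 1) l t ω ≤ 4 * ‖mm (s - 1) (pr l) t ω‖ ^ 2 * Th l t ω := by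
    unfold NN Th
    have h1 : (4 ^ l)⁻¹ * ‖deriv (fun u => mm (s - 1) (pr l) u ω) t‖ ^ 2 ≤
        (4 ^ l)⁻¹ * (4 * (‖mm (s - 1) (pr l) t ω‖ ^ 2 * ‖UU (pr l) t ω‖ ^ 2)) :=
      mul_le_mul_of_nonneg_left hder h4l.le
    have h2 : 0 ≤ ‖mm (s - 1) (pr l) t ω‖ ^ 2 := by positivity
    calc ‖mm (s - 1) (pr l) t ω‖ ^ 2 + (4 ^ l)⁻¹ * ‖deriv (fun u => mm (s - 1) (pr l) u ω) t‖ ^ 2
        ≤ 4 * ‖mm (s - 1) (pr l) t ω‖ ^ 2 +
          (4 ^ l)⁻¹ * (4 * (‖mm (s - 1) (pr l) t ω‖ ^ 2 * ‖UU (pr l) t ω‖ ^ 2)) := by linarith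
      _ = _ := by ring
  refine hNN.trans ?_
  have hTh : 0 ≤ Th l t ω := le_trans zero_le_one (one_le_Th l t ω)
  calc 4 * ‖mm (s - 1) (pr l) t ω‖ ^ 2 * Th l t ω
      ≤ 4 * (C ^ (2 - s) * (4 ^ l * muL l t ω ^ s)) * Th l t ω := by
        refine mul_le_mul_of_nonneg_right ?_ hTh
        linarith
    _ = _ := by ring

end Emb
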