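/-
CHUNK ONEB (single prime: Fourier series and integrals over the circle).

Write e_n(x) = fourier n x, r = 1/sqrt p, w = e^(i t log p).
 k = sum_(n>=0) r^n w^n e_n(x)                          (geometric series)
 (1 - conj y)^(-b) = sum_(j>=0) beta_j (conj y)^j, beta_j = b(b+1)...(b+j-1)/j! = Ring.choose (b+j-1) j,
   1 = beta_0 >= beta_1 >= ... >= 0 for 0 <= b <= 1 (beta_(j+1)/beta_j = (b+j)/(j+1) <= 1).
   Mathlib: Complex.one_div_one_sub_cpow_hasFPowerSeriesOnBall_zero (Mathlib.Analysis.Analytic.Binomial).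
 Product: m = sum_(nu in Z) c_nu w^nu e_nu(x) with
   c_nu = (1-1/p)^b r^nu sum_j beta_j p^-j = r^nu   for nu >= 0, because sum_j beta_j p^-j = (1-1/p)^-b,
   c_(-n) = (1-1/p)^b r^n sum_j beta_(j+n) p^-j in [0, r^n]  for n >= 1 (beta_(j+n) <= beta_j).
Orthogonality of the fourier monomials (integral of fourier n over haar1 is 0 for n != 0,
see orthonormal_fourier / fourierCoeff_fourier / integral via fourierCoeff) and absolutely convergent
series (integral_tsum / hasSum_integral_of_summable_norm) give everything below: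
  int m1 = c_0 = 1;  int m1(t) conj m1(s) = sum_nu c_nu^2 e^(i nu (t-s) log p);
  int k1(t) conj k1(s) = sum_(n>=0) p^-n e^(i n (t-s) log p) = (1 - p^-1 e^(i(t-s)log p))^-1;
  int e_n conj(k1) = int e_n conj(m1) = r^n conj(w)^n for n >= 0.
-/
import Pool.Agent.Lib.Emb.OneA

open MeasureTheory Complex
open scoped BigOperators ENNReal

namespace Emb

/-- absolutely convergent Fourier series -/
private def HF (f : UnitAddCircle → ℂ) (a : ℤ → ℂ) : Prop :=
  (Summable fun n => ‖a n‖) ∧ ∀ x, HasSum (fun n : ℤ => a n * fourier n x) (f x)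

private theorem ob_nf (n : ℤ) (x : UnitAddCircle) : ‖(fourier n x : ℂ)‖ = 1 := by
  rw [fourier_apply]
  exact Circle.norm_coe _

private theorem ob_cont {f : UnitAddCircle → ℂ} {a : ℤ → ℂ} (h : HF f a) : Continuous f := by
  have e : f = fun x => ∑' n : ℤ, a n * fourier n x := by
    funext x
    exact (h.2 x).tsum_eq.symm
  rw [e]
  refine continuous_tsum (fun n => continuous_const.mul (map_continuous (fourier n))) h.1 ?_
  intro n x
  rw [norm_mul, ob_nf, mul_one]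

private theorem ob_intg {f : UnitAddCircle → ℂ} (h : Continuous f) : Integrable f haar1 :=
  h.integrable_of_hasCompactSupport (HasCompactSupport.of_compactSpace f)

private theorem ob_int (n : ℤ) : ∫ x, (fourier n x : ℂ) ∂haar1 = if n = 0 then 1 else 0 := by
  have h := congrFun (fourierCoeff_fourier (T := 1) n) 0
  unfold fourierCoeff at h
  simp only [neg_zero, fourier_zero, one_smul] at h
  rw [h]
  by_cases hn : n = 0
  · subst hn
    simp
  · rw [if_neg hn, Pi.single_eq_of_ne (Ne.symm hn)]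

private theorem ob_pair {g : UnitAddCircle → ℂ} {b : ℤ → ℂ} (hg : HF g b) (n : ℤ) :
    ∫ x, (fourier n x : ℂ) * (starRingEnd ℂ) (g x) ∂haar1 = (starRingEnd ℂ) (b n) := by
  have h1 : ∀ x, HasSum (fun m : ℤ => (starRingEnd ℂ) (b m) * (fourier (n - m) x : ℂ))
      ((fourier n x : ℂ) * (starRingEnd ℂ) (g x)) := by
    intro x
    have h2 : HasSum (fun m : ℤ => (starRingEnd ℂ) (b m * (fourier m x : ℂ)))
        ((starRingEnd ℂ) (g x)) := by
      have h3 := (hg.2 x).star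
      exact h3
    have h4 := h2.mul_left (fourier n x : ℂ)
    refine h4.congr_fun ?_
    intro m
    rw [map_mul, ← fourier_neg, sub_eq_add_neg, fourier_add]
    ring
  have h2 := hasSum_integral_of_summable_integral_norm (μ := haar1)
    (F := fun (m : ℤ) (x : UnitAddCircle) => (starRingEnd ℂ) (b m) * (fourier (n - m) x : ℂ))
    (fun m => ob_intg (continuous_const.mul (map_continuous (fourier (n - m))))) (by
      refine hg.1.congr ?_
      intro m
      simp only [norm_mul, ob_nf, mul_one, Complex.norm_conj, integral_const, probReal_univ,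
        one_smul])
  have h3 : ∀ x, (∑' m : ℤ, (starRingEnd ℂ) (b m) * (fourier (n - m) x : ℂ)) =
      (fourier n x : ℂ) * (starRingEnd ℂ) (g x) := fun x => (h1 x).tsum_eq
  simp only [h3] at h2
  refine h2.unique ?_
  have h4 : (fun m : ℤ => ∫ x, (starRingEnd ℂ) (b m) * (fourier (n - m) x : ℂ) ∂haar1) =
      fun m => if m = n then (starRingEnd ℂ) (b n) else 0 := by
    funext m
    rw [integral_const_mul, ob_int]
    by_cases hm : m = n
    · subst hm
      simp
    · rw [if_neg hm, if_neg (by omega), mul_zero]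
  rw [h4]
  exact hasSum_ite_eq n _

private theorem ob_parseval {f g : UnitAddCircle → ℂ} {a b : ℤ → ℂ} (hf : HF f a) (hg : HF g b) :
    HasSum (fun n : ℤ => a n * (starRingEnd ℂ) (b n))
      (∫ x, f x * (starRingEnd ℂ) (g x) ∂haar1) := by
  have hgc := ob_cont hg
  have h1 : ∀ x, HasSum (fun m : ℤ => a m * (fourier m x : ℂ) * (starRingEnd ℂ) (g x))
      (f x * (starRingEnd ℂ) (g x)) := fun x => (hf.2 x).mul_right _
  have h2 := hasSum_integral_of_summable_integral_norm (μ := haar1)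
    (F := fun (m : ℤ) (x : UnitAddCircle) => a m * (fourier m x : ℂ) * (starRingEnd ℂ) (g x))
    (fun m => ob_intg ((continuous_const.mul (map_continuous (fourier m))).mul
      (Complex.continuous_conj.comp hgc))) (by
      have h3 := hf.1.mul_right (∫ x, ‖g x‖ ∂haar1)
      refine h3.congr ?_
      intro m
      rw [← integral_const_mul]
      refine integral_congr_ae (Filter.Eventually.of_forall fun x => ?_)
      simp only [norm_mul, ob_nf, mul_one, Complex.norm_conj])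
  have h3 : ∀ x, (∑' m : ℤ, a m * (fourier m x : ℂ) * (starRingEnd ℂ) (g x)) =
      f x * (starRingEnd ℂ) (g x) := fun x => (h1 x).tsum_eq
  simp only [h3] at h2
  refine h2.congr_fun ?_
  intro m
  rw [← ob_pair hg m, ← integral_const_mul]
  refine integral_congr_ae (Filter.Eventually.of_forall fun x => ?_)
  simp only
  ring

private theorem ob_mul {f g : UnitAddCircle → ℂ} {a b : ℤ → ℂ} (hf : HF f a) (hg : HF g b) :
    HF (fun x => f x * g x) (fun n => ∑' j : ℤ, a (n - j) * b j) := by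
  let e : ℤ × ℤ ≃ ℤ × ℤ :=
    { toFun := fun z => (z.1 - z.2, z.2)
      invFun := fun z => (z.1 + z.2, z.2)
      left_inv := fun z => by simp
      right_inv := fun z => by simp }
  have hs : Summable fun z : ℤ × ℤ => ‖a z.1 * b z.2‖ := by
    have h0 : Summable fun z : ℤ × ℤ => ‖a z.1‖ * ‖b z.2‖ :=
      Summable.mul_of_nonneg hf.1 hg.1 (fun _ => norm_nonneg _) (fun _ => norm_nonneg _)
    refine h0.congr ?_
    intro z
    rw [norm_mul]
  have hs' : Summable fun z : ℤ × ℤ => ‖a (z.1 - z.2) * b z.2‖ := (e.summable_iff).2 hs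
  refine ⟨?_, fun x => ?_⟩
  · refine Summable.of_nonneg_of_le (fun _ => norm_nonneg _) ?_ hs'.prod
    intro n
    exact norm_tsum_le_tsum_norm (hs'.prod_factor n)
  · have h1 : HasSum (fun z : ℤ × ℤ => (a z.1 * (fourier z.1 x : ℂ)) *
        (b z.2 * (fourier z.2 x : ℂ))) (f x * g x) := by
      have n1 : Summable fun n : ℤ => ‖a n * (fourier n x : ℂ)‖ := by
        refine hf.1.congr ?_
        intro n
        rw [norm_mul, ob_nf, mul_one]
      have n2 : Summable fun n : ℤ => ‖b n * (fourier n x : ℂ)‖ := by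
        refine hg.1.congr ?_
        intro n
        rw [norm_mul, ob_nf, mul_one]
      have h2 := (summable_mul_of_summable_norm n1 n2).hasSum
      rw [← tsum_mul_tsum_of_summable_norm n1 n2, (hf.2 x).tsum_eq, (hg.2 x).tsum_eq] at h2
      exact h2
    have h2 := (e.hasSum_iff).2 h1
    have h3 : ∀ n : ℤ, HasSum (fun j : ℤ => a (n - j) * b j * (fourier n x : ℂ))
        ((∑' j : ℤ, a (n - j) * b j) * (fourier n x : ℂ)) := by
      intro n
      exact ((Summable.of_norm (hs'.prod_factor n)).hasSum).mul_right _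
    refine HasSum.prod_fiberwise (f := fun z : ℤ × ℤ =>
      a (z.1 - z.2) * b z.2 * (fourier z.1 x : ℂ)) ?_ h3
    refine h2.congr_fun ?_
    rintro ⟨n, j⟩
    show a (n - j) * b j * (fourier n x : ℂ) =
      (a (n - j) * (fourier (n - j) x : ℂ)) * (b j * (fourier j x : ℂ))
    have e1 : (fourier n x : ℂ) = (fourier (n - j) x : ℂ) * (fourier j x : ℂ) := by
      rw [← fourier_add, sub_add_cancel]
    rw [e1]
    ring

/-! ### The coefficients -/

private noncomputable def obA (r : ℝ) (n : ℤ) : ℝ := if 0 ≤ n then r ^ n.toNat else 0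

private noncomputable def obBeta (b : ℝ) (n : ℕ) : ℝ := Ring.choose (b + n - 1) n

private noncomputable def obB (b r : ℝ) (n : ℤ) : ℝ :=
  if n ≤ 0 then obBeta b (-n).toNat * r ^ (-n).toNat else 0

/-- `e^(i n t log p)` -/
private noncomputable def obW (p : ℕ) (t : ℝ) (n : ℤ) : ℂ :=
  Complex.exp (((n * (t * Real.log p) : ℝ) : ℂ) * I)

private theorem obW_add (p : ℕ) (t : ℝ) (m n : ℤ) : obW p t (m + n) = obW p t m * obW p t n := by
  unfold obW
  rw [← Complex.exp_add]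
  congr 1
  push_cast
  ring

private theorem obW_zero (p : ℕ) (t : ℝ) : obW p t 0 = 1 := by
  unfold obW
  simp

private theorem obW_norm (p : ℕ) (t : ℝ) (n : ℤ) : ‖obW p t n‖ = 1 := by
  unfold obW
  exact Complex.norm_exp_ofReal_mul_I _

private theorem obW_pow (p : ℕ) (t : ℝ) (n : ℕ) : obW p t 1 ^ n = obW p t n := by
  induction n with
  | zero => rw [pow_zero, Nat.cast_zero, obW_zero]
  | succ n ih => rw [pow_succ, ih, Nat.cast_succ, obW_add]

private theorem obW_conj (p : ℕ) (t : ℝ) (n : ℤ) :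
    (starRingEnd ℂ) (obW p t n) = obW p t (-n) := by
  unfold obW
  rw [← Complex.exp_conj, map_mul, Complex.conj_ofReal, Complex.conj_I]
  congr 1
  push_cast
  ring

private theorem obF_pow (x : UnitAddCircle) (n : ℕ) : (fourier 1 x : ℂ) ^ n = fourier (n : ℤ) x := by
  induction n with
  | zero => rw [pow_zero, Nat.cast_zero, fourier_zero]
  | succ n ih => rw [pow_succ, ih, Nat.cast_succ, fourier_add]

private theorem ob_yy (p : ℕ) (t : ℝ) (x : UnitAddCircle) :
    yy p t x = (((Real.sqrt p)⁻¹ : ℝ) : ℂ) * obW p t 1 * (fourier 1 x : ℂ) := by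
  unfold yy obW
  rw [Int.cast_one, one_mul]
  ring

private theorem ob_yy_pow (p : ℕ) (t : ℝ) (x : UnitAddCircle) (n : ℕ) :
    yy p t x ^ n = ((((Real.sqrt p)⁻¹ ^ n : ℝ)) : ℂ) * obW p t n * (fourier (n : ℤ) x : ℂ) := by
  rw [ob_yy, mul_pow, mul_pow, obW_pow, obF_pow, Complex.ofReal_pow]

private theorem ob_r {p : ℕ} (hp : p.Prime) : 0 < (Real.sqrt p)⁻¹ ∧ (Real.sqrt p)⁻¹ < 1 := by
  have h2 : (2 : ℝ) ≤ p := by exact_mod_cast hp.two_le
  refine ⟨inv_pos.2 (Real.sqrt_pos.2 (by linarith)), ?_⟩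
  have h3 := yy_lt_one hp 0 0
  rw [norm_yy] at h3
  linarith

private theorem ob_r2 {p : ℕ} (hp : p.Prime) : (Real.sqrt p)⁻¹ ^ 2 = 1 / (p : ℝ) := by
  have h2 : (2 : ℝ) ≤ p := by exact_mod_cast hp.two_le
  rw [inv_pow, Real.sq_sqrt (by linarith), one_div]

private theorem obA_summable {r : ℝ} (h0 : 0 < r) (h1 : r < 1) : Summable (obA r) := by
  refine (Nat.cast_injective (R := ℤ)).summable_iff ?_ |>.1 ?_
  · intro n hn
    unfold obA
    rw [if_neg]
    intro h
    exact hn ⟨n.toNat, Int.toNat_of_nonneg h⟩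
  · refine (summable_geometric_of_lt_one h0.le h1).congr ?_
    intro n
    simp [obA]

private theorem obA_nonneg {r : ℝ} (h0 : 0 < r) (n : ℤ) : 0 ≤ obA r n := by
  unfold obA
  split_ifs
  · positivity
  · exact le_refl _

private theorem k1_HF {p : ℕ} (hp : p.Prime) (t : ℝ) :
    HF (k1 p t) (fun n => ((obA (Real.sqrt p)⁻¹ n : ℝ) : ℂ) * obW p t n) := by
  obtain ⟨h0, h1⟩ := ob_r hp
  refine ⟨?_, fun x => ?_⟩
  · refine (obA_summable h0 h1).congr ?_
    intro n
    rw [norm_mul, obW_norm, mul_one, Complex.norm_real, Real.norm_of_nonneg (obA_nonneg h0 n)]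
  · refine (Nat.cast_injective (R := ℤ)).hasSum_iff ?_ |>.1 ?_
    · intro n hn
      have h2 : obA (Real.sqrt p)⁻¹ n = 0 := by
        unfold obA
        rw [if_neg]
        intro h
        exact hn ⟨n.toNat, Int.toNat_of_nonneg h⟩
      simp only [h2, Complex.ofReal_zero, zero_mul]
    · have h2 : ‖yy p t x‖ < 1 := by
        have := yy_lt_one hp t x
        linarith
      have h3 := hasSum_geometric_of_norm_lt_one h2
      refine h3.congr_fun ?_
      intro n
      rw [ob_yy_pow]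
      simp [obA]

/-! ### Binomial coefficients -/

private theorem ob_fact (b : ℝ) (n : ℕ) :
    (n.factorial : ℝ) * obBeta b n = (ascPochhammer ℝ n).eval b := by
  have h := Ring.factorial_nsmul_multichoose_eq_ascPochhammer b n
  rw [Ring.multichoose_eq, Polynomial.ascPochhammer_smeval_eq_eval, nsmul_eq_mul] at h
  exact h

private theorem ob_beta_zero (b : ℝ) : obBeta b 0 = 1 := by
  unfold obBeta
  rw [Ring.choose_zero_right]

private theorem ob_beta_succ (b : ℝ) (n : ℕ) :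
    obBeta b (n + 1) * (n + 1) = obBeta b n * (b + n) := by
  have h1 := ob_fact b n
  have h2 := ob_fact b (n + 1)
  rw [ascPochhammer_succ_eval, ← h1, Nat.factorial_succ] at h2
  have h3 : (n.factorial : ℝ) ≠ 0 := by exact_mod_cast (Nat.factorial_pos n).ne'
  have h4 : (n.factorial : ℝ) * (obBeta b (n + 1) * (n + 1)) =
      (n.factorial : ℝ) * (obBeta b n * (b + n)) := by
    push_cast at h2
    linarith
  exact mul_left_cancel₀ h3 h4

private theorem ob_beta_nonneg {b : ℝ} (hb0 : 0 ≤ b) (n : ℕ) : 0 ≤ obBeta b n := by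
  induction n with
  | zero => rw [ob_beta_zero]; norm_num
  | succ n ih =>
    have h1 := ob_beta_succ b n
    have h2 : 0 ≤ obBeta b n * (b + n) := mul_nonneg ih (by positivity)
    rw [← h1] at h2
    exact nonneg_of_mul_nonneg_left h2 (by positivity)

private theorem ob_beta_anti {b : ℝ} (hb0 : 0 ≤ b) (hb1 : b ≤ 1) (n : ℕ) :
    obBeta b (n + 1) ≤ obBeta b n := by
  have h1 := ob_beta_succ b n
  have h2 : obBeta b n * (b + n) ≤ obBeta b n * (n + 1) :=
    mul_le_mul_of_nonneg_left (by linarith) (ob_beta_nonneg hb0 n)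
  rw [← h1] at h2
  exact le_of_mul_le_mul_right h2 (by positivity)

private theorem ob_beta_mono {b : ℝ} (hb0 : 0 ≤ b) (hb1 : b ≤ 1) (n m : ℕ) :
    obBeta b (n + m) ≤ obBeta b n := by
  induction m with
  | zero => exact le_refl _
  | succ m ih => exact (ob_beta_anti hb0 hb1 (n + m)).trans ih

private theorem ob_beta_le_one {b : ℝ} (hb0 : 0 ≤ b) (hb1 : b ≤ 1) (n : ℕ) : obBeta b n ≤ 1 := by
  have h := ob_beta_mono hb0 hb1 0 n
  rw [ob_beta_zero, zero_add] at h
  exact h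

private theorem ob_series (b : ℝ) {r : ℝ} (h0 : 0 < r) (h1 : r < 1) :
    HasSum (fun n : ℕ => obBeta b n * (r ^ 2) ^ n) ((1 - r ^ 2) ^ (-b)) := by
  have h2 := (Real.one_div_one_sub_rpow_hasFPowerSeriesOnBall_zero b).hasSum
    (y := r ^ 2) (by
      rw [Metric.mem_eball, edist_zero_right, Real.enorm_eq_ofReal (sq_nonneg r)]
      rw [← ENNReal.ofReal_one]
      exact (ENNReal.ofReal_lt_ofReal_iff one_pos).2 (by nlinarith))
  rw [zero_add] at h2
  rw [Real.rpow_neg (by nlinarith), ← one_div]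
  refine h2.congr_fun ?_
  intro n
  rw [FormalMultilinearSeries.ofScalars_apply_eq]
  rfl

private theorem ob_series_c (b : ℝ) {z : ℂ} (hz : ‖z‖ < 1) :
    HasSum (fun n : ℕ => (obBeta b n : ℂ) * z ^ n) ((1 - z) ^ (-(b : ℂ))) := by
  have h2 := (Complex.one_div_one_sub_cpow_hasFPowerSeriesOnBall_zero (b : ℂ)).hasSum
    (y := z) (by
      rw [Metric.mem_eball, edist_zero_right, ← ofReal_norm, ← ENNReal.ofReal_one]
      exact (ENNReal.ofReal_lt_ofReal_iff one_pos).2 hz)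
  rw [zero_add] at h2
  rw [Complex.cpow_neg, ← one_div]
  refine h2.congr_fun ?_
  intro n
  rw [FormalMultilinearSeries.ofScalars_apply_eq]
  unfold obBeta
  push_cast
  rfl

private theorem ob_negcast : Function.Injective (fun i : ℕ => -(i : ℤ)) := by
  intro a b h
  simp only at h
  omega

private theorem obB_of_not (b r : ℝ) {n : ℤ} (hn : n ∉ Set.range (fun i : ℕ => -(i : ℤ))) :
    obB b r n = 0 := by
  unfold obB
  rw [if_neg]
  intro h
  exact hn ⟨(-n).toNat, by simp only; omega⟩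

private theorem obB_neg (b r : ℝ) (i : ℕ) : obB b r (-(i : ℤ)) = obBeta b i * r ^ i := by
  unfold obB
  rw [if_pos (by omega), neg_neg, Int.toNat_natCast]

private theorem obB_nonneg {b r : ℝ} (hb0 : 0 ≤ b) (h0 : 0 < r) (n : ℤ) : 0 ≤ obB b r n := by
  unfold obB
  split_ifs
  · exact mul_nonneg (ob_beta_nonneg hb0 _) (by positivity)
  · exact le_refl _

private theorem obB_summable {b r : ℝ} (hb0 : 0 ≤ b) (hb1 : b ≤ 1) (h0 : 0 < r) (h1 : r < 1) :
    Summable (obB b r) := by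
  refine ob_negcast.summable_iff (fun n hn => obB_of_not b r hn) |>.1 ?_
  refine Summable.of_nonneg_of_le (fun i => obB_nonneg hb0 h0 _) ?_
    (summable_geometric_of_lt_one h0.le h1)
  intro i
  show obB b r (-(i : ℤ)) ≤ r ^ i
  rw [obB_neg]
  have h2 := ob_beta_le_one hb0 hb1 i
  have h3 : 0 ≤ r ^ i := by positivity
  nlinarith

private theorem h_HF {b : ℝ} (hb0 : 0 ≤ b) (hb1 : b ≤ 1) {p : ℕ} (hp : p.Prime) (t : ℝ) :
    HF (fun x => (1 - (starRingEnd ℂ) (yy p t x)) ^ (-(b : ℂ)))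
      (fun n => ((obB b (Real.sqrt p)⁻¹ n : ℝ) : ℂ) * obW p t n) := by
  obtain ⟨h0, h1⟩ := ob_r hp
  refine ⟨?_, fun x => ?_⟩
  · refine (obB_summable hb0 hb1 h0 h1).congr ?_
    intro n
    rw [norm_mul, obW_norm, mul_one, Complex.norm_real, Real.norm_of_nonneg (obB_nonneg hb0 h0 n)]
  · refine ob_negcast.hasSum_iff ?_ |>.1 ?_
    · intro n hn
      simp only [obB_of_not b _ hn, Complex.ofReal_zero, zero_mul]
    · have h2 : ‖(starRingEnd ℂ) (yy p t x)‖ < 1 := by
        rw [Complex.norm_conj]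
        have := yy_lt_one hp t x
        linarith
      refine (ob_series_c b h2).congr_fun ?_
      intro i
      show ((obB b (Real.sqrt p)⁻¹ (-(i : ℤ)) : ℝ) : ℂ) * obW p t (-(i : ℤ)) *
        (fourier (-(i : ℤ)) x : ℂ) = _
      rw [obB_neg, ← map_pow, ob_yy_pow, map_mul, map_mul, Complex.conj_ofReal, obW_conj,
        ← fourier_neg]
      push_cast
      ring

private noncomputable def obD (b r : ℝ) (n : ℤ) : ℝ := obA r (-n) * obB b r n

private theorem obD_neg (b r : ℝ) (i : ℕ) : obD b r (-(i : ℤ)) = obBeta b i * (r ^ 2) ^ i := by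
  unfold obD
  rw [obB_neg, neg_neg, obA, if_pos (by omega), Int.toNat_natCast, ← pow_mul]
  ring

private theorem obD_hasSum (b : ℝ) {r : ℝ} (h0 : 0 < r) (h1 : r < 1) :
    HasSum (obD b r) ((1 - r ^ 2) ^ (-b)) := by
  refine ob_negcast.hasSum_iff ?_ |>.1 ?_
  · intro n hn
    unfold obD
    rw [obB_of_not b r hn, mul_zero]
  · refine (ob_series b h0 h1).congr_fun ?_
    intro i
    exact obD_neg b r i

private theorem obD_nonneg {b r : ℝ} (hb0 : 0 ≤ b) (h0 : 0 < r) (n : ℤ) : 0 ≤ obD b r n :=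
  mul_nonneg (obA_nonneg h0 _) (obB_nonneg hb0 h0 n)

private noncomputable def obC (b : ℝ) (p : ℕ) (n : ℤ) : ℝ :=
  (1 - 1 / (p : ℝ)) ^ b * ∑' j : ℤ, obA (Real.sqrt p)⁻¹ (n - j) * obB b (Real.sqrt p)⁻¹ j

private theorem ob_term_pos (b : ℝ) {r : ℝ} {n : ℤ} (hn : 0 ≤ n) (j : ℤ) :
    obA r (n - j) * obB b r j = r ^ n.toNat * obD b r j := by
  unfold obD
  by_cases hj : j ≤ 0
  · have e1 : obA r (n - j) = r ^ n.toNat * obA r (-j) := by
      unfold obA
      rw [if_pos (by omega), if_pos (by omega), ← pow_add]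
      congr 1
      omega
    rw [e1]
    ring
  · unfold obB
    rw [if_neg hj, mul_zero, mul_zero, mul_zero]

private theorem ob_term_neg {b : ℝ} (hb0 : 0 ≤ b) (hb1 : b ≤ 1) {r : ℝ} (h0 : 0 < r)
    {n : ℤ} (hn : n ≤ 0) (j : ℤ) :
    obA r (n - j) * obB b r j ≤ r ^ n.natAbs * obD b r (j - n) := by
  by_cases hj : j ≤ n
  · have e1 : obA r (n - j) = obA r (-(j - n)) := by
      congr 1
      ring
    have e2 : obB b r j ≤ r ^ n.natAbs * obB b r (j - n) := by
      unfold obB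
      rw [if_pos (by omega), if_pos (by omega)]
      have e3 : (-j).toNat = (-(j - n)).toNat + n.natAbs := by omega
      rw [e3, pow_add]
      have h2 := ob_beta_mono hb0 hb1 (-(j - n)).toNat n.natAbs
      have h3 : 0 ≤ r ^ (-(j - n)).toNat * r ^ n.natAbs := by positivity
      calc obBeta b ((-(j - n)).toNat + n.natAbs) * (r ^ (-(j - n)).toNat * r ^ n.natAbs)
          ≤ obBeta b (-(j - n)).toNat * (r ^ (-(j - n)).toNat * r ^ n.natAbs) :=
            mul_le_mul_of_nonneg_right h2 h3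
        _ = _ := by ring
    have h4 := obA_nonneg h0 (-(j - n))
    unfold obD
    rw [e1]
    calc obA r (-(j - n)) * obB b r j ≤ obA r (-(j - n)) * (r ^ n.natAbs * obB b r (j - n)) :=
          mul_le_mul_of_nonneg_left e2 h4
      _ = _ := by ring
  · have e1 : obA r (n - j) = 0 := by
      unfold obA
      rw [if_neg (by omega)]
    rw [e1, zero_mul]
    exact mul_nonneg (by positivity) (obD_nonneg hb0 h0 _)

private theorem ob_P {p : ℕ} (hp : p.Prime) : 0 < 1 - 1 / (p : ℝ) := by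
  have h2 : (2 : ℝ) ≤ p := by exact_mod_cast hp.two_le
  have h3 : 1 / (p : ℝ) ≤ 1 / 2 := one_div_le_one_div_of_le (by norm_num) h2
  linarith

private theorem obC_pos (b : ℝ) {p : ℕ} (hp : p.Prime) {n : ℤ} (hn : 0 ≤ n) :
    obC b p n = (Real.sqrt p)⁻¹ ^ n.toNat := by
  obtain ⟨h0, h1⟩ := ob_r hp
  unfold obC
  have e : (fun j : ℤ => obA (Real.sqrt p)⁻¹ (n - j) * obB b (Real.sqrt p)⁻¹ j) =
      fun j => (Real.sqrt p)⁻¹ ^ n.toNat * obD b (Real.sqrt p)⁻¹ j := by
    funext j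
    exact ob_term_pos b hn j
  rw [e, tsum_mul_left, (obD_hasSum b h0 h1).tsum_eq, ob_r2 hp, ← mul_assoc,
    mul_comm ((1 - 1 / (p : ℝ)) ^ b), mul_assoc, ← Real.rpow_add (ob_P hp), add_neg_cancel,
    Real.rpow_zero, mul_one]

private theorem obC_nonneg {b : ℝ} (hb0 : 0 ≤ b) {p : ℕ} (hp : p.Prime) (n : ℤ) :
    0 ≤ obC b p n := by
  obtain ⟨h0, h1⟩ := ob_r hp
  unfold obC
  refine mul_nonneg (Real.rpow_nonneg (ob_P hp).le b) (tsum_nonneg fun j => ?_)
  exact mul_nonneg (obA_nonneg h0 _) (obB_nonneg hb0 h0 _)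

private theorem obC_le {b : ℝ} (hb0 : 0 ≤ b) (hb1 : b ≤ 1) {p : ℕ} (hp : p.Prime) (n : ℤ) :
    obC b p n ≤ (Real.sqrt p)⁻¹ ^ n.natAbs := by
  obtain ⟨h0, h1⟩ := ob_r hp
  rcases le_total 0 n with hn | hn
  · rw [obC_pos b hp hn]
    have e : n.toNat = n.natAbs := by omega
    rw [e]
  · unfold obC
    have hD := obD_hasSum b h0 h1
    have hs : HasSum (fun j : ℤ => (Real.sqrt p)⁻¹ ^ n.natAbs * obD b (Real.sqrt p)⁻¹ (j - n))
        ((Real.sqrt p)⁻¹ ^ n.natAbs * (1 - (Real.sqrt p)⁻¹ ^ 2) ^ (-b)) := by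
      have h2 := ((Equiv.subRight n).hasSum_iff).2 hD
      exact h2.mul_left _
    have hle : ∑' j : ℤ, obA (Real.sqrt p)⁻¹ (n - j) * obB b (Real.sqrt p)⁻¹ j ≤
        (Real.sqrt p)⁻¹ ^ n.natAbs * (1 - (Real.sqrt p)⁻¹ ^ 2) ^ (-b) := by
      rw [← hs.tsum_eq]
      refine Summable.tsum_le_tsum (fun j => ob_term_neg hb0 hb1 h0 hn j) ?_ hs.summable
      refine Summable.of_nonneg_of_le (fun j => ?_) (fun j => ob_term_neg hb0 hb1 h0 hn j)
        hs.summable
      exact mul_nonneg (obA_nonneg h0 _) (obB_nonneg hb0 h0 _)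
    rw [ob_r2 hp] at hle
    calc (1 - 1 / (p : ℝ)) ^ b * ∑' j : ℤ, obA (Real.sqrt p)⁻¹ (n - j) * obB b (Real.sqrt p)⁻¹ j
        ≤ (1 - 1 / (p : ℝ)) ^ b * ((Real.sqrt p)⁻¹ ^ n.natAbs * (1 - 1 / (p : ℝ)) ^ (-b)) :=
          mul_le_mul_of_nonneg_left hle (Real.rpow_nonneg (ob_P hp).le b)
      _ = (Real.sqrt p)⁻¹ ^ n.natAbs * ((1 - 1 / (p : ℝ)) ^ b * (1 - 1 / (p : ℝ)) ^ (-b)) := by
          ring
      _ = (Real.sqrt p)⁻¹ ^ n.natAbs := by
          rw [← Real.rpow_add (ob_P hp), add_neg_cancel, Real.rpow_zero, mul_one]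

private theorem m1_HF {b : ℝ} (hb0 : 0 ≤ b) (hb1 : b ≤ 1) {p : ℕ} (hp : p.Prime) (t : ℝ) :
    HF (m1 b p t) (fun n => ((obC b p n : ℝ) : ℂ) * obW p t n) := by
  have h := ob_mul (k1_HF hp t) (h_HF hb0 hb1 hp t)
  have e1 : ∀ n : ℤ, (∑' j : ℤ, (((obA (Real.sqrt p)⁻¹ (n - j) : ℝ) : ℂ) * obW p t (n - j)) *
      (((obB b (Real.sqrt p)⁻¹ j : ℝ) : ℂ) * obW p t j)) =
      ((∑' j : ℤ, obA (Real.sqrt p)⁻¹ (n - j) * obB b (Real.sqrt p)⁻¹ j : ℝ) : ℂ) *
        obW p t n := by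
    intro n
    rw [Complex.ofReal_tsum, ← tsum_mul_right]
    refine tsum_congr fun j => ?_
    have e2 : obW p t n = obW p t (n - j) * obW p t j := by
      rw [← obW_add, sub_add_cancel]
    rw [e2]
    push_cast
    ring
  have e3 : ∀ n : ℤ, ((obC b p n : ℝ) : ℂ) * obW p t n =
      (((1 - 1 / (p : ℝ)) ^ b : ℝ) : ℂ) * (∑' j : ℤ, (((obA (Real.sqrt p)⁻¹ (n - j) : ℝ) : ℂ) *
        obW p t (n - j)) * (((obB b (Real.sqrt p)⁻¹ j : ℝ) : ℂ) * obW p t j)) := by
    intro n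
    rw [e1 n]
    unfold obC
    push_cast
    ring
  refine ⟨?_, fun x => ?_⟩
  · refine (h.1.mul_left ‖(((1 - 1 / (p : ℝ)) ^ b : ℝ) : ℂ)‖).congr ?_
    intro n
    beta_reduce
    rw [e3 n, norm_mul]
  · have h2 := (h.2 x).mul_left ((((1 - 1 / (p : ℝ)) ^ b : ℝ) : ℂ))
    unfold m1
    rw [mul_assoc]
    refine h2.congr_fun ?_
    intro n
    simp only
    rw [e3 n]
    ring

theorem k1_mean {p : ℕ} (hp : p.Prime) (t : ℝ) : ∫ x, k1 p t x ∂haar1 = 1 := by
  have h := ob_pair (k1_HF hp t) 0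
  have e : ∀ x : UnitAddCircle, (fourier (0 : ℤ) x : ℂ) * (starRingEnd ℂ) (k1 p t x) =
      (starRingEnd ℂ) (k1 p t x) := by
    intro x
    rw [fourier_zero, one_mul]
  simp only [e] at h
  rw [integral_conj] at h
  have h2 := congrArg (starRingEnd ℂ) h
  rw [Complex.conj_conj, Complex.conj_conj] at h2
  rw [h2, obW_zero, obA, if_pos (le_refl _)]
  simp

theorem m1_mean {b : ℝ} (hb0 : 0 ≤ b) (hb1 : b ≤ 1) {p : ℕ} (hp : p.Prime) (t : ℝ) :
    ∫ x, m1 b p t x ∂haar1 = 1 := by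
  have h := ob_pair (m1_HF hb0 hb1 hp t) 0
  have e : ∀ x : UnitAddCircle, (fourier (0 : ℤ) x : ℂ) * (starRingEnd ℂ) (m1 b p t x) =
      (starRingEnd ℂ) (m1 b p t x) := by
    intro x
    rw [fourier_zero, one_mul]
  simp only [e] at h
  rw [integral_conj] at h
  have h2 := congrArg (starRingEnd ℂ) h
  rw [Complex.conj_conj, Complex.conj_conj] at h2
  rw [h2, obW_zero, obC_pos b hp (le_refl _)]
  simp

private theorem ob_WW (p : ℕ) (t s : ℝ) (n : ℤ) :
    obW p t n * (starRingEnd ℂ) (obW p s n) =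
      Complex.exp (((n * ((t - s) * Real.log p) : ℝ) : ℂ) * I) := by
  rw [obW_conj]
  unfold obW
  rw [← Complex.exp_add]
  congr 1
  push_cast
  ring

theorem k1_corr {p : ℕ} (hp : p.Prime) (t s : ℝ) :
    ∫ x, k1 p t x * (starRingEnd ℂ) (k1 p s x) ∂haar1 =
      (1 - (((p : ℝ)⁻¹ : ℝ) : ℂ) * Complex.exp ((((t - s) * Real.log p : ℝ) : ℂ) * I))⁻¹ := by
  obtain ⟨h0, h1⟩ := ob_r hp
  have h := ob_parseval (k1_HF hp t) (k1_HF hp s)
  set z : ℂ := (((p : ℝ)⁻¹ : ℝ) : ℂ) * Complex.exp ((((t - s) * Real.log p : ℝ) : ℂ) * I) with hz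
  have hzn : ‖z‖ < 1 := by
    rw [hz, norm_mul, Complex.norm_exp_ofReal_mul_I, mul_one, Complex.norm_real,
      Real.norm_of_nonneg (by positivity)]
    have h2 : (1 : ℝ) < p := by exact_mod_cast hp.one_lt
    exact inv_lt_one_of_one_lt₀ h2
  refine h.unique ?_
  refine (Nat.cast_injective (R := ℤ)).hasSum_iff ?_ |>.1 ?_
  · intro n hn
    have h2 : obA (Real.sqrt p)⁻¹ n = 0 := by
      unfold obA
      rw [if_neg]
      intro h
      exact hn ⟨n.toNat, Int.toNat_of_nonneg h⟩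
    simp only [h2, Complex.ofReal_zero, zero_mul]
  · refine (hasSum_geometric_of_norm_lt_one hzn).congr_fun ?_
    intro n
    show (((obA (Real.sqrt p)⁻¹ (n : ℤ) : ℝ) : ℂ) * obW p t n) *
      (starRingEnd ℂ) (((obA (Real.sqrt p)⁻¹ (n : ℤ) : ℝ) : ℂ) * obW p s n) = z ^ n
    rw [map_mul, Complex.conj_ofReal]
    have e1 : obA (Real.sqrt p)⁻¹ (n : ℤ) = (Real.sqrt p)⁻¹ ^ n := by
      unfold obA
      rw [if_pos (by omega), Int.toNat_natCast]
    have e2 : ((((Real.sqrt p)⁻¹ ^ n : ℝ)) : ℂ) * ((((Real.sqrt p)⁻¹ ^ n : ℝ)) : ℂ) =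
        ((((p : ℝ)⁻¹ : ℝ) : ℂ)) ^ n := by
      rw [← Complex.ofReal_mul, ← Complex.ofReal_pow]
      congr 1
      rw [← one_div (p : ℝ), ← ob_r2 hp, ← pow_mul, ← pow_add]
      congr 1
      ring
    rw [e1, hz, mul_pow, ← e2, ← Complex.exp_nat_mul]
    have e3 := ob_WW p t s n
    have e4 : (n : ℂ) * ((((t - s) * Real.log p : ℝ) : ℂ) * I) =
        ((((n : ℤ) * ((t - s) * Real.log p) : ℝ) : ℂ) * I) := by
      push_cast
      ring
    rw [e4, ← e3]
    ring

theorem m1_corr {b : ℝ} (hb0 : 0 ≤ b) (hb1 : b ≤ 1) {p : ℕ} (hp : p.Prime) :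
    ∃ c : ℤ → ℝ, (∀ ν, 0 ≤ c ν) ∧ c 0 = 1 ∧ (∀ ν, c ν ≤ ((p : ℝ) ^ ν.natAbs)⁻¹) ∧
      ∀ t s : ℝ, ∫ x, m1 b p t x * (starRingEnd ℂ) (m1 b p s x) ∂haar1 =
        ∑' ν : ℤ, (c ν : ℂ) * Complex.exp (((ν * ((t - s) * Real.log p) : ℝ) : ℂ) * I) := by
  refine ⟨fun ν => obC b p ν ^ 2, fun ν => sq_nonneg _, ?_, fun ν => ?_, fun t s => ?_⟩
  · simp only
    rw [obC_pos b hp (le_refl _)]
    simp
  · have h1 := obC_le hb0 hb1 hp ν
    have h2 := obC_nonneg hb0 hp ν
    calc obC b p ν ^ 2 ≤ ((Real.sqrt p)⁻¹ ^ ν.natAbs) ^ 2 := by gcongr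
      _ = ((p : ℝ) ^ ν.natAbs)⁻¹ := by
        rw [← pow_mul, mul_comm, pow_mul, ob_r2 hp, one_div, inv_pow]
  · rw [(ob_parseval (m1_HF hb0 hb1 hp t) (m1_HF hb0 hb1 hp s)).tsum_eq.symm]
    refine tsum_congr fun ν => ?_
    rw [map_mul, Complex.conj_ofReal, ← ob_WW]
    push_cast
    ring

theorem k1_pair {p : ℕ} (hp : p.Prime) (n : ℕ) (t : ℝ) :
    ∫ x, fourier (n : ℤ) x * (starRingEnd ℂ) (k1 p t x) ∂haar1 =
      (((Real.sqrt p)⁻¹ ^ n : ℝ) : ℂ) * Complex.exp (((-(n * (t * Real.log p)) : ℝ) : ℂ) * I) := by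
  rw [ob_pair (k1_HF hp t) n, map_mul, Complex.conj_ofReal, obW_conj, obA, if_pos (by omega),
    Int.toNat_natCast]
  unfold obW
  congr 2
  push_cast
  ring

theorem m1_pair {b : ℝ} (hb0 : 0 ≤ b) (hb1 : b ≤ 1) {p : ℕ} (hp : p.Prime) (n : ℕ) (t : ℝ) :
    ∫ x, fourier (n : ℤ) x * (starRingEnd ℂ) (m1 b p t x) ∂haar1 =
      (((Real.sqrt p)⁻¹ ^ n : ℝ) : ℂ) * Complex.exp (((-(n * (t * Real.log p)) : ℝ) : ℂ) * I) := by
  rw [ob_pair (m1_HF hb0 hb1 hp t) n, map_mul, Complex.conj_ofReal, obW_conj,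
    obC_pos b hp (by omega), Int.toNat_natCast]
  unfold obW
  congr 2
  push_cast
  ring

end Emb
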