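/-
CHUNK SQ1 (the martingale X_l).

X_n = XX b K a n.  b in [0,1].
`XX_zero`: pr 0 = empty, so X_0 = sum_k int g_k = 0 (gd_integral).
`continuous_XX`: the integrand is continuous in omega for each t and bounded by a constant
  (finite products of factors |m1|,|k1| <= const, g_k bounded on [0,1)):
  intervalIntegral.continuous_of_dominated_interval.
`XX_dependsOn`: only coordinates in pr n occur.
`XX_step`: X_(l+1) - X_l = D1 l + sum_(1 <= k < l, k <= K) D2 k l:
  k >= l: mm(pr(l+1)) - mm(pr l) = mm(pr l)(mm(blk l) - 1), kk(empty) = 1, and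
          sum_(k in Icc l K) g_k = phi_l (g_0 = 0);
  k < l:  mm(pr(k+1)) [kk(pr(l+1)\pr(k+1)) - kk(pr l\pr(k+1))] = mm(pr(k+1)) kk(pr l\pr(k+1)) (kk(blk l) - 1).
`XX_mart`: E_l |X_(l+1)|^2 <= |X_l|^2 + E_l |X_(l+1) - X_l|^2  (E_l = El (pr l)):
  |X_(l+1)|^2 = |X_l|^2 + 2 Re conj(X_l) D + |D|^2, D = X_(l+1) - X_l, and E_l D = 0 because
  int m1 = int k1 = 1 for every prime of blk l (Fubini in t and the coordinates of blk l,
  integral_prod_mu), and X_l (mix (pr l) w w') = X_l w.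
-/
import Pool.Agent.Lib.Emb.MmB
import Pool.Agent.Lib.Emb.OneB
import Pool.Agent.Lib.Emb.ElB
import Pool.Agent.Lib.Emb.Dy1

open MeasureTheory Complex
open scoped BigOperators ENNReal

namespace Emb

/-- Early part of the increment number `l`. -/
noncomputable def D1 (b : ℝ) (K : ℕ) (a : ℕ → ℝ) (l : ℕ) (ω : Om) : ℂ :=
  ∫ t in (0:ℝ)..1, (phL K a l t : ℂ) * (mm b (pr l) t ω * (mm b (blk l) t ω - 1))

/-- Late part of the increment number `l` coming from `g_k`, `k < l`. -/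
noncomputable def D2 (b : ℝ) (K : ℕ) (a : ℕ → ℝ) (k l : ℕ) (ω : Om) : ℂ :=
  ∫ t in (0:ℝ)..1, (gd K a k t : ℂ) *
    (mm b (pr (k + 1)) t ω * (kk (pr l \ pr (k + 1)) t ω * (kk (blk l) t ω - 1)))


/-- A measurable function bounded on `[0,1)`. -/
def Bd (g : ℝ → ℂ) : Prop := Measurable g ∧ ∃ B : ℝ, ∀ t ∈ Set.Ico (0:ℝ) 1, ‖g t‖ ≤ B

theorem Bd.ofReal {g : ℝ → ℝ} (h : Measurable g) (h2 : ∃ B : ℝ, ∀ t ∈ Set.Ico (0:ℝ) 1, |g t| ≤ B) :
    Bd (fun t => (g t : ℂ)) := by
  obtain ⟨B, hB⟩ := h2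
  exact ⟨Complex.measurable_ofReal.comp h, B, fun t ht => by simpa using hB t ht⟩

theorem Bd_gd (K : ℕ) (a : ℕ → ℝ) (k : ℕ) : Bd (fun t => (gd K a k t : ℂ)) :=
  Bd.ofReal (measurable_gd K a k) (bounded_gd K a k)

theorem Bd_phL (K : ℕ) (a : ℕ → ℝ) (l : ℕ) : Bd (fun t => (phL K a l t : ℂ)) := by
  refine Bd.ofReal (measurable_phL K a l) ?_
  choose B hB using bounded_gd K a
  refine ⟨∑ k ∈ Finset.Icc l K, B k, fun t ht => ?_⟩
  unfold phL
  exact (Finset.abs_sum_le_sum_abs _ _).trans (Finset.sum_le_sum fun k _ => hB k t ht)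

/-- bound of `g t * F (t, ω)` for almost all `t` in `(0,1]`. -/
theorem Bd.bound {g : ℝ → ℂ} (hg : Bd g) {F : ℝ × Om → ℂ} (hF : Continuous F) :
    ∃ B : ℝ, 0 ≤ B ∧ ∀ᵐ t ∂(volume : Measure ℝ), t ∈ Set.uIoc (0:ℝ) 1 →
      ∀ ω : Om, ‖g t * F (t, ω)‖ ≤ B := by
  obtain ⟨hgm, B1, hB1⟩ := hg
  obtain ⟨B2, hB2⟩ := (isCompact_Icc.prod (isCompact_univ (X := Om))).exists_bound_of_continuousOn
    (f := F) (s := Set.Icc (0:ℝ) 1 ×ˢ Set.univ) hF.continuousOn
  refine ⟨|B1| * |B2|, by positivity, ?_⟩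
  have h1 : ∀ᵐ t ∂(volume : Measure ℝ), t ≠ 1 := by
    simp [ae_iff]
  filter_upwards [h1] with t ht ht2 ω
  rw [Set.uIoc_of_le zero_le_one] at ht2
  rw [norm_mul]
  have h3 := hB1 t ⟨ht2.1.le, lt_of_le_of_ne ht2.2 ht⟩
  have h4 := hB2 (t, ω) ⟨⟨ht2.1.le, ht2.2⟩, Set.mem_univ _⟩
  exact mul_le_mul (h3.trans (le_abs_self _)) (h4.trans (le_abs_self _)) (norm_nonneg _)
    (abs_nonneg _)

theorem Bd.continuous {g : ℝ → ℂ} (hg : Bd g) {F : ℝ × Om → ℂ} (hF : Continuous F) :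
    Continuous fun ω : Om => ∫ t in (0:ℝ)..1, g t * F (t, ω) := by
  obtain ⟨B, hB0, hB⟩ := hg.bound hF
  refine intervalIntegral.continuous_of_dominated_interval (bound := fun _ => B)
    (fun ω => ?_) (fun ω => ?_) (by simp) ?_
  · exact (hg.1.mul (hF.measurable.comp (measurable_id.prodMk measurable_const))).aestronglyMeasurable
  · filter_upwards [hB] with t ht ht2
    exact ht ht2 ω
  · filter_upwards with t _
    exact continuous_const.mul (hF.comp (Continuous.prodMk_right t))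

theorem Bd.intervalIntegrable {g : ℝ → ℂ} (hg : Bd g) {F : ℝ × Om → ℂ} (hF : Continuous F)
    (ω : Om) : IntervalIntegrable (fun t => g t * F (t, ω)) volume 0 1 := by
  obtain ⟨B, hB0, hB⟩ := hg.bound hF
  rw [Set.uIoc_of_le zero_le_one] at hB
  rw [intervalIntegrable_iff, Set.uIoc_of_le zero_le_one]
  refine Integrable.of_bound
    (hg.1.mul (hF.measurable.comp (measurable_id.prodMk measurable_const))).aestronglyMeasurable B ?_
  rw [ae_restrict_iff' measurableSet_Ioc]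
  filter_upwards [hB] with t ht ht2
  exact ht ht2 ω

theorem Bd.integral_zero {g : ℝ → ℂ} (hg : Bd g) {F : ℝ × Om → ℂ} (hF : Continuous F)
    (h0 : ∀ t, ∫ ω, F (t, ω) ∂mu = 0) :
    ∫ ω, (∫ t in (0:ℝ)..1, g t * F (t, ω)) ∂mu = 0 := by
  obtain ⟨B, hB0, hB⟩ := hg.bound hF
  have h1 : ∀ ω, ∫ t in (0:ℝ)..1, g t * F (t, ω) = ∫ t in Set.Ioc (0:ℝ) 1, g t * F (t, ω) :=
    fun ω => intervalIntegral.integral_of_le zero_le_one
  simp_rw [h1]
  rw [integral_integral_swap]
  · apply integral_eq_zero_of_ae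
    filter_upwards with t
    rw [integral_const_mul, h0 t]
    simp
  · refine Integrable.of_bound ?_ B ?_
    · exact ((hg.1.comp measurable_snd).mul
        (hF.measurable.comp (measurable_snd.prodMk measurable_fst))).aestronglyMeasurable
    · have h2 : ∀ᵐ t ∂((volume : Measure ℝ).restrict (Set.Ioc (0:ℝ) 1)), ∀ ω : Om,
          ‖g t * F (t, ω)‖ ≤ B := by
        rw [ae_restrict_iff' measurableSet_Ioc]
        filter_upwards [hB] with t ht ht2
        rw [Set.uIoc_of_le zero_le_one] at ht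
        exact ht ht2
      filter_upwards [(Measure.quasiMeasurePreserving_snd (μ := mu)).ae h2] with z hz
      exact hz z.1

theorem integrand_XX (b : ℝ) (k n : ℕ) :
    Continuous fun z : ℝ × Om => mm b (pr (min (k + 1) n)) z.1 z.2 * kk (pr n \ pr (k + 1)) z.1 z.2 :=
  (continuous_mm b _ fun _ hp => pr_prime hp).mul
    (continuous_kk fun _ hp => pr_prime (Finset.mem_sdiff.1 hp).1)

theorem integrand_D1 (b : ℝ) (l : ℕ) :
    Continuous fun z : ℝ × Om => mm b (pr l) z.1 z.2 * (mm b (blk l) z.1 z.2 - 1) :=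
  (continuous_mm b _ fun _ hp => pr_prime hp).mul
    ((continuous_mm b _ fun _ hp => pr_prime (Finset.mem_sdiff.1 hp).1).sub continuous_const)

theorem integrand_D2 (b : ℝ) (k l : ℕ) :
    Continuous fun z : ℝ × Om => mm b (pr (k + 1)) z.1 z.2 *
      (kk (pr l \ pr (k + 1)) z.1 z.2 * (kk (blk l) z.1 z.2 - 1)) :=
  (continuous_mm b _ fun _ hp => pr_prime hp).mul
    ((continuous_kk fun _ hp => pr_prime (Finset.mem_sdiff.1 hp).1).mul
      ((continuous_kk fun _ hp => pr_prime (Finset.mem_sdiff.1 hp).1).sub continuous_const))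

theorem XX_zero (b : ℝ) (K : ℕ) (a : ℕ → ℝ) (ω : Om) : XX b K a 0 ω = 0 := by
  unfold XX
  apply Finset.sum_eq_zero
  intro k _
  have h1 : ∀ t : ℝ, (gd K a k t : ℂ) * (mm b (pr (min (k + 1) 0)) t ω *
      kk (pr 0 \ pr (k + 1)) t ω) = ((gd K a k t : ℝ) : ℂ) := by
    intro t
    have h2 : min (k + 1) 0 = 0 := by omega
    rw [h2, pr_zeroE]
    simp [mm, kk]
  simp_rw [h1]
  rw [intervalIntegral.integral_ofReal, gd_integral]
  simp

theorem continuous_XX (b : ℝ) (K : ℕ) (a : ℕ → ℝ) (n : ℕ) : Continuous (XX b K a n) := by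
  unfold XX
  exact continuous_finsetSum _ fun k _ => (Bd_gd K a k).continuous (integrand_XX b k n)

theorem continuous_D1 (b : ℝ) (K : ℕ) (a : ℕ → ℝ) (l : ℕ) : Continuous (D1 b K a l) :=
  (Bd_phL K a l).continuous (integrand_D1 b l)

theorem continuous_D2 (b : ℝ) (K : ℕ) (a : ℕ → ℝ) (k l : ℕ) : Continuous (D2 b K a k l) :=
  (Bd_gd K a k).continuous (integrand_D2 b k l)

theorem XX_dependsOn (b : ℝ) (K : ℕ) (a : ℕ → ℝ) (n : ℕ) :
    DependsOn (XX b K a n) (pr n : Set ℕ) := by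
  intro ω ω' h
  unfold XX
  apply Finset.sum_congr rfl
  intro k _
  congr 1
  ext t
  congr 2
  · unfold mm
    apply Finset.prod_congr rfl
    intro p hp
    rw [h p (pr_mono (min_le_right _ _) hp)]
  · unfold kk
    apply Finset.prod_congr rfl
    intro p hp
    rw [h p (Finset.mem_sdiff.1 hp).1]

theorem blk_union {k l : ℕ} (h : k ≤ l) : pr (l + 1) \ pr k = (pr l \ pr k) ∪ blk l := by
  have h1 : pr k ⊆ pr l := pr_mono h
  have h2 : pr l ⊆ pr (l + 1) := pr_mono (Nat.le_succ l)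
  ext p
  simp only [blk, Finset.mem_sdiff, Finset.mem_union]
  constructor
  · rintro ⟨h3, h4⟩
    by_cases h5 : p ∈ pr l
    · exact Or.inl ⟨h5, h4⟩
    · exact Or.inr ⟨h3, h5⟩
  · rintro (⟨h3, h4⟩ | ⟨h3, h4⟩)
    · exact ⟨h2 h3, h4⟩
    · exact ⟨h3, fun h5 => h4 (h1 h5)⟩

theorem pr_succ_union (l : ℕ) : pr (l + 1) = pr l ∪ blk l := by
  rw [blk, Finset.union_sdiff_of_subset (pr_mono (Nat.le_succ l))]

theorem disj_blk (l : ℕ) : Disjoint (pr l) (blk l) := Finset.disjoint_sdiff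

theorem integrand_step (b : ℝ) (k l : ℕ) (t : ℝ) (ω : Om) :
    mm b (pr (min (k + 1) (l + 1))) t ω * kk (pr (l + 1) \ pr (k + 1)) t ω -
      mm b (pr (min (k + 1) l)) t ω * kk (pr l \ pr (k + 1)) t ω =
    if k < l then mm b (pr (k + 1)) t ω *
      (kk (pr l \ pr (k + 1)) t ω * (kk (blk l) t ω - 1))
    else mm b (pr l) t ω * (mm b (blk l) t ω - 1) := by
  split_ifs with h
  · have h1 : min (k + 1) (l + 1) = k + 1 := by omega
    have h2 : min (k + 1) l = k + 1 := by omega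
    rw [h1, h2, blk_union (by omega : k + 1 ≤ l)]
    have h3 : Disjoint (pr l \ pr (k + 1)) (blk l) :=
      (disj_blk l).mono_left Finset.sdiff_subset
    have h4 : kk (pr l \ pr (k + 1) ∪ blk l) t ω = kk (pr l \ pr (k + 1)) t ω * kk (blk l) t ω := by
      unfold kk
      exact Finset.prod_union h3
    rw [h4]
    ring
  · have h1 : min (k + 1) (l + 1) = l + 1 := by omega
    have h2 : min (k + 1) l = l := by omega
    have h3 : pr (l + 1) \ pr (k + 1) = ∅ := by
      rw [Finset.sdiff_eq_empty_iff_subset]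
      exact pr_mono (by omega)
    have h4 : pr l \ pr (k + 1) = ∅ := by
      rw [Finset.sdiff_eq_empty_iff_subset]
      exact pr_mono (by omega)
    have h5 : mm b (pr (l + 1)) t ω = mm b (pr l) t ω * mm b (blk l) t ω := by
      unfold mm
      rw [pr_succ_union, Finset.prod_union (disj_blk l)]
    rw [h1, h2, h3, h4, h5]
    simp only [kk, Finset.prod_empty]
    ring

theorem gd_zero (K : ℕ) (a : ℕ → ℝ) (t : ℝ) : gd K a 0 t = 0 := by
  unfold gd
  simp

theorem XX_step (b : ℝ) (K : ℕ) (a : ℕ → ℝ) (l : ℕ) (ω : Om) :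
    XX b K a (l + 1) ω - XX b K a l ω =
      D1 b K a l ω + ∑ k ∈ (Finset.Icc 1 K).filter (fun k => k < l), D2 b K a k l ω := by
  have h1 : ∀ k, (∫ t in (0:ℝ)..1, (gd K a k t : ℂ) * (mm b (pr (min (k + 1) (l + 1))) t ω *
      kk (pr (l + 1) \ pr (k + 1)) t ω)) -
      (∫ t in (0:ℝ)..1, (gd K a k t : ℂ) * (mm b (pr (min (k + 1) l)) t ω *
        kk (pr l \ pr (k + 1)) t ω)) =
      if k < l then D2 b K a k l ω else
        ∫ t in (0:ℝ)..1, (gd K a k t : ℂ) * (mm b (pr l) t ω * (mm b (blk l) t ω - 1)) := by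
    intro k
    rw [← intervalIntegral.integral_sub ((Bd_gd K a k).intervalIntegrable (integrand_XX b k (l+1)) ω)
      ((Bd_gd K a k).intervalIntegrable (integrand_XX b k l) ω)]
    simp_rw [← mul_sub, integrand_step]
    split_ifs with h
    · rfl
    · rfl
  unfold XX
  rw [← Finset.sum_sub_distrib]
  simp_rw [h1]
  rw [← Finset.sum_filter_add_sum_filter_not (Finset.Icc 1 K) (fun k => k < l), add_comm]
  congr 1
  · have h2 : ∀ k ∈ (Finset.Icc 1 K).filter (fun k => ¬ k < l),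
        (if k < l then D2 b K a k l ω else
          ∫ t in (0:ℝ)..1, (gd K a k t : ℂ) * (mm b (pr l) t ω * (mm b (blk l) t ω - 1))) =
          ∫ t in (0:ℝ)..1, (gd K a k t : ℂ) * (mm b (pr l) t ω * (mm b (blk l) t ω - 1)) := by
      intro k hk
      rw [if_neg (Finset.mem_filter.1 hk).2]
    rw [Finset.sum_congr rfl h2, ← intervalIntegral.integral_finsetSum]
    · unfold D1 phL
      congr 1
      ext t
      rw [← Finset.sum_mul]
      congr 1
      push_cast
      refine Finset.sum_subset ?_ ?_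
      · intro k hk
        rw [Finset.mem_filter, Finset.mem_Icc] at hk
        rw [Finset.mem_Icc]
        omega
      · intro k hk hk2
        rw [Finset.mem_filter, Finset.mem_Icc] at hk2
        rw [Finset.mem_Icc] at hk
        have h3 : k = 0 := by omega
        rw [h3, gd_zero, Complex.ofReal_zero]
    · intro k _
      exact (Bd_gd K a k).intervalIntegrable (integrand_D1 b l) ω
  · apply Finset.sum_congr rfl
    intro k hk
    rw [if_pos (Finset.mem_filter.1 hk).2]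

theorem cont_m1 (b : ℝ) {p : ℕ} (hp : p.Prime) (t : ℝ) : Continuous (fun x => m1 b p t x) := by
  have h := continuous_m1 b hp
  have h2 : Continuous (fun x : UnitAddCircle => (t, x)) := Continuous.prodMk_right t
  have h3 := h.comp h2
  exact h3

theorem cont_k1 {p : ℕ} (hp : p.Prime) (t : ℝ) : Continuous (fun x => k1 p t x) := by
  have h := continuous_k1 hp
  have h2 : Continuous (fun x : UnitAddCircle => (t, x)) := Continuous.prodMk_right t
  have h3 := h.comp h2
  exact h3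

theorem cont_mm (b : ℝ) (S : Finset ℕ) (hS : ∀ p ∈ S, p.Prime) (t : ℝ) :
    Continuous (fun ω => mm b S t ω) := by
  have h := continuous_mm b S hS
  have h2 : Continuous (fun x : Om => (t, x)) := Continuous.prodMk_right t
  have h3 := h.comp h2
  exact h3

theorem cont_kk (S : Finset ℕ) (hS : ∀ p ∈ S, p.Prime) (t : ℝ) :
    Continuous (fun ω => kk S t ω) := by
  have h := continuous_kk hS
  have h2 : Continuous (fun x : Om => (t, x)) := Continuous.prodMk_right t
  have h3 := h.comp h2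
  exact h3

theorem cont_mm' (b : ℝ) (S : Finset ℕ) (hS : ∀ p ∈ S, p.Prime) (ω : Om) :
    Continuous (fun z : ℝ × Om => mm b S z.1 ω) := by
  have h := continuous_mm b S hS
  have h2 : Continuous (fun z : ℝ × Om => (z.1, ω)) := continuous_fst.prodMk continuous_const
  have h3 := h.comp h2
  exact h3

theorem cont_kk' (S : Finset ℕ) (hS : ∀ p ∈ S, p.Prime) (ω : Om) :
    Continuous (fun z : ℝ × Om => kk S z.1 ω) := by
  have h := continuous_kk hS
  have h2 : Continuous (fun z : ℝ × Om => (z.1, ω)) := continuous_fst.prodMk continuous_const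
  have h3 := h.comp h2
  exact h3

theorem mean_mm_blk {b : ℝ} (hb0 : 0 ≤ b) (hb1 : b ≤ 1) (S : Finset ℕ) (hS : ∀ p ∈ S, p.Prime)
    (t : ℝ) : ∫ ω, (mm b S t ω - 1) ∂mu = 0 := by
  have h1 : ∫ ω, mm b S t ω ∂mu = 1 := by
    have h2 := integral_prod_mu S (fun p x => m1 b p t x) (fun p hp => cont_m1 b (hS p hp) t)
    unfold mm
    rw [h2]
    exact Finset.prod_eq_one fun p hp => m1_mean hb0 hb1 (hS p hp) t
  rw [integral_sub (integrable_of_continuous (cont_mm b S hS t)) (integrable_const _), h1]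
  simp

theorem mean_kk_blk (S : Finset ℕ) (hS : ∀ p ∈ S, p.Prime)
    (t : ℝ) : ∫ ω, (kk S t ω - 1) ∂mu = 0 := by
  have h1 : ∫ ω, kk S t ω ∂mu = 1 := by
    have h2 := integral_prod_mu S (fun p x => k1 p t x) (fun p hp => cont_k1 (hS p hp) t)
    unfold kk
    rw [h2]
    exact Finset.prod_eq_one fun p hp => k1_mean (hS p hp) t
  rw [integral_sub (integrable_of_continuous (cont_kk S hS t)) (integrable_const _), h1]
  simp

theorem D1_mix (b : ℝ) (K : ℕ) (a : ℕ → ℝ) (l : ℕ) (ω ω' : Om) :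
    D1 b K a l (mix (pr l) ω ω') =
      ∫ t in (0:ℝ)..1, (phL K a l t : ℂ) * (mm b (pr l) t ω * (mm b (blk l) t ω' - 1)) := by
  unfold D1
  refine intervalIntegral.integral_congr fun t _ => ?_
  rw [mm_mix b _ _ (Finset.Subset.refl _), mm_mix' b _ _ (disj_blk l)]

theorem D2_mix (b : ℝ) (K : ℕ) (a : ℕ → ℝ) (k l : ℕ) (hkl : k < l) (ω ω' : Om) :
    D2 b K a k l (mix (pr l) ω ω') =
      ∫ t in (0:ℝ)..1, (gd K a k t : ℂ) * (mm b (pr (k + 1)) t ω *
        (kk (pr l \ pr (k + 1)) t ω * (kk (blk l) t ω' - 1))) := by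
  unfold D2
  refine intervalIntegral.integral_congr fun t _ => ?_
  rw [mm_mix b _ _ (pr_mono (by omega)), kk_mix _ _ Finset.sdiff_subset, kk_mix' _ _ (disj_blk l)]

theorem mean_D1 {b : ℝ} (hb0 : 0 ≤ b) (hb1 : b ≤ 1) (K : ℕ) (a : ℕ → ℝ) (l : ℕ) (ω : Om) :
    ∫ ω', D1 b K a l (mix (pr l) ω ω') ∂mu = 0 := by
  simp_rw [D1_mix]
  refine (Bd_phL K a l).integral_zero (F := fun z : ℝ × Om => mm b (pr l) z.1 ω * (mm b (blk l) z.1 z.2 - 1)) ?_ ?_
  · exact (cont_mm' b _ (fun _ hp => pr_prime hp) ω).mul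
      ((continuous_mm b _ fun _ hp => pr_prime (Finset.mem_sdiff.1 hp).1).sub continuous_const)
  · intro t
    show ∫ ω', mm b (pr l) t ω * (mm b (blk l) t ω' - 1) ∂mu = 0
    rw [integral_const_mul, mean_mm_blk hb0 hb1 (blk l) (fun _ hp => pr_prime (Finset.mem_sdiff.1 hp).1),
      mul_zero]

theorem mean_D2 (b : ℝ) (K : ℕ) (a : ℕ → ℝ) (k l : ℕ) (hkl : k < l) (ω : Om) :
    ∫ ω', D2 b K a k l (mix (pr l) ω ω') ∂mu = 0 := by
  simp_rw [D2_mix b K a k l hkl]
  refine (Bd_gd K a k).integral_zero (F := fun z : ℝ × Om => mm b (pr (k + 1)) z.1 ω *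
        (kk (pr l \ pr (k + 1)) z.1 ω * (kk (blk l) z.1 z.2 - 1))) ?_ ?_
  · exact (cont_mm' b _ (fun _ hp => pr_prime hp) ω).mul
      ((cont_kk' _ (fun _ hp => pr_prime (Finset.mem_sdiff.1 hp).1) ω).mul
      ((continuous_kk fun _ hp => pr_prime (Finset.mem_sdiff.1 hp).1).sub continuous_const))
  · intro t
    show ∫ ω', mm b (pr (k + 1)) t ω *
        (kk (pr l \ pr (k + 1)) t ω * (kk (blk l) t ω' - 1)) ∂mu = 0
    rw [integral_const_mul, integral_const_mul,
      mean_kk_blk (blk l) (fun _ hp => pr_prime (Finset.mem_sdiff.1 hp).1), mul_zero, mul_zero]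

theorem lint_sq {f : Om → ℂ} (hf : Continuous f) :
    ∫⁻ ω, ‖f ω‖ₑ ^ 2 ∂mu = ENNReal.ofReal (∫ ω, ‖f ω‖ ^ 2 ∂mu) := by
  rw [ofReal_integral_eq_lintegral_ofReal]
  · congr 1
    ext ω
    rw [ENNReal.ofReal_pow (norm_nonneg _), ofReal_norm]
  · obtain ⟨B, hB⟩ := (isCompact_univ (X := Om)).exists_bound_of_continuousOn
      (f := fun ω => ‖f ω‖ ^ 2) (by fun_prop)
    exact Integrable.of_bound (by fun_prop) B (Filter.Eventually.of_forall fun ω => hB ω trivial)
  · exact Filter.Eventually.of_forall fun ω => by positivity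

theorem int_sq {f : Om → ℂ} (hf : Continuous f) : Integrable (fun ω => ‖f ω‖ ^ 2) mu := by
  obtain ⟨B, hB⟩ := (isCompact_univ (X := Om)).exists_bound_of_continuousOn
    (f := fun ω => ‖f ω‖ ^ 2) (by fun_prop)
  exact Integrable.of_bound (by fun_prop) B (Filter.Eventually.of_forall fun ω => hB ω trivial)

theorem pyth (X : ℂ) {D : Om → ℂ} (hD : Continuous D) (h0 : ∫ ω, D ω ∂mu = 0) :
    ∫⁻ ω, ‖X + D ω‖ₑ ^ 2 ∂mu = ‖X‖ₑ ^ 2 + ∫⁻ ω, ‖D ω‖ₑ ^ 2 ∂mu := by
  have hcc : Continuous (fun ω' => (starRingEnd ℂ) X * D ω') := continuous_const.mul hD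
  have hi0 : Integrable (fun ω' => (starRingEnd ℂ) X * D ω') mu := integrable_of_continuous hcc
  have hi1 : Integrable (fun ω' => 2 * (starRingEnd ℂ X * D ω').re) mu := by
    have h9 : Integrable (fun ω' => ((starRingEnd ℂ) X * D ω').re) mu := hi0.re
    exact h9.const_mul 2
  have hi2 : Integrable (fun ω' => ‖D ω'‖ ^ 2) mu := int_sq hD
  have h1 : ∀ ω', ‖X + D ω'‖ ^ 2 =
      ‖X‖ ^ 2 + (2 * (starRingEnd ℂ X * D ω').re + ‖D ω'‖ ^ 2) := by
    intro ω'
    simp only [← Complex.normSq_eq_norm_sq, Complex.normSq_add]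
    simp only [Complex.mul_re, Complex.conj_re, Complex.conj_im, Complex.normSq_apply]
    ring
  have h3 : ∫ ω', ‖X + D ω'‖ ^ 2 ∂mu = ‖X‖ ^ 2 + ∫ ω', ‖D ω'‖ ^ 2 ∂mu := by
    simp_rw [h1]
    have hi3 : Integrable (fun ω' => 2 * (starRingEnd ℂ X * D ω').re + ‖D ω'‖ ^ 2) mu :=
      hi1.add hi2
    rw [integral_add (integrable_const _) hi3, integral_add hi1 hi2]
    have h4 : ∫ ω', 2 * (starRingEnd ℂ X * D ω').re ∂mu = 0 := by
      rw [integral_const_mul]
      have h5 : ∫ ω', (starRingEnd ℂ X * D ω').re ∂mu =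
          (∫ ω', starRingEnd ℂ X * D ω' ∂mu).re :=
        integral_re hi0
      rw [h5, integral_const_mul, h0]
      simp
    rw [h4]
    simp
  have hc : Continuous fun ω => X + D ω := continuous_const.add hD
  rw [lint_sq hc, lint_sq hD, h3, ENNReal.ofReal_add (by positivity)
    (integral_nonneg fun _ => by positivity), ENNReal.ofReal_pow (norm_nonneg _), ofReal_norm]

theorem XX_mart {b : ℝ} (hb0 : 0 ≤ b) (hb1 : b ≤ 1) (K : ℕ) (a : ℕ → ℝ) (l : ℕ) (ω : Om) :
    El (pr l) (fun ω => ‖XX b K a (l + 1) ω‖ₑ ^ 2) ω ≤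
      ‖XX b K a l ω‖ₑ ^ 2 +
        El (pr l) (fun ω => ‖XX b K a (l + 1) ω - XX b K a l ω‖ₑ ^ 2) ω := by
  have hmix : Continuous fun ω' : Om => mix (pr l) ω ω' := by
    have h := (continuous_mix (pr l)).comp (Continuous.prodMk_right ω)
    exact h
  have hX : ∀ ω', XX b K a l (mix (pr l) ω ω') = XX b K a l ω := by
    intro ω'
    apply XX_dependsOn
    intro p hp
    simp only [mix]
    rw [if_pos (by exact_mod_cast hp)]
  have hDc : Continuous fun ω' : Om => XX b K a (l + 1) (mix (pr l) ω ω') -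
      XX b K a l (mix (pr l) ω ω') :=
    ((continuous_XX b K a (l + 1)).comp hmix).sub ((continuous_XX b K a l).comp hmix)
  have hD0 : ∫ ω', (XX b K a (l + 1) (mix (pr l) ω ω') -
      XX b K a l (mix (pr l) ω ω')) ∂mu = 0 := by
    simp_rw [XX_step]
    rw [integral_add, integral_finsetSum]
    · rw [mean_D1 hb0 hb1, zero_add]
      apply Finset.sum_eq_zero
      intro k hk
      exact mean_D2 b K a k l (Finset.mem_filter.1 hk).2 ω
    · intro k _
      exact integrable_of_continuous ((continuous_D2 b K a k l).comp hmix)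
    · exact integrable_of_continuous ((continuous_D1 b K a l).comp hmix)
    · exact integrable_of_continuous (continuous_finsetSum _ fun k _ =>
        (continuous_D2 b K a k l).comp hmix)
  unfold El
  rw [← pyth (XX b K a l ω) hDc hD0]
  refine lintegral_mono fun ω' => le_of_eq ?_
  have h1 : XX b K a (l + 1) (mix (pr l) ω ω') = XX b K a l ω +
      (XX b K a (l + 1) (mix (pr l) ω ω') - XX b K a l (mix (pr l) ω ω')) := by
    rw [hX ω']
    ring
  exact congrArg (fun z : ℂ => ‖z‖ₑ ^ 2) h1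

end Emb
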