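/-
CHUNK LIFT (the lifting identity).

`zn_pair`: T, T' disjoint finite sets of primes containing all prime factors of n >= 1:
  E[z_n conj(mm b T t kk T' t)] = n^(-(1/2+it)).
 Proof. zn n = prod over p in T ∪ T' of fourier (v_p(n)) (omega p); integral_prod_mu, m1_pair, k1_pair:
 prod_p (p^(-1/2))^(v_p) e^(-i v_p t log p) = n^(-1/2) e^(-i t log n).
`lift`: if all prime factors of all n <= N lie in pr m and g has mean zero then
  E[FF conj X_m] = int_0^1 g(t) DP(1/2+it) dt.
 Proof. X_m = sum_k int g_k(t) (...): exchange E and the t-integral (continuous in omega, bounded),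
 zn_pair with T = pr (min (k+1) m), T' = pr m \ pr (k+1) (their union is pr m), and sum_gd. g real.
-/
import Pool.Agent.Lib.Emb.Sq1

open MeasureTheory Complex
open scoped BigOperators ENNReal

namespace Emb

theorem continuous_zn (n : ℕ) : Continuous (zn n) := by
  unfold zn Finsupp.prod
  exact continuous_finsetProd _ fun p _ => (fourier _).continuous.comp (continuous_apply p)

theorem continuous_FF (a : ℕ → ℂ) (N : ℕ) : Continuous (FF a N) := by
  unfold FF
  exact continuous_finsetSum _ fun n _ => continuous_const.mul (continuous_zn n)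

private theorem lift_comp (F : ℝ × UnitAddCircle → ℂ) (hF : Continuous F) (t : ℝ) :
    Continuous fun x : UnitAddCircle => F (t, x) :=
  hF.comp (Continuous.prodMk continuous_const continuous_id)

private theorem lift_m1 (b : ℝ) {p : ℕ} (hp : p.Prime) (t : ℝ) :
    Continuous fun x : UnitAddCircle => m1 b p t x := by
  have := lift_comp (fun z : ℝ × UnitAddCircle => m1 b p z.1 z.2) (continuous_m1 b hp) t
  simpa only using this

private theorem lift_k1 {p : ℕ} (hp : p.Prime) (t : ℝ) :
    Continuous fun x : UnitAddCircle => k1 p t x := by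
  have := lift_comp (fun z : ℝ × UnitAddCircle => k1 p z.1 z.2) (continuous_k1 hp) t
  simpa only using this

private theorem lift_zn (n : ℕ) (S : Finset ℕ) (hS : n.primeFactors ⊆ S) (ω : Om) :
    zn n ω = ∏ p ∈ S, (fourier ((n.factorization p : ℕ) : ℤ) (ω p) : ℂ) := by
  unfold zn Finsupp.prod
  rw [Nat.support_factorization]
  refine Finset.prod_subset hS fun p _ hp => ?_
  rw [← Nat.support_factorization, Finsupp.notMem_support_iff] at hp
  rw [hp]
  simp

private theorem lift_factor {p : ℕ} (hp : p.Prime) (v : ℕ) (t : ℝ) :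
    (((Real.sqrt p)⁻¹ ^ v : ℝ) : ℂ) * Complex.exp (((-(v * (t * Real.log p)) : ℝ) : ℂ) * I) =
      Complex.exp (-((1 / 2 : ℂ) + (t : ℂ) * I) * (((v : ℝ) * Real.log p : ℝ) : ℂ)) := by
  have hp0 : (0 : ℝ) < p := by exact_mod_cast hp.pos
  have h1 : (Real.sqrt p)⁻¹ ^ v = Real.exp (-(1 / 2) * ((v : ℝ) * Real.log p)) := by
    have h2 : Real.sqrt p = Real.exp ((1 / 2) * Real.log p) := by
      rw [Real.sqrt_eq_rpow, Real.rpow_def_of_pos hp0]
      congr 1
      ring
    rw [h2, ← Real.exp_neg, ← Real.exp_nat_mul]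
    congr 1
    ring
  rw [h1, Complex.ofReal_exp, ← Complex.exp_add]
  congr 1
  push_cast
  ring

theorem zn_pair {b : ℝ} (hb0 : 0 ≤ b) (hb1 : b ≤ 1) (T T' : Finset ℕ)
    (hT : ∀ p ∈ T ∪ T', p.Prime) (hd : Disjoint T T') (n : ℕ) (hn : n ≠ 0)
    (hp : n.primeFactors ⊆ T ∪ T') (t : ℝ) :
    ∫ ω, zn n ω * (starRingEnd ℂ) (mm b T t ω * kk T' t ω) ∂mu =
      (n : ℂ) ^ (-((1 / 2 : ℂ) + (t : ℂ) * I)) := by
  classical
  set f : ℕ → UnitAddCircle → ℂ := fun p x => (fourier ((n.factorization p : ℕ) : ℤ) x : ℂ) *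
    (starRingEnd ℂ) (if p ∈ T then m1 b p t x else k1 p t x) with hf
  have h1 : (fun ω => zn n ω * (starRingEnd ℂ) (mm b T t ω * kk T' t ω)) =
      fun ω => ∏ p ∈ T ∪ T', f p (ω p) := by
    funext ω
    rw [hf]
    simp only
    rw [Finset.prod_mul_distrib, ← lift_zn n (T ∪ T') hp ω]
    congr 1
    rw [Finset.prod_union hd, map_mul]
    unfold mm kk
    rw [map_prod, map_prod]
    congr 1
    · refine Finset.prod_congr rfl fun p hp => ?_
      rw [if_pos hp]
    · refine Finset.prod_congr rfl fun p hp => ?_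
      rw [if_neg (Finset.disjoint_right.1 hd hp)]
  have hcont : ∀ p ∈ T ∪ T', Continuous (f p) := by
    intro p hp
    rw [hf]
    simp only
    refine (fourier _).continuous.mul (continuous_conj.comp ?_)
    by_cases h : p ∈ T
    · simp only [h, if_true]
      exact lift_m1 b (hT p hp) t
    · simp only [h, if_false]
      exact lift_k1 (hT p hp) t
  have h2 : ∀ p ∈ T ∪ T', ∫ x, f p x ∂haar1 =
      Complex.exp (-((1 / 2 : ℂ) + (t : ℂ) * I) *
        (((n.factorization p : ℝ) * Real.log p : ℝ) : ℂ)) := by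
    intro p hp
    rw [← lift_factor (hT p hp) (n.factorization p) t, hf]
    simp only
    by_cases h : p ∈ T
    · simp only [h, if_true]
      exact m1_pair hb0 hb1 (hT p hp) (n.factorization p) t
    · simp only [h, if_false]
      exact k1_pair (hT p hp) (n.factorization p) t
  rw [h1, integral_prod_mu (T ∪ T') f hcont, Finset.prod_congr rfl h2, ← Complex.exp_sum,
    ← Finset.mul_sum, ← Complex.ofReal_sum]
  have h3 : ∑ p ∈ T ∪ T', (n.factorization p : ℝ) * Real.log p = Real.log n := by
    rw [Real.log_nat_eq_sum_factorization]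
    unfold Finsupp.sum
    rw [Nat.support_factorization]
    symm
    refine Finset.sum_subset hp fun p _ hp => ?_
    rw [← Nat.support_factorization, Finsupp.notMem_support_iff] at hp
    rw [hp]
    simp
  rw [h3, Complex.cpow_def_of_ne_zero (by exact_mod_cast hn), Complex.natCast_log, mul_comm]

private theorem lift_cont (b : ℝ) (c : ℕ → ℂ) (N : ℕ) (T T' : Finset ℕ)
    (hT : ∀ p ∈ T, p.Prime) (hT' : ∀ p ∈ T', p.Prime) :
    Continuous fun z : ℝ × Om =>
      FF c N z.2 * (starRingEnd ℂ) (mm b T z.1 z.2 * kk T' z.1 z.2) := by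
  have h1 : Continuous fun z : ℝ × Om => FF c N z.2 := (continuous_FF c N).comp continuous_snd
  have h2 := (continuous_mm b T hT).mul (continuous_kk hT')
  have h3 : Continuous fun z : ℝ × Om => (starRingEnd ℂ) (mm b T z.1 z.2 * kk T' z.1 z.2) :=
    continuous_conj.comp h2
  exact h1.mul h3

private theorem lift_swap (F : ℝ × Om → ℂ) (hF : Continuous F) :
    Continuous fun z : Om × ℝ => F (z.2, z.1) := hF.comp continuous_swap

private theorem lift_cont' (b : ℝ) (c : ℕ → ℂ) (N : ℕ) (T T' : Finset ℕ)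
    (hT : ∀ p ∈ T, p.Prime) (hT' : ∀ p ∈ T', p.Prime) :
    Continuous fun z : Om × ℝ =>
      FF c N z.1 * (starRingEnd ℂ) (mm b T z.2 z.1 * kk T' z.2 z.1) := by
  have := lift_swap (fun z : ℝ × Om =>
      FF c N z.2 * (starRingEnd ℂ) (mm b T z.1 z.2 * kk T' z.1 z.2)) (lift_cont b c N T T' hT hT')
  simpa only using this

private theorem lift_integrable (b : ℝ) (K : ℕ) (a : ℕ → ℝ) (k : ℕ) (c : ℕ → ℂ) (N : ℕ)
    (T T' : Finset ℕ) (hT : ∀ p ∈ T, p.Prime) (hT' : ∀ p ∈ T', p.Prime) :
    Integrable (fun z : Om × ℝ => (gd K a k z.2 : ℂ) *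
      (FF c N z.1 * (starRingEnd ℂ) (mm b T z.2 z.1 * kk T' z.2 z.1)))
      (mu.prod (volume.restrict (Set.Ico (0:ℝ) 1))) := by
  have hc' := lift_cont' b c N T T' hT hT'
  obtain ⟨B, hB⟩ := bounded_gd K a k
  obtain ⟨C, hC⟩ := (isCompact_univ.prod (isCompact_Icc (a := (0:ℝ)) (b := 1)) :
    IsCompact ((Set.univ : Set Om) ×ˢ Set.Icc (0:ℝ) 1)).exists_bound_of_continuousOn
      hc'.continuousOn
  have hg : Measurable fun z : Om × ℝ => (gd K a k z.2 : ℂ) :=
    Complex.measurable_ofReal.comp ((measurable_gd K a k).comp measurable_snd)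
  refine Integrable.of_bound (hg.mul hc'.measurable).aestronglyMeasurable (B * C) ?_
  have hae : ∀ᵐ z ∂(mu.prod (volume.restrict (Set.Ico (0:ℝ) 1))), z.2 ∈ Set.Ico (0:ℝ) 1 :=
    Measure.quasiMeasurePreserving_snd.ae (ae_restrict_mem measurableSet_Ico)
  filter_upwards [hae] with z hz
  rw [norm_mul, Complex.norm_real, Real.norm_eq_abs]
  have h1 := hB z.2 hz
  have h2 := hC z ⟨Set.mem_univ _, Set.Ico_subset_Icc_self hz⟩
  exact mul_le_mul h1 h2 (norm_nonneg _) ((abs_nonneg _).trans h1)

theorem lift {b : ℝ} (hb0 : 0 ≤ b) (hb1 : b ≤ 1) (K : ℕ) (a : ℕ → ℝ) (h0 : av K a 0 0 = 0)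
    (c : ℕ → ℂ) (N m : ℕ) (hN : ∀ n ∈ Finset.Icc 1 N, n.primeFactors ⊆ pr m) :
    ∫ ω, FF c N ω * (starRingEnd ℂ) (XX b K a m ω) ∂mu =
      ∫ t in (0:ℝ)..1, (a (ix K t) : ℂ) * DP c N ((1 / 2 : ℂ) + (t : ℂ) * I) := by
  -- the inner integral
  have hin : ∀ (k : ℕ) (t : ℝ),
      ∫ ω, FF c N ω * (starRingEnd ℂ)
        (mm b (pr (min (k + 1) m)) t ω * kk (pr m \ pr (k + 1)) t ω) ∂mu =
        DP c N ((1 / 2 : ℂ) + (t : ℂ) * I) := by
    intro k t
    have hTsub : pr (min (k + 1) m) ⊆ pr m := pr_mono (min_le_right _ _)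
    have hTsub' : pr (min (k + 1) m) ⊆ pr (k + 1) := pr_mono (min_le_left _ _)
    have hU : pr (min (k + 1) m) ∪ (pr m \ pr (k + 1)) = pr m := by
      ext p
      rw [Finset.mem_union, Finset.mem_sdiff]
      constructor
      · rintro (h | h)
        · exact hTsub h
        · exact h.1
      · intro h
        by_cases h2 : p ∈ pr (k + 1)
        · left
          rcases le_total (k + 1) m with h3 | h3
          · rw [min_eq_left h3]; exact h2
          · rw [min_eq_right h3]; exact h
        · exact Or.inr ⟨h, h2⟩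
    have hd : Disjoint (pr (min (k + 1) m)) (pr m \ pr (k + 1)) :=
      Finset.disjoint_left.2 fun p hp hp' => (Finset.mem_sdiff.1 hp').2 (hTsub' hp)
    have hpr : ∀ p ∈ pr (min (k + 1) m) ∪ (pr m \ pr (k + 1)), p.Prime := by
      rw [hU]; exact fun p hp => pr_prime hp
    have h1 : (fun ω => FF c N ω * (starRingEnd ℂ)
        (mm b (pr (min (k + 1) m)) t ω * kk (pr m \ pr (k + 1)) t ω)) =
        fun ω => ∑ n ∈ Finset.Icc 1 N, c n * (zn n ω * (starRingEnd ℂ)
          (mm b (pr (min (k + 1) m)) t ω * kk (pr m \ pr (k + 1)) t ω)) := by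
      funext ω
      unfold FF
      rw [Finset.sum_mul]
      refine Finset.sum_congr rfl fun n _ => ?_
      ring
    have hcm : Continuous fun ω : Om => (starRingEnd ℂ)
        (mm b (pr (min (k + 1) m)) t ω * kk (pr m \ pr (k + 1)) t ω) := by
      have h2 := (continuous_mm b (pr (min (k + 1) m))
        fun p hp => pr_prime hp).comp (Continuous.prodMk (continuous_const (y := t)) continuous_id)
      have h3 := (continuous_kk (S := pr m \ pr (k + 1))
        fun p hp => pr_prime (Finset.mem_sdiff.1 hp).1).comp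
          (Continuous.prodMk (continuous_const (y := t)) continuous_id)
      exact continuous_conj.comp (h2.mul h3)
    rw [h1, integral_finsetSum]
    · unfold DP
      refine Finset.sum_congr rfl fun n hn => ?_
      rw [integral_const_mul]
      congr 1
      refine zn_pair hb0 hb1 _ _ hpr hd n ?_ ?_ t
      · have := (Finset.mem_Icc.1 hn).1
        omega
      · rw [hU]; exact hN n hn
    · intro n _
      exact integrable_of_continuous (continuous_const.mul ((continuous_zn n).mul hcm))
  -- expansion of the conjugate of X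
  have hconj : ∀ ω, (starRingEnd ℂ) (XX b K a m ω) = ∑ k ∈ Finset.Icc 1 K,
      ∫ t in Set.Ico (0:ℝ) 1, (gd K a k t : ℂ) * (starRingEnd ℂ)
        (mm b (pr (min (k + 1) m)) t ω * kk (pr m \ pr (k + 1)) t ω) := by
    intro ω
    unfold XX
    rw [map_sum]
    refine Finset.sum_congr rfl fun k _ => ?_
    rw [intervalIntegral.integral_of_le zero_le_one, ← integral_Ico_eq_integral_Ioc,
      ← integral_conj]
    refine integral_congr_ae (Filter.Eventually.of_forall fun t => ?_)
    simp only
    rw [map_mul, Complex.conj_ofReal]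
  have hLHS : ∫ ω, FF c N ω * (starRingEnd ℂ) (XX b K a m ω) ∂mu =
      ∑ k ∈ Finset.Icc 1 K, ∫ t in Set.Ico (0:ℝ) 1,
        (gd K a k t : ℂ) * DP c N ((1 / 2 : ℂ) + (t : ℂ) * I) := by
    have h1 : (fun ω => FF c N ω * (starRingEnd ℂ) (XX b K a m ω)) = fun ω =>
        ∑ k ∈ Finset.Icc 1 K, ∫ t in Set.Ico (0:ℝ) 1, (gd K a k t : ℂ) *
          (FF c N ω * (starRingEnd ℂ)
            (mm b (pr (min (k + 1) m)) t ω * kk (pr m \ pr (k + 1)) t ω)) := by
      funext ω
      rw [hconj ω, Finset.mul_sum]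
      refine Finset.sum_congr rfl fun k _ => ?_
      rw [← integral_const_mul]
      refine integral_congr_ae (Filter.Eventually.of_forall fun t => ?_)
      simp only
      ring
    have hI : ∀ k, Integrable (fun z : Om × ℝ => (gd K a k z.2 : ℂ) *
        (FF c N z.1 * (starRingEnd ℂ) (mm b (pr (min (k + 1) m)) z.2 z.1 *
          kk (pr m \ pr (k + 1)) z.2 z.1)))
        (mu.prod (volume.restrict (Set.Ico (0:ℝ) 1))) := fun k =>
      lift_integrable b K a k c N _ _ (fun p hp => pr_prime hp)
        (fun p hp => pr_prime (Finset.mem_sdiff.1 hp).1)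
    rw [h1, integral_finsetSum]
    · refine Finset.sum_congr rfl fun k _ => ?_
      have hsw := integral_integral_swap (f := fun (ω : Om) (t : ℝ) => (gd K a k t : ℂ) *
        (FF c N ω * (starRingEnd ℂ) (mm b (pr (min (k + 1) m)) t ω *
          kk (pr m \ pr (k + 1)) t ω))) (μ := mu) (ν := volume.restrict (Set.Ico (0:ℝ) 1)) (hI k)
      rw [hsw]
      refine integral_congr_ae (Filter.Eventually.of_forall fun t => ?_)
      simp only
      rw [integral_const_mul, hin k t]
    · intro k _
      exact (hI k).integral_prod_left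
  rw [hLHS]
  have hDP : Continuous fun t : ℝ => DP c N ((1 / 2 : ℂ) + (t : ℂ) * I) := by
    unfold DP
    refine continuous_finsetSum _ fun n hn => continuous_const.mul ?_
    have hn0 : (n : ℂ) ≠ 0 := by
      have := (Finset.mem_Icc.1 hn).1
      exact_mod_cast (by omega : n ≠ 0)
    refine Continuous.const_cpow ?_ (Or.inl hn0)
    exact (continuous_const.add (continuous_ofReal.mul continuous_const)).neg
  rw [intervalIntegral.integral_of_le zero_le_one, ← integral_Ico_eq_integral_Ioc,
    ← integral_finsetSum]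
  · refine setIntegral_congr_fun measurableSet_Ico fun t ht => ?_
    rw [← Finset.sum_mul, ← Complex.ofReal_sum, sum_gd K a h0 ht]
  · intro k _
    obtain ⟨B, hB⟩ := bounded_gd K a k
    obtain ⟨C, hC⟩ := (isCompact_Icc (a := (0:ℝ)) (b := 1)).exists_bound_of_continuousOn
      hDP.continuousOn
    have hg : Measurable fun t : ℝ => (gd K a k t : ℂ) :=
      Complex.measurable_ofReal.comp (measurable_gd K a k)
    refine Integrable.of_bound (hg.mul hDP.measurable).aestronglyMeasurable (B * C) ?_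
    filter_upwards [ae_restrict_mem measurableSet_Ico] with t ht
    rw [norm_mul, Complex.norm_real, Real.norm_eq_abs]
    have h1 := hB t ht
    have h2 := hC t (Set.Ico_subset_Icc_self ht)
    exact mul_le_mul h1 h2 (norm_nonneg _) ((abs_nonneg _).trans h1)

end Emb
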