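/-
CHUNK BOHR (means over the line are integrals over the torus).

`bohr`: (1/2T) int_(-T)^T |DP(it)|^p dt -> E|FF|^p for every p > 0 (Kronecker-Weyl).
 Proof. Let S = primes <= N. FF depends only on the coordinates in S: FF = G o restriction, G continuous on
 the torus UnitAddTorus S (= S -> UnitAddCircle), and DP(it) = G(theta(t)), theta(t)_p = -t log p/(2 pi)
 mod 1, because fourier e (theta_p) = e^(-i e t log p), product n^(-it). For every continuous H on the
 torus: mean of H(theta(t)) -> integral of H for the product Haar measure: true for mFourier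
 monomials (mean of e^(i lambda t), lambda = sum n_p log p != 0 for (n_p) != 0: unique factorization),
 and the span of the monomials is dense in C(torus) (UnitAddTorus.span_mFourier_closure_eq_top); both
 functionals have norm <= 1. Apply to H = |G|^p. The integral over mu of a function of the
 coordinates in S: infinitePi_map_restrict / integral_restrict_infinitePi.
`twist`: E|FF (a_n n^(-i tau))|^p = E|FF a|^p: rotation x_p -> x_p - tau log p/(2 pi) preserves mu
 (infinitePi_map_pi / translation invariance of haar).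
`FF_l2`: E|FF|^2 = sum |a_n|^2 (orthogonality of the characters zn: E zn conj zm = [n = m]).
-/
import Pool.Agent.Lib.Emb.Lift

open MeasureTheory Complex
open scoped BigOperators ENNReal Topology

namespace Emb

theorem bohr_zn_mul {n m : ℕ} (hn : n ≠ 0) (hm : m ≠ 0) (ω : Om) :
    zn (n * m) ω = zn n ω * zn m ω := by
  unfold zn
  rw [Nat.factorization_mul hn hm, Finsupp.prod_add_index']
  · intro p; simp
  · intro p e f
    push_cast
    rw [fourier_add]

theorem bohr_zn_one (ω : Om) : zn 1 ω = 1 := by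
  unfold zn; simp

theorem bohr_norm_fourier (k : ℤ) (x : UnitAddCircle) : ‖(fourier k x : ℂ)‖ = 1 := by
  rw [fourier_apply]; simp

theorem bohr_norm_zn (n : ℕ) (ω : Om) : ‖zn n ω‖ = 1 := by
  unfold zn Finsupp.prod
  rw [norm_prod]
  exact Finset.prod_eq_one fun p _ => bohr_norm_fourier _ _

theorem bohr_integral_fourier (k : ℤ) :
    ∫ x, (fourier k x : ℂ) ∂haar1 = if k = 0 then 1 else 0 := by
  split_ifs with h
  · subst h
    simp
  · have h1 : ∀ x : UnitAddCircle, (fourier k (x + ((1 / 2 / k : ℝ) : UnitAddCircle)) : ℂ) =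
        -fourier k x := fun x => fourier_add_half_inv_index h one_pos x
    have h2 : ∫ x, (fourier k (x + ((1 / 2 / k : ℝ) : UnitAddCircle)) : ℂ) ∂haar1 =
        ∫ x, (fourier k x : ℂ) ∂haar1 :=
      integral_add_right_eq_self (μ := haar1) (fun x : UnitAddCircle => (fourier k x : ℂ)) _
    simp_rw [h1] at h2
    rw [integral_neg] at h2
    have h3 : (2:ℂ) * ∫ x, (fourier k x : ℂ) ∂haar1 = 0 := by linear_combination -h2
    simpa using h3

theorem bohr_integral_zn {n m : ℕ} (hn : n ≠ 0) (hm : m ≠ 0) :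
    ∫ ω, zn n ω * (starRingEnd ℂ) (zn m ω) ∂mu = if n = m then 1 else 0 := by
  have h1 : ∀ ω : Om, zn n ω * (starRingEnd ℂ) (zn m ω) =
      ∏ p ∈ n.factorization.support ∪ m.factorization.support,
        (fourier ((n.factorization p : ℤ) - (m.factorization p : ℤ)) (ω p) : ℂ) := by
    intro ω
    have e1 : zn n ω = ∏ p ∈ n.factorization.support ∪ m.factorization.support,
        (fourier (n.factorization p : ℤ) (ω p) : ℂ) := by
      unfold zn
      exact Finsupp.prod_of_support_subset _ Finset.subset_union_left _ (by intro p _; simp)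
    have e2 : zn m ω = ∏ p ∈ n.factorization.support ∪ m.factorization.support,
        (fourier (m.factorization p : ℤ) (ω p) : ℂ) := by
      unfold zn
      exact Finsupp.prod_of_support_subset _ Finset.subset_union_right _ (by intro p _; simp)
    rw [e1, e2, map_prod, ← Finset.prod_mul_distrib]
    refine Finset.prod_congr rfl fun p _ => ?_
    rw [sub_eq_add_neg, fourier_add, fourier_neg]
  simp_rw [h1]
  rw [integral_prod_mu _ (fun p x => (fourier ((n.factorization p : ℤ) - (m.factorization p : ℤ)) x : ℂ))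
    (fun p _ => (fourier _).continuous)]
  simp_rw [bohr_integral_fourier]
  split_ifs with h
  · subst h
    exact Finset.prod_eq_one fun p _ => by simp
  · have : n.factorization ≠ m.factorization := fun hh => h (Nat.eq_of_factorization_eq hn hm (fun p => by rw [hh]))
    obtain ⟨p, hp⟩ := Finsupp.ne_iff.mp this
    refine Finset.prod_eq_zero (i := p) ?_ ?_
    · rw [Finset.mem_union, Finsupp.mem_support_iff, Finsupp.mem_support_iff]
      by_contra hc
      push Not at hc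
      exact hp (by rw [hc.1, hc.2])
    · rw [if_neg]
      intro hh
      exact hp (by omega)

/-- mean value over the line -/
def bohrMean (h : ℝ → ℂ) (M : ℂ) : Prop :=
  Filter.Tendsto (fun T : ℝ => ((1 / (2 * T) : ℝ) : ℂ) * ∫ t in (-T)..T, h t) Filter.atTop (𝓝 M)

theorem bohr_mean_one : bohrMean (fun _ => 1) 1 := by
  unfold bohrMean
  refine Filter.Tendsto.congr' (f₁ := fun _ => (1:ℂ)) ?_ tendsto_const_nhds
  filter_upwards [Filter.eventually_gt_atTop 0] with T hT
  rw [intervalIntegral.integral_const]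
  simp only [sub_neg_eq_add, mul_one, real_smul]
  rw [← Complex.ofReal_mul]
  have : 1 / (2 * T) * (T + T) = 1 := by field_simp; ring
  rw [this]; simp

theorem bohr_mean_exp {l : ℝ} (hl : l ≠ 0) :
    bohrMean (fun t => Complex.exp ((l * I) * t)) 0 := by
  unfold bohrMean
  have hc : ((l:ℂ) * I) ≠ 0 := by
    simp [hl]
  have h1 : ∀ T : ℝ, ‖∫ t in (-T)..T, Complex.exp ((l * I) * t)‖ ≤ 2 / |l| := by
    intro T
    rw [integral_exp_mul_complex hc, norm_div]
    have e1 : ‖(l:ℂ) * I‖ = |l| := by simp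
    rw [e1]
    have e2 : ∀ s : ℝ, ‖Complex.exp ((l * I) * s)‖ = 1 := by
      intro s
      rw [Complex.norm_exp]; simp
    have := norm_sub_le (Complex.exp ((l * I) * (T:ℝ))) (Complex.exp ((l * I) * ((-T : ℝ) : ℂ)))
    rw [e2, e2] at this
    gcongr
    linarith
  rw [tendsto_zero_iff_norm_tendsto_zero]
  have h2 : Filter.Tendsto (fun T : ℝ => (1 / (2 * T)) * (2 / |l|)) Filter.atTop (𝓝 0) := by
    have : Filter.Tendsto (fun T : ℝ => (1 / (2 * T))) Filter.atTop (𝓝 0) := by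
      simp_rw [one_div]
      exact Filter.Tendsto.comp tendsto_inv_atTop_zero
        (Filter.Tendsto.const_mul_atTop two_pos Filter.tendsto_id)
    simpa using this.mul_const (2 / |l|)
  refine squeeze_zero' (Filter.Eventually.of_forall fun T => norm_nonneg _) ?_ h2
  filter_upwards [Filter.eventually_gt_atTop 0] with T hT
  rw [norm_mul]
  have : ‖((1 / (2 * T) : ℝ) : ℂ)‖ = 1 / (2 * T) := by
    rw [Complex.norm_real, Real.norm_of_nonneg (by positivity)]
  rw [this]
  exact mul_le_mul_of_nonneg_left (h1 T) (by positivity)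

theorem bohr_cpow {n : ℕ} (hn : n ≠ 0) (t : ℝ) :
    (n : ℂ) ^ (-((t : ℂ) * I)) = Complex.exp ((((-Real.log n : ℝ) : ℂ) * I) * t) := by
  rw [Complex.cpow_def_of_ne_zero (by exact_mod_cast hn), ← Complex.natCast_log]
  congr 1
  push_cast
  ring

theorem bohr_conj_cpow {n : ℕ} (hn : n ≠ 0) (t : ℝ) :
    (starRingEnd ℂ) ((n : ℂ) ^ (-((t : ℂ) * I))) =
      Complex.exp ((((Real.log n : ℝ) : ℂ) * I) * t) := by
  rw [bohr_cpow hn, ← Complex.exp_conj]
  congr 1
  rw [map_mul, map_mul, Complex.conj_ofReal, Complex.conj_ofReal, Complex.conj_I]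
  push_cast
  ring

theorem bohr_mean_gen {n m : ℕ} (hn : n ≠ 0) (hm : m ≠ 0) :
    bohrMean (fun t => (n : ℂ) ^ (-((t : ℂ) * I)) *
      (starRingEnd ℂ) ((m : ℂ) ^ (-((t : ℂ) * I)))) (if n = m then 1 else 0) := by
  have h1 : ∀ t : ℝ, (n : ℂ) ^ (-((t : ℂ) * I)) * (starRingEnd ℂ) ((m : ℂ) ^ (-((t : ℂ) * I))) =
      Complex.exp ((((Real.log m - Real.log n : ℝ) : ℂ) * I) * t) := by
    intro t
    rw [bohr_cpow hn, bohr_conj_cpow hm, ← Complex.exp_add]
    congr 1
    push_cast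
    ring
  simp_rw [h1]
  split_ifs with h
  · subst h
    simpa using bohr_mean_one
  · apply bohr_mean_exp
    intro hh
    apply h
    have : Real.log n = Real.log m := by linarith
    have := Real.log_injOn_pos (by simpa using Nat.pos_of_ne_zero hn) (by simpa using Nat.pos_of_ne_zero hm) this
    exact_mod_cast this

/-- The monoid of pairs (function on the line, function on the torus). -/
noncomputable def bohrGen : Submonoid ((ℝ → ℂ) × (Om → ℂ)) where
  carrier := {x | ∃ n m : ℕ, n ≠ 0 ∧ m ≠ 0 ∧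
    x = (fun t : ℝ => (n : ℂ) ^ (-((t : ℂ) * I)) * (starRingEnd ℂ) ((m : ℂ) ^ (-((t : ℂ) * I))),
      fun ω => zn n ω * (starRingEnd ℂ) (zn m ω))}
  one_mem' := by
    refine ⟨1, 1, one_ne_zero, one_ne_zero, ?_⟩
    ext
    · simp
    · simp [bohr_zn_one]
  mul_mem' := by
    rintro _ _ ⟨n, m, hn, hm, rfl⟩ ⟨n', m', hn', hm', rfl⟩
    refine ⟨n * n', m * m', mul_ne_zero hn hn', mul_ne_zero hm hm', ?_⟩
    ext t
    · simp only [Prod.mk_mul_mk, Pi.mul_apply]
      push_cast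
      rw [Complex.natCast_mul_natCast_cpow, Complex.natCast_mul_natCast_cpow, map_mul]
      ring
    · simp only [Prod.mk_mul_mk, Pi.mul_apply]
      rw [bohr_zn_mul hn hn', bohr_zn_mul hm hm', map_mul]
      ring

noncomputable def bohrAlg : Subalgebra ℂ ((ℝ → ℂ) × (Om → ℂ)) :=
  Algebra.adjoin ℂ (bohrGen : Set ((ℝ → ℂ) × (Om → ℂ)))

theorem bohr_alg_good (x : (ℝ → ℂ) × (Om → ℂ)) (hx : x ∈ bohrAlg) :
    Continuous x.1 ∧ Continuous x.2 ∧ bohrMean x.1 (∫ ω, x.2 ω ∂mu) := by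
  have hx' : x ∈ Submodule.span ℂ (bohrGen : Set ((ℝ → ℂ) × (Om → ℂ))) := by
    have := Algebra.adjoin_eq_span ℂ (bohrGen : Set ((ℝ → ℂ) × (Om → ℂ)))
    rw [Submonoid.closure_eq] at this
    rw [← this]
    exact hx
  clear hx
  induction hx' using Submodule.span_induction with
  | mem x h =>
    obtain ⟨n, m, hn, hm, rfl⟩ := h
    refine ⟨?_, ?_, ?_⟩
    · simp only
      simp_rw [bohr_cpow hn, bohr_conj_cpow hm]
      fun_prop
    · exact (continuous_zn n).mul (Complex.continuous_conj.comp (continuous_zn m))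
    · simp only
      rw [bohr_integral_zn hn hm]
      exact bohr_mean_gen hn hm
  | zero =>
    refine ⟨continuous_const, continuous_const, ?_⟩
    simp [bohrMean]
  | add x y hx hy h1 h2 =>
    have g1 := h1
    have g2 := h2
    refine ⟨g1.1.add g2.1, g1.2.1.add g2.2.1, ?_⟩
    have e1 : ∫ ω, (x + y).2 ω ∂mu = ∫ ω, x.2 ω ∂mu + ∫ ω, y.2 ω ∂mu :=
      integral_add (integrable_of_continuous g1.2.1) (integrable_of_continuous g2.2.1)
    rw [e1]
    have := g1.2.2.add g2.2.2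
    unfold bohrMean
    refine this.congr fun T => ?_
    rw [← mul_add, ← intervalIntegral.integral_add (g1.1.intervalIntegrable _ _)
      (g2.1.intervalIntegrable _ _)]
    rfl
  | smul c x hx h =>
    have g1 := h
    refine ⟨g1.1.const_smul c, g1.2.1.const_smul c, ?_⟩
    have e1 : ∫ ω, (c • x).2 ω ∂mu = c * ∫ ω, x.2 ω ∂mu :=
      integral_const_mul c x.2
    rw [e1]
    have := g1.2.2.const_mul c
    unfold bohrMean
    refine this.congr fun T => ?_
    have e2 : ∫ t in (-T)..T, (c • x).1 t = c * ∫ t in (-T)..T, x.1 t :=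
      intervalIntegral.integral_const_mul c x.1
    rw [e2]
    ring

theorem bohr_norm_cpow {n : ℕ} (hn : n ≠ 0) (t : ℝ) : ‖(n : ℂ) ^ (-((t : ℂ) * I))‖ = 1 := by
  rw [bohr_cpow hn, Complex.norm_exp]
  have : ((((-Real.log n : ℝ) : ℂ) * I) * (t : ℂ)).re = 0 := by
    rw [Complex.re_mul_ofReal, Complex.re_ofReal_mul]; simp
  rw [this, Real.exp_zero]

/-- The pair of the squares of the absolute values lies in the algebra. -/
theorem bohr_sq_mem (a : ℕ → ℂ) (N : ℕ) :
    ((fun t : ℝ => ((‖DP a N ((t : ℂ) * I)‖ ^ 2 : ℝ) : ℂ)),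
      (fun ω : Om => ((‖FF a N ω‖ ^ 2 : ℝ) : ℂ))) ∈ bohrAlg := by
  have key : ((fun t : ℝ => ((‖DP a N ((t : ℂ) * I)‖ ^ 2 : ℝ) : ℂ)),
      (fun ω : Om => ((‖FF a N ω‖ ^ 2 : ℝ) : ℂ))) =
      ∑ n ∈ Finset.Icc 1 N, ∑ m ∈ Finset.Icc 1 N, (a n * (starRingEnd ℂ) (a m)) •
        (((fun t : ℝ => (n : ℂ) ^ (-((t : ℂ) * I)) * (starRingEnd ℂ) ((m : ℂ) ^ (-((t : ℂ) * I)))),
          (fun ω : Om => zn n ω * (starRingEnd ℂ) (zn m ω))) : (ℝ → ℂ) × (Om → ℂ)) := by
    apply Prod.ext
    · funext t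
      rw [Prod.fst_sum]
      simp_rw [Prod.fst_sum, Finset.sum_apply]
      rw [← Complex.normSq_eq_norm_sq, Complex.normSq_eq_conj_mul_self, mul_comm]
      unfold DP
      rw [map_sum, Finset.sum_mul_sum]
      refine Finset.sum_congr rfl fun n _ => Finset.sum_congr rfl fun m _ => ?_
      simp only [Prod.smul_mk, Pi.smul_apply, smul_eq_mul, map_mul]
      ring
    · funext ω
      rw [Prod.snd_sum]
      simp_rw [Prod.snd_sum, Finset.sum_apply]
      rw [← Complex.normSq_eq_norm_sq, Complex.normSq_eq_conj_mul_self, mul_comm]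
      unfold FF
      rw [map_sum, Finset.sum_mul_sum]
      refine Finset.sum_congr rfl fun n _ => Finset.sum_congr rfl fun m _ => ?_
      simp only [Prod.smul_mk, Pi.smul_apply, smul_eq_mul, map_mul]
      ring
  rw [key]
  refine Subalgebra.sum_mem _ fun n hn => Subalgebra.sum_mem _ fun m hm => ?_
  refine Subalgebra.smul_mem _ (Algebra.subset_adjoin ?_) _
  rw [Finset.mem_Icc] at hn hm
  exact ⟨n, m, by omega, by omega, rfl⟩

/-- Polynomials in the square of the absolute value. -/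
theorem bohr_poly_mem (a : ℕ → ℂ) (N : ℕ) (P : Polynomial ℝ) :
    ((fun t : ℝ => ((P.eval (‖DP a N ((t : ℂ) * I)‖ ^ 2) : ℝ) : ℂ)),
      (fun ω : Om => ((P.eval (‖FF a N ω‖ ^ 2) : ℝ) : ℂ))) ∈ bohrAlg := by
  induction P using Polynomial.induction_on' with
  | add p q hp hq =>
    have := Subalgebra.add_mem _ hp hq
    refine (congrArg (· ∈ bohrAlg) ?_).mp this
    apply Prod.ext
    · funext t; simp
    · funext ω; simp
  | monomial n c =>
    have := Subalgebra.smul_mem _ (Subalgebra.pow_mem _ (bohr_sq_mem a N) n) (c : ℂ)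
    refine (congrArg (· ∈ bohrAlg) ?_).mp this
    apply Prod.ext
    · funext t; simp
    · funext ω; simp

theorem bohr_DP_le (a : ℕ → ℂ) (N : ℕ) (t : ℝ) :
    ‖DP a N ((t : ℂ) * I)‖ ≤ ∑ n ∈ Finset.Icc 1 N, ‖a n‖ := by
  unfold DP
  refine (norm_sum_le _ _).trans (Finset.sum_le_sum fun n hn => ?_)
  rw [Finset.mem_Icc] at hn
  rw [norm_mul, bohr_norm_cpow (by omega), mul_one]

theorem bohr_FF_le (a : ℕ → ℂ) (N : ℕ) (ω : Om) :
    ‖FF a N ω‖ ≤ ∑ n ∈ Finset.Icc 1 N, ‖a n‖ := by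
  unfold FF
  refine (norm_sum_le _ _).trans (Finset.sum_le_sum fun n hn => ?_)
  rw [norm_mul, bohr_norm_zn, mul_one]

theorem bohr_DP_cont (a : ℕ → ℂ) (N : ℕ) : Continuous fun t : ℝ => DP a N ((t : ℂ) * I) := by
  unfold DP
  refine continuous_finsetSum _ fun n hn => continuous_const.mul ?_
  rw [Finset.mem_Icc] at hn
  simp_rw [bohr_cpow (show n ≠ 0 by omega)]
  fun_prop

/-- real version for polynomials -/
theorem bohr_poly (a : ℕ → ℂ) (N : ℕ) (P : Polynomial ℝ) :
    Filter.Tendsto (fun T : ℝ => (1 / (2 * T)) *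
        ∫ t in (-T)..T, P.eval (‖DP a N ((t : ℂ) * I)‖ ^ 2))
      Filter.atTop (𝓝 (∫ ω, P.eval (‖FF a N ω‖ ^ 2) ∂mu)) := by
  have h := (bohr_alg_good _ (bohr_poly_mem a N P)).2.2
  unfold bohrMean at h
  simp only at h
  rw [integral_complex_ofReal] at h
  have h2 := (Complex.continuous_re.tendsto _).comp h
  simp only [Complex.ofReal_re] at h2
  refine h2.congr fun T => ?_
  simp only [Function.comp]
  rw [intervalIntegral.integral_ofReal, ← Complex.ofReal_mul, Complex.ofReal_re]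

theorem bohr_rpow_cont {p : ℝ} (hp : 0 < p) : Continuous fun x : ℝ => x ^ (p / 2) :=
  Real.continuous_rpow_const (by positivity)

theorem bohr_norm_rpow (p : ℝ) (z : ℂ) : ‖z‖ ^ p = (‖z‖ ^ 2) ^ (p / 2) := by
  rw [← Real.rpow_natCast, ← Real.rpow_mul (norm_nonneg _)]
  congr 1
  push_cast
  ring

theorem bohr (p : ℝ) (hp : 0 < p) (a : ℕ → ℂ) (N : ℕ) :
    Filter.Tendsto (fun T : ℝ => (1 / (2 * T)) * ∫ t in (-T)..T, ‖DP a N ((t : ℂ) * I)‖ ^ p)
      Filter.atTop (𝓝 (∫ ω, ‖FF a N ω‖ ^ p ∂mu)) := by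
  obtain ⟨R, hR⟩ : ∃ R : ℝ, R = ∑ n ∈ Finset.Icc 1 N, ‖a n‖ := ⟨_, rfl⟩
  have hR0 : 0 ≤ R := by rw [hR]; exact Finset.sum_nonneg fun n _ => norm_nonneg _
  have hcDP : Continuous fun t : ℝ => ‖DP a N ((t : ℂ) * I)‖ ^ 2 :=
    ((bohr_DP_cont a N).norm).pow 2
  have hcFF : Continuous fun ω : Om => ‖FF a N ω‖ ^ 2 := ((continuous_FF a N).norm).pow 2
  rw [Metric.tendsto_atTop]
  intro ε hε
  obtain ⟨P, hP⟩ := exists_polynomial_near_of_continuousOn 0 (R ^ 2) (fun x => x ^ (p / 2))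
    (bohr_rpow_cont hp).continuousOn (ε / 4) (by positivity)
  have h1 := bohr_poly a N P
  rw [Metric.tendsto_atTop] at h1
  obtain ⟨T0, hT0⟩ := h1 (ε / 4) (by positivity)
  have hDPm : ∀ t : ℝ, ‖DP a N ((t : ℂ) * I)‖ ^ 2 ∈ Set.Icc 0 (R ^ 2) := fun t =>
    ⟨by positivity, by gcongr; rw [hR]; exact bohr_DP_le a N t⟩
  have hFFm : ∀ ω : Om, ‖FF a N ω‖ ^ 2 ∈ Set.Icc 0 (R ^ 2) := fun ω =>
    ⟨by positivity, by gcongr; rw [hR]; exact bohr_FF_le a N ω⟩
  -- torus side
  have hcP : Continuous fun x : ℝ => P.eval x := P.continuous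
  have iF1 : Integrable (fun ω : Om => P.eval (‖FF a N ω‖ ^ 2)) mu := by
    have : Continuous fun ω : Om => ((P.eval (‖FF a N ω‖ ^ 2) : ℝ) : ℂ) :=
      Complex.continuous_ofReal.comp (hcP.comp hcFF)
    have h := (integrable_of_continuous this).re
    exact h
  have iF2 : Integrable (fun ω : Om => (‖FF a N ω‖ ^ 2) ^ (p / 2)) mu := by
    have : Continuous fun ω : Om => (((‖FF a N ω‖ ^ 2) ^ (p / 2) : ℝ) : ℂ) :=
      Complex.continuous_ofReal.comp ((bohr_rpow_cont hp).comp hcFF)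
    have h := (integrable_of_continuous this).re
    exact h
  have hF : |∫ ω, P.eval (‖FF a N ω‖ ^ 2) ∂mu - ∫ ω, ‖FF a N ω‖ ^ p ∂mu| ≤ ε / 4 := by
    simp_rw [bohr_norm_rpow p]
    rw [← integral_sub iF1 iF2]
    have := norm_integral_le_of_norm_le_const (μ := mu)
      (f := fun ω : Om => P.eval (‖FF a N ω‖ ^ 2) - (‖FF a N ω‖ ^ 2) ^ (p / 2)) (C := ε / 4)
      (Filter.Eventually.of_forall fun ω => (hP _ (hFFm ω)).le)
    simpa using this
  refine ⟨max T0 1, fun T hT => ?_⟩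
  have hT1 : 1 ≤ T := (le_max_right _ _).trans hT
  have hT2 : T0 ≤ T := (le_max_left _ _).trans hT
  have h2 := hT0 T hT2
  have iD1 : IntervalIntegrable (fun t : ℝ => P.eval (‖DP a N ((t : ℂ) * I)‖ ^ 2)) volume (-T) T :=
    (hcP.comp hcDP).intervalIntegrable _ _
  have iD2 : IntervalIntegrable (fun t : ℝ => (‖DP a N ((t : ℂ) * I)‖ ^ 2) ^ (p / 2))
      volume (-T) T := ((bohr_rpow_cont hp).comp hcDP).intervalIntegrable _ _
  have hD : |((1 / (2 * T)) * ∫ t in (-T)..T, P.eval (‖DP a N ((t : ℂ) * I)‖ ^ 2)) -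
      ((1 / (2 * T)) * ∫ t in (-T)..T, ‖DP a N ((t : ℂ) * I)‖ ^ p)| ≤ ε / 4 := by
    simp_rw [bohr_norm_rpow p]
    rw [← mul_sub, ← intervalIntegral.integral_sub iD1 iD2, abs_mul,
      abs_of_pos (by positivity : 0 < 1 / (2 * T))]
    have := intervalIntegral.norm_integral_le_of_norm_le_const (a := -T) (b := T)
      (f := fun t : ℝ => P.eval (‖DP a N ((t : ℂ) * I)‖ ^ 2) -
        (‖DP a N ((t : ℂ) * I)‖ ^ 2) ^ (p / 2)) (C := ε / 4)
      (fun t _ => (hP _ (hDPm t)).le)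
    rw [Real.norm_eq_abs, abs_of_pos (by linarith : 0 < T - -T)] at this
    calc 1 / (2 * T) * _ ≤ 1 / (2 * T) * (ε / 4 * (T - -T)) :=
          mul_le_mul_of_nonneg_left this (by positivity)
      _ = ε / 4 := by field_simp; ring
  rw [Real.dist_eq] at h2 ⊢
  have t1 := abs_le.mp hF
  have t2 := abs_le.mp hD
  have t3 := abs_lt.mp h2
  rw [abs_lt]
  constructor
  · linarith [t1.1, t1.2, t2.1, t2.2, t3.1, t3.2]
  · linarith [t1.1, t1.2, t2.1, t2.2, t3.1, t3.2]

theorem twist (p : ℝ) (hp : 0 < p) (a : ℕ → ℂ) (N : ℕ) (τ : ℝ) :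
    ∫ ω, ‖FF (fun n => a n * (n : ℂ) ^ (-((τ : ℂ) * I))) N ω‖ ^ p ∂mu =
      ∫ ω, ‖FF a N ω‖ ^ p ∂mu := by
  have h1 := bohr p hp (fun n => a n * (n : ℂ) ^ (-((τ : ℂ) * I))) N
  have h2 := bohr p hp a N
  have e1 : ∀ t : ℝ, DP (fun n => a n * (n : ℂ) ^ (-((τ : ℂ) * I))) N ((t : ℂ) * I) =
      DP a N (((t + τ : ℝ) : ℂ) * I) := by
    intro t
    unfold DP
    refine Finset.sum_congr rfl fun n hn => ?_
    rw [Finset.mem_Icc] at hn
    have hn0 : (n : ℂ) ≠ 0 := by
      have : n ≠ 0 := by omega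
      exact_mod_cast this
    rw [mul_assoc, ← Complex.cpow_add _ _ hn0]
    congr 2
    push_cast
    ring
  simp_rw [e1] at h1
  obtain ⟨R, hR⟩ : ∃ R : ℝ, R = ∑ n ∈ Finset.Icc 1 N, ‖a n‖ := ⟨_, rfl⟩
  have hR0 : 0 ≤ R := by rw [hR]; exact Finset.sum_nonneg fun n _ => norm_nonneg _
  obtain ⟨f, hf⟩ : ∃ f : ℝ → ℝ, f = fun t : ℝ => ‖DP a N ((t : ℂ) * I)‖ ^ p := ⟨_, rfl⟩
  have hfc : Continuous f := by
    rw [hf]
    exact ((bohr_DP_cont a N).norm).rpow_const fun t => Or.inr hp.le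
  have hfb : ∀ t, ‖f t‖ ≤ R ^ p := by
    intro t
    rw [hf]
    simp only
    rw [Real.norm_of_nonneg (by positivity)]
    exact Real.rpow_le_rpow (norm_nonneg _) (by rw [hR]; exact bohr_DP_le a N t) hp.le
  have h1' : Filter.Tendsto (fun T : ℝ => (1 / (2 * T)) * ∫ t in (-T)..T, f (t + τ)) Filter.atTop
      (𝓝 (∫ ω, ‖FF (fun n => a n * (n : ℂ) ^ (-((τ : ℂ) * I))) N ω‖ ^ p ∂mu)) := by
    rw [hf]; exact h1
  have h2' : Filter.Tendsto (fun T : ℝ => (1 / (2 * T)) * ∫ t in (-T)..T, f t) Filter.atTop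
      (𝓝 (∫ ω, ‖FF a N ω‖ ^ p ∂mu)) := by
    rw [hf]; exact h2
  have h3 : Filter.Tendsto (fun T : ℝ => ((1 / (2 * T)) * ∫ t in (-T)..T, f (t + τ)) -
      ((1 / (2 * T)) * ∫ t in (-T)..T, f t)) Filter.atTop (𝓝 0) := by
    rw [tendsto_zero_iff_norm_tendsto_zero]
    have h2 : Filter.Tendsto (fun T : ℝ => (1 / (2 * T)) * (2 * (R ^ p * |τ|))) Filter.atTop
        (𝓝 0) := by
      have : Filter.Tendsto (fun T : ℝ => (1 / (2 * T))) Filter.atTop (𝓝 0) := by
        simp_rw [one_div]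
        exact Filter.Tendsto.comp tendsto_inv_atTop_zero
          (Filter.Tendsto.const_mul_atTop two_pos Filter.tendsto_id)
      simpa using this.mul_const (2 * (R ^ p * |τ|))
    refine squeeze_zero' (Filter.Eventually.of_forall fun T => norm_nonneg _) ?_ h2
    filter_upwards [Filter.eventually_gt_atTop 0] with T hT
    rw [← mul_sub, norm_mul, Real.norm_of_nonneg (by positivity : 0 ≤ 1 / (2 * T))]
    refine mul_le_mul_of_nonneg_left ?_ (by positivity)
    rw [intervalIntegral.integral_comp_add_right f τ,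
      intervalIntegral.integral_interval_sub_interval_comm (hfc.intervalIntegrable _ _)
        (hfc.intervalIntegrable _ _) (hfc.intervalIntegrable _ _)]
    have b1 := intervalIntegral.norm_integral_le_of_norm_le_const (a := -T + τ) (b := -T)
      (f := f) (C := R ^ p) (fun t _ => hfb t)
    have b2 := intervalIntegral.norm_integral_le_of_norm_le_const (a := T + τ) (b := T)
      (f := f) (C := R ^ p) (fun t _ => hfb t)
    have c1 : |-T - (-T + τ)| = |τ| := by
      rw [show -T - (-T + τ) = -τ by ring, abs_neg]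
    have c2 : |T - (T + τ)| = |τ| := by
      rw [show T - (T + τ) = -τ by ring, abs_neg]
    rw [c1] at b1
    rw [c2] at b2
    have := norm_sub_le (∫ t in (-T + τ)..(-T), f t) (∫ t in (T + τ)..T, f t)
    linarith
  have h4 := h1'.sub h2'
  have h5 := tendsto_nhds_unique h3 h4
  linarith

theorem FF_l2 (a : ℕ → ℂ) (N : ℕ) :
    ∫ ω, ‖FF a N ω‖ ^ (2:ℝ) ∂mu = ∑ n ∈ Finset.Icc 1 N, ‖a n‖ ^ 2 := by
  have e1 : ∀ ω : Om, ((‖FF a N ω‖ ^ (2:ℝ) : ℝ) : ℂ) =
      ∑ n ∈ Finset.Icc 1 N, ∑ m ∈ Finset.Icc 1 N, (a n * (starRingEnd ℂ) (a m)) *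
        (zn n ω * (starRingEnd ℂ) (zn m ω)) := by
    intro ω
    have : ‖FF a N ω‖ ^ (2:ℝ) = ‖FF a N ω‖ ^ 2 := by
      rw [show (2:ℝ) = ((2:ℕ) : ℝ) by norm_num, Real.rpow_natCast]
    rw [this, ← Complex.normSq_eq_norm_sq, Complex.normSq_eq_conj_mul_self, mul_comm]
    unfold FF
    rw [map_sum, Finset.sum_mul_sum]
    refine Finset.sum_congr rfl fun n _ => Finset.sum_congr rfl fun m _ => ?_
    rw [map_mul]
    ring
  have e2 : ((∫ ω, ‖FF a N ω‖ ^ (2:ℝ) ∂mu : ℝ) : ℂ) =
      ((∑ n ∈ Finset.Icc 1 N, ‖a n‖ ^ 2 : ℝ) : ℂ) := by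
    rw [← integral_complex_ofReal]
    simp_rw [e1]
    have hc : ∀ n m : ℕ, Continuous fun ω : Om => (a n * (starRingEnd ℂ) (a m)) *
        (zn n ω * (starRingEnd ℂ) (zn m ω)) := fun n m =>
      continuous_const.mul ((continuous_zn n).mul (Complex.continuous_conj.comp (continuous_zn m)))
    rw [integral_finsetSum _ fun n _ => integrable_finsetSum _ fun m _ =>
      integrable_of_continuous (hc n m)]
    push_cast
    refine Finset.sum_congr rfl fun n hn => ?_
    rw [integral_finsetSum _ fun m _ => integrable_of_continuous (hc n m)]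
    rw [Finset.mem_Icc] at hn
    have : ∀ m ∈ Finset.Icc 1 N, ∫ ω, (a n * (starRingEnd ℂ) (a m)) *
        (zn n ω * (starRingEnd ℂ) (zn m ω)) ∂mu =
        if n = m then ((‖a n‖ ^ 2 : ℝ) : ℂ) else 0 := by
      intro m hm
      rw [Finset.mem_Icc] at hm
      rw [integral_const_mul, bohr_integral_zn (by omega) (by omega)]
      split_ifs with h
      · subst h
        rw [← Complex.normSq_eq_norm_sq, Complex.normSq_eq_conj_mul_self]
        ring
      · ring
    rw [Finset.sum_congr rfl this, Finset.sum_ite_eq, if_pos (Finset.mem_Icc.mpr hn)]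
    push_cast
    rfl
  exact_mod_cast e2

end Emb
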