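import Pool.Agent.Lib.Emb.ExpD

/-!
# Chunk C: the core estimate

Put `κ = s - 1`, `c = (1 + 1/κ)/4` (so `1/2 < c` and `c κ = (1+κ)/4 < 1/2`), `η = 1/4`,
`L(ω) = ∑_{j<n-l0} DD_j`, `Y(ω) = ∑_l ∫_cell a_l 2^l muL^s Th`.

`young`: for `0 < L < ∞`: `Y^{1/s} ≤ L + Y L^{-κ}`; with a scaling parameter `λ > 0`:
`Y^{1/s} ≤ λ L + Y (λ L)^{-κ}`.

`second`: `∫ Y L^{-κ} ≤ C ∑_l ∫_cell a_l`: `L ≥ Lam_{l-l0}(t)` (`path_Lam`), Tonelli, and
`E[2^l muL^s Th Lam^{-κ}] = E_t[(muL/Lam)^κ Th] = (1+j)^{cκ} E_t[rho^κ Th] ≤ C (1+j)^{cκ-β} ≤ C`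
with `β = (1+κ)/4 < 1/2` (`key1`).

`core`: `A = ∑_l ∫_cell a_l`. If `A = 0` then `Y = 0` a.e. Otherwise (and if `A = ∞` the right side
is `∞`) take `λ = (A 2^{l0})^{1/s}`:
`E Y^{1/s} ≤ λ C 2^{-l0} + λ^{-κ} C A = 2 C A^{1/s} 2^{-l0 (1-1/s)}` as `1 - κ/s = 1/s`, i.e.
`λ^{-κ} A = A^{1 - κ/s} 2^{-l0 κ/s} = A^{1/s} (2^{-l0})^{1-1/s}`.
-/

open MeasureTheory Complex ProbabilityTheory
open scoped BigOperators ENNReal

namespace Emb

theorem young (s : ℝ) (hs1 : 1 < s) (Y L lam : ℝ≥0∞) (hL0 : L ≠ 0)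
    (hlam0 : lam ≠ 0) (hlam : lam ≠ ∞) :
    Y ^ (1 / s) ≤ lam * L + lam ^ (-(s - 1)) * (Y * L ^ (-(s - 1))) := by
  have hs0 : 0 < s := by linarith
  by_cases hL : L = ∞
  · rw [hL, ENNReal.mul_top hlam0, top_add]
    exact le_top
  by_cases hle : Y ^ (1 / s) ≤ lam * L
  · exact hle.trans le_self_add
  push Not at hle
  have hM0 : lam * L ≠ 0 := mul_ne_zero hlam0 hL0
  have hMt : lam * L ≠ ∞ := ENNReal.mul_ne_top hlam hL
  have hmul : lam ^ (-(s - 1)) * (Y * L ^ (-(s - 1))) = Y * (lam * L) ^ (-(s - 1)) := by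
    rw [ENNReal.mul_rpow_of_ne_top hlam hL]
    ring
  rw [hmul]
  by_cases hY : Y = ∞
  · have h1 : (lam * L) ^ (-(s - 1)) ≠ 0 := by
      rw [Ne, ENNReal.rpow_eq_zero_iff]
      push Not
      exact ⟨fun h => absurd h hM0, fun h => absurd h hMt⟩
    rw [hY, ENNReal.top_mul h1]
    simp
  have hY0 : Y ≠ 0 := by
    rintro rfl
    rw [ENNReal.zero_rpow_of_pos (by positivity)] at hle
    exact absurd hle (by simp)
  have h2 : Y ^ (1 / s) = Y * (Y ^ (1 / s)) ^ (-(s - 1)) := by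
    rw [← ENNReal.rpow_mul]
    nth_rewrite 2 [← ENNReal.rpow_one Y]
    rw [← ENNReal.rpow_add _ _ hY0 hY]
    congr 1
    field_simp
    ring
  rw [h2]
  refine le_add_left (mul_le_mul_right ?_ _)
  rw [ENNReal.rpow_neg, ENNReal.rpow_neg, ENNReal.inv_le_inv]
  exact ENNReal.rpow_le_rpow hle.le (by linarith)

theorem meas_sec1 {E F G : Type} [MeasurableSpace E] [MeasurableSpace F] [MeasurableSpace G]
    (f : E → F → G) (h : Measurable (fun z : E × F => f z.1 z.2)) (y : F) :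
    Measurable (fun x => f x y) :=
  h.comp (measurable_id.prodMk measurable_const)

theorem meas_sec2 {E F G : Type} [MeasurableSpace E] [MeasurableSpace F] [MeasurableSpace G]
    (f : E → F → G) (h : Measurable (fun z : E × F => f z.1 z.2)) (x : E) :
    Measurable (fun y => f x y) :=
  h.comp (measurable_const.prodMk measurable_id)

theorem tonelli_gen (a : ℝ → ℝ≥0∞) (ha : Measurable a) (H : ℝ → Om → ℝ≥0∞)
    (hH : Measurable (fun z : ℝ × Om => H z.1 z.2)) (Q : Set ℝ) :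
    Measurable (fun ω => ∫⁻ t in Q, a t * H t ω) ∧
    ∫⁻ ω, (∫⁻ t in Q, a t * H t ω) ∂mu = ∫⁻ t in Q, (∫⁻ ω, a t * H t ω ∂mu) := by
  have h1 : Measurable (fun z : Om × ℝ => a z.2 * H z.2 z.1) :=
    (ha.comp measurable_snd).mul (hH.comp measurable_swap)
  exact ⟨h1.lintegral_prod_right', lintegral_lintegral_swap h1.aemeasurable⟩

/-- The kernel inside `second`. -/
noncomputable def HH (s : ℝ) (l0 l : ℕ) (t : ℝ) (ω : Om) : ℝ≥0∞ :=
    ENNReal.ofReal ((1 + ((l - l0 : ℕ) : ℝ)) ^ (s / 4)) * (ENNReal.ofReal (dd (pr l) t ω) *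
      ENNReal.ofReal (rho ((1 + 1 / (s - 1)) / 4) l0 (l - l0) t ω ^ (s - 1) *
        Th (l0 + (l - l0)) t ω))

theorem measurable_HH (s : ℝ) (l0 l : ℕ) :
    Measurable (fun z : ℝ × Om => HH s l0 l z.1 z.2) := by
  have h1 : Measurable (fun z : ℝ × Om => dd (pr l) z.1 z.2) :=
    (continuous_dd (fun p hp => pr_prime hp)).measurable
  have h2 : Measurable (fun z : ℝ × Om =>
      rho ((1 + 1 / (s - 1)) / 4) l0 (l - l0) z.1 z.2) := (continuous_rho _ l0 (l - l0)).measurable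
  have h3 : Measurable (fun z : ℝ × Om => Th (l0 + (l - l0)) z.1 z.2) :=
    (continuous_Th _).measurable
  have h4 : Measurable (fun z : ℝ × Om => rho ((1 + 1 / (s - 1)) / 4) l0 (l - l0) z.1 z.2 ^ (s - 1) *
      Th (l0 + (l - l0)) z.1 z.2) := (h2.pow_const _).mul h3
  exact (h1.ennreal_ofReal.mul h4.ennreal_ofReal).const_mul _

/-- Pointwise form of the bound inside `second`. -/
theorem second_pt (s : ℝ) (hs1 : 1 < s) (l0 i0 n l : ℕ) (hl : l ∈ Finset.Ico l0 n) (t : ℝ)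
    (ht : t ∈ cell l0 i0) (ω : Om) :
    ENNReal.ofReal (2 ^ l * muL l t ω ^ s * Th l t ω) *
      (∑ j ∈ Finset.range (n - l0), DD ((1 + 1 / (s - 1)) / 4) (1 / 4) l0 i0 j ω) ^ (-(s - 1)) ≤
    ENNReal.ofReal ((1 + ((l - l0 : ℕ) : ℝ)) ^ (s / 4)) * (ENNReal.ofReal (dd (pr l) t ω) *
      ENNReal.ofReal (rho ((1 + 1 / (s - 1)) / 4) l0 (l - l0) t ω ^ (s - 1) *
        Th (l0 + (l - l0)) t ω)) := by
  obtain ⟨hl1, hl2⟩ := Finset.mem_Ico.mp hl
  set j := l - l0 with hj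
  have hlj : l0 + j = l := by omega
  set c := (1 + 1 / (s - 1)) / 4 with hc
  have hκ : 0 < s - 1 := by linarith
  have hc0 : 0 ≤ c := by rw [hc]; positivity
  have hL := path_Lam c (1 / 4) hc0 (by norm_num) le_rfl l0 i0 j t ht ω
  have hsub : ∑ i ∈ Finset.range (j + 1), DD c (1 / 4) l0 i0 i ω ≤
      ∑ i ∈ Finset.range (n - l0), DD c (1 / 4) l0 i0 i ω :=
    Finset.sum_le_sum_of_subset (Finset.range_mono (by omega))
  have hL2 := hL.trans hsub
  have hLp := Lam_pos c l0 j t ω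
  have hmp := muL_pos l t ω
  have hTh := one_le_Th l t ω
  have hjp : (0 : ℝ) < 1 + (j : ℝ) := by positivity
  have h1 : (∑ i ∈ Finset.range (n - l0), DD c (1 / 4) l0 i0 i ω) ^ (-(s - 1)) ≤
      ENNReal.ofReal (Lam c l0 j t ω ^ (-(s - 1))) := by
    rw [← ENNReal.ofReal_rpow_of_pos hLp, ENNReal.rpow_neg, ENNReal.rpow_neg, ENNReal.inv_le_inv]
    exact ENNReal.rpow_le_rpow hL2 hκ.le
  refine (mul_le_mul_right h1 _).trans (le_of_eq ?_)
  have hdd : dd (pr l) t ω = 2 ^ l * muL l t ω := by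
    unfold muL
    rw [← mul_assoc, mul_inv_cancel₀ (by positivity), one_mul]
  have hddp : 0 ≤ dd (pr l) t ω := by rw [hdd]; positivity
  rw [← ENNReal.ofReal_mul (by positivity), ← ENNReal.ofReal_mul hddp,
    ← ENNReal.ofReal_mul (by positivity)]
  congr 1
  rw [hlj, hdd]
  unfold rho
  rw [hlj, Real.div_rpow hmp.le (by positivity), Real.mul_rpow (by positivity) hLp.le,
    ← Real.rpow_mul hjp.le, Real.rpow_neg hLp.le]
  have h2 : c * (s - 1) = s / 4 := by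
    rw [hc]
    field_simp
    ring
  rw [h2]
  have h3 : muL l t ω ^ s = muL l t ω * muL l t ω ^ (s - 1) := by
    rw [Real.rpow_sub_one hmp.ne']
    field_simp
  rw [h3]
  have h4 : (0 : ℝ) < (1 + (j : ℝ)) ^ (s / 4) := Real.rpow_pos_of_pos hjp _
  have h5 : (0 : ℝ) < Lam c l0 j t ω ^ (s - 1) := Real.rpow_pos_of_pos hLp _
  field_simp

theorem second (s : ℝ) (hs1 : 1 < s) (hs2 : s < 2) :
    ∃ C : ℝ, 0 < C ∧ ∀ (l0 i0 n : ℕ), ∀ a : ℕ → ℝ → ℝ≥0∞, (∀ l, Measurable (a l)) →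
      ∫⁻ ω, (∑ l ∈ Finset.Ico l0 n, ∫⁻ t in cell l0 i0,
          a l t * ENNReal.ofReal (2 ^ l * muL l t ω ^ s * Th l t ω)) *
          (∑ j ∈ Finset.range (n - l0), DD ((1 + 1 / (s - 1)) / 4) (1 / 4) l0 i0 j ω)
            ^ (-(s - 1)) ∂mu
        ≤ ENNReal.ofReal C * ∑ l ∈ Finset.Ico l0 n, ∫⁻ t in cell l0 i0, a l t := by
  have hκ : 0 < s - 1 := by linarith
  obtain ⟨C, hC, hkey⟩ := key1 ((1 + 1 / (s - 1)) / 4) (s - 1) (s / 4) (by positivity) hκ
    (by linarith) (by linarith)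
  refine ⟨C, hC, fun l0 i0 n a ha => ?_⟩
  have hcell : MeasurableSet (cell l0 i0) := by
    unfold cell
    exact measurableSet_Ico
  have hFm : ∀ l, ∀ ω : Om, Measurable (fun t : ℝ =>
      a l t * ENNReal.ofReal (2 ^ l * muL l t ω ^ s * Th l t ω)) := by
    intro l ω
    have h1 : Measurable (fun t : ℝ => muL l t ω) :=
      meas_sec1 (muL l) (continuous_muL l).measurable ω
    have h3 : Measurable (fun t : ℝ => Th l t ω) :=
      meas_sec1 (Th l) (continuous_Th l).measurable ω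
    exact (ha l).mul (((h1.pow_const s).const_mul _).mul h3).ennreal_ofReal
  -- pointwise bound
  have hpt : ∀ ω : Om, (∑ l ∈ Finset.Ico l0 n, ∫⁻ t in cell l0 i0,
          a l t * ENNReal.ofReal (2 ^ l * muL l t ω ^ s * Th l t ω)) *
          (∑ j ∈ Finset.range (n - l0), DD ((1 + 1 / (s - 1)) / 4) (1 / 4) l0 i0 j ω)
            ^ (-(s - 1)) ≤
      ∑ l ∈ Finset.Ico l0 n, ∫⁻ t in cell l0 i0, a l t * HH s l0 l t ω := by
    intro ω
    rw [Finset.sum_mul]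
    apply Finset.sum_le_sum
    intro l hl
    rw [← lintegral_mul_const _ (hFm l ω)]
    apply setLIntegral_mono' hcell
    intro t ht
    rw [mul_assoc]
    exact mul_le_mul_right (second_pt s hs1 l0 i0 n l hl t ht ω) _
  have hin : ∀ l ∈ Finset.Ico l0 n, ∀ t, ∫⁻ ω, HH s l0 l t ω ∂mu ≤ ENNReal.ofReal C := by
    intro l hl t
    have hlj : l0 + (l - l0) = l := by have := (Finset.mem_Ico.mp hl).1; omega
    have h2 : Measurable (fun ω : Om => rho ((1 + 1 / (s - 1)) / 4) l0 (l - l0) t ω) :=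
      meas_sec2 (rho ((1 + 1 / (s - 1)) / 4) l0 (l - l0))
        (continuous_rho ((1 + 1 / (s - 1)) / 4) l0 (l - l0)).measurable t
    have h3 : Measurable (fun ω : Om => Th (l0 + (l - l0)) t ω) :=
      meas_sec2 (Th (l0 + (l - l0))) (continuous_Th (l0 + (l - l0))).measurable t
    have h4 : Measurable (fun ω : Om => ENNReal.ofReal
        (rho ((1 + 1 / (s - 1)) / 4) l0 (l - l0) t ω ^ (s - 1) *
        Th (l0 + (l - l0)) t ω)) := ((h2.pow_const _).mul h3).ennreal_ofReal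
    have h5 := lintegral_tilt (pr l) (fun p hp => pr_prime hp) t _ h4
    have h6 : Measurable (fun ω : Om => ENNReal.ofReal (dd (pr l) t ω) *
      ENNReal.ofReal (rho ((1 + 1 / (s - 1)) / 4) l0 (l - l0) t ω ^ (s - 1) *
        Th (l0 + (l - l0)) t ω)) :=
      (meas_sec2 (dd (pr l)) (continuous_dd (fun p hp => pr_prime hp)).measurable
        t).ennreal_ofReal.mul h4
    unfold HH
    rw [lintegral_const_mul _ h6, ← h5]
    have h7 := hkey l0 (l - l0) t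
    have h8 : tilt (pr (l0 + (l - l0))) t = tilt (pr l) t := by rw [hlj]
    rw [h8] at h7
    refine (mul_le_mul_right h7 _).trans (le_of_eq ?_)
    rw [← ENNReal.ofReal_mul (by positivity)]
    congr 1
    have hjp : (0 : ℝ) < 1 + ((l - l0 : ℕ) : ℝ) := by positivity
    rw [mul_left_comm, ← Real.rpow_add hjp]
    simp
  calc ∫⁻ ω, (∑ l ∈ Finset.Ico l0 n, ∫⁻ t in cell l0 i0,
          a l t * ENNReal.ofReal (2 ^ l * muL l t ω ^ s * Th l t ω)) *
          (∑ j ∈ Finset.range (n - l0), DD ((1 + 1 / (s - 1)) / 4) (1 / 4) l0 i0 j ω)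
            ^ (-(s - 1)) ∂mu
      ≤ ∫⁻ ω, (∑ l ∈ Finset.Ico l0 n, ∫⁻ t in cell l0 i0, a l t * HH s l0 l t ω) ∂mu :=
        lintegral_mono hpt
    _ = ∑ l ∈ Finset.Ico l0 n, ∫⁻ ω, (∫⁻ t in cell l0 i0, a l t * HH s l0 l t ω) ∂mu := by
        rw [lintegral_finsetSum']
        intro l hl
        exact (tonelli_gen (a l) (ha l) (HH s l0 l) (measurable_HH s l0 l)
          (cell l0 i0)).1.aemeasurable
    _ = ∑ l ∈ Finset.Ico l0 n, ∫⁻ t in cell l0 i0, (∫⁻ ω, a l t * HH s l0 l t ω ∂mu) :=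
        Finset.sum_congr rfl fun l _ =>
          (tonelli_gen (a l) (ha l) (HH s l0 l) (measurable_HH s l0 l) (cell l0 i0)).2
    _ ≤ ∑ l ∈ Finset.Ico l0 n, ∫⁻ t in cell l0 i0, ENNReal.ofReal C * a l t := by
        apply Finset.sum_le_sum
        intro l hl
        apply lintegral_mono
        intro t
        have h1 : Measurable (fun ω : Om => HH s l0 l t ω) :=
          meas_sec2 (HH s l0 l) (measurable_HH s l0 l) t
        simp only
        rw [lintegral_const_mul _ h1, mul_comm (ENNReal.ofReal C)]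
        exact mul_le_mul_right (hin l hl t) _
    _ = ENNReal.ofReal C * ∑ l ∈ Finset.Ico l0 n, ∫⁻ t in cell l0 i0, a l t := by
        rw [Finset.mul_sum]
        apply Finset.sum_congr rfl
        intro l _
        rw [lintegral_const_mul _ (ha l)]

/-- CORE ESTIMATE (the statement of `CoreStmt.lean`). -/
theorem core' (s : ℝ) (hs1 : 1 < s) (hs2 : s < 2) :
    ∃ C : ℝ, 0 < C ∧ ∀ (l0 i0 n : ℕ), i0 < 2 ^ l0 → ∀ a : ℕ → ℝ → ℝ≥0∞,
      (∀ l, Measurable (a l)) →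
      ∫⁻ ω, (∑ l ∈ Finset.Ico l0 n, ∫⁻ t in cell l0 i0,
          a l t * ENNReal.ofReal (2 ^ l * muL l t ω ^ s * Th l t ω)) ^ (1 / s) ∂mu
        ≤ ENNReal.ofReal C * (∑ l ∈ Finset.Ico l0 n, ∫⁻ t in cell l0 i0, a l t) ^ (1 / s)
            * (ENNReal.ofReal ((2 ^ l0)⁻¹)) ^ (1 - 1 / s) := by
  have hs0 : 0 < s := by linarith
  have hκ : 0 < s - 1 := by linarith
  have hc2 : 1 / 2 < (1 + 1 / (s - 1)) / 4 := by
    have : 1 < 1 / (s - 1) := by
      rw [lt_div_iff₀ hκ]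
      linarith
    linarith
  obtain ⟨C2, hC2, hsec⟩ := second s hs1 hs2
  obtain ⟨D, hD, hsum⟩ := lintegral_sum_DD ((1 + 1 / (s - 1)) / 4) (1 / 4) hc2 (by norm_num) le_rfl
  refine ⟨D + C2, by positivity, fun l0 i0 n hi0 a ha => ?_⟩
  set c := (1 + 1 / (s - 1)) / 4 with hc
  have hc0 : 0 ≤ c := by linarith
  set A := ∑ l ∈ Finset.Ico l0 n, ∫⁻ t in cell l0 i0, a l t with hA
  have hq0 : ENNReal.ofReal (((2 : ℝ) ^ l0)⁻¹) ≠ 0 := by
    rw [Ne, ENNReal.ofReal_eq_zero, not_le]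
    positivity
  have hqt : ENNReal.ofReal (((2 : ℝ) ^ l0)⁻¹) ≠ ∞ := ENNReal.ofReal_ne_top
  have hcell : MeasurableSet (cell l0 i0) := by
    unfold cell
    exact measurableSet_Ico
  -- the case `A = 0`
  by_cases hA0 : A = 0
  · have hY : ∀ ω : Om, (∑ l ∈ Finset.Ico l0 n, ∫⁻ t in cell l0 i0,
          a l t * ENNReal.ofReal (2 ^ l * muL l t ω ^ s * Th l t ω)) = 0 := by
      intro ω
      apply Finset.sum_eq_zero
      intro l hl
      have h0 : ∫⁻ t in cell l0 i0, a l t = 0 := by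
        rw [hA] at hA0
        exact (Finset.sum_eq_zero_iff.mp hA0) l hl
      rw [lintegral_eq_zero_iff (ha l)] at h0
      have h1 : (fun t => a l t * ENNReal.ofReal (2 ^ l * muL l t ω ^ s * Th l t ω))
          =ᵐ[volume.restrict (cell l0 i0)] 0 := by
        filter_upwards [h0] with t ht
        rw [ht]
        simp
      rw [lintegral_congr_ae h1]
      simp
    have h1 : ∫⁻ ω, (∑ l ∈ Finset.Ico l0 n, ∫⁻ t in cell l0 i0,
          a l t * ENNReal.ofReal (2 ^ l * muL l t ω ^ s * Th l t ω)) ^ (1 / s) ∂mu = 0 := by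
      simp only [hY, ENNReal.zero_rpow_of_pos (show 0 < 1 / s by positivity)]
      simp
    rw [h1]
    exact zero_le
  by_cases hAt : A = ∞
  · rw [hAt, ENNReal.top_rpow_of_pos (by positivity)]
    have h1 : ENNReal.ofReal (D + C2) ≠ 0 := by
      rw [Ne, ENNReal.ofReal_eq_zero, not_le]
      positivity
    have h2 : ENNReal.ofReal (((2 : ℝ) ^ l0)⁻¹) ^ (1 - 1 / s) ≠ 0 := by
      rw [Ne, ENNReal.rpow_eq_zero_iff]
      push Not
      exact ⟨fun h => absurd h hq0, fun h => absurd h hqt⟩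
    rw [ENNReal.mul_top h1, ENNReal.top_mul h2]
    exact le_top
  -- main case
  have hn : l0 < n := by
    by_contra hcon
    apply hA0
    rw [hA, Finset.Ico_eq_empty (by omega)]
    simp
  set q := ENNReal.ofReal (((2 : ℝ) ^ l0)⁻¹) with hq
  set lam := (A * q⁻¹) ^ (1 / s) with hlam
  have hAq0 : A * q⁻¹ ≠ 0 := mul_ne_zero hA0 (ENNReal.inv_ne_zero.mpr hqt)
  have hAqt : A * q⁻¹ ≠ ∞ := ENNReal.mul_ne_top hAt (ENNReal.inv_ne_top.mpr hq0)
  have hlam0 : lam ≠ 0 := by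
    rw [hlam, Ne, ENNReal.rpow_eq_zero_iff]
    push Not
    exact ⟨fun h => absurd h hAq0, fun h => absurd h hAqt⟩
  have hlamt : lam ≠ ∞ := by
    rw [hlam]
    exact ENNReal.rpow_ne_top_of_nonneg (by positivity) hAqt
  have hL0 : ∀ ω : Om, (∑ j ∈ Finset.range (n - l0), DD c (1 / 4) l0 i0 j ω) ≠ 0 := by
    intro ω h0
    have ht : ((i0 : ℝ) / 2 ^ l0) ∈ cell l0 i0 := by
      unfold cell
      refine ⟨le_rfl, ?_⟩
      apply div_lt_div_of_pos_right _ (by positivity)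
      linarith
    have h1 := path_sup c (1 / 4) hc0 (by norm_num) le_rfl l0 i0 0 _ ht ω
    have hsub : ∑ i ∈ Finset.range (0 + 1), DD c (1 / 4) l0 i0 i ω ≤
        ∑ i ∈ Finset.range (n - l0), DD c (1 / 4) l0 i0 i ω :=
      Finset.sum_le_sum_of_subset (Finset.range_mono (by omega))
    have h2 := h1.trans (hsub.trans (le_of_eq h0))
    have h3 := muL_pos (l0 + 0) ((i0 : ℝ) / 2 ^ l0) ω
    have h4 : 0 < muL (l0 + 0) ((i0 : ℝ) / 2 ^ l0) ω / (1 + ((0 : ℕ) : ℝ)) ^ c := by positivity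
    rw [nonpos_iff_eq_zero, ENNReal.ofReal_eq_zero] at h2
    linarith
  have hLm : Measurable (fun ω : Om => lam * ∑ j ∈ Finset.range (n - l0),
      DD c (1 / 4) l0 i0 j ω) :=
    (Finset.measurable_sum _ (fun j _ => measurable_DD c (1 / 4) l0 i0 j)).const_mul _
  have hq1 : lam * q = A ^ (1 / s) * q ^ (1 - 1 / s) := by
    rw [hlam, ENNReal.mul_rpow_of_ne_top hAt (ENNReal.inv_ne_top.mpr hq0), ENNReal.inv_rpow,
      ← ENNReal.rpow_neg, mul_assoc]
    nth_rewrite 2 [← ENNReal.rpow_one q]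
    rw [← ENNReal.rpow_add _ _ hq0 hqt]
    congr 2
    ring
  have hq2 : lam ^ (-(s - 1)) * A = A ^ (1 / s) * q ^ (1 - 1 / s) := by
    rw [hlam, ← ENNReal.rpow_mul, ENNReal.mul_rpow_of_ne_top hAt (ENNReal.inv_ne_top.mpr hq0),
      ENNReal.inv_rpow, ← ENNReal.rpow_neg]
    rw [mul_right_comm]
    nth_rewrite 2 [← ENNReal.rpow_one A]
    rw [← ENNReal.rpow_add _ _ hA0 hAt]
    congr 2
    · field_simp
      ring
    · field_simp
  calc ∫⁻ ω, (∑ l ∈ Finset.Ico l0 n, ∫⁻ t in cell l0 i0,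
          a l t * ENNReal.ofReal (2 ^ l * muL l t ω ^ s * Th l t ω)) ^ (1 / s) ∂mu
      ≤ ∫⁻ ω, (lam * (∑ j ∈ Finset.range (n - l0), DD c (1 / 4) l0 i0 j ω) +
          lam ^ (-(s - 1)) * ((∑ l ∈ Finset.Ico l0 n, ∫⁻ t in cell l0 i0,
          a l t * ENNReal.ofReal (2 ^ l * muL l t ω ^ s * Th l t ω)) *
          (∑ j ∈ Finset.range (n - l0), DD c (1 / 4) l0 i0 j ω) ^ (-(s - 1)))) ∂mu :=
        lintegral_mono fun ω => young s hs1 _ _ _ (hL0 ω) hlam0 hlamt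
    _ = lam * ∫⁻ ω, ∑ j ∈ Finset.range (n - l0), DD c (1 / 4) l0 i0 j ω ∂mu +
        lam ^ (-(s - 1)) * ∫⁻ ω, ((∑ l ∈ Finset.Ico l0 n, ∫⁻ t in cell l0 i0,
          a l t * ENNReal.ofReal (2 ^ l * muL l t ω ^ s * Th l t ω)) *
          (∑ j ∈ Finset.range (n - l0), DD c (1 / 4) l0 i0 j ω) ^ (-(s - 1))) ∂mu := by
        rw [lintegral_add_left hLm, lintegral_const_mul' _ _ hlamt, lintegral_const_mul']
        rw [Ne, ENNReal.rpow_eq_top_iff]
        push Not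
        exact ⟨fun h => absurd h hlam0, fun h => absurd h hlamt⟩
    _ ≤ lam * (ENNReal.ofReal D * q) + lam ^ (-(s - 1)) * (ENNReal.ofReal C2 * A) := by
        gcongr
        · exact hsum l0 i0 (n - l0)
        · exact hsec l0 i0 n a ha
    _ = ENNReal.ofReal (D + C2) * A ^ (1 / s) * q ^ (1 - 1 / s) := by
        rw [ENNReal.ofReal_add hD.le hC2.le, mul_left_comm, mul_left_comm (lam ^ (-(s - 1))),
          hq1, hq2]
        ring

end Emb
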