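import Mathlib

/-!
# Embedding project (MP_1e909f_an): abstract random walk lemmas, definitions

A random walk with `n` independent centred sub-Gaussian steps whose total variance is at least
`c n - K`.
-/

open MeasureTheory ProbabilityTheory

namespace Emb

/-- Hypotheses on the first `n` steps `Y 0, ..., Y (n-1)` of a walk: measurable, independent, mean
zero, sub-Gaussian with constant `K`, total variance at least `c n - K`. -/
structure WalkHyp {Ω : Type} [MeasurableSpace Ω] (μ : Measure Ω) (c K : ℝ) (n : ℕ)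
    (Y : ℕ → Ω → ℝ) : Prop where
  meas : ∀ i, i < n → Measurable (Y i)
  indep : iIndepFun (fun i : Fin n => Y i) μ
  mean : ∀ i, i < n → ∫ ω, Y i ω ∂μ = 0
  expi : ∀ i, i < n → ∀ θ : ℝ, Integrable (fun ω => Real.exp (θ * Y i ω)) μ
  subg : ∀ i, i < n → ∀ θ : ℝ, ∫ ω, Real.exp (θ * Y i ω) ∂μ ≤ Real.exp (K * θ ^ 2)
  var : c * n - K ≤ ∑ i ∈ Finset.range n, ∫ ω, (Y i ω) ^ 2 ∂μ

/-- Partial sums `S_j = Y 0 + ... + Y (j-1)`. -/
def psum {Ω : Type} (Y : ℕ → Ω → ℝ) (j : ℕ) (ω : Ω) : ℝ := ∑ i ∈ Finset.range j, Y i ω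

/-- Running maximum `max_{j ≤ n} S j`. -/
noncomputable def runMax (S : ℕ → ℝ) (n : ℕ) : ℝ :=
  (Finset.range (n + 1)).sup' ⟨0, by simp⟩ S

end Emb
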