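import Pool.Agent.Lib.Emb.Defs
import Pool.Agent.Lib.Emb.RWDefs

/-!
# Embedding project: definitions for the core estimate (probability half)
-/

open MeasureTheory Complex ProbabilityTheory
open scoped BigOperators ENNReal

namespace Emb

/-- The running maximum `max_{i ≤ j} mu_{l0+i}(t) / (1+i)^c`. -/
noncomputable def Lam (c : ℝ) (l0 j : ℕ) (t : ℝ) (ω : Om) : ℝ :=
  runMax (fun i => muL (l0 + i) t ω / (1 + (i : ℝ)) ^ c) j

/-- The ratio `mu_{l0+j}(t) / ((1+j)^c Lam_j(t)) ≤ 1`. -/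
noncomputable def rho (c : ℝ) (l0 j : ℕ) (t : ℝ) (ω : Om) : ℝ :=
  muL (l0 + j) t ω / ((1 + (j : ℝ)) ^ c * Lam c l0 j t ω)

/-- The increments in the pathwise bound of the maximal function: `DD_0` bounds `mu_{l0}` on the
cell, `DD_{j+1}` bounds the increase of the supremum at level `l0+j+1`. -/
noncomputable def DD (c η : ℝ) (l0 i0 : ℕ) : ℕ → Om → ℝ≥0∞
  | 0, ω => ∫⁻ t in cell l0 i0, ENNReal.ofReal (2 ^ l0 * muL l0 t ω * (3 * Th l0 t ω))
  | j + 1, ω => ∫⁻ t in cell l0 i0, ENNReal.ofReal (2 ^ (l0 + (j + 1)) *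
      (muL (l0 + (j + 1)) t ω / (1 + ((j + 1 : ℕ) : ℝ)) ^ c) *
      (muL (l0 + (j + 1)) t ω / ((1 + (j : ℝ)) ^ c * Lam c l0 j t ω)) ^ η *
      (3 * Th (l0 + (j + 1)) t ω))

/-- The tilted measure: density `dd S t` with respect to `mu`. -/
noncomputable def tilt (S : Finset ℕ) (t : ℝ) : Measure Om :=
  mu.withDensity (fun ω => ENNReal.ofReal (dd S t ω))

/-- The centred logarithm of the Poisson density of one prime:
`log d_p + log (1 - 1/p)` (the tilted mean of `log d_p` is `- log (1 - 1/p)`). -/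
noncomputable def xx (p : ℕ) (t : ℝ) (x : UnitAddCircle) : ℝ :=
  Real.log (d1 p t x) + Real.log (1 - 1 / (p : ℝ))

/-- The steps of the walk: block `l0 + i`. -/
noncomputable def step (l0 : ℕ) (t : ℝ) (i : ℕ) (ω : Om) : ℝ :=
  ∑ p ∈ blk (l0 + i), xx p t (ω p)

end Emb
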