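/-
The interface between the two halves: the core (barrier) estimate on a dyadic cell.
-/
import Pool.Agent.Lib.Emb.Core

open MeasureTheory Complex
open scoped BigOperators ENNReal

namespace Emb

/-- CORE ESTIMATE.  `Q = cell l0 i0`, `a l t ≥ 0` arbitrary measurable. -/
theorem core (s : ℝ) (hs1 : 1 < s) (hs2 : s < 2) :
    ∃ C : ℝ, 0 < C ∧ ∀ (l0 i0 n : ℕ), i0 < 2 ^ l0 → ∀ a : ℕ → ℝ → ℝ≥0∞,
      (∀ l, Measurable (a l)) →
      ∫⁻ ω, (∑ l ∈ Finset.Ico l0 n, ∫⁻ t in cell l0 i0,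
          a l t * ENNReal.ofReal (2 ^ l * muL l t ω ^ s * Th l t ω)) ^ (1 / s) ∂mu
        ≤ ENNReal.ofReal C * (∑ l ∈ Finset.Ico l0 n, ∫⁻ t in cell l0 i0, a l t) ^ (1 / s)
            * (ENNReal.ofReal ((2 ^ l0)⁻¹)) ^ (1 - 1 / s) :=
  core' s hs1 hs2

end Emb
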