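/-
CHUNK DOOB (dyadic Doob inequality; see the header of Dy2.lean).
vV K a (K+1) i = vV K a K (i/2), and ix (K+1) t / 2 = ix K t.

Proof (pathwise): W(m,s) = (q-1) m^q - q m^(q-1) s. By Young W(m,s) >= -s^q = W(s,s), so
W(max m s, s) <= W(m,s); W is affine in s, so the average of W(vV l, av l) decreases in l and is
<= 0 at level 0. Finally W(m,s) >= (q-1)/2 m^q - 2^(q-1) s^q. Constant 2^q/(q-1).
-/
import Pool.Agent.Lib.Emb.Dy1

open MeasureTheory Complex
open scoped BigOperators ENNReal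

namespace Emb

theorem doob_young (q m s : ℝ) (hq : 1 < q) (hm : 0 ≤ m) (hs : 0 ≤ s) :
    q * m ^ (q - 1) * s ≤ (q - 1) * m ^ q + s ^ q := by
  have hq0 : 0 < q := by linarith
  have hc : (q / (q - 1)).HolderConjugate q := by
    rw [Real.holderConjugate_iff]
    constructor
    · rw [lt_div_iff₀ (by linarith)]; linarith
    · have : q - 1 ≠ 0 := by linarith
      field_simp
      ring
  have h := Real.young_inequality_of_nonneg (a := m ^ (q - 1)) (b := s) (by positivity) hs hc
  have h1 : (m ^ (q - 1)) ^ (q / (q - 1)) = m ^ q := by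
    rw [← Real.rpow_mul hm]
    congr 1
    have : q - 1 ≠ 0 := by linarith
    field_simp
  rw [h1] at h
  have h2 : q * (m ^ (q - 1) * s) ≤ q * (m ^ q / (q / (q - 1)) + s ^ q / q) :=
    mul_le_mul_of_nonneg_left h hq0.le
  have h3 : q * (m ^ q / (q / (q - 1)) + s ^ q / q) = (q - 1) * m ^ q + s ^ q := by
    have : q - 1 ≠ 0 := by linarith
    field_simp
  rw [h3] at h2
  linarith [h2, mul_assoc q (m ^ (q - 1)) s]

/-- The Bellman function. -/
noncomputable def doobW (q m s : ℝ) : ℝ := (q - 1) * m ^ q - q * m ^ (q - 1) * s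

theorem doobW_self (q s : ℝ) (hq : 1 < q) (hs : 0 ≤ s) : doobW q s s = - s ^ q := by
  unfold doobW
  have : s ^ (q - 1) * s = s ^ q := by
    rcases hs.eq_or_lt with h0 | h0
    · rw [← h0, mul_zero, Real.zero_rpow (by linarith)]
    · rw [← Real.rpow_add_one h0.ne']
      congr 1
      ring
  rw [mul_assoc, this]
  ring

theorem doobW_max (q m s : ℝ) (hq : 1 < q) (hm : 0 ≤ m) (hs : 0 ≤ s) :
    doobW q (max m s) s ≤ doobW q m s := by
  rcases le_total s m with h | h
  · rw [max_eq_left h]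
  · rw [max_eq_right h, doobW_self q s hq hs]
    unfold doobW
    linarith [doob_young q m s hq hm hs]

theorem doobW_lower (q m s : ℝ) (hq : 1 < q) (hm : 0 ≤ m) (hs : 0 ≤ s) :
    (q - 1) / 2 * m ^ q - 2 ^ (q - 1) * s ^ q ≤ doobW q m s := by
  have h := doob_young q m (2 * s) hq hm (by positivity)
  unfold doobW
  have h2 : (2 * s) ^ q = 2 * (2 ^ (q - 1) * s ^ q) := by
    rw [Real.mul_rpow (by norm_num) hs, ← mul_assoc]
    congr 1
    rw [mul_comm, ← Real.rpow_add_one (by norm_num : (2:ℝ) ≠ 0)]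
    congr 1
    ring
  rw [h2] at h
  linarith

theorem doob_av_nonneg (K : ℕ) (a : ℕ → ℝ) (l i : ℕ) : 0 ≤ av K (fun j => |a j|) l i := by
  unfold av
  exact div_nonneg (Finset.sum_nonneg fun _ _ => abs_nonneg _) (by positivity)

theorem doob_vV_nonneg (K : ℕ) (a : ℕ → ℝ) : ∀ l i : ℕ, 0 ≤ vV K a l i := by
  intro l
  induction l with
  | zero => intro i; exact doob_av_nonneg K a 0 i
  | succ l ih =>
    intro i
    unfold vV
    split_ifs with h
    · exact le_max_of_le_left (ih _)
    · exact ih _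

theorem doob_sum_pair (n : ℕ) (f : ℕ → ℝ) :
    ∑ i ∈ Finset.range (2 * n), f i = ∑ i ∈ Finset.range n, (f (2 * i) + f (2 * i + 1)) := by
  induction n with
  | zero => simp
  | succ n ih =>
    rw [Finset.sum_range_succ, ← ih, show 2 * (n + 1) = 2 * n + 1 + 1 by ring,
      Finset.sum_range_succ, Finset.sum_range_succ]
    ring

theorem doob_level (q : ℝ) (hq : 1 < q) (K : ℕ) (a : ℕ → ℝ) : ∀ l : ℕ, l ≤ K →
    ∑ i ∈ Finset.range (2 ^ l), doobW q (vV K a l i) (av K (fun j => |a j|) l i) ≤ 0 := by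
  intro l
  induction l with
  | zero =>
    intro _
    simp only [pow_zero, Finset.range_one, Finset.sum_singleton]
    have : vV K a 0 0 = av K (fun j => |a j|) 0 0 := rfl
    rw [this, doobW_self q _ hq (doob_av_nonneg K a 0 0)]
    have := Real.rpow_nonneg (doob_av_nonneg K a 0 0) q
    linarith
  | succ l ih =>
    intro hl
    have h1 := ih (by omega)
    rw [pow_succ, mul_comm, doob_sum_pair]
    have h2 : ∀ i ∈ Finset.range (2 ^ l),
        doobW q (vV K a (l + 1) (2 * i)) (av K (fun j => |a j|) (l + 1) (2 * i)) +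
          doobW q (vV K a (l + 1) (2 * i + 1)) (av K (fun j => |a j|) (l + 1) (2 * i + 1)) ≤
        2 * doobW q (vV K a l i) (av K (fun j => |a j|) l i) := by
      intro i _
      have e1 : vV K a (l + 1) (2 * i) =
          max (vV K a l i) (av K (fun j => |a j|) (l + 1) (2 * i)) := by
        rw [vV, if_pos hl]
        congr 2
        omega
      have e2 : vV K a (l + 1) (2 * i + 1) =
          max (vV K a l i) (av K (fun j => |a j|) (l + 1) (2 * i + 1)) := by
        rw [vV, if_pos hl]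
        congr 2
        omega
      rw [e1, e2]
      have g1 := doobW_max q (vV K a l i) (av K (fun j => |a j|) (l + 1) (2 * i)) hq
        (doob_vV_nonneg K a l i) (doob_av_nonneg K a _ _)
      have g2 := doobW_max q (vV K a l i) (av K (fun j => |a j|) (l + 1) (2 * i + 1)) hq
        (doob_vV_nonneg K a l i) (doob_av_nonneg K a _ _)
      have g3 := av_split (show l < K by omega) (fun j => |a j|) i
      refine (add_le_add g1 g2).trans (le_of_eq ?_)
      rw [g3]
      unfold doobW
      ring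
    refine (Finset.sum_le_sum h2).trans ?_
    rw [← Finset.mul_sum]
    linarith

theorem doob_sum (q : ℝ) (hq : 1 < q) (K : ℕ) (a : ℕ → ℝ) :
    ∑ i ∈ Finset.range (2 ^ K), vV K a K i ^ q ≤
      2 ^ q / (q - 1) * ∑ i ∈ Finset.range (2 ^ K), |a i| ^ q := by
  have h := doob_level q hq K a K le_rfl
  have h1 : ∀ i ∈ Finset.range (2 ^ K), (q - 1) / 2 * vV K a K i ^ q - 2 ^ (q - 1) * |a i| ^ q ≤
      doobW q (vV K a K i) (av K (fun j => |a j|) K i) := by
    intro i _
    rw [av_top]
    exact doobW_lower q _ _ hq (doob_vV_nonneg K a K i) (abs_nonneg _)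
  have h2 := (Finset.sum_le_sum h1).trans h
  rw [Finset.sum_sub_distrib, ← Finset.mul_sum, ← Finset.mul_sum] at h2
  have hq1 : 0 < q - 1 := by linarith
  have h3 : (2:ℝ) ^ q = 2 * 2 ^ (q - 1) := by
    rw [mul_comm, ← Real.rpow_add_one (by norm_num : (2:ℝ) ≠ 0)]
    congr 1
    ring
  rw [h3, div_mul_eq_mul_div, le_div_iff₀ hq1]
  nlinarith [h2]

theorem doob (q : ℝ) (hq1 : 1 < q) : ∃ C : ℝ, 0 < C ∧ ∀ (K : ℕ) (a : ℕ → ℝ),
    ∫⁻ t in Set.Ico (0:ℝ) 1, ENNReal.ofReal (vV K a (K + 1) (ix (K + 1) t) ^ q) ≤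
      ENNReal.ofReal C * ∫⁻ t in Set.Ico (0:ℝ) 1, ENNReal.ofReal (|a (ix K t)| ^ q) := by
  refine ⟨2 ^ q / (q - 1), by have : 0 < q - 1 := by linarith
                              positivity, fun K a => ?_⟩
  have h1 : ∫⁻ t in Set.Ico (0:ℝ) 1, ENNReal.ofReal (vV K a (K + 1) (ix (K + 1) t) ^ q) =
      ∫⁻ t in Set.Ico (0:ℝ) 1, ENNReal.ofReal (vV K a K (ix K t) ^ q) := by
    refine setLIntegral_congr_fun measurableSet_Ico fun t ht => ?_
    have : vV K a (K + 1) (ix (K + 1) t) = vV K a K (ix K t) := by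
      rw [vV, if_neg (by omega), ← ix_half (l := K) ht.1]
    simp only [this]
  rw [h1, lint_level K (fun i => ENNReal.ofReal (vV K a K i ^ q)),
    lint_level K (fun i => ENNReal.ofReal (|a i| ^ q)), ← mul_assoc]
  gcongr
  rw [← ENNReal.ofReal_sum_of_nonneg fun i _ => Real.rpow_nonneg (doob_vV_nonneg K a K i) q,
    ← ENNReal.ofReal_sum_of_nonneg fun i _ => by positivity, ← ENNReal.ofReal_mul (by
      have : 0 < q - 1 := by linarith
      positivity)]
  exact ENNReal.ofReal_le_ofReal (doob_sum q hq1 K a)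

end Emb
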