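/-
CHUNK DUAL (duality with dyadic step functions).

f : R -> C continuous, 1 < q, p the conjugate exponent (1/p + 1/q = 1), B >= 0, and for all K, a
  | int_0^1 g f | <= B (int_0^1 |g|^q)^(1/q),  g(t) = a (ix K t).
Then int_0^1 |f|^p <= (2B)^p.
Proof. For a real continuous u (u = Re f, Im f): | int g u | <= | int g f | (g real). Take
a_i = |u|^(p-2) u at the left end point of the cell (i,K): g_K -> |u|^(p-2) u uniformly on [0,1)
(uniform continuity), so int g_K u -> int |u|^p and int |g_K|^q -> int |u|^((p-1)q) = int |u|^p; hence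
int |u|^p <= B (int |u|^p)^(1/q), i.e. int |u|^p <= B^p. Finally |f| <= |Re f| + |Im f| and
(x+y)^p <= 2^(p-1)(x^p+y^p).
-/
import Pool.Agent.Lib.Emb.Dy1

open MeasureTheory Complex
open scoped BigOperators ENNReal

namespace Emb

theorem dual_tendsto_ix (t : ℝ) (ht : 0 ≤ t) :
    Filter.Tendsto (fun K : ℕ => (ix K t : ℝ) / 2 ^ K) Filter.atTop (nhds t) := by
  have h1 := tendsto_nat_floor_mul_div_atTop (R := ℝ) ht
  have h2 : Filter.Tendsto (fun K : ℕ => (2:ℝ) ^ K) Filter.atTop Filter.atTop :=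
    tendsto_pow_atTop_atTop_of_one_lt (by norm_num)
  have h3 := h1.comp h2
  refine h3.congr fun K => ?_
  simp only [Function.comp, ix]
  rw [mul_comm]

theorem dual_ix_mem (K : ℕ) (t : ℝ) (ht : t ∈ Set.Icc (0:ℝ) 1) :
    (ix K t : ℝ) / 2 ^ K ∈ Set.Icc (0:ℝ) 1 := by
  have h2 : (0:ℝ) < 2 ^ K := by positivity
  refine ⟨by positivity, ?_⟩
  rw [div_le_one h2]
  have h3 : (0:ℝ) ≤ 2 ^ K * t := mul_nonneg h2.le ht.1
  calc (ix K t : ℝ) ≤ 2 ^ K * t := Nat.floor_le h3
    _ ≤ 2 ^ K * 1 := by gcongr; exact ht.2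
    _ = 2 ^ K := mul_one _

theorem dual_conv {E : Type} [NormedAddCommGroup E] [NormedSpace ℝ E] (G : ℝ × ℝ → E)
    (hG : Continuous G) :
    Filter.Tendsto (fun K : ℕ => ∫ t in (0:ℝ)..1, G ((ix K t : ℝ) / 2 ^ K, t)) Filter.atTop
      (nhds (∫ t in (0:ℝ)..1, G (t, t))) := by
  obtain ⟨C, hC⟩ := (isCompact_Icc.prod isCompact_Icc :
    IsCompact (Set.Icc (0:ℝ) 1 ×ˢ Set.Icc (0:ℝ) 1)).exists_bound_of_continuousOn hG.continuousOn
  refine intervalIntegral.tendsto_integral_filter_of_dominated_convergence (fun _ => C) ?_ ?_ ?_ ?_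
  · refine Filter.Eventually.of_forall fun K => ?_
    have hm : Measurable (fun t : ℝ => ((ix K t : ℝ) / 2 ^ K, t)) :=
      ((measurable_from_top (f := fun n : ℕ => (n : ℝ))).comp (measurable_ix K)).div_const _
        |>.prodMk measurable_id
    exact hG.comp_aestronglyMeasurable hm.aestronglyMeasurable
  · refine Filter.Eventually.of_forall fun K => ?_
    refine Filter.Eventually.of_forall fun t ht => ?_
    rw [Set.uIoc_of_le zero_le_one] at ht
    exact hC _ ⟨dual_ix_mem K t ⟨ht.1.le, ht.2⟩, ⟨ht.1.le, ht.2⟩⟩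
  · simp
  · refine Filter.Eventually.of_forall fun t ht => ?_
    rw [Set.uIoc_of_le zero_le_one] at ht
    exact (hG.tendsto (t, t)).comp ((dual_tendsto_ix t ht.1.le).prodMk_nhds tendsto_const_nhds)

theorem dual_cont (q : ℝ) (hq : 1 < q) (f : ℝ → ℂ)
    (hf : Continuous f) (B : ℝ)
    (h : ∀ (K : ℕ) (a : ℕ → ℝ), ‖∫ t in (0:ℝ)..1, (a (ix K t) : ℂ) * f t‖ ≤
      B * (∫ t in (0:ℝ)..1, |a (ix K t)| ^ q) ^ (1 / q)) (g : ℝ → ℝ) (hg : Continuous g) :
    ‖∫ t in (0:ℝ)..1, (g t : ℂ) * f t‖ ≤ B * (∫ t in (0:ℝ)..1, |g t| ^ q) ^ (1 / q) := by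
  have h1 := dual_conv (fun x : ℝ × ℝ => (g x.1 : ℂ) * f x.2)
    ((continuous_ofReal.comp (hg.comp continuous_fst)).mul (hf.comp continuous_snd))
  have h2 := dual_conv (fun x : ℝ × ℝ => |g x.1| ^ q)
    ((hg.comp continuous_fst).abs.rpow_const (fun _ => Or.inr (by linarith)))
  have h3 : Filter.Tendsto (fun K : ℕ => B *
      (∫ t in (0:ℝ)..1, |g ((ix K t : ℝ) / 2 ^ K)| ^ q) ^ (1 / q)) Filter.atTop
      (nhds (B * (∫ t in (0:ℝ)..1, |g t| ^ q) ^ (1 / q))) :=
    (h2.rpow_const (Or.inr (by positivity))).const_mul B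
  refine le_of_tendsto_of_tendsto h1.norm h3 (Filter.Eventually.of_forall fun K => ?_)
  exact h K (fun i => g ((i : ℝ) / 2 ^ K))

theorem dual_real (p q : ℝ) (hq : 1 < q) (hpq : 1 / p + 1 / q = 1) (hp : 1 < p) (u : ℝ → ℝ)
    (hu : Continuous u) (B : ℝ) (hB : 0 ≤ B)
    (h : ∀ g : ℝ → ℝ, Continuous g → |∫ t in (0:ℝ)..1, g t * u t| ≤
      B * (∫ t in (0:ℝ)..1, |g t| ^ q) ^ (1 / q)) :
    ∫ t in (0:ℝ)..1, |u t| ^ p ≤ B ^ p := by
  have hp1 : 0 < p - 1 := by linarith
  set g : ℝ → ℝ := fun t => (max (u t) 0) ^ (p - 1) - (max (-u t) 0) ^ (p - 1) with hgdef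
  have hg : Continuous g := by
    refine Continuous.sub ?_ ?_
    · exact (hu.max continuous_const).rpow_const (fun _ => Or.inr hp1.le)
    · exact (hu.neg.max continuous_const).rpow_const (fun _ => Or.inr hp1.le)
  have hpq1 : (p - 1) * q = p := by
    have hp0 : p ≠ 0 := by linarith
    have hq0 : q ≠ 0 := by linarith
    field_simp at hpq
    linarith
  have hpow : ∀ x : ℝ, 0 ≤ x → x ^ (p - 1) * x = x ^ p := by
    intro x hx
    rcases hx.eq_or_lt with h0 | h0
    · rw [← h0, mul_zero, Real.zero_rpow (by linarith)]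
    · rw [← Real.rpow_add_one h0.ne']
      congr 1
      ring
  have h1 : ∀ t, g t * u t = |u t| ^ p := by
    intro t
    simp only [hgdef]
    rcases le_total 0 (u t) with h0 | h0
    · rw [max_eq_left h0, max_eq_right (by linarith), Real.zero_rpow hp1.ne', sub_zero, abs_of_nonneg h0,
        hpow _ h0]
    · rw [max_eq_right h0, max_eq_left (by linarith), Real.zero_rpow hp1.ne', zero_sub,
        abs_of_nonpos h0, ← hpow (-u t) (by linarith)]
      ring
  have h2 : ∀ t, |g t| ^ q = |u t| ^ p := by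
    intro t
    have : |g t| = |u t| ^ (p - 1) := by
      simp only [hgdef]
      rcases le_total 0 (u t) with h0 | h0
      · rw [max_eq_left h0, max_eq_right (by linarith), Real.zero_rpow hp1.ne', sub_zero,
          abs_of_nonneg h0, abs_of_nonneg (by positivity)]
      · rw [max_eq_right h0, max_eq_left (by linarith), Real.zero_rpow hp1.ne', zero_sub,
          abs_of_nonpos h0, abs_neg, abs_of_nonneg (Real.rpow_nonneg (by linarith) _)]
    rw [this, ← Real.rpow_mul (abs_nonneg _), hpq1]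
  have h3 := h g hg
  simp only [h1, h2] at h3
  set J := ∫ t in (0:ℝ)..1, |u t| ^ p with hJ
  have hJ0 : 0 ≤ J := intervalIntegral.integral_nonneg zero_le_one fun t _ => by positivity
  rw [abs_of_nonneg hJ0] at h3
  rcases hJ0.eq_or_lt with h0 | h0
  · rw [← h0]; positivity
  · have h4 : J ^ (1 / p) ≤ B := by
      have h5 : J = J ^ (1 / p) * J ^ (1 / q) := by
        rw [← Real.rpow_add h0, hpq, Real.rpow_one]
      have h6 : 0 < J ^ (1 / q) := by positivity
      have h7 : J ^ (1 / p) * J ^ (1 / q) ≤ B * J ^ (1 / q) := by rw [← h5]; exact h3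
      exact le_of_mul_le_mul_right h7 h6
    calc J = (J ^ (1 / p)) ^ p := by
          rw [← Real.rpow_mul hJ0, one_div, inv_mul_cancel₀ (by linarith), Real.rpow_one]
      _ ≤ B ^ p := Real.rpow_le_rpow (by positivity) h4 (by linarith)

theorem duality (p q : ℝ) (hq : 1 < q) (hpq : 1 / p + 1 / q = 1) (hp : 1 < p) (f : ℝ → ℂ)
    (hf : Continuous f) (B : ℝ) (hB : 0 ≤ B)
    (h : ∀ (K : ℕ) (a : ℕ → ℝ), ‖∫ t in (0:ℝ)..1, (a (ix K t) : ℂ) * f t‖ ≤
      B * (∫ t in (0:ℝ)..1, |a (ix K t)| ^ q) ^ (1 / q)) :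
    ∫ t in (0:ℝ)..1, ‖f t‖ ^ p ≤ (2 * B) ^ p := by
  have hc := dual_cont q hq f hf B h
  have hint : ∀ g : ℝ → ℝ, Continuous g → IntervalIntegrable (fun t => (g t : ℂ) * f t) volume 0 1 :=
    fun g hg => ((continuous_ofReal.comp hg).mul hf).intervalIntegrable _ _
  have hre : ∫ t in (0:ℝ)..1, |(f t).re| ^ p ≤ B ^ p := by
    refine dual_real p q hq hpq hp (fun t => (f t).re) (continuous_re.comp hf) B hB fun g hg => ?_
    refine le_trans ?_ (hc g hg)
    have : ∫ t in (0:ℝ)..1, g t * (f t).re = (∫ t in (0:ℝ)..1, (g t : ℂ) * f t).re := by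
      have := (Complex.reCLM.intervalIntegral_comp_comm (hint g hg))
      simp only [Complex.reCLM_apply, Complex.re_ofReal_mul] at this
      exact this
    rw [this]
    exact Complex.abs_re_le_norm _
  have him : ∫ t in (0:ℝ)..1, |(f t).im| ^ p ≤ B ^ p := by
    refine dual_real p q hq hpq hp (fun t => (f t).im) (continuous_im.comp hf) B hB fun g hg => ?_
    refine le_trans ?_ (hc g hg)
    have : ∫ t in (0:ℝ)..1, g t * (f t).im = (∫ t in (0:ℝ)..1, (g t : ℂ) * f t).im := by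
      have := (Complex.imCLM.intervalIntegral_comp_comm (hint g hg))
      simp only [Complex.imCLM_apply, Complex.im_ofReal_mul] at this
      exact this
    rw [this]
    exact Complex.abs_im_le_norm _
  have hpt : ∀ t, ‖f t‖ ^ p ≤ 2 ^ (p - 1) * (|(f t).re| ^ p + |(f t).im| ^ p) := by
    intro t
    calc ‖f t‖ ^ p ≤ (|(f t).re| + |(f t).im|) ^ p :=
          Real.rpow_le_rpow (norm_nonneg _) (Complex.norm_le_abs_re_add_abs_im _) (by linarith)
      _ ≤ 2 ^ (p - 1) * (|(f t).re| ^ p + |(f t).im| ^ p) := by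
          have := NNReal.rpow_add_le_mul_rpow_add_rpow (Real.toNNReal |(f t).re|)
            (Real.toNNReal |(f t).im|) hp.le
          have h2 := NNReal.coe_le_coe.2 this
          push_cast at h2
          rw [Real.coe_toNNReal _ (abs_nonneg _), Real.coe_toNNReal _ (abs_nonneg _)] at h2
          exact h2
  have hcn : Continuous fun t => ‖f t‖ ^ p :=
    hf.norm.rpow_const (fun _ => Or.inr (by linarith))
  have hcr : Continuous fun t => |(f t).re| ^ p :=
    (continuous_re.comp hf).abs.rpow_const (fun _ => Or.inr (by linarith))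
  have hci : Continuous fun t => |(f t).im| ^ p :=
    (continuous_im.comp hf).abs.rpow_const (fun _ => Or.inr (by linarith))
  calc ∫ t in (0:ℝ)..1, ‖f t‖ ^ p
      ≤ ∫ t in (0:ℝ)..1, 2 ^ (p - 1) * (|(f t).re| ^ p + |(f t).im| ^ p) :=
        intervalIntegral.integral_mono_on zero_le_one (hcn.intervalIntegrable _ _)
          ((continuous_const.mul (hcr.add hci)).intervalIntegrable _ _) fun t _ => hpt t
    _ = 2 ^ (p - 1) * ((∫ t in (0:ℝ)..1, |(f t).re| ^ p) + ∫ t in (0:ℝ)..1, |(f t).im| ^ p) := by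
        rw [intervalIntegral.integral_const_mul, intervalIntegral.integral_add
          (hcr.intervalIntegrable _ _) (hci.intervalIntegrable _ _)]
    _ ≤ 2 ^ (p - 1) * (B ^ p + B ^ p) := by gcongr
    _ = (2 * B) ^ p := by
        rw [Real.mul_rpow (by norm_num) hB, ← mul_two, mul_comm (B ^ p) 2, ← mul_assoc,
          ← Real.rpow_add_one (by norm_num : (2:ℝ) ≠ 0)]
        congr 2
        ring

end Emb
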