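/-
CHUNK DY2 (weighted square function inequality for dyadic martingales, 1 < q < 2, and Doob).

`two_point`: (|x+d|^q + |x-d|^q)/2 - |x|^q >= (q(q-1)/2) d^2 (|x|+|d|)^(q-2).
 Proof: phi(x) = |x|^q, phi'' = q(q-1)|x|^(q-2) (integrable singularity);
 phi(x+d)+phi(x-d)-2phi(x) = int_(-d)^d (|d|-|v|) phi''(x+v) dv and |x+v| <= |x|+|d|, q-2 < 0.
 (Any constant c_q > 0 is enough; alternatives: by homogeneity x = 1 or x = 0, one-variable calculus.)
 Conventions: 0^(negative) = 0 in Lean's rpow, both sides fine when x = d = 0.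
`dy_sum`: sum_(k=1)^K int g_k^2 V_k^(q-2) <= C int |g|^q.
 Proof: E_k g = E_(k-1) g +- d on the two children of a cell, |g_k| = |d|. two_point and summation:
  int |E_k g|^q - int |E_(k-1) g|^q >= c int g_k^2 (|E_(k-1)g| + |g_k|)^(q-2) >= c 3^(q-2) int g_k^2 V_k^(q-2),
  since |E_(k-1) g| <= V_(k-1) <= V_k, |g_k| <= 2 V_k (if V_k = 0 then g_k = 0). Telescoping, E_K g = g.
`vV_double`: V_k <= 2^(k-l) V_l along a path (averages of |a| over a child are at most twice the average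
 over the parent).
`dy_main`: sum_(l<K+2) int A_l V_l^(q-2) <= C int |g|^q: for k >= l: V_l^(q-2) <= (2^-(k-l) V_k)^(q-2) =
 2^((k-l)(2-q)) V_k^(q-2), so the g_k^2 coefficient is sum_(l<=k) 2^-(k-l) 2^((k-l)(2-q)) =
 sum_m 2^(-m(q-1)) <= C, plus the term l = k+1: V_(k+1)^(q-2) <= V_k^(q-2).
`doob`: int V_K^q <= C int |a|^q, V = dyadic maximal function (levels <= K). Elementary: weak type
 lam |{V > lam}| <= int_{V > lam} |g| + layer cake + Hoelder; or the pathwise Doob inequality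
   M_T^q <= sum_i h(M_i)(S_(i+1) - S_i) + (q/(q-1))^q S_T^q,  h(x) = -(q^2/(q-1)) x^(q-1),
 S_i = E_i|g| >= 0, M_i = max_(j<=i) S_j, whose middle sum has mean zero.
-/
import Pool.Agent.Lib.Emb.Dy1

open MeasureTheory Complex
open scoped BigOperators ENNReal

namespace Emb

theorem tp_tangent {s : ℝ} (hs0 : 0 < s) (hs1 : s < 1) {u v M : ℝ} (hu : 0 ≤ u) (huv : u ≤ v)
    (hv : v ≤ M) : s * M ^ (s - 1) * (v - u) ≤ v ^ s - u ^ s := by
  rcases eq_or_lt_of_le (hu.trans huv) with h0 | h0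
  · have hv0 : v = 0 := h0.symm
    subst hv0
    have hu0 : u = 0 := le_antisymm huv hu
    subst hu0
    simp
  have huv0 : 0 ≤ u / v := by positivity
  have h1 : (1 + (u / v - 1)) ^ s ≤ 1 + s * (u / v - 1) :=
    rpow_one_add_le_one_add_mul_self (by linarith) hs0.le hs1.le
  have h2 : (1 + (u / v - 1)) = u / v := by ring
  rw [h2, Real.div_rpow hu h0.le] at h1
  have hvs : 0 < v ^ s := Real.rpow_pos_of_pos h0 _
  rw [div_le_iff₀ hvs] at h1
  have h3 : v ^ s = v ^ (s - 1) * v := by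
    rw [← Real.rpow_add_one h0.ne']; congr 1; ring
  have h4 : (1 + s * (u / v - 1)) * v ^ s = v ^ s - s * v ^ (s - 1) * (v - u) := by
    rw [h3]
    field_simp
    ring
  have h5 : M ^ (s - 1) ≤ v ^ (s - 1) := Real.rpow_le_rpow_of_nonpos h0 hv (by linarith)
  have h6 : s * M ^ (s - 1) * (v - u) ≤ s * v ^ (s - 1) * (v - u) :=
    mul_le_mul_of_nonneg_right (mul_le_mul_of_nonneg_left h5 hs0.le) (by linarith)
  linarith

theorem tp_mono {q : ℝ} (hq1 : 1 < q) (hq2 : q < 2) {M : ℝ} :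
    MonotoneOn (fun v : ℝ => q * |v| ^ (q - 2) * v - q * (q - 1) * M ^ (q - 2) * v)
      (Set.Ioo (-M) M) := by
  have hpos : ∀ v : ℝ, 0 ≤ v → |v| ^ (q - 2) * v = v ^ (q - 1) := by
    intro v hv
    rcases eq_or_lt_of_le hv with h | h
    · rw [← h, mul_zero, Real.zero_rpow (by linarith)]
    · rw [abs_of_pos h, ← Real.rpow_add_one h.ne']
      congr 1
      ring
  have key : ∀ u v : ℝ, 0 ≤ u → u ≤ v → v ≤ M →
      q * |u| ^ (q - 2) * u - q * (q - 1) * M ^ (q - 2) * u ≤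
        q * |v| ^ (q - 2) * v - q * (q - 1) * M ^ (q - 2) * v := by
    intro u v hu huv hv
    have h1 := tp_tangent (s := q - 1) (by linarith) (by linarith) hu huv hv
    have h2 : q - 1 - 1 = q - 2 := by ring
    rw [h2, ← hpos u hu, ← hpos v (hu.trans huv)] at h1
    have h3 := mul_le_mul_of_nonneg_left h1 (show 0 ≤ q by linarith)
    linarith
  have hz : q * |(0:ℝ)| ^ (q - 2) * 0 - q * (q - 1) * M ^ (q - 2) * 0 = 0 := by ring
  intro u hu v hv huv
  show q * |u| ^ (q - 2) * u - q * (q - 1) * M ^ (q - 2) * u ≤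
    q * |v| ^ (q - 2) * v - q * (q - 1) * M ^ (q - 2) * v
  rcases le_total 0 u with h | h
  · exact key u v h huv hv.2.le
  rcases le_total 0 v with h' | h'
  · have h1 := key 0 v le_rfl h' hv.2.le
    have h2 := key 0 (-u) le_rfl (by linarith) (by linarith [hu.1])
    rw [hz] at h1 h2
    rw [abs_neg] at h2
    linarith
  · have h1 := key (-v) (-u) (by linarith) (by linarith) (by linarith [hu.1])
    rw [abs_neg, abs_neg] at h1
    linarith

theorem tp_convex {q : ℝ} (hq1 : 1 < q) (hq2 : q < 2) (M : ℝ) :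
    ConvexOn ℝ (Set.Icc (-M) M) (fun v : ℝ => |v| ^ q - q * (q - 1) / 2 * M ^ (q - 2) * v ^ 2) := by
  have hder : ∀ v : ℝ, HasDerivAt (fun v : ℝ => |v| ^ q - q * (q - 1) / 2 * M ^ (q - 2) * v ^ 2)
      (q * |v| ^ (q - 2) * v - q * (q - 1) * M ^ (q - 2) * v) v := by
    intro v
    have h1 := hasDerivAt_abs_rpow v hq1
    have h2 := ((hasDerivAt_pow 2 v).const_mul (q * (q - 1) / 2 * M ^ (q - 2)))
    have h3 := h1.sub h2
    have e : q * |v| ^ (q - 2) * v - q * (q - 1) / 2 * M ^ (q - 2) * (((2:ℕ):ℝ) * v ^ (2 - 1)) =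
        q * |v| ^ (q - 2) * v - q * (q - 1) * M ^ (q - 2) * v := by
      push_cast
      ring
    rw [e] at h3
    exact h3
  refine MonotoneOn.convexOn_of_deriv (convex_Icc _ _)
    (fun v _ => (hder v).continuousAt.continuousWithinAt)
    (fun v _ => (hder v).differentiableAt.differentiableWithinAt) ?_
  rw [interior_Icc]
  intro u hu v hv huv
  rw [(hder u).deriv, (hder v).deriv]
  exact tp_mono hq1 hq2 hu hv huv

theorem two_point (q : ℝ) (hq1 : 1 < q) (hq2 : q < 2) : ∃ c : ℝ, 0 < c ∧ ∀ x d : ℝ,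
    |x| ^ q + c * (d ^ 2 * (|x| + |d|) ^ (q - 2)) ≤ (|x + d| ^ q + |x - d| ^ q) / 2 := by
  refine ⟨q * (q - 1) / 2, by have : 0 < q - 1 := by linarith
                              positivity, fun x d => ?_⟩
  have h := tp_convex hq1 hq2 (|x| + |d|)
  have hx1 := le_abs_self x
  have hx2 := neg_abs_le x
  have hd1 := le_abs_self d
  have hd2 := neg_abs_le d
  have h1 : x + d ∈ Set.Icc (-(|x| + |d|)) (|x| + |d|) := ⟨by linarith, by linarith⟩
  have h2 : x - d ∈ Set.Icc (-(|x| + |d|)) (|x| + |d|) := ⟨by linarith, by linarith⟩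
  have h3 := h.2 h1 h2 (show (0:ℝ) ≤ 1 / 2 by norm_num) (show (0:ℝ) ≤ 1 / 2 by norm_num) (by norm_num)
  simp only [smul_eq_mul] at h3
  have e : 1 / 2 * (x + d) + 1 / 2 * (x - d) = x := by ring
  rw [e] at h3
  obtain ⟨W, hW⟩ : ∃ W, W = (|x| + |d|) ^ (q - 2) := ⟨_, rfl⟩
  rw [← hW] at h3 ⊢
  nlinarith

theorem av_abs_nonneg (K : ℕ) (a : ℕ → ℝ) (l i : ℕ) : 0 ≤ av K (fun j => |a j|) l i := by
  unfold av
  positivity

theorem vV_nonneg (K : ℕ) (a : ℕ → ℝ) (l i : ℕ) : 0 ≤ vV K a l i := by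
  induction l generalizing i with
  | zero => rw [vV]; exact av_abs_nonneg K a 0 i
  | succ l ih =>
    rw [vV]
    split_ifs
    · exact (ih _).trans (le_max_left _ _)
    · exact ih _

theorem vV_mono (K : ℕ) (a : ℕ → ℝ) (l i : ℕ) : vV K a l (i / 2) ≤ vV K a (l + 1) i := by
  rw [vV.eq_2]
  split_ifs
  · exact le_max_left _ _
  · exact le_rfl

theorem av_abs_le_vV (K : ℕ) (a : ℕ → ℝ) {l : ℕ} (hl : l ≤ K) (i : ℕ) :
    av K (fun j => |a j|) l i ≤ vV K a l i := by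
  rcases l with _ | l
  · rw [vV]
  · rw [vV, if_pos hl]
    exact le_max_right _ _

theorem abs_av_le_vV (K : ℕ) (a : ℕ → ℝ) {l : ℕ} (hl : l ≤ K) (i : ℕ) :
    |av K a l i| ≤ vV K a l i := by
  refine le_trans ?_ (av_abs_le_vV K a hl i)
  unfold av
  rw [abs_div, abs_of_pos (show (0:ℝ) < 2 ^ (K - l) by positivity)]
  exact div_le_div_of_nonneg_right (Finset.abs_sum_le_sum_abs _ _) (by positivity)

theorem vV_double (K : ℕ) (a : ℕ → ℝ) (l i : ℕ) : vV K a (l + 1) i ≤ 2 * vV K a l (i / 2) := by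
  have h0 := vV_nonneg K a l (i / 2)
  rw [vV.eq_2]
  split_ifs with h
  · refine max_le (by linarith) ?_
    have h1 := av_abs_le_vV K a (show l ≤ K by omega) (i / 2)
    have h2 := av_split (show l < K by omega) (fun j => |a j|) (i / 2)
    have h3 := av_abs_nonneg K a (l + 1) (2 * (i / 2))
    have h4 := av_abs_nonneg K a (l + 1) (2 * (i / 2) + 1)
    rcases Nat.even_or_odd' i with ⟨j, hj | hj⟩
    · have e : 2 * (i / 2) = i := by omega
      rw [e] at h2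
      rw [e] at h4
      linarith
    · have e : 2 * (i / 2) + 1 = i := by omega
      rw [e] at h2
      linarith
  · linarith

theorem sum_pairs (f : ℕ → ℝ) (n : ℕ) :
    ∑ i ∈ Finset.range (2 * n), f i = ∑ j ∈ Finset.range n, (f (2 * j) + f (2 * j + 1)) := by
  induction n with
  | zero => simp
  | succ n ih =>
    rw [show 2 * (n + 1) = 2 * n + 1 + 1 by ring, Finset.sum_range_succ, Finset.sum_range_succ, ih,
      Finset.sum_range_succ]
    ring

/-- Weight comparison on one cell. -/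
theorem dy_weight {q : ℝ} (hq2 : q < 2) {x d V : ℝ} (hx : |x| ≤ V) (hd : |x + d| ≤ V) :
    d ^ 2 * V ^ (q - 2) ≤ 3 ^ (2 - q) * (d ^ 2 * (|x| + |d|) ^ (q - 2)) := by
  rcases eq_or_ne d 0 with rfl | hd0
  · simp
  have hd0' : 0 < |d| := abs_pos.2 hd0
  have h1 : |d| ≤ 2 * V := by
    have : d = (x + d) - x := by ring
    have h := abs_sub (x + d) x
    rw [← this] at h
    linarith
  have hV : 0 < V := by linarith
  have h2 : |x| + |d| ≤ 3 * V := by linarith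
  have h3 : 0 < |x| + |d| := by have := abs_nonneg x; linarith
  have h4 : (3 * V) ^ (q - 2) ≤ (|x| + |d|) ^ (q - 2) :=
    Real.rpow_le_rpow_of_nonpos h3 h2 (by linarith)
  rw [Real.mul_rpow (by norm_num) hV.le] at h4
  have h5 : (3:ℝ) ^ (2 - q) * 3 ^ (q - 2) = 1 := by
    rw [← Real.rpow_add (by norm_num)]
    have : 2 - q + (q - 2) = 0 := by ring
    rw [this, Real.rpow_zero]
  have h6 : 0 < (3:ℝ) ^ (2 - q) := Real.rpow_pos_of_pos (by norm_num) _
  have h7 : V ^ (q - 2) ≤ 3 ^ (2 - q) * (|x| + |d|) ^ (q - 2) := by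
    calc V ^ (q - 2) = 3 ^ (2 - q) * (3 ^ (q - 2) * V ^ (q - 2)) := by
          rw [← mul_assoc, h5, one_mul]
      _ ≤ _ := mul_le_mul_of_nonneg_left h4 h6.le
  calc d ^ 2 * V ^ (q - 2) ≤ d ^ 2 * (3 ^ (2 - q) * (|x| + |d|) ^ (q - 2)) :=
        mul_le_mul_of_nonneg_left h7 (sq_nonneg d)
    _ = _ := by ring

/-- One level: the increment of the `q`-th moments controls the weighted square sum. -/
theorem dy_level {q c : ℝ} (hq2 : q < 2) (hc : 0 < c)
    (htp : ∀ x d : ℝ, |x| ^ q + c * (d ^ 2 * (|x| + |d|) ^ (q - 2)) ≤ (|x + d| ^ q + |x - d| ^ q) / 2)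
    (K : ℕ) (a : ℕ → ℝ) {k : ℕ} (hk : k + 1 ≤ K) :
    (∑ i ∈ Finset.range (2 ^ (k + 1)), gv K a (k + 1) i ^ 2 * vV K a (k + 1) i ^ (q - 2)) / 2 ^ (k + 1) ≤
      3 ^ (2 - q) / c * ((∑ i ∈ Finset.range (2 ^ (k + 1)), |av K a (k + 1) i| ^ q) / 2 ^ (k + 1) -
        (∑ i ∈ Finset.range (2 ^ k), |av K a k i| ^ q) / 2 ^ k) := by
  have h6 : 0 < (3:ℝ) ^ (2 - q) := Real.rpow_pos_of_pos (by norm_num) _
  have hcell : ∀ j : ℕ, gv K a (k + 1) (2 * j) ^ 2 * vV K a (k + 1) (2 * j) ^ (q - 2) +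
      gv K a (k + 1) (2 * j + 1) ^ 2 * vV K a (k + 1) (2 * j + 1) ^ (q - 2) ≤
      2 * (3 ^ (2 - q) / c) * ((|av K a (k + 1) (2 * j)| ^ q + |av K a (k + 1) (2 * j + 1)| ^ q) / 2 -
        |av K a k j| ^ q) := by
    intro j
    obtain ⟨x, hx⟩ : ∃ x, x = av K a k j := ⟨_, rfl⟩
    obtain ⟨d, hd⟩ : ∃ d, d = gv K a (k + 1) (2 * j) := ⟨_, rfl⟩
    have hp := gv_pair K a (k + 1) j
    have hd' : gv K a (k + 1) (2 * j + 1) = -d := by rw [hd]; linarith
    have e1 : av K a (k + 1) (2 * j) = x + d := by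
      rw [hd, hx]
      unfold gv
      rw [if_pos ⟨by omega, hk⟩, Nat.add_sub_cancel, show 2 * j / 2 = j by omega]
      ring
    have e2 : av K a (k + 1) (2 * j + 1) = x - d := by
      have := hd'
      unfold gv at this
      rw [if_pos ⟨by omega, hk⟩, Nat.add_sub_cancel, show (2 * j + 1) / 2 = j by omega, ← hx] at this
      linarith
    have hxV1 : |x| ≤ vV K a (k + 1) (2 * j) := by
      have h1 := abs_av_le_vV K a (show k ≤ K by omega) j
      have h2 := vV_mono K a k (2 * j)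
      rw [show 2 * j / 2 = j by omega] at h2
      rw [hx]
      exact h1.trans h2
    have hxV2 : |x| ≤ vV K a (k + 1) (2 * j + 1) := by
      have h1 := abs_av_le_vV K a (show k ≤ K by omega) j
      have h2 := vV_mono K a k (2 * j + 1)
      rw [show (2 * j + 1) / 2 = j by omega] at h2
      rw [hx]
      exact h1.trans h2
    have hV1 : |x + d| ≤ vV K a (k + 1) (2 * j) := by
      rw [← e1]; exact abs_av_le_vV K a hk _
    have hV2 : |x + -d| ≤ vV K a (k + 1) (2 * j + 1) := by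
      rw [← sub_eq_add_neg, ← e2]; exact abs_av_le_vV K a hk _
    have w1 := dy_weight hq2 hxV1 hV1
    have w2 := dy_weight hq2 hxV2 hV2
    rw [abs_neg, neg_sq] at w2
    have w3 := htp x d
    rw [hd', neg_sq, ← hd, e1, e2, ← hx]
    obtain ⟨Z, hZ⟩ : ∃ Z, Z = d ^ 2 * (|x| + |d|) ^ (q - 2) := ⟨_, rfl⟩
    rw [← hZ] at w1 w2 w3
    obtain ⟨I, hI⟩ : ∃ I, I = (|x + d| ^ q + |x - d| ^ q) / 2 - |x| ^ q := ⟨_, rfl⟩
    have w4 : c * Z ≤ I := by rw [hI]; linarith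
    rw [← hI]
    calc d ^ 2 * vV K a (k + 1) (2 * j) ^ (q - 2) + d ^ 2 * vV K a (k + 1) (2 * j + 1) ^ (q - 2)
        ≤ 2 * (3 ^ (2 - q) * Z) := by linarith
      _ = 2 * (3 ^ (2 - q) / c) * (c * Z) := by field_simp
      _ ≤ 2 * (3 ^ (2 - q) / c) * I := mul_le_mul_of_nonneg_left w4 (by positivity)
  have e : (2:ℕ) ^ (k + 1) = 2 * 2 ^ k := by rw [pow_succ]; ring
  have er : (2:ℝ) ^ (k + 1) = 2 * 2 ^ k := by rw [pow_succ]; ring
  rw [e, sum_pairs, sum_pairs, er]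
  have hsum := Finset.sum_le_sum fun j (_ : j ∈ Finset.range (2 ^ k)) => hcell j
  rw [← Finset.mul_sum, Finset.sum_sub_distrib, ← Finset.sum_div] at hsum
  have h2 : (0:ℝ) < 2 ^ k := by positivity
  rw [div_le_iff₀ (by positivity)]
  refine hsum.trans (le_of_eq ?_)
  field_simp

theorem lint_real {k : ℕ} {f : ℕ → ℝ} (hf : ∀ i, 0 ≤ f i) :
    ∫⁻ t in Set.Ico (0:ℝ) 1, ENNReal.ofReal (f (ix k t)) =
      ENNReal.ofReal ((∑ i ∈ Finset.range (2 ^ k), f i) / 2 ^ k) := by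
  rw [lint_level k (fun i => ENNReal.ofReal (f i)), div_eq_mul_inv,
    ENNReal.ofReal_mul (Finset.sum_nonneg fun i _ => hf i),
    ENNReal.ofReal_sum_of_nonneg (fun i _ => hf i), ENNReal.ofReal_inv_of_pos (by positivity),
    ENNReal.ofReal_pow (by norm_num), ENNReal.ofReal_ofNat]

theorem dy_sum (q : ℝ) (hq1 : 1 < q) (hq2 : q < 2) : ∃ C : ℝ, 0 < C ∧ ∀ (K : ℕ) (a : ℕ → ℝ),
    ∑ k ∈ Finset.Icc 1 K, ∫⁻ t in Set.Ico (0:ℝ) 1,
        ENNReal.ofReal (gd K a k t ^ 2 * vV K a k (ix k t) ^ (q - 2)) ≤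
      ENNReal.ofReal C * ∫⁻ t in Set.Ico (0:ℝ) 1, ENNReal.ofReal (|a (ix K t)| ^ q) := by
  obtain ⟨c, hc, htp⟩ := two_point q hq1 hq2
  have h6 : 0 < (3:ℝ) ^ (2 - q) := Real.rpow_pos_of_pos (by norm_num) _
  refine ⟨3 ^ (2 - q) / c, by positivity, fun K a => ?_⟩
  have hnn : ∀ k i, 0 ≤ gv K a k i ^ 2 * vV K a k i ^ (q - 2) := fun k i =>
    mul_nonneg (sq_nonneg _) (Real.rpow_nonneg (vV_nonneg K a k i) _)
  have hlev : ∀ k, ∫⁻ t in Set.Ico (0:ℝ) 1,
      ENNReal.ofReal (gd K a k t ^ 2 * vV K a k (ix k t) ^ (q - 2)) =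
      ENNReal.ofReal ((∑ i ∈ Finset.range (2 ^ k), gv K a k i ^ 2 * vV K a k i ^ (q - 2)) / 2 ^ k) := by
    intro k
    rw [← lint_real (hnn k)]
    refine setLIntegral_congr_fun measurableSet_Ico fun t ht => ?_
    show ENNReal.ofReal (gd K a k t ^ 2 * vV K a k (ix k t) ^ (q - 2)) = _
    rw [gd_eq_gv K a k ht.1]
  rw [Finset.sum_congr rfl fun k _ => hlev k,
    lint_real (f := fun i => |a i| ^ q) (fun i => Real.rpow_nonneg (abs_nonneg _) _),
    ← ENNReal.ofReal_mul (by positivity),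
    ← ENNReal.ofReal_sum_of_nonneg (fun k _ => div_nonneg
      (Finset.sum_nonneg fun i _ => hnn k i) (by positivity))]
  refine ENNReal.ofReal_le_ofReal ?_
  have key : ∀ n, n ≤ K →
      ∑ k ∈ Finset.Icc 1 n, (∑ i ∈ Finset.range (2 ^ k), gv K a k i ^ 2 * vV K a k i ^ (q - 2)) / 2 ^ k ≤
      3 ^ (2 - q) / c * ((∑ i ∈ Finset.range (2 ^ n), |av K a n i| ^ q) / 2 ^ n -
        (∑ i ∈ Finset.range (2 ^ 0), |av K a 0 i| ^ q) / 2 ^ 0) := by
    intro n
    induction n with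
    | zero => intro _; simp
    | succ n ih =>
      intro hn
      rw [Finset.sum_Icc_succ_top (by omega)]
      have h1 := ih (by omega)
      have h2 := dy_level hq2 hc htp K a hn
      calc _ ≤ _ := add_le_add h1 h2
        _ = _ := by ring
  refine (key K le_rfl).trans ?_
  refine mul_le_mul_of_nonneg_left ?_ (by positivity)
  have h0 : 0 ≤ (∑ i ∈ Finset.range (2 ^ 0), |av K a 0 i| ^ q) / (2:ℝ) ^ 0 := by positivity
  have h1 : ∑ i ∈ Finset.range (2 ^ K), |av K a K i| ^ q = ∑ i ∈ Finset.range (2 ^ K), |a i| ^ q :=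
    Finset.sum_congr rfl fun i _ => by rw [av_top]
  rw [h1]
  linarith

end Emb
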