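/-
CHUNK DY3 (see the header of Dy2.lean for the proofs of `dy_main`; needs dy_sum, vV_double, vV_mono).
-/
import Pool.Agent.Lib.Emb.Dy2

open MeasureTheory Complex
open scoped BigOperators ENNReal

namespace Emb

/-- `V_l` along the path of `t`. -/
noncomputable def vpath (K : ℕ) (a : ℕ → ℝ) (t : ℝ) (l : ℕ) : ℝ := vV K a l (ix l t)

theorem vpath_nonneg (K : ℕ) (a : ℕ → ℝ) (t : ℝ) (l : ℕ) : 0 ≤ vpath K a t l :=
  vV_nonneg K a l (ix l t)

theorem vpath_succ_ge (K : ℕ) (a : ℕ → ℝ) {t : ℝ} (ht : 0 ≤ t) (l : ℕ) :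
    vpath K a t l ≤ vpath K a t (l + 1) := by
  unfold vpath
  rw [ix_half (l := l) ht]
  exact vV_mono K a l (ix (l + 1) t)

theorem vpath_succ_le (K : ℕ) (a : ℕ → ℝ) {t : ℝ} (ht : 0 ≤ t) (l : ℕ) :
    vpath K a t (l + 1) ≤ 2 * vpath K a t l := by
  unfold vpath
  rw [ix_half (l := l) ht]
  exact vV_double K a l (ix (l + 1) t)

theorem vpath_mono (K : ℕ) (a : ℕ → ℝ) {t : ℝ} (ht : 0 ≤ t) : Monotone (vpath K a t) :=
  monotone_nat_of_le_succ (vpath_succ_ge K a ht)

theorem vpath_double (K : ℕ) (a : ℕ → ℝ) {t : ℝ} (ht : 0 ≤ t) (l m : ℕ) :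
    vpath K a t (l + m) ≤ 2 ^ m * vpath K a t l := by
  induction m with
  | zero => simp
  | succ m ih =>
    calc vpath K a t (l + (m + 1)) = vpath K a t (l + m + 1) := rfl
      _ ≤ 2 * vpath K a t (l + m) := vpath_succ_le K a ht _
      _ ≤ 2 * (2 ^ m * vpath K a t l) := by linarith
      _ = 2 ^ (m + 1) * vpath K a t l := by ring

theorem gd_le_vpath (K : ℕ) (a : ℕ → ℝ) {t : ℝ} (ht : 0 ≤ t) (k : ℕ) :
    |gd K a k t| ≤ 2 * vpath K a t k := by
  unfold gd
  split_ifs with h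
  · have h1 := abs_av_le_vV K a h.2 (ix k t)
    have h2 := abs_av_le_vV K a (l := k - 1) (by omega) (ix (k - 1) t)
    have h3 := vpath_mono K a ht (Nat.sub_le k 1)
    unfold vpath at h3
    calc |gE K a k t - gE K a (k - 1) t| ≤ |gE K a k t| + |gE K a (k - 1) t| := abs_sub _ _
      _ ≤ vV K a k (ix k t) + vV K a (k - 1) (ix (k - 1) t) := by
          unfold gE; exact add_le_add h1 h2
      _ ≤ 2 * vpath K a t k := by unfold vpath; linarith
  · rw [abs_zero]
    have := vpath_nonneg K a t k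
    linarith

theorem vpath_zero (K : ℕ) (a : ℕ → ℝ) {t : ℝ} (ht : 0 ≤ t) {l : ℕ} (h : vpath K a t l = 0)
    (k : ℕ) : vpath K a t k = 0 := by
  have h0 : vpath K a t 0 = 0 := by
    have h1 := vpath_mono K a ht (Nat.zero_le l)
    have h2 := vpath_nonneg K a t 0
    linarith
  have h1 := vpath_double K a ht 0 k
  rw [h0, mul_zero, zero_add] at h1
  exact le_antisymm h1 (vpath_nonneg K a t k)

theorem AA_zero_of_vV (K : ℕ) (a : ℕ → ℝ) (l : ℕ) : ∀ t ∈ Set.Ico (0:ℝ) 1,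
    vV K a l (ix l t) = 0 → AA K a l t = 0 := by
  intro t ht h
  have hz : ∀ k, gd K a k t = 0 := by
    intro k
    have h1 := gd_le_vpath K a ht.1 k
    rw [vpath_zero K a ht.1 (l := l) h k, mul_zero] at h1
    exact abs_nonpos_iff.mp h1
  unfold AA
  simp [hz]

/-- The pointwise inequality behind `dy_main`. -/
theorem dy_point (q : ℝ) (hq1 : 1 < q) (hq2 : q < 2) (K : ℕ) (a : ℕ → ℝ) {t : ℝ}
    (ht : t ∈ Set.Ico (0:ℝ) 1) :
    ∑ l ∈ Finset.range (K + 2), AA K a l t * vV K a l (ix l t) ^ (q - 2) ≤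
      ((1 - (2:ℝ) ^ (1 - q))⁻¹ + 1) *
        ∑ k ∈ Finset.Icc 1 K, gd K a k t ^ 2 * vV K a k (ix k t) ^ (q - 2) := by
  have hρ1 : (2:ℝ) ^ (1 - q) < 1 := Real.rpow_lt_one_of_one_lt_of_neg one_lt_two (by linarith)
  have hρ0 : (0:ℝ) < (2:ℝ) ^ (1 - q) := by positivity
  set ρ : ℝ := (2:ℝ) ^ (1 - q) with hρ
  have hinv : 0 < (1 - ρ)⁻¹ := inv_pos.mpr (by linarith)
  by_cases h0 : vpath K a t 0 = 0
  · have hl : ∀ l, vV K a l (ix l t) = 0 := fun l => vpath_zero K a ht.1 h0 l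
    have hA : ∀ l, AA K a l t = 0 := fun l => AA_zero_of_vV K a l t ht (hl l)
    simp only [hA, zero_mul, Finset.sum_const_zero]
    apply mul_nonneg (by linarith)
    apply Finset.sum_nonneg
    intro k _
    exact mul_nonneg (sq_nonneg _) (Real.rpow_nonneg (vV_nonneg K a _ _) _)
  · have hv : ∀ l, 0 < vpath K a t l := fun l =>
      lt_of_le_of_ne (vpath_nonneg K a t l) fun h => h0 (vpath_zero K a ht.1 h.symm 0)
    set w : ℕ → ℝ := fun k => gd K a k t ^ 2 * vpath K a t k ^ (q - 2) with hw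
    have hw0 : ∀ k, 0 ≤ w k := fun k => mul_nonneg (sq_nonneg _) (Real.rpow_nonneg (hv k).le _)
    -- comparison of the weights
    have hcmp : ∀ l m : ℕ, ((2:ℝ) ^ m)⁻¹ * vpath K a t l ^ (q - 2) ≤
        ρ ^ m * vpath K a t (l + m) ^ (q - 2) := by
      intro l m
      have h1 := vpath_double K a ht.1 l m
      have h2m : (0:ℝ) < 2 ^ m := by positivity
      have h2 : ((2:ℝ) ^ m)⁻¹ * vpath K a t (l + m) ≤ vpath K a t l := by
        rw [inv_mul_le_iff₀ h2m]; exact h1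
      have h3 : vpath K a t l ^ (q - 2) ≤ (((2:ℝ) ^ m)⁻¹ * vpath K a t (l + m)) ^ (q - 2) :=
        Real.rpow_le_rpow_of_nonpos (mul_pos (inv_pos.mpr h2m) (hv _)) h2 (by linarith)
      have h4 : (((2:ℝ) ^ m)⁻¹ * vpath K a t (l + m)) ^ (q - 2) =
          (((2:ℝ) ^ m)⁻¹) ^ (q - 2) * vpath K a t (l + m) ^ (q - 2) :=
        Real.mul_rpow (inv_pos.mpr h2m).le (hv _).le
      have h5 : ((2:ℝ) ^ m)⁻¹ * (((2:ℝ) ^ m)⁻¹) ^ (q - 2) = ρ ^ m := by
        have e1 : ((2:ℝ) ^ m)⁻¹ = (2:ℝ) ^ (-(m:ℝ)) := by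
          rw [Real.rpow_neg (by norm_num), Real.rpow_natCast]
        rw [e1, ← Real.rpow_mul (by norm_num), ← Real.rpow_add (by norm_num), hρ,
          ← Real.rpow_natCast, ← Real.rpow_mul (by norm_num)]
        congr 1; ring
      calc ((2:ℝ) ^ m)⁻¹ * vpath K a t l ^ (q - 2)
          ≤ ((2:ℝ) ^ m)⁻¹ * ((((2:ℝ) ^ m)⁻¹) ^ (q - 2) * vpath K a t (l + m) ^ (q - 2)) := by
            rw [← h4]; exact mul_le_mul_of_nonneg_left h3 (inv_pos.mpr h2m).le
        _ = ρ ^ m * vpath K a t (l + m) ^ (q - 2) := by rw [← mul_assoc, h5]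
    have hfirst : ∑ l ∈ Finset.range (K + 2),
        (∑ k ∈ Finset.Icc l K, ((2:ℝ) ^ (k - l))⁻¹ * gd K a k t ^ 2) * vpath K a t l ^ (q - 2) ≤
        (1 - ρ)⁻¹ * ∑ k ∈ Finset.range (K + 1), w k := by
      calc ∑ l ∈ Finset.range (K + 2),
          (∑ k ∈ Finset.Icc l K, ((2:ℝ) ^ (k - l))⁻¹ * gd K a k t ^ 2) *
            vpath K a t l ^ (q - 2)
          ≤ ∑ l ∈ Finset.range (K + 2), ∑ k ∈ Finset.Icc l K, ρ ^ (k - l) * w k := by
            apply Finset.sum_le_sum
            intro l _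
            rw [Finset.sum_mul]
            apply Finset.sum_le_sum
            intro k hk
            rw [Finset.mem_Icc] at hk
            have h1 := hcmp l (k - l)
            rw [show l + (k - l) = k by omega] at h1
            have h2 := mul_le_mul_of_nonneg_left h1 (sq_nonneg (gd K a k t))
            calc ((2:ℝ) ^ (k - l))⁻¹ * gd K a k t ^ 2 * vpath K a t l ^ (q - 2)
                = gd K a k t ^ 2 * (((2:ℝ) ^ (k - l))⁻¹ * vpath K a t l ^ (q - 2)) := by ring
              _ ≤ _ := h2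
              _ = ρ ^ (k - l) * w k := by rw [hw]; ring
        _ = ∑ k ∈ Finset.range (K + 1), ∑ l ∈ Finset.range (k + 1), ρ ^ (k - l) * w k := by
            rw [Finset.sum_sigma', Finset.sum_sigma']
            refine Finset.sum_bij' (fun x _ => ⟨x.2, x.1⟩) (fun x _ => ⟨x.2, x.1⟩) ?_ ?_ ?_ ?_ ?_
            · rintro ⟨l, k⟩ h
              simp only [Finset.mem_sigma, Finset.mem_range, Finset.mem_Icc] at h ⊢
              omega
            · rintro ⟨k, l⟩ h
              simp only [Finset.mem_sigma, Finset.mem_range, Finset.mem_Icc] at h ⊢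
              omega
            · rintro ⟨l, k⟩ _; rfl
            · rintro ⟨k, l⟩ _; rfl
            · rintro ⟨l, k⟩ _; rfl
        _ ≤ ∑ k ∈ Finset.range (K + 1), (1 - ρ)⁻¹ * w k := by
            apply Finset.sum_le_sum
            intro k _
            rw [← Finset.sum_mul]
            apply mul_le_mul_of_nonneg_right _ (hw0 k)
            have h1 : ∑ l ∈ Finset.range (k + 1), ρ ^ (k - l) =
                ∑ j ∈ Finset.range (k + 1), ρ ^ j := by
              have := Finset.sum_range_reflect (fun j => ρ ^ j) (k + 1)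
              simpa using this
            rw [h1]
            have h2 : Summable fun j : ℕ => ρ ^ j := summable_geometric_of_lt_one hρ0.le hρ1
            calc ∑ j ∈ Finset.range (k + 1), ρ ^ j ≤ ∑' j : ℕ, ρ ^ j :=
                  h2.sum_le_tsum _ fun j _ => pow_nonneg hρ0.le j
              _ = (1 - ρ)⁻¹ := tsum_geometric_of_lt_one hρ0.le hρ1
        _ = (1 - ρ)⁻¹ * ∑ k ∈ Finset.range (K + 1), w k := by rw [Finset.mul_sum]
    have hw00 : w 0 = 0 := by simp [hw, gd]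
    have hsecond : ∑ l ∈ Finset.range (K + 2), gd K a (l - 1) t ^ 2 * vpath K a t l ^ (q - 2) ≤
        ∑ k ∈ Finset.range (K + 1), w k := by
      rw [Finset.sum_range_succ']
      have e0 : gd K a (0 - 1) t = 0 := by simp [gd]
      rw [e0]
      simp only [ne_eq, OfNat.ofNat_ne_zero, not_false_eq_true, zero_pow, zero_mul, add_zero]
      apply Finset.sum_le_sum
      intro k _
      rw [Nat.add_sub_cancel]
      apply mul_le_mul_of_nonneg_left _ (sq_nonneg _)
      exact Real.rpow_le_rpow_of_nonpos (hv k) (vpath_succ_ge K a ht.1 k) (by linarith)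
    have hrange : ∑ k ∈ Finset.range (K + 1), w k = ∑ k ∈ Finset.Icc 1 K, w k := by
      rw [Finset.sum_range_succ', hw00, add_zero, Finset.range_eq_Ico,
        Finset.sum_Ico_add' w 0 K 1]
      congr 1
    calc ∑ l ∈ Finset.range (K + 2), AA K a l t * vV K a l (ix l t) ^ (q - 2)
        = ∑ l ∈ Finset.range (K + 2),
          (∑ k ∈ Finset.Icc l K, ((2:ℝ) ^ (k - l))⁻¹ * gd K a k t ^ 2) *
            vpath K a t l ^ (q - 2) +
          ∑ l ∈ Finset.range (K + 2), gd K a (l - 1) t ^ 2 * vpath K a t l ^ (q - 2) := by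
          rw [← Finset.sum_add_distrib]
          apply Finset.sum_congr rfl
          intro l _
          unfold AA vpath
          ring
      _ ≤ (1 - ρ)⁻¹ * ∑ k ∈ Finset.range (K + 1), w k + ∑ k ∈ Finset.range (K + 1), w k :=
          add_le_add hfirst hsecond
      _ = ((1 - ρ)⁻¹ + 1) * ∑ k ∈ Finset.Icc 1 K, w k := by rw [hrange]; ring

theorem measurable_vVix (K : ℕ) (a : ℕ → ℝ) (l : ℕ) (r : ℝ) :
    Measurable fun t : ℝ => vV K a l (ix l t) ^ r :=
  (measurable_from_top (f := fun i => vV K a l i ^ r)).comp (measurable_ix l)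

theorem dy_main (q : ℝ) (hq1 : 1 < q) (hq2 : q < 2) : ∃ C : ℝ, 0 < C ∧ ∀ (K : ℕ) (a : ℕ → ℝ),
    ∑ l ∈ Finset.range (K + 2), ∫⁻ t in Set.Ico (0:ℝ) 1,
        ENNReal.ofReal (AA K a l t) * ENNReal.ofReal (vV K a l (ix l t) ^ (q - 2)) ≤
      ENNReal.ofReal C * ∫⁻ t in Set.Ico (0:ℝ) 1, ENNReal.ofReal (|a (ix K t)| ^ q) := by
  obtain ⟨C, hC, h⟩ := dy_sum q hq1 hq2
  have hρ1 : (2:ℝ) ^ (1 - q) < 1 := Real.rpow_lt_one_of_one_lt_of_neg one_lt_two (by linarith)
  have hinv : 0 < (1 - (2:ℝ) ^ (1 - q))⁻¹ := inv_pos.mpr (by linarith)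
  set c : ℝ := (1 - (2:ℝ) ^ (1 - q))⁻¹ + 1 with hc
  have hc0 : 0 < c := by linarith
  refine ⟨c * C, by positivity, fun K a => ?_⟩
  calc ∑ l ∈ Finset.range (K + 2), ∫⁻ t in Set.Ico (0:ℝ) 1,
        ENNReal.ofReal (AA K a l t) * ENNReal.ofReal (vV K a l (ix l t) ^ (q - 2))
      = ∫⁻ t in Set.Ico (0:ℝ) 1, ∑ l ∈ Finset.range (K + 2),
        ENNReal.ofReal (AA K a l t) * ENNReal.ofReal (vV K a l (ix l t) ^ (q - 2)) := by
        rw [lintegral_finsetSum]
        intro l _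
        exact (measurable_AA K a l).ennreal_ofReal.mul (measurable_vVix K a l _).ennreal_ofReal
    _ ≤ ∫⁻ t in Set.Ico (0:ℝ) 1, ENNReal.ofReal c * ∑ k ∈ Finset.Icc 1 K,
        ENNReal.ofReal (gd K a k t ^ 2 * vV K a k (ix k t) ^ (q - 2)) := by
        apply setLIntegral_mono' measurableSet_Ico
        intro t ht
        rw [← ENNReal.ofReal_sum_of_nonneg (fun k _ =>
          mul_nonneg (sq_nonneg _) (Real.rpow_nonneg (vV_nonneg K a _ _) _)),
          ← ENNReal.ofReal_mul hc0.le]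
        have e1 : ∑ l ∈ Finset.range (K + 2),
            ENNReal.ofReal (AA K a l t) * ENNReal.ofReal (vV K a l (ix l t) ^ (q - 2)) =
            ENNReal.ofReal (∑ l ∈ Finset.range (K + 2),
              AA K a l t * vV K a l (ix l t) ^ (q - 2)) := by
          rw [ENNReal.ofReal_sum_of_nonneg (fun k _ =>
            mul_nonneg (AA_nonneg K a _ _) (Real.rpow_nonneg (vV_nonneg K a _ _) _))]
          apply Finset.sum_congr rfl
          intro l _
          rw [ENNReal.ofReal_mul (AA_nonneg K a l t)]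
        rw [e1]
        exact ENNReal.ofReal_le_ofReal (dy_point q hq1 hq2 K a ht)
    _ = ENNReal.ofReal c * ∑ k ∈ Finset.Icc 1 K, ∫⁻ t in Set.Ico (0:ℝ) 1,
        ENNReal.ofReal (gd K a k t ^ 2 * vV K a k (ix k t) ^ (q - 2)) := by
        rw [lintegral_const_mul' _ _ ENNReal.ofReal_ne_top, lintegral_finsetSum]
        intro k _
        exact (((measurable_gd K a k).pow_const 2).mul
          (measurable_vVix K a k _)).ennreal_ofReal
    _ ≤ ENNReal.ofReal c * (ENNReal.ofReal C *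
        ∫⁻ t in Set.Ico (0:ℝ) 1, ENNReal.ofReal (|a (ix K t)| ^ q)) :=
        mul_le_mul_right (h K a) _
    _ = ENNReal.ofReal (c * C) * ∫⁻ t in Set.Ico (0:ℝ) 1, ENNReal.ofReal (|a (ix K t)| ^ q) := by
        rw [ENNReal.ofReal_mul hc0.le, mul_assoc]

end Emb
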