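import Pool.Agent.Lib.Emb.Path1

/-!
# Chunk A2: the pathwise bound of the maximal function

`deriv_muL`: `∂_t y_p = i log p y_p`, so `∂_t log d_p = 2 Re (i log p (k_p - 1))` and
`∂_t log muL_l = 2 Re (i UU (pr l) t)`, of modulus `≤ 2 ‖UU‖`.

`sobolev`: for `f ≥ 0` of class `C¹` on a cell `Q` of length `2^{-l}`:
`f t ≤ 2^l ∫_Q f + ∫_Q |f'|` (average of `f s` plus the oscillation).

`path_sup` by induction on `j`. `j = 0`: Sobolev for `f = muL l0` on the cell:
`f t ≤ 2^{l0} ∫ f (1 + 2^{-l0} 2‖UU‖) ≤ 2^{l0} ∫ f · 3 Th` since `1 + 2u ≤ 3(1+u²)`.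
Step: let `l = l0+j+1`, `L = ∑_{i ≤ j} DD_i`; by induction `L ≥ Lam_j(s)` for all `s` in the cell (so
`L > 0`), and for `x = muL l t / (1+(j+1))^c` one has `x ≤ L + x^{1+η} L^{-η}`.
Apply Sobolev to `f = (muL l / (1+(j+1))^c)^{1+η}` on the level `l` cell `Q ∋ t` (`Q ⊆ cell l0 i0`):
`x^{1+η} ≤ 2^l ∫_Q f (1 + 2^{-l} (1+η) 2‖UU‖) ≤ 2^l ∫_{cell l0 i0} f · 3 Th` (`η ≤ 1/4`:
`1 + 2.5u ≤ 3(1+u²)`),
and `f(s) L^{-η} ≤ x(s) (x(s)/Lam_j(s))^η`, `x(s)/Lam_j(s) ≤ muL l s/((1+j)^c Lam_j(s))`.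
If `L = ∞` there is nothing to prove.
-/

open MeasureTheory Complex ProbabilityTheory
open scoped BigOperators ENNReal

namespace Emb

theorem a2_pair (ω : Om) : Continuous (fun s : ℝ => ((s, ω) : ℝ × Om)) :=
  Continuous.prodMk continuous_id continuous_const

theorem a2_cont_muL (l : ℕ) (ω : Om) : Continuous (fun s : ℝ => muL l s ω) := by
  have h := continuous_muL l
  have h2 := a2_pair ω
  have h3 := Continuous.comp h h2
  exact h3

theorem a2_cont_Th (l : ℕ) (ω : Om) : Continuous (fun s : ℝ => Th l s ω) := by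
  have h := continuous_Th l
  have h2 := a2_pair ω
  have h3 := Continuous.comp h h2
  exact h3

theorem a2_cont_UU (l : ℕ) (ω : Om) : Continuous (fun s : ℝ => UU (pr l) s ω) := by
  have h := continuous_UU (S := pr l) fun _ hp => pr_prime hp
  have h2 := a2_pair ω
  have h3 := Continuous.comp h h2
  exact h3

/-- `Th = 1 + u²` with `u = 2^{-l} ‖UU‖` -/
lemma a2_Th (l : ℕ) (t : ℝ) (ω : Om) :
    Th l t ω = 1 + (((2 : ℝ) ^ l)⁻¹ * ‖UU (pr l) t ω‖) ^ 2 := by
  unfold Th
  have : ((4 : ℝ) ^ l)⁻¹ = ((2 : ℝ) ^ l)⁻¹ ^ 2 := by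
    rw [inv_pow, ← pow_mul, mul_comm l 2, pow_mul]
    norm_num
  rw [this]
  ring

/-- Sobolev on a cell for powers of `muL` -/
lemma a2_sob (a η : ℝ) (ha : 0 < a) (hη0 : 0 ≤ η) (hη : η ≤ 1 / 4) (l i : ℕ) (ω : Om) (t : ℝ)
    (ht : t ∈ cell l i) :
    (muL l t ω / a) ^ (1 + η) ≤ ∫ s in ((i : ℝ) / 2 ^ l)..(((i : ℝ) + 1) / 2 ^ l),
      2 ^ l * (muL l s ω / a) ^ (1 + η) * (3 * Th l s ω) := by
  set u : ℝ := (i : ℝ) / 2 ^ l with hu
  set v : ℝ := ((i : ℝ) + 1) / 2 ^ l with hv
  have h2 : (0 : ℝ) < 2 ^ l := by positivity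
  have hvu : v - u = ((2 : ℝ) ^ l)⁻¹ := by
    rw [hu, hv, ← sub_div]
    rw [add_sub_cancel_left, one_div]
  have huv : u < v := by
    have : 0 < ((2 : ℝ) ^ l)⁻¹ := by positivity
    linarith
  have hpos : ∀ s, 0 < muL l s ω / a := fun s => div_pos (muL_pos l s ω) ha
  have hder : ∀ s, HasDerivAt (fun s => (muL l s ω / a) ^ (1 + η))
      ((1 + η) * (muL l s ω / a) ^ (1 + η) * (2 * (Complex.I * UU (pr l) s ω).re)) s := by
    intro s
    have h1 := ((hasDerivAt_muL l s ω).div_const a).rpow_const (p := 1 + η)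
      (Or.inl (hpos s).ne')
    refine h1.congr_deriv ?_
    have h4 : ∀ X : ℝ, 0 < X → X ^ (1 + η) = X * X ^ (1 + η - 1) := by
      intro X hX
      rw [Real.rpow_sub_one hX.ne']
      field_simp
    rw [h4 _ (hpos s)]
    ring
  have hcont : Continuous fun s => (muL l s ω / a) ^ (1 + η) :=
    continuous_iff_continuousAt.2 fun s => (hder s).continuousAt
  have hcont' : Continuous fun s =>
      (1 + η) * (muL l s ω / a) ^ (1 + η) * (2 * (Complex.I * UU (pr l) s ω).re) :=
    (continuous_const.mul hcont).mul (continuous_const.mul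
      (Complex.continuous_re.comp (continuous_const.mul (a2_cont_UU l ω))))
  have hsob := sobolev u v huv _ _ hder hcont' (fun s => (Real.rpow_pos_of_pos (hpos s) _).le) t
    ⟨ht.1, ht.2.le⟩
  have hI1 : IntervalIntegrable (fun s => 2 ^ l * (muL l s ω / a) ^ (1 + η)) volume u v := by
    apply Continuous.intervalIntegrable
    exact continuous_const.mul hcont
  have hI2 : IntervalIntegrable (fun s =>
      |(1 + η) * (muL l s ω / a) ^ (1 + η) * (2 * (Complex.I * UU (pr l) s ω).re)|) volume u v := by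
    apply Continuous.intervalIntegrable
    exact hcont'.abs
  rw [hvu, inv_inv, ← intervalIntegral.integral_const_mul,
    ← intervalIntegral.integral_add hI1 hI2] at hsob
  refine hsob.trans ?_
  refine intervalIntegral.integral_mono_on huv.le (hI1.add hI2)
    (((continuous_const.mul hcont).mul (continuous_const.mul (a2_cont_Th l ω))).intervalIntegrable
      _ _) fun s _ => ?_
  set f : ℝ := (muL l s ω / a) ^ (1 + η) with hf
  have hf0 : 0 < f := Real.rpow_pos_of_pos (hpos s) _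
  set U : ℝ := ((2 : ℝ) ^ l)⁻¹ * ‖UU (pr l) s ω‖ with hU
  have hU0 : 0 ≤ U := by positivity
  have hre : |(Complex.I * UU (pr l) s ω).re| ≤ 2 ^ l * U := by
    have h1 := Complex.abs_re_le_norm (Complex.I * UU (pr l) s ω)
    rw [norm_mul, Complex.norm_I, one_mul] at h1
    rw [hU, ← mul_assoc, mul_inv_cancel₀ h2.ne', one_mul]
    exact h1
  have habs : |(1 + η) * f * (2 * (Complex.I * UU (pr l) s ω).re)| ≤
      (1 + η) * f * (2 * (2 ^ l * U)) := by
    rw [abs_mul, abs_mul, abs_mul, abs_of_pos hf0, abs_of_pos (by linarith : 0 < 1 + η),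
      abs_of_pos (two_pos)]
    gcongr
  rw [a2_Th, ← hU]
  have h5 : (1 + η) * f * (2 * (2 ^ l * U)) ≤ 2 ^ l * f * (5 / 2 * U) := by
    have h6 : 0 ≤ 2 ^ l * f * U := by positivity
    nlinarith
  have h7 : 0 < 2 ^ l * f := by positivity
  have h8 : 1 + 5 / 2 * U ≤ 3 * (1 + U ^ 2) := by nlinarith [sq_nonneg (U - 5 / 12)]
  calc 2 ^ l * f + |(1 + η) * f * (2 * (Complex.I * UU (pr l) s ω).re)| ≤
      2 ^ l * f * (1 + 5 / 2 * U) := by linarith
    _ ≤ 2 ^ l * f * (3 * (1 + U ^ 2)) := mul_le_mul_of_nonneg_left h8 h7.le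

/-- interval integrals as lower integrals over cells -/
lemma a2_lint {u v : ℝ} (huv : u ≤ v) {g : ℝ → ℝ} (hg : Continuous g) (h0 : ∀ s, 0 ≤ g s) :
    ENNReal.ofReal (∫ s in u..v, g s) = ∫⁻ s in Set.Ico u v, ENNReal.ofReal (g s) := by
  rw [intervalIntegral.integral_of_le huv, ← integral_Ico_eq_integral_Ioc,
    ofReal_integral_eq_lintegral_ofReal]
  · exact (hg.continuousOn.integrableOn_Icc).mono_set Set.Ico_subset_Icc_self
  · exact Filter.Eventually.of_forall h0

/-- a point of a cell lies in a subcell -/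
lemma a2_subcell {l0 i0 l : ℕ} (hl : l0 ≤ l) {t : ℝ} (ht : t ∈ cell l0 i0) :
    ∃ i, t ∈ cell l i ∧ cell l i ⊆ cell l0 i0 := by
  have h2 : (0 : ℝ) < 2 ^ l := by positivity
  have h20 : (0 : ℝ) < 2 ^ l0 := by positivity
  obtain ⟨ht1, ht2⟩ := ht
  have ht0 : 0 ≤ t := le_trans (by positivity) ht1
  obtain ⟨k, rfl⟩ := Nat.exists_eq_add_of_le hl
  have h2k : (0 : ℝ) < 2 ^ k := by positivity
  rw [div_le_iff₀ h20] at ht1
  rw [lt_div_iff₀ h20] at ht2
  have hfl := Nat.floor_le (a := t * 2 ^ (l0 + k)) (by positivity)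
  have hlt := Nat.lt_floor_add_one (t * 2 ^ (l0 + k))
  refine ⟨⌊t * 2 ^ (l0 + k)⌋₊, ⟨?_, ?_⟩, ?_⟩
  · rw [div_le_iff₀ h2]
    exact hfl
  · rw [lt_div_iff₀ h2]
    exact hlt
  · have hlow : i0 * 2 ^ k ≤ ⌊t * 2 ^ (l0 + k)⌋₊ := by
      apply Nat.le_floor
      push_cast
      rw [pow_add, ← mul_assoc]
      exact mul_le_mul_of_nonneg_right ht1 h2k.le
    have hup : ⌊t * 2 ^ (l0 + k)⌋₊ + 1 ≤ (i0 + 1) * 2 ^ k := by
      have h3 : ⌊t * 2 ^ (l0 + k)⌋₊ < (i0 + 1) * 2 ^ k := by
        rw [Nat.floor_lt (by positivity)]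
        push_cast
        rw [pow_add, ← mul_assoc]
        exact mul_lt_mul_of_pos_right ht2 h2k
      omega
    have hlow' : (i0 : ℝ) * 2 ^ k ≤ (⌊t * 2 ^ (l0 + k)⌋₊ : ℝ) := by exact_mod_cast hlow
    have hup' : (⌊t * 2 ^ (l0 + k)⌋₊ : ℝ) + 1 ≤ ((i0 : ℝ) + 1) * 2 ^ k := by exact_mod_cast hup
    intro s hs
    obtain ⟨hs1, hs2⟩ := hs
    rw [div_le_iff₀ h2] at hs1
    rw [lt_div_iff₀ h2] at hs2
    have e : s * 2 ^ (l0 + k) = s * 2 ^ l0 * 2 ^ k := by rw [pow_add]; ring
    constructor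
    · rw [div_le_iff₀ h20]
      exact le_of_mul_le_mul_right ((hlow'.trans hs1).trans (le_of_eq e)) h2k
    · rw [lt_div_iff₀ h20]
      exact lt_of_mul_lt_mul_right ((le_of_eq e.symm).trans_lt (hs2.trans_le hup')) h2k.le

/-- the two bounds together -/
lemma a2_main (c η : ℝ) (hc : 0 ≤ c) (hη0 : 0 < η) (hη : η ≤ 1 / 4) (l0 i0 : ℕ) (ω : Om) (j : ℕ) :
    ∀ t ∈ cell l0 i0, ENNReal.ofReal (Lam c l0 j t ω) ≤
      ∑ i ∈ Finset.range (j + 1), DD c η l0 i0 i ω := by
  -- it suffices to bound the last term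
  have hred : ∀ j : ℕ, (∀ i ≤ j, ∀ t ∈ cell l0 i0,
      ENNReal.ofReal (muL (l0 + i) t ω / (1 + (i : ℝ)) ^ c) ≤
      ∑ i' ∈ Finset.range (i + 1), DD c η l0 i0 i' ω) → ∀ t ∈ cell l0 i0,
      ENNReal.ofReal (Lam c l0 j t ω) ≤ ∑ i ∈ Finset.range (j + 1), DD c η l0 i0 i ω := by
    intro j h t ht
    obtain ⟨i, hi, hieq⟩ := Finset.exists_mem_eq_sup' (s := Finset.range (j + 1)) ⟨0, by simp⟩
      (fun i => muL (l0 + i) t ω / (1 + (i : ℝ)) ^ c)
    have hi' : i ≤ j := Nat.lt_succ_iff.1 (Finset.mem_range.1 hi)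
    have h1 : Lam c l0 j t ω = muL (l0 + i) t ω / (1 + (i : ℝ)) ^ c := hieq
    rw [h1]
    refine (h i hi' t ht).trans ?_
    exact Finset.sum_le_sum_of_subset (Finset.range_mono (by omega))
  have hlast : ∀ j : ℕ, ∀ i ≤ j, ∀ t ∈ cell l0 i0,
      ENNReal.ofReal (muL (l0 + i) t ω / (1 + (i : ℝ)) ^ c) ≤
      ∑ i' ∈ Finset.range (i + 1), DD c η l0 i0 i' ω := by
    intro j
    induction j with
    | zero =>
      intro i hi t ht
      have hi0 : i = 0 := by omega
      subst hi0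
      have h1 := a2_sob 1 0 one_pos le_rfl (by norm_num) l0 i0 ω t ht
      have e1 : ∀ s, (muL l0 s ω / 1) ^ (1 + (0 : ℝ)) = muL l0 s ω := by
        intro s
        rw [div_one, add_zero, Real.rpow_one]
      simp only [e1] at h1
      have hmul : (i0 : ℝ) / 2 ^ l0 ≤ ((i0 : ℝ) + 1) / 2 ^ l0 := by gcongr; linarith
      have h2 := a2_lint hmul (g := fun s => 2 ^ l0 * muL l0 s ω * (3 * Th l0 s ω))
        ((continuous_const.mul (a2_cont_muL l0 ω)).mul (continuous_const.mul (a2_cont_Th l0 ω)))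
        (fun s => by
          have h3 := muL_pos l0 s ω
          have h4 := one_le_Th l0 s ω
          have h5 : 0 ≤ Th l0 s ω := by linarith
          positivity)
      rw [Finset.sum_range_one, Nat.cast_zero, add_zero, add_zero, Real.one_rpow, div_one]
      refine (ENNReal.ofReal_le_ofReal h1).trans ?_
      rw [h2]
      exact le_of_eq rfl
    | succ j ih =>
      intro i hi t ht
      rcases Nat.lt_or_ge i (j + 1) with hij | hij
      · exact ih i (by omega) t ht
      have hi1 : i = j + 1 := by omega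
      subst hi1
      have hLam := hred j ih
      rw [Finset.sum_range_succ]
      set L : ℝ≥0∞ := ∑ i' ∈ Finset.range (j + 1), DD c η l0 i0 i' ω with hLdef
      rcases eq_or_ne L ⊤ with hLtop | hLtop
      · rw [hLtop, top_add]
        exact le_top
      set l : ℕ := l0 + (j + 1) with hl
      set a : ℝ := (1 + ((j + 1 : ℕ) : ℝ)) ^ c with ha
      have ha0 : 0 < a := Real.rpow_pos_of_pos (by positivity) _
      set Lr : ℝ := L.toReal with hLr
      have hLL : L = ENNReal.ofReal Lr := (ENNReal.ofReal_toReal hLtop).symm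
      have hLamr : ∀ s ∈ cell l0 i0, Lam c l0 j s ω ≤ Lr := by
        intro s hs
        have h1 := hLam s hs
        rw [hLL] at h1
        exact (ENNReal.ofReal_le_ofReal_iff ENNReal.toReal_nonneg).1 h1
      have hLr0 : 0 < Lr := lt_of_lt_of_le (Lam_pos c l0 j t ω) (hLamr t ht)
      have hxpos : ∀ s, 0 < muL l s ω / a := fun s => div_pos (muL_pos l s ω) ha0
      set x : ℝ := muL l t ω / a with hx
      have hx0 : 0 < x := hxpos t
      have hsplit : x ≤ Lr + x ^ (1 + η) * Lr ^ (-η) := by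
        have h0 : 0 ≤ x ^ (1 + η) * Lr ^ (-η) := by positivity
        rcases le_total x Lr with h | h
        · linarith
        · have h1 : 1 ≤ x / Lr := by rwa [le_div_iff₀ hLr0, one_mul]
          have h2 : 1 ≤ (x / Lr) ^ η := Real.one_le_rpow h1 hη0.le
          have h3 : x ^ (1 + η) * Lr ^ (-η) = x * (x / Lr) ^ η := by
            rw [Real.rpow_add hx0, Real.rpow_one, Real.div_rpow hx0.le hLr0.le,
              Real.rpow_neg hLr0.le]
            ring
          rw [h3]
          have h4 : x ≤ x * (x / Lr) ^ η := le_mul_of_one_le_right hx0.le h2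
          linarith
      obtain ⟨i1, ht1, hsub⟩ := a2_subcell (l := l) (by omega) ht
      have hsob := a2_sob a η ha0 hη0.le hη l i1 ω t ht1
      have hmul : (i1 : ℝ) / 2 ^ l ≤ ((i1 : ℝ) + 1) / 2 ^ l := by gcongr; linarith
      have hcf : Continuous fun s => (muL l s ω / a) ^ (1 + η) :=
        ((a2_cont_muL l ω).div_const a).rpow_const fun s => Or.inl (hxpos s).ne'
      let g0 : ℝ → ℝ := fun s => (2 ^ l * (muL l s ω / a) ^ (1 + η) * (3 * Th l s ω)) * Lr ^ (-η)
      have hg0 : Continuous g0 :=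
        ((continuous_const.mul hcf).mul (continuous_const.mul (a2_cont_Th l ω))).mul
          continuous_const
      have hThp : ∀ s, 0 < Th l s ω := fun s => lt_of_lt_of_le one_pos (one_le_Th l s ω)
      have hg0n : ∀ s, 0 ≤ g0 s := by
        intro s
        have h1 := hxpos s
        have h2 := hThp s
        simp only [g0]
        positivity
      have hx1 : x ^ (1 + η) * Lr ^ (-η) ≤
          ∫ s in ((i1 : ℝ) / 2 ^ l)..(((i1 : ℝ) + 1) / 2 ^ l), g0 s := by
        simp only [g0]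
        rw [intervalIntegral.integral_mul_const]
        exact mul_le_mul_of_nonneg_right hsob (by positivity)
      have hbound : ENNReal.ofReal (x ^ (1 + η) * Lr ^ (-η)) ≤ DD c η l0 i0 (j + 1) ω := by
        calc ENNReal.ofReal (x ^ (1 + η) * Lr ^ (-η)) ≤
            ENNReal.ofReal (∫ s in ((i1 : ℝ) / 2 ^ l)..(((i1 : ℝ) + 1) / 2 ^ l), g0 s) :=
              ENNReal.ofReal_le_ofReal hx1
          _ = ∫⁻ s in cell l i1, ENNReal.ofReal (g0 s) := a2_lint hmul hg0 hg0n
          _ ≤ ∫⁻ s in cell l0 i0, ENNReal.ofReal (g0 s) := lintegral_mono_set hsub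
          _ ≤ DD c η l0 i0 (j + 1) ω := by
              refine setLIntegral_mono' measurableSet_Ico fun s hs => ?_
              refine ENNReal.ofReal_le_ofReal ?_
              have hxs := hxpos s
              have hLs := Lam_pos c l0 j s ω
              have h1 := hLamr s hs
              simp only [g0]
              have e1 : (muL l s ω / a) ^ (1 + η) * Lr ^ (-η) =
                  (muL l s ω / a) * ((muL l s ω / a) / Lr) ^ η := by
                rw [Real.rpow_add hxs, Real.rpow_one, Real.div_rpow hxs.le hLr0.le,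
                  Real.rpow_neg hLr0.le]
                ring
              have e2 : (muL l s ω / a) / Lr ≤
                  muL l s ω / ((1 + (j : ℝ)) ^ c * Lam c l0 j s ω) := by
                rw [div_div]
                have h3 := (muL_pos l s ω).le
                have h4 : (0 : ℝ) < (1 + (j : ℝ)) ^ c := Real.rpow_pos_of_pos (by positivity) _
                have h5 : (1 + (j : ℝ)) ^ c ≤ a := by
                  rw [ha]
                  apply Real.rpow_le_rpow (by positivity) _ hc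
                  push_cast
                  linarith
                apply div_le_div_of_nonneg_left h3 (by positivity)
                exact mul_le_mul h5 h1 hLs.le ha0.le
              have e3 : ((muL l s ω / a) / Lr) ^ η ≤
                  (muL l s ω / ((1 + (j : ℝ)) ^ c * Lam c l0 j s ω)) ^ η :=
                Real.rpow_le_rpow (by positivity) e2 hη0.le
              have h6 := hThp s
              calc 2 ^ l * (muL l s ω / a) ^ (1 + η) * (3 * Th l s ω) * Lr ^ (-η) =
                  2 ^ l * ((muL l s ω / a) ^ (1 + η) * Lr ^ (-η)) * (3 * Th l s ω) := by ring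
                _ = 2 ^ l * (muL l s ω / a) * ((muL l s ω / a) / Lr) ^ η * (3 * Th l s ω) := by
                    rw [e1]; ring
                _ ≤ 2 ^ l * (muL l s ω / a) *
                    (muL l s ω / ((1 + (j : ℝ)) ^ c * Lam c l0 j s ω)) ^ η *
                    (3 * Th l s ω) := by gcongr
      calc ENNReal.ofReal x ≤ ENNReal.ofReal (Lr + x ^ (1 + η) * Lr ^ (-η)) :=
            ENNReal.ofReal_le_ofReal hsplit
        _ = ENNReal.ofReal Lr + ENNReal.ofReal (x ^ (1 + η) * Lr ^ (-η)) :=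
            ENNReal.ofReal_add hLr0.le (by positivity)
        _ ≤ L + DD c η l0 i0 (j + 1) ω := by
            rw [← hLL]
            exact add_le_add le_rfl hbound
  exact hred j (hlast j)

theorem path_sup (c η : ℝ) (hc : 0 ≤ c) (hη0 : 0 < η) (hη : η ≤ 1 / 4) (l0 i0 j : ℕ)
    (t : ℝ) (ht : t ∈ cell l0 i0) (ω : Om) :
    ENNReal.ofReal (muL (l0 + j) t ω / (1 + (j : ℝ)) ^ c) ≤
      ∑ i ∈ Finset.range (j + 1), DD c η l0 i0 i ω :=
  (ENNReal.ofReal_le_ofReal (le_Lam c l0 le_rfl t ω)).trans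
    (a2_main c η hc hη0 hη l0 i0 ω j t ht)

/-- Consequence: the running maximum is bounded by the sum. -/
theorem path_Lam (c η : ℝ) (hc : 0 ≤ c) (hη0 : 0 < η) (hη : η ≤ 1 / 4) (l0 i0 j : ℕ)
    (t : ℝ) (ht : t ∈ cell l0 i0) (ω : Om) :
    ENNReal.ofReal (Lam c l0 j t ω) ≤ ∑ i ∈ Finset.range (j + 1), DD c η l0 i0 i ω :=
  a2_main c η hc hη0 hη l0 i0 ω j t ht

end Emb
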