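import Pool.Agent.Lib.Emb.Key
import Pool.Agent.Lib.Emb.Path

/-!
# Chunk D: expectation of the maximal function

Tonelli (`lintegral_lintegral_swap`; the integrands are jointly continuous) and
`lintegral_tilt`: `2^l muL l = dd (pr l)`, so
`∫ DD_0 = ∫_cell E_t [3 Th l0] ≤ C 2^{-l0}` (`moment_Th 1`) and
`∫ DD_{j+1} = ∫_cell (j+2)^{-c} E_t[(...)^η 3 Th] ≤ C 2^{-l0} (j+2)^{-c} (1+j)^{-β}` (`key2`);
the series `∑ (1+j)^{-c-β}` converges since `c + β > 1`.
-/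

open MeasureTheory Complex ProbabilityTheory
open scoped BigOperators ENNReal

namespace Emb

theorem D_volume_cell (l i : ℕ) : volume (cell l i) = ENNReal.ofReal ((2 ^ l)⁻¹) := by
  unfold cell
  rw [Real.volume_Ico]
  congr 1
  field_simp
  ring

/-- Tonelli plus change of measure. -/
theorem D_tonelli (l l0 i0 : ℕ) (F : ℝ → Om → ℝ) (hF : Measurable (Function.uncurry F))
    (B : ℝ)
    (hB : ∀ t, ∫⁻ ω, ENNReal.ofReal (F t ω) ∂(tilt (pr l) t) ≤ ENNReal.ofReal B) :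
    ∫⁻ ω, (∫⁻ t in cell l0 i0, ENNReal.ofReal (dd (pr l) t ω * F t ω)) ∂mu ≤
      ENNReal.ofReal B * ENNReal.ofReal ((2 ^ l0)⁻¹) := by
  have hdd : Measurable (Function.uncurry (dd (pr l))) :=
    (continuous_dd (S := pr l) (fun p hp => pr_prime hp)).measurable
  have hm : Measurable (Function.uncurry fun (t : ℝ) (ω : Om) =>
      ENNReal.ofReal (dd (pr l) t ω * F t ω)) :=
    ENNReal.measurable_ofReal.comp (hdd.mul hF)
  have hswap : ∫⁻ ω, (∫⁻ t in cell l0 i0, ENNReal.ofReal (dd (pr l) t ω * F t ω)) ∂mu =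
      ∫⁻ t in cell l0 i0, ∫⁻ ω, ENNReal.ofReal (dd (pr l) t ω * F t ω) ∂mu := by
    rw [lintegral_lintegral_swap]
    exact (hm.comp measurable_swap).aemeasurable
  rw [hswap]
  calc ∫⁻ t in cell l0 i0, ∫⁻ ω, ENNReal.ofReal (dd (pr l) t ω * F t ω) ∂mu
      ≤ ∫⁻ _t in cell l0 i0, ENNReal.ofReal B := by
        refine lintegral_mono fun t => ?_
        refine le_trans (le_of_eq ?_) (hB t)
        rw [lintegral_tilt (pr l) (fun p hp => pr_prime hp) t
          (fun ω => ENNReal.ofReal (F t ω))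
          (ENNReal.measurable_ofReal.comp (hF.comp measurable_prodMk_left))]
        refine lintegral_congr fun ω => ?_
        rw [ENNReal.ofReal_mul (dd_pos (fun p hp => pr_prime hp) t ω).le]
    _ = ENNReal.ofReal B * ENNReal.ofReal ((2 ^ l0)⁻¹) := by
        rw [setLIntegral_const, D_volume_cell]

theorem D_dd_eq (l : ℕ) (t : ℝ) (ω : Om) : 2 ^ l * muL l t ω = dd (pr l) t ω := by
  unfold muL
  field_simp

theorem D_meas_muL (l : ℕ) : Measurable (Function.uncurry (muL l)) := (continuous_muL l).measurable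
theorem D_meas_Th (l : ℕ) : Measurable (Function.uncurry (Th l)) := (continuous_Th l).measurable
theorem D_meas_Lam (c : ℝ) (l0 j : ℕ) : Measurable (Function.uncurry (Lam c l0 j)) :=
  (continuous_Lam c l0 j).measurable

/-- The integrand of `DD_{j+1}` after the change of measure. -/
noncomputable def D_F (c η : ℝ) (l0 j : ℕ) (t : ℝ) (ω : Om) : ℝ :=
  ((1 + ((j + 1 : ℕ) : ℝ)) ^ c)⁻¹ * 3 *
    ((muL (l0 + (j + 1)) t ω / ((1 + (j : ℝ)) ^ c * Lam c l0 j t ω)) ^ η *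
      Th (l0 + (j + 1)) t ω)

theorem D_meas_F (c η : ℝ) (l0 j : ℕ) : Measurable (Function.uncurry (D_F c η l0 j)) := by
  have h : Function.uncurry (D_F c η l0 j) = fun z : ℝ × Om =>
      ((1 + ((j + 1 : ℕ) : ℝ)) ^ c)⁻¹ * 3 *
    ((Function.uncurry (muL (l0 + (j + 1))) z / ((1 + (j : ℝ)) ^ c *
      Function.uncurry (Lam c l0 j) z)) ^ η * Function.uncurry (Th (l0 + (j + 1))) z) := rfl
  rw [h]
  exact measurable_const.mul ((((D_meas_muL _).div
    (measurable_const.mul (D_meas_Lam c l0 j))).pow_const η).mul (D_meas_Th _))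

theorem D_DD_zero (c η : ℝ) (l0 i0 : ℕ) (ω : Om) : DD c η l0 i0 0 ω =
    ∫⁻ t in cell l0 i0, ENNReal.ofReal (dd (pr l0) t ω * (3 * Th l0 t ω)) := by
  simp only [DD, D_dd_eq]

theorem D_DD_succ (c η : ℝ) (l0 i0 j : ℕ) (ω : Om) : DD c η l0 i0 (j + 1) ω =
    ∫⁻ t in cell l0 i0, ENNReal.ofReal (dd (pr (l0 + (j + 1))) t ω * D_F c η l0 j t ω) := by
  simp only [DD]
  refine lintegral_congr fun t => ?_
  congr 1
  rw [← D_dd_eq, D_F]
  ring

theorem lintegral_DD (c η β : ℝ) (hc : 0 ≤ c) (hη0 : 0 < η) (hη : η ≤ 1 / 4) (hβ0 : 0 < β)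
    (hβ : β < 1 / 2) : ∃ C : ℝ, 0 < C ∧ ∀ l0 i0 j : ℕ,
    ∫⁻ ω, DD c η l0 i0 j ω ∂mu ≤
      ENNReal.ofReal (C * (1 + (j : ℝ)) ^ (-(c + β))) * ENNReal.ofReal ((2 ^ l0)⁻¹) := by
  obtain ⟨C1, hC1, h1⟩ := moment_Th 1
  obtain ⟨C2, hC2, h2⟩ := key2 c η β hc hη0 (by linarith) hβ0 hβ
  refine ⟨3 * C1 + 3 * C2 * 2, by positivity, fun l0 i0 j => ?_⟩
  rcases j with _ | j
  · simp only [D_DD_zero]
    have hm3 : Measurable (fun z : ℝ × Om => 3 * Th l0 z.1 z.2) :=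
      measurable_const.mul (D_meas_Th l0)
    refine (D_tonelli l0 l0 i0 (fun t ω => 3 * Th l0 t ω) hm3 (3 * C1) ?_).trans ?_
    · intro t
      have e : ∀ ω, ENNReal.ofReal (3 * Th l0 t ω) = ENNReal.ofReal 3 *
          ENNReal.ofReal (Th l0 t ω ^ 1) := by
        intro ω
        rw [pow_one, ENNReal.ofReal_mul (by norm_num)]
      simp only [e]
      have m : Measurable fun ω => ENNReal.ofReal (Th l0 t ω ^ 1) :=
        ((K2_meas_Th l0 t).pow_const 1).ennreal_ofReal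
      rw [lintegral_const_mul _ m, ENNReal.ofReal_mul (by norm_num)]
      gcongr
      exact h1 l0 t
    · refine mul_le_mul_left (ENNReal.ofReal_le_ofReal ?_) _
      simp only [Nat.cast_zero, add_zero, Real.one_rpow, mul_one]
      nlinarith
  · simp only [D_DD_succ]
    refine (D_tonelli (l0 + (j + 1)) l0 i0 (D_F c η l0 j) (D_meas_F c η l0 j)
      (((1 + ((j + 1 : ℕ) : ℝ)) ^ c)⁻¹ * 3 * (C2 * (1 + (j : ℝ)) ^ (-β))) ?_).trans ?_
    · intro t
      have hpos : (0 : ℝ) ≤ ((1 + ((j + 1 : ℕ) : ℝ)) ^ c)⁻¹ * 3 := by positivity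
      have e : ∀ ω, ENNReal.ofReal (D_F c η l0 j t ω) =
          ENNReal.ofReal (((1 + ((j + 1 : ℕ) : ℝ)) ^ c)⁻¹ * 3) *
          ENNReal.ofReal ((muL (l0 + (j + 1)) t ω /
            ((1 + (j : ℝ)) ^ c * Lam c l0 j t ω)) ^ η * Th (l0 + (j + 1)) t ω) := by
        intro ω
        rw [← ENNReal.ofReal_mul hpos, D_F]
      simp only [e]
      have mL : Measurable fun ω => Lam c l0 j t ω :=
        ((continuous_Lam c l0 j).comp (Continuous.prodMk_right t)).measurable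
      have m1 : Measurable fun ω => muL (l0 + (j + 1)) t ω := K2_meas_muL _ t
      have m2 : Measurable fun ω => Th (l0 + (j + 1)) t ω := K2_meas_Th _ t
      have m3 : Measurable fun ω => (1 + (j : ℝ)) ^ c * Lam c l0 j t ω := mL.const_mul _
      have m4 : Measurable fun ω => muL (l0 + (j + 1)) t ω /
            ((1 + (j : ℝ)) ^ c * Lam c l0 j t ω) := m1.div m3
      have m5 : Measurable fun ω => (muL (l0 + (j + 1)) t ω /
            ((1 + (j : ℝ)) ^ c * Lam c l0 j t ω)) ^ η := m4.pow_const η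
      have m : Measurable fun ω => ENNReal.ofReal ((muL (l0 + (j + 1)) t ω /
            ((1 + (j : ℝ)) ^ c * Lam c l0 j t ω)) ^ η * Th (l0 + (j + 1)) t ω) :=
        (m5.mul m2).ennreal_ofReal
      rw [lintegral_const_mul _ m, ENNReal.ofReal_mul hpos]
      gcongr
      exact h2 l0 j t
    · refine mul_le_mul_left (ENNReal.ofReal_le_ofReal ?_) _
      have hj : (0 : ℝ) < 1 + (j : ℝ) := by positivity
      have hj2 : (0 : ℝ) < 1 + ((j + 1 : ℕ) : ℝ) := by positivity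
      have e1 : (1 + ((j + 1 : ℕ) : ℝ)) ^ (-(c + β)) =
          ((1 + ((j + 1 : ℕ) : ℝ)) ^ c)⁻¹ * (1 + ((j + 1 : ℕ) : ℝ)) ^ (-β) := by
        rw [neg_add, Real.rpow_add hj2, Real.rpow_neg hj2.le c]
      have e2 : (1 + (j : ℝ)) ^ (-β) ≤ 2 * (1 + ((j + 1 : ℕ) : ℝ)) ^ (-β) := by
        have h3 : (1 + ((j + 1 : ℕ) : ℝ)) ≤ 2 * (1 + (j : ℝ)) := by push_cast; linarith
        have h4 : (2 * (1 + (j : ℝ))) ^ (-β) ≤ (1 + ((j + 1 : ℕ) : ℝ)) ^ (-β) :=
          Real.rpow_le_rpow_of_nonpos hj2 h3 (by linarith)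
        rw [Real.mul_rpow (by norm_num) hj.le] at h4
        have h5 : (1 / 2 : ℝ) ≤ 2 ^ (-β) := by
          have : (2 : ℝ) ^ (-(1:ℝ)) ≤ 2 ^ (-β) :=
            Real.rpow_le_rpow_of_exponent_le (by norm_num) (by linarith)
          rw [Real.rpow_neg_one] at this
          linarith
        have h6 : 0 < (1 + (j : ℝ)) ^ (-β) := by positivity
        nlinarith
      rw [e1]
      have h7 : 0 < ((1 + ((j + 1 : ℕ) : ℝ)) ^ c)⁻¹ := by positivity
      have h8 : 0 < (1 + ((j + 1 : ℕ) : ℝ)) ^ (-β) := by positivity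
      have h9 : ((1 + ((j + 1 : ℕ) : ℝ)) ^ c)⁻¹ * 3 * (C2 * (1 + (j : ℝ)) ^ (-β)) ≤
          ((1 + ((j + 1 : ℕ) : ℝ)) ^ c)⁻¹ * 3 * (C2 * (2 * (1 + ((j + 1 : ℕ) : ℝ)) ^ (-β))) := by
        gcongr
      have h10 : 0 ≤ 3 * C1 * (((1 + ((j + 1 : ℕ) : ℝ)) ^ c)⁻¹ *
          (1 + ((j + 1 : ℕ) : ℝ)) ^ (-β)) := by positivity
      linarith

theorem measurable_DD (c η : ℝ) (l0 i0 j : ℕ) : Measurable (DD c η l0 i0 j) := by
  have hdd : ∀ l, Measurable (Function.uncurry (dd (pr l))) := fun l =>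
    (continuous_dd (S := pr l) (fun p hp => pr_prime hp)).measurable
  rcases j with _ | j
  · have h : DD c η l0 i0 0 = fun ω => ∫⁻ t in cell l0 i0,
        ENNReal.ofReal (dd (pr l0) t ω * (3 * Th l0 t ω)) := by
      funext ω
      exact D_DD_zero c η l0 i0 ω
    rw [h]
    have hm : Measurable fun z : ℝ × Om => ENNReal.ofReal (dd (pr l0) z.1 z.2 *
        (3 * Th l0 z.1 z.2)) :=
      ENNReal.measurable_ofReal.comp ((hdd l0).mul (measurable_const.mul (D_meas_Th l0)))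
    exact hm.lintegral_prod_left'
  · have h : DD c η l0 i0 (j + 1) = fun ω => ∫⁻ t in cell l0 i0,
        ENNReal.ofReal (dd (pr (l0 + (j + 1))) t ω * D_F c η l0 j t ω) := by
      funext ω
      exact D_DD_succ c η l0 i0 j ω
    rw [h]
    have hm : Measurable fun z : ℝ × Om => ENNReal.ofReal (dd (pr (l0 + (j + 1))) z.1 z.2 *
        D_F c η l0 j z.1 z.2) :=
      ENNReal.measurable_ofReal.comp ((hdd _).mul (D_meas_F c η l0 j))
    exact hm.lintegral_prod_left'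

theorem lintegral_sum_DD (c η : ℝ) (hc : 1 / 2 < c) (hη0 : 0 < η) (hη : η ≤ 1 / 4) :
    ∃ C : ℝ, 0 < C ∧ ∀ l0 i0 n : ℕ,
    ∫⁻ ω, ∑ j ∈ Finset.range n, DD c η l0 i0 j ω ∂mu ≤
      ENNReal.ofReal C * ENNReal.ofReal ((2 ^ l0)⁻¹) := by
  set β : ℝ := 1 / 2 - min ((c - 1 / 2) / 2) (1 / 4) with hβ
  have hm1 : min ((c - 1 / 2) / 2) (1 / 4) ≤ (c - 1 / 2) / 2 := min_le_left _ _
  have hm2 : min ((c - 1 / 2) / 2) (1 / 4) ≤ 1 / 4 := min_le_right _ _
  have hm3 : 0 < min ((c - 1 / 2) / 2) (1 / 4) := lt_min (by linarith) (by norm_num)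
  have hβ0 : 0 < β := by rw [hβ]; linarith
  have hβ1 : β < 1 / 2 := by rw [hβ]; linarith
  have hcβ : 1 < c + β := by rw [hβ]; linarith
  obtain ⟨C, hC, h⟩ := lintegral_DD c η β (by linarith) hη0 hη hβ0 hβ1
  have hsum : Summable (fun j : ℕ => C * (1 + (j : ℝ)) ^ (-(c + β))) := by
    apply Summable.mul_left
    have h1 : Summable (fun n : ℕ => ((n : ℝ)) ^ (-(c + β))) :=
      Real.summable_nat_rpow.mpr (by linarith)
    have h2 := (summable_nat_add_iff 1).mpr h1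
    refine h2.congr fun j => ?_
    push_cast
    rw [add_comm]
  have hpos : ∀ j : ℕ, 0 ≤ C * (1 + (j : ℝ)) ^ (-(c + β)) := fun j => by positivity
  have hS0 : 0 ≤ ∑' j : ℕ, C * (1 + (j : ℝ)) ^ (-(c + β)) := tsum_nonneg hpos
  refine ⟨(∑' j : ℕ, C * (1 + (j : ℝ)) ^ (-(c + β))) + 1, by linarith, fun l0 i0 n => ?_⟩
  rw [lintegral_finsetSum _ (fun j _ => measurable_DD c η l0 i0 j)]
  calc ∑ j ∈ Finset.range n, ∫⁻ ω, DD c η l0 i0 j ω ∂mu
      ≤ ∑ j ∈ Finset.range n, ENNReal.ofReal (C * (1 + (j : ℝ)) ^ (-(c + β))) *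
          ENNReal.ofReal ((2 ^ l0)⁻¹) := Finset.sum_le_sum fun j _ => h l0 i0 j
    _ = ENNReal.ofReal (∑ j ∈ Finset.range n, C * (1 + (j : ℝ)) ^ (-(c + β))) *
          ENNReal.ofReal ((2 ^ l0)⁻¹) := by
        rw [← Finset.sum_mul, ENNReal.ofReal_sum_of_nonneg fun j _ => hpos j]
    _ ≤ _ := by
        gcongr
        have := hsum.sum_le_tsum (Finset.range n) (fun j _ => hpos j)
        linarith

end Emb
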