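/-
CHUNK GROUPS (from the core estimate on cells to the global weighted estimate).

s in (1,2), q = 2/s in (1,2). V_l(t) = V l (ix l t) is constant on cells of level l, nondecreasing in l.
For j in Z let G_j = {(l,t): 2^j < V_l(t) <= 2^(j+1)}. A cell (l0,i0) (l0 < n, i0 < 2^l0) is j-initial if
V l0 i0 > 2^j and (l0 = 0 or V (l0-1) (i0/2) <= 2^j). If V_l(t) > 2^j, t is in exactly one j-initial cell
(l0,i0), and l0 <= l. So
   sum_(l<n) int A_l W_l = sum_j sum_(j-initial (l0,i0)) sum_(l0<=l<n) int_(cell l0 i0) A_l 1_(G_j) W_l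
(A_l = 0 where V_l = 0), W_l = 2^l mu_l^s Theta_l.  x^(1/s) is subadditive (also for infinite sums:
ENNReal tsum; or only finitely many j matter because V takes finitely many values), and the core
estimate gives
   LHS <= C sum_(j,Q0) x_(j,Q0)^(1/s) |Q0|^(1-1/s),  x = sum_l int_Q0 A_l 1_(G_j).
Now x^(1/s)|Q0|^(1-1/s) = (x 2^(j(q-2)))^(1/s) (|Q0| 2^(jq))^(1-1/s) (exponents of 2^j cancel), Hoelder for
sums with exponents s and s/(s-1):
   <= (sum x 2^(j(q-2)))^(1/s) (sum |Q0| 2^(jq))^(1-1/s).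
On G_j: 2^(j(q-2)) <= 2^(2-q) V_l^(q-2). And sum_(Q0 j-initial)|Q0| <= |{V_(n-1) > 2^j}|,
sum_(j: 2^j < V) 2^(jq) <= V^q/(1-2^-q).
-/
import Pool.Agent.Lib.Emb.CoreStmt
import Pool.Agent.Lib.Emb.Dy1

open MeasureTheory Complex
open scoped BigOperators ENNReal

namespace Emb

namespace Grp

/-- membership in the group `j` -/
def gr (V : ℕ → ℕ → ℝ) (j : ℤ) (l : ℕ) (t : ℝ) : Prop :=
  (2:ℝ) ^ j < V l (ix l t) ∧ V l (ix l t) ≤ (2:ℝ) ^ (j + 1)

/-- initial cells -/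
def ini (V : ℕ → ℕ → ℝ) (j : ℤ) (l0 i0 : ℕ) : Prop :=
  (2:ℝ) ^ j < V l0 i0 ∧ (l0 = 0 ∨ V (l0 - 1) (i0 / 2) ≤ (2:ℝ) ^ j)

def good (V : ℕ → ℕ → ℝ) (n : ℕ) (x : ℤ × ℕ × ℕ) : Prop :=
  x.2.1 < n ∧ x.2.2 < 2 ^ x.2.1 ∧ ini V x.1 x.2.1 x.2.2

open Classical in
/-- the part of `A` in the group `j` -/
noncomputable def aj (V : ℕ → ℕ → ℝ) (A : ℕ → ℝ → ℝ≥0∞) (j : ℤ) (l : ℕ) (t : ℝ) : ℝ≥0∞ :=
  if gr V j l t then A l t else 0

theorem path_mono {V : ℕ → ℕ → ℝ} (hV : ∀ l i, V l (i / 2) ≤ V (l + 1) i) {t : ℝ} (ht : 0 ≤ t) :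
    Monotone (fun l => V l (ix l t)) := by
  refine monotone_nat_of_le_succ fun l => ?_
  have h := hV l (ix (l + 1) t)
  rwa [← ix_half ht] at h

theorem exists_ini {V : ℕ → ℕ → ℝ} {t : ℝ} (ht : t ∈ Set.Ico (0:ℝ) 1) {j : ℤ} {l : ℕ}
    (h : (2:ℝ) ^ j < V l (ix l t)) : ∃ l0, l0 ≤ l ∧ ini V j l0 (ix l0 t) := by
  classical
  have hex : ∃ l', (2:ℝ) ^ j < V l' (ix l' t) := ⟨l, h⟩
  refine ⟨Nat.find hex, Nat.find_min' hex h, Nat.find_spec hex, ?_⟩
  rcases Nat.eq_zero_or_pos (Nat.find hex) with h0 | h0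
  · exact Or.inl h0
  · right
    have h1 := Nat.find_min hex (m := Nat.find hex - 1) (by omega)
    have h2 : ix (Nat.find hex - 1) t = ix (Nat.find hex) t / 2 := by
      have := ix_half (l := Nat.find hex - 1) ht.1
      rwa [Nat.sub_add_cancel h0] at this
    rw [← h2]
    exact not_lt.1 h1

theorem unique_ini {V : ℕ → ℕ → ℝ} (hV : ∀ l i, V l (i / 2) ≤ V (l + 1) i) {t : ℝ}
    (ht : t ∈ Set.Ico (0:ℝ) 1) {j : ℤ} {l0 l1 : ℕ} (h0 : ini V j l0 (ix l0 t))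
    (h1 : ini V j l1 (ix l1 t)) : l0 = l1 := by
  have key : ∀ a b : ℕ, ini V j a (ix a t) → ini V j b (ix b t) → ¬ a < b := by
    intro a b ha hb hab
    rcases hb.2 with hb0 | hb0
    · omega
    · have h2 : ix (b - 1) t = ix b t / 2 := by
        have := ix_half (l := b - 1) ht.1
        rwa [Nat.sub_add_cancel (by omega)] at this
      rw [← h2] at hb0
      have h3 := path_mono hV ht.1 (show a ≤ b - 1 by omega)
      have h4 := ha.1
      simp only at h3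
      linarith
  have ha := key _ _ h0 h1
  have hb := key _ _ h1 h0
  omega

theorem unique_gr {V : ℕ → ℕ → ℝ} {t : ℝ} {j j' : ℤ} {l : ℕ} (h : gr V j l t)
    (h' : gr V j' l t) : j = j' := by
  have key : ∀ a b : ℤ, gr V a l t → gr V b l t → a ≤ b := by
    intro a b ha hb
    have h1 : (2:ℝ) ^ a < (2:ℝ) ^ (b + 1) := lt_of_lt_of_le ha.1 hb.2
    have h2 := (zpow_lt_zpow_iff_right₀ (by norm_num : (1:ℝ) < 2)).1 h1
    omega
  exact le_antisymm (key _ _ h h') (key _ _ h' h)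

theorem measurable_V (V : ℕ → ℕ → ℝ) (l : ℕ) : Measurable (fun t => V l (ix l t)) :=
  (measurable_of_countable (V l)).comp (measurable_ix l)

theorem measurableSet_gr (V : ℕ → ℕ → ℝ) (j : ℤ) (l : ℕ) : MeasurableSet {t | gr V j l t} := by
  have h1 : MeasurableSet {t : ℝ | (2:ℝ) ^ j < V l (ix l t)} :=
    measurableSet_lt measurable_const (measurable_V V l)
  have h2 : MeasurableSet {t : ℝ | V l (ix l t) ≤ (2:ℝ) ^ (j + 1)} :=
    measurableSet_le (measurable_V V l) measurable_const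
  exact h1.inter h2

theorem measurable_aj {V : ℕ → ℕ → ℝ} {A : ℕ → ℝ → ℝ≥0∞} (hA : ∀ l, Measurable (A l)) (j : ℤ)
    (l : ℕ) : Measurable (aj V A j l) := by
  classical
  unfold aj
  exact Measurable.ite (measurableSet_gr V j l) (hA l) measurable_const

open Classical in
/-- the interchange of the sum over the cells and the integral -/
theorem tile (V : ℕ → ℕ → ℝ) (n : ℕ) (f : ℤ × ℕ × ℕ → ℝ → ℝ≥0∞) (hf : ∀ x, Measurable (f x)) :
    ∫⁻ t in Set.Ico (0:ℝ) 1, ∑' x, (if good V n x ∧ ix x.2.1 t = x.2.2 then f x t else 0) =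
      ∑' x, (if good V n x then ∫⁻ t in cell x.2.1 x.2.2, f x t else 0) := by
  rw [lintegral_tsum]
  · refine tsum_congr fun x => ?_
    by_cases hx : good V n x
    · simp only [hx, true_and, if_true]
      have hS : MeasurableSet {t : ℝ | ix x.2.1 t = x.2.2} :=
        measurable_ix x.2.1 (measurableSet_singleton _)
      have e : (fun t => if ix x.2.1 t = x.2.2 then f x t else 0) =
          Set.indicator {t : ℝ | ix x.2.1 t = x.2.2} (f x) := by
        funext t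
        by_cases h : ix x.2.1 t = x.2.2
        · rw [Set.indicator_of_mem (by exact h), if_pos h]
        · rw [Set.indicator_of_notMem (by exact h), if_neg h]
      rw [e, lintegral_indicator hS, Measure.restrict_restrict hS]
      congr 2
      ext t
      constructor
      · rintro ⟨h1, h2⟩
        exact (mem_cell_iff h2.1).2 h1
      · intro h
        have hc : t ∈ Set.Ico ((x.2.2 : ℝ) / 2 ^ x.2.1) (((x.2.2 : ℝ) + 1) / 2 ^ x.2.1) := h
        have h0 : 0 ≤ t := le_trans (by positivity) hc.1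
        have h1 : t < 1 := by
          refine lt_of_lt_of_le hc.2 ?_
          rw [div_le_one (by positivity)]
          have := hx.2.1
          exact_mod_cast this
        exact ⟨(mem_cell_iff h0).1 h, h0, h1⟩
    · simp [hx]
  · intro x
    have hS : MeasurableSet {t : ℝ | good V n x ∧ ix x.2.1 t = x.2.2} := by
      by_cases hx : good V n x
      · simp only [hx, true_and]
        exact measurable_ix x.2.1 (measurableSet_singleton _)
      · simp [hx]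
    exact (Measurable.ite hS (hf x) measurable_const).aemeasurable

theorem sum_range_Ico (n l0 : ℕ) (g : ℕ → ℝ≥0∞) :
    ∑ l ∈ Finset.Ico l0 n, g l = ∑ l ∈ Finset.range n, (if l0 ≤ l then g l else 0) := by
  rw [← Finset.sum_filter]
  refine Finset.sum_congr ?_ fun _ _ => rfl
  ext l
  simp only [Finset.mem_Ico, Finset.mem_filter, Finset.mem_range]
  omega

open Classical in
/-- the sum over the groups and initial cells, pulled inside -/
theorem tile2 (V : ℕ → ℕ → ℝ) (n : ℕ) (f : ℤ → ℕ → ℝ → ℝ≥0∞) (hf : ∀ j l, Measurable (f j l)) :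
    ∑' x : ℤ × ℕ × ℕ, (if good V n x then
        ∑ l ∈ Finset.Ico x.2.1 n, ∫⁻ t in cell x.2.1 x.2.2, f x.1 l t else 0) =
      ∑ l ∈ Finset.range n, ∫⁻ t in Set.Ico (0:ℝ) 1, ∑' x : ℤ × ℕ × ℕ,
        (if good V n x ∧ ix x.2.1 t = x.2.2 then (if x.2.1 ≤ l then f x.1 l t else 0) else 0) := by
  have h1 : ∀ l, ∫⁻ t in Set.Ico (0:ℝ) 1, ∑' x : ℤ × ℕ × ℕ,
        (if good V n x ∧ ix x.2.1 t = x.2.2 then (if x.2.1 ≤ l then f x.1 l t else 0) else 0) =
      ∑' x : ℤ × ℕ × ℕ, (if good V n x then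
        ∫⁻ t in cell x.2.1 x.2.2, (if x.2.1 ≤ l then f x.1 l t else 0) else 0) := by
    intro l
    refine tile V n (fun x t => if x.2.1 ≤ l then f x.1 l t else 0) fun x => ?_
    by_cases h : x.2.1 ≤ l
    · simp only [h, if_true]; exact hf _ _
    · simp only [h, if_false]; exact measurable_const
  simp only [h1]
  rw [← Summable.tsum_finsetSum (fun _ _ => ENNReal.summable)]
  refine tsum_congr fun x => ?_
  by_cases hx : good V n x
  · simp only [hx, if_true]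
    rw [sum_range_Ico]
    refine Finset.sum_congr rfl fun l _ => ?_
    by_cases h : x.2.1 ≤ l
    · simp only [h, if_true]
    · simp only [h, if_false, lintegral_const, zero_mul]
  · simp only [hx, if_false, Finset.sum_const_zero]

theorem holder_tsum (r : ℝ) (hr0 : 0 ≤ r) (hr1 : r ≤ 1) (X M : ℤ × ℕ × ℕ → ℝ≥0∞) :
    ∑' x, X x ^ r * M x ^ (1 - r) ≤ (∑' x, X x) ^ r * (∑' x, M x) ^ (1 - r) := by
  have h := ENNReal.lintegral_mul_norm_pow_le (μ := (Measure.count : Measure (ℤ × ℕ × ℕ)))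
    (f := X) (g := M) (measurable_of_countable X).aemeasurable
    (measurable_of_countable M).aemeasurable hr0 (sub_nonneg.2 hr1) (by ring)
  simpa only [lintegral_count] using h

theorem rpow_sum_le {ι : Type*} (r : ℝ) (hr0 : 0 < r) (hr1 : r ≤ 1) (F : Finset ι)
    (X : ι → ℝ≥0∞) : (∑ x ∈ F, X x) ^ r ≤ ∑ x ∈ F, X x ^ r := by
  classical
  induction F using Finset.induction_on with
  | empty => simp [ENNReal.zero_rpow_of_pos hr0]
  | insert a F ha ih =>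
    rw [Finset.sum_insert ha, Finset.sum_insert ha]
    refine (ENNReal.rpow_add_le_add_rpow _ _ hr0.le hr1).trans ?_
    gcongr

theorem rpow_tsum_le {ι : Type*} (r : ℝ) (hr0 : 0 < r) (hr1 : r ≤ 1) (X : ι → ℝ≥0∞) :
    (∑' x, X x) ^ r ≤ ∑' x, X x ^ r := by
  have h : ∑' x, X x ≤ (∑' x, X x ^ r) ^ (1 / r) := by
    rw [ENNReal.tsum_eq_iSup_sum]
    refine iSup_le fun F => ?_
    have h1 := (rpow_sum_le r hr0 hr1 F X).trans (ENNReal.sum_le_tsum F)
    calc ∑ x ∈ F, X x = ((∑ x ∈ F, X x) ^ r) ^ (1 / r) := by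
          rw [← ENNReal.rpow_mul, mul_one_div_cancel hr0.ne', ENNReal.rpow_one]
      _ ≤ (∑' x, X x ^ r) ^ (1 / r) := ENNReal.rpow_le_rpow h1 (by positivity)
  calc (∑' x, X x) ^ r ≤ ((∑' x, X x ^ r) ^ (1 / r)) ^ r := ENNReal.rpow_le_rpow h hr0.le
    _ = ∑' x, X x ^ r := by
      rw [← ENNReal.rpow_mul, one_div_mul_cancel hr0.ne', ENNReal.rpow_one]

open Classical in
/-- decomposition of a weighted integral over groups and initial cells -/
theorem decomp {V : ℕ → ℕ → ℝ} (A : ℕ → ℝ → ℝ≥0∞) (hA : ∀ l, Measurable (A l))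
    (hV0 : ∀ l i, 0 ≤ V l i)
    (hA0 : ∀ l, ∀ t ∈ Set.Ico (0:ℝ) 1, V l (ix l t) = 0 → A l t = 0) (n : ℕ)
    (w : ℕ → ℝ → ℝ≥0∞) (hw : ∀ l, Measurable (w l)) :
    ∑ l ∈ Finset.range n, ∫⁻ t in Set.Ico (0:ℝ) 1, A l t * w l t ≤
      ∑' x : ℤ × ℕ × ℕ, (if good V n x then
        ∑ l ∈ Finset.Ico x.2.1 n, ∫⁻ t in cell x.2.1 x.2.2, aj V A x.1 l t * w l t else 0) := by
  rw [tile2 V n (fun j l t => aj V A j l t * w l t)
    (fun j l => (measurable_aj hA j l).mul (hw l))]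
  refine Finset.sum_le_sum fun l hl => ?_
  refine setLIntegral_mono' measurableSet_Ico fun t ht => ?_
  by_cases hv : V l (ix l t) = 0
  · rw [hA0 l t ht hv, zero_mul]; exact zero_le
  · have hv' : 0 < V l (ix l t) := lt_of_le_of_ne (hV0 _ _) (Ne.symm hv)
    obtain ⟨j, hj1, hj2⟩ := exists_mem_Ioc_zpow hv' (by norm_num : (1:ℝ) < 2)
    obtain ⟨l0, hl0, hini⟩ := exists_ini ht hj1
    refine le_trans ?_ (ENNReal.le_tsum (j, l0, ix l0 t))
    have hgood : good V n (j, l0, ix l0 t) :=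
      ⟨lt_of_le_of_lt hl0 (Finset.mem_range.1 hl), ix_lt ht, hini⟩
    have hgr : gr V j l t := ⟨hj1, hj2⟩
    simp only [hgood, true_and, if_true, hl0, aj, hgr]
    exact le_refl _

theorem pow_group {q : ℝ} (hq2 : q < 2) {v : ℝ} {j : ℤ} (h1 : (2:ℝ) ^ j < v)
    (h2 : v ≤ (2:ℝ) ^ (j + 1)) :
    (2:ℝ≥0∞) ^ ((j : ℝ) * (q - 2)) ≤ 2 * ENNReal.ofReal (v ^ (q - 2)) ∨ q < 1 := by
  by_cases hq : q < 1
  · exact Or.inr hq
  left
  have hv : 0 < v := lt_trans (by positivity) h1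
  have e1 : (2:ℝ≥0∞) ^ ((j : ℝ) * (q - 2)) = ENNReal.ofReal ((2:ℝ) ^ ((j : ℝ) * (q - 2))) := by
    rw [← ENNReal.ofReal_rpow_of_pos (by norm_num : (0:ℝ) < 2)]
    norm_num
  have e2 : (2:ℝ≥0∞) * ENNReal.ofReal (v ^ (q - 2)) = ENNReal.ofReal (2 * v ^ (q - 2)) := by
    rw [ENNReal.ofReal_mul (by norm_num)]
    norm_num
  rw [e1, e2]
  refine ENNReal.ofReal_le_ofReal ?_
  have h3 : ((2:ℝ) ^ (j + 1)) ^ (q - 2) ≤ v ^ (q - 2) :=
    Real.rpow_le_rpow_of_nonpos hv h2 (by linarith)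
  have h4 : ((2:ℝ) ^ (j + 1)) ^ (q - 2) = (2:ℝ) ^ ((j : ℝ) * (q - 2)) * (2:ℝ) ^ (q - 2) := by
    rw [← Real.rpow_intCast, ← Real.rpow_mul (by norm_num), ← Real.rpow_add (by norm_num)]
    congr 1
    push_cast
    ring
  have h5 : (1:ℝ) ≤ 2 * (2:ℝ) ^ (q - 2) := by
    have : (2:ℝ) ^ (-1:ℝ) ≤ (2:ℝ) ^ (q - 2) :=
      Real.rpow_le_rpow_of_exponent_le (by norm_num) (by linarith [not_lt.1 hq])
    rw [Real.rpow_neg_one] at this
    linarith
  have h6 : 0 < (2:ℝ) ^ ((j : ℝ) * (q - 2)) := by positivity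
  calc (2:ℝ) ^ ((j : ℝ) * (q - 2)) ≤ (2:ℝ) ^ ((j : ℝ) * (q - 2)) * (2 * (2:ℝ) ^ (q - 2)) :=
        le_mul_of_one_le_right h6.le h5
    _ = 2 * (((2:ℝ) ^ (j + 1)) ^ (q - 2)) := by rw [h4]; ring
    _ ≤ 2 * v ^ (q - 2) := by linarith

open Classical in
/-- the first sum in the Hoelder inequality -/
theorem sumX {V : ℕ → ℕ → ℝ} (A : ℕ → ℝ → ℝ≥0∞) (hA : ∀ l, Measurable (A l))
    (hV : ∀ l i, V l (i / 2) ≤ V (l + 1) i)
    (n : ℕ) (q : ℝ) (hq1 : 1 ≤ q) (hq2 : q < 2) :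
    ∑' x : ℤ × ℕ × ℕ, (if good V n x then
        (∑ l ∈ Finset.Ico x.2.1 n, ∫⁻ t in cell x.2.1 x.2.2, aj V A x.1 l t) *
          (2:ℝ≥0∞) ^ ((x.1 : ℝ) * (q - 2)) else 0) ≤
      2 * ∑ l ∈ Finset.range n, ∫⁻ t in Set.Ico (0:ℝ) 1,
        A l t * ENNReal.ofReal (V l (ix l t) ^ (q - 2)) := by
  have e : ∀ x : ℤ × ℕ × ℕ, (if good V n x then
        (∑ l ∈ Finset.Ico x.2.1 n, ∫⁻ t in cell x.2.1 x.2.2, aj V A x.1 l t) *
          (2:ℝ≥0∞) ^ ((x.1 : ℝ) * (q - 2)) else 0) =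
      (if good V n x then ∑ l ∈ Finset.Ico x.2.1 n, ∫⁻ t in cell x.2.1 x.2.2,
        (fun j l t => aj V A j l t * (2:ℝ≥0∞) ^ ((j : ℝ) * (q - 2))) x.1 l t else 0) := by
    intro x
    by_cases hx : good V n x
    · simp only [hx, if_true]
      rw [Finset.sum_mul]
      refine Finset.sum_congr rfl fun l _ => ?_
      rw [lintegral_mul_const _ (measurable_aj hA _ _)]
    · simp only [hx, if_false]
  simp only [e]
  rw [tile2 V n (fun j l t => aj V A j l t * (2:ℝ≥0∞) ^ ((j : ℝ) * (q - 2)))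
    (fun j l => (measurable_aj hA j l).mul_const _), Finset.mul_sum]
  refine Finset.sum_le_sum fun l hl => ?_
  rw [← lintegral_const_mul' _ _ (by norm_num)]
  refine setLIntegral_mono' measurableSet_Ico fun t ht => ?_
  by_cases hex : ∃ j, gr V j l t
  · obtain ⟨j, hj⟩ := hex
    obtain ⟨l0, hl0, hini⟩ := exists_ini ht hj.1
    have hz : ∀ x : ℤ × ℕ × ℕ, x ≠ (j, l0, ix l0 t) →
        (if good V n x ∧ ix x.2.1 t = x.2.2 then (if x.2.1 ≤ l then
          aj V A x.1 l t * (2:ℝ≥0∞) ^ ((x.1 : ℝ) * (q - 2)) else 0) else 0) = 0 := by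
      rintro ⟨j', l1, i1⟩ hne
      by_cases hg : good V n (j', l1, i1) ∧ ix l1 t = i1
      · by_cases hj' : gr V j' l t
        · exfalso
          have h1 : j' = j := unique_gr hj' hj
          subst h1
          obtain ⟨hg1, hg2⟩ := hg
          subst hg2
          have h2 : l1 = l0 := unique_ini hV ht hg1.2.2 hini
          subst h2
          exact hne rfl
        · simp only [aj, hj', if_false, zero_mul, ite_self]
      · simp only [hg, if_false]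
    rw [tsum_eq_single _ hz]
    simp only [aj, hj, if_true]
    split_ifs
    · rcases pow_group hq2 hj.1 hj.2 with h | h
      · calc A l t * (2:ℝ≥0∞) ^ ((j : ℝ) * (q - 2))
            ≤ A l t * (2 * ENNReal.ofReal (V l (ix l t) ^ (q - 2))) := by gcongr
          _ = _ := by ring
      · linarith
    · exact zero_le
  · have hz : ∀ x : ℤ × ℕ × ℕ,
        (if good V n x ∧ ix x.2.1 t = x.2.2 then (if x.2.1 ≤ l then
          aj V A x.1 l t * (2:ℝ≥0∞) ^ ((x.1 : ℝ) * (q - 2)) else 0) else 0) = 0 := by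
      intro x
      have : ¬ gr V x.1 l t := fun h => hex ⟨_, h⟩
      simp only [aj, this, if_false, zero_mul, ite_self]
    rw [tsum_congr hz, tsum_zero]
    exact zero_le

/-- geometric sum over the groups below a value -/
theorem geom {q : ℝ} (hq1 : 1 ≤ q) {v : ℝ} (hv : 0 ≤ v) [DecidablePred fun j : ℤ => (2:ℝ) ^ j < v] :
    ∑' j : ℤ, (if (2:ℝ) ^ j < v then (2:ℝ≥0∞) ^ ((j : ℝ) * q) else 0) ≤
      2 * ENNReal.ofReal (v ^ q) := by
  rcases hv.eq_or_lt with hv0 | hv0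
  · have : ∀ j : ℤ, (if (2:ℝ) ^ j < v then (2:ℝ≥0∞) ^ ((j : ℝ) * q) else 0) = 0 := by
      intro j
      have h1 : ¬ (2:ℝ) ^ j < v := by rw [← hv0]; exact not_lt.2 (by positivity)
      rw [if_neg h1]
    rw [tsum_congr this, tsum_zero]
    exact zero_le
  · obtain ⟨j0, hj1, hj2⟩ := exists_mem_Ioc_zpow hv0 (by norm_num : (1:ℝ) < 2)
    have hinj : Function.Injective (fun m : ℕ => j0 - (m : ℤ)) := by
      intro a b h
      have : j0 - (a : ℤ) = j0 - (b : ℤ) := h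
      omega
    rw [← hinj.tsum_eq]
    · have h1 : ∀ m : ℕ, (if (2:ℝ) ^ (j0 - (m:ℤ)) < v then
          (2:ℝ≥0∞) ^ (((j0 - (m:ℤ) : ℤ) : ℝ) * q) else 0) ≤
          (2:ℝ≥0∞) ^ ((j0 : ℝ) * q) * (2⁻¹ : ℝ≥0∞) ^ m := by
        intro m
        split_ifs
        · have e : (((j0 - (m:ℤ) : ℤ) : ℝ) * q) = (j0 : ℝ) * q + (-(q * m)) := by
            push_cast; ring
          rw [e, ENNReal.rpow_add _ _ (by norm_num) (by norm_num)]
          gcongr
          calc (2:ℝ≥0∞) ^ (-(q * (m:ℝ))) ≤ (2:ℝ≥0∞) ^ (-(m:ℝ)) := by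
                refine ENNReal.rpow_le_rpow_of_exponent_le (by norm_num) ?_
                have : (0:ℝ) ≤ m := by positivity
                nlinarith
            _ = (2⁻¹ : ℝ≥0∞) ^ m := by
                rw [ENNReal.rpow_neg, ENNReal.rpow_natCast, ENNReal.inv_pow]
        · exact zero_le
      calc ∑' m : ℕ, (if (2:ℝ) ^ (j0 - (m:ℤ)) < v then
            (2:ℝ≥0∞) ^ (((j0 - (m:ℤ) : ℤ) : ℝ) * q) else 0)
          ≤ ∑' m : ℕ, (2:ℝ≥0∞) ^ ((j0 : ℝ) * q) * (2⁻¹ : ℝ≥0∞) ^ m := ENNReal.tsum_le_tsum h1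
        _ = (2:ℝ≥0∞) ^ ((j0 : ℝ) * q) * 2 := by
            rw [ENNReal.tsum_mul_left, ENNReal.tsum_geometric, ENNReal.one_sub_inv_two, inv_inv]
        _ ≤ ENNReal.ofReal (v ^ q) * 2 := by
            gcongr
            have e1 : (2:ℝ≥0∞) ^ ((j0 : ℝ) * q) = ENNReal.ofReal ((2:ℝ) ^ ((j0 : ℝ) * q)) := by
              rw [← ENNReal.ofReal_rpow_of_pos (by norm_num : (0:ℝ) < 2)]
              norm_num
            rw [e1]
            refine ENNReal.ofReal_le_ofReal ?_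
            rw [Real.rpow_mul (by norm_num), Real.rpow_intCast]
            exact Real.rpow_le_rpow (by positivity) hj1.le (by linarith)
        _ = _ := mul_comm _ _
    · intro j hj
      rw [Function.mem_support] at hj
      have h1 : (2:ℝ) ^ j < v := by
        by_contra h
        exact hj (if_neg h)
      have h2 : (2:ℝ) ^ j < (2:ℝ) ^ (j0 + 1) := lt_of_lt_of_le h1 hj2
      have h3 := (zpow_lt_zpow_iff_right₀ (by norm_num : (1:ℝ) < 2)).1 h2
      exact ⟨(j0 - j).toNat, by simp only; omega⟩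

open Classical in
/-- the second sum in the Hoelder inequality -/
theorem sumM {V : ℕ → ℕ → ℝ} (hV0 : ∀ l i, 0 ≤ V l i) (hV : ∀ l i, V l (i / 2) ≤ V (l + 1) i)
    (n : ℕ) (q : ℝ) (hq1 : 1 ≤ q) :
    ∑' x : ℤ × ℕ × ℕ, (if good V n x then
        ENNReal.ofReal ((2 ^ x.2.1)⁻¹) * (2:ℝ≥0∞) ^ ((x.1 : ℝ) * q) else 0) ≤
      2 * ∫⁻ t in Set.Ico (0:ℝ) 1, ENNReal.ofReal (V (n - 1) (ix (n - 1) t) ^ q) := by
  have e : ∀ x : ℤ × ℕ × ℕ, (if good V n x then
        ENNReal.ofReal ((2 ^ x.2.1)⁻¹) * (2:ℝ≥0∞) ^ ((x.1 : ℝ) * q) else 0) =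
      (if good V n x then ∫⁻ t in cell x.2.1 x.2.2,
        (fun (x : ℤ × ℕ × ℕ) (t : ℝ) => (2:ℝ≥0∞) ^ ((x.1 : ℝ) * q)) x t else 0) := by
    intro x
    by_cases hx : good V n x
    · simp only [hx, if_true, lintegral_const, Measure.restrict_apply_univ]
      rw [mul_comm]
      congr 1
      unfold cell
      rw [Real.volume_Ico]
      congr 1
      field_simp
      ring
    · simp only [hx, if_false]
  simp only [e]
  rw [← tile V n (fun (x : ℤ × ℕ × ℕ) (t : ℝ) => (2:ℝ≥0∞) ^ ((x.1 : ℝ) * q))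
    (fun x => measurable_const), ← lintegral_const_mul' _ _ (by norm_num)]
  refine setLIntegral_mono' measurableSet_Ico fun t ht => ?_
  refine le_trans ?_ (geom hq1 (hV0 (n - 1) (ix (n - 1) t)))
  rw [ENNReal.tsum_prod']
  refine ENNReal.tsum_le_tsum fun j => ?_
  by_cases hex : ∃ y : ℕ × ℕ, good V n (j, y) ∧ ix y.1 t = y.2
  · obtain ⟨⟨l0, i0⟩, hg, hi⟩ := hex
    have hi' : ix l0 t = i0 := hi
    subst hi'
    have hz : ∀ y : ℕ × ℕ, y ≠ (l0, ix l0 t) →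
        (if good V n (j, y) ∧ ix y.1 t = y.2 then (2:ℝ≥0∞) ^ ((j : ℝ) * q) else 0) = 0 := by
      rintro ⟨l1, i1⟩ hne
      rw [if_neg]
      rintro ⟨hg1, hi1⟩
      have hi1' : ix l1 t = i1 := hi1
      subst hi1'
      have h2 : l1 = l0 := unique_ini hV ht hg1.2.2 hg.2.2
      subst h2
      exact hne rfl
    rw [tsum_eq_single _ hz]
    have h1 : (2:ℝ) ^ j < V (n - 1) (ix (n - 1) t) := by
      refine lt_of_lt_of_le hg.2.2.1 ?_
      have h0 : l0 < n := hg.1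
      exact path_mono hV ht.1 (show l0 ≤ n - 1 by omega)
    rw [if_pos h1]
    split_ifs
    · exact le_refl _
    · exact zero_le
  · have hz : ∀ y : ℕ × ℕ,
        (if good V n (j, y) ∧ ix y.1 t = y.2 then (2:ℝ≥0∞) ^ ((j : ℝ) * q) else 0) = 0 := by
      intro y
      rw [if_neg]
      exact fun h => hex ⟨y, h⟩
    rw [tsum_congr hz, tsum_zero]
    exact zero_le

theorem measurable_W (s : ℝ) (l : ℕ) :
    Measurable (fun z : ℝ × Om => ENNReal.ofReal (2 ^ l * muL l z.1 z.2 ^ s * Th l z.1 z.2)) := by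
  have h1 := (continuous_muL l).measurable
  have h2 := (continuous_Th l).measurable
  exact (((h1.pow_const s).const_mul _).mul h2).ennreal_ofReal

theorem measurable_W1 (s : ℝ) (l : ℕ) (ω : Om) :
    Measurable (fun t : ℝ => ENNReal.ofReal (2 ^ l * muL l t ω ^ s * Th l t ω)) := by
  have h0 : Continuous (fun t : ℝ => (t, ω)) := Continuous.prodMk_left ω
  have h1 : Measurable (fun t : ℝ => muL l t ω) := ((continuous_muL l).comp h0).measurable
  have h2 : Measurable (fun t : ℝ => Th l t ω) := ((continuous_Th l).comp h0).measurable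
  exact (((h1.pow_const s).const_mul _).mul h2).ennreal_ofReal

end Grp

theorem groups (s : ℝ) (hs1 : 1 < s) (hs2 : s < 2) : ∃ C : ℝ, 0 < C ∧
    ∀ (n : ℕ) (V : ℕ → ℕ → ℝ) (A : ℕ → ℝ → ℝ≥0∞), (∀ l, Measurable (A l)) →
      (∀ l i, 0 ≤ V l i) → (∀ l i, V l (i / 2) ≤ V (l + 1) i) →
      (∀ l, ∀ t ∈ Set.Ico (0:ℝ) 1, V l (ix l t) = 0 → A l t = 0) →
      ∫⁻ ω, (∑ l ∈ Finset.range n, ∫⁻ t in Set.Ico (0:ℝ) 1,
          A l t * ENNReal.ofReal (2 ^ l * muL l t ω ^ s * Th l t ω)) ^ (1 / s) ∂mu ≤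
        ENNReal.ofReal C *
          (∑ l ∈ Finset.range n, ∫⁻ t in Set.Ico (0:ℝ) 1,
            A l t * ENNReal.ofReal (V l (ix l t) ^ (2 / s - 2))) ^ (1 / s) *
          (∫⁻ t in Set.Ico (0:ℝ) 1,
            ENNReal.ofReal (V (n - 1) (ix (n - 1) t) ^ (2 / s))) ^ (1 - 1 / s) := by
  classical
  obtain ⟨C, hC, hcore⟩ := core s hs1 hs2
  refine ⟨C * 2, by positivity, ?_⟩
  intro n V A hA hV0 hV hA0
  have hs0 : 0 < s := by linarith
  have hr0 : 0 < 1 / s := by positivity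
  have hr1 : 1 / s ≤ 1 := by rw [div_le_one hs0]; linarith
  have hq1 : 1 ≤ 2 / s := by rw [le_div_iff₀ hs0]; linarith
  have hq2 : 2 / s < 2 := by rw [div_lt_iff₀ hs0]; linarith
  set T : ℤ × ℕ × ℕ → Om → ℝ≥0∞ := fun x ω => if Grp.good V n x then
      ∑ l ∈ Finset.Ico x.2.1 n, ∫⁻ t in cell x.2.1 x.2.2,
        Grp.aj V A x.1 l t * ENNReal.ofReal (2 ^ l * muL l t ω ^ s * Th l t ω) else 0 with hT
  have hTm : ∀ x, Measurable (T x) := by
    intro x
    by_cases hx : Grp.good V n x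
    · simp only [hT, hx, if_true]
      refine Finset.measurable_sum _ fun l _ => ?_
      exact Measurable.lintegral_prod_left' (f := fun z : ℝ × Om => Grp.aj V A x.1 l z.1 *
        ENNReal.ofReal (2 ^ l * muL l z.1 z.2 ^ s * Th l z.1 z.2))
        (((Grp.measurable_aj hA x.1 l).comp measurable_fst).mul (Grp.measurable_W s l))
    · simp only [hT, hx, if_false]
      exact measurable_const
  set X : ℤ × ℕ × ℕ → ℝ≥0∞ := fun x => if Grp.good V n x then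
        (∑ l ∈ Finset.Ico x.2.1 n, ∫⁻ t in cell x.2.1 x.2.2, Grp.aj V A x.1 l t) *
          (2:ℝ≥0∞) ^ ((x.1 : ℝ) * (2 / s - 2)) else 0 with hX
  set M : ℤ × ℕ × ℕ → ℝ≥0∞ := fun x => if Grp.good V n x then
        ENNReal.ofReal ((2 ^ x.2.1)⁻¹) * (2:ℝ≥0∞) ^ ((x.1 : ℝ) * (2 / s)) else 0 with hM
  have hstep : ∀ x, ∫⁻ ω, (T x ω) ^ (1 / s) ∂mu ≤
      ENNReal.ofReal C * (X x ^ (1 / s) * M x ^ (1 - 1 / s)) := by
    intro x
    by_cases hx : Grp.good V n x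
    · have h := hcore x.2.1 x.2.2 n hx.2.1 (Grp.aj V A x.1) (fun l => Grp.measurable_aj hA x.1 l)
      simp only [hT, hX, hM, hx, if_true]
      refine h.trans (le_of_eq ?_)
      rw [mul_assoc]
      congr 1
      rw [ENNReal.mul_rpow_of_nonneg _ _ hr0.le,
        ENNReal.mul_rpow_of_nonneg _ _ (sub_nonneg.2 hr1), ← ENNReal.rpow_mul, ← ENNReal.rpow_mul]
      have e : (2:ℝ≥0∞) ^ ((x.1 : ℝ) * (2 / s - 2) * (1 / s)) *
          (2:ℝ≥0∞) ^ ((x.1 : ℝ) * (2 / s) * (1 - 1 / s)) = 1 := by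
        rw [← ENNReal.rpow_add _ _ (by norm_num) (by norm_num)]
        have : (x.1 : ℝ) * (2 / s - 2) * (1 / s) + (x.1 : ℝ) * (2 / s) * (1 - 1 / s) = 0 := by
          field_simp
          ring
        rw [this, ENNReal.rpow_zero]
      calc (∑ l ∈ Finset.Ico x.2.1 n, ∫⁻ t in cell x.2.1 x.2.2, Grp.aj V A x.1 l t) ^ (1 / s) *
            ENNReal.ofReal ((2 ^ x.2.1)⁻¹) ^ (1 - 1 / s) =
          (∑ l ∈ Finset.Ico x.2.1 n, ∫⁻ t in cell x.2.1 x.2.2, Grp.aj V A x.1 l t) ^ (1 / s) *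
            ENNReal.ofReal ((2 ^ x.2.1)⁻¹) ^ (1 - 1 / s) *
            ((2:ℝ≥0∞) ^ ((x.1 : ℝ) * (2 / s - 2) * (1 / s)) *
              (2:ℝ≥0∞) ^ ((x.1 : ℝ) * (2 / s) * (1 - 1 / s))) := by rw [e, mul_one]
        _ = _ := by ring
    · simp only [hT, hx, if_false, ENNReal.zero_rpow_of_pos hr0, lintegral_zero]
      exact zero_le
  have h1 : ∀ ω, (∑ l ∈ Finset.range n, ∫⁻ t in Set.Ico (0:ℝ) 1,
          A l t * ENNReal.ofReal (2 ^ l * muL l t ω ^ s * Th l t ω)) ^ (1 / s) ≤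
      ∑' x, (T x ω) ^ (1 / s) := by
    intro ω
    have hw : ∀ l, Measurable (fun t => ENNReal.ofReal (2 ^ l * muL l t ω ^ s * Th l t ω)) :=
      fun l => Grp.measurable_W1 s l ω
    have h := Grp.decomp A hA hV0 hA0 n
      (fun l t => ENNReal.ofReal (2 ^ l * muL l t ω ^ s * Th l t ω)) hw
    exact (ENNReal.rpow_le_rpow h hr0.le).trans (Grp.rpow_tsum_le _ hr0 hr1 _)
  calc ∫⁻ ω, (∑ l ∈ Finset.range n, ∫⁻ t in Set.Ico (0:ℝ) 1,
          A l t * ENNReal.ofReal (2 ^ l * muL l t ω ^ s * Th l t ω)) ^ (1 / s) ∂mu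
      ≤ ∫⁻ ω, ∑' x, (T x ω) ^ (1 / s) ∂mu := lintegral_mono h1
    _ = ∑' x, ∫⁻ ω, (T x ω) ^ (1 / s) ∂mu :=
        lintegral_tsum fun x => ((hTm x).pow_const _).aemeasurable
    _ ≤ ∑' x, ENNReal.ofReal C * (X x ^ (1 / s) * M x ^ (1 - 1 / s)) :=
        ENNReal.tsum_le_tsum hstep
    _ = ENNReal.ofReal C * ∑' x, X x ^ (1 / s) * M x ^ (1 - 1 / s) := ENNReal.tsum_mul_left
    _ ≤ ENNReal.ofReal C * ((∑' x, X x) ^ (1 / s) * (∑' x, M x) ^ (1 - 1 / s)) := by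
        exact mul_le_mul' le_rfl (Grp.holder_tsum _ hr0.le hr1 X M)
    _ ≤ ENNReal.ofReal C * ((2 * ∑ l ∈ Finset.range n, ∫⁻ t in Set.Ico (0:ℝ) 1,
            A l t * ENNReal.ofReal (V l (ix l t) ^ (2 / s - 2))) ^ (1 / s) *
          (2 * ∫⁻ t in Set.Ico (0:ℝ) 1,
            ENNReal.ofReal (V (n - 1) (ix (n - 1) t) ^ (2 / s))) ^ (1 - 1 / s)) := by
        exact mul_le_mul' le_rfl (mul_le_mul'
          (ENNReal.rpow_le_rpow (Grp.sumX A hA hV n (2 / s) hq1 hq2) hr0.le)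
          (ENNReal.rpow_le_rpow (Grp.sumM hV0 hV n (2 / s) hq1) (sub_nonneg.2 hr1)))
    _ = _ := by
        rw [ENNReal.mul_rpow_of_nonneg _ _ hr0.le,
          ENNReal.mul_rpow_of_nonneg _ _ (sub_nonneg.2 hr1)]
        have e : (2:ℝ≥0∞) ^ (1 / s) * (2:ℝ≥0∞) ^ (1 - 1 / s) = 2 := by
          rw [← ENNReal.rpow_add _ _ (by norm_num) (by norm_num)]
          have : 1 / s + (1 - 1 / s) = 1 := by ring
          rw [this, ENNReal.rpow_one]
        have e2 : ENNReal.ofReal (C * 2) = ENNReal.ofReal C * 2 := by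
          rw [ENNReal.ofReal_mul hC.le]
          norm_num
        rw [e2]
        nth_rewrite 3 [← e]
        ring

end Emb
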