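/-
CHUNK MART (two abstract martingale inequalities for exponents < 1; no cancellation needed).

S : increasing finite sets, El (S l) = conditional expectation E_l. 0 < r < 1 (r = q/2).

`step1`: X_l : Om -> [0,oo] (think |X_l|), measurable, depending on S l, X_0 = 0, v_l depending on S l,
  E_l[X_(l+1)^2] <= X_l^2 + v_l pointwise. Then E X_n^q <= C E (sum_(l<n) v_l)^(q/2), q < 2.
 Proof. V_l = sum_(i<=l) v_i (depends on S l), c = 1 - q/2 in (0,1).
  E[X_(l+1)^2 V_l^-c] = E[E_l[X_(l+1)^2] V_l^-c] <= E[X_l^2 V_l^-c] + E[v_l V_l^-c]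
     <= E[X_l^2 V_(l-1)^-c] + E[(V_l-V_(l-1)) V_l^-c].
  Sum: E[X_n^2 V^-c] <= E int_0^V x^-c dx = E V^(1-c)/(1-c) = (2/q) E V^(q/2), V = V_(n-1).
  Hoelder: E X^q = E (X^2 V^-c)^(q/2) (V^(q/2))^(1-q/2) <= (E X^2 V^-c)^(q/2) (E V^(q/2))^(1-q/2)
     <= (2/q)^(q/2) E V^(q/2)     [c q/2 = (q/2)(1-q/2)].
  Zeros of V: replace V by V + delta (delta > 0 real) and let delta -> 0, or: if E V^(q/2) < oo then
  E[X^2 V^-c] < oo forces X = 0 a.e. on {V = 0}.  Where V = oo on a set of positive measure the right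
  side is oo.
`f2`: Y_k >= 0 arbitrary measurable: E (sum_k Y_k)^r <= C E (sum_k E_k Y_k)^r.
 Proof. W_k = sum_(j<=k) E_j Y_j (depends on S k), W = W_(n-1). E[sum Y_k W_k^(r-1)]
   = E[sum (E_k Y_k) W_k^(r-1)] <= E int_0^W x^(r-1) dx = E W^r / r.
   Y_k <= Y_k W_k^(r-1) W^(1-r) (W_k <= W), so E(sum Y)^r <= E (sum Y_k W_k^(r-1))^r (W^r)^(1-r)
   <= (E W^r/r)^r (E W^r)^(1-r) = r^-r E W^r.  (Zeros again: add delta.)
-/
import Pool.Agent.Lib.Emb.ElB

open MeasureTheory Complex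
open scoped BigOperators ENNReal

namespace Emb

private theorem mart_bern {r A e : ℝ} (hr0 : 0 < r) (hr1 : r < 1) (hA : 0 < A) (he : 0 ≤ e) :
    A ^ r + r * (e * (A + e) ^ (r - 1)) ≤ (A + e) ^ r := by
  have hB : 0 < A + e := by linarith
  have h1 : (1 + -(e / (A + e))) ^ r ≤ 1 + r * -(e / (A + e)) := by
    apply rpow_one_add_le_one_add_mul_self _ hr0.le hr1.le
    have : e / (A + e) ≤ 1 := by
      rw [div_le_one hB]
      linarith
    linarith
  have h2 : 1 + -(e / (A + e)) = A / (A + e) := by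
    field_simp
    ring
  rw [h2, Real.div_rpow hA.le hB.le] at h1
  have hBr : 0 < (A + e) ^ r := Real.rpow_pos_of_pos hB r
  rw [div_le_iff₀ hBr] at h1
  have h3 : (A + e) ^ (r - 1) = (A + e) ^ r / (A + e) := by
    rw [Real.rpow_sub hB, Real.rpow_one]
  rw [h3]
  have h4 : (1 + r * -(e / (A + e))) * (A + e) ^ r =
      (A + e) ^ r - r * (e * ((A + e) ^ r / (A + e))) := by
    field_simp
    ring
  rw [h4] at h1
  linarith

private theorem mart_step {r : ℝ} (hr0 : 0 < r) (hr1 : r < 1) {A : ℝ≥0∞} (hA : A ≠ 0) (e : ℝ≥0∞) :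
    ENNReal.ofReal (1 / r) * A ^ r + e * (A + e) ^ (r - 1) ≤
      ENNReal.ofReal (1 / r) * (A + e) ^ r := by
  have hr : 0 < 1 / r := by positivity
  by_cases hAt : A = ∞
  · have : A + e = ∞ := by simp [hAt]
    rw [this, ENNReal.top_rpow_of_pos hr0, ENNReal.mul_top (by simpa using hr0)]
    exact le_top
  by_cases het : e = ∞
  · have : A + e = ∞ := by simp [het]
    rw [this, ENNReal.top_rpow_of_pos hr0, ENNReal.mul_top (by simpa using hr0)]
    exact le_top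
  have hA' : 0 < A.toReal := ENNReal.toReal_pos hA hAt
  have he' : 0 ≤ e.toReal := ENNReal.toReal_nonneg
  have hB : 0 < A.toReal + e.toReal := by linarith
  have eA : A = ENNReal.ofReal A.toReal := (ENNReal.ofReal_toReal hAt).symm
  have ee : e = ENNReal.ofReal e.toReal := (ENNReal.ofReal_toReal het).symm
  have eB : A + e = ENNReal.ofReal (A.toReal + e.toReal) := by
    rw [ENNReal.ofReal_add hA'.le he', ← eA, ← ee]
  rw [eB, ENNReal.ofReal_rpow_of_pos hB, ENNReal.ofReal_rpow_of_pos hB]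
  nth_rewrite 1 [eA]
  nth_rewrite 1 [ee]
  rw [ENNReal.ofReal_rpow_of_pos hA', ← ENNReal.ofReal_mul hr.le, ← ENNReal.ofReal_mul hr.le,
    ← ENNReal.ofReal_mul he', ← ENNReal.ofReal_add (by positivity) (by positivity)]
  apply ENNReal.ofReal_le_ofReal
  have h := mart_bern hr0 hr1 hA' he'
  have h2 : 1 / r * (A.toReal ^ r + r * (e.toReal * (A.toReal + e.toReal) ^ (r - 1))) ≤
      1 / r * (A.toReal + e.toReal) ^ r := mul_le_mul_of_nonneg_left h hr.le
  calc _ = 1 / r * (A.toReal ^ r + r * (e.toReal * (A.toReal + e.toReal) ^ (r - 1))) := by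
        field_simp
    _ ≤ _ := h2

private theorem mart_tele {r : ℝ} (hr0 : 0 < r) (hr1 : r < 1) {δ : ℝ≥0∞} (hδ : δ ≠ 0)
    (e : ℕ → ℝ≥0∞) (n : ℕ) :
    ∑ k ∈ Finset.range n, e k * (∑ j ∈ Finset.range (k + 1), e j + δ) ^ (r - 1) ≤
      ENNReal.ofReal (1 / r) * (∑ j ∈ Finset.range n, e j + δ) ^ r := by
  induction n with
  | zero => simp
  | succ n ih =>
    rw [Finset.sum_range_succ]
    have hA : ∑ j ∈ Finset.range n, e j + δ ≠ 0 := by
      intro h
      exact hδ (by simpa using (add_eq_zero.1 h).2)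
    have h1 := mart_step hr0 hr1 hA (e n)
    have h2 : ∑ j ∈ Finset.range (n + 1), e j + δ = ∑ j ∈ Finset.range n, e j + δ + e n := by
      rw [Finset.sum_range_succ]
      ring
    rw [h2]
    exact (add_le_add_left ih _).trans h1

private theorem mart_lim {r C : ℝ} (hr0 : 0 < r) (hC : 0 < C) {a b : ℝ≥0∞}
    (h : ∀ δ : ℝ, 0 < δ → a ≤ ENNReal.ofReal C * (b + ENNReal.ofReal δ ^ r)) :
    a ≤ ENNReal.ofReal C * b := by
  refine ENNReal.le_of_forall_pos_le_add fun ε hε _ => ?_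
  have hε' : (0 : ℝ) < ε := hε
  have h1 : 0 < ((ε : ℝ) / C) ^ (1 / r) := Real.rpow_pos_of_pos (by positivity) _
  refine (h _ h1).trans ?_
  rw [mul_add]
  apply add_le_add_right
  rw [ENNReal.ofReal_rpow_of_pos h1, ← Real.rpow_mul (by positivity), one_div,
    inv_mul_cancel₀ hr0.ne', Real.rpow_one, ← ENNReal.ofReal_mul hC.le,
    mul_div_cancel₀ _ hC.ne', ENNReal.ofReal_coe_nnreal]

private theorem mart_final {r : ℝ} (hr0 : 0 < r) (hr1 : r < 1) {U G F : Om → ℝ≥0∞}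
    (hU : Measurable U) (hG : Measurable G) {δ : ℝ} (_hδ : 0 < δ)
    (hF : ∀ᵐ ω ∂mu, F ω ≤ G ω ^ r * ((U ω + ENNReal.ofReal δ) ^ r) ^ (1 - r))
    (hE : ∫⁻ ω, G ω ∂mu ≤ ENNReal.ofReal (1 / r) * ∫⁻ ω, (U ω + ENNReal.ofReal δ) ^ r ∂mu) :
    ∫⁻ ω, F ω ∂mu ≤ ENNReal.ofReal ((1 / r) ^ r) * (∫⁻ ω, U ω ^ r ∂mu + ENNReal.ofReal δ ^ r) := by
  have hr : 0 < 1 / r := by positivity
  set J := ∫⁻ ω, (U ω + ENNReal.ofReal δ) ^ r ∂mu with hJ
  have hJ1 : J ≤ ∫⁻ ω, U ω ^ r ∂mu + ENNReal.ofReal δ ^ r := by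
    calc J ≤ ∫⁻ ω, (U ω ^ r + ENNReal.ofReal δ ^ r) ∂mu :=
          lintegral_mono fun ω => ENNReal.rpow_add_le_add_rpow _ _ hr0.le hr1.le
      _ = _ := by
        rw [lintegral_add_right _ measurable_const, lintegral_const, measure_univ, mul_one]
  calc ∫⁻ ω, F ω ∂mu ≤ ∫⁻ ω, G ω ^ r * ((U ω + ENNReal.ofReal δ) ^ r) ^ (1 - r) ∂mu :=
        lintegral_mono_ae hF
    _ ≤ (∫⁻ ω, G ω ∂mu) ^ r * J ^ (1 - r) := by
        refine ENNReal.lintegral_mul_norm_pow_le hG.aemeasurable ?_ hr0.le (by linarith) (by ring)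
        exact ((hU.add measurable_const).pow_const r).aemeasurable
    _ ≤ (ENNReal.ofReal (1 / r) * J) ^ r * J ^ (1 - r) := by
        gcongr
    _ = ENNReal.ofReal ((1 / r) ^ r) * J := by
        rw [ENNReal.mul_rpow_of_nonneg _ _ hr0.le, mul_assoc,
          ← ENNReal.rpow_add_of_nonneg _ _ hr0.le (by linarith), add_sub_cancel,
          ENNReal.rpow_one, ENNReal.ofReal_rpow_of_pos hr]
    _ ≤ _ := by gcongr

theorem step1 (q : ℝ) (hq1 : 1 < q) (hq2 : q < 2) : ∃ C : ℝ, 0 < C ∧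
    ∀ (S : ℕ → Finset ℕ), Monotone S → ∀ (X v : ℕ → Om → ℝ≥0∞), (∀ l, Measurable (X l)) →
      (∀ l, Measurable (v l)) → (∀ l, DependsOn (X l) (S l : Set ℕ)) →
      (∀ l, DependsOn (v l) (S l : Set ℕ)) → (∀ ω, X 0 ω = 0) →
      (∀ l ω, El (S l) (fun ω => X (l + 1) ω ^ 2) ω ≤ X l ω ^ 2 + v l ω) →
      (∀ l ω, X l ω ≠ ∞) → (∀ l ω, v l ω ≠ ∞) →
      ∀ n : ℕ, ∫⁻ ω, X n ω ^ q ∂mu ≤
        ENNReal.ofReal C * ∫⁻ ω, (∑ l ∈ Finset.range n, v l ω) ^ (q / 2) ∂mu := by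
  have hr0 : 0 < q / 2 := by linarith
  have hr1 : q / 2 < 1 := by linarith
  refine ⟨(1 / (q / 2)) ^ (q / 2), by positivity, ?_⟩
  intro S hS X v hXm hvm hXd hvd hX0 hX hXt hvt n
  apply mart_lim hr0 (by positivity)
  intro δ hδ
  have hδ' : ENNReal.ofReal δ ≠ 0 := by simpa using hδ
  set U : ℕ → Om → ℝ≥0∞ := fun m ω => ∑ l ∈ Finset.range m, v l ω with hUdef
  have hUm : ∀ m, Measurable (U m) := fun m => Finset.measurable_fun_sum _ fun l _ => hvm l
  have hUt : ∀ m ω, U m ω + ENNReal.ofReal δ ≠ ∞ := fun m ω =>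
    ENNReal.add_ne_top.2 ⟨ENNReal.sum_ne_top.2 fun l _ => hvt l ω, ENNReal.ofReal_ne_top⟩
  have hU0 : ∀ m ω, U m ω + ENNReal.ofReal δ ≠ 0 := by
    intro m ω h
    exact hδ' (add_eq_zero.1 h).2
  set G : ℕ → Om → ℝ≥0∞ := fun m ω => (U m ω + ENNReal.ofReal δ) ^ (q / 2 - 1) with hGdef
  have hGm : ∀ m, Measurable (G m) := fun m => ((hUm m).add measurable_const).pow_const _
  have hUd : ∀ m, DependsOn (U (m + 1)) (S m : Set ℕ) := by
    intro m ω ω' h
    simp only [hUdef]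
    apply Finset.sum_congr rfl
    intro l hl
    apply hvd l
    intro i hi
    apply h
    have : S l ⊆ S m := hS (by have := Finset.mem_range.1 hl; omega)
    exact_mod_cast this (by exact_mod_cast hi)
  have hGd : ∀ m, DependsOn (G (m + 1)) (S m : Set ℕ) := by
    intro m ω ω' h
    simp only [hGdef]
    rw [hUd m h]
  have hvG : ∀ m, Measurable fun ω => v m ω * G (m + 1) ω := fun m => (hvm m).mul (hGm (m + 1))
  have hXG : Measurable fun ω => X n ω ^ 2 * G n ω := ((hXm n).pow_const 2).mul (hGm n)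
  have hUp : Measurable fun ω => (U n ω + ENNReal.ofReal δ) ^ (q / 2) :=
    ((hUm n).add measurable_const).pow_const _
  have hmain : ∀ m, ∫⁻ ω, X m ω ^ 2 * G m ω ∂mu ≤
      ∫⁻ ω, ∑ l ∈ Finset.range m, v l ω * G (l + 1) ω ∂mu := by
    intro m
    induction m with
    | zero => simp [hX0]
    | succ m ih =>
      have h1 : ∫⁻ ω, X (m + 1) ω ^ 2 * G (m + 1) ω ∂mu =
          ∫⁻ ω, G (m + 1) ω * El (S m) (fun ω => X (m + 1) ω ^ 2) ω ∂mu := by
        have hm : Measurable fun ω => G (m + 1) ω * X (m + 1) ω ^ 2 :=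
          (hGm _).mul ((hXm _).pow_const 2)
        calc ∫⁻ ω, X (m + 1) ω ^ 2 * G (m + 1) ω ∂mu
            = ∫⁻ ω, G (m + 1) ω * X (m + 1) ω ^ 2 ∂mu := by
              simp_rw [mul_comm]
          _ = ∫⁻ ω, El (S m) (fun ω => G (m + 1) ω * X (m + 1) ω ^ 2) ω ∂mu :=
              (lintegral_El (S m) hm).symm
          _ = _ := by
              apply lintegral_congr
              intro ω
              exact El_mul (S m) ((hXm _).pow_const 2) (hGd m) ω
      have h2 : ∫⁻ ω, G (m + 1) ω * El (S m) (fun ω => X (m + 1) ω ^ 2) ω ∂mu ≤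
          ∫⁻ ω, (X m ω ^ 2 * G m ω + v m ω * G (m + 1) ω) ∂mu := by
        apply lintegral_mono
        intro ω
        have hGle : G (m + 1) ω ≤ G m ω := by
          simp only [hGdef]
          have h3 : U m ω + ENNReal.ofReal δ ≤ U (m + 1) ω + ENNReal.ofReal δ := by
            simp only [hUdef]
            rw [Finset.sum_range_succ]
            gcongr
            exact le_self_add
          rw [show q / 2 - 1 = -(1 - q / 2) by ring, ENNReal.rpow_neg, ENNReal.rpow_neg]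
          exact ENNReal.inv_le_inv.2 (ENNReal.rpow_le_rpow h3 (by linarith))
        calc G (m + 1) ω * El (S m) (fun ω => X (m + 1) ω ^ 2) ω
            ≤ G (m + 1) ω * (X m ω ^ 2 + v m ω) := by gcongr; exact hX m ω
          _ = X m ω ^ 2 * G (m + 1) ω + v m ω * G (m + 1) ω := by ring
          _ ≤ X m ω ^ 2 * G m ω + v m ω * G (m + 1) ω := by gcongr
      rw [h1]
      refine h2.trans ?_
      rw [lintegral_add_right _ (hvG m)]
      have h4 : ∫⁻ ω, ∑ l ∈ Finset.range (m + 1), v l ω * G (l + 1) ω ∂mu =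
          ∫⁻ ω, ∑ l ∈ Finset.range m, v l ω * G (l + 1) ω ∂mu + ∫⁻ ω, v m ω * G (m + 1) ω ∂mu := by
        simp_rw [Finset.sum_range_succ]
        rw [lintegral_add_right _ (hvG m)]
      rw [h4]
      gcongr
  have hE : ∫⁻ ω, X n ω ^ 2 * G n ω ∂mu ≤
      ENNReal.ofReal (1 / (q / 2)) * ∫⁻ ω, (U n ω + ENNReal.ofReal δ) ^ (q / 2) ∂mu := by
    refine (hmain n).trans ?_
    rw [← lintegral_const_mul _ hUp]
    apply lintegral_mono
    intro ω
    exact mart_tele hr0 hr1 hδ' (fun l => v l ω) n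
  refine mart_final hr0 hr1 (hUm n) hXG hδ ?_ hE
  refine Filter.Eventually.of_forall fun ω => ?_
  have hZ := hUt n ω
  have hZ0 := hU0 n ω
  simp only [hGdef]
  set Z := U n ω + ENNReal.ofReal δ with hZdef
  rw [ENNReal.mul_rpow_of_nonneg _ _ hr0.le, mul_assoc, ← ENNReal.rpow_mul, ← ENNReal.rpow_mul,
    ← ENNReal.rpow_add _ _ hZ0 hZ]
  have h5 : (q / 2 - 1) * (q / 2) + q / 2 * (1 - q / 2) = 0 := by ring
  rw [h5, ENNReal.rpow_zero, mul_one, ← ENNReal.rpow_natCast, ← ENNReal.rpow_mul]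
  have h6 : ((2 : ℕ) : ℝ) * (q / 2) = q := by
    push_cast
    ring
  rw [h6]

theorem f2 (r : ℝ) (hr0 : 0 < r) (hr1 : r < 1) : ∃ C : ℝ, 0 < C ∧
    ∀ (S : ℕ → Finset ℕ), Monotone S → ∀ (Y : ℕ → Om → ℝ≥0∞), (∀ l, Measurable (Y l)) →
      ∀ n : ℕ, ∫⁻ ω, (∑ k ∈ Finset.range n, Y k ω) ^ r ∂mu ≤
        ENNReal.ofReal C * ∫⁻ ω, (∑ k ∈ Finset.range n, El (S k) (Y k) ω) ^ r ∂mu := by
  refine ⟨(1 / r) ^ r, by positivity, ?_⟩
  intro S hS Y hYm n
  set e : ℕ → Om → ℝ≥0∞ := fun k => El (S k) (Y k) with hedef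
  have hem : ∀ k, Measurable (e k) := fun k => measurable_El (S k) (hYm k)
  set W : ℕ → Om → ℝ≥0∞ := fun m ω => ∑ k ∈ Finset.range m, e k ω with hWdef
  have hWm : ∀ m, Measurable (W m) := fun m => Finset.measurable_fun_sum _ fun l _ => hem l
  by_cases htop : ∫⁻ ω, W n ω ^ r ∂mu = ∞
  · have : ENNReal.ofReal ((1 / r) ^ r) * ∫⁻ ω, W n ω ^ r ∂mu = ∞ := by
      rw [htop, ENNReal.mul_top]
      simp only [ne_eq, ENNReal.ofReal_eq_zero, not_le]
      positivity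
    exact le_top.trans this.ge
  have hWt : ∀ᵐ ω ∂mu, W n ω ≠ ∞ := by
    have h1 := ae_lt_top ((hWm n).pow_const r) htop
    filter_upwards [h1] with ω hω h2
    rw [h2, ENNReal.top_rpow_of_pos hr0] at hω
    exact lt_irrefl _ hω
  apply mart_lim hr0 (by positivity)
  intro δ hδ
  have hδ' : ENNReal.ofReal δ ≠ 0 := by simpa using hδ
  set G : ℕ → Om → ℝ≥0∞ := fun m ω => (W m ω + ENNReal.ofReal δ) ^ (r - 1) with hGdef
  have hGm : ∀ m, Measurable (G m) := fun m => ((hWm m).add measurable_const).pow_const _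
  have hWd : ∀ m, DependsOn (W (m + 1)) (S m : Set ℕ) := by
    intro m ω ω' h
    simp only [hWdef]
    apply Finset.sum_congr rfl
    intro l hl
    apply El_dependsOn (S l) (Y l)
    intro i hi
    apply h
    have : S l ⊆ S m := hS (by have := Finset.mem_range.1 hl; omega)
    exact_mod_cast this (by exact_mod_cast hi)
  have hGd : ∀ m, DependsOn (G (m + 1)) (S m : Set ℕ) := by
    intro m ω ω' h
    simp only [hGdef]
    rw [hWd m h]
  have hYG : ∀ k, Measurable fun ω => Y k ω * G (k + 1) ω := fun k => (hYm k).mul (hGm (k + 1))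
  have heG : ∀ k, Measurable fun ω => e k ω * G (k + 1) ω := fun k => (hem k).mul (hGm (k + 1))
  have hWp : Measurable fun ω => (W n ω + ENNReal.ofReal δ) ^ r :=
    ((hWm n).add measurable_const).pow_const _
  have hsum : ∫⁻ ω, ∑ k ∈ Finset.range n, Y k ω * G (k + 1) ω ∂mu =
      ∫⁻ ω, ∑ k ∈ Finset.range n, e k ω * G (k + 1) ω ∂mu := by
    rw [lintegral_finsetSum _ fun k _ => hYG k, lintegral_finsetSum _ fun k _ => heG k]
    apply Finset.sum_congr rfl
    intro k _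
    have hm : Measurable fun ω => G (k + 1) ω * Y k ω := (hGm _).mul (hYm k)
    calc ∫⁻ ω, Y k ω * G (k + 1) ω ∂mu = ∫⁻ ω, G (k + 1) ω * Y k ω ∂mu := by
          simp_rw [mul_comm]
      _ = ∫⁻ ω, El (S k) (fun ω => G (k + 1) ω * Y k ω) ω ∂mu := (lintegral_El (S k) hm).symm
      _ = ∫⁻ ω, e k ω * G (k + 1) ω ∂mu := by
          apply lintegral_congr
          intro ω
          rw [El_mul (S k) (hYm k) (hGd k) ω, mul_comm]
  have hE : ∫⁻ ω, ∑ k ∈ Finset.range n, Y k ω * G (k + 1) ω ∂mu ≤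
      ENNReal.ofReal (1 / r) * ∫⁻ ω, (W n ω + ENNReal.ofReal δ) ^ r ∂mu := by
    rw [hsum, ← lintegral_const_mul _ hWp]
    apply lintegral_mono
    intro ω
    exact mart_tele hr0 hr1 hδ' (fun l => e l ω) n
  refine mart_final hr0 hr1 (hWm n)
    (Finset.measurable_fun_sum _ fun k _ => hYG k) hδ ?_ hE
  filter_upwards [hWt] with ω hω
  have hZ : W n ω + ENNReal.ofReal δ ≠ ∞ := ENNReal.add_ne_top.2 ⟨hω, ENNReal.ofReal_ne_top⟩
  have hZ0 : W n ω + ENNReal.ofReal δ ≠ 0 := fun h => hδ' (add_eq_zero.1 h).2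
  have h7 : ∀ k ∈ Finset.range n, (W n ω + ENNReal.ofReal δ) ^ (r - 1) ≤ G (k + 1) ω := by
    intro k hk
    simp only [hGdef]
    have h3 : W (k + 1) ω + ENNReal.ofReal δ ≤ W n ω + ENNReal.ofReal δ := by
      gcongr
      simp only [hWdef]
      apply Finset.sum_le_sum_of_subset
      intro j hj
      rw [Finset.mem_range] at hj hk ⊢
      omega
    rw [show r - 1 = -(1 - r) by ring, ENNReal.rpow_neg, ENNReal.rpow_neg]
    exact ENNReal.inv_le_inv.2 (ENNReal.rpow_le_rpow h3 (by linarith))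
  set Z := W n ω + ENNReal.ofReal δ with hZdef
  rw [← ENNReal.rpow_mul, mul_comm r (1 - r), ENNReal.rpow_mul,
    ← ENNReal.mul_rpow_of_nonneg _ _ hr0.le]
  apply ENNReal.rpow_le_rpow _ hr0.le
  rw [Finset.sum_mul]
  apply Finset.sum_le_sum
  intro k hk
  rw [mul_assoc]
  calc Y k ω = Y k ω * (Z ^ (r - 1) * Z ^ (1 - r)) := by
        rw [← ENNReal.rpow_add _ _ hZ0 hZ, show r - 1 + (1 - r) = 0 by ring, ENNReal.rpow_zero,
          mul_one]
    _ ≤ _ := by
        gcongr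
        exact h7 k hk

end Emb
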