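/-
CHUNK LS (the local large sieve inequality).

`ls_main`: phi measurable, bounded on [0,1) (replace it by phi * indicator of [0,1)), (c, xi) with mass <= D on every [n, n+1). Then
   sum_i c_i |hat phi(xi_i)|^2 <= 100 D int_0^1 |phi|^2.
Proof. With n = floor xi, th = xi - n: hat phi(xi) = sum_m (i th)^m/m! hat(t^m phi)(n), so
|hat phi(xi)|^2 <= 2 e sum_m 1/m! |hat (t^m phi)(n)|^2 =: H n; Parseval on [0, 2 pi] gives
sum_n |hat psi(n)|^2 <= 2 pi int |psi|^2. Total: 4 pi e^2 D int|phi|^2 <= 100 D int |phi|^2.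
-/
import Pool.Agent.Lib.Emb.Defs2

open MeasureTheory Complex
open scoped BigOperators ENNReal

namespace Emb

lemma ls_sq_tsum_le (a x : ℕ → ℝ≥0∞) :
    (∑' m, a m * x m) ^ 2 ≤ 2 * (∑' m, a m) * ∑' m, a m * x m ^ 2 := by
  have h1 : (∑' m, a m * x m) ^ 2 = ∑' m, ∑' n, (a m * x m) * (a n * x n) := by
    rw [sq, ← ENNReal.tsum_mul_right]
    refine tsum_congr fun m => ?_
    rw [← ENNReal.tsum_mul_left]
  rw [h1]
  calc ∑' m, ∑' n, (a m * x m) * (a n * x n)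
      ≤ ∑' m, ∑' n, (a m * x m ^ 2 * a n + a m * (a n * x n ^ 2)) := by
        refine ENNReal.tsum_le_tsum fun m => ENNReal.tsum_le_tsum fun n => ?_
        have h2 : x m * x n ≤ x m ^ 2 + x n ^ 2 := by
          rcases le_total (x m) (x n) with h | h
          · calc x m * x n ≤ x n * x n := by gcongr
              _ = x n ^ 2 := (sq _).symm
              _ ≤ _ := le_add_self
          · calc x m * x n ≤ x m * x m := by gcongr
              _ = x m ^ 2 := (sq _).symm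
              _ ≤ _ := le_self_add
        calc a m * x m * (a n * x n) = a m * a n * (x m * x n) := by ring
          _ ≤ a m * a n * (x m ^ 2 + x n ^ 2) := by gcongr
          _ = _ := by ring
    _ = 2 * (∑' m, a m) * ∑' m, a m * x m ^ 2 := by
        simp_rw [ENNReal.tsum_add, ENNReal.tsum_mul_left, ENNReal.tsum_mul_right]
        ring

/-- grouping the indices -/
lemma ls_group {ι κ : Type} (c V : ι → ℝ≥0∞) (f : ι → κ) (H : κ → ℝ≥0∞) (D : ℝ≥0∞)
    [DecidableEq κ] (hV : ∀ i, c i ≠ 0 → V i ≤ H (f i))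
    (hc : ∀ n, ∑' i, (if f i = n then c i else 0) ≤ D) :
    ∑' i, c i * V i ≤ D * ∑' n, H n := by
  calc ∑' i, c i * V i ≤ ∑' i, ∑' n, (if f i = n then c i else 0) * H n := by
        refine ENNReal.tsum_le_tsum fun i => ?_
        rw [tsum_eq_single (f i)]
        · rw [if_pos rfl]
          by_cases h : c i = 0
          · rw [h, zero_mul, zero_mul]
          · exact mul_le_mul_right (hV i h) _
        · intro n hn
          rw [if_neg (Ne.symm hn), zero_mul]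
    _ = ∑' n, ∑' i, (if f i = n then c i else 0) * H n := ENNReal.tsum_comm
    _ ≤ ∑' n, D * H n := by
        refine ENNReal.tsum_le_tsum fun n => ?_
        rw [ENNReal.tsum_mul_right]
        exact mul_le_mul_left (hc n) _
    _ = D * ∑' n, H n := ENNReal.tsum_mul_left

/-- Parseval on `[0, 2 π]`. -/
lemma ls_parseval (ψ : ℝ → ℂ) (hψ : Measurable ψ) (B : ℝ) (hB : ∀ t, ‖ψ t‖ ≤ B)
    (h0 : ∀ t, t ∉ Set.Ico (0:ℝ) 1 → ψ t = 0) :
    ∑' n : ℤ, ‖hat ψ n‖ₑ ^ 2 ≤ ENNReal.ofReal (2 * Real.pi) * ∫⁻ t in Set.Ico (0:ℝ) 1, ‖ψ t‖ₑ ^ 2 := by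
  have hpi : (0:ℝ) < 2 * Real.pi := by positivity
  have h1 : (1:ℝ) ≤ 2 * Real.pi := by
    have := Real.pi_gt_three
    linarith
  have hL2 : MemLp ψ 2 (volume.restrict (Set.Ioc (0:ℝ) (2 * Real.pi))) :=
    MemLp.of_bound hψ.aestronglyMeasurable B (Filter.Eventually.of_forall hB)
  have hs := hasSum_sq_fourierCoeffOn hpi hL2
  have hcoef : ∀ n : ℤ, hat ψ (-n : ℤ) = ((2 * Real.pi : ℝ) : ℂ) * fourierCoeffOn hpi ψ n := by
    intro n
    rw [fourierCoeffOn_eq_integral]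
    have h2 : ∫ x in (0:ℝ)..(2 * Real.pi),
        fourier (-n) (x : AddCircle (2 * Real.pi - 0)) • ψ x = hat ψ (-n : ℤ) := by
      have h3 : ∀ x : ℝ, fourier (-n) (x : AddCircle (2 * Real.pi - 0)) • ψ x
          = ψ x * Complex.exp (((x * (-n : ℤ) : ℝ) : ℂ) * I) := by
        intro x
        rw [fourier_coe_apply, smul_eq_mul, mul_comm]
        congr 2
        push_cast
        have : (Real.pi : ℂ) ≠ 0 := by exact_mod_cast Real.pi_ne_zero
        field_simp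
        ring
      simp_rw [h3]
      unfold hat
      have hint : ∀ a b : ℝ, IntervalIntegrable
          (fun x => ψ x * Complex.exp (((x * (-n : ℤ) : ℝ) : ℂ) * I)) volume a b := by
        intro a b
        rw [intervalIntegrable_iff]
        refine Measure.integrableOn_of_bounded (M := B) (by simp) ?_ ?_
        · exact (hψ.mul (by fun_prop)).aestronglyMeasurable
        · refine Filter.Eventually.of_forall fun x => ?_
          rw [norm_mul, Complex.norm_exp_ofReal_mul_I, mul_one]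
          exact hB x
      rw [← intervalIntegral.integral_add_adjacent_intervals (hint 0 1) (hint 1 (2 * Real.pi))]
      have h4 : ∫ x in (1:ℝ)..(2 * Real.pi),
          ψ x * Complex.exp (((x * (-n : ℤ) : ℝ) : ℂ) * I) = 0 := by
        refine intervalIntegral.integral_zero_ae (Filter.Eventually.of_forall fun x hx => ?_)
        rw [Set.uIoc_of_le h1] at hx
        rw [h0 x (fun h => absurd h.2 (not_lt.2 hx.1.le)), zero_mul]
      rw [h4, add_zero]
    rw [h2, sub_zero, Complex.real_smul, ← mul_assoc, ← Complex.ofReal_mul, mul_one_div_cancel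
      hpi.ne', Complex.ofReal_one, one_mul]
  have hre : ∑' n : ℤ, ‖hat ψ n‖ₑ ^ 2 = ∑' n : ℤ, ‖hat ψ (-n : ℤ)‖ₑ ^ 2 :=
    ((Equiv.neg ℤ).tsum_eq (fun n : ℤ => ‖hat ψ n‖ₑ ^ 2)).symm
  have hsum : ∑' n : ℤ, ‖hat ψ (-n : ℤ)‖ₑ ^ 2
      = ENNReal.ofReal ((2 * Real.pi) ^ 2 * ((2 * Real.pi)⁻¹ *
        ∫ x in (0:ℝ)..(2 * Real.pi), ‖ψ x‖ ^ 2)) := by
    have h2 : ∀ n : ℤ, ‖hat ψ (-n : ℤ)‖ₑ ^ 2
        = ENNReal.ofReal ((2 * Real.pi) ^ 2 * ‖fourierCoeffOn hpi ψ n‖ ^ 2) := by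
      intro n
      rw [hcoef, ← ofReal_norm_eq_enorm, ← ENNReal.ofReal_pow (norm_nonneg _), norm_mul, mul_pow,
        Complex.norm_real, Real.norm_eq_abs, abs_of_pos hpi]
    simp_rw [h2]
    rw [sub_zero, smul_eq_mul] at hs
    have hs2 := hs.mul_left ((2 * Real.pi) ^ 2)
    rw [← ENNReal.ofReal_tsum_of_nonneg (fun n => by positivity) hs2.summable, hs2.tsum_eq]
  rw [hre, hsum]
  have h5 : (2 * Real.pi) ^ 2 * ((2 * Real.pi)⁻¹ * ∫ x in (0:ℝ)..(2 * Real.pi), ‖ψ x‖ ^ 2)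
      = 2 * Real.pi * ∫ x in (0:ℝ)..(2 * Real.pi), ‖ψ x‖ ^ 2 := by
    field_simp
  rw [h5, ENNReal.ofReal_mul hpi.le]
  refine mul_le_mul_right ?_ _
  rw [intervalIntegral.integral_of_le hpi.le, ofReal_integral_eq_lintegral_ofReal ?_
    (Filter.Eventually.of_forall fun x => by positivity)]
  · have h6 : ∀ x, ENNReal.ofReal (‖ψ x‖ ^ 2) = (Set.Ico (0:ℝ) 1).indicator
        (fun t => ‖ψ t‖ₑ ^ 2) x := by
      intro x
      by_cases hx : x ∈ Set.Ico (0:ℝ) 1
      · rw [Set.indicator_of_mem hx, ENNReal.ofReal_pow (norm_nonneg _), ofReal_norm_eq_enorm]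
      · rw [Set.indicator_of_notMem hx, h0 x hx]
        simp
    simp_rw [h6]
    refine (setLIntegral_le_lintegral _ _).trans ?_
    rw [lintegral_indicator measurableSet_Ico]
  · have h7 := hL2.integrable_norm_pow (by norm_num)
    simpa using h7

/-- the constants -/
lemma ls_tsum_fact (R : ℝ) (hR : 0 ≤ R) :
    ∑' m : ℕ, ENNReal.ofReal (R ^ m / m.factorial) = ENNReal.ofReal (Real.exp R) := by
  have h := NormedSpace.expSeries_div_hasSum_exp R
  rw [← Real.exp_eq_exp_ℝ] at h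
  rw [← ENNReal.ofReal_tsum_of_nonneg (fun m => by positivity) h.summable, h.tsum_eq]

lemma ls_taylor (φ : ℝ → ℂ) (hφ : Measurable φ) (B : ℝ) (hB : ∀ t, ‖φ t‖ ≤ B)
    (h0 : ∀ t, t ∉ Set.Ico (0:ℝ) 1 → φ t = 0) (η θ : ℝ) (hθ : |θ| ≤ 1) :
    ‖hat φ (η + θ)‖ₑ ≤ ∑' m : ℕ, ENNReal.ofReal (1 ^ m / m.factorial) *
      ‖hat (fun t => (t : ℂ) ^ m * φ t) η‖ₑ := by
  have hBn : 0 ≤ B := (norm_nonneg _).trans (hB 0)
  have hexp : Summable fun m : ℕ => (1:ℝ) ^ m / m.factorial * B :=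
    (NormedSpace.expSeries_div_hasSum_exp (1:ℝ)).summable.mul_right B
  have hs : HasSum (fun m : ℕ => ∫ t in (0:ℝ)..1,
      ((I * θ) ^ m / m.factorial) * (((t : ℂ) ^ m * φ t) * Complex.exp (((t * η : ℝ) : ℂ) * I)))
      (∫ t in (0:ℝ)..1, φ t * Complex.exp (((t * (η + θ) : ℝ) : ℂ) * I)) := by
    refine intervalIntegral.hasSum_integral_of_dominated_convergence
      (bound := fun (m : ℕ) (_ : ℝ) => (1:ℝ) ^ m / m.factorial * B) ?_ ?_ ?_ ?_ ?_
    · intro m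
      refine Measurable.aestronglyMeasurable ?_
      fun_prop
    · intro m
      refine Filter.Eventually.of_forall fun t ht => ?_
      rw [Set.uIoc_of_le zero_le_one] at ht
      rw [norm_mul, norm_mul, norm_mul, Complex.norm_exp_ofReal_mul_I, mul_one, norm_div,
        norm_pow, norm_mul, Complex.norm_I, one_mul, Complex.norm_real, norm_pow,
        Complex.norm_real, Complex.norm_natCast]
      have h1 : ‖θ‖ ^ m ≤ 1 ^ m := pow_le_pow_left₀ (norm_nonneg _) hθ m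
      have h2 : ‖t‖ ^ m ≤ 1 := by
        refine pow_le_one₀ (norm_nonneg _) ?_
        rw [Real.norm_eq_abs, abs_of_pos ht.1]
        exact ht.2
      have h3 : ‖t‖ ^ m * ‖φ t‖ ≤ B := by
        calc ‖t‖ ^ m * ‖φ t‖ ≤ 1 * ‖φ t‖ := by gcongr
          _ ≤ B := by rw [one_mul]; exact hB t
      gcongr
    · exact Filter.Eventually.of_forall fun t _ => hexp
    · exact intervalIntegrable_const
    · refine Filter.Eventually.of_forall fun t _ => ?_
      have h1 := NormedSpace.expSeries_div_hasSum_exp (((t * θ : ℝ) : ℂ) * I)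
      rw [← Complex.exp_eq_exp_ℂ] at h1
      have h2 := h1.mul_left (φ t * Complex.exp (((t * η : ℝ) : ℂ) * I))
      have h3 : φ t * Complex.exp (((t * η : ℝ) : ℂ) * I) * Complex.exp (((t * θ : ℝ) : ℂ) * I)
          = φ t * Complex.exp (((t * (η + θ) : ℝ) : ℂ) * I) := by
        rw [mul_assoc, ← Complex.exp_add]
        congr 2
        push_cast
        ring
      rw [h3] at h2
      refine h2.congr_fun ?_
      intro m
      push_cast
      rw [mul_pow, mul_pow, mul_pow]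
      ring
  have h2 : hat φ (η + θ) = ∑' m : ℕ, ((I * θ) ^ m / m.factorial) *
      hat (fun t => (t : ℂ) ^ m * φ t) η := by
    unfold hat
    rw [← hs.tsum_eq]
    refine tsum_congr fun m => ?_
    rw [intervalIntegral.integral_const_mul]
  rw [h2]
  refine enorm_tsum_le_tsum_enorm.trans (ENNReal.tsum_le_tsum fun m => ?_)
  rw [enorm_mul]
  refine mul_le_mul_left ?_ _
  rw [← ofReal_norm_eq_enorm]
  refine ENNReal.ofReal_le_ofReal ?_
  rw [norm_div, norm_pow, norm_mul, Complex.norm_I, one_mul, Complex.norm_real,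
    Complex.norm_natCast]
  gcongr
  exact hθ

/-- the case of a function vanishing outside `[0,1)` -/
lemma ls_main0 (ι : Type) (c : ι → ℝ≥0∞) (ξ : ι → ℝ) (D : ℝ≥0∞) (h : UM c ξ D)
    (φ : ℝ → ℂ) (hφ : Measurable φ) (B : ℝ) (hB : ∀ t, ‖φ t‖ ≤ B)
    (h0 : ∀ t, t ∉ Set.Ico (0:ℝ) 1 → φ t = 0) :
    ∑' i, c i * ‖hat φ (ξ i)‖ₑ ^ 2 ≤ 100 * D * ∫⁻ t in Set.Ico (0:ℝ) 1, ‖φ t‖ₑ ^ 2 := by
  have hBn : 0 ≤ B := (norm_nonneg _).trans (hB 0)
  set a : ℕ → ℝ≥0∞ := fun m => ENNReal.ofReal (1 ^ m / m.factorial) with ha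
  set ψ : ℕ → ℝ → ℂ := fun m t => (t : ℂ) ^ m * φ t with hψ
  set J : ℝ≥0∞ := ∫⁻ t in Set.Ico (0:ℝ) 1, ‖φ t‖ₑ ^ 2 with hJ
  set S : ℝ≥0∞ := ENNReal.ofReal (Real.exp 1) with hS
  have hSa : ∑' m, a m = S := ls_tsum_fact 1 zero_le_one
  have hψ1 : ∀ m t, t ∉ Set.Ico (0:ℝ) 1 → ψ m t = 0 := fun m t ht => by
    simp only [hψ]
    rw [h0 t ht, mul_zero]
  have hψ2 : ∀ m t, ‖ψ m t‖ ≤ ‖φ t‖ := by
    intro m t
    by_cases ht : t ∈ Set.Ico (0:ℝ) 1
    · simp only [hψ]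
      rw [norm_mul, norm_pow, Complex.norm_real]
      have : ‖t‖ ^ m ≤ 1 := by
        refine pow_le_one₀ (norm_nonneg _) ?_
        rw [Real.norm_eq_abs, abs_of_nonneg ht.1]
        exact ht.2.le
      calc ‖t‖ ^ m * ‖φ t‖ ≤ 1 * ‖φ t‖ := by gcongr
        _ = ‖φ t‖ := one_mul _
    · rw [hψ1 m t ht, norm_zero]
      exact norm_nonneg _
  have hP : ∀ m, ∑' n : ℤ, ‖hat (ψ m) n‖ₑ ^ 2 ≤ ENNReal.ofReal (2 * Real.pi) * J := by
    intro m
    refine (ls_parseval (ψ m) (by fun_prop) B (fun t => (hψ2 m t).trans (hB t))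
      (hψ1 m)).trans ?_
    refine mul_le_mul_right ?_ _
    refine lintegral_mono fun t => ?_
    gcongr
    rw [← ofReal_norm_eq_enorm, ← ofReal_norm_eq_enorm]
    exact ENNReal.ofReal_le_ofReal (hψ2 m t)
  have h1 := ls_group c (fun i => ‖hat φ (ξ i)‖ₑ ^ 2) (fun i => ⌊ξ i⌋)
    (fun n : ℤ => 2 * S * ∑' m, a m * ‖hat (ψ m) n‖ₑ ^ 2) D (by
      intro i _
      have h2 := ls_taylor φ hφ B hB h0 ⌊ξ i⌋ (Int.fract (ξ i)) (by
        rw [abs_of_nonneg (Int.fract_nonneg _)]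
        exact (Int.fract_lt_one _).le)
      rw [Int.floor_add_fract] at h2
      calc ‖hat φ (ξ i)‖ₑ ^ 2 ≤ (∑' m, a m * ‖hat (ψ m) ⌊ξ i⌋‖ₑ) ^ 2 := by gcongr
        _ ≤ 2 * (∑' m, a m) * ∑' m, a m * ‖hat (ψ m) ⌊ξ i⌋‖ₑ ^ 2 := ls_sq_tsum_le _ _
        _ = _ := by rw [hSa]) h
  refine h1.trans ?_
  calc D * ∑' n : ℤ, 2 * S * ∑' m, a m * ‖hat (ψ m) n‖ₑ ^ 2
      = D * (2 * S * ∑' m, a m * ∑' n : ℤ, ‖hat (ψ m) n‖ₑ ^ 2) := by
        rw [ENNReal.tsum_mul_left, ENNReal.tsum_comm]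
        simp_rw [ENNReal.tsum_mul_left]
    _ ≤ D * (2 * S * ∑' m, a m * (ENNReal.ofReal (2 * Real.pi) * J)) := by
        gcongr with m
        exact hP m
    _ = (2 * S * S * ENNReal.ofReal (2 * Real.pi)) * D * J := by
        rw [ENNReal.tsum_mul_right, hSa]
        ring
    _ ≤ 100 * D * J := by
        gcongr
        have h3 : 2 * S * S * ENNReal.ofReal (2 * Real.pi)
            = ENNReal.ofReal (2 * Real.exp 1 * Real.exp 1 * (2 * Real.pi)) := by
          rw [ENNReal.ofReal_mul (by positivity), ENNReal.ofReal_mul (by positivity),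
            ENNReal.ofReal_mul (by positivity), hS]
          norm_num
        rw [h3]
        have h4 : 2 * Real.exp 1 * Real.exp 1 * (2 * Real.pi) ≤ 100 := by
          have h5 := Real.exp_one_lt_d9
          have h6 := Real.pi_lt_d2
          have h7 := Real.exp_pos 1
          calc 2 * Real.exp 1 * Real.exp 1 * (2 * Real.pi)
              ≤ 2 * 2.7182818286 * 2.7182818286 * (2 * 3.15) := by gcongr
            _ ≤ 100 := by norm_num
        calc ENNReal.ofReal (2 * Real.exp 1 * Real.exp 1 * (2 * Real.pi))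
            ≤ ENNReal.ofReal 100 := ENNReal.ofReal_le_ofReal h4
          _ = 100 := by simp

theorem ls_main (ι : Type) (c : ι → ℝ≥0∞) (ξ : ι → ℝ) (D : ℝ≥0∞) (h : UM c ξ D)
    (φ : ℝ → ℂ) (hφ : Measurable φ) (hb : ∃ B : ℝ, ∀ t ∈ Set.Ico (0:ℝ) 1, ‖φ t‖ ≤ B) :
    ∑' i, c i * ‖hat φ (ξ i)‖ₑ ^ 2 ≤ 100 * D * ∫⁻ t in Set.Ico (0:ℝ) 1, ‖φ t‖ₑ ^ 2 := by
  obtain ⟨B, hB⟩ := hb
  set φ' : ℝ → ℂ := (Set.Ico (0:ℝ) 1).indicator φ with hφ'
  have hB0 : 0 ≤ B := (norm_nonneg _).trans (hB 0 ⟨le_rfl, zero_lt_one⟩)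
  have h1 := ls_main0 ι c ξ D h φ' (hφ.indicator measurableSet_Ico) B (by
    intro t
    by_cases ht : t ∈ Set.Ico (0:ℝ) 1
    · rw [hφ', Set.indicator_of_mem ht]
      exact hB t ht
    · rw [hφ', Set.indicator_of_notMem ht, norm_zero]
      exact hB0) (fun t ht => by rw [hφ', Set.indicator_of_notMem ht])
  have h2 : ∀ x : ℝ, hat φ' x = hat φ x := by
    intro x
    unfold hat
    rw [intervalIntegral.integral_of_le zero_le_one, intervalIntegral.integral_of_le zero_le_one,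
      ← integral_Ico_eq_integral_Ioc, ← integral_Ico_eq_integral_Ioc]
    refine setIntegral_congr_fun measurableSet_Ico fun t ht => ?_
    simp only [hφ']
    rw [Set.indicator_of_mem ht]
  have h3 : ∫⁻ t in Set.Ico (0:ℝ) 1, ‖φ' t‖ₑ ^ 2 = ∫⁻ t in Set.Ico (0:ℝ) 1, ‖φ t‖ₑ ^ 2 := by
    refine setLIntegral_congr_fun measurableSet_Ico fun t ht => ?_
    simp only [hφ']
    rw [Set.indicator_of_mem ht]
  rw [h3] at h1
  simp_rw [h2] at h1
  exact h1

end Emb
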