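/-
CHUNK IBP (early part: integration by parts + large sieve).

phi real bounded measurable, H(t) = int_0^t phi, H(1) = 0, M : R -> C of class C^1, X >= 1.
If (c (1+(xi/X)^2), xi) has mass <= D on unit intervals then
  sum_i c_i |hat(phi M)(xi_i)|^2 <= C D int_0^1 X^2 H^2 (|M|^2 + X^-2 |M'|^2).
Proof. hat(phi M)(xi) = int_0^1 H'(t) M(t) e^(i t xi) = - int_0^1 H (M' + i xi M) e^(i t xi)
  = - hat(H M')(xi) - i xi hat(H M)(xi)   (H Lipschitz = integral of phi; H(0) = H(1) = 0;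
  integration by parts for absolutely continuous H: e.g. Fubini
  int_0^1 phi(t) G(t) dt = H(1)G(1) - int_0^1 H(s) G'(s) ds for G of class C^1, since
  G(t) = G(1) - int_t^1 G'(s) ds; Mathlib may have intervalIntegral integral_mul_deriv lemmas).
  So |.|^2 <= 2|hat(HM')|^2 + 2 xi^2 |hat(HM)|^2. ls_main with weights c (mass <= D) and
  c xi^2 (mass <= X^2 D) gives 200 D int |H M'|^2 + 200 X^2 D int |H M|^2.
-/
import Pool.Agent.Lib.Emb.LS

open MeasureTheory Complex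
open scoped BigOperators ENNReal

namespace Emb

/-- Integration by parts against a primitive, real valued. -/
lemma ibp_real {φ G G' : ℝ → ℝ} (hφ : IntervalIntegrable φ volume 0 1)
    (hG : ∀ t, HasDerivAt G (G' t) t) (hG' : Continuous G') :
    ∫ t in (0:ℝ)..1, φ t * G t =
      (∫ u in (0:ℝ)..1, φ u) * G 1 - ∫ t in (0:ℝ)..1, (∫ u in (0:ℝ)..t, φ u) * G' t := by
  have hac : AbsolutelyContinuousOnInterval (fun x => ∫ u in (0:ℝ)..x, φ u) 0 1 :=
    hφ.absolutelyContinuousOnInterval_intervalIntegral (c := 0) (by simp)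
  have hd : deriv G = G' := funext fun t => (hG t).deriv
  have hGc : ContDiff ℝ 1 G := by
    rw [contDiff_one_iff_deriv]
    refine ⟨fun t => (hG t).differentiableAt, ?_⟩
    rw [hd]; exact hG'
  have hGac : AbsolutelyContinuousOnInterval G 0 1 :=
    hGc.contDiffOn.absolutelyContinuousOnInterval
  have h := hac.integral_mul_deriv_eq_deriv_mul hGac
  have h2 : ∫ x in (0:ℝ)..1, deriv (fun x => ∫ u in (0:ℝ)..x, φ u) x * G x
      = ∫ x in (0:ℝ)..1, φ x * G x := by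
    apply intervalIntegral.integral_congr_ae
    filter_upwards [hφ.ae_hasDerivAt_integral] with x hx hx'
    have := hx (Set.uIoc_subset_uIcc hx') 0 (by simp)
    rw [this.deriv]
  rw [h2] at h
  rw [hd] at h
  simp only [intervalIntegral.integral_same, zero_mul, sub_zero] at h
  linarith

/-- Integration by parts against a primitive, complex valued. -/
lemma ibp_cplx {φ : ℝ → ℝ} {G G' : ℝ → ℂ} (hφ : IntervalIntegrable φ volume 0 1)
    (hG : ∀ t, HasDerivAt G (G' t) t) (hG' : Continuous G') :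
    ∫ t in (0:ℝ)..1, (φ t : ℂ) * G t =
      ((∫ u in (0:ℝ)..1, φ u : ℝ) : ℂ) * G 1 -
        ∫ t in (0:ℝ)..1, ((∫ u in (0:ℝ)..t, φ u : ℝ) : ℂ) * G' t := by
  have hGcont : Continuous G := by
    rw [continuous_iff_continuousAt]; exact fun t => (hG t).continuousAt
  have hre : ∀ t, HasDerivAt (fun t => (G t).re) ((G' t).re) t := fun t => by
    exact (Complex.reCLM.hasFDerivAt.comp_hasDerivAt t (hG t))
  have him : ∀ t, HasDerivAt (fun t => (G t).im) ((G' t).im) t := fun t => by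
    exact (Complex.imCLM.hasFDerivAt.comp_hasDerivAt t (hG t))
  have e1 := ibp_real hφ hre (Complex.continuous_re.comp hG')
  have e2 := ibp_real hφ him (Complex.continuous_im.comp hG')
  have hHc : ContinuousOn (fun x => ∫ u in (0:ℝ)..x, φ u) (Set.uIcc 0 1) :=
    (hφ.absolutelyContinuousOnInterval_intervalIntegral (c := 0) (by simp)).continuousOn
  have i1 : IntervalIntegrable (fun t => φ t * (G t).re) volume 0 1 :=
    hφ.mul_continuousOn (Complex.continuous_re.comp hGcont).continuousOn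
  have i2 : IntervalIntegrable (fun t => φ t * (G t).im) volume 0 1 :=
    hφ.mul_continuousOn (Complex.continuous_im.comp hGcont).continuousOn
  have i3 : IntervalIntegrable (fun t => (∫ u in (0:ℝ)..t, φ u) * (G' t).re) volume 0 1 :=
    (hHc.mul (Complex.continuous_re.comp hG').continuousOn).intervalIntegrable
  have i4 : IntervalIntegrable (fun t => (∫ u in (0:ℝ)..t, φ u) * (G' t).im) volume 0 1 :=
    (hHc.mul (Complex.continuous_im.comp hG').continuousOn).intervalIntegrable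
  have l1 : ∫ t in (0:ℝ)..1, (φ t : ℂ) * G t =
      ((∫ t in (0:ℝ)..1, φ t * (G t).re : ℝ) : ℂ) +
        ((∫ t in (0:ℝ)..1, φ t * (G t).im : ℝ) : ℂ) * I := by
    rw [← intervalIntegral.integral_ofReal, ← intervalIntegral.integral_ofReal,
      ← intervalIntegral.integral_mul_const, ← intervalIntegral.integral_add]
    · apply intervalIntegral.integral_congr
      intro t _
      simp only
      push_cast
      nth_rw 1 [← Complex.re_add_im (G t)]
      ring
    · exact ⟨i1.1.ofReal, i1.2.ofReal⟩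
    · exact IntervalIntegrable.mul_const ⟨i2.1.ofReal, i2.2.ofReal⟩ _
  have l2 : ∫ t in (0:ℝ)..1, ((∫ u in (0:ℝ)..t, φ u : ℝ) : ℂ) * G' t =
      ((∫ t in (0:ℝ)..1, (∫ u in (0:ℝ)..t, φ u) * (G' t).re : ℝ) : ℂ) +
        ((∫ t in (0:ℝ)..1, (∫ u in (0:ℝ)..t, φ u) * (G' t).im : ℝ) : ℂ) * I := by
    rw [← intervalIntegral.integral_ofReal, ← intervalIntegral.integral_ofReal,
      ← intervalIntegral.integral_mul_const, ← intervalIntegral.integral_add]
    · apply intervalIntegral.integral_congr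
      intro t _
      simp only
      rw [Complex.ofReal_mul, Complex.ofReal_mul]
      nth_rw 1 [← Complex.re_add_im (G' t)]
      ring
    · exact ⟨i3.1.ofReal, i3.2.ofReal⟩
    · exact IntervalIntegrable.mul_const ⟨i4.1.ofReal, i4.2.ofReal⟩ _
  have hG1 : G 1 = ((G 1).re : ℂ) + ((G 1).im : ℂ) * I := (Complex.re_add_im _).symm
  rw [l1, l2, e1, e2, Complex.ofReal_sub, Complex.ofReal_sub, Complex.ofReal_mul,
    Complex.ofReal_mul]
  linear_combination (-((∫ u in (0:ℝ)..1, φ u : ℝ) : ℂ)) * hG1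

/-- The formula for `hat (φ M)` when `φ` has mean zero. -/
lemma hat_ibp {φ : ℝ → ℝ} {M M' : ℝ → ℂ} (hφ : IntervalIntegrable φ volume 0 1)
    (hM : ∀ t, HasDerivAt M (M' t) t) (hM' : Continuous M') (h0 : (∫ u in (0:ℝ)..1, φ u) = 0)
    (x : ℝ) : hat (fun t => (φ t : ℂ) * M t) x =
      - hat (fun t => ((∫ u in (0:ℝ)..t, φ u : ℝ) : ℂ) * M' t) x
      - (x : ℂ) * I * hat (fun t => ((∫ u in (0:ℝ)..t, φ u : ℝ) : ℂ) * M t) x := by
  have hMc : Continuous M := by
    rw [continuous_iff_continuousAt]; exact fun t => (hM t).continuousAt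
  have hEc : Continuous (fun t : ℝ => Complex.exp (((t * x : ℝ) : ℂ) * I)) := by fun_prop
  have hE : ∀ t : ℝ, HasDerivAt (fun t : ℝ => Complex.exp (((t * x : ℝ) : ℂ) * I))
      (Complex.exp (((t * x : ℝ) : ℂ) * I) * ((x : ℂ) * I)) t := by
    intro t
    have h1 : HasDerivAt (fun t : ℝ => ((t * x : ℝ) : ℂ) * I) ((x : ℂ) * I) t := by
      have h2 : HasDerivAt (fun t : ℝ => ((t * x : ℝ) : ℂ)) ((x : ℝ) : ℂ) t := by
        have := ((hasDerivAt_id t).mul_const x).ofReal_comp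
        simpa using this
      exact h2.mul_const I
    exact h1.cexp
  have hG := ibp_cplx (φ := φ) (G := fun t => M t * Complex.exp (((t * x : ℝ) : ℂ) * I))
    (G' := fun t => M' t * Complex.exp (((t * x : ℝ) : ℂ) * I) +
      M t * (Complex.exp (((t * x : ℝ) : ℂ) * I) * ((x : ℂ) * I))) hφ
    (fun t => (hM t).mul (hE t)) ((hM'.mul hEc).add (hMc.mul (hEc.mul continuous_const)))
  rw [h0] at hG
  have hHc : ContinuousOn (fun t => ((∫ u in (0:ℝ)..t, φ u : ℝ) : ℂ)) (Set.uIcc 0 1) :=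
    Complex.continuous_ofReal.comp_continuousOn
      (hφ.absolutelyContinuousOnInterval_intervalIntegral (c := 0) (by simp)).continuousOn
  have i1 : IntervalIntegrable (fun t => ((∫ u in (0:ℝ)..t, φ u : ℝ) : ℂ) * M' t *
      Complex.exp (((t * x : ℝ) : ℂ) * I)) volume 0 1 :=
    ((hHc.mul hM'.continuousOn).mul hEc.continuousOn).intervalIntegrable
  have i2 : IntervalIntegrable (fun t => ((∫ u in (0:ℝ)..t, φ u : ℝ) : ℂ) * M t *
      Complex.exp (((t * x : ℝ) : ℂ) * I)) volume 0 1 :=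
    ((hHc.mul hMc.continuousOn).mul hEc.continuousOn).intervalIntegrable
  unfold hat
  have e1 : ∫ t in (0:ℝ)..1, (φ t : ℂ) * M t * Complex.exp (((t * x : ℝ) : ℂ) * I) =
      ∫ t in (0:ℝ)..1, (φ t : ℂ) * (M t * Complex.exp (((t * x : ℝ) : ℂ) * I)) := by
    apply intervalIntegral.integral_congr; intro t _; simp only; ring
  have e2 : ∫ t in (0:ℝ)..1, ((∫ u in (0:ℝ)..t, φ u : ℝ) : ℂ) *
        (M' t * Complex.exp (((t * x : ℝ) : ℂ) * I) +
          M t * (Complex.exp (((t * x : ℝ) : ℂ) * I) * ((x : ℂ) * I))) =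
      (∫ t in (0:ℝ)..1, ((∫ u in (0:ℝ)..t, φ u : ℝ) : ℂ) * M' t *
        Complex.exp (((t * x : ℝ) : ℂ) * I)) +
      (x : ℂ) * I * ∫ t in (0:ℝ)..1, ((∫ u in (0:ℝ)..t, φ u : ℝ) : ℂ) * M t *
        Complex.exp (((t * x : ℝ) : ℂ) * I) := by
    rw [← intervalIntegral.integral_const_mul, ← intervalIntegral.integral_add i1 (i2.const_mul _)]
    apply intervalIntegral.integral_congr; intro t _; simp only; ring
  rw [e1, hG, e2]
  simp only [Complex.ofReal_zero]
  ring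

theorem ibp_ls : ∃ C : ℝ, 0 < C ∧ ∀ (ι : Type) (c : ι → ℝ≥0∞) (ξ : ι → ℝ) (D : ℝ≥0∞) (X : ℝ),
    1 ≤ X → UM (fun i => c i * ENNReal.ofReal (1 + (ξ i / X) ^ 2)) ξ D →
    ∀ (φ : ℝ → ℝ) (M M' : ℝ → ℂ), Measurable φ → (∃ B : ℝ, ∀ t ∈ Set.Ico (0:ℝ) 1, |φ t| ≤ B) →
    (∀ t, HasDerivAt M (M' t) t) → Continuous M' → (∫ u in (0:ℝ)..1, φ u) = 0 →
    ∑' i, c i * ‖hat (fun t => (φ t : ℂ) * M t) (ξ i)‖ₑ ^ 2 ≤
      ENNReal.ofReal C * D * ∫⁻ t in Set.Ico (0:ℝ) 1,
        ENNReal.ofReal (X ^ 2 * (∫ u in (0:ℝ)..t, φ u) ^ 2 * (‖M t‖ ^ 2 + (X ^ 2)⁻¹ * ‖M' t‖ ^ 2)) := by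
  refine ⟨200, by norm_num, ?_⟩
  intro ι c ξ D X hX hUM φ M M' hφm hφb hM hM' h0
  obtain ⟨B, hB⟩ := hφb
  have hX0 : (0:ℝ) < X := by linarith
  -- integrability of `φ`
  have hφi : IntervalIntegrable φ volume 0 1 := by
    rw [intervalIntegrable_iff_integrableOn_Ico_of_le (by norm_num)]
    refine Measure.integrableOn_of_bounded (M := B) (by simp) hφm.aestronglyMeasurable ?_
    rw [ae_restrict_iff' measurableSet_Ico]
    exact Filter.Eventually.of_forall fun t ht => by simpa using hB t ht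
  have hMc : Continuous M := by
    rw [continuous_iff_continuousAt]; exact fun t => (hM t).continuousAt
  -- a globally continuous version of the primitive
  set ψ : ℝ → ℝ := Set.indicator (Set.Ioc 0 1) φ with hψ
  have hψi : Integrable ψ volume := by
    rw [hψ, integrable_indicator_iff measurableSet_Ioc]
    exact (intervalIntegrable_iff_integrableOn_Ioc_of_le (by norm_num)).1 hφi
  set K : ℝ → ℝ := fun t => ∫ u in (0:ℝ)..t, ψ u with hK
  have hKc : Continuous K := intervalIntegral.continuous_primitive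
    (fun a b => hψi.intervalIntegrable) 0
  have hKeq : ∀ t ∈ Set.Icc (0:ℝ) 1, K t = ∫ u in (0:ℝ)..t, φ u := by
    intro t ht
    apply intervalIntegral.integral_congr_ae
    refine Filter.Eventually.of_forall fun u hu => ?_
    rw [Set.uIoc_of_le ht.1] at hu
    exact Set.indicator_of_mem (show u ∈ Set.Ioc (0:ℝ) 1 from ⟨hu.1, hu.2.trans ht.2⟩) _
  have hhat : ∀ (N : ℝ → ℂ) (x : ℝ), hat (fun t => ((∫ u in (0:ℝ)..t, φ u : ℝ) : ℂ) * N t) x =
      hat (fun t => (K t : ℂ) * N t) x := by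
    intro N x
    unfold hat
    apply intervalIntegral.integral_congr
    intro t ht
    rw [Set.uIcc_of_le (by norm_num)] at ht
    simp only [hKeq t ht]
  -- pointwise estimate
  have hpt : ∀ i, c i * ‖hat (fun t => (φ t : ℂ) * M t) (ξ i)‖ₑ ^ 2 ≤
      2 * (c i * ‖hat (fun t => (K t : ℂ) * M' t) (ξ i)‖ₑ ^ 2) +
      2 * ((c i * ENNReal.ofReal (ξ i ^ 2)) * ‖hat (fun t => (K t : ℂ) * M t) (ξ i)‖ₑ ^ 2) := by
    intro i
    have e := hat_ibp hφi hM hM' h0 (ξ i)
    rw [hhat M' (ξ i), hhat M (ξ i)] at e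
    rw [e]
    generalize hat (fun t => (K t : ℂ) * M' t) (ξ i) = u
    generalize hat (fun t => (K t : ℂ) * M t) (ξ i) = v
    have h1 : ‖-u - (ξ i : ℂ) * I * v‖ ^ 2 ≤ 2 * ‖u‖ ^ 2 + 2 * (ξ i ^ 2 * ‖v‖ ^ 2) := by
      have h2 : ‖-u - (ξ i : ℂ) * I * v‖ ≤ ‖u‖ + |ξ i| * ‖v‖ := by
        refine (norm_sub_le _ _).trans ?_
        rw [norm_neg, norm_mul, norm_mul, Complex.norm_I, mul_one, Complex.norm_real,
          Real.norm_eq_abs]
      have h3 : ‖-u - (ξ i : ℂ) * I * v‖ ^ 2 ≤ (‖u‖ + |ξ i| * ‖v‖) ^ 2 := by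
        gcongr
      have h4 : (|ξ i| * ‖v‖) ^ 2 = ξ i ^ 2 * ‖v‖ ^ 2 := by rw [mul_pow, sq_abs]
      nlinarith [sq_nonneg (‖u‖ - |ξ i| * ‖v‖)]
    have h5 : ∀ z : ℂ, ‖z‖ₑ ^ 2 = ENNReal.ofReal (‖z‖ ^ 2) := by
      intro z
      rw [← ofReal_norm, ENNReal.ofReal_pow (norm_nonneg _)]
    rw [h5, h5, h5]
    calc c i * ENNReal.ofReal (‖-u - (ξ i : ℂ) * I * v‖ ^ 2)
        ≤ c i * ENNReal.ofReal (2 * ‖u‖ ^ 2 + 2 * (ξ i ^ 2 * ‖v‖ ^ 2)) := by
          gcongr
      _ = c i * (2 * ENNReal.ofReal (‖u‖ ^ 2) +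
            2 * (ENNReal.ofReal (ξ i ^ 2) * ENNReal.ofReal (‖v‖ ^ 2))) := by
          rw [ENNReal.ofReal_add (by positivity) (by positivity),
            ENNReal.ofReal_mul (by norm_num), ENNReal.ofReal_mul (by norm_num),
            ENNReal.ofReal_mul (by positivity)]
          norm_num
      _ = _ := by ring
  -- the two mass conditions
  have hU1 : UM c ξ D := by
    intro n
    refine le_trans (ENNReal.tsum_le_tsum fun i => ?_) (hUM n)
    split_ifs
    · calc c i = c i * 1 := (mul_one _).symm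
        _ ≤ c i * ENNReal.ofReal (1 + (ξ i / X) ^ 2) := by
          gcongr
          rw [ENNReal.one_le_ofReal]
          nlinarith [sq_nonneg (ξ i / X)]
    · exact le_refl _
  have hU2 : UM (fun i => c i * ENNReal.ofReal (ξ i ^ 2)) ξ (ENNReal.ofReal (X ^ 2) * D) := by
    intro n
    calc ∑' i, (if ⌊ξ i⌋ = n then c i * ENNReal.ofReal (ξ i ^ 2) else 0)
        ≤ ∑' i, ENNReal.ofReal (X ^ 2) *
            (if ⌊ξ i⌋ = n then c i * ENNReal.ofReal (1 + (ξ i / X) ^ 2) else 0) := by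
          refine ENNReal.tsum_le_tsum fun i => ?_
          split_ifs
          · have h1 : ENNReal.ofReal (ξ i ^ 2) ≤
                ENNReal.ofReal (X ^ 2) * ENNReal.ofReal (1 + (ξ i / X) ^ 2) := by
              rw [← ENNReal.ofReal_mul (by positivity)]
              apply ENNReal.ofReal_le_ofReal
              have : X ^ 2 * (1 + (ξ i / X) ^ 2) = X ^ 2 + ξ i ^ 2 := by
                field_simp
              rw [this]
              nlinarith [sq_nonneg X]
            calc c i * ENNReal.ofReal (ξ i ^ 2)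
                ≤ c i * (ENNReal.ofReal (X ^ 2) * ENNReal.ofReal (1 + (ξ i / X) ^ 2)) := by
                  gcongr
              _ = _ := by ring
          · simp
      _ = ENNReal.ofReal (X ^ 2) *
            ∑' i, (if ⌊ξ i⌋ = n then c i * ENNReal.ofReal (1 + (ξ i / X) ^ 2) else 0) :=
          ENNReal.tsum_mul_left
      _ ≤ ENNReal.ofReal (X ^ 2) * D := by
          gcongr
          exact hUM n
  have hbd : ∀ N : ℝ → ℂ, Continuous N →
      ∃ B : ℝ, ∀ t ∈ Set.Ico (0:ℝ) 1, ‖(K t : ℂ) * N t‖ ≤ B := by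
    intro N hN
    have hc : ContinuousOn (fun t => (K t : ℂ) * N t) (Set.Icc (0:ℝ) 1) :=
      ((Complex.continuous_ofReal.comp hKc).mul hN).continuousOn
    obtain ⟨B', hB'⟩ := isCompact_Icc.exists_bound_of_continuousOn hc
    exact ⟨B', fun t ht => hB' t ⟨ht.1, ht.2.le⟩⟩
  have l1 := ls_main ι c ξ D hU1 (fun t => (K t : ℂ) * M' t)
    ((Complex.continuous_ofReal.comp hKc).mul hM').measurable (hbd M' hM')
  have l2 := ls_main ι (fun i => c i * ENNReal.ofReal (ξ i ^ 2)) ξ _ hU2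
    (fun t => (K t : ℂ) * M t)
    ((Complex.continuous_ofReal.comp hKc).mul hMc).measurable (hbd M hMc)
  have hm1 : Measurable (fun t => ‖(K t : ℂ) * M' t‖ₑ ^ 2) :=
    ((Complex.continuous_ofReal.comp hKc).mul hM').measurable.enorm.pow_const 2
  calc ∑' i, c i * ‖hat (fun t => (φ t : ℂ) * M t) (ξ i)‖ₑ ^ 2
      ≤ ∑' i, (2 * (c i * ‖hat (fun t => (K t : ℂ) * M' t) (ξ i)‖ₑ ^ 2) +
          2 * ((c i * ENNReal.ofReal (ξ i ^ 2)) *
            ‖hat (fun t => (K t : ℂ) * M t) (ξ i)‖ₑ ^ 2)) := ENNReal.tsum_le_tsum hpt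
    _ = 2 * ∑' i, (c i * ‖hat (fun t => (K t : ℂ) * M' t) (ξ i)‖ₑ ^ 2) +
          2 * ∑' i, ((c i * ENNReal.ofReal (ξ i ^ 2)) *
            ‖hat (fun t => (K t : ℂ) * M t) (ξ i)‖ₑ ^ 2) := by
        rw [ENNReal.tsum_add, ENNReal.tsum_mul_left, ENNReal.tsum_mul_left]
    _ ≤ 2 * (100 * D * ∫⁻ t in Set.Ico (0:ℝ) 1, ‖(K t : ℂ) * M' t‖ₑ ^ 2) +
          2 * (100 * (ENNReal.ofReal (X ^ 2) * D) *
            ∫⁻ t in Set.Ico (0:ℝ) 1, ‖(K t : ℂ) * M t‖ₑ ^ 2) := by
        gcongr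
    _ = 200 * D * ((∫⁻ t in Set.Ico (0:ℝ) 1, ‖(K t : ℂ) * M' t‖ₑ ^ 2) +
          ENNReal.ofReal (X ^ 2) * ∫⁻ t in Set.Ico (0:ℝ) 1, ‖(K t : ℂ) * M t‖ₑ ^ 2) := by
        ring
    _ = 200 * D * ∫⁻ t in Set.Ico (0:ℝ) 1, (‖(K t : ℂ) * M' t‖ₑ ^ 2 +
          ENNReal.ofReal (X ^ 2) * ‖(K t : ℂ) * M t‖ₑ ^ 2) := by
        rw [lintegral_add_left hm1, lintegral_const_mul' _ _ ENNReal.ofReal_ne_top]
    _ = 200 * D * ∫⁻ t in Set.Ico (0:ℝ) 1,
          ENNReal.ofReal (X ^ 2 * (∫ u in (0:ℝ)..t, φ u) ^ 2 *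
            (‖M t‖ ^ 2 + (X ^ 2)⁻¹ * ‖M' t‖ ^ 2)) := by
        rw [setLIntegral_congr_fun measurableSet_Ico]
        intro t ht
        have h5 : ∀ z : ℂ, ‖z‖ₑ ^ 2 = ENNReal.ofReal (‖z‖ ^ 2) := by
          intro z
          rw [← ofReal_norm, ENNReal.ofReal_pow (norm_nonneg _)]
        simp only
        rw [h5, h5, ← ENNReal.ofReal_mul (by positivity),
          ← ENNReal.ofReal_add (by positivity) (by positivity), ← hKeq t ⟨ht.1, ht.2.le⟩]
        congr 1
        rw [norm_mul, norm_mul, Complex.norm_real, Real.norm_eq_abs, mul_pow, mul_pow, sq_abs]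
        field_simp
        ring
    _ = _ := by norm_num

end Emb
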