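/-
CHUNK LSP (large sieve for point masses on the grid 2^{-k} Z, high frequencies).

`ls_points`: k < l, f(xi) = sum_(j=0)^(2^k) b_j exp(i xi j/2^k); all xi_i (with c_i != 0) are
>= 2^(l-1); mass <= D on unit intervals. Then
   sum_i c_i xi_i^-2 |f(xi_i)|^2 <= C D 2^-l sum_j |b_j|^2.
Proof. K = 2^k, P = K + 1, h = 2 pi K/P < 7. Write xi = r h + th, r = s P + j, 0 <= th < h: since
e^(i r h j'/K) = e^(2 pi i j j'/P), f(xi) = sum_m (i th)^m/m! F_m(j) with
F_m(j) = sum_j' b_j' (j'/K)^m e^(2 pi i j j'/P). By Parseval on Z/P, sum_j |F_m(j)|^2 <= P sum |b|^2.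
The mass of a cell (s, j) is at most 8 D and xi >= (N0 + K s)/2 there, N0 = 2^(l-1);
sum_s 4/(N0 + K s)^2 <= 8/(K N0).
-/
import Pool.Agent.Lib.Emb.LS

open MeasureTheory Complex
open scoped BigOperators ENNReal

namespace Emb

lemma lsp_orth (P : ℕ) (a b : ℕ) (ha : a < P) (hb : b < P) :
    ∑ j ∈ Finset.range P, Complex.exp (((2 * Real.pi * (j * a) / P : ℝ) : ℂ) * I) *
      (starRingEnd ℂ) (Complex.exp (((2 * Real.pi * (j * b) / P : ℝ) : ℂ) * I))
      = if a = b then (P : ℂ) else 0 := by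
  have hP : (P : ℝ) ≠ 0 := by
    have : 0 < P := by omega
    positivity
  have hPC : (P : ℂ) ≠ 0 := by exact_mod_cast hP
  have h1 : ∀ j : ℕ, Complex.exp (((2 * Real.pi * (j * a) / P : ℝ) : ℂ) * I) *
      (starRingEnd ℂ) (Complex.exp (((2 * Real.pi * (j * b) / P : ℝ) : ℂ) * I))
      = Complex.exp (((2 * Real.pi * ((a : ℝ) - b) / P : ℝ) : ℂ) * I) ^ j := by
    intro j
    rw [← Complex.exp_conj, map_mul, Complex.conj_ofReal, Complex.conj_I, ← Complex.exp_add,
      ← Complex.exp_nat_mul]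
    congr 1
    push_cast
    field_simp
    ring
  simp_rw [h1]
  split_ifs with hab
  · subst hab
    simp
  · set x : ℂ := Complex.exp (((2 * Real.pi * ((a : ℝ) - b) / P : ℝ) : ℂ) * I) with hx
    have hx1 : x ≠ 1 := by
      intro h
      rw [hx, Complex.exp_eq_one_iff] at h
      obtain ⟨n, hn⟩ := h
      have hpi : (Real.pi : ℂ) ≠ 0 := by exact_mod_cast Real.pi_ne_zero
      have h2 : ((a : ℂ) - b) = n * P := by
        push_cast at hn
        have h3 : (2 * (Real.pi : ℂ) * I) * (((a : ℂ) - b) / P) = (2 * (Real.pi : ℂ) * I) * n := by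
          rw [mul_comm _ (n : ℂ), ← hn]
          ring
        have h4 : (2 * (Real.pi : ℂ) * I) ≠ 0 := by simp [hpi]
        have h5 := mul_left_cancel₀ h4 h3
        rw [div_eq_iff hPC] at h5
        exact h5
      have h3 : ((a : ℤ) - b) = n * P := by exact_mod_cast h2
      have h4 : n = 0 := by
        have h5 : |(a : ℤ) - b| < P := by
          rw [abs_lt]
          omega
        rw [h3, abs_mul, Nat.abs_cast] at h5
        by_contra hn0
        have h6 : 1 ≤ |n| := Int.one_le_abs hn0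
        nlinarith
      rw [h4, zero_mul] at h3
      omega
    have hxP : x ^ P = 1 := by
      rw [hx, ← Complex.exp_nat_mul, Complex.exp_eq_one_iff]
      refine ⟨(a : ℤ) - b, ?_⟩
      push_cast
      field_simp
    rw [geom_sum_eq hx1, hxP, sub_self, zero_div]

/-- Parseval on `Z/P`. -/
lemma lsp_parseval (P : ℕ) (β : ℕ → ℂ) :
    ∑ j ∈ Finset.range P, ‖∑ a ∈ Finset.range P,
      β a * Complex.exp (((2 * Real.pi * (j * a) / P : ℝ) : ℂ) * I)‖ ^ 2
      = P * ∑ a ∈ Finset.range P, ‖β a‖ ^ 2 := by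
  have h : ((∑ j ∈ Finset.range P, ‖∑ a ∈ Finset.range P,
      β a * Complex.exp (((2 * Real.pi * (j * a) / P : ℝ) : ℂ) * I)‖ ^ 2 : ℝ) : ℂ)
      = ((P * ∑ a ∈ Finset.range P, ‖β a‖ ^ 2 : ℝ) : ℂ) := by
    push_cast
    simp_rw [← Complex.mul_conj', map_sum, map_mul, Finset.sum_mul_sum]
    rw [Finset.sum_comm]
    calc ∑ a ∈ Finset.range P, ∑ j ∈ Finset.range P, ∑ b ∈ Finset.range P,
          β a * Complex.exp (2 * Real.pi * (j * a) / P * I) *
            ((starRingEnd ℂ) (β b) *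
              (starRingEnd ℂ) (Complex.exp (2 * Real.pi * (j * b) / P * I)))
        = ∑ a ∈ Finset.range P, ∑ b ∈ Finset.range P, β a * (starRingEnd ℂ) (β b) *
            (if a = b then (P : ℂ) else 0) := by
          refine Finset.sum_congr rfl fun a ha => ?_
          rw [Finset.sum_comm]
          refine Finset.sum_congr rfl fun b hb => ?_
          rw [← lsp_orth P a b (Finset.mem_range.1 ha) (Finset.mem_range.1 hb), Finset.mul_sum]
          refine Finset.sum_congr rfl fun j _ => ?_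
          push_cast
          ring
      _ = P * ∑ a ∈ Finset.range P, β a * (starRingEnd ℂ) (β a) := by
          rw [Finset.mul_sum]
          refine Finset.sum_congr rfl fun a ha => ?_
          rw [Finset.sum_eq_single a]
          · rw [if_pos rfl]
            ring
          · intro b _ hb
            rw [if_neg (Ne.symm hb), mul_zero]
          · intro h
            exact absurd ha h
  exact_mod_cast h

/-- the sum of the weights -/
lemma lsp_weights (K N : ℝ) (hK : 0 < K) (hN : K ≤ N) :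
    ∑' s : ℕ, ENNReal.ofReal (4 / (N + K * s) ^ 2) ≤ ENNReal.ofReal (8 / (K * N)) := by
  have hN0 : 0 < N := hK.trans_le hN
  have hstep : ∀ n : ℕ, ∑ s ∈ Finset.range n, 4 / (N + K * s) ^ 2
      ≤ 8 / K * (1 / N - 1 / (N + K * n)) := by
    intro n
    induction n with
    | zero => simp
    | succ n ih =>
      rw [Finset.sum_range_succ]
      have hx : 0 < N + K * n := by positivity
      have hx' : 0 < N + K * (n + 1 : ℕ) := by positivity
      have h1 : 4 / (N + K * n) ^ 2 ≤ 8 / K * (1 / (N + K * n) - 1 / (N + K * (n + 1 : ℕ))) := by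
        have h2 : 8 / K * (1 / (N + K * n) - 1 / (N + K * (n + 1 : ℕ)))
            = 8 / ((N + K * n) * (N + K * (n + 1 : ℕ))) := by
          field_simp
          push_cast
          ring
        rw [h2, div_le_div_iff₀ (by positivity) (by positivity)]
        have h3 : N + K * (n + 1 : ℕ) ≤ 2 * (N + K * n) := by
          push_cast
          nlinarith [mul_nonneg hK.le (Nat.cast_nonneg (α := ℝ) n)]
        calc 4 * ((N + K * n) * (N + K * (n + 1 : ℕ)))
            ≤ 4 * ((N + K * n) * (2 * (N + K * n))) := by gcongr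
          _ = 8 * (N + K * n) ^ 2 := by ring
      calc _ ≤ 8 / K * (1 / N - 1 / (N + K * n))
            + 8 / K * (1 / (N + K * n) - 1 / (N + K * (n + 1 : ℕ))) := add_le_add ih h1
        _ = _ := by ring
  refine ENNReal.tsum_le_of_sum_range_le fun n => ?_
  rw [← ENNReal.ofReal_sum_of_nonneg (fun s _ => by positivity)]
  refine ENNReal.ofReal_le_ofReal ((hstep n).trans ?_)
  have h3 : 0 ≤ 1 / (N + K * n) := by positivity
  calc 8 / K * (1 / N - 1 / (N + K * n)) ≤ 8 / K * (1 / N) := by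
        gcongr
        linarith
    _ = 8 / (K * N) := by field_simp

/-- Taylor expansion at the points of the grid -/
lemma lsp_taylor (K : ℕ) (hK : 0 < K) (b : ℕ → ℂ) (r s j : ℕ) (hr : r = s * (K + 1) + j)
    (θ : ℝ) (hθ : |θ| ≤ 7) :
    ‖∑ a ∈ Finset.range (K + 1), b a * Complex.exp
        ((((r * (2 * Real.pi * K / (K + 1)) + θ) * (a / K) : ℝ) : ℂ) * I)‖ₑ
      ≤ ∑' m : ℕ, ENNReal.ofReal (7 ^ m / m.factorial) *
        ‖∑ a ∈ Finset.range (K + 1), (b a * ((a / K : ℝ) : ℂ) ^ m) *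
          Complex.exp (((2 * Real.pi * (j * a) / (K + 1 : ℕ) : ℝ) : ℂ) * I)‖ₑ := by
  have hKR : (0:ℝ) < K := by exact_mod_cast hK
  have hterm : ∀ a : ℕ, HasSum (fun m : ℕ => ((I * θ) ^ m / m.factorial) *
      ((b a * ((a / K : ℝ) : ℂ) ^ m) *
          Complex.exp (((2 * Real.pi * (j * a) / (K + 1 : ℕ) : ℝ) : ℂ) * I)))
      (b a * Complex.exp ((((r * (2 * Real.pi * K / (K + 1)) + θ) * (a / K) : ℝ) : ℂ) * I)) := by
    intro a
    have h1 := NormedSpace.expSeries_div_hasSum_exp (((θ * (a / K) : ℝ) : ℂ) * I)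
    rw [← Complex.exp_eq_exp_ℂ] at h1
    have h2 := h1.mul_left (b a *
      Complex.exp (((2 * Real.pi * (j * a) / (K + 1 : ℕ) : ℝ) : ℂ) * I))
    have h3 : b a * Complex.exp (((2 * Real.pi * (j * a) / (K + 1 : ℕ) : ℝ) : ℂ) * I) *
        Complex.exp (((θ * (a / K) : ℝ) : ℂ) * I)
        = b a * Complex.exp ((((r * (2 * Real.pi * K / (K + 1)) + θ) * (a / K) : ℝ) : ℂ) * I) := by
      rw [mul_assoc]
      congr 1
      rw [← Complex.exp_add]
      have h4 : (((r * (2 * Real.pi * K / (K + 1)) + θ) * (a / K) : ℝ) : ℂ) * I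
          = ((((2 * Real.pi * (j * a) / (K + 1 : ℕ) : ℝ) : ℂ) * I +
            ((θ * (a / K) : ℝ) : ℂ) * I)) + ((s * a : ℕ) : ℂ) * (2 * Real.pi * I) := by
        rw [hr]
        have hK' : (K : ℂ) ≠ 0 := by exact_mod_cast hKR.ne'
        have hK1 : ((K : ℂ) + 1) ≠ 0 := by exact_mod_cast (by positivity : (K : ℝ) + 1 ≠ 0)
        push_cast
        field_simp
        ring
      rw [h4, Complex.exp_add _ (((s * a : ℕ) : ℂ) * (2 * Real.pi * I)),
        Complex.exp_nat_mul_two_pi_mul_I, mul_one]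
    rw [h3] at h2
    refine h2.congr_fun ?_
    intro m
    push_cast
    rw [mul_pow, mul_pow, mul_pow]
    ring
  have hs := hasSum_sum (s := Finset.range (K + 1)) (fun a _ => hterm a)
  rw [← hs.tsum_eq]
  refine enorm_tsum_le_tsum_enorm.trans (ENNReal.tsum_le_tsum fun m => ?_)
  rw [← Finset.mul_sum, enorm_mul]
  refine mul_le_mul_left ?_ _
  rw [← ofReal_norm]
  refine ENNReal.ofReal_le_ofReal ?_
  rw [norm_div, norm_pow, norm_mul, Complex.norm_I, one_mul, Complex.norm_real,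
    Complex.norm_natCast]
  gcongr
  exact hθ

theorem ls_points : ∃ C : ℝ, 0 < C ∧ ∀ (ι : Type) (c : ι → ℝ≥0∞) (ξ : ι → ℝ) (D : ℝ≥0∞),
    UM c ξ D → ∀ k l : ℕ, k < l → (∀ i, c i ≠ 0 → (2:ℝ) ^ (l - 1) ≤ ξ i) → ∀ b : ℕ → ℂ,
    ∑' i, c i * ENNReal.ofReal (1 / ξ i ^ 2) *
        ‖∑ j ∈ Finset.range (2 ^ k + 1), b j * Complex.exp (((ξ i * (j / 2 ^ k) : ℝ) : ℂ) * I)‖ₑ ^ 2
      ≤ ENNReal.ofReal (C / 2 ^ l) * D * ∑ j ∈ Finset.range (2 ^ k + 1), ‖b j‖ₑ ^ 2 := by
  refine ⟨512 * Real.exp 7 * Real.exp 7, by positivity, ?_⟩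
  intro ι c ξ D hUM k l hkl hξ b
  classical
  obtain ⟨K, hKdef⟩ : ∃ K : ℕ, K = 2 ^ k := ⟨_, rfl⟩
  have hK : 0 < K := by rw [hKdef]; positivity
  have hKR : (0:ℝ) < K := by exact_mod_cast hK
  have hKk : ((2:ℝ) ^ k) = K := by rw [hKdef]; push_cast; rfl
  rw [← hKdef]
  simp_rw [hKk]
  set N : ℝ := (2:ℝ) ^ (l - 1) with hN
  have hKN : (K : ℝ) ≤ N := by
    rw [hN, ← hKk]
    exact pow_le_pow_right₀ (by norm_num) (by omega)
  have hN0 : 0 < N := hKR.trans_le hKN
  set h : ℝ := 2 * Real.pi * K / (K + 1) with hh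
  have hpi : (0:ℝ) < Real.pi := Real.pi_pos
  have hh0 : 0 < h := by rw [hh]; positivity
  have hh7 : h ≤ 7 := by
    have h6 := Real.pi_lt_d2
    rw [hh, div_le_iff₀ (by positivity)]
    nlinarith
  have hPh : (K + 1 : ℝ) * h = 2 * Real.pi * K := by
    rw [hh]
    field_simp
  set S : ℝ≥0∞ := ENNReal.ofReal (Real.exp 7) with hS
  set a : ℕ → ℝ≥0∞ := fun m => ENNReal.ofReal (7 ^ m / m.factorial) with ha
  have hSa : ∑' m, a m = S := ls_tsum_fact 7 (by norm_num)
  let Fm : ℕ → ℕ → ℂ := fun m j => ∑ x ∈ Finset.range (K + 1), (b x * ((x / K : ℝ) : ℂ) ^ m) *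
          Complex.exp (((2 * Real.pi * (j * x) / (K + 1 : ℕ) : ℝ) : ℂ) * I)
  set B : ℝ≥0∞ := ∑ j ∈ Finset.range (K + 1), ‖b j‖ₑ ^ 2 with hB
  -- Parseval
  have hpars : ∀ m, ∑ j : Fin (K + 1), ‖Fm m j‖ₑ ^ 2 ≤ ENNReal.ofReal (K + 1) * B := by
    intro m
    have h1 := lsp_parseval (K + 1) (fun x => b x * ((x / K : ℝ) : ℂ) ^ m)
    rw [Fin.sum_univ_eq_sum_range (fun j => ‖Fm m j‖ₑ ^ 2) (K + 1)]
    have h2 : ∑ j ∈ Finset.range (K + 1), ‖Fm m j‖ₑ ^ 2
        = ENNReal.ofReal (∑ j ∈ Finset.range (K + 1), ‖Fm m j‖ ^ 2) := by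
      rw [ENNReal.ofReal_sum_of_nonneg (fun _ _ => by positivity)]
      refine Finset.sum_congr rfl fun j _ => ?_
      rw [ENNReal.ofReal_pow (norm_nonneg _), ofReal_norm]
    have h3 : B = ENNReal.ofReal (∑ j ∈ Finset.range (K + 1), ‖b j‖ ^ 2) := by
      rw [hB, ENNReal.ofReal_sum_of_nonneg (fun _ _ => by positivity)]
      refine Finset.sum_congr rfl fun j _ => ?_
      rw [ENNReal.ofReal_pow (norm_nonneg _), ofReal_norm]
    rw [h2, h3, ← ENNReal.ofReal_mul (by positivity)]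
    refine ENNReal.ofReal_le_ofReal ?_
    have h4 : ∑ j ∈ Finset.range (K + 1), ‖Fm m j‖ ^ 2
        = ((K + 1 : ℕ) : ℝ) * ∑ x ∈ Finset.range (K + 1), ‖b x * ((x / K : ℝ) : ℂ) ^ m‖ ^ 2 := h1
    rw [h4]
    push_cast
    refine mul_le_mul_of_nonneg_left (Finset.sum_le_sum fun x hx => ?_) (by positivity)
    rw [norm_mul, norm_pow]
    have h5 : ‖((x : ℂ) / (K : ℂ))‖ ≤ 1 := by
      rw [norm_div, Complex.norm_natCast, Complex.norm_natCast, div_le_one hKR]
      have := Finset.mem_range.1 hx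
      exact_mod_cast (by omega : x ≤ K)
    have h6 : ‖((x : ℂ) / (K : ℂ))‖ ^ m ≤ 1 := pow_le_one₀ (norm_nonneg _) h5
    calc (‖b x‖ * ‖((x : ℂ) / (K : ℂ))‖ ^ m) ^ 2 ≤ (‖b x‖ * 1) ^ 2 := by gcongr
      _ = ‖b x‖ ^ 2 := by rw [mul_one]
  -- cells
  let r : ι → ℕ := fun i => ⌊ξ i / h⌋₊
  let cel : ι → ℕ × Fin (K + 1) := fun i => (r i / (K + 1), ⟨r i % (K + 1),
    Nat.mod_lt _ (Nat.succ_pos K)⟩)
  have hr1 : ∀ i, c i ≠ 0 → (r i : ℝ) * h ≤ ξ i := by
    intro i hi
    have h1 : 0 ≤ ξ i / h := div_nonneg (hN0.le.trans (hξ i hi)) hh0.le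
    have h2 := Nat.floor_le h1
    rwa [le_div_iff₀ hh0] at h2
  have hr2 : ∀ i, ξ i < (r i : ℝ) * h + h := by
    intro i
    have h2 := Nat.lt_floor_add_one (ξ i / h)
    rw [div_lt_iff₀ hh0] at h2
    calc ξ i < (r i + 1 : ℝ) * h := h2
      _ = _ := by ring
  have hmain := ls_group c (fun i => ENNReal.ofReal (1 / ξ i ^ 2) *
      ‖∑ j ∈ Finset.range (K + 1), b j * Complex.exp (((ξ i * (j / K) : ℝ) : ℂ) * I)‖ₑ ^ 2)
    cel (fun p => ENNReal.ofReal (4 / (N + K * p.1) ^ 2) *
      (2 * S * ∑' m, a m * ‖Fm m p.2‖ₑ ^ 2)) (8 * D) ?_ ?_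
  · -- conclusion
    calc ∑' i, c i * ENNReal.ofReal (1 / ξ i ^ 2) *
          ‖∑ j ∈ Finset.range (K + 1), b j * Complex.exp (((ξ i * (j / K) : ℝ) : ℂ) * I)‖ₑ ^ 2
        = ∑' i, c i * (ENNReal.ofReal (1 / ξ i ^ 2) *
          ‖∑ j ∈ Finset.range (K + 1),
            b j * Complex.exp (((ξ i * (j / K) : ℝ) : ℂ) * I)‖ₑ ^ 2) := by
          refine tsum_congr fun i => ?_
          rw [mul_assoc]
      _ ≤ _ := hmain
      _ = 8 * D * ((∑' s : ℕ, ENNReal.ofReal (4 / (N + K * s) ^ 2)) *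
          (2 * S * ∑' m, a m * ∑ j : Fin (K + 1), ‖Fm m j‖ₑ ^ 2)) := by
          congr 1
          rw [ENNReal.tsum_prod (f := fun (s : ℕ) (j : Fin (K + 1)) =>
            ENNReal.ofReal (4 / (N + K * s) ^ 2) * (2 * S * ∑' m, a m * ‖Fm m j‖ₑ ^ 2))]
          simp_rw [ENNReal.tsum_mul_left]
          rw [ENNReal.tsum_mul_right]
          congr 2
          rw [ENNReal.tsum_comm]
          refine tsum_congr fun m => ?_
          rw [ENNReal.tsum_mul_left, tsum_fintype]
      _ ≤ 8 * D * (ENNReal.ofReal (8 / (K * N)) *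
          (2 * S * ∑' m, a m * (ENNReal.ofReal (K + 1) * B))) := by
          gcongr with m
          · exact lsp_weights K N hKR hKN
          · exact hpars m
      _ = (8 * ENNReal.ofReal (8 / (K * N)) * 2 * S * S * ENNReal.ofReal (K + 1)) * D * B := by
          rw [ENNReal.tsum_mul_right, hSa]
          ring
      _ ≤ _ := by
          gcongr
          have h1 : 8 * ENNReal.ofReal (8 / (K * N)) * 2 * S * S * ENNReal.ofReal (K + 1)
              = ENNReal.ofReal (8 * (8 / (K * N)) * 2 * Real.exp 7 * Real.exp 7 * (K + 1)) := by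
            rw [ENNReal.ofReal_mul (by positivity), ENNReal.ofReal_mul (by positivity),
              ENNReal.ofReal_mul (by positivity), ENNReal.ofReal_mul (by positivity),
              ENNReal.ofReal_mul (by positivity), hS]
            norm_num
          rw [h1]
          refine ENNReal.ofReal_le_ofReal ?_
          have h2 : (2:ℝ) ^ l = 2 * N := by
            rw [hN, ← pow_succ']
            congr 1
            omega
          rw [h2]
          have h3 : (K : ℝ) + 1 ≤ 2 * K := by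
            have : (1:ℝ) ≤ K := by exact_mod_cast hK
            linarith
          calc 8 * (8 / (K * N)) * 2 * Real.exp 7 * Real.exp 7 * (K + 1)
              ≤ 8 * (8 / (K * N)) * 2 * Real.exp 7 * Real.exp 7 * (2 * K) := by gcongr
            _ = 512 * Real.exp 7 * Real.exp 7 / (2 * N) := by
              field_simp
              ring
  · -- values
    intro i hi
    have hx1 := hr1 i hi
    have hx2 := hr2 i
    have hx3 := hξ i hi
    have hrdm : r i = r i / (K + 1) * (K + 1) + r i % (K + 1) := by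
      rw [mul_comm]
      exact (Nat.div_add_mod _ _).symm
    refine mul_le_mul' ?_ ?_
    · refine ENNReal.ofReal_le_ofReal ?_
      have h1 : N + K * ((r i / (K + 1) : ℕ) : ℝ) ≤ 2 * ξ i := by
        have h2 : (K : ℝ) * ((r i / (K + 1) : ℕ) : ℝ) ≤ ξ i := by
          have h3 : (((r i / (K + 1) : ℕ) : ℝ)) * (K + 1) ≤ r i := by
            have := Nat.div_mul_le_self (r i) (K + 1)
            exact_mod_cast this
          have h4 : (((r i / (K + 1) : ℕ) : ℝ)) * (2 * Real.pi * K) ≤ ξ i := by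
            rw [← hPh]
            calc (((r i / (K + 1) : ℕ) : ℝ)) * ((K + 1) * h)
                = ((((r i / (K + 1) : ℕ) : ℝ)) * (K + 1)) * h := by ring
              _ ≤ r i * h := by gcongr
              _ ≤ ξ i := hx1
          have h5 : (1:ℝ) ≤ 2 * Real.pi := by
            have := Real.pi_gt_three
            linarith
          calc (K : ℝ) * ((r i / (K + 1) : ℕ) : ℝ)
              = (((r i / (K + 1) : ℕ) : ℝ)) * (1 * K) := by ring
            _ ≤ (((r i / (K + 1) : ℕ) : ℝ)) * (2 * Real.pi * K) := by gcongr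
            _ ≤ ξ i := h4
        linarith
      have h0 : 0 < N + K * ((r i / (K + 1) : ℕ) : ℝ) := by positivity
      have hξ0 : 0 < ξ i := by linarith
      show 1 / ξ i ^ 2 ≤ 4 / (N + K * ((r i / (K + 1) : ℕ) : ℝ)) ^ 2
      rw [div_le_div_iff₀ (by positivity) (by positivity), one_mul]
      calc (N + K * ((r i / (K + 1) : ℕ) : ℝ)) ^ 2 ≤ (2 * ξ i) ^ 2 := by gcongr
        _ = 4 * ξ i ^ 2 := by ring
    · have h1 := lsp_taylor K hK b (r i) (r i / (K + 1)) (r i % (K + 1)) hrdm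
        (ξ i - r i * h) (by
          rw [abs_of_nonneg (by linarith)]
          linarith)
      have h2 : ∀ x : ℕ, ((r i : ℝ) * (2 * Real.pi * K / (K + 1)) + (ξ i - r i * h)) * (x / K)
          = ξ i * (x / K) := by
        intro x
        rw [← hh]
        ring
      simp_rw [h2] at h1
      calc ‖∑ j ∈ Finset.range (K + 1),
            b j * Complex.exp (((ξ i * (j / K) : ℝ) : ℂ) * I)‖ₑ ^ 2
          ≤ (∑' m, a m * ‖Fm m (r i % (K + 1))‖ₑ) ^ 2 := by
            gcongr
        _ ≤ 2 * (∑' m, a m) * ∑' m, a m * ‖Fm m (r i % (K + 1))‖ₑ ^ 2 := ls_sq_tsum_le _ _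
        _ = _ := by rw [hSa]
  · -- masses
    rintro ⟨s, j⟩
    set z : ℤ := ⌊((s * (K + 1) + j.1 : ℕ) : ℝ) * h⌋ with hz
    calc ∑' i, (if cel i = (s, j) then c i else 0)
        ≤ ∑' i, ∑ e ∈ Finset.range 8, (if ⌊ξ i⌋ = z + e then c i else 0) := by
          refine ENNReal.tsum_le_tsum fun i => ?_
          split_ifs with hi
          · by_cases hc : c i = 0
            · rw [hc]
              exact zero_le
            · have h1 : r i = s * (K + 1) + j.1 := by
                have h2 : r i / (K + 1) = s := congrArg Prod.fst hi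
                have h3 : r i % (K + 1) = j.1 := congrArg (fun p => p.2.1) hi
                rw [← h2, ← h3, mul_comm]
                exact (Nat.div_add_mod _ _).symm
              have hx1 := hr1 i hc
              have hx2 := hr2 i
              rw [h1] at hx1 hx2
              have h4 : z ≤ ⌊ξ i⌋ := Int.floor_le_floor hx1
              have h5 : ⌊ξ i⌋ ≤ z + 7 := by
                have h6 : ξ i ≤ ((s * (K + 1) + j.1 : ℕ) : ℝ) * h + (7 : ℤ) := by
                  push_cast at hx2 ⊢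
                  linarith
                have h7 := Int.floor_le_floor h6
                rwa [Int.floor_add_intCast] at h7
              have h8 : (⌊ξ i⌋ - z).toNat ∈ Finset.range 8 := by
                rw [Finset.mem_range]
                omega
              refine le_trans ?_ (Finset.single_le_sum (f := fun e : ℕ =>
                if ⌊ξ i⌋ = z + (e : ℤ) then c i else 0) (fun _ _ => zero_le) h8)
              have h9 : ⌊ξ i⌋ = z + ((⌊ξ i⌋ - z).toNat : ℤ) := by omega
              exact le_of_eq (if_pos h9).symm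
          · exact zero_le
      _ = ∑ e ∈ Finset.range 8, ∑' i, (if ⌊ξ i⌋ = z + e then c i else 0) :=
          Summable.tsum_finsetSum (fun _ _ => ENNReal.summable)
      _ ≤ ∑ e ∈ Finset.range 8, D := Finset.sum_le_sum fun e _ => hUM (z + e)
      _ = 8 * D := by simp

end Emb
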