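/-
CHUNK LATE (late part: integration by parts on the cells of level k, frequencies >= 2^(l-1)).

phi(t) = b(ix k t) M(t) on [0,1) (b constant on the dyadic cells of level k), M of class C^1,
k < l, all frequencies xi_i (with c_i != 0) are >= 2^(l-1), mass <= D on unit intervals. Then
  sum_i c_i |hat phi(xi_i)|^2 <= C D 2^-(l-k) int_0^1 b(ix k t)^2 (|M|^2 + 4^-k |M'|^2).
Proof. With t_j = j/2^k: hat phi(xi) = sum_j b_j int_(t_j)^(t_(j+1)) M e^(i t xi)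
  = (1/(i xi)) [ sum_(j=0)^(2^k) c_j e^(i xi t_j) - int_0^1 b(ix k t) M'(t) e^(i t xi) dt ],
  c_j = (b_(j-1) - b_j) M(t_j) with b_(-1) = b_(2^k) := 0.
  So |hat phi|^2 <= 2 xi^-2 |sum_j c_j e^(i xi t_j)|^2 + 2 xi^-2 |hat(b M')(xi)|^2.
  First term: ls_points: <= 2 C D 2^-l sum_j |c_j|^2, and sum|c_j|^2 <= 4 sum_(cells) b_j^2 sup_cell |M|^2,
  sup_cell |M|^2 <= 2*2^k int_cell |M|^2 + 2*2^-k int_cell |M'|^2  (one-dimensional Sobolev on a cell
  of length 2^-k), so sum|c_j|^2 <= 8 * 2^k int b^2 (|M|^2 + 4^-k |M'|^2).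
  Second term: xi^-2 <= 4^-(l-1), ls_main: <= 2*4*4^-l*100 D int b^2 |M'|^2 and
  4^-l = 4^-(l-k) 4^-k.
-/
import Pool.Agent.Lib.Emb.LS
import Pool.Agent.Lib.Emb.LSP

open MeasureTheory Complex
open scoped BigOperators ENNReal

namespace Emb

theorem late_ix {k j : ℕ} {t : ℝ} (h1 : (j : ℝ) / 2 ^ k ≤ t) (h2 : t < ((j : ℝ) + 1) / 2 ^ k) :
    ix k t = j := by
  unfold ix
  have hp : (0 : ℝ) < 2 ^ k := by positivity
  have h0 : (0 : ℝ) ≤ t := le_trans (by positivity) h1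
  rw [Nat.floor_eq_iff (by positivity)]
  constructor
  · rw [div_le_iff₀ hp] at h1
    linarith
  · rw [lt_div_iff₀ hp] at h2
    linarith

theorem late_split {E : Type} [NormedAddCommGroup E] [NormedSpace ℝ E] (k : ℕ)
    (F : ℕ → ℝ → E) (hF : ∀ j, Continuous (F j)) :
    (∫ t in (0 : ℝ)..1, F (ix k t) t = ∑ j ∈ Finset.range (2 ^ k),
      ∫ t in ((j : ℝ) / 2 ^ k)..(((j : ℝ) + 1) / 2 ^ k), F j t) ∧
    IntervalIntegrable (fun t => F (ix k t) t) volume 0 1 := by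
  have hp : (0 : ℝ) < 2 ^ k := by positivity
  have hcast : ∀ j : ℕ, (((j + 1 : ℕ) : ℝ)) / 2 ^ k = ((j : ℝ) + 1) / 2 ^ k := by
    intro j
    push_cast
    rfl
  have hle : ∀ j : ℕ, (j : ℝ) / 2 ^ k ≤ ((j : ℝ) + 1) / 2 ^ k := by
    intro j
    apply div_le_div_of_nonneg_right _ hp.le
    linarith
  have heq : ∀ j : ℕ, Set.EqOn (fun t => F (ix k t) t) (F j)
      (Set.Ioo ((j : ℝ) / 2 ^ k) (((j : ℝ) + 1) / 2 ^ k)) := by
    intro j t ht
    simp only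
    rw [late_ix ht.1.le ht.2]
  have hint : ∀ j < 2 ^ k, IntervalIntegrable (fun t => F (ix k t) t) volume
      ((fun j : ℕ => (j : ℝ) / 2 ^ k) j) ((fun j : ℕ => (j : ℝ) / 2 ^ k) (j + 1)) := by
    intro j _
    simp only
    rw [hcast j]
    refine IntervalIntegrable.congr_uIoo ((hF j).intervalIntegrable _ _) ?_
    rw [Set.uIoo_of_le (hle j)]
    exact (heq j).symm
  have h1 := intervalIntegral.sum_integral_adjacent_intervals hint
  have hN : (((2 ^ k : ℕ) : ℝ)) / 2 ^ k = 1 := by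
    push_cast
    exact div_self hp.ne'
  have h0 : (((0 : ℕ) : ℝ)) / 2 ^ k = 0 := by simp
  refine ⟨?_, ?_⟩
  · rw [hN, h0] at h1
    rw [← h1]
    apply Finset.sum_congr rfl
    intro j _
    rw [hcast j]
    exact intervalIntegral.integral_congr_Ioo_of_le (hle j) (heq j)
  · have h2 := IntervalIntegrable.trans_iterate hint
    rwa [hN, h0] at h2

theorem late_left (u v : ℝ) (huv : u < v) (M M' : ℝ → ℂ) (hM : ∀ t, HasDerivAt M (M' t) t)
    (hM' : Continuous M') :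
    (v - u) * ‖M u‖ ^ 2 ≤ ∫ s in u..v, (2 * ‖M s‖ ^ 2 + (v - u) ^ 2 * ‖M' s‖ ^ 2) := by
  have hMc : Continuous M := continuous_iff_continuousAt.mpr fun t => (hM t).continuousAt
  have hd : ∀ s ∈ Set.uIcc u v, HasDerivAt (fun s => (v - s) * ‖M s‖ ^ 2)
      (-1 * ‖M s‖ ^ 2 + (v - s) * (2 * inner ℝ (M s) (M' s))) s := by
    intro s _
    exact ((hasDerivAt_id s).const_sub v).mul (hM s).norm_sq
  have hci : Continuous (fun s => inner ℝ (M s) (M' s)) := hMc.inner hM'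
  have hcont : Continuous (fun s => -1 * ‖M s‖ ^ 2 + (v - s) * (2 * inner ℝ (M s) (M' s))) := by
    fun_prop
  have h1 := intervalIntegral.integral_eq_sub_of_hasDerivAt hd (hcont.intervalIntegrable u v)
  simp only [sub_self, zero_mul, zero_sub] at h1
  have h2 : (v - u) * ‖M u‖ ^ 2 =
      ∫ s in u..v, -(-1 * ‖M s‖ ^ 2 + (v - s) * (2 * inner ℝ (M s) (M' s))) := by
    rw [intervalIntegral.integral_neg, h1, neg_neg]
  rw [h2]
  have hneg : Continuous (fun s => -(-1 * ‖M s‖ ^ 2 + (v - s) * (2 * inner ℝ (M s) (M' s)))) :=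
    hcont.neg
  apply intervalIntegral.integral_mono_on huv.le (hneg.intervalIntegrable u v)
  · have : Continuous (fun s => 2 * ‖M s‖ ^ 2 + (v - u) ^ 2 * ‖M' s‖ ^ 2) := by fun_prop
    exact this.intervalIntegrable u v
  · intro s hs
    have h3 := abs_real_inner_le_norm (M s) (M' s)
    have h4 := (abs_le.mp h3).1
    have h5 : (v - s) * (-(‖M s‖ * ‖M' s‖)) ≤ (v - s) * inner ℝ (M s) (M' s) :=
      mul_le_mul_of_nonneg_left h4 (by linarith [hs.2])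
    have h6 : (v - s) * (‖M s‖ * ‖M' s‖) ≤ (v - u) * (‖M s‖ * ‖M' s‖) :=
      mul_le_mul_of_nonneg_right (by linarith [hs.1]) (by positivity)
    nlinarith [sq_nonneg (‖M s‖ - (v - u) * ‖M' s‖)]

theorem late_right (u v : ℝ) (huv : u < v) (M M' : ℝ → ℂ) (hM : ∀ t, HasDerivAt M (M' t) t)
    (hM' : Continuous M') :
    (v - u) * ‖M v‖ ^ 2 ≤ ∫ s in u..v, (2 * ‖M s‖ ^ 2 + (v - u) ^ 2 * ‖M' s‖ ^ 2) := by
  have hMc : Continuous M := continuous_iff_continuousAt.mpr fun t => (hM t).continuousAt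
  have hd : ∀ s ∈ Set.uIcc u v, HasDerivAt (fun s => (s - u) * ‖M s‖ ^ 2)
      (1 * ‖M s‖ ^ 2 + (s - u) * (2 * inner ℝ (M s) (M' s))) s := by
    intro s _
    exact ((hasDerivAt_id s).sub_const u).mul (hM s).norm_sq
  have hci : Continuous (fun s => inner ℝ (M s) (M' s)) := hMc.inner hM'
  have hcont : Continuous (fun s => 1 * ‖M s‖ ^ 2 + (s - u) * (2 * inner ℝ (M s) (M' s))) := by
    fun_prop
  have h1 := intervalIntegral.integral_eq_sub_of_hasDerivAt hd (hcont.intervalIntegrable u v)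
  simp only [sub_self, zero_mul, sub_zero] at h1
  rw [← h1]
  apply intervalIntegral.integral_mono_on huv.le (hcont.intervalIntegrable u v)
  · have : Continuous (fun s => 2 * ‖M s‖ ^ 2 + (v - u) ^ 2 * ‖M' s‖ ^ 2) := by fun_prop
    exact this.intervalIntegrable u v
  · intro s hs
    have h3 := abs_real_inner_le_norm (M s) (M' s)
    have h4 := (abs_le.mp h3).2
    have h5 : (s - u) * inner ℝ (M s) (M' s) ≤ (s - u) * (‖M s‖ * ‖M' s‖) :=
      mul_le_mul_of_nonneg_left h4 (by linarith [hs.1])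
    have h6 : (s - u) * (‖M s‖ * ‖M' s‖) ≤ (v - u) * (‖M s‖ * ‖M' s‖) :=
      mul_le_mul_of_nonneg_right (by linarith [hs.2]) (by positivity)
    nlinarith [sq_nonneg (‖M s‖ - (v - u) * ‖M' s‖)]

/-- Both end points of the cell `j` of level `k`. -/
theorem late_cell (k j : ℕ) (M M' : ℝ → ℂ) (hM : ∀ t, HasDerivAt M (M' t) t)
    (hM' : Continuous M') :
    ‖M ((j : ℝ) / 2 ^ k)‖ ^ 2 ≤ 2 * 2 ^ k * ∫ s in ((j : ℝ) / 2 ^ k)..(((j : ℝ) + 1) / 2 ^ k),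
      (‖M s‖ ^ 2 + (4 ^ k)⁻¹ * ‖M' s‖ ^ 2) ∧
    ‖M (((j : ℝ) + 1) / 2 ^ k)‖ ^ 2 ≤ 2 * 2 ^ k *
      ∫ s in ((j : ℝ) / 2 ^ k)..(((j : ℝ) + 1) / 2 ^ k),
      (‖M s‖ ^ 2 + (4 ^ k)⁻¹ * ‖M' s‖ ^ 2) := by
  have hMc : Continuous M := continuous_iff_continuousAt.mpr fun t => (hM t).continuousAt
  have hp : (0 : ℝ) < 2 ^ k := by positivity
  have huv : (j : ℝ) / 2 ^ k < ((j : ℝ) + 1) / 2 ^ k := by
    apply div_lt_div_of_pos_right _ hp
    linarith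
  have hd : ((j : ℝ) + 1) / 2 ^ k - (j : ℝ) / 2 ^ k = (2 ^ k)⁻¹ := by
    field_simp
    ring
  have hI : ∫ s in ((j : ℝ) / 2 ^ k)..(((j : ℝ) + 1) / 2 ^ k),
        (2 * ‖M s‖ ^ 2 + ((2 : ℝ) ^ k)⁻¹ ^ 2 * ‖M' s‖ ^ 2) ≤
      2 * ∫ s in ((j : ℝ) / 2 ^ k)..(((j : ℝ) + 1) / 2 ^ k),
        (‖M s‖ ^ 2 + (4 ^ k)⁻¹ * ‖M' s‖ ^ 2) := by
    rw [← intervalIntegral.integral_const_mul]
    apply intervalIntegral.integral_mono_on huv.le
    · have : Continuous (fun s => 2 * ‖M s‖ ^ 2 + ((2 : ℝ) ^ k)⁻¹ ^ 2 * ‖M' s‖ ^ 2) := by fun_prop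
      exact this.intervalIntegrable _ _
    · have : Continuous (fun s => 2 * (‖M s‖ ^ 2 + ((4 : ℝ) ^ k)⁻¹ * ‖M' s‖ ^ 2)) := by fun_prop
      exact this.intervalIntegrable _ _
    · intro s _
      have h4 : ((2 : ℝ) ^ k)⁻¹ ^ 2 = (4 ^ k)⁻¹ := by
        rw [inv_pow, ← pow_mul, mul_comm k 2, pow_mul]
        norm_num
      rw [h4]
      have : 0 ≤ ((4 : ℝ) ^ k)⁻¹ * ‖M' s‖ ^ 2 := by positivity
      linarith
  have hl := late_left _ _ huv M M' hM hM'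
  have hr := late_right _ _ huv M M' hM hM'
  rw [hd] at hl hr
  have hl2 := hl.trans hI
  have hr2 := hr.trans hI
  constructor
  · rw [inv_mul_le_iff₀ hp] at hl2
    linarith
  · rw [inv_mul_le_iff₀ hp] at hr2
    linarith

/-- Coefficients after summation by parts. -/
noncomputable def lateC (k : ℕ) (b : ℕ → ℝ) (M : ℝ → ℂ) (j : ℕ) : ℂ :=
  (((if j = 0 then 0 else b (j - 1)) - (if j < 2 ^ k then b j else 0) : ℝ) : ℂ) *
    M ((j : ℝ) / 2 ^ k)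

theorem late_sum (k : ℕ) (b : ℕ → ℝ) (G : ℕ → ℂ) :
    ∑ j ∈ Finset.range (2 ^ k + 1),
      (((if j = 0 then 0 else b (j - 1)) - (if j < 2 ^ k then b j else 0) : ℝ) : ℂ) * G j =
    ∑ j ∈ Finset.range (2 ^ k), (b j : ℂ) * (G (j + 1) - G j) := by
  have h1 : ∑ j ∈ Finset.range (2 ^ k + 1), ((if j = 0 then 0 else b (j - 1) : ℝ) : ℂ) * G j =
      ∑ j ∈ Finset.range (2 ^ k), (b j : ℂ) * G (j + 1) := by
    rw [Finset.sum_range_succ']
    simp
  have h2 : ∑ j ∈ Finset.range (2 ^ k + 1), ((if j < 2 ^ k then b j else 0 : ℝ) : ℂ) * G j =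
      ∑ j ∈ Finset.range (2 ^ k), (b j : ℂ) * G j := by
    rw [Finset.sum_range_succ, if_neg (lt_irrefl _)]
    simp only [Complex.ofReal_zero, zero_mul, add_zero]
    apply Finset.sum_congr rfl
    intro j hj
    rw [if_pos (Finset.mem_range.mp hj)]
  simp only [mul_sub, Finset.sum_sub_distrib, ← h1, ← h2]
  rw [← Finset.sum_sub_distrib]
  apply Finset.sum_congr rfl
  intro j _
  push_cast
  ring

theorem late_sumsq (k : ℕ) (b : ℕ → ℝ) (M M' : ℝ → ℂ) (hM : ∀ t, HasDerivAt M (M' t) t)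
    (hM' : Continuous M') :
    ∑ j ∈ Finset.range (2 ^ k + 1), ‖lateC k b M j‖ ^ 2 ≤ 8 * 2 ^ k *
      ∑ j ∈ Finset.range (2 ^ k), ∫ s in ((j : ℝ) / 2 ^ k)..(((j : ℝ) + 1) / 2 ^ k),
      b j ^ 2 * (‖M s‖ ^ 2 + (4 ^ k)⁻¹ * ‖M' s‖ ^ 2) := by
  have h0 : ∀ j, ‖lateC k b M j‖ ^ 2 ≤
      2 * ((if j = 0 then 0 else b (j - 1)) ^ 2 * ‖M ((j : ℝ) / 2 ^ k)‖ ^ 2) +
      2 * ((if j < 2 ^ k then b j else 0) ^ 2 * ‖M ((j : ℝ) / 2 ^ k)‖ ^ 2) := by
    intro j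
    unfold lateC
    rw [norm_mul, mul_pow, Complex.norm_real, Real.norm_eq_abs, sq_abs]
    have h5 : 0 ≤ ‖M ((j : ℝ) / 2 ^ k)‖ ^ 2 := by positivity
    set x := (if j = 0 then (0 : ℝ) else b (j - 1))
    set y := (if j < 2 ^ k then b j else (0 : ℝ))
    have h6 : (x - y) ^ 2 ≤ 2 * x ^ 2 + 2 * y ^ 2 := by nlinarith [sq_nonneg (x + y)]
    calc (x - y) ^ 2 * ‖M ((j : ℝ) / 2 ^ k)‖ ^ 2
        ≤ (2 * x ^ 2 + 2 * y ^ 2) * ‖M ((j : ℝ) / 2 ^ k)‖ ^ 2 :=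
          mul_le_mul_of_nonneg_right h6 h5
      _ = _ := by ring
  have h1 : ∑ j ∈ Finset.range (2 ^ k + 1),
      (if j = 0 then (0 : ℝ) else b (j - 1)) ^ 2 * ‖M ((j : ℝ) / 2 ^ k)‖ ^ 2 =
      ∑ j ∈ Finset.range (2 ^ k), b j ^ 2 * ‖M (((j : ℝ) + 1) / 2 ^ k)‖ ^ 2 := by
    rw [Finset.sum_range_succ']
    simp
  have h2 : ∑ j ∈ Finset.range (2 ^ k + 1),
      (if j < 2 ^ k then b j else (0 : ℝ)) ^ 2 * ‖M ((j : ℝ) / 2 ^ k)‖ ^ 2 =
      ∑ j ∈ Finset.range (2 ^ k), b j ^ 2 * ‖M ((j : ℝ) / 2 ^ k)‖ ^ 2 := by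
    rw [Finset.sum_range_succ, if_neg (lt_irrefl _)]
    simp only [ne_eq, OfNat.ofNat_ne_zero, not_false_eq_true, zero_pow, zero_mul, add_zero]
    apply Finset.sum_congr rfl
    intro j hj
    rw [if_pos (Finset.mem_range.mp hj)]
  calc ∑ j ∈ Finset.range (2 ^ k + 1), ‖lateC k b M j‖ ^ 2
      ≤ ∑ j ∈ Finset.range (2 ^ k + 1),
        (2 * ((if j = 0 then 0 else b (j - 1)) ^ 2 * ‖M ((j : ℝ) / 2 ^ k)‖ ^ 2) +
        2 * ((if j < 2 ^ k then b j else 0) ^ 2 * ‖M ((j : ℝ) / 2 ^ k)‖ ^ 2)) :=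
        Finset.sum_le_sum fun j _ => h0 j
    _ = 2 * (∑ j ∈ Finset.range (2 ^ k), b j ^ 2 * ‖M (((j : ℝ) + 1) / 2 ^ k)‖ ^ 2) +
        2 * ∑ j ∈ Finset.range (2 ^ k), b j ^ 2 * ‖M ((j : ℝ) / 2 ^ k)‖ ^ 2 := by
        rw [Finset.sum_add_distrib, ← Finset.mul_sum, ← Finset.mul_sum, h1, h2]
    _ = ∑ j ∈ Finset.range (2 ^ k), (2 * (b j ^ 2 * ‖M (((j : ℝ) + 1) / 2 ^ k)‖ ^ 2) +
        2 * (b j ^ 2 * ‖M ((j : ℝ) / 2 ^ k)‖ ^ 2)) := by
        rw [Finset.sum_add_distrib, ← Finset.mul_sum, ← Finset.mul_sum]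
    _ ≤ ∑ j ∈ Finset.range (2 ^ k), 8 * 2 ^ k *
        ∫ s in ((j : ℝ) / 2 ^ k)..(((j : ℝ) + 1) / 2 ^ k),
        b j ^ 2 * (‖M s‖ ^ 2 + (4 ^ k)⁻¹ * ‖M' s‖ ^ 2) := by
        apply Finset.sum_le_sum
        intro j _
        obtain ⟨hl, hr⟩ := late_cell k j M M' hM hM'
        rw [intervalIntegral.integral_const_mul]
        have hb : 0 ≤ b j ^ 2 := sq_nonneg _
        have h3 := mul_le_mul_of_nonneg_left hl hb
        have h4 := mul_le_mul_of_nonneg_left hr hb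
        linarith
    _ = _ := by rw [← Finset.mul_sum]

theorem late_hat (k : ℕ) (b : ℕ → ℝ) (M M' : ℝ → ℂ) (hM : ∀ t, HasDerivAt M (M' t) t)
    (hM' : Continuous M') (ξ : ℝ) (hξ : ξ ≠ 0) :
    hat (fun t => (b (ix k t) : ℂ) * M t) ξ = ((ξ : ℂ) * I)⁻¹ *
      (∑ j ∈ Finset.range (2 ^ k + 1), lateC k b M j *
        Complex.exp (((ξ * (j / 2 ^ k) : ℝ) : ℂ) * I) -
      hat (fun t => (b (ix k t) : ℂ) * M' t) ξ) := by
  have hMc : Continuous M := continuous_iff_continuousAt.mpr fun t => (hM t).continuousAt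
  set E : ℝ → ℂ := fun t => Complex.exp (((t * ξ : ℝ) : ℂ) * I) with hE
  have hEc : Continuous E := by
    rw [hE]
    fun_prop
  have hEd : ∀ t, HasDerivAt E (E t * ((ξ : ℂ) * I)) t := by
    intro t
    have h1 : HasDerivAt (fun t : ℝ => (((t * ξ : ℝ) : ℂ) * I)) ((ξ : ℂ) * I) t := by
      have h2 : HasDerivAt (fun t : ℝ => t * ξ) (1 * ξ) t := (hasDerivAt_id t).mul_const ξ
      rw [one_mul] at h2
      exact (h2.ofReal_comp).mul_const I
    exact h1.cexp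
  have hsplit : ∀ f : ℝ → ℂ, Continuous f → hat (fun t => (b (ix k t) : ℂ) * f t) ξ =
      ∑ j ∈ Finset.range (2 ^ k), (b j : ℂ) *
        ∫ t in ((j : ℝ) / 2 ^ k)..(((j : ℝ) + 1) / 2 ^ k), f t * E t := by
    intro f hf
    unfold hat
    have h1 := (late_split k (fun j t => (b j : ℂ) * f t * E t) (fun j => by fun_prop)).1
    rw [h1]
    apply Finset.sum_congr rfl
    intro j _
    rw [← intervalIntegral.integral_const_mul]
    simp only [mul_assoc]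
  rw [hsplit M hMc, hsplit M' hM']
  have hz : (ξ : ℂ) * I ≠ 0 := mul_ne_zero (by exact_mod_cast hξ) I_ne_zero
  have hparts : ∀ u v : ℝ, M v * E v - M u * E u =
      (∫ t in u..v, M' t * E t) + ((ξ : ℂ) * I) * ∫ t in u..v, M t * E t := by
    intro u v
    have hd : ∀ t ∈ Set.uIcc u v, HasDerivAt (fun t => M t * E t)
        (M' t * E t + M t * (E t * ((ξ : ℂ) * I))) t := fun t _ => (hM t).mul (hEd t)
    have hc : Continuous (fun t => M' t * E t + M t * (E t * ((ξ : ℂ) * I))) := by fun_prop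
    have h1 := intervalIntegral.integral_eq_sub_of_hasDerivAt hd (hc.intervalIntegrable u v)
    rw [← h1, intervalIntegral.integral_add, ← intervalIntegral.integral_const_mul]
    · congr 1
      apply intervalIntegral.integral_congr
      intro t _
      simp only
      ring
    · exact (by fun_prop : Continuous fun t => M' t * E t).intervalIntegrable u v
    · exact (by fun_prop : Continuous fun t => M t * (E t * ((ξ : ℂ) * I))).intervalIntegrable u v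
  have hG : ∑ j ∈ Finset.range (2 ^ k + 1), lateC k b M j *
        Complex.exp (((ξ * (j / 2 ^ k) : ℝ) : ℂ) * I) =
      ∑ j ∈ Finset.range (2 ^ k), (b j : ℂ) *
        (M (((j : ℝ) + 1) / 2 ^ k) * E (((j : ℝ) + 1) / 2 ^ k) -
          M ((j : ℝ) / 2 ^ k) * E ((j : ℝ) / 2 ^ k)) := by
    have h1 := late_sum k b (fun j => M ((j : ℝ) / 2 ^ k) * E ((j : ℝ) / 2 ^ k))
    simp only [Nat.cast_add, Nat.cast_one] at h1
    rw [← h1]
    apply Finset.sum_congr rfl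
    intro j _
    unfold lateC
    rw [hE]
    simp only
    rw [mul_assoc, mul_comm ξ]
  rw [hG, ← Finset.sum_sub_distrib, Finset.mul_sum]
  apply Finset.sum_congr rfl
  intro j _
  rw [hparts, ← mul_sub, add_sub_cancel_left, mul_left_comm (b j : ℂ), inv_mul_cancel_left₀ hz]

theorem late_an : ∃ C : ℝ, 0 < C ∧ ∀ (ι : Type) (c : ι → ℝ≥0∞) (ξ : ι → ℝ) (D : ℝ≥0∞),
    UM c ξ D → ∀ k l : ℕ, k < l → (∀ i, c i ≠ 0 → (2:ℝ) ^ (l - 1) ≤ ξ i) →
    ∀ (b : ℕ → ℝ) (M M' : ℝ → ℂ), (∀ t, HasDerivAt M (M' t) t) → Continuous M' →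
    ∑' i, c i * ‖hat (fun t => (b (ix k t) : ℂ) * M t) (ξ i)‖ₑ ^ 2 ≤
      ENNReal.ofReal (C / 2 ^ (l - k)) * D * ∫⁻ t in Set.Ico (0:ℝ) 1,
        ENNReal.ofReal (b (ix k t) ^ 2 * (‖M t‖ ^ 2 + (4 ^ k)⁻¹ * ‖M' t‖ ^ 2)) := by
  obtain ⟨C1, hC1, hpts⟩ := ls_points
  refine ⟨16 * C1 + 800, by positivity, ?_⟩
  intro ι c ξ D hUM k l hkl hξ b M M' hM hM'
  have hMc : Continuous M := continuous_iff_continuousAt.mpr fun t => (hM t).continuousAt
  have hixm : Measurable (ix k) := by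
    unfold ix
    exact Nat.measurable_floor.comp (measurable_const.mul measurable_id)
  have hbm : Measurable (fun t => b (ix k t)) := measurable_from_top.comp hixm
  -- the right side
  set R : ℝ := ∑ j ∈ Finset.range (2 ^ k), ∫ s in ((j : ℝ) / 2 ^ k)..(((j : ℝ) + 1) / 2 ^ k),
      b j ^ 2 * (‖M s‖ ^ 2 + (4 ^ k)⁻¹ * ‖M' s‖ ^ 2) with hR
  set J : ℝ≥0∞ := ∫⁻ t in Set.Ico (0:ℝ) 1,
        ENNReal.ofReal (b (ix k t) ^ 2 * (‖M t‖ ^ 2 + (4 ^ k)⁻¹ * ‖M' t‖ ^ 2)) with hJ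
  have hJR : J = ENNReal.ofReal R := by
    obtain ⟨h1, h2⟩ := late_split k
      (fun j t => b j ^ 2 * (‖M t‖ ^ 2 + ((4 : ℝ) ^ k)⁻¹ * ‖M' t‖ ^ 2)) (fun j => by fun_prop)
    rw [hR, ← h1, intervalIntegral.integral_of_le zero_le_one, ← integral_Ico_eq_integral_Ioc, hJ]
    rw [ofReal_integral_eq_lintegral_ofReal]
    · exact (intervalIntegrable_iff_integrableOn_Ico_of_le zero_le_one).mp h2
    · filter_upwards with t
      positivity
  -- first term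
  have hsq : ∀ z : ℂ, ‖z‖ₑ ^ 2 = ENNReal.ofReal (‖z‖ ^ 2) := by
    intro z
    rw [ENNReal.ofReal_pow (norm_nonneg z), ofReal_norm]
  have hcc : ∑ j ∈ Finset.range (2 ^ k + 1), ‖lateC k b M j‖ₑ ^ 2 ≤
      ENNReal.ofReal (8 * 2 ^ k) * J := by
    simp only [hsq]
    rw [← ENNReal.ofReal_sum_of_nonneg (fun j _ => by positivity), hJR,
      ← ENNReal.ofReal_mul (by positivity)]
    exact ENNReal.ofReal_le_ofReal (late_sumsq k b M M' hM hM')
  have hP := hpts ι c ξ D hUM k l hkl hξ (lateC k b M)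
  -- second term
  have hbd : ∃ B : ℝ, ∀ t ∈ Set.Ico (0:ℝ) 1, ‖(b (ix k t) : ℂ) * M' t‖ ≤ B := by
    obtain ⟨B1, hB1⟩ := isCompact_Icc.exists_bound_of_continuousOn
      (hM'.continuousOn (s := Set.Icc (0:ℝ) 1))
    refine ⟨(∑ j ∈ Finset.range (2 ^ k), |b j|) * B1, ?_⟩
    intro t ht
    rw [norm_mul, Complex.norm_real, Real.norm_eq_abs]
    have h1 : ix k t ∈ Finset.range (2 ^ k) := by
      rw [Finset.mem_range]
      unfold ix
      rw [Nat.floor_lt (by have := ht.1; positivity)]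
      push_cast
      have : (0 : ℝ) < 2 ^ k := by positivity
      nlinarith [ht.2]
    have h2 : |b (ix k t)| ≤ ∑ j ∈ Finset.range (2 ^ k), |b j| :=
      Finset.single_le_sum (f := fun j => |b j|) (fun j _ => abs_nonneg _) h1
    have h3 := hB1 t ⟨ht.1, ht.2.le⟩
    exact mul_le_mul h2 h3 (norm_nonneg _) (Finset.sum_nonneg fun j _ => abs_nonneg _)
  have hφm : Measurable (fun t => (b (ix k t) : ℂ) * M' t) :=
    (Complex.measurable_ofReal.comp hbm).mul hM'.measurable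
  have hL := ls_main ι c ξ D hUM _ hφm hbd
  have hL2 : ∫⁻ t in Set.Ico (0:ℝ) 1, ‖(b (ix k t) : ℂ) * M' t‖ₑ ^ 2 ≤
      ENNReal.ofReal (4 ^ k) * J := by
    rw [hJ, ← lintegral_const_mul' _ _ ENNReal.ofReal_ne_top]
    apply lintegral_mono
    intro t
    simp only
    rw [hsq, ← ENNReal.ofReal_mul (by positivity)]
    apply ENNReal.ofReal_le_ofReal
    rw [norm_mul, Complex.norm_real, Real.norm_eq_abs, mul_pow, sq_abs]
    have h4 : (0 : ℝ) < 4 ^ k := by positivity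
    have h5 : (4 : ℝ) ^ k * (b (ix k t) ^ 2 * (‖M t‖ ^ 2 + (4 ^ k)⁻¹ * ‖M' t‖ ^ 2)) =
        4 ^ k * (b (ix k t) ^ 2 * ‖M t‖ ^ 2) + b (ix k t) ^ 2 * ‖M' t‖ ^ 2 := by
      field_simp
    rw [h5]
    have h6 : 0 ≤ (4 : ℝ) ^ k * (b (ix k t) ^ 2 * ‖M t‖ ^ 2) := by positivity
    linarith
  -- pointwise in i
  have hpt : ∀ i, c i * ‖hat (fun t => (b (ix k t) : ℂ) * M t) (ξ i)‖ₑ ^ 2 ≤
      2 * (c i * ENNReal.ofReal (1 / ξ i ^ 2) *
        ‖∑ j ∈ Finset.range (2 ^ k + 1), lateC k b M j *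
          Complex.exp (((ξ i * (j / 2 ^ k) : ℝ) : ℂ) * I)‖ₑ ^ 2) +
      ENNReal.ofReal (8 / 4 ^ l) *
        (c i * ‖hat (fun t => (b (ix k t) : ℂ) * M' t) (ξ i)‖ₑ ^ 2) := by
    intro i
    by_cases hci : c i = 0
    · rw [hci]
      simp
    have hx := hξ i hci
    have hx0 : 0 < ξ i := lt_of_lt_of_le (by positivity) hx
    rw [late_hat k b M M' hM hM' (ξ i) hx0.ne']
    set S := ∑ j ∈ Finset.range (2 ^ k + 1), lateC k b M j *
          Complex.exp (((ξ i * (j / 2 ^ k) : ℝ) : ℂ) * I)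
    set T := hat (fun t => (b (ix k t) : ℂ) * M' t) (ξ i)
    have h1 : ‖((ξ i : ℂ) * I)⁻¹ * (S - T)‖ ^ 2 ≤
        2 * ((1 / ξ i ^ 2) * ‖S‖ ^ 2) + 8 / 4 ^ l * ‖T‖ ^ 2 := by
      rw [norm_mul, norm_inv, norm_mul, Complex.norm_I, mul_one, Complex.norm_real,
        Real.norm_eq_abs, abs_of_pos hx0, mul_pow]
      have h2 : ‖S - T‖ ^ 2 ≤ 2 * ‖S‖ ^ 2 + 2 * ‖T‖ ^ 2 := by
        have h3 := norm_sub_le S T
        have h4 : ‖S - T‖ ^ 2 ≤ (‖S‖ + ‖T‖) ^ 2 := by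
          apply pow_le_pow_left₀ (norm_nonneg _) h3
        nlinarith [sq_nonneg (‖S‖ - ‖T‖)]
      have h5 : (ξ i)⁻¹ ^ 2 = 1 / ξ i ^ 2 := by
        rw [inv_pow, one_div]
      rw [h5]
      have h6 : 1 / ξ i ^ 2 ≤ 4 / 4 ^ l := by
        have h7 : ((2 : ℝ) ^ (l - 1)) ^ 2 ≤ ξ i ^ 2 := pow_le_pow_left₀ (by positivity) hx 2
        have h8 : ((2 : ℝ) ^ (l - 1)) ^ 2 = 4 ^ l / 4 := by
          obtain ⟨m, rfl⟩ : ∃ m, l = m + 1 := ⟨l - 1, by omega⟩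
          have h44 : (4 : ℝ) ^ (m + 1) = 4 * 4 ^ m := by ring
          rw [Nat.add_sub_cancel, h44, ← pow_mul, mul_comm m 2, pow_mul]
          norm_num
        rw [h8] at h7
        rw [div_le_div_iff₀ (by positivity) (by positivity)]
        linarith
      have h9 : 0 ≤ 1 / ξ i ^ 2 := by positivity
      calc 1 / ξ i ^ 2 * ‖S - T‖ ^ 2 ≤ 1 / ξ i ^ 2 * (2 * ‖S‖ ^ 2 + 2 * ‖T‖ ^ 2) :=
            mul_le_mul_of_nonneg_left h2 h9
        _ = 2 * ((1 / ξ i ^ 2) * ‖S‖ ^ 2) + 1 / ξ i ^ 2 * (2 * ‖T‖ ^ 2) := by ring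
        _ ≤ 2 * ((1 / ξ i ^ 2) * ‖S‖ ^ 2) + 4 / 4 ^ l * (2 * ‖T‖ ^ 2) := by
            have := mul_le_mul_of_nonneg_right h6 (show 0 ≤ 2 * ‖T‖ ^ 2 by positivity)
            linarith
        _ = _ := by ring
    rw [hsq, hsq, hsq]
    calc c i * ENNReal.ofReal (‖((ξ i : ℂ) * I)⁻¹ * (S - T)‖ ^ 2)
        ≤ c i * ENNReal.ofReal (2 * ((1 / ξ i ^ 2) * ‖S‖ ^ 2) + 8 / 4 ^ l * ‖T‖ ^ 2) := by
          gcongr
      _ = _ := by
          rw [ENNReal.ofReal_add (by positivity) (by positivity),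
            ENNReal.ofReal_mul (by positivity), ENNReal.ofReal_mul (by positivity),
            ENNReal.ofReal_mul (by positivity)]
          simp only [ENNReal.ofReal_ofNat]
          ring
  calc ∑' i, c i * ‖hat (fun t => (b (ix k t) : ℂ) * M t) (ξ i)‖ₑ ^ 2
      ≤ ∑' i, (2 * (c i * ENNReal.ofReal (1 / ξ i ^ 2) *
        ‖∑ j ∈ Finset.range (2 ^ k + 1), lateC k b M j *
          Complex.exp (((ξ i * (j / 2 ^ k) : ℝ) : ℂ) * I)‖ₑ ^ 2) +
        ENNReal.ofReal (8 / 4 ^ l) *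
        (c i * ‖hat (fun t => (b (ix k t) : ℂ) * M' t) (ξ i)‖ₑ ^ 2)) :=
        ENNReal.tsum_le_tsum hpt
    _ = 2 * ∑' i, (c i * ENNReal.ofReal (1 / ξ i ^ 2) *
        ‖∑ j ∈ Finset.range (2 ^ k + 1), lateC k b M j *
          Complex.exp (((ξ i * (j / 2 ^ k) : ℝ) : ℂ) * I)‖ₑ ^ 2) +
        ENNReal.ofReal (8 / 4 ^ l) *
        ∑' i, (c i * ‖hat (fun t => (b (ix k t) : ℂ) * M' t) (ξ i)‖ₑ ^ 2) := by
        rw [ENNReal.tsum_add, ENNReal.tsum_mul_left, ENNReal.tsum_mul_left]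
    _ ≤ 2 * (ENNReal.ofReal (C1 / 2 ^ l) * D * (ENNReal.ofReal (8 * 2 ^ k) * J)) +
        ENNReal.ofReal (8 / 4 ^ l) * (100 * D * (ENNReal.ofReal (4 ^ k) * J)) := by
        gcongr
        · exact hP.trans (mul_le_mul_right hcc _)
        · exact hL.trans (mul_le_mul_right hL2 _)
    _ = (ENNReal.ofReal (16 * C1 * (2 ^ k / 2 ^ l)) + ENNReal.ofReal (800 * (4 ^ k / 4 ^ l))) *
        D * J := by
        have e1 : ENNReal.ofReal (16 * C1 * (2 ^ k / 2 ^ l)) =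
            2 * (ENNReal.ofReal (C1 / 2 ^ l) * ENNReal.ofReal (8 * 2 ^ k)) := by
          rw [← ENNReal.ofReal_mul (by positivity)]
          rw [show (2 : ℝ≥0∞) = ENNReal.ofReal 2 by simp, ← ENNReal.ofReal_mul (by positivity)]
          congr 1
          ring
        have e2 : ENNReal.ofReal (800 * (4 ^ k / 4 ^ l)) =
            ENNReal.ofReal (8 / 4 ^ l) * (100 * ENNReal.ofReal (4 ^ k)) := by
          rw [show (100 : ℝ≥0∞) = ENNReal.ofReal 100 by simp, ← ENNReal.ofReal_mul (by positivity),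
            ← ENNReal.ofReal_mul (by positivity)]
          congr 1
          ring
        rw [e1, e2]
        ring
    _ ≤ ENNReal.ofReal ((16 * C1 + 800) / 2 ^ (l - k)) * D * J := by
        gcongr
        rw [← ENNReal.ofReal_add (by positivity) (by positivity)]
        apply ENNReal.ofReal_le_ofReal
        obtain ⟨m, rfl⟩ : ∃ m, l = k + m := ⟨l - k, by omega⟩
        rw [Nat.add_sub_cancel_left]
        have h2k : (2 : ℝ) ^ k / 2 ^ (k + m) = 1 / 2 ^ m := by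
          rw [pow_add]
          field_simp
        have h4k : (4 : ℝ) ^ k / 4 ^ (k + m) ≤ 1 / 2 ^ m := by
          have h1 : (4 : ℝ) ^ k / 4 ^ (k + m) = 1 / 4 ^ m := by
            rw [pow_add]
            field_simp
          rw [h1]
          apply one_div_le_one_div_of_le (by positivity)
          exact pow_le_pow_left₀ (by norm_num) (by norm_num) m
        rw [h2k]
        have : (16 * C1 + 800) / (2 : ℝ) ^ m = 16 * C1 * (1 / 2 ^ m) + 800 * (1 / 2 ^ m) := by ring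
        rw [this]
        gcongr

end Emb
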