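/-
CHUNK NT2 (Chebyshev on multiplicative intervals; mass of the late frequencies).

`cheb_unit`: sum of Lambda(n)/n over a finite set of n in [x, 3x] is at most C:
it is <= psi(3x)/x <= 3 * const (Mathlib: Chebyshev.psi_le_const_mul_self; psi is the sum of
Lambda over n <= x).

`log_trick` : for a finite set N, a completely multiplicative f >= 0 such that
   sum_(d in D) Lambda(d) f(d) <= B for all finite D contained in fN(N) and in some [y, 3y],
   and a finite set A contained in fN(N) and in exp [u, u+1):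
   sum_(n in A) log n * f n <= B * sum over all divisors m of elements of A of f m.
 Proof: log n = sum_(d | n) Lambda(d), n = d m;
 for fixed m the d's satisfy e^u/m <= d < e^(u+1)/m, i.e. lie in an interval [y, 3y] (y = e^u/m,
 e < 3).

`late_mass`: T', T finite sets of primes, all with log p > 2^k.  Then
   sum_(n in fN(T' ∪ T), n not in fN(T'), floor(log n) = v) 1/n <= C / 2^k.
 Proof: such n is != 1, so log n > 2^k >= 1, v >= 1 and log n >= v; drop the condition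
 n not in fN(T') but keep n != 1. By the log trick
   v * sum 1/n <= sum (log n)/n <= C * sum_(m in fN(T'∪T), log m < v+1) 1/m
     <= C * prod_(p in T'∪T, log p < v+1) (1-1/p)^-1      (m only has prime factors p <= m)
     <= C' (v+1)/2^k        (`prod_between`).
-/
import Pool.Agent.Lib.Emb.NT1
import Pool.Agent.Lib.Emb.EulerAux

open MeasureTheory Complex
open scoped BigOperators ENNReal ArithmeticFunction.vonMangoldt

namespace Emb

theorem cheb_unit : ∃ C : ℝ, 0 < C ∧ ∀ x : ℝ, 0 < x → ∀ s : Finset ℕ,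
    (∀ n ∈ s, x ≤ n ∧ (n : ℝ) ≤ 3 * x) → ∑ n ∈ s, ArithmeticFunction.vonMangoldt n / n ≤ C := by
  have hlog4 : 0 < Real.log 4 := Real.log_pos (by norm_num)
  refine ⟨(Real.log 4 + 4) * 3, by positivity, fun x hx s hs => ?_⟩
  have h1 : ∑ n ∈ s, ArithmeticFunction.vonMangoldt n / n ≤
      ∑ n ∈ s, ArithmeticFunction.vonMangoldt n / x := by
    refine Finset.sum_le_sum fun n hn => ?_
    exact div_le_div_of_nonneg_left ArithmeticFunction.vonMangoldt_nonneg hx (hs n hn).1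
  have h2 : ∑ n ∈ s, ArithmeticFunction.vonMangoldt n ≤ Chebyshev.psi (3 * x) := by
    unfold Chebyshev.psi
    apply Finset.sum_le_sum_of_subset_of_nonneg
    · intro n hn
      obtain ⟨h3, h4⟩ := hs n hn
      have h5 : (0 : ℝ) < n := lt_of_lt_of_le hx h3
      rw [Finset.mem_Ioc]
      exact ⟨by exact_mod_cast h5, Nat.le_floor h4⟩
    · intro n _ _
      exact ArithmeticFunction.vonMangoldt_nonneg
  have h3 := Chebyshev.psi_le_const_mul_self (x := 3 * x) (by positivity)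
  rw [← Finset.sum_div] at h1
  refine h1.trans ?_
  rw [div_le_iff₀ hx]
  calc _ ≤ _ := h2
    _ ≤ _ := h3
    _ = _ := by ring

theorem log_trick (f : ℕ →* ℝ) (hf : ∀ n, 0 ≤ f n) (N : Finset ℕ) (B : ℝ)
    (hB : ∀ y : ℝ, 0 < y → ∀ D : Finset ℕ,
      (∀ d ∈ D, d ∈ Nat.factoredNumbers N ∧ y ≤ d ∧ (d : ℝ) ≤ 3 * y) →
      ∑ d ∈ D, ArithmeticFunction.vonMangoldt d * f d ≤ B)
    (u : ℝ) (A : Finset ℕ)
    (hA : ∀ n ∈ A, n ∈ Nat.factoredNumbers N ∧ u ≤ Real.log n ∧ Real.log n < u + 1) :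
    ∑ n ∈ A, Real.log n * f n ≤ B * ∑ m ∈ A.biUnion Nat.divisors, f m := by
  have hA0 : ∀ n ∈ A, n ≠ 0 := fun n hn => Nat.ne_zero_of_mem_factoredNumbers (hA n hn).1
  have h1 : ∀ n ∈ A, Real.log n * f n =
      ∑ m ∈ n.divisors, ArithmeticFunction.vonMangoldt (n / m) * f (n / m) * f m := by
    intro n hn
    rw [← ArithmeticFunction.vonMangoldt_sum, Finset.sum_mul]
    rw [← Nat.sum_div_divisors n (fun d => ArithmeticFunction.vonMangoldt d * f n)]
    refine Finset.sum_congr rfl fun m hm => ?_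
    have h2 : n / m * m = n := Nat.div_mul_cancel (Nat.dvd_of_mem_divisors hm)
    have h3 : f n = f (n / m) * f m := by
      rw [← map_mul, h2]
    rw [h3]
    ring
  rw [Finset.sum_congr rfl h1]
  have h2 : ∑ n ∈ A, ∑ m ∈ n.divisors, ArithmeticFunction.vonMangoldt (n / m) * f (n / m) * f m =
      ∑ m ∈ A.biUnion Nat.divisors, ∑ n ∈ A.filter (fun n => m ∣ n),
        ArithmeticFunction.vonMangoldt (n / m) * f (n / m) * f m := by
    apply Finset.sum_comm'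
    intro n m
    rw [Finset.mem_filter, Finset.mem_biUnion, Nat.mem_divisors]
    constructor
    · rintro ⟨h3, h4, h5⟩
      exact ⟨⟨h3, h4⟩, n, h3, Nat.mem_divisors.mpr ⟨h4, h5⟩⟩
    · rintro ⟨⟨h3, h4⟩, -⟩
      exact ⟨h3, h4, hA0 n h3⟩
  rw [h2, Finset.mul_sum]
  refine Finset.sum_le_sum fun m hm => ?_
  obtain ⟨n0, hn0, hm0⟩ := Finset.mem_biUnion.mp hm
  have hmpos : 0 < m := Nat.pos_of_mem_divisors hm0
  have hm' : (0 : ℝ) < m := by exact_mod_cast hmpos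
  rw [← Finset.sum_mul]
  apply mul_le_mul_of_nonneg_right _ (hf m)
  have hinj : Set.InjOn (fun n : ℕ => n / m) (A.filter (fun n => m ∣ n)) := by
    intro a ha b hb hab
    have ha' := (Finset.mem_filter.mp (Finset.mem_coe.mp ha)).2
    have hb' := (Finset.mem_filter.mp (Finset.mem_coe.mp hb)).2
    have hab' : a / m = b / m := hab
    rw [← Nat.div_mul_cancel ha', ← Nat.div_mul_cancel hb', hab']
  rw [← Finset.sum_image (f := fun d => ArithmeticFunction.vonMangoldt d * f d) hinj]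
  apply hB (Real.exp u / m) (by positivity)
  intro d hd
  obtain ⟨n, hn, rfl⟩ := Finset.mem_image.mp hd
  obtain ⟨hnA, hmn⟩ := Finset.mem_filter.mp hn
  obtain ⟨h3, h4, h5⟩ := hA n hnA
  have hn0' : (0 : ℝ) < n := by
    have := hA0 n hnA
    exact_mod_cast Nat.pos_of_ne_zero this
  have h6 : (((n / m : ℕ) : ℕ) : ℝ) = (n : ℝ) / m := Nat.cast_div hmn hm'.ne'
  have h7 : Real.exp u ≤ n := (Real.le_log_iff_exp_le hn0').mp h4
  have h8 : (n : ℝ) < Real.exp (u + 1) := (Real.log_lt_iff_lt_exp hn0').mp h5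
  have h9 : Real.exp (u + 1) ≤ 3 * Real.exp u := by
    rw [Real.exp_add]
    have := Real.exp_one_lt_d9
    have := Real.exp_pos u
    nlinarith
  refine ⟨Nat.mem_factoredNumbers_of_dvd h3 (Nat.div_dvd_of_dvd hmn), ?_, ?_⟩
  · rw [h6]
    exact div_le_div_of_nonneg_right h7 hm'.le
  · rw [h6, ← mul_div_assoc]
    exact div_le_div_of_nonneg_right (h8.le.trans h9) hm'.le

theorem prod_between : ∃ C : ℝ, 0 < C ∧ ∀ (k : ℕ) (w : ℝ) (N : Finset ℕ), (2 : ℝ) ^ k ≤ w →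
    (∀ p ∈ N, p.Prime ∧ (2 : ℝ) ^ k < Real.log p ∧ Real.log p < w) →
    ∏ p ∈ N, (1 - 1 / (p : ℝ))⁻¹ ≤ C * w / 2 ^ k := by
  obtain ⟨K, hK1, hK⟩ := mertens_pr
  have hK0 : 0 < K := by linarith
  refine ⟨2 * K ^ 2, by positivity, fun k w N hw hN => ?_⟩
  have h2k : (1 : ℝ) ≤ 2 ^ k := one_le_pow₀ (by norm_num)
  obtain ⟨n, hn1, hn2⟩ := exists_nat_pow_near (x := 2 * w) (y := 2) (by linarith) (by norm_num)
  have hkn : k + 1 < n + 1 := by
    have h1 : (2 : ℝ) ^ (k + 1) < 2 ^ (n + 1) := by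
      rw [pow_succ]
      linarith
    exact (pow_lt_pow_iff_right₀ (by norm_num)).mp h1
  have hsub : N ⊆ pr (n + 1) \ pr (k + 1) := by
    intro p hp
    obtain ⟨h1, h2, h3⟩ := hN p hp
    rw [Finset.mem_sdiff, mem_pr, mem_pr]
    refine ⟨⟨h1, by linarith⟩, ?_⟩
    rintro ⟨-, h4⟩
    rw [pow_succ] at h4
    linarith
  have hone : ∀ p : ℕ, p.Prime → 1 ≤ (1 - 1 / (p : ℝ))⁻¹ := by
    intro p hp
    have h1 := one_sub_inv_pos hp
    rw [one_le_inv₀ h1]
    have : (0 : ℝ) ≤ 1 / p := by positivity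
    linarith
  have h1 : ∏ p ∈ N, (1 - 1 / (p : ℝ))⁻¹ ≤ ∏ p ∈ pr (n + 1) \ pr (k + 1), (1 - 1 / (p : ℝ))⁻¹ := by
    rw [← Finset.prod_sdiff hsub]
    have h2 : 1 ≤ ∏ p ∈ (pr (n + 1) \ pr (k + 1)) \ N, (1 - 1 / (p : ℝ))⁻¹ := by
      have h3 : ∏ _p ∈ (pr (n + 1) \ pr (k + 1)) \ N, (1 : ℝ) ≤
          ∏ p ∈ (pr (n + 1) \ pr (k + 1)) \ N, (1 - 1 / (p : ℝ))⁻¹ := by
        apply Finset.prod_le_prod (fun _ _ => by norm_num)
        intro p hp
        exact hone p (pr_prime (Finset.mem_sdiff.mp (Finset.mem_sdiff.mp hp).1).1)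
      simpa using h3
    have h4 : 0 ≤ ∏ p ∈ N, (1 - 1 / (p : ℝ))⁻¹ := Finset.prod_nonneg fun p hp => by
      have := hone p (hN p hp).1
      linarith
    nlinarith
  have h2 := Finset.prod_sdiff (f := fun p : ℕ => (1 - 1 / (p : ℝ))⁻¹) (pr_mono hkn.le)
  have h3 := (hK (n + 1)).2
  have h4 := (hK (k + 1)).1
  have h5 : (0 : ℝ) < 2 ^ (k + 1) / K := by positivity
  set P := ∏ p ∈ pr (n + 1) \ pr (k + 1), (1 - 1 / (p : ℝ))⁻¹ with hP
  have hP0 : 0 ≤ P := Finset.prod_nonneg fun p hp => by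
    have := hone p (pr_prime (Finset.mem_sdiff.mp hp).1)
    linarith
  have h6 : P * (2 ^ (k + 1) / K) ≤ K * 2 ^ (n + 1) := by
    refine le_trans ?_ h3
    rw [← h2]
    exact mul_le_mul_of_nonneg_left h4 hP0
  refine h1.trans ?_
  rw [le_div_iff₀ (by positivity)]
  have h7 : P * 2 ^ (k + 1) ≤ K * 2 ^ (n + 1) * K := by
    rw [← mul_div_assoc, div_le_iff₀ hK0] at h6
    exact h6
  rw [pow_succ, pow_succ] at h7
  have h8 : P * 2 ^ k ≤ K ^ 2 * 2 ^ n := by nlinarith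
  calc _ ≤ _ := h8
    _ ≤ K ^ 2 * (2 * w) := by gcongr
    _ = _ := by ring

/-- A nontrivial product of primes with `log p > c` has `log > c`. -/
theorem exists_prime_le {N : Finset ℕ} {n : ℕ} (hn : n ∈ Nat.factoredNumbers N) (hn1 : n ≠ 1) :
    ∃ p ∈ N, p.Prime ∧ p ∣ n ∧ Real.log p ≤ Real.log n := by
  have hn0 := Nat.ne_zero_of_mem_factoredNumbers hn
  obtain ⟨p, hp, hpn⟩ := Nat.exists_prime_and_dvd hn1
  have h1 : p ∈ N := Nat.primeFactors_subset_of_mem_factoredNumbers hn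
    (Nat.mem_primeFactors.mpr ⟨hp, hpn, hn0⟩)
  refine ⟨p, h1, hp, hpn, ?_⟩
  apply Real.log_le_log (by exact_mod_cast hp.pos)
  exact_mod_cast Nat.le_of_dvd (Nat.pos_of_ne_zero hn0) hpn

/-- The finite real form of `late_mass`. -/
theorem late_real : ∃ C : ℝ, 0 < C ∧ ∀ (k : ℕ) (N : Finset ℕ),
    (∀ p ∈ N, p.Prime ∧ (2:ℝ) ^ k < Real.log p) → ∀ (v : ℝ) (A : Finset ℕ),
    (∀ n ∈ A, n ∈ Nat.factoredNumbers N ∧ n ≠ 1 ∧ v ≤ Real.log n ∧ Real.log n < v + 1) → 1 ≤ v →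
    ∑ n ∈ A, 1 / (n : ℝ) ≤ C / 2 ^ k := by
  obtain ⟨B, hB0, hB⟩ := cheb_unit
  obtain ⟨C, hC0, hC⟩ := prod_between
  refine ⟨2 * B * C, by positivity, fun k N hN v A hA hv => ?_⟩
  have h2k : (0 : ℝ) < 2 ^ k := by positivity
  rcases A.eq_empty_or_nonempty with rfl | ⟨n0, hn0⟩
  · rw [Finset.sum_empty]; positivity
  have hkv : (2 : ℝ) ^ k ≤ v + 1 := by
    obtain ⟨h1, h2, h3, h4⟩ := hA n0 hn0
    obtain ⟨p, hp1, hp2, hp3, hp4⟩ := exists_prime_le h1 h2
    have := (hN p hp1).2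
    linarith
  have h1 := log_trick recH (fun n => by rw [recH_apply]; positivity) N B
    (fun y hy D hD => by
      refine le_trans (le_of_eq ?_) (hB y hy D fun d hd => (hD d hd).2)
      refine Finset.sum_congr rfl fun d _ => ?_
      rw [recH_apply, mul_one_div])
    v A (fun n hn => ⟨(hA n hn).1, (hA n hn).2.2⟩)
  simp only [recH_apply] at h1
  have h2 : ∑ m ∈ A.biUnion Nat.divisors, 1 / (m : ℝ) ≤
      ∏ p ∈ N.filter (fun p : ℕ => Real.log p < v + 1), (1 - 1 / (p : ℝ))⁻¹ := by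
    apply sum_inv_le_euler
    · intro p hp
      exact (hN p (Finset.mem_filter.mp hp).1).1
    · intro m hm
      obtain ⟨n, hn, hmn⟩ := Finset.mem_biUnion.mp hm
      obtain ⟨h3, h4, h5, h6⟩ := hA n hn
      have h7 := Nat.mem_factoredNumbers_of_dvd h3 (Nat.dvd_of_mem_divisors hmn)
      rw [Nat.mem_factoredNumbers_iff_primeFactors_subset] at h7 ⊢
      refine ⟨h7.1, fun p hp => ?_⟩
      rw [Finset.mem_filter]
      refine ⟨h7.2 hp, ?_⟩
      have h8 := Nat.mem_primeFactors.mp hp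
      have h9 : p ∣ n := h8.2.1.trans (Nat.dvd_of_mem_divisors hmn)
      have h10 : Real.log p ≤ Real.log n := by
        apply Real.log_le_log (by exact_mod_cast h8.1.pos)
        exact_mod_cast Nat.le_of_dvd
          (Nat.pos_of_ne_zero (Nat.ne_zero_of_mem_factoredNumbers h3)) h9
      linarith
  have h3 := hC k (v + 1) (N.filter (fun p : ℕ => Real.log p < v + 1)) hkv (fun p hp => by
    obtain ⟨h4, h5⟩ := Finset.mem_filter.mp hp
    exact ⟨(hN p h4).1, (hN p h4).2, h5⟩)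
  have h4 : v * ∑ n ∈ A, 1 / (n : ℝ) ≤ ∑ n ∈ A, Real.log n * (1 / (n : ℝ)) := by
    rw [Finset.mul_sum]
    refine Finset.sum_le_sum fun n hn => ?_
    exact mul_le_mul_of_nonneg_right (hA n hn).2.2.1 (by positivity)
  have h5 : v * ∑ n ∈ A, 1 / (n : ℝ) ≤ v * (2 * B * C / 2 ^ k) := by
    calc _ ≤ _ := h4
      _ ≤ _ := h1
      _ ≤ B * (C * (v + 1) / 2 ^ k) := mul_le_mul_of_nonneg_left (h2.trans h3) hB0.le
      _ ≤ B * (C * (2 * v) / 2 ^ k) := by gcongr; linarith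
      _ = _ := by ring
  exact le_of_mul_le_mul_left h5 (by linarith)

theorem late_mass : ∃ C : ℝ, 0 < C ∧ ∀ (k : ℕ) (T' T : Finset ℕ),
    (∀ p ∈ T' ∪ T, p.Prime ∧ (2:ℝ) ^ k < Real.log p) →
    UM (cL T' T) xL (ENNReal.ofReal (C / 2 ^ k)) := by
  classical
  obtain ⟨C, hC0, hC⟩ := late_real
  refine ⟨C, hC0, fun k T' T hT v => ?_⟩
  set A : Finset ℕ := (Finset.range (⌊Real.exp (v + 1)⌋₊ + 1)).filter
    (fun n : ℕ => (n ∈ Nat.factoredNumbers (T' ∪ T) ∧ n ∉ Nat.factoredNumbers T') ∧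
      ⌊Real.log n⌋ = v) with hAdef
  have hA : ∀ n ∈ A, n ∈ Nat.factoredNumbers (T' ∪ T) ∧ n ≠ 1 ∧ (v : ℝ) ≤ Real.log n ∧
      Real.log n < v + 1 := by
    intro n hn
    obtain ⟨-, ⟨h1, h2⟩, h3⟩ := Finset.mem_filter.mp hn
    obtain ⟨h4, h5⟩ := Int.floor_eq_iff.mp h3
    refine ⟨h1, ?_, h4, h5⟩
    rintro rfl
    exact h2 ⟨one_ne_zero, by simp⟩
  have h1 : ∑' i, (if ⌊xL i⌋ = v then cL T' T i else 0) = ∑ n ∈ A, ENNReal.ofReal (1 / (n : ℝ)) := by
    rw [tsum_eq_sum (s := A)]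
    · refine Finset.sum_congr rfl fun n hn => ?_
      obtain ⟨-, h1, h3⟩ := Finset.mem_filter.mp hn
      have h3' : ⌊xL n⌋ = v := h3
      rw [if_pos h3', cL, if_pos h1]
    · intro n hn
      split_ifs with h2
      · rw [cL, if_neg]
        intro h3
        apply hn
        rw [hAdef, Finset.mem_filter]
        refine ⟨?_, h3, h2⟩
        have h4 : (0 : ℝ) < n := by
          exact_mod_cast Nat.pos_of_ne_zero (Nat.ne_zero_of_mem_factoredNumbers h3.1)
        have h5 := (Int.floor_eq_iff.mp h2).2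
        have h6 : (n : ℝ) < Real.exp (v + 1) := (Real.log_lt_iff_lt_exp h4).mp h5
        rw [Finset.mem_range]
        exact Nat.lt_succ_of_le (Nat.le_floor h6.le)
      · rfl
  rw [h1, ← ENNReal.ofReal_sum_of_nonneg (fun n _ => by positivity)]
  apply ENNReal.ofReal_le_ofReal
  rcases A.eq_empty_or_nonempty with h2 | ⟨n0, hn0⟩
  · rw [h2, Finset.sum_empty]; positivity
  · apply hC k (T' ∪ T) hT v A hA
    obtain ⟨h3, h4, h5, h6⟩ := hA n0 hn0
    obtain ⟨p, hp1, hp2, hp3, hp4⟩ := exists_prime_le h3 h4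
    have h7 := (hT p hp1).2
    have h8 : (1 : ℝ) ≤ 2 ^ k := one_le_pow₀ (by norm_num)
    have h9 : (0 : ℝ) < v := by linarith
    have h10 : (0 : ℤ) < v := by exact_mod_cast h9
    exact_mod_cast h10

end Emb
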