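/-
CHUNK NT3 (mass of the early frequencies).

`early_mass`: for the block T = blk l (primes with 2^(l-1) < log p <= 2^l):
   sum over pairs (n1,n2) != (1,1), n1,n2 in fN(T), floor(log n1 - log n2) = v, of
      (1/(n1 n2)) (1 + (log n1 - log n2)^2/4^l)   is  <= C/2^l.

Proof. Put delta = 1/2^(l+1). For p in T: p^delta <= exp(1/2), and p^delta/p <= exp(1/2)/2 < 1.
 (a) 1 + x^2 <= 8 exp(x/2) (x >= 0), with x = (log n1 + log n2)/2^l >= |xi|/2^l:
     1 + xi^2/4^l <= 8 (n1 n2)^delta.
 (b) S := sum_(n in fN(T)) n^(delta-1) = prod_(p in T) (1 - p^(delta-1))^-1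
        <= prod (1 - e^(1/2)/p)^-1 <= exp(C sum_(p in T) 1/p) <= C  (Mertens on a block, NT1).
 (c) log trick: for real u: sum_(n in fN(T), n != 1, u <= log n < u+1) log n * n^(delta-1)
       <= C * sum_(m in fN(T)) m^(delta-1) <= C S, because for fixed m
       sum_(d = p^a, p in T, d in [y, 3y]) d^delta Lambda(d)/d <= e^(1/2) * sum_(a=1) (cheb_unit)
       + sum_p log p sum_(a>=2) (e^(1/2)/p)^a ... <= C   (p^(a delta) <= e^(a/2)).
     And log n >= 2^(l-1) for n != 1 in fN(T). Hence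
       sum_(n in fN(T), n != 1, u <= log n < u+1) n^(delta-1) <= C/2^l  for every real u.
 (d) Pairs with n1 != 1: for fixed n2 the condition floor(log n1 - log n2) = v is
     log n1 in [v + log n2, v + 1 + log n2): sum <= n2^(delta-1) * C/2^l; sum over n2: <= S C/2^l.
     Pairs with n1 = 1 (then n2 != 1): floor(-log n2) = v, i.e. log n2 in (-v-1, -v]: covered by two
     intervals [u,u+1): <= 2C/2^l.
-/
import Pool.Agent.Lib.Emb.NT2

open MeasureTheory Complex
open scoped BigOperators ENNReal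

namespace Emb

/-- The map `n ↦ n^s` as a monoid homomorphism. -/
noncomputable def fH (s : ℝ) : ℕ →* ℝ where
  toFun n := (n : ℝ) ^ s
  map_one' := by simp
  map_mul' m n := by
    push_cast
    exact Real.mul_rpow (by positivity) (by positivity)

theorem fH_apply (s : ℝ) (n : ℕ) : fH s n = (n : ℝ) ^ s := rfl

theorem fH_nonneg (s : ℝ) (n : ℕ) : 0 ≤ fH s n := by
  rw [fH_apply]; positivity

theorem fH_lt_one {s : ℝ} (hs : s < 0) {p : ℕ} (hp : p.Prime) : fH s p < 1 := by
  rw [fH_apply]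
  exact Real.rpow_lt_one_of_one_lt_of_neg (by exact_mod_cast hp.one_lt) hs

/-- The exponent of level `l`. -/
noncomputable def dl (l : ℕ) : ℝ := 1 / 2 ^ (l + 1)

theorem dl_pos (l : ℕ) : 0 < dl l := by unfold dl; positivity

theorem dl_le (l : ℕ) : dl l ≤ 1 / 2 := by
  unfold dl
  apply one_div_le_one_div_of_le (by norm_num)
  calc (2 : ℝ) = 2 ^ 1 := by norm_num
    _ ≤ 2 ^ (l + 1) := pow_le_pow_right₀ (by norm_num) (by omega)

theorem mem_blkE {l p : ℕ} : p ∈ blk l ↔ p.Prime ∧ (2 : ℝ) ^ l / 2 < Real.log p ∧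
    Real.log p ≤ 2 ^ l := by
  unfold blk
  rw [Finset.mem_sdiff, mem_pr, mem_pr, pow_succ]
  constructor
  · rintro ⟨⟨h1, h2⟩, h3⟩
    refine ⟨h1, ?_, by linarith⟩
    by_contra h4
    push Not at h4
    exact h3 ⟨h1, by linarith⟩
  · rintro ⟨h1, h2, h3⟩
    refine ⟨⟨h1, by linarith⟩, ?_⟩
    rintro ⟨-, h4⟩
    linarith

theorem exp_half_lt : Real.exp (1 / 2) < 1.649 := by
  have h1 : Real.exp (1 / 2) ^ 2 = Real.exp 1 := by
    rw [← Real.exp_nat_mul]; norm_num
  have h2 := Real.exp_one_lt_d9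
  have h3 := Real.exp_pos (1 / 2 : ℝ)
  by_contra h4
  push Not at h4
  nlinarith

theorem fH_blk_le {l p : ℕ} (hp : p ∈ blk l) : fH (dl l - 1) p ≤ Real.exp (1 / 2) * (1 / p) := by
  obtain ⟨h1, -, h3⟩ := mem_blkE.mp hp
  have hp0 : (0 : ℝ) < p := by exact_mod_cast h1.pos
  rw [fH_apply, Real.rpow_sub hp0, Real.rpow_one, mul_one_div]
  apply div_le_div_of_nonneg_right _ hp0.le
  rw [Real.rpow_def_of_pos hp0]
  apply Real.exp_le_exp.mpr
  unfold dl
  rw [mul_one_div, div_le_iff₀ (by positivity), pow_succ]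
  linarith

theorem fH_blk_le' {l p : ℕ} (hp : p ∈ blk l) : fH (dl l - 1) p ≤ 0.8245 := by
  have h1 := fH_blk_le hp
  have h2 := inv_prime_le_half (mem_blkE.mp hp).1
  have h3 := exp_half_lt
  have h4 := Real.exp_pos (1 / 2 : ℝ)
  nlinarith

theorem euler_blk : ∃ S : ℝ, 0 < S ∧ ∀ l : ℕ,
    ∏ p ∈ blk l, (1 - fH (dl l - 1) p)⁻¹ ≤ S := by
  obtain ⟨K, hK0, hK⟩ := sum_inv_block
  refine ⟨Real.exp (10 * (Real.log 2 * 1 + K)), Real.exp_pos _, fun l => ?_⟩
  have h1 : ∀ p ∈ blk l, (1 - fH (dl l - 1) p)⁻¹ ≤ Real.exp (10 * (1 / (p : ℝ))) := by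
    intro p hp
    have h2 := fH_blk_le' hp
    have h3 := fH_blk_le hp
    have h4 := exp_half_lt
    have h5 := fH_nonneg (dl l - 1) p
    set u := fH (dl l - 1) p with hu
    have h6 : 0 < 1 - u := by linarith
    have h7 : (0 : ℝ) ≤ 1 / p := by positivity
    have h8 : (1 - u)⁻¹ ≤ Real.exp ((1 - u)⁻¹ - 1) := by
      have := Real.add_one_le_exp ((1 - u)⁻¹ - 1)
      linarith
    refine h8.trans (Real.exp_le_exp.mpr ?_)
    have h9 : (1 - u)⁻¹ - 1 = u / (1 - u) := by field_simp; ring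
    rw [h9, div_le_iff₀ h6]
    have h10 : u ≤ 1.649 * (1 / p) := h3.trans (mul_le_mul_of_nonneg_right h4.le h7)
    have h11 : 10 * (1 / (p : ℝ)) * (1 - 0.8245) ≤ 10 * (1 / (p : ℝ)) * (1 - u) :=
      mul_le_mul_of_nonneg_left (by linarith) (by positivity)
    linarith
  calc _ ≤ ∏ p ∈ blk l, Real.exp (10 * (1 / (p : ℝ))) := by
        apply Finset.prod_le_prod
        · intro p hp
          have := fH_blk_le' hp
          exact (inv_pos.mpr (by linarith)).le
        · exact h1
    _ = Real.exp (10 * ∑ p ∈ blk l, 1 / (p : ℝ)) := by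
        rw [← Real.exp_sum, Finset.mul_sum]
    _ ≤ _ := by
        apply Real.exp_le_exp.mpr
        have h2 := (hK l 1).2
        push_cast at h2
        have h3 : blk l = pr (l + 1) \ pr l := rfl
        rw [h3]
        linarith

theorem sum_log_sq_blk : ∃ K : ℝ, 0 < K ∧ ∀ l : ℕ, ∑ p ∈ blk l, Real.log p * (1 / (p : ℝ)) ^ 2 ≤ K := by
  obtain ⟨K, hK0, hK⟩ := sum_log_div
  refine ⟨4 * K, by positivity, fun l => ?_⟩
  have h2l : (0 : ℝ) < 2 ^ l := by positivity
  have h1 : ∀ p ∈ blk l, Real.log p * (1 / (p : ℝ)) ^ 2 ≤ 2 / 2 ^ l * (Real.log p / p) := by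
    intro p hp
    obtain ⟨h1, h2, h3⟩ := mem_blkE.mp hp
    have hp0 : (0 : ℝ) < p := by exact_mod_cast h1.pos
    have h4 : 0 ≤ Real.log p := Real.log_natCast_nonneg p
    have h5 : (2 : ℝ) ^ l / 2 ≤ p := by
      have := Real.log_le_sub_one_of_pos hp0
      linarith
    have h6 : 1 / (p : ℝ) ≤ 2 / 2 ^ l := by
      rw [div_le_div_iff₀ hp0 h2l]
      linarith
    have h7 : 0 ≤ Real.log p / p := by positivity
    calc Real.log p * (1 / (p : ℝ)) ^ 2 = 1 / (p : ℝ) * (Real.log p / p) := by ring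
      _ ≤ _ := mul_le_mul_of_nonneg_right h6 h7
  calc _ ≤ ∑ p ∈ blk l, 2 / 2 ^ l * (Real.log p / p) := Finset.sum_le_sum h1
    _ = 2 / 2 ^ l * ∑ p ∈ blk l, Real.log p / p := by rw [Finset.mul_sum]
    _ ≤ 2 / 2 ^ l * (K * 2 ^ (l + 1)) := by
      apply mul_le_mul_of_nonneg_left _ (by positivity)
      refine le_trans ?_ (hK (l + 1))
      apply Finset.sum_le_sum_of_subset_of_nonneg Finset.sdiff_subset
      intro p _ _
      have := Real.log_natCast_nonneg p
      positivity
    _ = 4 * K := by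
      rw [pow_succ]
      field_simp
      ring

/-- The hypothesis of the log trick for blocks. -/
theorem hB_blk : ∃ B : ℝ, 0 < B ∧ ∀ (l : ℕ) (y : ℝ), 0 < y → ∀ D : Finset ℕ,
      (∀ d ∈ D, d ∈ Nat.factoredNumbers (blk l) ∧ y ≤ d ∧ (d : ℝ) ≤ 3 * y) →
      ∑ d ∈ D, ArithmeticFunction.vonMangoldt d * fH (dl l - 1) d ≤ B := by
  classical
  obtain ⟨C, hC0, hC⟩ := cheb_unit
  obtain ⟨K, hK0, hK⟩ := sum_log_sq_blk
  refine ⟨2 * C + 20 * K, by positivity, fun l y hy D hD => ?_⟩
  rw [← Finset.sum_filter_add_sum_filter_not D Nat.Prime]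
  apply add_le_add
  · -- primes
    have h1 : ∀ d ∈ D.filter Nat.Prime, ArithmeticFunction.vonMangoldt d * fH (dl l - 1) d ≤
        2 * (ArithmeticFunction.vonMangoldt d / d) := by
      intro d hd
      obtain ⟨h1, h2⟩ := Finset.mem_filter.mp hd
      have h3 : d ∈ blk l := Nat.primeFactors_subset_of_mem_factoredNumbers (hD d h1).1
        (Nat.mem_primeFactors.mpr ⟨h2, dvd_rfl, h2.ne_zero⟩)
      have h4 := fH_blk_le h3
      have h5 := exp_half_lt
      have h6 : (0 : ℝ) ≤ 1 / d := by positivity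
      have h7 : fH (dl l - 1) d ≤ 2 * (1 / d) :=
        h4.trans (mul_le_mul_of_nonneg_right (by linarith) h6)
      calc _ ≤ ArithmeticFunction.vonMangoldt d * (2 * (1 / d)) :=
            mul_le_mul_of_nonneg_left h7 ArithmeticFunction.vonMangoldt_nonneg
        _ = _ := by ring
    calc _ ≤ ∑ d ∈ D.filter Nat.Prime, 2 * (ArithmeticFunction.vonMangoldt d / d) :=
          Finset.sum_le_sum h1
      _ = 2 * ∑ d ∈ D.filter Nat.Prime, ArithmeticFunction.vonMangoldt d / d := by
          rw [Finset.mul_sum]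
      _ ≤ 2 * C := by
          apply mul_le_mul_of_nonneg_left _ (by norm_num)
          exact hC y hy _ fun d hd => (hD d (Finset.mem_filter.mp hd).1).2
  · -- higher prime powers
    set D' := (D.filter (fun d => ¬ Nat.Prime d)).filter IsPrimePow with hD'
    have h0 : ∑ d ∈ D.filter (fun d => ¬ Nat.Prime d),
        ArithmeticFunction.vonMangoldt d * fH (dl l - 1) d =
        ∑ d ∈ D', ArithmeticFunction.vonMangoldt d * fH (dl l - 1) d := by
      rw [hD', Finset.sum_filter (p := IsPrimePow)]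
      refine Finset.sum_congr rfl fun d _ => ?_
      split_ifs with h
      · rfl
      · rw [ArithmeticFunction.vonMangoldt_eq_zero_iff.mpr h, zero_mul]
    rw [h0]
    have hmaps : ∀ d ∈ D', Nat.minFac d ∈ blk l := by
      intro d hd
      obtain ⟨h1, h2⟩ := Finset.mem_filter.mp hd
      obtain ⟨h3, h4⟩ := Finset.mem_filter.mp h1
      have h5 : d ≠ 1 := h2.ne_one
      have h6 := Nat.minFac_prime h5
      exact Nat.primeFactors_subset_of_mem_factoredNumbers (hD d h3).1
        (Nat.mem_primeFactors.mpr ⟨h6, Nat.minFac_dvd d,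
          Nat.ne_zero_of_mem_factoredNumbers (hD d h3).1⟩)
    rw [← Finset.sum_fiberwise_of_maps_to hmaps]
    have hfib : ∀ p ∈ blk l, ∑ d ∈ D'.filter (fun d => Nat.minFac d = p),
        ArithmeticFunction.vonMangoldt d * fH (dl l - 1) d ≤
        20 * (Real.log p * (1 / (p : ℝ)) ^ 2) := by
      intro p hp
      have hpp := (mem_blkE.mp hp).1
      obtain ⟨M, hM⟩ : ∃ M : ℕ, ∀ d ∈ D'.filter (fun d => Nat.minFac d = p), ∃ a ∈ Finset.range M,
          d = p ^ (a + 2) := by
        refine ⟨(D'.sup id) + 1, fun d hd => ?_⟩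
        obtain ⟨hd1, hd2⟩ := Finset.mem_filter.mp hd
        obtain ⟨h1, h2⟩ := Finset.mem_filter.mp hd1
        obtain ⟨h3, h4⟩ := Finset.mem_filter.mp h1
        obtain ⟨q, k, hq, hk, hqk⟩ := (isPrimePow_nat_iff d).mp h2
        have hqp : q = p := by
          rw [← hd2, ← hqk, Nat.Prime.pow_minFac hq hk.ne']
        subst hqp
        have hk1 : k ≠ 1 := by
          rintro rfl
          rw [pow_one] at hqk
          exact h4 (hqk ▸ hq)
        refine ⟨k - 2, ?_, ?_⟩
        · rw [Finset.mem_range]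
          have h5 : k < q ^ k := Nat.lt_pow_self hq.one_lt
          have h6 : d ≤ D'.sup id := Finset.le_sup (f := id) hd1
          omega
        · rw [show k - 2 + 2 = k by omega, hqk]
      have hsub : D'.filter (fun d => Nat.minFac d = p) ⊆
          (Finset.range M).image (fun a => p ^ (a + 2)) := by
        intro d hd
        obtain ⟨a, ha, had⟩ := hM d hd
        exact Finset.mem_image.mpr ⟨a, ha, had.symm⟩
      have hu0 := fH_nonneg (dl l - 1) p
      have hu1 := fH_blk_le' hp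
      have hu2 := fH_blk_le hp
      set u := fH (dl l - 1) p with hu
      have hlog : 0 ≤ Real.log p := Real.log_natCast_nonneg p
      calc _ ≤ ∑ d ∈ (Finset.range M).image (fun a => p ^ (a + 2)),
            ArithmeticFunction.vonMangoldt d * fH (dl l - 1) d := by
            apply Finset.sum_le_sum_of_subset_of_nonneg hsub
            intro d _ _
            exact mul_nonneg ArithmeticFunction.vonMangoldt_nonneg (fH_nonneg _ _)
        _ = ∑ a ∈ Finset.range M, Real.log p * u ^ (a + 2) := by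
            rw [Finset.sum_image]
            · refine Finset.sum_congr rfl fun a _ => ?_
              rw [ArithmeticFunction.vonMangoldt_apply_pow (by omega),
                ArithmeticFunction.vonMangoldt_apply_prime hpp, map_pow]
            · intro a _ b _ hab
              have := Nat.pow_right_injective hpp.two_le hab
              omega
        _ = Real.log p * u ^ 2 * ∑ a ∈ Finset.range M, u ^ a := by
            rw [Finset.mul_sum]
            refine Finset.sum_congr rfl fun a _ => ?_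
            ring
        _ ≤ Real.log p * u ^ 2 * 6 := by
            apply mul_le_mul_of_nonneg_left _ (by positivity)
            have h1 : ∑ a ∈ Finset.range M, u ^ a ≤ (1 - u)⁻¹ := by
              have h2 : u < 1 := by linarith
              rw [← tsum_geometric_of_lt_one hu0 h2]
              exact (summable_geometric_of_lt_one hu0 h2).sum_le_tsum _
                (fun a _ => pow_nonneg hu0 a)
            refine h1.trans ?_
            rw [inv_le_comm₀ (by linarith) (by norm_num)]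
            linarith
        _ ≤ Real.log p * (Real.exp (1 / 2) * (1 / (p : ℝ))) ^ 2 * 6 := by
            gcongr
        _ = (Real.exp (1 / 2) ^ 2 * 6) * (Real.log p * (1 / (p : ℝ)) ^ 2) := by ring
        _ ≤ 20 * (Real.log p * (1 / (p : ℝ)) ^ 2) := by
            apply mul_le_mul_of_nonneg_right _ (by positivity)
            have h3 := exp_half_lt
            have h4 := Real.exp_pos (1 / 2 : ℝ)
            nlinarith
    calc _ ≤ ∑ p ∈ blk l, 20 * (Real.log p * (1 / (p : ℝ)) ^ 2) := Finset.sum_le_sum hfib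
      _ = 20 * ∑ p ∈ blk l, Real.log p * (1 / (p : ℝ)) ^ 2 := by rw [Finset.mul_sum]
      _ ≤ 20 * K := mul_le_mul_of_nonneg_left (hK l) (by norm_num)

theorem dl_sub_one_neg (l : ℕ) : dl l - 1 < 0 := by
  have := dl_le l
  linarith

open Classical in
/-- Total mass of the twisted weights. -/
theorem total_blk : ∃ S : ℝ, 0 < S ∧ ∀ l : ℕ,
    ∑' n : ℕ, (if n ∈ Nat.factoredNumbers (blk l) then ENNReal.ofReal (fH (dl l - 1) n) else 0) ≤
      ENNReal.ofReal S := by
  obtain ⟨S, hS0, hS⟩ := euler_blk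
  refine ⟨S, hS0, fun l => ?_⟩
  rw [ENNReal.tsum_eq_iSup_sum]
  refine iSup_le fun s => ?_
  rw [← Finset.sum_filter, ← ENNReal.ofReal_sum_of_nonneg (fun n _ => fH_nonneg _ _)]
  apply ENNReal.ofReal_le_ofReal
  refine le_trans ?_ (hS l)
  apply sum_le_euler _ (fH_nonneg _) (fun p hp => fH_lt_one (dl_sub_one_neg l) hp) _
    (fun p hp => (mem_blkE.mp hp).1)
  intro m hm
  exact (Finset.mem_filter.mp hm).2

open Classical in
/-- Unit mass of the twisted weights. -/
theorem unit_blk : ∃ C : ℝ, 0 < C ∧ ∀ (l : ℕ) (u : ℝ),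
    ∑' n : ℕ, (if n ∈ Nat.factoredNumbers (blk l) ∧ n ≠ 1 ∧ u ≤ Real.log n ∧ Real.log n < u + 1
      then ENNReal.ofReal (fH (dl l - 1) n) else 0) ≤ ENNReal.ofReal (C / 2 ^ l) := by
  obtain ⟨S, hS0, hS⟩ := euler_blk
  obtain ⟨B, hB0, hB⟩ := hB_blk
  refine ⟨2 * B * S, by positivity, fun l u => ?_⟩
  have h2l : (0 : ℝ) < 2 ^ l := by positivity
  rw [ENNReal.tsum_eq_iSup_sum]
  refine iSup_le fun s => ?_
  rw [← Finset.sum_filter, ← ENNReal.ofReal_sum_of_nonneg (fun n _ => fH_nonneg _ _)]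
  apply ENNReal.ofReal_le_ofReal
  set A := s.filter (fun n : ℕ => n ∈ Nat.factoredNumbers (blk l) ∧ n ≠ 1 ∧ u ≤ Real.log n ∧
    Real.log n < u + 1) with hAdef
  have hA : ∀ n ∈ A, n ∈ Nat.factoredNumbers (blk l) ∧ n ≠ 1 ∧ u ≤ Real.log n ∧
      Real.log n < u + 1 := fun n hn => (Finset.mem_filter.mp hn).2
  have h1 := log_trick (fH (dl l - 1)) (fH_nonneg _) (blk l) B (hB l) u A
    (fun n hn => ⟨(hA n hn).1, (hA n hn).2.2⟩)
  have h2 : ∑ m ∈ A.biUnion Nat.divisors, fH (dl l - 1) m ≤ S := by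
    refine le_trans ?_ (hS l)
    apply sum_le_euler _ (fH_nonneg _) (fun p hp => fH_lt_one (dl_sub_one_neg l) hp) _
      (fun p hp => (mem_blkE.mp hp).1)
    intro m hm
    obtain ⟨n, hn, hmn⟩ := Finset.mem_biUnion.mp hm
    exact Nat.mem_factoredNumbers_of_dvd (hA n hn).1 (Nat.dvd_of_mem_divisors hmn)
  have h3 : 2 ^ l / 2 * ∑ n ∈ A, fH (dl l - 1) n ≤ ∑ n ∈ A, Real.log n * fH (dl l - 1) n := by
    rw [Finset.mul_sum]
    refine Finset.sum_le_sum fun n hn => ?_
    apply mul_le_mul_of_nonneg_right _ (fH_nonneg _ _)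
    obtain ⟨h4, h5, -⟩ := hA n hn
    obtain ⟨p, hp1, hp2, hp3, hp4⟩ := exists_prime_le h4 h5
    have := (mem_blkE.mp hp1).2.1
    linarith
  have h4 : 2 ^ l / 2 * ∑ n ∈ A, fH (dl l - 1) n ≤ B * S :=
    h3.trans (h1.trans (mul_le_mul_of_nonneg_left h2 hB0.le))
  rw [le_div_iff₀ h2l]
  linarith

theorem weight_le (l : ℕ) {m n : ℕ} (hm : m ≠ 0) (hn : n ≠ 0) :
    1 / ((m : ℝ) * n) * (1 + ((Real.log m - Real.log n) / 2 ^ l) ^ 2) ≤
      8 * (fH (dl l - 1) m * fH (dl l - 1) n) := by
  have hm0 : (0 : ℝ) < m := by exact_mod_cast Nat.pos_of_ne_zero hm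
  have hn0 : (0 : ℝ) < n := by exact_mod_cast Nat.pos_of_ne_zero hn
  have hlm : 0 ≤ Real.log m := Real.log_natCast_nonneg m
  have hln : 0 ≤ Real.log n := Real.log_natCast_nonneg n
  have h2l : (0 : ℝ) < 2 ^ l := by positivity
  rw [fH_apply, fH_apply, Real.rpow_sub hm0, Real.rpow_sub hn0, Real.rpow_one, Real.rpow_one]
  have h1 : (m : ℝ) ^ dl l * (n : ℝ) ^ dl l =
      Real.exp ((Real.log m + Real.log n) / 2 ^ l / 2) := by
    rw [Real.rpow_def_of_pos hm0, Real.rpow_def_of_pos hn0, ← Real.exp_add]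
    unfold dl
    rw [pow_succ]
    apply congrArg
    field_simp
  set x : ℝ := (Real.log m + Real.log n) / 2 ^ l with hx
  have hx0 : 0 ≤ x := by positivity
  have h2 : ((Real.log m - Real.log n) / 2 ^ l) ^ 2 ≤ x ^ 2 := by
    apply sq_le_sq'
    · rw [hx, ← neg_div]
      apply div_le_div_of_nonneg_right _ h2l.le
      linarith
    · rw [hx]
      apply div_le_div_of_nonneg_right _ h2l.le
      linarith
  have h3 := Real.quadratic_le_exp_of_nonneg (x := x / 2) (by positivity)
  have h4 : 1 + ((Real.log m - Real.log n) / 2 ^ l) ^ 2 ≤ 8 * Real.exp (x / 2) := by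
    nlinarith
  calc _ ≤ 1 / ((m : ℝ) * n) * (8 * Real.exp (x / 2)) :=
        mul_le_mul_of_nonneg_left h4 (by positivity)
    _ = 8 * ((m : ℝ) ^ dl l / m * ((n : ℝ) ^ dl l / n)) := by
        rw [← h1]
        field_simp

theorem early_mass : ∃ C : ℝ, 0 < C ∧ ∀ l : ℕ,
    UM (fun x => cE (blk l) x * ENNReal.ofReal (1 + (xE x / 2 ^ l) ^ 2)) xE
      (ENNReal.ofReal (C / 2 ^ l)) := by
  classical
  obtain ⟨S, hS0, hS⟩ := total_blk
  obtain ⟨C, hC0, hC⟩ := unit_blk
  refine ⟨8 * C * S + 16 * C, by positivity, fun l v => ?_⟩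
  have h2l : (0 : ℝ) < 2 ^ l := by positivity
  set f := fH (dl l - 1) with hf
  have hf0 : ∀ n, 0 ≤ f n := fH_nonneg _
  -- the three majorants
  set G : ℕ → ℕ → ℝ≥0∞ := fun n m =>
    if m ∈ Nat.factoredNumbers (blk l) ∧ m ≠ 1 ∧ (v + Real.log n) ≤ Real.log m ∧
      Real.log m < (v + Real.log n) + 1 then ENNReal.ofReal (f m) else 0 with hG
  set H : ℕ → ℝ≥0∞ := fun n =>
    if n ∈ Nat.factoredNumbers (blk l) then ENNReal.ofReal (f n) else 0 with hH
  set J : ℝ → ℕ → ℝ≥0∞ := fun u n =>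
    if n ∈ Nat.factoredNumbers (blk l) ∧ n ≠ 1 ∧ u ≤ Real.log n ∧ Real.log n < u + 1
      then ENNReal.ofReal (f n) else 0 with hJ
  have hterm : ∀ x : ℕ × ℕ, (if ⌊xE x⌋ = v then
      cE (blk l) x * ENNReal.ofReal (1 + (xE x / 2 ^ l) ^ 2) else 0) ≤
      8 * (G x.2 x.1 * H x.2) +
        (if x.1 = 1 then 8 * (J (-v - 1) x.2 + J (-v) x.2) else 0) := by
    rintro ⟨m, n⟩
    split_ifs with h1 h2 h2
    · -- `m = 1`
      simp only at h2
      subst h2
      by_cases h3 : (1 : ℕ) ∈ Nat.factoredNumbers (blk l) ∧ n ∈ Nat.factoredNumbers (blk l) ∧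
          ((1, n) : ℕ × ℕ) ≠ (1, 1)
      · have hn1 : n ≠ 1 := fun h => h3.2.2 (by rw [h])
        have hn0 := Nat.ne_zero_of_mem_factoredNumbers h3.2.1
        have h4 : cE (blk l) (1, n) * ENNReal.ofReal (1 + (xE (1, n) / 2 ^ l) ^ 2) ≤
            8 * ENNReal.ofReal (f n) := by
          rw [cE, if_pos h3, ← ENNReal.ofReal_mul (by positivity),
            show (8 : ℝ≥0∞) = ENNReal.ofReal 8 by norm_num, ← ENNReal.ofReal_mul (by norm_num)]
          apply ENNReal.ofReal_le_ofReal
          have h5 := weight_le l (m := 1) (n := n) one_ne_zero hn0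
          rw [map_one, one_mul] at h5
          exact h5
        have h5 : ENNReal.ofReal (f n) ≤ J (-v - 1) n + J (-v) n := by
          have h6 : ⌊-Real.log n⌋ = v := by
            have : xE (1, n) = -Real.log n := by
              simp [xE]
            rw [← this]; exact h1
          obtain ⟨h7, h8⟩ := Int.floor_eq_iff.mp h6
          rcases lt_or_ge (Real.log n) (-(v : ℝ)) with h9 | h9
          · have : J (-v - 1) n = ENNReal.ofReal (f n) := by
              rw [hJ]
              exact if_pos ⟨h3.2.1, hn1, by linarith, by linarith⟩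
            rw [this]
            exact le_self_add
          · have : J (-v) n = ENNReal.ofReal (f n) := by
              rw [hJ]
              exact if_pos ⟨h3.2.1, hn1, by linarith, by linarith⟩
            rw [this]
            exact le_add_self
        exact (h4.trans (mul_le_mul_right h5 8)).trans le_add_self
      · have h4 : cE (blk l) (1, n) = 0 := by
          rw [cE, if_neg h3]
        rw [h4, zero_mul]
        exact zero_le
    · -- `m ≠ 1`
      simp only at h2
      rw [add_zero]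
      by_cases h3 : m ∈ Nat.factoredNumbers (blk l) ∧ n ∈ Nat.factoredNumbers (blk l) ∧
          ((m, n) : ℕ × ℕ) ≠ (1, 1)
      · have hm0 := Nat.ne_zero_of_mem_factoredNumbers h3.1
        have hn0 := Nat.ne_zero_of_mem_factoredNumbers h3.2.1
        have h6 : ⌊Real.log m - Real.log n⌋ = v := h1
        obtain ⟨h7, h8⟩ := Int.floor_eq_iff.mp h6
        have h9 : G n m = ENNReal.ofReal (f m) := by
          rw [hG]
          exact if_pos ⟨h3.1, h2, by linarith, by linarith⟩
        have h10 : H n = ENNReal.ofReal (f n) := by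
          rw [hH]
          exact if_pos h3.2.1
        rw [cE, if_pos h3, h9, h10, ← ENNReal.ofReal_mul (by positivity),
          ← ENNReal.ofReal_mul (hf0 m),
          show (8 : ℝ≥0∞) = ENNReal.ofReal 8 by norm_num, ← ENNReal.ofReal_mul (by norm_num)]
        exact ENNReal.ofReal_le_ofReal (weight_le l hm0 hn0)
      · have h4 : cE (blk l) (m, n) = 0 := by
          rw [cE, if_neg h3]
        rw [h4, zero_mul]
        exact zero_le
    · exact zero_le
    · exact zero_le
  refine (ENNReal.tsum_le_tsum hterm).trans ?_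
  rw [ENNReal.tsum_add]
  have hC8 : ENNReal.ofReal ((8 * C * S + 16 * C) / 2 ^ l) =
      8 * (ENNReal.ofReal (C / 2 ^ l) * ENNReal.ofReal S) +
        8 * (ENNReal.ofReal (C / 2 ^ l) + ENNReal.ofReal (C / 2 ^ l)) := by
    rw [show (8 : ℝ≥0∞) = ENNReal.ofReal 8 by norm_num,
      ← ENNReal.ofReal_mul (by positivity), ← ENNReal.ofReal_mul (by norm_num),
      ← ENNReal.ofReal_add (by positivity) (by positivity), ← ENNReal.ofReal_mul (by norm_num),
      ← ENNReal.ofReal_add (by positivity) (by positivity)]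
    apply congrArg
    ring
  rw [hC8]
  apply add_le_add
  · rw [ENNReal.tsum_mul_left]
    apply mul_le_mul_right
    rw [ENNReal.tsum_prod', ENNReal.tsum_comm]
    calc ∑' n : ℕ, ∑' m : ℕ, G n m * H n = ∑' n : ℕ, (∑' m : ℕ, G n m) * H n := by
          refine tsum_congr fun n => ?_
          rw [ENNReal.tsum_mul_right]
      _ ≤ ∑' n : ℕ, ENNReal.ofReal (C / 2 ^ l) * H n := by
          refine ENNReal.tsum_le_tsum fun n => ?_
          exact mul_le_mul_left (hC l (v + Real.log n)) _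
      _ = ENNReal.ofReal (C / 2 ^ l) * ∑' n : ℕ, H n := ENNReal.tsum_mul_left
      _ ≤ _ := mul_le_mul_right (hS l) _
  · rw [ENNReal.tsum_prod', tsum_eq_single 1]
    · simp only [if_true]
      rw [ENNReal.tsum_mul_left, ENNReal.tsum_add]
      apply mul_le_mul_right
      exact add_le_add (hC l (-v - 1)) (hC l (-v))
    · intro m hm
      simp [hm]

end Emb
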