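/-
CHUNK KER (product kernels).

`kernel_m`: T finite set of primes. There are c(n1,n2) in [0, 1/(n1 n2)] supported on pairs of
integers composed of primes of T, summable, with
   prod_(p in T) int m_p(t) conj m_p(s) - 1 = sum_(x != (1,1)) c(x) e^(i (t-s)(log n1 - log n2)).
 Proof: induction on T: statement: there is c with c(1,1) = 1, 0 <= c(x) <= 1/(n1 n2) if both n_i are
 in fN(T), c(x) = 0 otherwise, and prod = sum c(x) e^(...).
 Step: (x, nu) -> (n1 p^(nu^+), n2 p^(nu^-)) is injective on (pairs over T) x Z when p is not in T;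
 new coefficient c(x) c_nu (m1_corr), bounded by 1/(n1 n2) p^-|nu|.
`kernel_k`: T', T disjoint finite sets of primes:
   prod_(T') R_p (prod_T R_p - 1) = sum_(n in fN(T' ∪ T), not in fN(T')) (1/n) e^(i (t-s) log n),
   R_p = (1 - p^-1 e^(i(t-s) log p))^-1: the version summable_and_hasSum_factoredNumbers of the Euler
   product with the completely multiplicative f(n) = n^-1 e^(i u log n), difference of the two sums.
-/
import Pool.Agent.Lib.Emb.OneB

open MeasureTheory Complex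
open scoped BigOperators ENNReal

namespace Emb

/-- The pairs of integers composed of primes of `T`. -/
def KG (T : Finset ℕ) : Type :=
  {x : ℕ × ℕ // x.1 ∈ Nat.factoredNumbers T ∧ x.2 ∈ Nat.factoredNumbers T}

/-- The new pair. -/
def kpsi (T : Finset ℕ) (p : ℕ) (z : KG T × ℤ) : ℕ × ℕ :=
  (p ^ z.2.toNat * z.1.1.1, p ^ (-z.2).toNat * z.1.1.2)

lemma kval {T : Finset ℕ} {p : ℕ} (hp : p.Prime) (hT : p ∉ T) {n : ℕ}
    (hn : n ∈ Nat.factoredNumbers T) (e : ℕ) : (p ^ e * n).factorization p = e := by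
  have h0 := hn.1
  have hc := hp.factoredNumbers_coprime hT hn
  have hd : ¬ p ∣ n := (hp.coprime_iff_not_dvd).1 hc
  rw [Nat.factorization_mul (pow_ne_zero e hp.ne_zero) h0, Finsupp.add_apply,
    hp.factorization_pow, Nat.factorization_eq_zero_of_not_dvd hd]
  simp

lemma kpsi_inj {T : Finset ℕ} {p : ℕ} (hp : p.Prime) (hT : p ∉ T) :
    Function.Injective (kpsi T p) := by
  rintro ⟨⟨x, hx1, hx2⟩, ν⟩ ⟨⟨y, hy1, hy2⟩, μ⟩ h
  have h1 : p ^ ν.toNat * x.1 = p ^ μ.toNat * y.1 := congrArg Prod.fst h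
  have h2 : p ^ (-ν).toNat * x.2 = p ^ (-μ).toNat * y.2 := congrArg Prod.snd h
  have e1 : ν.toNat = μ.toNat := by
    have := congrArg (fun n => n.factorization p) h1
    simpa only [kval hp hT hx1, kval hp hT hy1] using this
  have e2 : (-ν).toNat = (-μ).toNat := by
    have := congrArg (fun n => n.factorization p) h2
    simpa only [kval hp hT hx2, kval hp hT hy2] using this
  have e3 : ν = μ := by omega
  subst e3
  have hpe : ∀ e, 0 < p ^ e := fun e => pow_pos hp.pos e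
  have e4 : x.1 = y.1 := Nat.eq_of_mul_eq_mul_left (hpe _) h1
  have e5 : x.2 = y.2 := Nat.eq_of_mul_eq_mul_left (hpe _) h2
  have e6 : x = y := Prod.ext e4 e5
  subst e6
  rfl

/-- Coefficients of the product kernel. -/
structure KC (T : Finset ℕ) (F : ℝ → ℝ → ℂ) (c : ℕ × ℕ → ℝ) : Prop where
  nonneg : ∀ x, 0 ≤ c x
  one : c (1, 1) = 1
  summable : Summable c
  supp : ∀ x, c x ≠ 0 → x.1 ∈ Nat.factoredNumbers T ∧ x.2 ∈ Nat.factoredNumbers T
  bound : ∀ x, c x ≤ 1 / ((x.1 : ℝ) * x.2)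
  sum : ∀ t s : ℝ, F t s = ∑' x : ℕ × ℕ, (c x : ℂ) * Complex.exp ((((t - s) * xE x : ℝ) : ℂ) * I)

lemma kexp_norm (a : ℝ) : ‖Complex.exp ((a : ℂ) * I)‖ = 1 := Complex.norm_exp_ofReal_mul_I a

/-- The empty set. -/
lemma kc_empty : KC ∅ (fun _ _ => 1) (fun x => if x = (1, 1) then 1 else 0) := by
  refine ⟨?_, ?_, ?_, ?_, ?_, ?_⟩
  · intro x
    split_ifs <;> norm_num
  · simp
  · apply summable_of_ne_finset_zero (s := {(1, 1)})
    intro x hx
    simp only [Finset.mem_singleton] at hx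
    simp [hx]
  · intro x hx
    by_cases h : x = (1, 1)
    · subst h
      simp [Nat.factoredNumbers_empty]
    · simp [h] at hx
  · intro x
    by_cases h : x = (1, 1)
    · subst h
      simp
    · simp only [h, if_false]
      positivity
  · intro t s
    rw [tsum_eq_single (1, 1)]
    · simp [xE]
    · intro x hx
      simp [hx]

lemma xE_kpsi {T : Finset ℕ} {p : ℕ} (hp : p.Prime) (z : KG T × ℤ) :
    xE (kpsi T p z) = xE z.1.1 + z.2 * Real.log p := by
  obtain ⟨⟨x, hx1, hx2⟩, ν⟩ := z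
  have h1 : (x.1 : ℝ) ≠ 0 := Nat.cast_ne_zero.2 hx1.1
  have h2 : (x.2 : ℝ) ≠ 0 := Nat.cast_ne_zero.2 hx2.1
  have hp0 : (p : ℝ) ≠ 0 := Nat.cast_ne_zero.2 hp.ne_zero
  have e : (ν : ℝ) = (ν.toNat : ℝ) - ((-ν).toNat : ℝ) := by
    have : (ν : ℤ) = (ν.toNat : ℤ) - ((-ν).toNat : ℤ) := by omega
    exact_mod_cast this
  simp only [xE, kpsi]
  push_cast
  rw [Real.log_mul (pow_ne_zero _ hp0) h1, Real.log_mul (pow_ne_zero _ hp0) h2, Real.log_pow,
    Real.log_pow, e]
  ring

lemma summable_cp {p : ℕ} (hp : p.Prime) {cp : ℤ → ℝ} (h0 : ∀ ν, 0 ≤ cp ν)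
    (hb : ∀ ν, cp ν ≤ ((p : ℝ) ^ ν.natAbs)⁻¹) : Summable cp := by
  have hp1 : (1 : ℝ) < p := by exact_mod_cast hp.one_lt
  have hr1 : ((p : ℝ))⁻¹ < 1 := inv_lt_one_of_one_lt₀ hp1
  have hr0 : 0 ≤ ((p : ℝ))⁻¹ := by positivity
  have hg : Summable fun n : ℕ => ((p : ℝ) ^ n)⁻¹ := by
    have := summable_geometric_of_lt_one hr0 hr1
    simpa only [inv_pow] using this
  apply Summable.of_nonneg_of_le h0 hb
  rw [summable_int_iff_summable_nat_and_neg]
  constructor
  · simpa using hg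
  · simpa using hg

lemma one_mem_fac (T : Finset ℕ) : 1 ∈ Nat.factoredNumbers T := by
  rw [Nat.mem_factoredNumbers']
  intro p hp h
  exact absurd (Nat.dvd_one.1 h) hp.one_lt.ne'

lemma kc_step {T : Finset ℕ} {p : ℕ} (hp : p.Prime) (hT : p ∉ T) {F G : ℝ → ℝ → ℂ}
    {c : ℕ × ℕ → ℝ} (h : KC T F c) {cp : ℤ → ℝ} (h0 : ∀ ν, 0 ≤ cp ν) (h1 : cp 0 = 1)
    (hb : ∀ ν, cp ν ≤ ((p : ℝ) ^ ν.natAbs)⁻¹)
    (hG : ∀ t s : ℝ, G t s =
      ∑' ν : ℤ, (cp ν : ℂ) * Complex.exp (((ν * ((t - s) * Real.log p) : ℝ) : ℂ) * I)) :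
    ∃ c' : ℕ × ℕ → ℝ, KC (insert p T) (fun t s => G t s * F t s) c' := by
  classical
  have hinj := kpsi_inj hp hT
  have hval : Function.Injective (fun x : KG T => x.1) := Subtype.val_injective
  obtain ⟨E, hext, hnot⟩ : ∃ E : ℕ × ℕ → ℝ, (∀ z, E (kpsi T p z) = c z.1.1 * cp z.2) ∧
      ∀ x, x ∉ Set.range (kpsi T p) → E x = 0 :=
    ⟨Function.extend (kpsi T p) (fun z => c z.1.1 * cp z.2) 0,
      fun z => hinj.extend_apply _ _ z,
      fun x hx => Function.extend_apply' _ _ x (fun ⟨z, hz⟩ => hx ⟨z, hz⟩)⟩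
  have hscp := summable_cp hp h0 hb
  have hsc : Summable fun x : KG T => c x.1 := h.summable.comp_injective hval
  have hsf : Summable fun z : KG T × ℤ => c z.1.1 * cp z.2 :=
    hsc.mul_of_nonneg hscp (fun x => h.nonneg _) h0
  have hp0 : (0 : ℝ) < p := by exact_mod_cast hp.pos
  have hone : ((1, 1) : ℕ × ℕ) = kpsi T p (⟨(1, 1), one_mem_fac T, one_mem_fac T⟩, 0) := by
    simp [kpsi]
  refine ⟨E, ?_, ?_, ?_, ?_, ?_, ?_⟩
  · intro x
    by_cases hx : x ∈ Set.range (kpsi T p)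
    · obtain ⟨z, rfl⟩ := hx
      rw [hext]
      exact mul_nonneg (h.nonneg _) (h0 _)
    · rw [hnot x hx]
  · rw [hone, hext]
    show c (1, 1) * cp 0 = 1
    rw [h.one, h1, one_mul]
  · rw [← hinj.summable_iff (f := E) hnot]
    refine hsf.congr fun z => ?_
    exact (hext z).symm
  · intro x hx
    have hx' : x ∈ Set.range (kpsi T p) := by
      by_contra hh
      exact hx (hnot x hh)
    obtain ⟨z, rfl⟩ := hx'
    exact ⟨Nat.pow_mul_mem_factoredNumbers hp _ z.1.2.1,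
      Nat.pow_mul_mem_factoredNumbers hp _ z.1.2.2⟩
  · intro x
    by_cases hx : x ∈ Set.range (kpsi T p)
    · obtain ⟨z, rfl⟩ := hx
      rw [hext]
      obtain ⟨⟨x, hx1, hx2⟩, ν⟩ := z
      have b1 := h.bound x
      have b2 := hb ν
      have e : ((p : ℝ) ^ ν.natAbs) = (p : ℝ) ^ ν.toNat * (p : ℝ) ^ (-ν).toNat := by
        rw [← pow_add]
        congr 1
        omega
      have e1 : 1 / (((kpsi T p (⟨x, hx1, hx2⟩, ν)).1 : ℝ) * ((kpsi T p (⟨x, hx1, hx2⟩, ν)).2 : ℝ))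
          = 1 / ((x.1 : ℝ) * x.2) * ((p : ℝ) ^ ν.natAbs)⁻¹ := by
        rw [e]
        simp only [kpsi]
        push_cast
        rw [one_div, one_div, ← mul_inv]
        congr 1
        ring
      rw [e1]
      exact mul_le_mul b1 b2 (h0 _) (by positivity)
    · rw [hnot x hx]
      positivity
  · intro t s
    have hF : F t s = ∑' x : KG T, (c x.1 : ℂ) * Complex.exp ((((t - s) * xE x.1 : ℝ) : ℂ) * I) := by
      rw [h.sum t s]
      symm
      apply hval.tsum_eq (f := fun x : ℕ × ℕ =>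
        (c x : ℂ) * Complex.exp ((((t - s) * xE x : ℝ) : ℂ) * I))
      intro x hx
      have hc : c x ≠ 0 := by
        intro hc
        apply hx
        simp [hc]
      exact ⟨⟨x, h.supp x hc⟩, rfl⟩
    have hR : ∑' x : ℕ × ℕ, (E x : ℂ) *
          Complex.exp ((((t - s) * xE x : ℝ) : ℂ) * I)
        = ∑' z : KG T × ℤ, (E (kpsi T p z) : ℂ) *
          Complex.exp ((((t - s) * xE (kpsi T p z) : ℝ) : ℂ) * I) := by
      symm
      apply hinj.tsum_eq (f := fun x : ℕ × ℕ => (E x : ℂ) *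
          Complex.exp ((((t - s) * xE x : ℝ) : ℂ) * I))
      intro x hx
      by_contra hh
      apply hx
      simp [hnot x hh]
    rw [hR, hF, hG t s, mul_comm]
    rw [tsum_mul_tsum_of_summable_norm]
    · apply tsum_congr
      intro z
      rw [hext, xE_kpsi hp z]
      have e : ((((t - s) * (xE z.1.1 + z.2 * Real.log p) : ℝ) : ℂ) * I)
          = ((((t - s) * xE z.1.1 : ℝ) : ℂ) * I)
            + (((z.2 * ((t - s) * Real.log p) : ℝ) : ℂ) * I) := by
        push_cast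
        ring
      rw [e, Complex.exp_add]
      push_cast
      ring
    · refine hsc.congr fun x => ?_
      rw [norm_mul, kexp_norm, mul_one, Complex.norm_real, Real.norm_of_nonneg (h.nonneg _)]
    · refine hscp.congr fun ν => ?_
      rw [norm_mul, kexp_norm, mul_one, Complex.norm_real, Real.norm_of_nonneg (h0 _)]

lemma kc_all {b : ℝ} (hb0 : 0 ≤ b) (hb1 : b ≤ 1) (T : Finset ℕ) (hT : ∀ p ∈ T, p.Prime) :
    ∃ c : ℕ × ℕ → ℝ,
      KC T (fun t s => ∏ p ∈ T, ∫ x, m1 b p t x * (starRingEnd ℂ) (m1 b p s x) ∂haar1) c := by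
  classical
  induction T using Finset.induction with
  | empty =>
    refine ⟨fun x => if x = (1, 1) then 1 else 0, ?_⟩
    simp only [Finset.prod_empty]
    exact kc_empty
  | insert p T hpT ih =>
    obtain ⟨c, hc⟩ := ih fun q hq => hT q (Finset.mem_insert_of_mem hq)
    have hp := hT p (Finset.mem_insert_self p T)
    obtain ⟨cp, h0, h1, h2, h3⟩ := m1_corr hb0 hb1 hp
    obtain ⟨c', hc'⟩ := kc_step hp hpT hc h0 h1 h2 h3
    refine ⟨c', ?_⟩
    simp only [Finset.prod_insert hpT]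
    exact hc'

theorem kernel_m {b : ℝ} (hb0 : 0 ≤ b) (hb1 : b ≤ 1) (T : Finset ℕ) (hT : ∀ p ∈ T, p.Prime) :
    ∃ c : ℕ × ℕ → ℝ, (∀ x, 0 ≤ c x) ∧ Summable c ∧ (∀ x, ENNReal.ofReal (c x) ≤ cE T x) ∧
      ∀ t s : ℝ, (∏ p ∈ T, ∫ x, m1 b p t x * (starRingEnd ℂ) (m1 b p s x) ∂haar1) - 1 =
        ∑' x : ℕ × ℕ, (c x : ℂ) * Complex.exp ((((t - s) * xE x : ℝ) : ℂ) * I) := by
  classical
  obtain ⟨c, hc⟩ := kc_all hb0 hb1 T hT
  have hle : ∀ x, (if x = (1, 1) then 0 else c x) ≤ c x := by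
    intro x
    split_ifs
    · exact hc.nonneg x
    · exact le_rfl
  have hnn : ∀ x, 0 ≤ (if x = (1, 1) then 0 else c x) := by
    intro x
    split_ifs
    · exact le_rfl
    · exact hc.nonneg x
  refine ⟨fun x => if x = (1, 1) then 0 else c x, hnn, ?_, ?_, ?_⟩
  · exact Summable.of_nonneg_of_le hnn hle hc.summable
  · intro x
    by_cases hx : x = (1, 1)
    · simp [hx]
    by_cases hcx : c x = 0
    · simp [hcx]
    · have hs := hc.supp x hcx
      simp only [hx, if_false]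
      unfold cE
      rw [if_pos ⟨hs.1, hs.2, hx⟩]
      exact ENNReal.ofReal_le_ofReal (hc.bound x)
  · intro t s
    have hsum := hc.sum t s
    rw [hsum]
    have hS : Summable fun x : ℕ × ℕ =>
        (c x : ℂ) * Complex.exp ((((t - s) * xE x : ℝ) : ℂ) * I) := by
      apply Summable.of_norm
      refine hc.summable.congr fun x => ?_
      rw [norm_mul, kexp_norm, mul_one, Complex.norm_real, Real.norm_of_nonneg (hc.nonneg _)]
    rw [hS.tsum_eq_add_tsum_ite (1, 1)]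
    have e : (c (1, 1) : ℂ) * Complex.exp ((((t - s) * xE (1, 1) : ℝ) : ℂ) * I) = 1 := by
      rw [hc.one]
      simp [xE]
    rw [e, add_sub_cancel_left]
    apply tsum_congr
    intro x
    by_cases hx : x = (1, 1)
    · simp [hx]
    · simp [hx]

/-! ### The kernel of `k` -/

/-- The completely multiplicative function `n ↦ n^-1 e^(i u log n)`. -/
noncomputable def kf (u : ℝ) : ℕ →* ℂ where
  toFun n := (((n : ℝ)⁻¹ : ℝ) : ℂ) * Complex.exp (((u * Real.log n : ℝ) : ℂ) * I)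
  map_one' := by simp
  map_mul' m n := by
    rcases eq_or_ne m 0 with rfl | hm
    · simp
    rcases eq_or_ne n 0 with rfl | hn
    · simp
    have h1 : (m : ℝ) ≠ 0 := Nat.cast_ne_zero.2 hm
    have h2 : (n : ℝ) ≠ 0 := Nat.cast_ne_zero.2 hn
    have e : (((u * Real.log ((m * n : ℕ) : ℝ) : ℝ) : ℂ) * I)
        = (((u * Real.log m : ℝ) : ℂ) * I) + (((u * Real.log n : ℝ) : ℂ) * I) := by
      rw [Nat.cast_mul, Real.log_mul h1 h2]
      push_cast
      ring
    rw [e, Complex.exp_add]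
    push_cast
    rw [mul_inv]
    ring

lemma kf_apply (u : ℝ) (n : ℕ) :
    kf u n = (((n : ℝ)⁻¹ : ℝ) : ℂ) * Complex.exp (((u * Real.log n : ℝ) : ℂ) * I) := rfl

lemma kf_norm (u : ℝ) (n : ℕ) : ‖kf u n‖ = (n : ℝ)⁻¹ := by
  rw [kf_apply, norm_mul, kexp_norm, mul_one, Complex.norm_real,
    Real.norm_of_nonneg (by positivity)]

lemma kf_prod (u : ℝ) (T : Finset ℕ) (hT : ∀ p ∈ T, p.Prime) :
    Summable (fun m : Nat.factoredNumbers T => ‖kf u m‖) ∧
      HasSum (fun m : Nat.factoredNumbers T => kf u m) (∏ p ∈ T, (1 - kf u p)⁻¹) := by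
  have h := EulerProduct.summable_and_hasSum_factoredNumbers_prod_filter_prime_geometric
    (f := kf u) (fun {p} hp => by
      rw [kf_norm]
      have hp1 : (1 : ℝ) < p := by exact_mod_cast hp.one_lt
      exact inv_lt_one_of_one_lt₀ hp1) T
  rwa [Finset.filter_true_of_mem hT] at h

theorem kernel_k (T' T : Finset ℕ) (hT : ∀ p ∈ T' ∪ T, p.Prime) (hd : Disjoint T' T) :
    (Summable fun n : ℕ => (cL T' T n).toReal) ∧
      ∀ t s : ℝ, (∏ p ∈ T', ∫ x, k1 p t x * (starRingEnd ℂ) (k1 p s x) ∂haar1) *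
        ((∏ p ∈ T, ∫ x, k1 p t x * (starRingEnd ℂ) (k1 p s x) ∂haar1) - 1) =
        ∑' n : ℕ, (((cL T' T n).toReal : ℝ) : ℂ) *
          Complex.exp ((((t - s) * xL n : ℝ) : ℂ) * I) := by
  classical
  have hT1 : ∀ p ∈ T', p.Prime := fun p hp => hT p (Finset.mem_union_left _ hp)
  have hT2 : ∀ p ∈ T, p.Prime := fun p hp => hT p (Finset.mem_union_right _ hp)
  have hsub : Nat.factoredNumbers T' ⊆ Nat.factoredNumbers (T' ∪ T) :=
    Nat.factoredNumbers_mono Finset.subset_union_left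
  have hcL : ∀ n, (cL T' T n).toReal = (if n ∈ Nat.factoredNumbers (T' ∪ T) then (n : ℝ)⁻¹ else 0)
      - (if n ∈ Nat.factoredNumbers T' then (n : ℝ)⁻¹ else 0) := by
    intro n
    unfold cL
    by_cases h1 : n ∈ Nat.factoredNumbers T'
    · have h2 := hsub h1
      simp [h1, h2]
    · by_cases h2 : n ∈ Nat.factoredNumbers (T' ∪ T)
      · rw [if_pos ⟨h2, h1⟩, if_pos h2, if_neg h1, sub_zero, one_div,
          ENNReal.toReal_ofReal (by positivity)]
      · simp [h1, h2]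
  have hA : ∀ (S : Finset ℕ), (∀ p ∈ S, p.Prime) →
      (Summable fun n : ℕ => if n ∈ Nat.factoredNumbers S then (n : ℝ)⁻¹ else 0) ∧
      ∀ u : ℝ, HasSum (fun n : ℕ => (((if n ∈ Nat.factoredNumbers S then (n : ℝ)⁻¹ else 0 : ℝ)) : ℂ) *
        Complex.exp (((u * Real.log n : ℝ) : ℂ) * I)) (∏ p ∈ S, (1 - kf u p)⁻¹) := by
    intro S hS
    constructor
    · have h := (kf_prod 0 S hS).1
      simp only [kf_norm] at h
      have h2 := (summable_subtype_iff_indicator
        (f := fun n : ℕ => (n : ℝ)⁻¹) (s := Nat.factoredNumbers S)).1 h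
      refine h2.congr fun n => ?_
      rw [Set.indicator_apply]
    · intro u
      have h := (kf_prod u S hS).2
      have h2 := (hasSum_subtype_iff_indicator
        (f := fun n : ℕ => kf u n) (s := Nat.factoredNumbers S)).1 h
      have e : (fun n : ℕ => (((if n ∈ Nat.factoredNumbers S then (n : ℝ)⁻¹ else 0 : ℝ)) : ℂ) *
          Complex.exp (((u * Real.log n : ℝ) : ℂ) * I))
          = Set.indicator (Nat.factoredNumbers S) (fun n : ℕ => kf u n) := by
        funext n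
        rw [Set.indicator_apply]
        split_ifs
        · rw [kf_apply]
        · simp
      rw [e]
      exact h2
  refine ⟨?_, ?_⟩
  · refine ((hA (T' ∪ T) hT).1.sub (hA T' hT1).1).congr fun n => ?_
    rw [hcL]
  · intro t s
    have e1 : ∀ p : ℕ, p.Prime → ∫ x, k1 p t x * (starRingEnd ℂ) (k1 p s x) ∂haar1
        = (1 - kf (t - s) p)⁻¹ := by
      intro p hp
      rw [k1_corr hp, kf_apply]
    rw [Finset.prod_congr rfl (fun p hp => e1 p (hT1 p hp)),
      Finset.prod_congr rfl (fun p hp => e1 p (hT2 p hp)), mul_sub, mul_one,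
      ← Finset.prod_union hd]
    have h1 := (hA (T' ∪ T) hT).2 (t - s)
    have h2 := (hA T' hT1).2 (t - s)
    have h3 := h1.sub h2
    rw [← h3.tsum_eq]
    apply tsum_congr
    intro n
    rw [hcL]
    simp only [xL]
    push_cast
    ring

end Emb
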