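/-
CHUNK SM (second moments of the block integrals; Parseval without Fourier series on the torus).

`sm_early`: T finite set of primes, phi bounded measurable:
   E | int_0^1 phi(t) (prod_(p in T) m_p(t) - 1) dt |^2 <= sum_x cE T x |hat phi(xE x)|^2.
`sm_late`: T', T disjoint:
   E | int_0^1 phi(t) K_T'(t) (K_T(t) - 1) dt |^2 <= sum_n cL T' T n |hat phi(log n)|^2.
(phi is bounded on [0,1); replace it by its product with the indicator of [0,1).)
Proof. |int phi B|^2 = int int phi(t) conj phi(s) B(t) conj B(s) dt ds (Fubini on the bounded functions),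
 E B(t) conj B(s): with B = prod m_p - 1: E[(prod m_p(t) - 1) conj(prod m_p(s) - 1)]
   = prod E[m_p(t) conj m_p(s)] - 1 (integral_prod_mu, E m_p = 1);
 for the late case B = K_T' (K_T - 1): = prod_T' R (prod_T R - 1) (T', T disjoint, E k_p = 1).
 Insert kernel_m / kernel_k and exchange sum and integral (absolutely summable, phi bounded):
   int int phi(t) conj phi(s) e^(i(t-s) xi) dt ds = |hat phi(xi)|^2.
 The left side as a lintegral of enorm^2 equals ofReal of the Bochner integral of norm^2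
 (the integrand is continuous/bounded in omega). Only <= is claimed.
-/
import Pool.Agent.Lib.Emb.Ker
import Pool.Agent.Lib.Emb.ElB

open MeasureTheory Complex
open scoped BigOperators ENNReal

namespace Emb

/-- The phase `e^{itξ}`. -/
noncomputable def smE (ξ t : ℝ) : ℂ := Complex.exp (((t * ξ : ℝ) : ℂ) * I)

theorem smE_norm (ξ t : ℝ) : ‖smE ξ t‖ = 1 := by
  unfold smE
  exact Complex.norm_exp_ofReal_mul_I _

theorem smE_cont (ξ : ℝ) : Continuous (smE ξ) := by
  unfold smE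
  fun_prop

theorem smE_mul_conj (ξ t s : ℝ) :
    smE ξ t * (starRingEnd ℂ) (smE ξ s) = Complex.exp ((((t - s) * ξ : ℝ) : ℂ) * I) := by
  unfold smE
  rw [← Complex.exp_conj, ← Complex.exp_add]
  congr 1
  simp only [map_mul, Complex.conj_ofReal, Complex.conj_I]
  push_cast
  ring

/-- General second moment formula. -/
theorem sm_general {ι : Type} [Countable ι] (φ : ℝ → ℂ) (hφ : Measurable φ)
    (hb : ∃ B : ℝ, ∀ t ∈ Set.Ico (0:ℝ) 1, ‖φ t‖ ≤ B)
    (G : ℝ → Om → ℂ) (hG : Continuous fun z : ℝ × Om => G z.1 z.2)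
    (c : ι → ℝ) (hc0 : ∀ i, 0 ≤ c i) (hcs : Summable c) (ξ : ι → ℝ)
    (hK : ∀ t s : ℝ, ∫ ω, G t ω * (starRingEnd ℂ) (G s ω) ∂mu =
      ∑' i, (c i : ℂ) * Complex.exp ((((t - s) * ξ i : ℝ) : ℂ) * I)) :
    ∫⁻ ω, ‖∫ t in (0:ℝ)..1, φ t * G t ω‖ₑ ^ 2 ∂mu =
      ∑' i, ENNReal.ofReal (c i) * ‖hat φ (ξ i)‖ₑ ^ 2 := by
  classical
  obtain ⟨B, hB⟩ := hb
  set ν : Measure ℝ := volume.restrict (Set.Ico (0:ℝ) 1) with hν
  have : IsFiniteMeasure ν := by
    rw [hν]; infer_instance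
  set ψ : ℝ → ℂ := (Set.Ico (0:ℝ) 1).indicator φ with hψ
  have hψm : Measurable ψ := hφ.indicator measurableSet_Ico
  have hB0 : 0 ≤ B := le_trans (norm_nonneg _) (hB 0 (by simp))
  have hψB : ∀ t, ‖ψ t‖ ≤ B := by
    intro t
    by_cases ht : t ∈ Set.Ico (0:ℝ) 1
    · rw [hψ, Set.indicator_of_mem ht]; exact hB t ht
    · rw [hψ, Set.indicator_of_notMem ht]; simpa using hB0
  -- rewriting interval integrals
  have hint : ∀ g : ℝ → ℂ, ∫ t in (0:ℝ)..1, φ t * g t = ∫ t, ψ t * g t ∂ν := by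
    intro g
    rw [intervalIntegral.integral_of_le zero_le_one, ← integral_Ico_eq_integral_Ioc, hν]
    refine setIntegral_congr_fun measurableSet_Ico ?_
    intro t ht
    simp only [hψ, Set.indicator_of_mem ht]
  -- bound of G on the compact set
  obtain ⟨M, hM⟩ : ∃ M : ℝ, ∀ t ∈ Set.Icc (0:ℝ) 1, ∀ ω, ‖G t ω‖ ≤ M := by
    have hcomp : IsCompact (Set.Icc (0:ℝ) 1 ×ˢ (Set.univ : Set Om)) :=
      isCompact_Icc.prod isCompact_univ
    obtain ⟨M, hM⟩ := hcomp.exists_bound_of_continuousOn hG.continuousOn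
    exact ⟨M, fun t ht ω => hM (t, ω) ⟨ht, Set.mem_univ _⟩⟩
  have hM0 : 0 ≤ M := le_trans (norm_nonneg _) (hM 0 (by simp) (fun _ => 0))
  set f : ℝ → Om → ℂ := fun t ω => ψ t * G t ω with hf
  have hfB : ∀ t ω, ‖f t ω‖ ≤ B * M := by
    intro t ω
    by_cases ht : t ∈ Set.Ico (0:ℝ) 1
    · rw [hf]; simp only [norm_mul]
      exact mul_le_mul (hψB t) (hM t ⟨ht.1, ht.2.le⟩ ω) (norm_nonneg _) hB0
    · have : f t ω = 0 := by
        simp only [hf, hψ, Set.indicator_of_notMem ht, zero_mul]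
      rw [this, norm_zero]
      exact mul_nonneg hB0 hM0
  have hfm : Measurable fun z : ℝ × Om => f z.1 z.2 := by
    have h1 : Measurable fun z : ℝ × Om => ψ z.1 := hψm.comp measurable_fst
    exact h1.mul hG.measurable
  have hBM : 0 ≤ B * M := mul_nonneg hB0 hM0
  -- the function on the product space
  set H : ℝ × ℝ → Om → ℂ := fun z ω => f z.1 ω * (starRingEnd ℂ) (f z.2 ω) with hH
  have hHm : Measurable (Function.uncurry H) := by
    have h1 : Measurable fun p : (ℝ × ℝ) × Om => f p.1.1 p.2 :=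
      hfm.comp ((measurable_fst.comp measurable_fst).prodMk measurable_snd)
    have h2 : Measurable fun p : (ℝ × ℝ) × Om => f p.1.2 p.2 :=
      hfm.comp ((measurable_snd.comp measurable_fst).prodMk measurable_snd)
    exact h1.mul (Complex.continuous_conj.measurable.comp h2)
  have hHB : ∀ z ω, ‖H z ω‖ ≤ (B * M) * (B * M) := by
    intro z ω
    simp only [hH, norm_mul, RCLike.norm_conj]
    exact mul_le_mul (hfB _ _) (hfB _ _) (norm_nonneg _) hBM
  have hHi : Integrable (Function.uncurry H) ((ν.prod ν).prod mu) := by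
    refine Integrable.of_bound hHm.aestronglyMeasurable ((B * M) * (B * M)) ?_
    exact Filter.Eventually.of_forall fun p => hHB p.1 p.2
  have hswap := integral_integral_swap hHi
  -- left side: for each ω
  have hX : ∀ ω, ∫ z, H z ω ∂(ν.prod ν) =
      (∫ t, f t ω ∂ν) * (starRingEnd ℂ) (∫ t, f t ω ∂ν) := by
    intro ω
    have h1 := integral_prod_mul (μ := ν) (ν := ν) (fun t => f t ω)
      (fun s => (starRingEnd ℂ) (f s ω))
    simp only [hH]
    rw [h1, integral_conj]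
  have hXn : ∀ ω, ∫ z, H z ω ∂(ν.prod ν) = ((‖∫ t, f t ω ∂ν‖ ^ 2 : ℝ) : ℂ) := by
    intro ω
    rw [hX, Complex.mul_conj, Complex.normSq_eq_norm_sq]
  -- right side: for each z
  have hR : ∀ z : ℝ × ℝ, ∫ ω, H z ω ∂mu =
      ∑' i, (c i : ℂ) * ((ψ z.1 * smE (ξ i) z.1) *
        (starRingEnd ℂ) (ψ z.2 * smE (ξ i) z.2)) := by
    intro z
    have h1 : ∀ ω, H z ω = (ψ z.1 * (starRingEnd ℂ) (ψ z.2)) *
        (G z.1 ω * (starRingEnd ℂ) (G z.2 ω)) := by
      intro ω
      simp only [hH, hf, map_mul]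
      ring
    simp_rw [h1]
    rw [integral_const_mul, hK, ← tsum_mul_left]
    refine tsum_congr fun i => ?_
    rw [← smE_mul_conj, map_mul]
    ring
  -- sum and integral
  have hFi : ∀ i, Integrable (fun z : ℝ × ℝ => (c i : ℂ) * ((ψ z.1 * smE (ξ i) z.1) *
        (starRingEnd ℂ) (ψ z.2 * smE (ξ i) z.2))) (ν.prod ν) := by
    intro i
    have hm1 : Measurable fun t => ψ t * smE (ξ i) t := hψm.mul (smE_cont _).measurable
    have hm : Measurable (fun z : ℝ × ℝ => (c i : ℂ) * ((ψ z.1 * smE (ξ i) z.1) *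
        (starRingEnd ℂ) (ψ z.2 * smE (ξ i) z.2))) :=
      ((hm1.comp measurable_fst).mul
        (Complex.continuous_conj.measurable.comp (hm1.comp measurable_snd))).const_mul _
    refine Integrable.of_bound hm.aestronglyMeasurable (c i * (B * B)) ?_
    refine Filter.Eventually.of_forall fun z => ?_
    simp only [norm_mul, RCLike.norm_conj, smE_norm, mul_one, Complex.norm_real, Real.norm_eq_abs,
      abs_of_nonneg (hc0 i)]
    exact mul_le_mul_of_nonneg_left
      (mul_le_mul (hψB _) (hψB _) (norm_nonneg _) hB0) (hc0 i)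
  have hFs : Summable fun i => ∫ z : ℝ × ℝ, ‖(c i : ℂ) * ((ψ z.1 * smE (ξ i) z.1) *
        (starRingEnd ℂ) (ψ z.2 * smE (ξ i) z.2))‖ ∂(ν.prod ν) := by
    refine Summable.of_nonneg_of_le (fun i => integral_nonneg fun z => norm_nonneg _) ?_
      (hcs.mul_right ((B * B) * (ν.prod ν).real Set.univ))
    intro i
    have h2 : ∫ z : ℝ × ℝ, ‖(c i : ℂ) * ((ψ z.1 * smE (ξ i) z.1) *
        (starRingEnd ℂ) (ψ z.2 * smE (ξ i) z.2))‖ ∂(ν.prod ν) ≤
        ∫ z : ℝ × ℝ, (c i * (B * B)) ∂(ν.prod ν) := by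
      refine integral_mono (hFi i).norm (integrable_const _) ?_
      intro z
      simp only [norm_mul, RCLike.norm_conj, smE_norm, mul_one, Complex.norm_real,
        Real.norm_eq_abs, abs_of_nonneg (hc0 i)]
      exact mul_le_mul_of_nonneg_left
        (mul_le_mul (hψB _) (hψB _) (norm_nonneg _) hB0) (hc0 i)
    refine h2.trans (le_of_eq ?_)
    rw [integral_const, smul_eq_mul]
    ring
  have htsum := integral_tsum_of_summable_integral_norm hFi hFs
  have hhat : ∀ i, ∫ t, ψ t * smE (ξ i) t ∂ν = hat φ (ξ i) := by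
    intro i
    unfold hat
    rw [hint]
    rfl
  have hterm : ∀ i, ∫ z : ℝ × ℝ, (c i : ℂ) * ((ψ z.1 * smE (ξ i) z.1) *
        (starRingEnd ℂ) (ψ z.2 * smE (ξ i) z.2)) ∂(ν.prod ν) =
        ((c i * ‖hat φ (ξ i)‖ ^ 2 : ℝ) : ℂ) := by
    intro i
    rw [integral_const_mul]
    have h1 := integral_prod_mul (μ := ν) (ν := ν) (fun t => ψ t * smE (ξ i) t)
      (fun s => (starRingEnd ℂ) (ψ s * smE (ξ i) s))
    rw [h1, integral_conj, hhat, Complex.mul_conj, Complex.normSq_eq_norm_sq]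
    push_cast
    ring
  -- the real identity
  have hmain : ∫ ω, ‖∫ t, f t ω ∂ν‖ ^ 2 ∂mu = ∑' i, c i * ‖hat φ (ξ i)‖ ^ 2 := by
    have h1 : ∫ ω, ∫ z, H z ω ∂(ν.prod ν) ∂mu = ((∫ ω, ‖∫ t, f t ω ∂ν‖ ^ 2 ∂mu : ℝ) : ℂ) := by
      simp_rw [hXn]
      exact integral_ofReal
    have h2 : ∫ z, ∫ ω, H z ω ∂mu ∂(ν.prod ν) = ((∑' i, c i * ‖hat φ (ξ i)‖ ^ 2 : ℝ) : ℂ) := by
      simp_rw [hR]
      rw [← htsum]
      simp_rw [hterm]
      rw [Complex.ofReal_tsum]
    have h3 : ((∫ ω, ‖∫ t, f t ω ∂ν‖ ^ 2 ∂mu : ℝ) : ℂ) =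
        ((∑' i, c i * ‖hat φ (ξ i)‖ ^ 2 : ℝ) : ℂ) := by
      rw [← h1, ← h2, hswap]
    exact_mod_cast h3
  -- pass to lintegrals
  have hXm : Measurable fun ω => ∫ t, f t ω ∂ν := by
    have h1 : StronglyMeasurable fun p : Om × ℝ => f p.2 p.1 :=
      (hfm.comp (measurable_snd.prodMk measurable_fst)).stronglyMeasurable
    exact (h1.integral_prod_right (ν := ν)).measurable
  have hXB : ∀ ω, ‖∫ t, f t ω ∂ν‖ ≤ (B * M) * ν.real Set.univ := by
    intro ω
    exact norm_integral_le_of_norm_le_const (Filter.Eventually.of_forall fun t => hfB t ω)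
  have hXi : Integrable (fun ω => ‖∫ t, f t ω ∂ν‖ ^ 2) mu := by
    refine Integrable.of_bound (hXm.norm.pow_const 2).aestronglyMeasurable
      (((B * M) * ν.real Set.univ) ^ 2) ?_
    refine Filter.Eventually.of_forall fun ω => ?_
    rw [Real.norm_eq_abs, abs_of_nonneg (by positivity)]
    exact pow_le_pow_left₀ (norm_nonneg _) (hXB ω) 2
  have hhatB : ∀ i, ‖hat φ (ξ i)‖ ≤ B * ν.real Set.univ := by
    intro i
    rw [← hhat i]
    refine norm_integral_le_of_norm_le_const (Filter.Eventually.of_forall fun t => ?_)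
    rw [norm_mul, smE_norm, mul_one]
    exact hψB t
  have hsumm : Summable fun i => c i * ‖hat φ (ξ i)‖ ^ 2 := by
    refine Summable.of_nonneg_of_le (fun i => mul_nonneg (hc0 i) (by positivity)) ?_
      (hcs.mul_right ((B * ν.real Set.univ) ^ 2))
    intro i
    exact mul_le_mul_of_nonneg_left (pow_le_pow_left₀ (norm_nonneg _) (hhatB i) 2) (hc0 i)
  calc ∫⁻ ω, ‖∫ t in (0:ℝ)..1, φ t * G t ω‖ₑ ^ 2 ∂mu
      = ∫⁻ ω, ENNReal.ofReal (‖∫ t, f t ω ∂ν‖ ^ 2) ∂mu := by
        refine lintegral_congr fun ω => ?_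
        rw [hint (fun t => G t ω), ENNReal.ofReal_pow (norm_nonneg _), ofReal_norm]
    _ = ENNReal.ofReal (∫ ω, ‖∫ t, f t ω ∂ν‖ ^ 2 ∂mu) := by
        rw [ofReal_integral_eq_lintegral_ofReal hXi
          (Filter.Eventually.of_forall fun ω => by positivity)]
    _ = ENNReal.ofReal (∑' i, c i * ‖hat φ (ξ i)‖ ^ 2) := by rw [hmain]
    _ = ∑' i, ENNReal.ofReal (c i * ‖hat φ (ξ i)‖ ^ 2) :=
        ENNReal.ofReal_tsum_of_nonneg (fun i => mul_nonneg (hc0 i) (by positivity)) hsumm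
    _ = ∑' i, ENNReal.ofReal (c i) * ‖hat φ (ξ i)‖ₑ ^ 2 := by
        refine tsum_congr fun i => ?_
        rw [ENNReal.ofReal_mul (hc0 i), ENNReal.ofReal_pow (norm_nonneg _), ofReal_norm]

/-- Expectation of a product over two disjoint sets of coordinates. -/
theorem integral_prod_mu2 {T' T : Finset ℕ} (hd : Disjoint T' T)
    (f g : ℕ → UnitAddCircle → ℂ) (hf : ∀ p ∈ T', Continuous (f p))
    (hg : ∀ p ∈ T, Continuous (g p)) :
    ∫ ω, (∏ p ∈ T', f p (ω p)) * (∏ p ∈ T, g p (ω p)) ∂mu =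
      (∏ p ∈ T', ∫ x, f p x ∂haar1) * ∏ p ∈ T, ∫ x, g p x ∂haar1 := by
  classical
  have hne : ∀ p ∈ T, p ∉ T' := fun p hp hp' => Finset.disjoint_left.mp hd hp' hp
  have h := integral_prod_mu (T' ∪ T) (fun p => if p ∈ T' then f p else g p) (by
    intro p hp
    by_cases h1 : p ∈ T'
    · simp only [h1, if_true]; exact hf p h1
    · simp only [h1, if_false]
      rcases Finset.mem_union.mp hp with h2 | h2
      · exact absurd h2 h1
      · exact hg p h2)
  rw [Finset.prod_union hd] at h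
  have e1 : ∀ ω : Om, (∏ p ∈ T' ∪ T, (if p ∈ T' then f p else g p) (ω p)) =
      (∏ p ∈ T', f p (ω p)) * ∏ p ∈ T, g p (ω p) := by
    intro ω
    rw [Finset.prod_union hd]
    congr 1
    · exact Finset.prod_congr rfl fun p hp => by simp only [hp, if_true]
    · exact Finset.prod_congr rfl fun p hp => by simp only [hne p hp, if_false]
  have e2 : (∏ p ∈ T', ∫ x, (if p ∈ T' then f p else g p) x ∂haar1) =
      ∏ p ∈ T', ∫ x, f p x ∂haar1 :=
    Finset.prod_congr rfl fun p hp => by simp only [hp, if_true]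
  have e3 : (∏ p ∈ T, ∫ x, (if p ∈ T' then f p else g p) x ∂haar1) =
      ∏ p ∈ T, ∫ x, g p x ∂haar1 :=
    Finset.prod_congr rfl fun p hp => by simp only [hne p hp, if_false]
  rw [e2, e3] at h
  rw [← h]
  exact integral_congr_ae (Filter.Eventually.of_forall fun ω => (e1 ω).symm)

theorem sm_slice {X Y Z : Type} [TopologicalSpace X] [TopologicalSpace Y] [TopologicalSpace Z]
    (f : X → Y → Z) (h : Continuous fun z : X × Y => f z.1 z.2) (x : X) :
    Continuous fun y => f x y :=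
  h.comp (Continuous.prodMk_right x)

theorem sm_slice2 {X Y Z W : Type} [TopologicalSpace X] [TopologicalSpace Y] [TopologicalSpace Z]
    [TopologicalSpace W] (f : X → Y → Z) (h : Continuous fun z : X × Y => f z.1 z.2)
    (g : W → Y) (hg : Continuous g) :
    Continuous fun z : X × W => f z.1 (g z.2) :=
  h.comp (continuous_fst.prodMk (hg.comp continuous_snd))

theorem sm_cont_m1 (b : ℝ) {p : ℕ} (hp : p.Prime) (t : ℝ) : Continuous fun x => m1 b p t x :=
  sm_slice (m1 b p) (continuous_m1 b hp) t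

theorem sm_cont_k1 {p : ℕ} (hp : p.Prime) (t : ℝ) : Continuous fun x => k1 p t x :=
  sm_slice (k1 p) (continuous_k1 hp) t

theorem sm_cont_mm (b : ℝ) (S : Finset ℕ) (hS : ∀ p ∈ S, p.Prime) :
    Continuous fun z : ℝ × Om => mm b S z.1 z.2 := by
  unfold mm
  refine continuous_finsetProd _ fun p hp => ?_
  exact sm_slice2 (m1 b p) (continuous_m1 b (hS p hp)) (fun ω : Om => ω p) (continuous_apply p)

theorem sm_cont_kk (S : Finset ℕ) (hS : ∀ p ∈ S, p.Prime) :
    Continuous fun z : ℝ × Om => kk S z.1 z.2 := by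
  unfold kk
  refine continuous_finsetProd _ fun p hp => ?_
  exact sm_slice2 (k1 p) (continuous_k1 (hS p hp)) (fun ω : Om => ω p) (continuous_apply p)

theorem mm_corr {b : ℝ} (hb0 : 0 ≤ b) (hb1 : b ≤ 1) (T : Finset ℕ) (hT : ∀ p ∈ T, p.Prime)
    (t s : ℝ) :
    ∫ ω, (mm b T t ω - 1) * (starRingEnd ℂ) (mm b T s ω - 1) ∂mu =
      (∏ p ∈ T, ∫ x, m1 b p t x * (starRingEnd ℂ) (m1 b p s x) ∂haar1) - 1 := by
  have hct : Continuous fun ω => mm b T t ω := sm_slice (mm b T) (sm_cont_mm b T hT) t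
  have hcs : Continuous fun ω => mm b T s ω := sm_slice (mm b T) (sm_cont_mm b T hT) s
  have hcs' : Continuous fun ω => (starRingEnd ℂ) (mm b T s ω) :=
    Complex.continuous_conj.comp hcs
  have i1 : Integrable (fun ω => mm b T t ω * (starRingEnd ℂ) (mm b T s ω)) mu :=
    integrable_of_continuous (hct.mul hcs')
  have i2 : Integrable (fun ω => mm b T t ω) mu := integrable_of_continuous hct
  have i3 : Integrable (fun ω => (starRingEnd ℂ) (mm b T s ω)) mu := integrable_of_continuous hcs'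
  have e0 : ∀ ω, (mm b T t ω - 1) * (starRingEnd ℂ) (mm b T s ω - 1) =
      mm b T t ω * (starRingEnd ℂ) (mm b T s ω) - mm b T t ω - (starRingEnd ℂ) (mm b T s ω) + 1 := by
    intro ω
    rw [map_sub, map_one]
    ring
  have v1 : ∫ ω, mm b T t ω * (starRingEnd ℂ) (mm b T s ω) ∂mu =
      ∏ p ∈ T, ∫ x, m1 b p t x * (starRingEnd ℂ) (m1 b p s x) ∂haar1 := by
    rw [← integral_prod_mu T (fun p x => m1 b p t x * (starRingEnd ℂ) (m1 b p s x))]
    · refine integral_congr_ae (Filter.Eventually.of_forall fun ω => ?_)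
      simp only [mm, map_prod, Finset.prod_mul_distrib]
    · intro p hp
      exact (sm_cont_m1 b (hT p hp) t).mul
        (Complex.continuous_conj.comp (sm_cont_m1 b (hT p hp) s))
  have v2 : ∀ u : ℝ, ∫ ω, mm b T u ω ∂mu = 1 := by
    intro u
    have h := integral_prod_mu T (fun p x => m1 b p u x)
      (fun p hp => sm_cont_m1 b (hT p hp) u)
    have h2 : (∏ p ∈ T, ∫ x, m1 b p u x ∂haar1) = 1 :=
      Finset.prod_eq_one fun p hp => m1_mean hb0 hb1 (hT p hp) u
    rw [h2] at h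
    exact h
  have v3 : ∫ ω, (starRingEnd ℂ) (mm b T s ω) ∂mu = 1 := by
    rw [integral_conj, v2, map_one]
  simp_rw [e0]
  have i12 : Integrable (fun ω => mm b T t ω * (starRingEnd ℂ) (mm b T s ω) - mm b T t ω) mu :=
    i1.sub i2
  have i123 : Integrable (fun ω => mm b T t ω * (starRingEnd ℂ) (mm b T s ω) - mm b T t ω -
    (starRingEnd ℂ) (mm b T s ω)) mu := i12.sub i3
  rw [integral_add i123 (integrable_const _), integral_sub i12 i3, integral_sub i1 i2, v1, v2, v3,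
    integral_const]
  simp

theorem kk_corr (T' T : Finset ℕ) (hT : ∀ p ∈ T' ∪ T, p.Prime) (hd : Disjoint T' T)
    (t s : ℝ) :
    ∫ ω, (kk T' t ω * (kk T t ω - 1)) * (starRingEnd ℂ) (kk T' s ω * (kk T s ω - 1)) ∂mu =
      (∏ p ∈ T', ∫ x, k1 p t x * (starRingEnd ℂ) (k1 p s x) ∂haar1) *
        ((∏ p ∈ T, ∫ x, k1 p t x * (starRingEnd ℂ) (k1 p s x) ∂haar1) - 1) := by
  classical
  have hT1 : ∀ p ∈ T', p.Prime := fun p hp => hT p (Finset.mem_union_left _ hp)
  have hT2 : ∀ p ∈ T, p.Prime := fun p hp => hT p (Finset.mem_union_right _ hp)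
  have hc : ∀ (S : Finset ℕ) (_ : ∀ p ∈ S, p.Prime) (u : ℝ), Continuous fun ω => kk S u ω :=
    fun S hS u => sm_slice (kk S) (sm_cont_kk S hS) u
  have hc' : ∀ (S : Finset ℕ) (_ : ∀ p ∈ S, p.Prime) (u : ℝ),
      Continuous fun ω => (starRingEnd ℂ) (kk S u ω) :=
    fun S hS u => Complex.continuous_conj.comp (hc S hS u)
  set A : Om → ℂ := fun ω => kk T' t ω * (starRingEnd ℂ) (kk T' s ω) with hA
  have hAc : Continuous A := (hc T' hT1 t).mul (hc' T' hT1 s)
  have e0 : ∀ ω, (kk T' t ω * (kk T t ω - 1)) * (starRingEnd ℂ) (kk T' s ω * (kk T s ω - 1)) =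
      A ω * (kk T t ω * (starRingEnd ℂ) (kk T s ω)) - A ω * kk T t ω -
        A ω * (starRingEnd ℂ) (kk T s ω) + A ω := by
    intro ω
    simp only [hA, map_mul, map_sub, map_one]
    ring
  have i1 : Integrable (fun ω => A ω * (kk T t ω * (starRingEnd ℂ) (kk T s ω))) mu :=
    integrable_of_continuous (hAc.mul ((hc T hT2 t).mul (hc' T hT2 s)))
  have i2 : Integrable (fun ω => A ω * kk T t ω) mu :=
    integrable_of_continuous (hAc.mul (hc T hT2 t))
  have i3 : Integrable (fun ω => A ω * (starRingEnd ℂ) (kk T s ω)) mu :=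
    integrable_of_continuous (hAc.mul (hc' T hT2 s))
  have i4 : Integrable A mu := integrable_of_continuous hAc
  have hAe : ∀ ω, A ω = ∏ p ∈ T', (fun p x => k1 p t x * (starRingEnd ℂ) (k1 p s x)) p (ω p) := by
    intro ω
    simp only [hA, kk, map_prod, Finset.prod_mul_distrib]
  have cA : ∀ p ∈ T', Continuous ((fun p x => k1 p t x * (starRingEnd ℂ) (k1 p s x)) p) :=
    fun p hp => (sm_cont_k1 (hT1 p hp) t).mul
      (Complex.continuous_conj.comp (sm_cont_k1 (hT1 p hp) s))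
  have v1 : ∫ ω, A ω * (kk T t ω * (starRingEnd ℂ) (kk T s ω)) ∂mu =
      (∏ p ∈ T', ∫ x, k1 p t x * (starRingEnd ℂ) (k1 p s x) ∂haar1) *
        ∏ p ∈ T, ∫ x, k1 p t x * (starRingEnd ℂ) (k1 p s x) ∂haar1 := by
    rw [← integral_prod_mu2 hd (fun p x => k1 p t x * (starRingEnd ℂ) (k1 p s x))
      (fun p x => k1 p t x * (starRingEnd ℂ) (k1 p s x)) cA
      (fun p hp => (sm_cont_k1 (hT2 p hp) t).mul
        (Complex.continuous_conj.comp (sm_cont_k1 (hT2 p hp) s)))]
    refine integral_congr_ae (Filter.Eventually.of_forall fun ω => ?_)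
    simp only [hA, kk, map_prod, Finset.prod_mul_distrib]
  have v2 : ∫ ω, A ω * kk T t ω ∂mu =
      (∏ p ∈ T', ∫ x, k1 p t x * (starRingEnd ℂ) (k1 p s x) ∂haar1) := by
    have h := integral_prod_mu2 hd (fun p x => k1 p t x * (starRingEnd ℂ) (k1 p s x))
      (fun p x => k1 p t x) cA (fun p hp => sm_cont_k1 (hT2 p hp) t)
    have h2 : (∏ p ∈ T, ∫ x, k1 p t x ∂haar1) = 1 :=
      Finset.prod_eq_one fun p hp => k1_mean (hT2 p hp) t
    rw [h2, mul_one] at h
    rw [← h]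
    refine integral_congr_ae (Filter.Eventually.of_forall fun ω => ?_)
    simp only [hA, kk, map_prod, Finset.prod_mul_distrib]
  have v3 : ∫ ω, A ω * (starRingEnd ℂ) (kk T s ω) ∂mu =
      (∏ p ∈ T', ∫ x, k1 p t x * (starRingEnd ℂ) (k1 p s x) ∂haar1) := by
    have h := integral_prod_mu2 hd (fun p x => k1 p t x * (starRingEnd ℂ) (k1 p s x))
      (fun p x => (starRingEnd ℂ) (k1 p s x)) cA
      (fun p hp => Complex.continuous_conj.comp (sm_cont_k1 (hT2 p hp) s))
    have h2 : (∏ p ∈ T, ∫ x, (starRingEnd ℂ) (k1 p s x) ∂haar1) = 1 :=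
      Finset.prod_eq_one fun p hp => by rw [integral_conj, k1_mean (hT2 p hp), map_one]
    rw [h2, mul_one] at h
    rw [← h]
    refine integral_congr_ae (Filter.Eventually.of_forall fun ω => ?_)
    simp only [hA, kk, map_prod, Finset.prod_mul_distrib]
  have v4 : ∫ ω, A ω ∂mu =
      (∏ p ∈ T', ∫ x, k1 p t x * (starRingEnd ℂ) (k1 p s x) ∂haar1) := by
    rw [← integral_prod_mu T' (fun p x => k1 p t x * (starRingEnd ℂ) (k1 p s x)) cA]
    exact integral_congr_ae (Filter.Eventually.of_forall hAe)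
  simp_rw [e0]
  have i12 : Integrable (fun ω => A ω * (kk T t ω * (starRingEnd ℂ) (kk T s ω)) -
    A ω * kk T t ω) mu := i1.sub i2
  have i123 : Integrable (fun ω => A ω * (kk T t ω * (starRingEnd ℂ) (kk T s ω)) -
    A ω * kk T t ω - A ω * (starRingEnd ℂ) (kk T s ω)) mu := i12.sub i3
  rw [integral_add i123 i4, integral_sub i12 i3, integral_sub i1 i2, v1, v2, v3, v4]
  ring

theorem sm_early {b : ℝ} (hb0 : 0 ≤ b) (hb1 : b ≤ 1) (T : Finset ℕ) (hT : ∀ p ∈ T, p.Prime)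
    (φ : ℝ → ℂ) (hφ : Measurable φ) (hb : ∃ B : ℝ, ∀ t ∈ Set.Ico (0:ℝ) 1, ‖φ t‖ ≤ B) :
    ∫⁻ ω, ‖∫ t in (0:ℝ)..1, φ t * (mm b T t ω - 1)‖ₑ ^ 2 ∂mu ≤
      ∑' x : ℕ × ℕ, cE T x * ‖hat φ (xE x)‖ₑ ^ 2 := by
  obtain ⟨c, hc0, hcs, hcE, hck⟩ := kernel_m hb0 hb1 T hT
  rw [sm_general φ hφ hb (fun t ω => mm b T t ω - 1)
    ((sm_cont_mm b T hT).sub continuous_const) c hc0 hcs xE
    (fun t s => (mm_corr hb0 hb1 T hT t s).trans (hck t s))]
  exact ENNReal.tsum_le_tsum fun x => mul_le_mul_left (hcE x) _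

theorem sm_late (T' T : Finset ℕ) (hT : ∀ p ∈ T' ∪ T, p.Prime) (hd : Disjoint T' T)
    (φ : ℝ → ℂ) (hφ : Measurable φ) (hb : ∃ B : ℝ, ∀ t ∈ Set.Ico (0:ℝ) 1, ‖φ t‖ ≤ B) :
    ∫⁻ ω, ‖∫ t in (0:ℝ)..1, φ t * (kk T' t ω * (kk T t ω - 1))‖ₑ ^ 2 ∂mu ≤
      ∑' n : ℕ, cL T' T n * ‖hat φ (xL n)‖ₑ ^ 2 := by
  obtain ⟨hcs, hck⟩ := kernel_k T' T hT hd
  rw [sm_general φ hφ hb (fun t ω => kk T' t ω * (kk T t ω - 1))
    ((sm_cont_kk T' fun p hp => hT p (Finset.mem_union_left _ hp)).mul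
      ((sm_cont_kk T fun p hp => hT p (Finset.mem_union_right _ hp)).sub continuous_const))
    (fun n => (cL T' T n).toReal) (fun n => ENNReal.toReal_nonneg) hcs xL
    (fun t s => (kk_corr T' T hT hd t s).trans (hck t s))]
  exact ENNReal.tsum_le_tsum fun n => mul_le_mul_left ENNReal.ofReal_toReal_le _

end Emb
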