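/-
CHUNK SQ2 (conditional second moments of the increments).

`early_sq`: E_l |D1 l|^2 <= (C/2^l) int_0^1 (sum_(k>=l) 2^-(k-l) g_k^2) N_l dt.
 Proof. D1 l (mix (pr l) w w') = int phi_l(t) M(t) (mm(blk l)(t,w') - 1) dt with M(t) = mm b (pr l) t w
 fixed (mm_mix, mm_mix'). sm_early (T = blk l, function phi_l M) gives
   <= sum_x cE (blk l) x |hat(phi_l M)(xE x)|^2, then ibp_ls with X = 2^l, D = C/2^l (early_mass),
 M' = derivative of M (hasDerivAt_mm), int phi_l = 0 (phL_integral):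
   <= C (C/2^l) int 4^l H_l^2 (|M|^2 + 4^-l |M'|^2), and prim_bound.  N_l is by definition
   |M|^2 + 4^-l |M'|^2.
`late_sq` (1 <= k < l): E_k |D2 k l|^2 <= (C/2^(l-k)) int_0^1 2^-k g_k^2 N_(k+1) dt, E_k = El (pr (k+1)).
 Proof. sm_late with T' = pr l \ pr (k+1), T = blk l, function g_k M, M(t) = mm b (pr (k+1)) t w, then
 late_an with D = C/2^k (late_mass: primes outside pr (k+1) have log p > 2^k), frequencies log n > 2^(l-1)
 (n has a prime factor in blk l = pr(l+1)\pr l, so log p > 2^(l-1)), g_k(t) = b(ix k t) (gd_step);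
 |M|^2 + 4^-k|M'|^2 <= 4 N_(k+1).
-/
import Pool.Agent.Lib.Emb.Sq1
import Pool.Agent.Lib.Emb.Sm
import Pool.Agent.Lib.Emb.Ibp
import Pool.Agent.Lib.Emb.LateAn
import Pool.Agent.Lib.Emb.NT3

open MeasureTheory Complex
open scoped BigOperators ENNReal

namespace Emb

theorem Bd.mul_cont {g : ℝ → ℂ} (hg : Bd g) {M : ℝ → ℂ} (hM : Continuous M) :
    Bd (fun t => g t * M t) := by
  obtain ⟨hgm, B1, hB1⟩ := hg
  obtain ⟨B2, hB2⟩ := (isCompact_Icc (a := (0:ℝ)) (b := 1)).exists_bound_of_continuousOn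
    hM.continuousOn
  refine ⟨hgm.mul hM.measurable, |B1| * |B2|, fun t ht => ?_⟩
  rw [norm_mul]
  exact mul_le_mul ((hB1 t ht).trans (le_abs_self _))
    ((hB2 t ⟨ht.1, ht.2.le⟩).trans (le_abs_self _)) (norm_nonneg _) (abs_nonneg _)

theorem hat_congr {φ ψ : ℝ → ℂ} (h : ∀ t ∈ Set.Ico (0:ℝ) 1, φ t = ψ t) (ξ : ℝ) :
    hat φ ξ = hat ψ ξ := by
  unfold hat
  rw [intervalIntegral.integral_of_le zero_le_one, intervalIntegral.integral_of_le zero_le_one,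
    ← integral_Ico_eq_integral_Ioc, ← integral_Ico_eq_integral_Ioc]
  exact setIntegral_congr_fun measurableSet_Ico fun t ht => by
    show φ t * _ = ψ t * _
    rw [h t ht]

/-- The derivative of `M`. -/
noncomputable def dmm (b : ℝ) (S : Finset ℕ) (ω : Om) (t : ℝ) : ℂ :=
  mm b S t ω * (I * (UU S t ω - (b : ℂ) * (starRingEnd ℂ) (UU S t ω)))

theorem cont_mm_t (b : ℝ) (S : Finset ℕ) (hS : ∀ p ∈ S, p.Prime) (ω : Om) :
    Continuous (fun t => mm b S t ω) := by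
  have h := continuous_mm b S hS
  have h2 : Continuous (fun t : ℝ => (t, ω)) := Continuous.prodMk_left ω
  have h3 := h.comp h2
  exact h3

theorem cont_UU_t (S : Finset ℕ) (hS : ∀ p ∈ S, p.Prime) (ω : Om) :
    Continuous (fun t => UU S t ω) := by
  have h := continuous_UU hS
  have h2 : Continuous (fun t : ℝ => (t, ω)) := Continuous.prodMk_left ω
  have h3 := h.comp h2
  exact h3

theorem continuous_dmm (b : ℝ) (S : Finset ℕ) (hS : ∀ p ∈ S, p.Prime) (ω : Om) :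
    Continuous (dmm b S ω) := by
  have h1 := cont_mm_t b S hS ω
  have h2 := cont_UU_t S hS ω
  have h3 : Continuous fun t => (starRingEnd ℂ) (UU S t ω) := Complex.continuous_conj.comp h2
  unfold dmm
  exact h1.mul (continuous_const.mul (h2.sub (continuous_const.mul h3)))

theorem NN_eq (b : ℝ) (l : ℕ) (t : ℝ) (ω : Om) :
    NN b l t ω = ‖mm b (pr l) t ω‖ ^ 2 + (4 ^ l)⁻¹ * ‖dmm b (pr l) ω t‖ ^ 2 := by
  unfold NN dmm
  rw [(hasDerivAt_mm b (pr l) (fun _ hp => pr_prime hp) t ω).deriv]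

theorem early_sq {b : ℝ} (hb0 : 0 ≤ b) (hb1 : b ≤ 1) : ∃ C : ℝ, 0 < C ∧
    ∀ (K : ℕ) (a : ℕ → ℝ) (l : ℕ) (ω : Om),
      El (pr l) (fun ω => ‖D1 b K a l ω‖ₑ ^ 2) ω ≤ ENNReal.ofReal (C / 2 ^ l) *
        ∫⁻ t in Set.Ico (0:ℝ) 1, ENNReal.ofReal
          ((∑ k ∈ Finset.Icc l K, ((2:ℝ) ^ (k - l))⁻¹ * gd K a k t ^ 2) * NN b l t ω) := by
  obtain ⟨C1, hC1, h1⟩ := ibp_ls
  obtain ⟨C2, hC2, h2⟩ := early_mass
  refine ⟨2 * C1 * C2, by positivity, fun K a l ω => ?_⟩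
  have hpr : ∀ p ∈ pr l, p.Prime := fun _ hp => pr_prime hp
  have hblk : ∀ p ∈ blk l, p.Prime := fun _ hp => pr_prime (Finset.mem_sdiff.1 hp).1
  have hBd : Bd (fun t => (phL K a l t : ℂ) * mm b (pr l) t ω) :=
    (Bd_phL K a l).mul_cont (cont_mm_t b _ hpr ω)
  have h3 : El (pr l) (fun ω => ‖D1 b K a l ω‖ₑ ^ 2) ω =
      ∫⁻ ω', ‖∫ t in (0:ℝ)..1, ((phL K a l t : ℂ) * mm b (pr l) t ω) *
        (mm b (blk l) t ω' - 1)‖ₑ ^ 2 ∂mu := by
    unfold El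
    simp_rw [D1_mix, mul_assoc]
  rw [h3]
  refine (sm_early hb0 hb1 (blk l) hblk _ hBd.1 hBd.2).trans ?_
  have hphb : ∃ B : ℝ, ∀ t ∈ Set.Ico (0:ℝ) 1, |phL K a l t| ≤ B := by
    obtain ⟨B, hB⟩ := (Bd_phL K a l).2
    exact ⟨B, fun t ht => by simpa using hB t ht⟩
  refine (h1 (ℕ × ℕ) (cE (blk l)) xE (ENNReal.ofReal (C2 / 2 ^ l)) (2 ^ l)
    (one_le_pow₀ one_le_two) (h2 l) (phL K a l) (fun t => mm b (pr l) t ω) (dmm b (pr l) ω)
    (measurable_phL K a l) hphb (fun t => hasDerivAt_mm b (pr l) hpr t ω)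
    (continuous_dmm b _ hpr ω) (phL_integral K a l)).trans ?_
  have h4 : ∀ t ∈ Set.Ico (0:ℝ) 1, ENNReal.ofReal ((2 ^ l) ^ 2 *
      (∫ u in (0:ℝ)..t, phL K a l u) ^ 2 *
        (‖mm b (pr l) t ω‖ ^ 2 + ((2 ^ l) ^ 2)⁻¹ * ‖dmm b (pr l) ω t‖ ^ 2)) ≤
      ENNReal.ofReal 2 * ENNReal.ofReal
          ((∑ k ∈ Finset.Icc l K, ((2:ℝ) ^ (k - l))⁻¹ * gd K a k t ^ 2) * NN b l t ω) := by
    intro t ht
    rw [← ENNReal.ofReal_mul (by norm_num)]
    apply ENNReal.ofReal_le_ofReal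
    have h5 : ((2:ℝ) ^ l) ^ 2 = 4 ^ l := by
      rw [← pow_mul, mul_comm, pow_mul]
      norm_num
    rw [h5, NN_eq]
    have h6 := prim_bound K a l ht
    have h7 : 0 ≤ ‖mm b (pr l) t ω‖ ^ 2 + (4 ^ l)⁻¹ * ‖dmm b (pr l) ω t‖ ^ 2 := by positivity
    calc _ ≤ (2 * ∑ k ∈ Finset.Icc l K, ((2:ℝ) ^ (k - l))⁻¹ * gd K a k t ^ 2) *
        (‖mm b (pr l) t ω‖ ^ 2 + (4 ^ l)⁻¹ * ‖dmm b (pr l) ω t‖ ^ 2) :=
          mul_le_mul_of_nonneg_right h6 h7
      _ = _ := by ring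
  calc _ ≤ ENNReal.ofReal C1 * ENNReal.ofReal (C2 / 2 ^ l) * ∫⁻ t in Set.Ico (0:ℝ) 1,
        ENNReal.ofReal 2 * ENNReal.ofReal
          ((∑ k ∈ Finset.Icc l K, ((2:ℝ) ^ (k - l))⁻¹ * gd K a k t ^ 2) * NN b l t ω) := by
        refine mul_le_mul_right ?_ _
        exact setLIntegral_mono' measurableSet_Ico h4
    _ = _ := by
        rw [lintegral_const_mul' _ _ ENNReal.ofReal_ne_top, ← mul_assoc,
          ← ENNReal.ofReal_mul hC1.le, ← ENNReal.ofReal_mul (by positivity)]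
        congr 2
        ring

theorem late_sq {b : ℝ} (hb0 : 0 ≤ b) (hb1 : b ≤ 1) : ∃ C : ℝ, 0 < C ∧
    ∀ (K : ℕ) (a : ℕ → ℝ) (k l : ℕ), k < l → ∀ ω : Om,
      El (pr (k + 1)) (fun ω => ‖D2 b K a k l ω‖ₑ ^ 2) ω ≤ ENNReal.ofReal (C / 2 ^ (l - k)) *
        ∫⁻ t in Set.Ico (0:ℝ) 1, ENNReal.ofReal
          (((2:ℝ) ^ k)⁻¹ * gd K a k t ^ 2 * NN b (k + 1) t ω) := by
  obtain ⟨C1, hC1, h1⟩ := late_an
  obtain ⟨C2, hC2, h2⟩ := late_mass
  refine ⟨4 * C1 * C2, by positivity, fun K a k l hkl ω => ?_⟩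
  have hpr : ∀ p ∈ pr (k + 1), p.Prime := fun _ hp => pr_prime hp
  have hT : ∀ p ∈ (pr l \ pr (k + 1)) ∪ blk l, p.Prime := by
    intro p hp
    rcases Finset.mem_union.1 hp with h | h
    · exact pr_prime (Finset.mem_sdiff.1 h).1
    · exact pr_prime (Finset.mem_sdiff.1 h).1
  have hdis : Disjoint (pr l \ pr (k + 1)) (blk l) := (disj_blk l).mono_left Finset.sdiff_subset
  have hdis2 : Disjoint (pr (k + 1)) (pr l \ pr (k + 1)) := Finset.disjoint_sdiff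
  have hdis3 : Disjoint (pr (k + 1)) (blk l) := (disj_blk l).mono_left (pr_mono (by omega))
  have hBd : Bd (fun t => (gd K a k t : ℂ) * mm b (pr (k + 1)) t ω) :=
    (Bd_gd K a k).mul_cont (cont_mm_t b _ hpr ω)
  have h3 : El (pr (k + 1)) (fun ω => ‖D2 b K a k l ω‖ₑ ^ 2) ω =
      ∫⁻ ω', ‖∫ t in (0:ℝ)..1, ((gd K a k t : ℂ) * mm b (pr (k + 1)) t ω) *
        (kk (pr l \ pr (k + 1)) t ω' * (kk (blk l) t ω' - 1))‖ₑ ^ 2 ∂mu := by
    unfold El D2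
    simp_rw [mm_mix b _ _ (Finset.Subset.refl (pr (k + 1))), kk_mix' _ _ hdis2,
      kk_mix' _ _ hdis3, mul_assoc]
  rw [h3]
  refine (sm_late _ _ hT hdis _ hBd.1 hBd.2).trans ?_
  obtain ⟨bb, hbb⟩ := gd_step K a k
  have h4 : ∀ ξ : ℝ, hat (fun t => (gd K a k t : ℂ) * mm b (pr (k + 1)) t ω) ξ =
      hat (fun t => (bb (ix k t) : ℂ) * mm b (pr (k + 1)) t ω) ξ := by
    intro ξ
    exact hat_congr (fun t ht => by rw [hbb t ht]) ξ
  simp_rw [h4]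
  have hlog : ∀ p ∈ (pr l \ pr (k + 1)) ∪ blk l, p.Prime ∧ (2:ℝ) ^ k < Real.log p := by
    intro p hp
    refine ⟨hT p hp, ?_⟩
    have h5 : p ∉ pr (k + 1) := by
      rcases Finset.mem_union.1 hp with h | h
      · exact (Finset.mem_sdiff.1 h).2
      · exact fun h6 => (Finset.mem_sdiff.1 h).2 (pr_mono (by omega) h6)
    rw [mem_pr] at h5
    push Not at h5
    have h6 := h5 (hT p hp)
    rw [pow_succ] at h6
    linarith
  have hlow : ∀ n : ℕ, cL (pr l \ pr (k + 1)) (blk l) n ≠ 0 → (2:ℝ) ^ (l - 1) ≤ xL n := by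
    intro n hn
    unfold cL at hn
    split_ifs at hn with h5
    · obtain ⟨h5, h6⟩ := h5
      have hn0 : n ≠ 0 := Nat.ne_zero_of_mem_factoredNumbers h5
      rw [Nat.mem_factoredNumbers_iff_forall_le] at h5 h6
      push Not at h6
      obtain ⟨p, hp1, hp2, hp3, hp4⟩ := h6 hn0
      have h7 := h5.2 p hp1 hp2 hp3
      have h8 : p ∈ blk l := by
        rcases Finset.mem_union.1 (by exact_mod_cast h7) with h | h
        · exact absurd h (by exact_mod_cast hp4)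
        · exact h
      have h9 := (Finset.mem_sdiff.1 h8).2
      rw [mem_pr] at h9
      push Not at h9
      have h10 := h9 hp2
      have h11 : (2:ℝ) ^ l = 2 * 2 ^ (l - 1) := by
        rw [← pow_succ']
        congr 1
        omega
      have h12 : Real.log p ≤ Real.log n :=
        Real.log_le_log (by exact_mod_cast hp2.pos) (by exact_mod_cast hp1)
      unfold xL
      linarith
    · exact absurd rfl hn
  refine (h1 ℕ (cL (pr l \ pr (k + 1)) (blk l)) xL (ENNReal.ofReal (C2 / 2 ^ k))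
    (h2 k _ _ hlog) k l hkl hlow bb (fun t => mm b (pr (k + 1)) t ω) (dmm b (pr (k + 1)) ω)
    (fun t => hasDerivAt_mm b _ hpr t ω) (continuous_dmm b _ hpr ω)).trans ?_
  have h5 : ∀ t ∈ Set.Ico (0:ℝ) 1, ENNReal.ofReal (bb (ix k t) ^ 2 *
      (‖mm b (pr (k + 1)) t ω‖ ^ 2 + (4 ^ k)⁻¹ * ‖dmm b (pr (k + 1)) ω t‖ ^ 2)) ≤
      ENNReal.ofReal (4 * 2 ^ k) * ENNReal.ofReal
          (((2:ℝ) ^ k)⁻¹ * gd K a k t ^ 2 * NN b (k + 1) t ω) := by
    intro t ht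
    rw [← ENNReal.ofReal_mul (by positivity)]
    apply ENNReal.ofReal_le_ofReal
    rw [← hbb t ht, NN_eq]
    have h6 : ((4:ℝ) ^ k)⁻¹ = 4 * (4 ^ (k + 1))⁻¹ := by
      rw [pow_succ]
      field_simp
    rw [h6]
    have h7 : 4 * (2:ℝ) ^ k * (((2:ℝ) ^ k)⁻¹ * gd K a k t ^ 2 *
      (‖mm b (pr (k + 1)) t ω‖ ^ 2 + (4 ^ (k + 1))⁻¹ * ‖dmm b (pr (k + 1)) ω t‖ ^ 2)) =
      gd K a k t ^ 2 * (4 * ‖mm b (pr (k + 1)) t ω‖ ^ 2 +
        4 * (4 ^ (k + 1))⁻¹ * ‖dmm b (pr (k + 1)) ω t‖ ^ 2) := by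
      field_simp
    rw [h7]
    have h8 : 0 ≤ ‖mm b (pr (k + 1)) t ω‖ ^ 2 := by positivity
    apply mul_le_mul_of_nonneg_left _ (by positivity)
    linarith
  calc _ ≤ ENNReal.ofReal (C1 / 2 ^ (l - k)) * ENNReal.ofReal (C2 / 2 ^ k) *
        ∫⁻ t in Set.Ico (0:ℝ) 1, ENNReal.ofReal (4 * 2 ^ k) * ENNReal.ofReal
          (((2:ℝ) ^ k)⁻¹ * gd K a k t ^ 2 * NN b (k + 1) t ω) := by
        refine mul_le_mul_right ?_ _
        exact setLIntegral_mono' measurableSet_Ico h5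
    _ = _ := by
        rw [lintegral_const_mul' _ _ ENNReal.ofReal_ne_top, ← mul_assoc,
          ← ENNReal.ofReal_mul (by positivity), ← ENNReal.ofReal_mul (by positivity)]
        congr 2
        field_simp

end Emb
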