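/-
CHUNK SQ3 (the square function bound).

q = 2/s, b = s-1. E|X_n|^q <= C E ( sum_(l<K+2) 2^-l int_0^1 A_l N_l dt )^(q/2).
Proof. step1 with S l = pr l, X l = |X_l|, v_l = E_l|X_(l+1) - X_l|^2 (XX_mart, XX_zero; finite because
 continuous on a compact space). XX_step and Cauchy-Schwarz:
  |X_(l+1)-X_l|^2 <= 2|D1 l|^2 + 2 (sum_(k<l) 2^(-(l-k)/2)) sum_(k<l) 2^((l-k)/2) |D2 k l|^2
                  <= 2|D1 l|^2 + 6 sum_(k<l) 2^((l-k)/2)|D2 k l|^2.
 So sum_(l<n) v_l <= 2 sum_l E_l|D1 l|^2 + 6 sum_(k<=K) Y_k, Y_k = sum_(k<l<n) 2^((l-k)/2) E_l|D2 k l|^2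
 (k >= 1). (x+y)^(q/2) <= x^(q/2)+y^(q/2).
 First sum: early_sq (zero for l > K because then phi_l = 0).
 Second: f2 with S k = pr (k+1), El_tower (pr (k+1) subset pr l), late_sq:
   E_k Y_k <= sum_(l>k) 2^((l-k)/2) (C/2^(l-k)) 2^-k int g_k^2 N_(k+1) <= C' 2^-(k+1) int g_k^2 N_(k+1)
 and g_k^2 is the last term of A_(k+1).
 (In the formal proof the weights 2^((l-k)/2) are replaced by (4/3)^(l-k).)
-/
import Pool.Agent.Lib.Emb.Sq2
import Pool.Agent.Lib.Emb.Mart

open MeasureTheory Complex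
open scoped BigOperators ENNReal

namespace Emb

private theorem sq_pr_mono : Monotone pr := by
  intro l m hlm p hp
  unfold pr at hp ⊢
  rw [Finset.mem_filter] at hp ⊢
  obtain ⟨_, h1, h2⟩ := hp
  have h3 : (2 : ℝ) ^ l ≤ 2 ^ m := pow_le_pow_right₀ (by norm_num) hlm
  have h4 : 2 * Real.log p ≤ 2 ^ m := h2.trans h3
  refine ⟨?_, h1, h4⟩
  rw [Finset.mem_range, Nat.lt_succ_iff]
  apply Nat.le_floor
  have hp0 : (0 : ℝ) < p := by exact_mod_cast h1.pos
  rw [← Real.exp_log hp0]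
  apply Real.exp_le_exp.2
  have : (0 : ℝ) ≤ Real.log p := Real.log_natCast_nonneg p
  linarith

private theorem sq_mix_meas (S : Finset ℕ) (ω : Om) : Measurable fun ω' : Om => mix S ω ω' :=
  (measurable_mix S).comp measurable_prodMk_left

private theorem sq_El_mono (S : Finset ℕ) {f g : Om → ℝ≥0∞} (h : ∀ ω, f ω ≤ g ω) (ω : Om) :
    El S f ω ≤ El S g ω :=
  lintegral_mono fun _ => h _

private theorem sq_El_add (S : Finset ℕ) {f g : Om → ℝ≥0∞} (hf : Measurable f) (ω : Om) :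
    El S (fun ω => f ω + g ω) ω = El S f ω + El S g ω :=
  lintegral_add_left (hf.comp (sq_mix_meas S ω)) _

private theorem sq_El_sum {ι : Type} (S : Finset ℕ) (A : Finset ι) {f : ι → Om → ℝ≥0∞}
    (hf : ∀ i, Measurable (f i)) (ω : Om) :
    El S (fun ω => ∑ i ∈ A, f i ω) ω = ∑ i ∈ A, El S (f i) ω :=
  lintegral_finsetSum _ fun i _ => (hf i).comp (sq_mix_meas S ω)

private theorem sq_El_const (S : Finset ℕ) (c : ℝ≥0∞) {f : Om → ℝ≥0∞} (hf : Measurable f)
    (ω : Om) : El S (fun ω => c * f ω) ω = c * El S f ω :=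
  lintegral_const_mul _ (hf.comp (sq_mix_meas S ω))

private theorem sq_meas {f : Om → ℂ} (hf : Continuous f) : Measurable fun ω => ‖f ω‖ₑ ^ 2 :=
  (hf.measurable.enorm).pow_const 2

private theorem sq_El_fin (S : Finset ℕ) {f : Om → ℂ} (hf : Continuous f) (ω : Om) :
    El S (fun ω => ‖f ω‖ₑ ^ 2) ω ≠ ∞ := by
  obtain ⟨C, hC⟩ := isCompact_univ.exists_bound_of_continuousOn (hf.continuousOn (s := Set.univ))
  have h1 : ∀ ω, ‖f ω‖ₑ ^ 2 ≤ ENNReal.ofReal C ^ 2 := by
    intro ω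
    have := hC ω (Set.mem_univ _)
    gcongr
    rw [← ofReal_norm]
    exact ENNReal.ofReal_le_ofReal this
  have h2 : El S (fun ω => ‖f ω‖ₑ ^ 2) ω ≤ ∫⁻ _ : Om, ENNReal.ofReal C ^ 2 ∂mu :=
    lintegral_mono fun _ => h1 _
  rw [lintegral_const, measure_univ, mul_one] at h2
  exact ne_top_of_le_ne_top (by finiteness) h2

/-- weighted Cauchy-Schwarz with geometric weights -/
private theorem sq_cs (x : ℂ) (A : Finset ℕ) (l : ℕ) (hA : ∀ k ∈ A, k < l) (y : ℕ → ℂ) :
    ‖x + ∑ k ∈ A, y k‖ ^ 2 ≤ 2 * ‖x‖ ^ 2 + ∑ k ∈ A, (6 * (4 / 3 : ℝ) ^ (l - k)) * ‖y k‖ ^ 2 := by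
  have h0 : ‖x + ∑ k ∈ A, y k‖ ≤ ‖x‖ + ∑ k ∈ A, ‖y k‖ :=
    (norm_add_le _ _).trans (by gcongr; exact norm_sum_le _ _)
  have h1 : ‖x + ∑ k ∈ A, y k‖ ^ 2 ≤ 2 * ‖x‖ ^ 2 + 2 * (∑ k ∈ A, ‖y k‖) ^ 2 := by
    have h2 : ‖x + ∑ k ∈ A, y k‖ ^ 2 ≤ (‖x‖ + ∑ k ∈ A, ‖y k‖) ^ 2 :=
      pow_le_pow_left₀ (norm_nonneg _) h0 2
    nlinarith [sq_nonneg (‖x‖ - ∑ k ∈ A, ‖y k‖)]
  have hw : ∑ k ∈ A, (3 / 4 : ℝ) ^ (l - k) ≤ 3 := by
    have h3 : ∑ k ∈ A, (3 / 4 : ℝ) ^ (l - k) ≤ ∑ k ∈ Finset.range l, (3 / 4 : ℝ) ^ (l - k) := by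
      apply Finset.sum_le_sum_of_subset_of_nonneg
      · intro k hk
        exact Finset.mem_range.2 (hA k hk)
      · intro k _ _
        positivity
    have h4 : ∀ l : ℕ, ∑ k ∈ Finset.range l, (3 / 4 : ℝ) ^ (l - k) =
        3 * (1 - (3 / 4 : ℝ) ^ l) := by
      intro l
      induction l with
      | zero => simp
      | succ l ih =>
        rw [Finset.sum_range_succ]
        have h5 : ∑ k ∈ Finset.range l, (3 / 4 : ℝ) ^ (l + 1 - k) =
            3 / 4 * ∑ k ∈ Finset.range l, (3 / 4 : ℝ) ^ (l - k) := by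
          rw [Finset.mul_sum]
          apply Finset.sum_congr rfl
          intro k hk
          have := Finset.mem_range.1 hk
          rw [show l + 1 - k = (l - k) + 1 by omega, pow_succ]
          ring
        rw [h5, ih, show l + 1 - l = 1 by omega, pow_succ]
        ring
    refine h3.trans ?_
    rw [h4]
    have : (0 : ℝ) ≤ (3 / 4) ^ l := by positivity
    linarith
  have h6 : (∑ k ∈ A, ‖y k‖) ^ 2 ≤
      (∑ k ∈ A, (3 / 4 : ℝ) ^ (l - k)) * ∑ k ∈ A, (4 / 3 : ℝ) ^ (l - k) * ‖y k‖ ^ 2 := by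
    have h7 := Finset.sum_mul_sq_le_sq_mul_sq A (fun k => Real.sqrt ((3 / 4 : ℝ) ^ (l - k)))
      (fun k => Real.sqrt ((4 / 3 : ℝ) ^ (l - k)) * ‖y k‖)
    have h8 : ∀ k, Real.sqrt ((3 / 4 : ℝ) ^ (l - k)) *
        (Real.sqrt ((4 / 3 : ℝ) ^ (l - k)) * ‖y k‖) = ‖y k‖ := by
      intro k
      rw [← mul_assoc, ← Real.sqrt_mul (by positivity), ← mul_pow]
      norm_num
    have h9 : ∀ k, Real.sqrt ((3 / 4 : ℝ) ^ (l - k)) ^ 2 = (3 / 4 : ℝ) ^ (l - k) := fun k =>
      Real.sq_sqrt (by positivity)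
    have h10 : ∀ k, (Real.sqrt ((4 / 3 : ℝ) ^ (l - k)) * ‖y k‖) ^ 2 =
        (4 / 3 : ℝ) ^ (l - k) * ‖y k‖ ^ 2 := by
      intro k
      rw [mul_pow, Real.sq_sqrt (by positivity)]
    simp only [h8, h9, h10] at h7
    exact h7
  have h11 : (0 : ℝ) ≤ ∑ k ∈ A, (4 / 3 : ℝ) ^ (l - k) * ‖y k‖ ^ 2 :=
    Finset.sum_nonneg fun k _ => by positivity
  have h12 : (∑ k ∈ A, ‖y k‖) ^ 2 ≤ 3 * ∑ k ∈ A, (4 / 3 : ℝ) ^ (l - k) * ‖y k‖ ^ 2 :=
    h6.trans (mul_le_mul_of_nonneg_right hw h11)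
  calc ‖x + ∑ k ∈ A, y k‖ ^ 2 ≤ 2 * ‖x‖ ^ 2 + 2 * (∑ k ∈ A, ‖y k‖) ^ 2 := h1
    _ ≤ 2 * ‖x‖ ^ 2 + 2 * (3 * ∑ k ∈ A, (4 / 3 : ℝ) ^ (l - k) * ‖y k‖ ^ 2) := by gcongr
    _ = _ := by
      rw [Finset.mul_sum, Finset.mul_sum]
      congr 1
      apply Finset.sum_congr rfl
      intro k _
      ring

private theorem sq_cs' (x : ℂ) (A : Finset ℕ) (l : ℕ) (hA : ∀ k ∈ A, k < l) (y : ℕ → ℂ) :
    ‖x + ∑ k ∈ A, y k‖ₑ ^ 2 ≤
      2 * ‖x‖ₑ ^ 2 + ∑ k ∈ A, ENNReal.ofReal (6 * (4 / 3 : ℝ) ^ (l - k)) * ‖y k‖ₑ ^ 2 := by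
  have e : ∀ z : ℂ, ‖z‖ₑ ^ 2 = ENNReal.ofReal (‖z‖ ^ 2) := by
    intro z
    rw [← ofReal_norm, ENNReal.ofReal_pow (norm_nonneg _)]
  simp only [e]
  have h := ENNReal.ofReal_le_ofReal (sq_cs x A l hA y)
  refine h.trans (le_of_eq ?_)
  rw [ENNReal.ofReal_add (by positivity) (Finset.sum_nonneg fun k _ => by positivity),
    ENNReal.ofReal_mul (by norm_num), ENNReal.ofReal_sum_of_nonneg fun k _ => by positivity]
  congr 1
  · norm_num
  · apply Finset.sum_congr rfl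
    intro k _
    rw [ENNReal.ofReal_mul (by positivity)]

private theorem sq_geom (k n : ℕ) {C : ℝ} (hC : 0 ≤ C) :
    ∑ l ∈ (Finset.range n).filter (fun l => k < l),
      ENNReal.ofReal (6 * (4 / 3 : ℝ) ^ (l - k)) * ENNReal.ofReal (C / 2 ^ (l - k)) ≤
      ENNReal.ofReal (12 * C) := by
  have h1 : ∀ l, ENNReal.ofReal (6 * (4 / 3 : ℝ) ^ (l - k)) * ENNReal.ofReal (C / 2 ^ (l - k)) =
      ENNReal.ofReal (6 * C * (2 / 3 : ℝ) ^ (l - k)) := by
    intro l
    rw [← ENNReal.ofReal_mul (by positivity)]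
    congr 1
    rw [show (2 / 3 : ℝ) = (4 / 3) / 2 by norm_num, div_pow (4 / 3 : ℝ) 2]
    ring
  simp only [h1]
  rw [← ENNReal.ofReal_sum_of_nonneg fun l _ => by positivity]
  apply ENNReal.ofReal_le_ofReal
  rw [← Finset.mul_sum]
  have h2 : ∀ n : ℕ, ∑ l ∈ (Finset.range n).filter (fun l => k < l), (2 / 3 : ℝ) ^ (l - k) ≤
      2 - (if k < n then 2 * (2 / 3 : ℝ) ^ (n - 1 - k) else 2) := by
    intro n
    induction n with
    | zero => simp
    | succ n ih =>
      rw [Finset.range_add_one, Finset.filter_insert]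
      split_ifs with h3 h4 h4
      · rw [Finset.sum_insert (by simp)]
        rw [if_pos h3] at ih
        have h5 : n - k = (n - 1 - k) + 1 := by omega
        rw [show n + 1 - 1 - k = n - k by omega, h5, pow_succ]
        linarith
      · omega
      · have : k = n := by omega
        subst this
        rw [if_neg (by omega)] at ih
        simpa using ih
      · rw [if_neg h3] at ih
        exact ih
  have h3 : ∑ l ∈ (Finset.range n).filter (fun l => k < l), (2 / 3 : ℝ) ^ (l - k) ≤ 2 := by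
    refine (h2 n).trans ?_
    split_ifs
    · have : (0 : ℝ) ≤ (2 / 3) ^ (n - 1 - k) := by positivity
      linarith
    · norm_num
  nlinarith

theorem square_bound (s : ℝ) (hs1 : 1 < s) (hs2 : s < 2) : ∃ C : ℝ, 0 < C ∧
    ∀ (K : ℕ) (a : ℕ → ℝ) (n : ℕ),
      ∫⁻ ω, ‖XX (s - 1) K a n ω‖ₑ ^ (2 / s) ∂mu ≤ ENNReal.ofReal C *
        ∫⁻ ω, (∑ l ∈ Finset.range (K + 2), ENNReal.ofReal ((2 ^ l)⁻¹) *
          ∫⁻ t in Set.Ico (0:ℝ) 1, ENNReal.ofReal (AA K a l t * NN (s - 1) l t ω)) ^ (1 / s) ∂mu := by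
  have hs0 : 0 < s := by linarith
  have hb0 : 0 ≤ s - 1 := by linarith
  have hb1 : s - 1 ≤ 1 := by linarith
  have hq1 : 1 < 2 / s := by rw [lt_div_iff₀ hs0]; linarith
  have hq2 : 2 / s < 2 := by rw [div_lt_iff₀ hs0]; linarith
  have hr0 : 0 < 1 / s := by positivity
  have hr1 : 1 / s < 1 := by rw [div_lt_iff₀ hs0]; linarith
  have hqr : 2 / s / 2 = 1 / s := by field_simp
  obtain ⟨C1, hC1, H1⟩ := step1 (2 / s) hq1 hq2
  obtain ⟨C2, hC2, H2⟩ := f2 (1 / s) hr0 hr1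
  obtain ⟨C3, hC3, H3⟩ := early_sq hb0 hb1
  obtain ⟨C4, hC4, H4⟩ := late_sq hb0 hb1
  refine ⟨C1 * ((2 * C3) ^ (1 / s) + C2 * (24 * C4) ^ (1 / s)), by positivity, ?_⟩
  intro K a n
  set b := s - 1 with hb
  set B : Om → ℝ≥0∞ := fun ω => ∑ l ∈ Finset.range (K + 2), ENNReal.ofReal ((2 ^ l)⁻¹) *
          ∫⁻ t in Set.Ico (0:ℝ) 1, ENNReal.ofReal (AA K a l t * NN b l t ω) with hB
  set v : ℕ → Om → ℝ≥0∞ := fun l => El (pr l) fun ω => ‖XX b K a (l + 1) ω - XX b K a l ω‖ₑ ^ 2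
    with hv
  have hXc := fun l => continuous_XX b K a l
  have hD1 := fun l => sq_meas (continuous_D1 b K a l)
  have hD2 := fun k l => sq_meas (continuous_D2 b K a k l)
  have hdm : ∀ l, Measurable fun ω => ‖XX b K a (l + 1) ω - XX b K a l ω‖ₑ ^ 2 := fun l =>
    sq_meas ((hXc (l + 1)).sub (hXc l))
  have hstep := H1 pr sq_pr_mono (fun l ω => ‖XX b K a l ω‖ₑ) v (fun l => (hXc l).measurable.enorm)
    (fun l => measurable_El _ (hdm l))
    (fun l ω ω' h => by
      have := XX_dependsOn b K a l h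
      simp only
      rw [this])
    (fun l => El_dependsOn _ _)
    (fun ω => by simp only [XX_zero, enorm_zero])
    (fun l ω => XX_mart hb0 hb1 K a l ω)
    (fun l ω => enorm_ne_top)
    (fun l ω => sq_El_fin (pr l) ((hXc (l + 1)).sub (hXc l)) ω) n
  rw [hqr] at hstep
  -- the parts
  set P : Om → ℝ≥0∞ := fun ω => ∑ l ∈ Finset.range n, 2 * El (pr l) (fun ω => ‖D1 b K a l ω‖ₑ ^ 2) ω
    with hP
  set Z : ℕ → Om → ℝ≥0∞ := fun k ω => ∑ l ∈ (Finset.range n).filter (fun l => k < l),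
    ENNReal.ofReal (6 * (4 / 3 : ℝ) ^ (l - k)) * El (pr l) (fun ω => ‖D2 b K a k l ω‖ₑ ^ 2) ω with hZ
  set Y : ℕ → Om → ℝ≥0∞ := fun k ω => if 1 ≤ k ∧ k ≤ K then Z k ω else 0 with hY
  have hZm : ∀ k, Measurable (Z k) := fun k =>
    Finset.measurable_fun_sum _ fun l _ => (measurable_El _ (hD2 k l)).const_mul _
  have hYm : ∀ k, Measurable (Y k) := by
    intro k
    by_cases hk : 1 ≤ k ∧ k ≤ K
    · have : Y k = Z k := by
        funext ω
        simp only [hY, if_pos hk]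
      rw [this]
      exact hZm k
    · have : Y k = fun _ => 0 := by
        funext ω
        simp only [hY, if_neg hk]
      rw [this]
      exact measurable_const
  have hPm : Measurable P :=
    Finset.measurable_fun_sum _ fun l _ => (measurable_El _ (hD1 l)).const_mul _
  -- pointwise bound for v
  have hv1 : ∀ l ω, v l ω ≤ 2 * El (pr l) (fun ω => ‖D1 b K a l ω‖ₑ ^ 2) ω +
      ∑ k ∈ (Finset.Icc 1 K).filter (fun k => k < l),
        ENNReal.ofReal (6 * (4 / 3 : ℝ) ^ (l - k)) *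
          El (pr l) (fun ω => ‖D2 b K a k l ω‖ₑ ^ 2) ω := by
    intro l ω
    have h1 : ∀ ω, ‖XX b K a (l + 1) ω - XX b K a l ω‖ₑ ^ 2 ≤
        2 * ‖D1 b K a l ω‖ₑ ^ 2 + ∑ k ∈ (Finset.Icc 1 K).filter (fun k => k < l),
          ENNReal.ofReal (6 * (4 / 3 : ℝ) ^ (l - k)) * ‖D2 b K a k l ω‖ₑ ^ 2 := by
      intro ω
      rw [XX_step]
      exact sq_cs' _ _ l (fun k hk => (Finset.mem_filter.1 hk).2) _
    refine (sq_El_mono (pr l) h1 ω).trans (le_of_eq ?_)
    rw [sq_El_add (pr l) ((hD1 l).const_mul 2) ω, sq_El_const (pr l) 2 (hD1 l) ω]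
    congr 1
    rw [sq_El_sum (pr l) _ (fun k => (hD2 k l).const_mul _) ω]
    apply Finset.sum_congr rfl
    intro k _
    exact sq_El_const (pr l) _ (hD2 k l) ω
  have hsumv : ∀ ω, ∑ l ∈ Finset.range n, v l ω ≤ P ω + ∑ k ∈ Finset.range (K + 1), Y k ω := by
    intro ω
    have h1 : ∑ k ∈ Finset.range (K + 1), Y k ω = ∑ k ∈ Finset.Icc 1 K, Z k ω := by
      simp only [hY]
      rw [← Finset.sum_filter]
      apply Finset.sum_congr
      · ext k
        simp only [Finset.mem_filter, Finset.mem_range, Finset.mem_Icc]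
        omega
      · intro k _
        rfl
    have h2 : ∑ k ∈ Finset.Icc 1 K, Z k ω = ∑ l ∈ Finset.range n,
        ∑ k ∈ (Finset.Icc 1 K).filter (fun k => k < l),
          ENNReal.ofReal (6 * (4 / 3 : ℝ) ^ (l - k)) *
            El (pr l) (fun ω => ‖D2 b K a k l ω‖ₑ ^ 2) ω := by
      simp only [hZ, Finset.sum_filter]
      rw [Finset.sum_comm]
    rw [h1, h2, hP, ← Finset.sum_add_distrib]
    exact Finset.sum_le_sum fun l _ => hv1 l ω
  -- first part
  have hP1 : ∀ ω, P ω ≤ ENNReal.ofReal (2 * C3) * B ω := by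
    intro ω
    have h1 : ∀ l, 2 * El (pr l) (fun ω => ‖D1 b K a l ω‖ₑ ^ 2) ω ≤
        if l < K + 2 then ENNReal.ofReal (2 * C3) * (ENNReal.ofReal ((2 ^ l)⁻¹) *
          ∫⁻ t in Set.Ico (0:ℝ) 1, ENNReal.ofReal (AA K a l t * NN b l t ω)) else 0 := by
      intro l
      have h2 := H3 K a l ω
      have hNN : ∀ t, 0 ≤ NN b l t ω := fun t => by unfold NN; positivity
      split_ifs with hl
      · calc 2 * El (pr l) (fun ω => ‖D1 b K a l ω‖ₑ ^ 2) ω
            ≤ 2 * (ENNReal.ofReal (C3 / 2 ^ l) * ∫⁻ t in Set.Ico (0:ℝ) 1, ENNReal.ofReal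
              ((∑ k ∈ Finset.Icc l K, ((2:ℝ) ^ (k - l))⁻¹ * gd K a k t ^ 2) * NN b l t ω)) := by
              gcongr
          _ ≤ 2 * (ENNReal.ofReal (C3 / 2 ^ l) * ∫⁻ t in Set.Ico (0:ℝ) 1, ENNReal.ofReal
              (AA K a l t * NN b l t ω)) := by
              gcongr with t
              · exact hNN t
              · unfold AA
                have := sq_nonneg (gd K a (l - 1) t)
                linarith
          _ = _ := by
              rw [← mul_assoc, ← mul_assoc]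
              congr 1
              rw [show (2 : ℝ≥0∞) = ENNReal.ofReal 2 by norm_num, ← ENNReal.ofReal_mul (by norm_num),
                ← ENNReal.ofReal_mul (by positivity)]
              congr 1
              ring
      · have h3 : Finset.Icc l K = ∅ := by
          rw [Finset.Icc_eq_empty_iff]
          omega
        rw [h3] at h2
        simp only [Finset.sum_empty, zero_mul, ENNReal.ofReal_zero, lintegral_const, mul_zero] at h2
        rw [le_zero_iff.1 h2, mul_zero]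
    calc P ω ≤ ∑ l ∈ Finset.range n, (if l < K + 2 then ENNReal.ofReal (2 * C3) *
          (ENNReal.ofReal ((2 ^ l)⁻¹) *
          ∫⁻ t in Set.Ico (0:ℝ) 1, ENNReal.ofReal (AA K a l t * NN b l t ω)) else 0) :=
          Finset.sum_le_sum fun l _ => h1 l
      _ = ∑ l ∈ (Finset.range n).filter (fun l => l < K + 2), ENNReal.ofReal (2 * C3) *
          (ENNReal.ofReal ((2 ^ l)⁻¹) *
          ∫⁻ t in Set.Ico (0:ℝ) 1, ENNReal.ofReal (AA K a l t * NN b l t ω)) := by
          rw [Finset.sum_filter]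
      _ ≤ ∑ l ∈ Finset.range (K + 2), ENNReal.ofReal (2 * C3) *
          (ENNReal.ofReal ((2 ^ l)⁻¹) *
          ∫⁻ t in Set.Ico (0:ℝ) 1, ENNReal.ofReal (AA K a l t * NN b l t ω)) := by
          apply Finset.sum_le_sum_of_subset
          intro l hl
          exact Finset.mem_range.2 (Finset.mem_filter.1 hl).2
      _ = _ := by
          rw [hB, Finset.mul_sum]
  -- second part
  have hY1 : ∀ ω, ∑ k ∈ Finset.range (K + 1), El (pr (k + 1)) (Y k) ω ≤
      ENNReal.ofReal (24 * C4) * B ω := by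
    intro ω
    have h1 : ∀ k, El (pr (k + 1)) (Y k) ω ≤ ENNReal.ofReal (24 * C4) *
        (ENNReal.ofReal ((2 ^ (k + 1))⁻¹) *
          ∫⁻ t in Set.Ico (0:ℝ) 1, ENNReal.ofReal (AA K a (k + 1) t * NN b (k + 1) t ω)) := by
      intro k
      by_cases hk : 1 ≤ k ∧ k ≤ K
      · have hYZ : Y k = Z k := by
          funext ω
          simp only [hY, if_pos hk]
        rw [hYZ]
        have h2 : El (pr (k + 1)) (Z k) ω = ∑ l ∈ (Finset.range n).filter (fun l => k < l),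
            ENNReal.ofReal (6 * (4 / 3 : ℝ) ^ (l - k)) *
              El (pr (k + 1)) (fun ω => ‖D2 b K a k l ω‖ₑ ^ 2) ω := by
          simp only [hZ]
          rw [sq_El_sum (pr (k + 1)) _ (fun l => (measurable_El _ (hD2 k l)).const_mul _) ω]
          apply Finset.sum_congr rfl
          intro l hl
          have hkl : k < l := (Finset.mem_filter.1 hl).2
          rw [sq_El_const (pr (k + 1)) _ (measurable_El _ (hD2 k l)) ω,
            El_tower (sq_pr_mono (by omega : k + 1 ≤ l)) (hD2 k l) ω]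
        have hNN : ∀ t, 0 ≤ NN b (k + 1) t ω := fun t => by unfold NN; positivity
        rw [h2]
        set J := ∫⁻ t in Set.Ico (0:ℝ) 1, ENNReal.ofReal
          (((2:ℝ) ^ k)⁻¹ * gd K a k t ^ 2 * NN b (k + 1) t ω) with hJ
        have hJ1 : J ≤ ENNReal.ofReal 2 * (ENNReal.ofReal ((2 ^ (k + 1))⁻¹) *
          ∫⁻ t in Set.Ico (0:ℝ) 1, ENNReal.ofReal (AA K a (k + 1) t * NN b (k + 1) t ω)) := by
          rw [← mul_assoc, ← ENNReal.ofReal_mul (by norm_num),
            ← lintegral_const_mul' _ _ ENNReal.ofReal_ne_top]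
          apply lintegral_mono
          intro t
          simp only
          rw [← ENNReal.ofReal_mul (by positivity)]
          apply ENNReal.ofReal_le_ofReal
          have h5 : gd K a k t ^ 2 ≤ AA K a (k + 1) t := by
            unfold AA
            have h6 : 0 ≤ ∑ k' ∈ Finset.Icc (k + 1) K, ((2:ℝ) ^ (k' - (k + 1)))⁻¹ * gd K a k' t ^ 2 :=
              Finset.sum_nonneg fun _ _ => by positivity
            rw [Nat.add_sub_cancel]
            linarith
          have h7 : (2 : ℝ) * (2 ^ (k + 1))⁻¹ = (2 ^ k)⁻¹ := by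
            rw [pow_succ]
            field_simp
          rw [h7, ← mul_assoc]
          gcongr
          exact hNN t
        calc ∑ l ∈ (Finset.range n).filter (fun l => k < l),
            ENNReal.ofReal (6 * (4 / 3 : ℝ) ^ (l - k)) *
              El (pr (k + 1)) (fun ω => ‖D2 b K a k l ω‖ₑ ^ 2) ω
            ≤ ∑ l ∈ (Finset.range n).filter (fun l => k < l),
            ENNReal.ofReal (6 * (4 / 3 : ℝ) ^ (l - k)) *
              (ENNReal.ofReal (C4 / 2 ^ (l - k)) * J) := by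
              apply Finset.sum_le_sum
              intro l hl
              have hkl : k < l := (Finset.mem_filter.1 hl).2
              gcongr
              exact H4 K a k l hkl ω
          _ = (∑ l ∈ (Finset.range n).filter (fun l => k < l),
            ENNReal.ofReal (6 * (4 / 3 : ℝ) ^ (l - k)) *
              ENNReal.ofReal (C4 / 2 ^ (l - k))) * J := by
              rw [Finset.sum_mul]
              apply Finset.sum_congr rfl
              intro l _
              ring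
          _ ≤ ENNReal.ofReal (12 * C4) * J := by
              gcongr
              exact sq_geom k n hC4.le
          _ ≤ ENNReal.ofReal (12 * C4) * (ENNReal.ofReal 2 * (ENNReal.ofReal ((2 ^ (k + 1))⁻¹) *
          ∫⁻ t in Set.Ico (0:ℝ) 1, ENNReal.ofReal (AA K a (k + 1) t * NN b (k + 1) t ω))) := by
              gcongr
          _ = _ := by
              rw [← mul_assoc, ← ENNReal.ofReal_mul (by positivity)]
              congr 2
              ring
      · have h0 : Y k = fun _ => 0 := by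
          funext ω
          simp only [hY, if_neg hk]
        rw [h0]
        simp only [El, lintegral_zero]
        exact zero_le
    calc ∑ k ∈ Finset.range (K + 1), El (pr (k + 1)) (Y k) ω
        ≤ ∑ k ∈ Finset.range (K + 1), ENNReal.ofReal (24 * C4) *
        (ENNReal.ofReal ((2 ^ (k + 1))⁻¹) *
          ∫⁻ t in Set.Ico (0:ℝ) 1, ENNReal.ofReal (AA K a (k + 1) t * NN b (k + 1) t ω)) :=
          Finset.sum_le_sum fun k _ => h1 k
      _ ≤ _ := by
          rw [← Finset.mul_sum]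
          gcongr
          simp only [hB]
          rw [Finset.sum_range_succ' _ (K + 1)]
          exact le_self_add
  have hf2 := H2 (fun k => pr (k + 1)) (fun k m h => sq_pr_mono (by omega : k + 1 ≤ m + 1)) Y hYm
    (K + 1)
  have hYsm : Measurable fun ω => (∑ k ∈ Finset.range (K + 1), Y k ω) ^ (1 / s) :=
    (Finset.measurable_fun_sum _ fun k _ => hYm k).pow_const _
  calc ∫⁻ ω, ‖XX b K a n ω‖ₑ ^ (2 / s) ∂mu
      ≤ ENNReal.ofReal C1 * ∫⁻ ω, (∑ l ∈ Finset.range n, v l ω) ^ (1 / s) ∂mu := hstep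
    _ ≤ ENNReal.ofReal C1 * ∫⁻ ω, (P ω ^ (1 / s) +
        (∑ k ∈ Finset.range (K + 1), Y k ω) ^ (1 / s)) ∂mu := by
        gcongr with ω
        calc (∑ l ∈ Finset.range n, v l ω) ^ (1 / s)
            ≤ (P ω + ∑ k ∈ Finset.range (K + 1), Y k ω) ^ (1 / s) :=
              ENNReal.rpow_le_rpow (hsumv ω) hr0.le
          _ ≤ _ := ENNReal.rpow_add_le_add_rpow _ _ hr0.le hr1.le
    _ = ENNReal.ofReal C1 * (∫⁻ ω, P ω ^ (1 / s) ∂mu +
        ∫⁻ ω, (∑ k ∈ Finset.range (K + 1), Y k ω) ^ (1 / s) ∂mu) := by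
        rw [lintegral_add_right _ hYsm]
    _ ≤ ENNReal.ofReal C1 * (ENNReal.ofReal ((2 * C3) ^ (1 / s)) * ∫⁻ ω, B ω ^ (1 / s) ∂mu +
        ENNReal.ofReal C2 * (ENNReal.ofReal ((24 * C4) ^ (1 / s)) * ∫⁻ ω, B ω ^ (1 / s) ∂mu)) := by
        have hc1 : ∫⁻ ω, P ω ^ (1 / s) ∂mu ≤
            ENNReal.ofReal ((2 * C3) ^ (1 / s)) * ∫⁻ ω, B ω ^ (1 / s) ∂mu := by
          rw [← lintegral_const_mul' _ _ ENNReal.ofReal_ne_top]
          apply lintegral_mono
          intro ω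
          simp only
          rw [← ENNReal.ofReal_rpow_of_pos (by positivity), ← ENNReal.mul_rpow_of_nonneg _ _ hr0.le]
          exact ENNReal.rpow_le_rpow (hP1 ω) hr0.le
        have hc2 : ∫⁻ ω, (∑ k ∈ Finset.range (K + 1), El (pr (k + 1)) (Y k) ω) ^ (1 / s) ∂mu ≤
            ENNReal.ofReal ((24 * C4) ^ (1 / s)) * ∫⁻ ω, B ω ^ (1 / s) ∂mu := by
          rw [← lintegral_const_mul' _ _ ENNReal.ofReal_ne_top]
          apply lintegral_mono
          intro ω
          simp only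
          rw [← ENNReal.ofReal_rpow_of_pos (by positivity), ← ENNReal.mul_rpow_of_nonneg _ _ hr0.le]
          exact ENNReal.rpow_le_rpow (hY1 ω) hr0.le
        gcongr
        exact hf2.trans (by gcongr)
    _ = _ := by
        rw [ENNReal.ofReal_mul hC1.le, ENNReal.ofReal_add (by positivity) (by positivity),
          ENNReal.ofReal_mul hC2.le]
        ring

end Emb
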