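/-
CHUNK NORM (L^q bound of the lifted function): E|X_n|^q <= C int_0^1 |g|^q, q = 2/s.
Proof. square_bound, point (2^-l N_l <= C 2^l mu_l^s Theta_l), groups with n = K+2, V = vV K a,
A l t = ofReal (AA K a l t) (AA_zero_of_vV, vV_nonneg, vV_mono), dy_main, doob; the exponents
(int |g|^q)^(1/s) (int |g|^q)^(1-1/s) = int |g|^q.
-/
import Pool.Agent.Lib.Emb.Square
import Pool.Agent.Lib.Emb.Groups
import Pool.Agent.Lib.Emb.Dy3
import Pool.Agent.Lib.Emb.Doob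

open MeasureTheory Complex
open scoped BigOperators ENNReal

namespace Emb

theorem XX_bound (s : ℝ) (hs1 : 1 < s) (hs2 : s < 2) : ∃ C : ℝ, 0 < C ∧
    ∀ (K : ℕ) (a : ℕ → ℝ) (n : ℕ),
      ∫⁻ ω, ‖XX (s - 1) K a n ω‖ₑ ^ (2 / s) ∂mu ≤
        ENNReal.ofReal C * ∫⁻ t in Set.Ico (0:ℝ) 1, ENNReal.ofReal (|a (ix K t)| ^ (2 / s)) := by
  have hs0 : 0 < s := by linarith
  have hq1 : 1 < 2 / s := by rw [lt_div_iff₀ hs0]; linarith
  have hq2 : 2 / s < 2 := by rw [div_lt_iff₀ hs0]; linarith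
  have hr0 : 0 ≤ 1 / s := by positivity
  have hr1 : 0 ≤ 1 - 1 / s := by
    rw [sub_nonneg, div_le_one hs0]; linarith
  obtain ⟨C1, hC1, h1⟩ := square_bound s hs1 hs2
  obtain ⟨C2, hC2, h2⟩ := point s hs1 hs2
  obtain ⟨C3, hC3, h3⟩ := groups s hs1 hs2
  obtain ⟨C4, hC4, h4⟩ := dy_main (2 / s) hq1 hq2
  obtain ⟨C5, hC5, h5⟩ := doob (2 / s) hq1
  refine ⟨C1 * (C2 ^ (1 / s) * (C3 * (C4 ^ (1 / s) * C5 ^ (1 - 1 / s)))), by positivity, ?_⟩
  intro K a n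
  refine (h1 K a n).trans ?_
  set J : ℝ≥0∞ := ∫⁻ t in Set.Ico (0:ℝ) 1, ENNReal.ofReal (|a (ix K t)| ^ (2 / s)) with hJ
  have hg := h3 (K + 2) (vV K a) (fun l t => ENNReal.ofReal (AA K a l t))
    (fun l => (measurable_AA K a l).ennreal_ofReal) (vV_nonneg K a) (vV_mono K a)
    (fun l t ht h => by
      show ENNReal.ofReal (AA K a l t) = 0
      rw [AA_zero_of_vV K a l t ht h]
      exact ENNReal.ofReal_zero)
  have hpt : ∀ ω : Om, (∑ l ∈ Finset.range (K + 2), ENNReal.ofReal ((2 ^ l)⁻¹) *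
      ∫⁻ t in Set.Ico (0:ℝ) 1, ENNReal.ofReal (AA K a l t * NN (s - 1) l t ω)) ^ (1 / s) ≤
      ENNReal.ofReal (C2 ^ (1 / s)) * (∑ l ∈ Finset.range (K + 2), ∫⁻ t in Set.Ico (0:ℝ) 1,
          ENNReal.ofReal (AA K a l t) *
            ENNReal.ofReal (2 ^ l * muL l t ω ^ s * Th l t ω)) ^ (1 / s) := by
    intro ω
    rw [← ENNReal.ofReal_rpow_of_pos hC2, ← ENNReal.mul_rpow_of_nonneg _ _ hr0]
    apply ENNReal.rpow_le_rpow _ hr0
    rw [Finset.mul_sum]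
    apply Finset.sum_le_sum
    intro l _
    rw [← lintegral_const_mul' _ _ ENNReal.ofReal_ne_top,
      ← lintegral_const_mul' _ _ ENNReal.ofReal_ne_top]
    apply lintegral_mono
    intro t
    have hA := AA_nonneg K a l t
    have h4l : ((2:ℝ) ^ l)⁻¹ * (4:ℝ) ^ l = 2 ^ l := by
      have : (4:ℝ) ^ l = 2 ^ l * 2 ^ l := by rw [← mul_pow]; norm_num
      rw [this]; field_simp
    have hpos : (0:ℝ) < ((2:ℝ) ^ l)⁻¹ := by positivity
    have h2' := h2 l t ω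
    show ENNReal.ofReal ((2 ^ l)⁻¹) * ENNReal.ofReal (AA K a l t * NN (s - 1) l t ω) ≤
      ENNReal.ofReal C2 * (ENNReal.ofReal (AA K a l t) *
        ENNReal.ofReal (2 ^ l * muL l t ω ^ s * Th l t ω))
    rw [← ENNReal.ofReal_mul hpos.le, ← ENNReal.ofReal_mul hA, ← ENNReal.ofReal_mul hC2.le]
    apply ENNReal.ofReal_le_ofReal
    calc (2 ^ l)⁻¹ * (AA K a l t * NN (s - 1) l t ω)
        ≤ (2 ^ l)⁻¹ * (AA K a l t * (C2 * (4 ^ l * muL l t ω ^ s * Th l t ω))) := by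
          apply mul_le_mul_of_nonneg_left _ hpos.le
          exact mul_le_mul_of_nonneg_left h2' hA
      _ = C2 * (AA K a l t * ((((2:ℝ) ^ l)⁻¹ * (4:ℝ) ^ l) * muL l t ω ^ s * Th l t ω)) := by ring
      _ = C2 * (AA K a l t * (2 ^ l * muL l t ω ^ s * Th l t ω)) := by rw [h4l]
  have hd := h5 K a
  have hm := h4 K a
  have e1 : (K + 2 - 1) = K + 1 := rfl
  rw [e1] at hg
  calc ENNReal.ofReal C1 * ∫⁻ ω, (∑ l ∈ Finset.range (K + 2), ENNReal.ofReal ((2 ^ l)⁻¹) *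
          ∫⁻ t in Set.Ico (0:ℝ) 1, ENNReal.ofReal (AA K a l t * NN (s - 1) l t ω)) ^ (1 / s) ∂mu
      ≤ ENNReal.ofReal C1 * ∫⁻ ω, ENNReal.ofReal (C2 ^ (1 / s)) *
          (∑ l ∈ Finset.range (K + 2), ∫⁻ t in Set.Ico (0:ℝ) 1,
          ENNReal.ofReal (AA K a l t) *
            ENNReal.ofReal (2 ^ l * muL l t ω ^ s * Th l t ω)) ^ (1 / s) ∂mu := by
        gcongr with ω
        exact hpt ω
    _ = ENNReal.ofReal C1 * (ENNReal.ofReal (C2 ^ (1 / s)) * ∫⁻ ω, 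
          (∑ l ∈ Finset.range (K + 2), ∫⁻ t in Set.Ico (0:ℝ) 1,
          ENNReal.ofReal (AA K a l t) *
            ENNReal.ofReal (2 ^ l * muL l t ω ^ s * Th l t ω)) ^ (1 / s) ∂mu) := by
        rw [lintegral_const_mul' _ _ ENNReal.ofReal_ne_top]
    _ ≤ ENNReal.ofReal C1 * (ENNReal.ofReal (C2 ^ (1 / s)) * (ENNReal.ofReal C3 *
          (ENNReal.ofReal C4 * J) ^ (1 / s) * (ENNReal.ofReal C5 * J) ^ (1 - 1 / s))) := by
        refine mul_le_mul_right ?_ _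
        refine mul_le_mul_right ?_ _
        refine hg.trans ?_
        refine mul_le_mul' (mul_le_mul_right (ENNReal.rpow_le_rpow hm hr0) _)
          (ENNReal.rpow_le_rpow hd hr1)
    _ = ENNReal.ofReal (C1 * (C2 ^ (1 / s) * (C3 * (C4 ^ (1 / s) * C5 ^ (1 - 1 / s))))) * J := by
        rw [ENNReal.mul_rpow_of_nonneg _ _ hr0, ENNReal.mul_rpow_of_nonneg _ _ hr1,
          ENNReal.ofReal_rpow_of_pos hC4, ENNReal.ofReal_rpow_of_pos hC5,
          ENNReal.ofReal_mul hC1.le, ENNReal.ofReal_mul (by positivity),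
          ENNReal.ofReal_mul hC3.le, ENNReal.ofReal_mul (by positivity)]
        have hJ1 : J ^ (1 / s) * J ^ (1 - 1 / s) = J := by
          rw [← ENNReal.rpow_add_of_nonneg _ _ hr0 hr1]
          simp
        calc _ = ENNReal.ofReal C1 * (ENNReal.ofReal (C2 ^ (1 / s)) * (ENNReal.ofReal C3 *
              (ENNReal.ofReal (C4 ^ (1 / s)) * ENNReal.ofReal (C5 ^ (1 - 1 / s))))) *
                (J ^ (1 / s) * J ^ (1 - 1 / s)) := by ring
          _ = _ := by rw [hJ1]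

end Emb
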