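/-
CHUNK P2 (the case p = 2).

int_0^1 |DP(1/2+it)|^2 dt <= C sum |a_n|^2.
Proof (dual large sieve). Let F(t) = DP(1/2+it). int_0^1 |F|^2 = sum_n a_n n^(-1/2) int e^(-it log n) conj F(t) dt
 = sum_n a_n n^(-1/2) conj( hat F (log n) )  <= (sum |a_n|^2)^(1/2) (sum_n (1/n)|hat F(log n)|^2)^(1/2)
 <= (sum|a_n|^2)^(1/2) (100 D int_0^1 |F|^2)^(1/2) by ls_main with weights 1/n (1 <= n <= N), frequencies
log n: mass of [v, v+1): sum_(e^v <= n < e^(v+1)) 1/n <= e <= 3. Divide.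
-/
import Pool.Agent.Lib.Emb.LS

open MeasureTheory Complex
open scoped BigOperators ENNReal

namespace Emb

/-- `n^(-1/2)`. -/
noncomputable def pw (n : ℕ) : ℝ := Real.exp (-(Real.log n) / 2)

lemma pw_sq {n : ℕ} (hn : 1 ≤ n) : pw n ^ 2 = 1 / (n : ℝ) := by
  have h0 : (0 : ℝ) < n := by exact_mod_cast hn
  unfold pw
  rw [← Real.exp_nat_mul]
  have : ((2 : ℕ) : ℝ) * (-(Real.log n) / 2) = -Real.log n := by push_cast; ring
  rw [this, Real.exp_neg, Real.exp_log h0, one_div]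

lemma p2_cpow {n : ℕ} (hn : 1 ≤ n) (t : ℝ) :
    (n : ℂ) ^ (-((1 / 2 : ℂ) + (t : ℂ) * I)) =
      (pw n : ℂ) * Complex.exp (((-(t * Real.log n) : ℝ) : ℂ) * I) := by
  have h0 : (n : ℂ) ≠ 0 := by
    have : n ≠ 0 := by omega
    exact_mod_cast this
  rw [Complex.cpow_def_of_ne_zero h0, ← Complex.natCast_log]
  unfold pw
  rw [Complex.ofReal_exp, ← Complex.exp_add]
  congr 1
  push_cast
  ring

/-- The function. -/
noncomputable def p2F (a : ℕ → ℂ) (N : ℕ) (t : ℝ) : ℂ :=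
  ∑ n ∈ Finset.Icc 1 N, a n * ((pw n : ℂ) * Complex.exp (((-(t * Real.log n) : ℝ) : ℂ) * I))

lemma p2F_eq (a : ℕ → ℂ) (N : ℕ) (t : ℝ) :
    DP a N ((1 / 2 : ℂ) + (t : ℂ) * I) = p2F a N t := by
  unfold DP p2F
  apply Finset.sum_congr rfl
  intro n hn
  rw [p2_cpow (Finset.mem_Icc.1 hn).1]

lemma p2F_cont (a : ℕ → ℂ) (N : ℕ) : Continuous (p2F a N) := by
  unfold p2F
  fun_prop

lemma p2_mass (N : ℕ) : UM (fun n : ℕ => if 1 ≤ n ∧ n ≤ N then ENNReal.ofReal (1 / (n : ℝ)) else 0)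
    (fun n : ℕ => Real.log n) 3 := by
  classical
  intro v
  have h1 : ∀ n : ℕ, (if ⌊Real.log n⌋ = v then
      (if 1 ≤ n ∧ n ≤ N then ENNReal.ofReal (1 / (n : ℝ)) else 0) else 0) ≤
      if n ∈ Finset.Icc 1 ⌊Real.exp (v + 1)⌋₊ then ENNReal.ofReal (Real.exp (-v)) else 0 := by
    intro n
    by_cases hv : ⌊Real.log n⌋ = v
    · by_cases hn : 1 ≤ n ∧ n ≤ N
      · have n0 : (0 : ℝ) < n := by exact_mod_cast hn.1
        have hle : (v : ℝ) ≤ Real.log n := by
          rw [← hv]; exact Int.floor_le _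
        have hlt : Real.log n < v + 1 := by
          rw [← hv]; exact Int.lt_floor_add_one _
        have hn2 : (n : ℝ) ≤ Real.exp (v + 1) := by
          have := Real.exp_le_exp.2 hlt.le
          rwa [Real.exp_log n0] at this
        have hmem : n ∈ Finset.Icc 1 ⌊Real.exp (v + 1)⌋₊ :=
          Finset.mem_Icc.2 ⟨hn.1, Nat.le_floor hn2⟩
        rw [if_pos hv, if_pos hn, if_pos hmem]
        apply ENNReal.ofReal_le_ofReal
        rw [Real.exp_neg, ← one_div]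
        apply one_div_le_one_div_of_le (Real.exp_pos _)
        have := Real.exp_le_exp.2 hle
        rwa [Real.exp_log n0] at this
      · rw [if_pos hv, if_neg hn]
        exact zero_le
    · rw [if_neg hv]
      exact zero_le
  calc ∑' n : ℕ, (if ⌊Real.log n⌋ = v then
      (if 1 ≤ n ∧ n ≤ N then ENNReal.ofReal (1 / (n : ℝ)) else 0) else 0)
      ≤ ∑' n : ℕ, (if n ∈ Finset.Icc 1 ⌊Real.exp (v + 1)⌋₊ then
          ENNReal.ofReal (Real.exp (-v)) else 0) := ENNReal.tsum_le_tsum h1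
    _ = ∑ n ∈ Finset.Icc 1 ⌊Real.exp (v + 1)⌋₊, ENNReal.ofReal (Real.exp (-v)) := by
        rw [tsum_eq_sum (s := Finset.Icc 1 ⌊Real.exp (v + 1)⌋₊)]
        · apply Finset.sum_congr rfl
          intro n hn
          rw [if_pos hn]
        · intro n hn
          rw [if_neg hn]
    _ = ENNReal.ofReal ((⌊Real.exp (v + 1)⌋₊ : ℝ) * Real.exp (-v)) := by
        rw [Finset.sum_const, Nat.card_Icc, nsmul_eq_mul, ENNReal.ofReal_mul (by positivity),
          ENNReal.ofReal_natCast, Nat.add_sub_cancel]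
    _ ≤ ENNReal.ofReal 3 := by
        apply ENNReal.ofReal_le_ofReal
        have h2 : (⌊Real.exp (v + 1)⌋₊ : ℝ) ≤ Real.exp (v + 1) :=
          Nat.floor_le (Real.exp_pos _).le
        calc (⌊Real.exp (v + 1)⌋₊ : ℝ) * Real.exp (-v) ≤ Real.exp (v + 1) * Real.exp (-v) := by
              gcongr
          _ = Real.exp 1 := by rw [← Real.exp_add]; congr 1; ring
          _ ≤ 3 := by
              have := Real.exp_one_lt_d9
              linarith
    _ = 3 := by norm_num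

/-- The identity behind the duality. -/
lemma p2_identity (a : ℕ → ℂ) (N : ℕ) :
    ((∫ t in (0:ℝ)..1, ‖p2F a N t‖ ^ 2 : ℝ) : ℂ) =
      ∑ n ∈ Finset.Icc 1 N, a n * ((pw n : ℂ) * (starRingEnd ℂ) (hat (p2F a N) (Real.log n))) := by
  have hc := p2F_cont a N
  have h1 : ((∫ t in (0:ℝ)..1, ‖p2F a N t‖ ^ 2 : ℝ) : ℂ)
      = ∫ t in (0:ℝ)..1, p2F a N t * (starRingEnd ℂ) (p2F a N t) := by
    rw [← intervalIntegral.integral_ofReal]
    congr 1
    funext t
    rw [Complex.mul_conj, Complex.normSq_eq_norm_sq]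
  have h2 : ∀ n : ℕ, (starRingEnd ℂ) (hat (p2F a N) (Real.log n))
      = ∫ t in (0:ℝ)..1, Complex.exp (((-(t * Real.log n) : ℝ) : ℂ) * I) *
          (starRingEnd ℂ) (p2F a N t) := by
    intro n
    unfold hat
    rw [intervalIntegral.integral_of_le zero_le_one, intervalIntegral.integral_of_le zero_le_one,
      ← integral_conj]
    congr 1
    funext t
    rw [map_mul, ← Complex.exp_conj, map_mul, Complex.conj_ofReal, Complex.conj_I, mul_comm]
    congr 2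
    push_cast
    ring
  rw [h1]
  have h3 : ∀ t : ℝ, p2F a N t * (starRingEnd ℂ) (p2F a N t)
      = ∑ n ∈ Finset.Icc 1 N, (a n * (pw n : ℂ)) *
        (Complex.exp (((-(t * Real.log n) : ℝ) : ℂ) * I) * (starRingEnd ℂ) (p2F a N t)) := by
    intro t
    generalize (starRingEnd ℂ) (p2F a N t) = z
    rw [p2F, Finset.sum_mul]
    apply Finset.sum_congr rfl
    intro n _
    ring
  simp_rw [h3]
  rw [intervalIntegral.integral_finsetSum]
  · apply Finset.sum_congr rfl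
    intro n _
    rw [intervalIntegral.integral_const_mul, h2]
    ring
  · intro n _
    apply Continuous.intervalIntegrable
    have h4 : Continuous fun t => (starRingEnd ℂ) (p2F a N t) := Complex.continuous_conj.comp hc
    fun_prop

lemma p2_ls (a : ℕ → ℂ) (N : ℕ) :
    ∑ n ∈ Finset.Icc 1 N, (pw n * ‖hat (p2F a N) (Real.log n)‖) ^ 2 ≤
      300 * ∫ t in (0:ℝ)..1, ‖p2F a N t‖ ^ 2 := by
  have hc := p2F_cont a N
  have hb : ∃ B : ℝ, ∀ t ∈ Set.Ico (0:ℝ) 1, ‖p2F a N t‖ ≤ B := by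
    refine ⟨∑ n ∈ Finset.Icc 1 N, ‖a n‖ * |pw n|, fun t _ => ?_⟩
    unfold p2F
    refine (norm_sum_le _ _).trans (Finset.sum_le_sum fun n _ => ?_)
    rw [norm_mul, norm_mul, Complex.norm_real, Complex.norm_exp_ofReal_mul_I, mul_one,
      Real.norm_eq_abs]
  have h := ls_main ℕ _ _ 3 (p2_mass N) (p2F a N) hc.measurable hb
  have hI : ∫⁻ t in Set.Ico (0:ℝ) 1, ‖p2F a N t‖ₑ ^ 2
      = ENNReal.ofReal (∫ t in (0:ℝ)..1, ‖p2F a N t‖ ^ 2) := by
    rw [intervalIntegral.integral_of_le zero_le_one, ← integral_Ico_eq_integral_Ioc,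
      ofReal_integral_eq_lintegral_ofReal]
    · apply lintegral_congr
      intro t
      rw [ENNReal.ofReal_pow (norm_nonneg _), ofReal_norm]
    · have h5 : Continuous fun t => ‖p2F a N t‖ ^ 2 := by fun_prop
      exact (h5.integrableOn_Icc (a := 0) (b := 1)).mono_set Set.Ico_subset_Icc_self
    · exact Filter.Eventually.of_forall fun t => by positivity
  have hL : ∑' n : ℕ, (if 1 ≤ n ∧ n ≤ N then ENNReal.ofReal (1 / (n : ℝ)) else 0) *
        ‖hat (p2F a N) (Real.log n)‖ₑ ^ 2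
      = ENNReal.ofReal (∑ n ∈ Finset.Icc 1 N, (pw n * ‖hat (p2F a N) (Real.log n)‖) ^ 2) := by
    rw [tsum_eq_sum (s := Finset.Icc 1 N), ENNReal.ofReal_sum_of_nonneg]
    · apply Finset.sum_congr rfl
      intro n hn
      rw [Finset.mem_Icc] at hn
      rw [if_pos hn, mul_pow, pw_sq hn.1, ENNReal.ofReal_mul (by positivity),
        ENNReal.ofReal_pow (norm_nonneg _), ofReal_norm]
    · intro n _
      positivity
    · intro n hn
      rw [Finset.mem_Icc] at hn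
      rw [if_neg hn, zero_mul]
  rw [hI, hL] at h
  have h300 : (100 * 3 : ℝ≥0∞) = ENNReal.ofReal 300 := by
    rw [show (300 : ℝ) = 100 * 3 by norm_num, ENNReal.ofReal_mul (by norm_num)]
    norm_num
  rw [h300, ← ENNReal.ofReal_mul (by norm_num)] at h
  have h0 : 0 ≤ ∫ t in (0:ℝ)..1, ‖p2F a N t‖ ^ 2 :=
    intervalIntegral.integral_nonneg zero_le_one fun t _ => by positivity
  exact (ENNReal.ofReal_le_ofReal_iff (by positivity)).1 h

theorem p2_embed : ∃ C : ℝ, 0 < C ∧ ∀ (a : ℕ → ℂ) (N : ℕ),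
    ∫ t in (0:ℝ)..1, ‖DP a N ((1 / 2 : ℂ) + (t : ℂ) * I)‖ ^ 2 ≤
      C * ∑ n ∈ Finset.Icc 1 N, ‖a n‖ ^ 2 := by
  refine ⟨300, by norm_num, fun a N => ?_⟩
  simp_rw [p2F_eq]
  set J : ℝ := ∫ t in (0:ℝ)..1, ‖p2F a N t‖ ^ 2 with hJ
  have h0 : 0 ≤ J := intervalIntegral.integral_nonneg zero_le_one fun t _ => by positivity
  have h1 := p2_identity a N
  have h2 := p2_ls a N
  rw [← hJ] at h1 h2
  have h3 : J ≤ ∑ n ∈ Finset.Icc 1 N, ‖a n‖ * (pw n * ‖hat (p2F a N) (Real.log n)‖) := by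
    have e : J = ‖((J : ℝ) : ℂ)‖ := by rw [Complex.norm_real, Real.norm_of_nonneg h0]
    rw [e, h1]
    refine (norm_sum_le _ _).trans (Finset.sum_le_sum fun n _ => ?_)
    rw [norm_mul, norm_mul, Complex.norm_real, Complex.norm_conj,
      Real.norm_of_nonneg (by unfold pw; positivity)]
  have h4 := Finset.sum_mul_sq_le_sq_mul_sq (Finset.Icc 1 N) (fun n => ‖a n‖)
    (fun n => pw n * ‖hat (p2F a N) (Real.log n)‖)
  set A : ℝ := ∑ n ∈ Finset.Icc 1 N, ‖a n‖ ^ 2 with hA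
  have hA0 : 0 ≤ A := Finset.sum_nonneg fun n _ => by positivity
  have h5 : J ^ 2 ≤ A * (300 * J) := by
    calc J ^ 2 ≤ (∑ n ∈ Finset.Icc 1 N, ‖a n‖ * (pw n * ‖hat (p2F a N) (Real.log n)‖)) ^ 2 :=
          pow_le_pow_left₀ h0 h3 2
      _ ≤ A * ∑ n ∈ Finset.Icc 1 N, (pw n * ‖hat (p2F a N) (Real.log n)‖) ^ 2 := h4
      _ ≤ A * (300 * J) := mul_le_mul_of_nonneg_left h2 hA0
  rcases h0.eq_or_lt with h6 | h6
  · rw [← h6]
    positivity
  · have h7 : J * J ≤ J * (300 * A) := by nlinarith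
    exact le_of_mul_le_mul_left h7 h6

end Emb
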