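/-
CHUNK FINAL (assembly of the positive part, p >= 2).
-/
import Pool.Agent.Lib.Emb.Norm
import Pool.Agent.Lib.Emb.Bohr
import Pool.Agent.Lib.Emb.Dual
import Pool.Agent.Lib.Emb.P2

open MeasureTheory Complex
open scoped BigOperators ENNReal Topology

namespace Emb

theorem fin_step_meas (K : ℕ) (a : ℕ → ℝ) : Measurable fun t : ℝ => a (ix K t) :=
  (measurable_from_top (f := a)).comp (measurable_ix K)

theorem fin_step_bdd (K : ℕ) (a : ℕ → ℝ) : ∃ B : ℝ, 0 ≤ B ∧ ∀ t ∈ Set.Icc (0:ℝ) 1,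
    |a (ix K t)| ≤ B := by
  refine ⟨∑ i ∈ Finset.range (2 ^ K + 1), |a i|, Finset.sum_nonneg fun i _ => abs_nonneg _, ?_⟩
  intro t ht
  have h1 : ix K t ≤ 2 ^ K := by
    unfold ix
    have : (2:ℝ) ^ K * t ≤ 2 ^ K := by
      have h2 : (0:ℝ) < 2 ^ K := by positivity
      nlinarith [ht.2]
    calc ⌊(2:ℝ) ^ K * t⌋₊ ≤ ⌊(2:ℝ) ^ K⌋₊ := Nat.floor_mono this
      _ = 2 ^ K := by
        have : ((2:ℝ) ^ K) = ((2 ^ K : ℕ) : ℝ) := by push_cast; rfl
        rw [this, Nat.floor_natCast]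
  exact Finset.single_le_sum (f := fun i => |a i|) (fun i _ => abs_nonneg _)
    (Finset.mem_range.mpr (by omega))

theorem fin_av_shift (K : ℕ) (a : ℕ → ℝ) (c : ℝ) (l i : ℕ) :
    av K (fun j => a j - c) l i = av K a l i - c := by
  unfold av
  rw [Finset.sum_sub_distrib, sub_div]
  simp

theorem fin_gd_shift (K : ℕ) (a : ℕ → ℝ) (c : ℝ) (k : ℕ) (t : ℝ) :
    gd K (fun j => a j - c) k t = gd K a k t := by
  unfold gd gE
  rw [fin_av_shift, fin_av_shift]
  simp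

theorem fin_XX_shift (b : ℝ) (K : ℕ) (a : ℕ → ℝ) (c : ℝ) (n : ℕ) (ω : Om) :
    XX b K (fun j => a j - c) n ω = XX b K a n ω := by
  unfold XX
  simp only [fin_gd_shift]

theorem fin_intervalIntegrable_step (K : ℕ) (a : ℕ → ℝ) (q : ℝ) (hq : 0 ≤ q) :
    IntervalIntegrable (fun t => |a (ix K t)| ^ q) volume 0 1 := by
  obtain ⟨B, hB0, hB⟩ := fin_step_bdd K a
  rw [intervalIntegrable_iff_integrableOn_Ioc_of_le zero_le_one]
  refine Measure.integrableOn_of_bounded (M := B ^ q) (by simp) ?_ ?_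
  · have h1 : Measurable fun t : ℝ => |a (ix K t)| := by
      have := fin_step_meas K a
      exact this.norm
    exact (h1.pow_const q).aestronglyMeasurable
  · rw [ae_restrict_iff' measurableSet_Ioc]
    refine Filter.Eventually.of_forall fun t ht => ?_
    rw [Real.norm_eq_abs, abs_of_nonneg (Real.rpow_nonneg (abs_nonneg _) _)]
    exact Real.rpow_le_rpow (abs_nonneg _) (hB t ⟨ht.1.le, ht.2⟩) hq

/-- Jensen on `[0,1]` for nonnegative measurable bounded functions. -/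
theorem fin_jensen (q : ℝ) (hq : 1 < q) (g : ℝ → ℝ) (hg : Measurable g) (B : ℝ)
    (hB : ∀ t ∈ Set.Icc (0:ℝ) 1, |g t| ≤ B) :
    ∫ t in (0:ℝ)..1, |g t| ≤ (∫ t in (0:ℝ)..1, |g t| ^ q) ^ (1 / q) := by
  have hconj : q.HolderConjugate (q / (q - 1)) := Real.HolderConjugate.conjExponent hq
  rw [intervalIntegral.integral_of_le zero_le_one, intervalIntegral.integral_of_le zero_le_one]
  have hmem : ∀ r : ℝ≥0∞, MemLp (fun t => |g t|) r (volume.restrict (Set.Ioc (0:ℝ) 1)) := by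
    intro r
    refine MemLp.of_bound (hg.norm.aestronglyMeasurable) B ?_
    rw [ae_restrict_iff' measurableSet_Ioc]
    refine Filter.Eventually.of_forall fun t ht => ?_
    rw [Real.norm_eq_abs, abs_abs]
    exact hB t ⟨ht.1.le, ht.2⟩
  have h := integral_mul_le_Lp_mul_Lq_of_nonneg (μ := volume.restrict (Set.Ioc (0:ℝ) 1)) hconj
    (f := fun t => |g t|) (g := fun _ => (1:ℝ))
    (Filter.Eventually.of_forall fun t => abs_nonneg _)
    (Filter.Eventually.of_forall fun t => zero_le_one) (hmem _) (memLp_const 1)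
  simp only [mul_one, Real.one_rpow, integral_const, smul_eq_mul] at h
  simpa using h

theorem fin_memLp_cont {f : Om → ℂ} (hf : Continuous f) (r : ℝ≥0∞) : MemLp f r mu := by
  obtain ⟨B, hB⟩ := (isCompact_range hf.norm).bddAbove
  refine MemLp.of_bound hf.aestronglyMeasurable B (Filter.Eventually.of_forall fun ω => ?_)
  exact hB ⟨ω, rfl⟩

/-- Hoelder on `Om` for continuous functions. -/
theorem fin_holder (p q : ℝ) (hpq : p.HolderConjugate q) (f g : Om → ℂ) (hf : Continuous f)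
    (hg : Continuous g) :
    ‖∫ ω, f ω * (starRingEnd ℂ) (g ω) ∂mu‖ ≤
      (∫ ω, ‖f ω‖ ^ p ∂mu) ^ (1 / p) * (∫ ω, ‖g ω‖ ^ q ∂mu) ^ (1 / q) := by
  calc ‖∫ ω, f ω * (starRingEnd ℂ) (g ω) ∂mu‖ ≤ ∫ ω, ‖f ω * (starRingEnd ℂ) (g ω)‖ ∂mu :=
        norm_integral_le_integral_norm _
    _ = ∫ ω, ‖f ω‖ * ‖g ω‖ ∂mu := by
        congr 1; ext ω; rw [norm_mul]; simp
    _ ≤ _ := integral_mul_le_Lp_mul_Lq_of_nonneg hpq
        (Filter.Eventually.of_forall fun ω => norm_nonneg _)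
        (Filter.Eventually.of_forall fun ω => norm_nonneg _)
        (fin_memLp_cont hf _).norm (fin_memLp_cont hg _).norm

theorem fin_integral_le_of_lintegral {f : Om → ℂ} (hf : Continuous f) (q : ℝ) (hq : 0 < q) (R : ℝ)
    (hR : 0 ≤ R) (h : ∫⁻ ω, ‖f ω‖ₑ ^ q ∂mu ≤ ENNReal.ofReal R) :
    ∫ ω, ‖f ω‖ ^ q ∂mu ≤ R := by
  have hc : Continuous fun ω => ‖f ω‖ ^ q := hf.norm.rpow_const fun ω => Or.inr hq.le
  rw [integral_eq_lintegral_of_nonneg_ae
    (Filter.Eventually.of_forall fun ω => Real.rpow_nonneg (norm_nonneg _) _)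
    hc.aestronglyMeasurable]
  refine ENNReal.toReal_le_of_le_ofReal hR ?_
  refine le_trans (le_of_eq ?_) h
  congr 1; ext ω
  rw [← ENNReal.ofReal_rpow_of_nonneg (norm_nonneg _) hq.le, ofReal_norm]

theorem fin_primes (N : ℕ) : ∃ m : ℕ, ∀ n ∈ Finset.Icc 1 N, n.primeFactors ⊆ pr m := by
  refine ⟨⌈2 * Real.log N⌉₊, ?_⟩
  intro n hn p hp
  rw [Finset.mem_Icc] at hn
  have hp1 := Nat.prime_of_mem_primeFactors hp
  have hp2 := Nat.le_of_mem_primeFactors hp
  rw [mem_pr]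
  refine ⟨hp1, ?_⟩
  have h1 : (0:ℝ) < p := by exact_mod_cast hp1.pos
  have h2 : Real.log p ≤ Real.log N := Real.log_le_log h1 (by exact_mod_cast hp2.trans hn.2)
  have h3 : 2 * Real.log N ≤ (⌈2 * Real.log N⌉₊ : ℝ) := Nat.le_ceil _
  have h4 : ((⌈2 * Real.log N⌉₊ : ℕ) : ℝ) ≤ 2 ^ ⌈2 * Real.log N⌉₊ := by
    exact_mod_cast (Nat.lt_two_pow_self).le
  linarith

theorem fin_continuous_DP (a : ℕ → ℂ) (N : ℕ) :
    Continuous fun t : ℝ => DP a N ((1 / 2 : ℂ) + (t : ℂ) * I) := by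
  unfold DP
  refine continuous_finsetSum _ fun n hn => ?_
  rw [Finset.mem_Icc] at hn
  have hn0 : (n : ℂ) ≠ 0 := by exact_mod_cast (by omega : n ≠ 0)
  refine continuous_const.mul ?_
  refine Continuous.const_cpow (by fun_prop) (Or.inl hn0)

/-- `c0` is the mean of the step function. -/
theorem fin_mean (K : ℕ) (a : ℕ → ℝ) : ∫ t in (0:ℝ)..1, a (ix K t) = av K a 0 0 := by
  have h0 : av K (fun j => a j - av K a 0 0) 0 0 = 0 := by rw [fin_av_shift]; ring
  have hint : ∀ k, IntervalIntegrable (fun t => gd K a k t) volume 0 1 := by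
    intro k
    obtain ⟨B, hB⟩ := bounded_gd K a k
    rw [intervalIntegrable_iff_integrableOn_Ioo_of_le zero_le_one]
    refine Measure.integrableOn_of_bounded (M := B) (by simp)
      (measurable_gd K a k).aestronglyMeasurable ?_
    rw [ae_restrict_iff' measurableSet_Ioo]
    exact Filter.Eventually.of_forall fun t ht => hB t ⟨ht.1.le, ht.2⟩
  have h1 : ∫ t in (0:ℝ)..1, a (ix K t) =
      ∫ t in (0:ℝ)..1, (∑ k ∈ Finset.Icc 1 K, gd K a k t) + av K a 0 0 := by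
    apply intervalIntegral.integral_congr_ae
    have hne : ∀ᵐ t : ℝ ∂volume, t ≠ 1 := by
      simp [ae_iff, measure_singleton]
    filter_upwards [hne] with t ht1 ht
    rw [Set.uIoc_of_le zero_le_one] at ht
    have h2 := sum_gd K (fun j => a j - av K a 0 0) h0 (t := t)
      ⟨ht.1.le, lt_of_le_of_ne ht.2 ht1⟩
    simp only [fin_gd_shift] at h2
    rw [h2]; ring
  rw [h1, intervalIntegral.integral_add, intervalIntegral.integral_finsetSum]
  · simp [gd_integral]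
  · intro k _; exact hint k
  · have := IntervalIntegrable.sum (Finset.Icc 1 K) (f := fun k t => gd K a k t)
      (fun k _ => hint k)
    exact this.congr (by intro t _; simp)
  · exact intervalIntegrable_const

theorem fin_norm_mono (p : ℝ) (hp : 2 < p) (f : Om → ℂ) (hf : Continuous f) :
    ∫ ω, ‖f ω‖ ^ (2:ℝ) ∂mu ≤ (∫ ω, ‖f ω‖ ^ p ∂mu) ^ (2 / p) := by
  have hp0 : 0 < p := by linarith
  have h1 : 1 < p / 2 := by linarith
  have hconj : (p / 2).HolderConjugate (p / 2 / (p / 2 - 1)) := Real.HolderConjugate.conjExponent h1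
  have hc : Continuous fun ω => ‖f ω‖ ^ (2:ℝ) := hf.norm.rpow_const fun ω => Or.inr (by norm_num)
  have hmem : MemLp (fun ω => ‖f ω‖ ^ (2:ℝ)) (ENNReal.ofReal (p / 2)) mu := by
    obtain ⟨B, hB⟩ := (isCompact_range hc).bddAbove
    refine MemLp.of_bound hc.aestronglyMeasurable B (Filter.Eventually.of_forall fun ω => ?_)
    rw [Real.norm_eq_abs, abs_of_nonneg (Real.rpow_nonneg (norm_nonneg _) _)]
    exact hB ⟨ω, rfl⟩
  have h := integral_mul_le_Lp_mul_Lq_of_nonneg (μ := mu) hconj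
    (f := fun ω => ‖f ω‖ ^ (2:ℝ)) (g := fun _ => (1:ℝ))
    (Filter.Eventually.of_forall fun t => Real.rpow_nonneg (norm_nonneg _) _)
    (Filter.Eventually.of_forall fun t => zero_le_one) hmem (memLp_const 1)
  simp only [mul_one, Real.one_rpow, integral_const, smul_eq_mul, probReal_univ] at h
  have h2 : ∀ ω, (‖f ω‖ ^ (2:ℝ)) ^ (p / 2) = ‖f ω‖ ^ p := by
    intro ω
    rw [← Real.rpow_mul (norm_nonneg _)]
    congr 1; ring
  simp only [h2] at h
  calc _ ≤ _ := h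
    _ = _ := by
      congr 1
      field_simp

theorem fin_p2 : ∃ C : ℝ, 0 < C ∧ ∀ (a : ℕ → ℂ) (N : ℕ),
    ∫ t in (0:ℝ)..1, ‖DP a N ((1 / 2 : ℂ) + (t : ℂ) * I)‖ ^ (2:ℝ) ≤
      C * ∫ ω, ‖FF a N ω‖ ^ (2:ℝ) ∂mu := by
  obtain ⟨C, hC, h⟩ := p2_embed
  refine ⟨C, hC, fun a N => ?_⟩
  rw [FF_l2]
  refine le_trans (le_of_eq ?_) (h a N)
  congr 1; ext t
  norm_num

theorem main_unit (p : ℝ) (hp : 2 < p) : ∃ C : ℝ, 0 < C ∧ ∀ (a : ℕ → ℂ) (N : ℕ),
    ∫ t in (0:ℝ)..1, ‖DP a N ((1 / 2 : ℂ) + (t : ℂ) * I)‖ ^ p ≤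
      C * ∫ ω, ‖FF a N ω‖ ^ p ∂mu := by
  have hp0 : 0 < p := by linarith
  have hp1 : 1 < p := by linarith
  set q : ℝ := p / (p - 1) with hq
  have hpm : 0 < p - 1 := by linarith
  have hconj : p.HolderConjugate q := Real.HolderConjugate.conjExponent hp1
  have hq1 : 1 < q := by rw [hq, lt_div_iff₀ hpm]; linarith
  have hq0 : 0 < q := by linarith
  have hq2 : q < 2 := by rw [hq, div_lt_iff₀ hpm]; linarith
  set s : ℝ := 2 / q with hs
  have hs1 : 1 < s := by rw [hs, lt_div_iff₀ hq0]; linarith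
  have hs2 : s < 2 := by rw [hs, div_lt_iff₀ hq0]; linarith
  have h2s : 2 / s = q := by rw [hs]; field_simp
  obtain ⟨C1, hC1, h1⟩ := XX_bound s hs1 hs2
  obtain ⟨C2, hC2, h2⟩ := fin_p2
  set A : ℝ := C2 ^ (1 / (2:ℝ)) + C1 ^ (1 / q) with hA
  have hA0 : 0 < A := by positivity
  refine ⟨(2 * A) ^ p, by positivity, fun c N => ?_⟩
  set E : ℝ := ∫ ω, ‖FF c N ω‖ ^ p ∂mu with hE
  have hE0 : 0 ≤ E := integral_nonneg fun ω => Real.rpow_nonneg (norm_nonneg _) _
  have hf := fin_continuous_DP c N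
  set f : ℝ → ℂ := fun t => DP c N ((1 / 2 : ℂ) + (t : ℂ) * I) with hfdef
  have hFF := continuous_FF c N
  have hcp : 1 / p + 1 / q = 1 := by
    have := hconj.inv_add_inv_eq_one
    simpa [one_div] using this
  -- bound of the integral of f
  have hint : ‖∫ t in (0:ℝ)..1, f t‖ ≤ C2 ^ (1 / (2:ℝ)) * E ^ (1 / p) := by
    have h3 : ‖∫ t in (0:ℝ)..1, f t‖ ≤ ∫ t in (0:ℝ)..1, ‖f t‖ :=
      intervalIntegral.norm_integral_le_integral_norm zero_le_one
    obtain ⟨B, hB⟩ := (isCompact_Icc (a := (0:ℝ)) (b := 1)).exists_bound_of_continuousOn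
      hf.continuousOn
    have h4 := fin_jensen 2 (by norm_num) (fun t => ‖f t‖) hf.norm.measurable B
      (fun t ht => by
        have := hB t ht
        simpa using this)
    simp only [abs_norm] at h4
    have h5 := h2 c N
    have h6 := fin_norm_mono p hp (FF c N) hFF
    calc ‖∫ t in (0:ℝ)..1, f t‖ ≤ (∫ t in (0:ℝ)..1, ‖f t‖ ^ (2:ℝ)) ^ (1 / (2:ℝ)) := h3.trans h4
      _ ≤ (C2 * E ^ (2 / p)) ^ (1 / (2:ℝ)) := by
        apply Real.rpow_le_rpow
        · exact intervalIntegral.integral_nonneg zero_le_one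
            fun t _ => Real.rpow_nonneg (norm_nonneg _) _
        · exact h5.trans (mul_le_mul_of_nonneg_left h6 hC2.le)
        · positivity
      _ = C2 ^ (1 / (2:ℝ)) * E ^ (1 / p) := by
        rw [Real.mul_rpow hC2.le (Real.rpow_nonneg hE0 _), ← Real.rpow_mul hE0]
        congr 2
        field_simp
  have key : ∀ (K : ℕ) (a : ℕ → ℝ), ‖∫ t in (0:ℝ)..1, (a (ix K t) : ℂ) * f t‖ ≤
      (A * E ^ (1 / p)) * (∫ t in (0:ℝ)..1, |a (ix K t)| ^ q) ^ (1 / q) := by
    intro K a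
    set c0 : ℝ := av K a 0 0 with hc0
    set G : ℝ := ∫ t in (0:ℝ)..1, |a (ix K t)| ^ q with hG
    have hG0 : 0 ≤ G := intervalIntegral.integral_nonneg zero_le_one
            fun t _ => Real.rpow_nonneg (abs_nonneg _) _
    have hmeas := fin_step_meas K a
    obtain ⟨B, hB0, hB⟩ := fin_step_bdd K a
    have hc0le : |c0| ≤ G ^ (1 / q) := by
      have e1 := fin_mean K a
      rw [hc0, ← e1]
      calc |∫ t in (0:ℝ)..1, a (ix K t)| ≤ ∫ t in (0:ℝ)..1, |a (ix K t)| :=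
            intervalIntegral.abs_integral_le_integral_abs zero_le_one
        _ ≤ _ := fin_jensen q hq1 (fun t => a (ix K t)) hmeas B hB
    have hav : av K (fun j => a j - c0) 0 0 = 0 := by rw [fin_av_shift]; ring
    obtain ⟨m, hm⟩ := fin_primes N
    have hb0 : 0 ≤ s - 1 := by linarith
    have hb1 : s - 1 ≤ 1 := by linarith
    have hlift := lift hb0 hb1 K (fun j => a j - c0) hav c N m hm
    simp only [fin_XX_shift] at hlift
    have hX := continuous_XX (s - 1) K a m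
    -- L^q norm of X
    have hXq : ∫ ω, ‖XX (s - 1) K a m ω‖ ^ q ∂mu ≤ C1 * G := by
      apply fin_integral_le_of_lintegral hX q hq0 _ (by positivity)
      have h7 := h1 K a m
      rw [h2s] at h7
      refine h7.trans (le_of_eq ?_)
      rw [ENNReal.ofReal_mul hC1.le]
      congr 1
      rw [hG, intervalIntegral.integral_of_le zero_le_one, ← integral_Ico_eq_integral_Ioc,
        ofReal_integral_eq_lintegral_ofReal]
      · have := fin_intervalIntegrable_step K a q hq0.le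
        rw [intervalIntegrable_iff_integrableOn_Ico_of_le zero_le_one] at this
        exact this
      · exact Filter.Eventually.of_forall fun t => Real.rpow_nonneg (abs_nonneg _) _
    have hI1 : IntervalIntegrable (fun t => (((a (ix K t) - c0 : ℝ)) : ℂ) * f t) volume 0 1 := by
      rw [intervalIntegrable_iff_integrableOn_Ioc_of_le zero_le_one]
      obtain ⟨Bf, hBf⟩ := (isCompact_Icc (a := (0:ℝ)) (b := 1)).exists_bound_of_continuousOn
        hf.continuousOn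
      refine Measure.integrableOn_of_bounded (M := (B + |c0|) * Bf) (by simp) ?_ ?_
      · exact ((Complex.measurable_ofReal.comp (hmeas.sub_const c0)).mul
          hf.measurable).aestronglyMeasurable
      · rw [ae_restrict_iff' measurableSet_Ioc]
        refine Filter.Eventually.of_forall fun t ht => ?_
        rw [norm_mul]
        have e1 := hBf t ⟨ht.1.le, ht.2⟩
        have e2 := hB t ⟨ht.1.le, ht.2⟩
        have e3 : ‖((a (ix K t) - c0 : ℝ) : ℂ)‖ ≤ B + |c0| := by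
          rw [Complex.norm_real, Real.norm_eq_abs]
          exact (abs_sub _ _).trans (by linarith)
        exact mul_le_mul e3 e1 (norm_nonneg _) (by positivity)
    have hI2 : IntervalIntegrable (fun t => (c0 : ℂ) * f t) volume 0 1 :=
      (continuous_const.mul hf).intervalIntegrable _ _
    have hsplit : ∫ t in (0:ℝ)..1, (a (ix K t) : ℂ) * f t =
        (∫ t in (0:ℝ)..1, (((a (ix K t) - c0 : ℝ)) : ℂ) * f t) +
          (c0 : ℂ) * ∫ t in (0:ℝ)..1, f t := by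
      rw [← intervalIntegral.integral_const_mul, ← intervalIntegral.integral_add hI1 hI2]
      congr 1; ext t; push_cast; ring
    rw [hsplit]
    have hpart : ‖∫ t in (0:ℝ)..1, (((a (ix K t) - c0 : ℝ)) : ℂ) * f t‖ ≤
        E ^ (1 / p) * (C1 * G) ^ (1 / q) := by
      rw [← hlift]
      refine (fin_holder p q hconj (FF c N) (XX (s - 1) K a m) hFF hX).trans ?_
      apply mul_le_mul_of_nonneg_left _ (Real.rpow_nonneg hE0 _)
      apply Real.rpow_le_rpow (integral_nonneg fun ω => Real.rpow_nonneg (norm_nonneg _) _) hXq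
      positivity
    calc ‖(∫ t in (0:ℝ)..1, (((a (ix K t) - c0 : ℝ)) : ℂ) * f t) +
          (c0 : ℂ) * ∫ t in (0:ℝ)..1, f t‖
        ≤ E ^ (1 / p) * (C1 * G) ^ (1 / q) + G ^ (1 / q) * (C2 ^ (1 / (2:ℝ)) * E ^ (1 / p)) := by
          refine (norm_add_le _ _).trans (add_le_add hpart ?_)
          rw [norm_mul, Complex.norm_real, Real.norm_eq_abs]
          exact mul_le_mul hc0le hint (norm_nonneg _) (Real.rpow_nonneg hG0 _)
      _ = (A * E ^ (1 / p)) * G ^ (1 / q) := by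
          rw [Real.mul_rpow hC1.le hG0, hA]; ring
  have hB0 : 0 ≤ A * E ^ (1 / p) := by positivity
  have hdual := duality p q hq1 hcp hp1 f hf (A * E ^ (1 / p)) hB0 key
  refine hdual.trans (le_of_eq ?_)
  rw [← mul_assoc, Real.mul_rpow (by positivity) (Real.rpow_nonneg hE0 _), ← Real.rpow_mul hE0]
  rw [one_div_mul_cancel hp0.ne', Real.rpow_one]

theorem unit_all (p : ℝ) (hp : 2 ≤ p) : ∃ C : ℝ, 0 < C ∧ ∀ (a : ℕ → ℂ) (N : ℕ),
    ∫ t in (0:ℝ)..1, ‖DP a N ((1 / 2 : ℂ) + (t : ℂ) * I)‖ ^ p ≤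
      C * ∫ ω, ‖FF a N ω‖ ^ p ∂mu := by
  rcases hp.eq_or_lt with h | h
  · rw [← h]; exact fin_p2
  · exact main_unit p h

theorem fin_DP_shift (a : ℕ → ℂ) (N : ℕ) (τ t : ℝ) :
    DP a N ((1 / 2 : ℂ) + ((t + τ : ℝ) : ℂ) * I) =
      DP (fun n => a n * (n : ℂ) ^ (-((τ : ℂ) * I))) N ((1 / 2 : ℂ) + (t : ℂ) * I) := by
  unfold DP
  refine Finset.sum_congr rfl fun n hn => ?_
  rw [Finset.mem_Icc] at hn
  have hn0 : (n : ℂ) ≠ 0 := by exact_mod_cast (by omega : n ≠ 0)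
  rw [mul_assoc, ← Complex.cpow_add _ _ hn0]
  congr 2
  push_cast; ring

theorem main_pos (p : ℝ) (hp : 2 ≤ p) (L : ℝ) (hL : 0 < L) : ∃ C : ℝ, 0 < C ∧
    ∀ (a : ℕ → ℂ) (N : ℕ) (τ m : ℝ),
      Filter.Tendsto (fun T : ℝ => (1 / (2 * T)) * ∫ t in (-T)..T, ‖DP a N ((t : ℂ) * I)‖ ^ p)
        Filter.atTop (𝓝 m) →
      ∫ t in τ..(τ + L), ‖DP a N ((1 / 2 : ℂ) + (t : ℂ) * I)‖ ^ p ≤ C * m := by
  have hp0 : 0 < p := by linarith
  obtain ⟨C, hC, h⟩ := unit_all p hp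
  refine ⟨(⌈L⌉₊ : ℝ) * C, by positivity, fun a N τ m hm => ?_⟩
  have hmE : m = ∫ ω, ‖FF a N ω‖ ^ p ∂mu := tendsto_nhds_unique hm (bohr p hp0 a N)
  rw [hmE]
  set E : ℝ := ∫ ω, ‖FF a N ω‖ ^ p ∂mu with hE
  have hf := fin_continuous_DP a N
  have hfp : Continuous fun t : ℝ => ‖DP a N ((1 / 2 : ℂ) + (t : ℂ) * I)‖ ^ p :=
    hf.norm.rpow_const fun t => Or.inr hp0.le
  have hunit : ∀ σ : ℝ, ∫ t in σ..(σ + 1), ‖DP a N ((1 / 2 : ℂ) + (t : ℂ) * I)‖ ^ p ≤ C * E := by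
    intro σ
    have h1 := h (fun n => a n * (n : ℂ) ^ (-((σ : ℂ) * I))) N
    rw [twist p hp0 a N σ] at h1
    refine le_trans (le_of_eq ?_) h1
    have h2 := intervalIntegral.integral_comp_add_right
      (fun t : ℝ => ‖DP a N ((1 / 2 : ℂ) + (t : ℂ) * I)‖ ^ p) (a := 0) (b := 1) σ
    rw [show (σ + 1 : ℝ) = 1 + σ by ring]
    rw [zero_add] at h2
    rw [← h2]
    congr 1; ext t
    rw [fin_DP_shift]
  have hsum : ∀ k : ℕ, ∫ t in τ..(τ + k), ‖DP a N ((1 / 2 : ℂ) + (t : ℂ) * I)‖ ^ p ≤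
      k * (C * E) := by
    intro k
    induction k with
    | zero => simp
    | succ k ih =>
      have e1 : ∫ t in τ..(τ + ((k + 1 : ℕ) : ℝ)), ‖DP a N ((1 / 2 : ℂ) + (t : ℂ) * I)‖ ^ p =
          (∫ t in τ..(τ + k), ‖DP a N ((1 / 2 : ℂ) + (t : ℂ) * I)‖ ^ p) +
          ∫ t in (τ + k)..(τ + k + 1), ‖DP a N ((1 / 2 : ℂ) + (t : ℂ) * I)‖ ^ p := by
        rw [intervalIntegral.integral_add_adjacent_intervals (hfp.intervalIntegrable _ _)
          (hfp.intervalIntegrable _ _)]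
        congr 1; push_cast; ring
      rw [e1]
      have := hunit (τ + k)
      push_cast
      linarith
  have hmono : ∫ t in τ..(τ + L), ‖DP a N ((1 / 2 : ℂ) + (t : ℂ) * I)‖ ^ p ≤
      ∫ t in τ..(τ + ⌈L⌉₊), ‖DP a N ((1 / 2 : ℂ) + (t : ℂ) * I)‖ ^ p := by
    have hLc : L ≤ ⌈L⌉₊ := Nat.le_ceil L
    apply intervalIntegral.integral_mono_interval le_rfl (by linarith) (by linarith)
    · exact Filter.Eventually.of_forall fun t => Real.rpow_nonneg (norm_nonneg _) _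
    · exact hfp.intervalIntegrable _ _
  calc _ ≤ _ := hmono
    _ ≤ (⌈L⌉₊ : ℝ) * (C * E) := hsum _
    _ = (⌈L⌉₊ : ℝ) * C * E := by ring

end Emb
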