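import Pool.Agent.Lib.Emb.Prime1
import Pool.Agent.Lib.Emb.CoreNT

/-!
# Chunk M: moments under the tilted measure

`UU (pr l) t = ∑_{p ∈ pr l} log p (k_p - 1)`.  For `|u| ≤ 1` the real function
`f_p = (1/2) 2^{-l} log p Re (u (k_p - 1))` satisfies `|f_p| ≤ 1` (as `2^{-l} log p ≤ 1/2`),
`|E_t f_p| ≤ 2^{-l} log p / p`, so `E_t e^{f_p} ≤ 1 + E_t f_p + E_t f_p² ≤ 1 + 3 2^{-l} log p / p` and
`E_t exp((1/2) 2^{-l} Re (u UU)) ≤ exp(3 2^{-l} ∑ log p / p) ≤ C'` (`tilt_exp_sum`, `sum_log_div`).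
Then `‖z‖^k ≤ 4^k k! ∑_{u^4 = 1} exp (Re (u z) / 2)`.
-/

open MeasureTheory Complex ProbabilityTheory
open scoped BigOperators ENNReal Nat

namespace Emb

private lemma pow_le_four (z : ℂ) (k : ℕ) : ‖z‖ ^ k ≤ 4 ^ k * k ! *
    (Real.exp (1 / 2 * (1 * z).re) + Real.exp (1 / 2 * ((-1) * z).re) +
      Real.exp (1 / 2 * (I * z).re) + Real.exp (1 / 2 * ((-I) * z).re)) := by
  have h1 := Real.pow_div_factorial_le_exp (x := ‖z‖ / 4) (by positivity) k
  have hk : (0 : ℝ) < k ! := by exact_mod_cast Nat.factorial_pos k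
  rw [div_le_iff₀ hk] at h1
  have h2 : ‖z‖ ^ k = 4 ^ k * (‖z‖ / 4) ^ k := by
    rw [← mul_pow]
    congr 1
    ring
  have h3 := Complex.norm_le_abs_re_add_abs_im z
  have e1 : (1 * z).re = z.re := by simp
  have e2 : ((-1) * z).re = -z.re := by simp
  have e3 : (I * z).re = -z.im := by simp
  have e4 : ((-I) * z).re = z.im := by simp
  rw [e1, e2, e3, e4]
  have p1 := Real.exp_pos (1 / 2 * z.re)
  have p2 := Real.exp_pos (1 / 2 * -z.re)
  have p3 := Real.exp_pos (1 / 2 * -z.im)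
  have p4 := Real.exp_pos (1 / 2 * z.im)
  have h4 : Real.exp (‖z‖ / 4) ≤ Real.exp (1 / 2 * z.re) + Real.exp (1 / 2 * -z.re) +
      Real.exp (1 / 2 * -z.im) + Real.exp (1 / 2 * z.im) := by
    rcases le_total |z.re| |z.im| with h | h
    · rcases abs_cases z.im with ⟨h5, -⟩ | ⟨h5, -⟩
      · have := Real.exp_le_exp.2 (show ‖z‖ / 4 ≤ 1 / 2 * z.im by linarith)
        linarith
      · have := Real.exp_le_exp.2 (show ‖z‖ / 4 ≤ 1 / 2 * -z.im by linarith)
        linarith
    · rcases abs_cases z.re with ⟨h5, -⟩ | ⟨h5, -⟩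
      · have := Real.exp_le_exp.2 (show ‖z‖ / 4 ≤ 1 / 2 * z.re by linarith)
        linarith
      · have := Real.exp_le_exp.2 (show ‖z‖ / 4 ≤ 1 / 2 * -z.re by linarith)
        linarith
  rw [h2, mul_assoc]
  apply mul_le_mul_of_nonneg_left _ (by positivity)
  calc (‖z‖ / 4) ^ k ≤ Real.exp (‖z‖ / 4) * k ! := h1
    _ ≤ (Real.exp (1 / 2 * z.re) + Real.exp (1 / 2 * -z.re) +
      Real.exp (1 / 2 * -z.im) + Real.exp (1 / 2 * z.im)) * k ! :=
        mul_le_mul_of_nonneg_right h4 hk.le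
    _ = _ := by ring

/-- continuous functions are integrable with respect to the tilted measures -/
theorem integrable_cont {S : Finset ℕ} (hS : ∀ p ∈ S, p.Prime) (t : ℝ) {f : Om → ℝ}
    (hf : Continuous f) : Integrable f (tilt S t) := by
  have := tilt_prob hS t
  obtain ⟨C, hC⟩ := isCompact_univ.exists_bound_of_continuousOn hf.continuousOn
  exact Integrable.of_bound hf.aestronglyMeasurable C
    (Filter.Eventually.of_forall fun ω => hC ω (Set.mem_univ _))

private lemma cont_pair (α : Type) [TopologicalSpace α] (t : ℝ) :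
    Continuous (fun x : α => ((t, x) : ℝ × α)) := by fun_prop

private lemma cont_k1 {p : ℕ} (hp : p.Prime) (t : ℝ) :
    Continuous (fun x : UnitAddCircle => k1 p t x) := by
  have h := continuous_k1 hp
  have h2 := h.comp (cont_pair UnitAddCircle t)
  exact h2

private lemma cont_UU {S : Finset ℕ} (hS : ∀ p ∈ S, p.Prime) (t : ℝ) :
    Continuous (fun ω : Om => UU S t ω) := by
  have h := continuous_UU hS
  have h2 := h.comp (cont_pair Om t)
  exact h2

/-- one factor -/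
private lemma one_factor {l p : ℕ} (hp : p ∈ pr l) (t : ℝ) {u : ℂ} (hu : ‖u‖ ≤ 1) :
    ∫ ω, Real.exp (1 / 2 * ((2 ^ l)⁻¹ * (u * ((Real.log p : ℂ) * (k1 p t (ω p) - 1))).re))
      ∂(tilt (pr l) t) ≤ Real.exp (3 * ((2 ^ l)⁻¹ * (Real.log p / p))) := by
  have hS : ∀ p ∈ pr l, p.Prime := fun p hp => pr_prime hp
  have := tilt_prob hS t
  have hpp := pr_prime hp
  have hp2 : (2 : ℝ) ≤ p := by exact_mod_cast hpp.two_le
  have hlog : 0 ≤ Real.log p := Real.log_nonneg (by linarith)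
  have hpl := (mem_pr.1 hp).2
  set a : ℝ := (2 ^ l)⁻¹ * Real.log p with ha
  have h2l : (0 : ℝ) < 2 ^ l := by positivity
  have ha0 : 0 ≤ a := by positivity
  have ha1 : a ≤ 1 / 2 := by
    rw [ha, inv_mul_le_iff₀ h2l]
    linarith
  -- the function
  set f : UnitAddCircle → ℝ := fun x => a / 2 * (u * (k1 p t x - 1)).re with hf
  have hfc : Continuous f := by
    have h1 := cont_k1 hpp t
    exact continuous_const.mul (Complex.continuous_re.comp
      (continuous_const.mul (h1.sub continuous_const)))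
  have hfe : ∀ ω : Om, 1 / 2 * ((2 ^ l)⁻¹ * (u * ((Real.log p : ℂ) * (k1 p t (ω p) - 1))).re) =
      f (ω p) := by
    intro ω
    have h1 : u * ((Real.log p : ℂ) * (k1 p t (ω p) - 1)) =
      ((Real.log p : ℝ) : ℂ) * (u * (k1 p t (ω p) - 1)) := by ring
    rw [h1, Complex.re_ofReal_mul]
    simp only [hf, ha]
    ring
  simp only [hfe]
  have hsq : Real.sqrt p ^ 2 = p := Real.sq_sqrt (by linarith)
  have hsp : 0 < Real.sqrt p := Real.sqrt_pos.2 (by linarith)
  have hre : ∀ x, |(u * (k1 p t x - 1)).re| ≤ 4 / Real.sqrt p := by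
    intro x
    calc |(u * (k1 p t x - 1)).re| ≤ ‖u * (k1 p t x - 1)‖ := Complex.abs_re_le_norm _
      _ = ‖u‖ * ‖k1 p t x - 1‖ := norm_mul _ _
      _ ≤ 1 * (4 / Real.sqrt p) :=
          mul_le_mul hu (norm_k1_sub hpp t x) (norm_nonneg _) zero_le_one
      _ = _ := one_mul _
  have hfsq : ∀ x, f x ^ 2 ≤ 2 * a / p := by
    intro x
    have h1 : f x ^ 2 = a ^ 2 / 4 * ((u * (k1 p t x - 1)).re) ^ 2 := by
      simp only [hf]; ring
    have h2 : ((u * (k1 p t x - 1)).re) ^ 2 ≤ 16 / p := by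
      rw [← sq_abs]
      calc |(u * (k1 p t x - 1)).re| ^ 2 ≤ (4 / Real.sqrt p) ^ 2 :=
            pow_le_pow_left₀ (abs_nonneg _) (hre x) 2
        _ = 16 / p := by rw [div_pow, hsq]; norm_num
    rw [h1]
    calc a ^ 2 / 4 * ((u * (k1 p t x - 1)).re) ^ 2 ≤ a ^ 2 / 4 * (16 / p) :=
          mul_le_mul_of_nonneg_left h2 (by positivity)
      _ = (a * (4 * a)) / p := by ring
      _ ≤ (a * 2) / p := by
          apply div_le_div_of_nonneg_right _ (by linarith)
          exact mul_le_mul_of_nonneg_left (by linarith) ha0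
      _ = 2 * a / p := by ring
  have hf1 : ∀ x, |f x| ≤ 1 := by
    intro x
    have h1 := hfsq x
    have h2 : 2 * a / p ≤ 1 := by
      rw [div_le_one (by linarith)]
      linarith
    exact abs_le_one_iff_mul_self_le_one.2 (by nlinarith)
  have hexp : ∀ x, Real.exp (f x) ≤ 1 + f x + 2 * a / p := by
    intro x
    have h1 := abs_le.1 (Real.abs_exp_sub_one_sub_id_le (hf1 x))
    linarith [h1.2, hfsq x]
  have hmean : ∫ ω, f (ω p) ∂(tilt (pr l) t) ≤ a / p := by
    have h1 : ∫ ω, (u * (k1 p t ((ω : Om) p) - 1)) ∂(tilt (pr l) t) = u * (1 / ((p : ℂ) - 1)) := by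
      have h2 := tilt_coord hS t hp (fun x => u * (k1 p t x - 1))
        (continuous_const.mul ((cont_k1 hpp t).sub continuous_const))
      rw [h2, ← int_k1 hpp t, ← integral_const_mul]
      refine integral_congr_ae (Filter.Eventually.of_forall fun x => ?_)
      simp only
      ring
    have hint : Integrable (fun ω : Om => u * (k1 p t (ω p) - 1)) (tilt (pr l) t) := by
      have hc : Continuous (fun ω : Om => u * (k1 p t (ω p) - 1)) :=
        continuous_const.mul (((cont_k1 hpp t).comp (continuous_apply p)).sub continuous_const)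
      obtain ⟨C, hC⟩ := isCompact_univ.exists_bound_of_continuousOn hc.continuousOn
      exact Integrable.of_bound hc.aestronglyMeasurable C
        (Filter.Eventually.of_forall fun ω => hC ω (Set.mem_univ _))
    have h3 : ∫ ω, (u * (k1 p t ((ω : Om) p) - 1)).re ∂(tilt (pr l) t) =
        (u * (1 / ((p : ℂ) - 1))).re := by
      rw [← h1]
      exact integral_re hint
    have h4 : ∫ ω, f (ω p) ∂(tilt (pr l) t) = a / 2 * (u * (1 / ((p : ℂ) - 1))).re := by
      rw [← h3, ← integral_const_mul]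
    rw [h4]
    have h5 : (u * (1 / ((p : ℂ) - 1))).re ≤ 1 / ((p : ℝ) - 1) := by
      refine (Complex.re_le_norm _).trans ?_
      rw [norm_mul, norm_div, norm_one]
      have h6 : ‖(p : ℂ) - 1‖ = (p : ℝ) - 1 := by
        have : (p : ℂ) - 1 = (((p : ℝ) - 1 : ℝ) : ℂ) := by push_cast; ring
        rw [this, Complex.norm_real, Real.norm_eq_abs, abs_of_nonneg (by linarith)]
      rw [h6]
      calc ‖u‖ * (1 / ((p : ℝ) - 1)) ≤ 1 * (1 / ((p : ℝ) - 1)) :=
            mul_le_mul_of_nonneg_right hu (by apply div_nonneg zero_le_one; linarith)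
        _ = _ := one_mul _
    have h7 : 1 / ((p : ℝ) - 1) ≤ 2 / p := by
      rw [div_le_div_iff₀ (by linarith) (by linarith)]
      linarith
    calc a / 2 * (u * (1 / ((p : ℂ) - 1))).re ≤ a / 2 * (2 / p) :=
          mul_le_mul_of_nonneg_left (h5.trans h7) (by linarith)
      _ = a / p := by ring
  have hfi : Integrable (fun ω : Om => f (ω p)) (tilt (pr l) t) :=
    integrable_cont hS t (hfc.comp (continuous_apply p))
  have h1 : ∫ ω, Real.exp (f (ω p)) ∂(tilt (pr l) t) ≤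
      ∫ ω, (1 + f (ω p) + 2 * a / p) ∂(tilt (pr l) t) := by
    refine integral_mono (integrable_cont hS t (Real.continuous_exp.comp
      (hfc.comp (continuous_apply p)))) (((integrable_const 1).add hfi).add (integrable_const _))
      (fun ω => hexp (ω p))
  have h2 : ∫ ω, (1 + f (ω p) + 2 * a / p) ∂(tilt (pr l) t) =
      1 + ∫ ω, f (ω p) ∂(tilt (pr l) t) + 2 * a / p := by
    have e1 : ∫ ω, (1 + f (ω p) + 2 * a / p) ∂(tilt (pr l) t) =
        ∫ ω, (1 + f ((ω : Om) p)) ∂(tilt (pr l) t) + ∫ ω : Om, 2 * a / p ∂(tilt (pr l) t) :=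
      integral_add ((integrable_const 1).add hfi) (integrable_const _)
    have e2 : ∫ ω, (1 + f (ω p)) ∂(tilt (pr l) t) =
        ∫ ω : Om, (1 : ℝ) ∂(tilt (pr l) t) + ∫ ω, f ((ω : Om) p) ∂(tilt (pr l) t) :=
      integral_add (integrable_const 1) hfi
    rw [e1, e2, integral_const, integral_const]
    simp
  have h3 : a / p + 2 * a / p = 3 * ((2 ^ l)⁻¹ * (Real.log p / p)) := by
    rw [ha]; ring
  calc ∫ ω, Real.exp (f (ω p)) ∂(tilt (pr l) t) ≤ 1 + a / p + 2 * a / p := by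
        rw [h2] at h1
        linarith
    _ = 3 * ((2 ^ l)⁻¹ * (Real.log p / p)) + 1 := by rw [← h3]; ring
    _ ≤ Real.exp (3 * ((2 ^ l)⁻¹ * (Real.log p / p))) := Real.add_one_le_exp _

/-- exponential moments of `UU` -/
theorem exp_UU : ∃ C : ℝ, 0 < C ∧ ∀ (l : ℕ) (t : ℝ) (u : ℂ), ‖u‖ ≤ 1 →
    ∫ ω, Real.exp (1 / 2 * ((2 ^ l)⁻¹ * (u * UU (pr l) t ω).re)) ∂(tilt (pr l) t) ≤ C := by
  obtain ⟨K, hK, hsum⟩ := sum_log_div
  refine ⟨Real.exp (3 * K), Real.exp_pos _, fun l t u hu => ?_⟩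
  have hS : ∀ p ∈ pr l, p.Prime := fun p hp => pr_prime hp
  have := tilt_prob hS t
  set f : ℕ → UnitAddCircle → ℝ := fun p x =>
    if p.Prime then 1 / 2 * ((2 ^ l)⁻¹ * (u * ((Real.log p : ℂ) * (k1 p t x - 1))).re) else 0
    with hf
  have hfc : ∀ p, Continuous (f p) := by
    intro p
    by_cases hp : p.Prime
    · simp only [hf, if_pos hp]
      exact continuous_const.mul (continuous_const.mul (Complex.continuous_re.comp
        (continuous_const.mul (continuous_const.mul ((cont_k1 hp t).sub continuous_const)))))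
    · simp only [hf, if_neg hp]
      exact continuous_const
  have h1 : ∀ ω : Om, 1 / 2 * ((2 ^ l)⁻¹ * (u * UU (pr l) t ω).re) =
      ∑ p ∈ pr l, f p (ω p) := by
    intro ω
    unfold UU
    rw [Finset.mul_sum, Complex.re_sum, Finset.mul_sum, Finset.mul_sum]
    refine Finset.sum_congr rfl fun p hp => ?_
    simp only [hf, if_pos (hS p hp)]
  simp only [h1]
  rw [tilt_exp_sum hS t (pr l) f hfc]
  calc ∏ p ∈ pr l, ∫ ω, Real.exp (f p (ω p)) ∂(tilt (pr l) t)
      ≤ ∏ p ∈ pr l, Real.exp (3 * ((2 ^ l)⁻¹ * (Real.log p / p))) := by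
        refine Finset.prod_le_prod (fun p _ => integral_nonneg fun ω => (Real.exp_pos _).le)
          (fun p hp => ?_)
        have h2 := one_factor hp t hu
        refine le_trans (le_of_eq ?_) h2
        refine integral_congr_ae (Filter.Eventually.of_forall fun ω => ?_)
        simp only [hf, if_pos (hS p hp)]
    _ = Real.exp (3 * ((2 ^ l)⁻¹ * ∑ p ∈ pr l, Real.log p / p)) := by
        rw [← Real.exp_sum, Finset.mul_sum, Finset.mul_sum]
    _ ≤ Real.exp (3 * K) := by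
        apply Real.exp_le_exp.2
        have h3 := hsum l
        have h4 : (2 ^ l : ℝ)⁻¹ * ∑ p ∈ pr l, Real.log p / p ≤ K := by
          rw [inv_mul_le_iff₀ (by positivity)]
          linarith
        linarith

theorem moment_UU (k : ℕ) : ∃ C : ℝ, 0 < C ∧ ∀ (l : ℕ) (t : ℝ),
    ∫⁻ ω, ENNReal.ofReal (((2 ^ l)⁻¹ * ‖UU (pr l) t ω‖) ^ k) ∂(tilt (pr l) t) ≤
      ENNReal.ofReal C := by
  obtain ⟨C, hC, hexp⟩ := exp_UU
  refine ⟨4 ^ k * k ! * (C + C + C + C), by positivity, fun l t => ?_⟩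
  have hS : ∀ p ∈ pr l, p.Prime := fun p hp => pr_prime hp
  have := tilt_prob hS t
  have hUc : Continuous (fun ω : Om => UU (pr l) t ω) := cont_UU hS t
  set g : ℂ → Om → ℝ := fun u ω => Real.exp (1 / 2 * ((2 ^ l)⁻¹ * (u * UU (pr l) t ω).re)) with hg
  have hgi : ∀ u, Integrable (g u) (tilt (pr l) t) := by
    intro u
    refine integrable_cont hS t (Real.continuous_exp.comp (continuous_const.mul
      (continuous_const.mul (Complex.continuous_re.comp (continuous_const.mul hUc)))))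
  have h1 : ∀ ω, ((2 ^ l)⁻¹ * ‖UU (pr l) t ω‖) ^ k ≤
      4 ^ k * k ! * (g 1 ω + g (-1) ω + g I ω + g (-I) ω) := by
    intro ω
    have h2 := pow_le_four (((2 ^ l : ℝ)⁻¹ : ℝ) * UU (pr l) t ω) k
    have h3 : ∀ v : ℂ, (v * ((((2 ^ l : ℝ)⁻¹ : ℝ) : ℂ) * UU (pr l) t ω)).re =
        (2 ^ l)⁻¹ * (v * UU (pr l) t ω).re := by
      intro v
      have : v * ((((2 ^ l : ℝ)⁻¹ : ℝ) : ℂ) * UU (pr l) t ω) =
        (((2 ^ l : ℝ)⁻¹ : ℝ) : ℂ) * (v * UU (pr l) t ω) := by ring
      rw [this, Complex.re_ofReal_mul]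
    rw [h3, h3, h3, h3, norm_mul, Complex.norm_real, Real.norm_eq_abs,
      abs_of_pos (by positivity : (0 : ℝ) < (2 ^ l)⁻¹)] at h2
    exact h2
  calc ∫⁻ ω, ENNReal.ofReal (((2 ^ l)⁻¹ * ‖UU (pr l) t ω‖) ^ k) ∂(tilt (pr l) t)
      ≤ ∫⁻ ω, ENNReal.ofReal (4 ^ k * k ! * (g 1 ω + g (-1) ω + g I ω + g (-I) ω))
          ∂(tilt (pr l) t) := lintegral_mono fun ω => ENNReal.ofReal_le_ofReal (h1 ω)
    _ = ENNReal.ofReal (∫ ω, 4 ^ k * k ! * (g 1 ω + g (-1) ω + g I ω + g (-I) ω)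
          ∂(tilt (pr l) t)) := by
        rw [ofReal_integral_eq_lintegral_ofReal]
        · exact ((((hgi 1).add (hgi (-1))).add (hgi I)).add (hgi (-I))).const_mul _
        · refine Filter.Eventually.of_forall fun ω => ?_
          simp only [hg, Pi.zero_apply]
          positivity
    _ ≤ ENNReal.ofReal (4 ^ k * k ! * (C + C + C + C)) := by
        apply ENNReal.ofReal_le_ofReal
        have e1 := hexp l t 1 (by simp)
        have e2 := hexp l t (-1) (by simp)
        have e3 := hexp l t I (by simp)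
        have e4 := hexp l t (-I) (by simp)
        have i1 : ∫ ω, (g 1 ω + g (-1) ω) ∂(tilt (pr l) t) =
            ∫ ω, g 1 ω ∂(tilt (pr l) t) + ∫ ω, g (-1) ω ∂(tilt (pr l) t) :=
          integral_add (hgi 1) (hgi (-1))
        have i2 : ∫ ω, (g 1 ω + g (-1) ω + g I ω) ∂(tilt (pr l) t) =
            ∫ ω, (g 1 ω + g (-1) ω) ∂(tilt (pr l) t) + ∫ ω, g I ω ∂(tilt (pr l) t) :=
          integral_add ((hgi 1).add (hgi (-1))) (hgi I)
        have i3 : ∫ ω, (g 1 ω + g (-1) ω + g I ω + g (-I) ω) ∂(tilt (pr l) t) =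
            ∫ ω, (g 1 ω + g (-1) ω + g I ω) ∂(tilt (pr l) t) +
              ∫ ω, g (-I) ω ∂(tilt (pr l) t) :=
          integral_add (((hgi 1).add (hgi (-1))).add (hgi I)) (hgi (-I))
        rw [integral_const_mul, i3, i2, i1]
        refine mul_le_mul_of_nonneg_left ?_ (by positivity)
        exact add_le_add (add_le_add (add_le_add e1 e2) e3) e4

theorem moment_Th (k : ℕ) : ∃ C : ℝ, 0 < C ∧ ∀ (l : ℕ) (t : ℝ),
    ∫⁻ ω, ENNReal.ofReal (Th l t ω ^ k) ∂(tilt (pr l) t) ≤ ENNReal.ofReal C := by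
  obtain ⟨C, hC, hm⟩ := moment_UU (2 * k)
  refine ⟨2 ^ k * (1 + C), by positivity, fun l t => ?_⟩
  have hS : ∀ p ∈ pr l, p.Prime := fun p hp => pr_prime hp
  have := tilt_prob hS t
  have hUc : Continuous (fun ω : Om => UU (pr l) t ω) := cont_UU hS t
  have h1 : ∀ ω, Th l t ω ^ k ≤ 2 ^ k * (1 + ((2 ^ l)⁻¹ * ‖UU (pr l) t ω‖) ^ (2 * k)) := by
    intro ω
    set N : ℝ := (2 ^ l)⁻¹ * ‖UU (pr l) t ω‖ with hN
    have h2 : Th l t ω = 1 + N ^ 2 := by
      unfold Th
      rw [hN, mul_pow, inv_pow, ← pow_mul, mul_comm l 2, pow_mul]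
      norm_num
    rw [h2, pow_mul]
    have h3 := add_pow_le (zero_le_one (α := ℝ)) (sq_nonneg N) k
    rw [one_pow] at h3
    refine h3.trans (mul_le_mul_of_nonneg_right ?_ (by positivity))
    exact pow_le_pow_right₀ (by norm_num) (Nat.sub_le _ _)
  calc ∫⁻ ω, ENNReal.ofReal (Th l t ω ^ k) ∂(tilt (pr l) t)
      ≤ ∫⁻ ω, ENNReal.ofReal (2 ^ k) * (1 +
          ENNReal.ofReal (((2 ^ l)⁻¹ * ‖UU (pr l) t ω‖) ^ (2 * k))) ∂(tilt (pr l) t) := by
        refine lintegral_mono fun ω => (ENNReal.ofReal_le_ofReal (h1 ω)).trans (le_of_eq ?_)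
        rw [ENNReal.ofReal_mul (by positivity), ENNReal.ofReal_add zero_le_one (by positivity),
          ENNReal.ofReal_one]
    _ = ENNReal.ofReal (2 ^ k) * (1 +
          ∫⁻ ω, ENNReal.ofReal (((2 ^ l)⁻¹ * ‖UU (pr l) t ω‖) ^ (2 * k)) ∂(tilt (pr l) t)) := by
        have hmeas : Measurable fun ω : Om =>
            ENNReal.ofReal (((2 ^ l)⁻¹ * ‖UU (pr l) t ω‖) ^ (2 * k)) :=
          ENNReal.measurable_ofReal.comp
            ((continuous_const.mul (continuous_norm.comp hUc)).pow _).measurable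
        have j1 : ∫⁻ ω, ENNReal.ofReal (2 ^ k) * (1 +
            ENNReal.ofReal (((2 ^ l)⁻¹ * ‖UU (pr l) t ω‖) ^ (2 * k))) ∂(tilt (pr l) t) =
            ENNReal.ofReal (2 ^ k) * ∫⁻ ω, (1 +
              ENNReal.ofReal (((2 ^ l)⁻¹ * ‖UU (pr l) t ω‖) ^ (2 * k))) ∂(tilt (pr l) t) :=
          lintegral_const_mul _ (measurable_const.add hmeas)
        rw [j1, lintegral_add_right _ hmeas, lintegral_const, measure_univ, mul_one]
    _ ≤ ENNReal.ofReal (2 ^ k) * (1 + ENNReal.ofReal C) := by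
        gcongr
        exact hm l t
    _ = ENNReal.ofReal (2 ^ k * (1 + C)) := by
        rw [ENNReal.ofReal_mul (by positivity), ENNReal.ofReal_add zero_le_one hC.le,
          ENNReal.ofReal_one]

end Emb
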