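import Pool.Agent.Lib.Emb.Prime2
import Pool.Agent.Lib.Emb.CoreNT

/-!
# Chunk M2: moments of the ratio of consecutive levels

`muL (l+1) / muL l = (1/2) ∏_{blk l} d_p`, `log d_p = xx p - log(1-1/p)`;
`E_t exp(k ∑_{blk l} xx) ≤ exp(C k² ∑_{blk} 1/p)` by Hoeffding's lemma, then `tilt_exp_sum`.
-/

open MeasureTheory Complex ProbabilityTheory
open scoped BigOperators ENNReal

namespace Emb

private lemma m2_factor {l p : ℕ} (hp : p ∈ pr l) (t : ℝ) (k : ℕ) :
    ∫ ω, Real.exp (k * xx p t (ω p)) ∂(tilt (pr l) t) ≤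
      Real.exp (72 * (k : ℝ) ^ 2 * (1 / (p : ℝ))) := by
  have hS : ∀ p ∈ pr l, p.Prime := fun p hp => pr_prime hp
  have := tilt_prob hS t
  have hpp := pr_prime hp
  have hp2 : (2 : ℝ) ≤ p := by exact_mod_cast hpp.two_le
  have hsq : Real.sqrt p ^ 2 = p := Real.sq_sqrt (by linarith)
  have hsp : 0 < Real.sqrt p := Real.sqrt_pos.2 (by linarith)
  have hc : Continuous (xx p t) := continuous_xx hpp t
  have hmean : ∫ ω, xx p t ((ω : Om) p) ∂(tilt (pr l) t) = 0 := by
    rw [tilt_coord_real hS t hp (xx p t) hc]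
    exact int_xx hpp t
  have hcω : Continuous (fun ω : Om => xx p t (ω p)) := hc.comp (continuous_apply p)
  have hsub := hasSubgaussianMGF_of_mem_Icc_of_integral_eq_zero (μ := tilt (pr l) t)
    (X := fun ω : Om => xx p t (ω p)) (a := -(12 / Real.sqrt p)) (b := 12 / Real.sqrt p)
    hcω.measurable.aemeasurable
    (Filter.Eventually.of_forall fun ω => abs_le.1 (abs_xx hpp t (ω p))) hmean
  have h1 := hsub.mgf_le k
  refine le_trans (le_of_eq rfl) (h1.trans (le_of_eq ?_))
  congr 1
  have h2 : (((‖12 / Real.sqrt p - -(12 / Real.sqrt p)‖₊ / 2) ^ 2 : NNReal) : ℝ) = 144 / p := by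
    push_cast
    rw [Real.norm_eq_abs, sub_neg_eq_add, abs_of_nonneg (by positivity)]
    have h3 : (12 / Real.sqrt p + 12 / Real.sqrt p) / 2 = 12 / Real.sqrt p := by ring
    rw [h3, div_pow, hsq]
    norm_num
  rw [h2]
  ring

theorem moment_ratio (k : ℕ) : ∃ C : ℝ, 0 < C ∧ ∀ (l : ℕ) (t : ℝ),
    ∫⁻ ω, ENNReal.ofReal ((muL (l + 1) t ω / muL l t ω) ^ k) ∂(tilt (pr (l + 1)) t) ≤
      ENNReal.ofReal C := by
  obtain ⟨K1, hK1, hlog⟩ := sum_log_block
  obtain ⟨K2, hK2, hinv⟩ := sum_inv_block
  refine ⟨Real.exp (k * (Real.log 2 + K1)) * Real.exp (72 * (k : ℝ) ^ 2 * (Real.log 2 + K2)),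
    by positivity, fun l t => ?_⟩
  have hS : ∀ p ∈ pr (l + 1), p.Prime := fun p hp => pr_prime hp
  have := tilt_prob hS t
  have hblk : ∀ p ∈ blk l, p ∈ pr (l + 1) := fun p hp => (Finset.mem_sdiff.1 hp).1
  have hsub : pr l ⊆ pr (l + 1) := pr_mono (Nat.le_succ l)
  set f : ℕ → UnitAddCircle → ℝ := fun p x => if p.Prime then (k : ℝ) * xx p t x else 0 with hf
  have hfc : ∀ p, Continuous (f p) := by
    intro p
    by_cases hp : p.Prime
    · simp only [hf, if_pos hp]
      exact continuous_const.mul (continuous_xx hp t)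
    · simp only [hf, if_neg hp]
      exact continuous_const
  -- the pointwise identity
  have hpt : ∀ ω : Om, (muL (l + 1) t ω / muL l t ω) ^ k ≤
      Real.exp (k * (Real.log 2 + K1)) * Real.exp (∑ p ∈ blk l, f p (ω p)) := by
    intro ω
    have h1 : dd (pr (l + 1)) t ω = dd (blk l) t ω * dd (pr l) t ω := by
      unfold dd blk
      exact (Finset.prod_sdiff hsub).symm
    have h2 : 0 < dd (pr l) t ω := dd_pos (fun p hp => pr_prime hp) t ω
    have h3 : muL (l + 1) t ω / muL l t ω = 1 / 2 * dd (blk l) t ω := by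
      unfold muL
      rw [h1, pow_succ]
      field_simp
    have h4 : 0 < dd (blk l) t ω := dd_pos (fun p hp => pr_prime (hblk p hp)) t ω
    have h5 : dd (blk l) t ω = Real.exp (∑ p ∈ blk l, Real.log (d1 p t (ω p))) := by
      rw [Real.exp_sum]
      unfold dd
      refine Finset.prod_congr rfl fun p hp => ?_
      rw [Real.exp_log (d1_pos (pr_prime (hblk p hp)) t (ω p))]
    have h6 : ∑ p ∈ blk l, Real.log (d1 p t (ω p)) =
        ∑ p ∈ blk l, xx p t (ω p) + ∑ p ∈ blk l, -Real.log (1 - 1 / (p : ℝ)) := by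
      rw [← Finset.sum_add_distrib]
      refine Finset.sum_congr rfl fun p _ => ?_
      unfold xx
      ring
    have h7 : ∑ p ∈ blk l, -Real.log (1 - 1 / (p : ℝ)) ≤ Real.log 2 + K1 := by
      have h8 := (abs_le.1 (hlog l 1)).2
      have h9 : pr (l + 1) \ pr l = blk l := rfl
      rw [h9] at h8
      push_cast at h8
      linarith
    have h8 : ∑ p ∈ blk l, f p (ω p) = k * ∑ p ∈ blk l, xx p t (ω p) := by
      rw [Finset.mul_sum]
      refine Finset.sum_congr rfl fun p hp => ?_
      simp only [hf, if_pos (pr_prime (hblk p hp))]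
    have h9 : (muL (l + 1) t ω / muL l t ω) ^ k ≤ (dd (blk l) t ω) ^ k := by
      rw [h3]
      exact pow_le_pow_left₀ (by positivity) (by linarith) k
    refine h9.trans ?_
    rw [h5, ← Real.exp_nat_mul, ← Real.exp_add, h8, h6]
    apply Real.exp_le_exp.2
    have h10 : (0 : ℝ) ≤ k := Nat.cast_nonneg k
    have h11 := mul_le_mul_of_nonneg_left h7 h10
    linarith
  have hgi : Continuous fun ω : Om => Real.exp (∑ p ∈ blk l, f p (ω p)) :=
    Real.continuous_exp.comp (continuous_finsetSum _ fun p _ => (hfc p).comp (continuous_apply p))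
  have hint : Integrable (fun ω : Om => Real.exp (∑ p ∈ blk l, f p (ω p)))
      (tilt (pr (l + 1)) t) := by
    obtain ⟨C, hC⟩ := isCompact_univ.exists_bound_of_continuousOn hgi.continuousOn
    exact Integrable.of_bound hgi.aestronglyMeasurable C
      (Filter.Eventually.of_forall fun ω => hC ω (Set.mem_univ _))
  calc ∫⁻ ω, ENNReal.ofReal ((muL (l + 1) t ω / muL l t ω) ^ k) ∂(tilt (pr (l + 1)) t)
      ≤ ∫⁻ ω, ENNReal.ofReal (Real.exp (k * (Real.log 2 + K1)) *
          Real.exp (∑ p ∈ blk l, f p (ω p))) ∂(tilt (pr (l + 1)) t) :=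
        lintegral_mono fun ω => ENNReal.ofReal_le_ofReal (hpt ω)
    _ = ENNReal.ofReal (∫ ω, Real.exp (k * (Real.log 2 + K1)) *
          Real.exp (∑ p ∈ blk l, f p (ω p)) ∂(tilt (pr (l + 1)) t)) := by
        rw [ofReal_integral_eq_lintegral_ofReal]
        · exact hint.const_mul _
        · exact Filter.Eventually.of_forall fun ω => by simp only [Pi.zero_apply]; positivity
    _ ≤ _ := by
        apply ENNReal.ofReal_le_ofReal
        rw [integral_const_mul]
        refine mul_le_mul_of_nonneg_left ?_ (Real.exp_pos _).le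
        rw [tilt_exp_sum hS t (blk l) f hfc]
        calc ∏ p ∈ blk l, ∫ ω, Real.exp (f p (ω p)) ∂(tilt (pr (l + 1)) t)
            ≤ ∏ p ∈ blk l, Real.exp (72 * (k : ℝ) ^ 2 * (1 / (p : ℝ))) := by
              refine Finset.prod_le_prod (fun p _ => integral_nonneg fun ω => (Real.exp_pos _).le)
                (fun p hp => ?_)
              have h2 := m2_factor (hblk p hp) t k
              refine le_trans (le_of_eq ?_) h2
              refine integral_congr_ae (Filter.Eventually.of_forall fun ω => ?_)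
              simp only [hf, if_pos (pr_prime (hblk p hp))]
          _ = Real.exp (72 * (k : ℝ) ^ 2 * ∑ p ∈ blk l, 1 / (p : ℝ)) := by
              rw [← Real.exp_sum, Finset.mul_sum]
          _ ≤ Real.exp (72 * (k : ℝ) ^ 2 * (Real.log 2 + K2)) := by
              apply Real.exp_le_exp.2
              have h3 := (hinv l 1).2
              have h9 : pr (l + 1) \ pr l = blk l := rfl
              rw [h9] at h3
              push_cast at h3
              exact mul_le_mul_of_nonneg_left (by linarith) (by positivity)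

end Emb
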