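import Pool.Agent.Lib.Emb.Key1
import Pool.Agent.Lib.Emb.Moments
import Pool.Agent.Lib.Emb.Moments2

/-!
# Chunk K2: the key estimates under the tilted measure

`key1`: Hölder (`ENNReal.lintegral_mul_le_Lp_mul_Lq`) with exponents `1/λ`, `1/(1-λ)`, `λ < 1` so
close to one that `β/λ < 1/2`: `rho_moment` with `θ/λ`, `β/λ`, and moments of `Th` (`moment_Th`; real
powers of `Th ≥ 1` are bounded by natural powers).
`key2`: `muL(l0+j+1)/((1+j)^c Lam_j) = rho_j * (muL(l0+j+1)/muL(l0+j))`; Hölder with three factors,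
`moment_ratio`; the tilting set is `pr (l0+j+1)` while `rho` uses the walk up to `j`: `rho_moment` is
stated for every `l ≥ l0 + j`.
-/

open MeasureTheory Complex ProbabilityTheory
open scoped BigOperators ENNReal

namespace Emb

theorem K2_holder (μ : Measure Om) (f g : Om → ℝ) (hf : Measurable f) (hg : Measurable g)
    (hf0 : ∀ ω, 0 ≤ f ω) (hg0 : ∀ ω, 0 ≤ g ω) (p q : ℝ) (hpq : p.HolderConjugate q)
    (A B : ℝ) (hA : 0 ≤ A) (hB : 0 ≤ B)
    (hfA : ∫⁻ ω, ENNReal.ofReal (f ω ^ p) ∂μ ≤ ENNReal.ofReal A)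
    (hgB : ∫⁻ ω, ENNReal.ofReal (g ω ^ q) ∂μ ≤ ENNReal.ofReal B) :
    ∫⁻ ω, ENNReal.ofReal (f ω * g ω) ∂μ ≤ ENNReal.ofReal (A ^ (1 / p) * B ^ (1 / q)) := by
  have h1 : ∫⁻ ω, ENNReal.ofReal (f ω * g ω) ∂μ =
      ∫⁻ ω, ((fun ω => ENNReal.ofReal (f ω)) * (fun ω => ENNReal.ofReal (g ω))) ω ∂μ := by
    apply lintegral_congr
    intro ω
    simp only [Pi.mul_apply]
    rw [ENNReal.ofReal_mul (hf0 ω)]
  rw [h1]
  refine (ENNReal.lintegral_mul_le_Lp_mul_Lq μ hpq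
    (ENNReal.measurable_ofReal.comp hf).aemeasurable
    (ENNReal.measurable_ofReal.comp hg).aemeasurable).trans ?_
  have hp0 : 0 < p := hpq.pos
  have hq0 : 0 < q := hpq.symm.pos
  rw [ENNReal.ofReal_mul (by positivity), ← ENNReal.ofReal_rpow_of_nonneg hA (by positivity),
    ← ENNReal.ofReal_rpow_of_nonneg hB (by positivity)]
  gcongr
  · refine le_trans (le_of_eq (lintegral_congr fun ω => ?_)) hfA
    exact ENNReal.ofReal_rpow_of_nonneg (hf0 ω) hp0.le
  · refine le_trans (le_of_eq (lintegral_congr fun ω => ?_)) hgB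
    exact ENNReal.ofReal_rpow_of_nonneg (hg0 ω) hq0.le

theorem K2_meas_rho (c : ℝ) (l0 j : ℕ) (t : ℝ) : Measurable (rho c l0 j t) :=
  ((continuous_rho c l0 j).comp (Continuous.prodMk_right t)).measurable

theorem K2_meas_Th (l : ℕ) (t : ℝ) : Measurable (Th l t) :=
  ((continuous_Th l).comp (Continuous.prodMk_right t)).measurable

theorem K2_meas_muL (l : ℕ) (t : ℝ) : Measurable (muL l t) :=
  ((continuous_muL l).comp (Continuous.prodMk_right t)).measurable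

/-- The general form: `∫ rho^θ g ≤ C (1+j)^{-β}` when the moments of `g` are bounded. -/
theorem K2_general (c θ β : ℝ) (hc : 0 ≤ c) (hθ : 0 < θ) (hβ0 : 0 < β) (hβ : β < 1 / 2) :
    ∃ (q : ℝ) (C : ℝ), 1 < q ∧ 0 < C ∧ ∀ (l0 j l : ℕ), l0 + j ≤ l → ∀ (t : ℝ) (g : Om → ℝ),
      Measurable g → (∀ ω, 0 ≤ g ω) → ∀ B : ℝ, 0 ≤ B →
      ∫⁻ ω, ENNReal.ofReal (g ω ^ q) ∂(tilt (pr l) t) ≤ ENNReal.ofReal B →
      ∫⁻ ω, ENNReal.ofReal (rho c l0 j t ω ^ θ * g ω) ∂(tilt (pr l) t) ≤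
        ENNReal.ofReal (C * B ^ (1 / q) * (1 + (j : ℝ)) ^ (-β)) := by
  set p : ℝ := (1 + 1 / (2 * β)) / 2 with hp
  have hb2 : 1 < 1 / (2 * β) := by
    rw [lt_div_iff₀ (by positivity)]
    linarith
  have hp1 : 1 < p := by rw [hp]; linarith
  have hp0 : 0 < p := by linarith
  have hpβ : β * p < 1 / 2 := by
    rw [hp]
    have : β * ((1 + 1 / (2 * β)) / 2) = (β + 1 / 2) / 2 := by
      field_simp
    rw [this]
    linarith
  obtain ⟨C0, hC0, h0⟩ := rho_moment c (θ * p) (β * p) hc (by positivity) hpβ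
  have hpq : p.HolderConjugate (Real.conjExponent p) := Real.HolderConjugate.conjExponent hp1
  refine ⟨Real.conjExponent p, C0 ^ (1 / p), hpq.symm.lt, by positivity, ?_⟩
  intro l0 j l hl t g hg hg0 B hB hgB
  have h1 := K2_holder (tilt (pr l) t) (fun ω => rho c l0 j t ω ^ θ) g
    ((K2_meas_rho c l0 j t).pow_const θ) hg
    (fun ω => Real.rpow_nonneg (rho_pos c l0 j t ω).le _) hg0 p (Real.conjExponent p) hpq
    (C0 * (1 + (j : ℝ)) ^ (-(β * p))) B (by positivity) hB ?_ hgB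
  · refine h1.trans (ENNReal.ofReal_le_ofReal (le_of_eq ?_))
    rw [Real.mul_rpow hC0.le (by positivity), ← Real.rpow_mul (by positivity)]
    have : -(β * p) * (1 / p) = -β := by field_simp
    rw [this]
    ring
  · refine le_trans (le_of_eq (lintegral_congr fun ω => ?_)) (h0 l0 j l hl t)
    rw [← Real.rpow_mul (rho_pos c l0 j t ω).le]

theorem key1 (c θ β : ℝ) (hc : 0 ≤ c) (hθ : 0 < θ) (hβ0 : 0 < β) (hβ : β < 1 / 2) :
    ∃ C : ℝ, 0 < C ∧ ∀ (l0 j : ℕ) (t : ℝ),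
    ∫⁻ ω, ENNReal.ofReal (rho c l0 j t ω ^ θ * Th (l0 + j) t ω) ∂(tilt (pr (l0 + j)) t) ≤
      ENNReal.ofReal (C * (1 + (j : ℝ)) ^ (-β)) := by
  obtain ⟨q, C, hq, hC, h⟩ := K2_general c θ β hc hθ hβ0 hβ
  obtain ⟨B, hB, hB'⟩ := moment_Th ⌈q⌉₊
  refine ⟨C * B ^ (1 / q), by positivity, fun l0 j t => ?_⟩
  refine h l0 j (l0 + j) le_rfl t (Th (l0 + j) t) (K2_meas_Th _ t)
    (fun ω => zero_le_one.trans (one_le_Th _ t ω)) B hB.le ?_
  refine (lintegral_mono fun ω => ENNReal.ofReal_le_ofReal ?_).trans (hB' (l0 + j) t)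
  rw [← Real.rpow_natCast]
  exact Real.rpow_le_rpow_of_exponent_le (one_le_Th _ t ω) (Nat.le_ceil q)

theorem key2 (c θ β : ℝ) (hc : 0 ≤ c) (hθ : 0 < θ) (hθ1 : θ ≤ 1) (hβ0 : 0 < β)
    (hβ : β < 1 / 2) :
    ∃ C : ℝ, 0 < C ∧ ∀ (l0 j : ℕ) (t : ℝ),
    ∫⁻ ω, ENNReal.ofReal ((muL (l0 + (j + 1)) t ω / ((1 + (j : ℝ)) ^ c * Lam c l0 j t ω)) ^ θ *
      Th (l0 + (j + 1)) t ω) ∂(tilt (pr (l0 + (j + 1))) t) ≤
      ENNReal.ofReal (C * (1 + (j : ℝ)) ^ (-β)) := by
  obtain ⟨q, C, hq, hC, h⟩ := K2_general c θ β hc hθ hβ0 hβ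
  set k : ℕ := ⌈q⌉₊ with hk
  obtain ⟨B1, hB1, hB1'⟩ := moment_Th (2 * k)
  obtain ⟨B2, hB2, hB2'⟩ := moment_ratio (2 * k)
  refine ⟨C * (2 + 2 * B2 + B1) ^ (1 / q), by positivity, fun l0 j t => ?_⟩
  set r : Om → ℝ := fun ω => muL (l0 + (j + 1)) t ω / muL (l0 + j) t ω with hr
  have hr0 : ∀ ω, 0 < r ω := fun ω => div_pos (muL_pos _ t ω) (muL_pos _ t ω)
  have hrm : Measurable r := (K2_meas_muL _ t).div (K2_meas_muL _ t)
  have hTh0 : ∀ ω, 0 < Th (l0 + (j + 1)) t ω := fun ω =>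
    zero_lt_one.trans_le (one_le_Th _ t ω)
  have hh := h l0 j (l0 + (j + 1)) (by omega) t (fun ω => r ω ^ θ * Th (l0 + (j + 1)) t ω)
    ((hrm.pow_const θ).mul (K2_meas_Th _ t))
    (fun ω => mul_nonneg (Real.rpow_nonneg (hr0 ω).le _) (hTh0 ω).le)
    (2 + 2 * B2 + B1) (by positivity) ?_
  · refine (lintegral_mono fun ω => ENNReal.ofReal_le_ofReal (le_of_eq ?_)).trans hh
    have hL := Lam_pos c l0 j t ω
    have hm := muL_pos (l0 + j) t ω
    have hj : (0 : ℝ) < (1 + (j : ℝ)) ^ c := by positivity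
    have e1 : muL (l0 + (j + 1)) t ω / ((1 + (j : ℝ)) ^ c * Lam c l0 j t ω) =
        rho c l0 j t ω * r ω := by
      simp only [rho, hr]
      field_simp
    rw [e1, Real.mul_rpow (rho_pos c l0 j t ω).le (hr0 ω).le]
    ring
  · -- moments
    have hP : IsProbabilityMeasure (tilt (pr (l0 + (j + 1))) t) :=
      tilt_prob (fun p hp => pr_prime hp) t
    have key : ∀ ω, (r ω ^ θ * Th (l0 + (j + 1)) t ω) ^ q ≤
        (2 + 2 * r ω ^ (2 * k)) + Th (l0 + (j + 1)) t ω ^ (2 * k) := by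
      intro ω
      have hx := hr0 ω
      have hT := one_le_Th (l0 + (j + 1)) t ω
      set x := r ω
      set T := Th (l0 + (j + 1)) t ω
      rw [Real.mul_rpow (Real.rpow_nonneg hx.le _) (by linarith), ← Real.rpow_mul hx.le]
      have hkq : q ≤ k := Nat.le_ceil q
      have h1 : x ^ (θ * q) ≤ 1 + x ^ k := by
        by_cases hx1 : x ≤ 1
        · have : x ^ (θ * q) ≤ 1 := Real.rpow_le_one hx.le hx1 (by positivity)
          have h2 : 0 ≤ x ^ k := by positivity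
          linarith
        · push Not at hx1
          have : x ^ (θ * q) ≤ x ^ (k : ℝ) :=
            Real.rpow_le_rpow_of_exponent_le hx1.le (by nlinarith)
          rw [Real.rpow_natCast] at this
          linarith
      have h2 : T ^ q ≤ T ^ k := by
        rw [← Real.rpow_natCast]
        exact Real.rpow_le_rpow_of_exponent_le hT hkq
      have h3 : x ^ (θ * q) * T ^ q ≤ (1 + x ^ k) * T ^ k :=
        mul_le_mul h1 h2 (by positivity) (by positivity)
      have h4 : (1 + x ^ k) * T ^ k ≤ (1 + x ^ k) ^ 2 + (T ^ k) ^ 2 := by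
        nlinarith [sq_nonneg ((1 + x ^ k) - T ^ k), sq_nonneg (1 + x ^ k), sq_nonneg (T ^ k)]
      have h5 : (1 + x ^ k) ^ 2 ≤ 2 + 2 * (x ^ k) ^ 2 := by nlinarith [sq_nonneg (1 - x ^ k)]
      have e1 : x ^ (2 * k) = (x ^ k) ^ 2 := by rw [← pow_mul, mul_comm]
      have e2 : T ^ (2 * k) = (T ^ k) ^ 2 := by rw [← pow_mul, mul_comm]
      rw [e1, e2]
      linarith
    calc ∫⁻ ω, ENNReal.ofReal ((r ω ^ θ * Th (l0 + (j + 1)) t ω) ^ q)
          ∂(tilt (pr (l0 + (j + 1))) t)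
        ≤ ∫⁻ ω, ((ENNReal.ofReal 2 + ENNReal.ofReal 2 * ENNReal.ofReal (r ω ^ (2 * k))) +
          ENNReal.ofReal (Th (l0 + (j + 1)) t ω ^ (2 * k))) ∂(tilt (pr (l0 + (j + 1))) t) := by
          refine lintegral_mono fun ω => ?_
          refine (ENNReal.ofReal_le_ofReal (key ω)).trans (le_of_eq ?_)
          have := (hr0 ω).le
          have := (hTh0 ω).le
          rw [ENNReal.ofReal_add (by positivity) (by positivity),
            ENNReal.ofReal_add (by positivity) (by positivity),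
            ENNReal.ofReal_mul (by norm_num)]
      _ = (ENNReal.ofReal 2 + ENNReal.ofReal 2 * ∫⁻ ω, ENNReal.ofReal (r ω ^ (2 * k))
            ∂(tilt (pr (l0 + (j + 1))) t)) +
          ∫⁻ ω, ENNReal.ofReal (Th (l0 + (j + 1)) t ω ^ (2 * k))
            ∂(tilt (pr (l0 + (j + 1))) t) := by
          have m1 : Measurable fun ω => ENNReal.ofReal (Th (l0 + (j + 1)) t ω ^ (2 * k)) :=
            ENNReal.measurable_ofReal.comp ((K2_meas_Th _ t).pow_const _)
          have m2 : Measurable fun ω => ENNReal.ofReal (r ω ^ (2 * k)) :=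
            ENNReal.measurable_ofReal.comp (hrm.pow_const _)
          rw [lintegral_add_right _ m1, lintegral_add_left measurable_const,
            lintegral_const_mul _ m2]
          simp
      _ ≤ (ENNReal.ofReal 2 + ENNReal.ofReal 2 * ENNReal.ofReal B2) + ENNReal.ofReal B1 := by
          gcongr
          · exact hB2' (l0 + j) t
          · exact hB1' (l0 + (j + 1)) t
      _ = ENNReal.ofReal (2 + 2 * B2 + B1) := by
          rw [← ENNReal.ofReal_mul (by norm_num), ← ENNReal.ofReal_add (by norm_num)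
            (by positivity), ← ENNReal.ofReal_add (by positivity) hB1.le]

end Emb
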