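import Pool.Agent.Lib.Emb.Prime2
import Pool.Agent.Lib.Emb.CoreNT

/-!
# Chunk W: the walk under the tilted measure

`log muL (l0+j) - log muL l0 = psum (step l0 t) j + (∑_{pr(l0+j) \ pr l0} -log(1-1/p) - j log 2)`.
Under `tilt (pr l) t`, `l ≥ l0 + n`, the steps `0..n-1` satisfy `WalkHyp`:
independence: `step` are functions of disjoint sets of independent coordinates
(`iIndepFun.finsets` / `iIndepFun_finset_sum`-type lemmas or `iIndepFun.indepFun_finset`);
mean zero by `int_xx`; sub-Gaussian: Hoeffding's lemma (`hasSubgaussianMGF_of_mem_Icc` or direct: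
`|X| ≤ a`, `E X = 0` ⇒ `E e^{θX} ≤ e^{θ²a²/2}`) with `a = 12/√p` and `∑_{blk} 1/p ≤ C`;
variance: `∑ (1/10)/p` over `pr (l0+n) \ pr l0`, by `sum_inv_block`.
-/

open MeasureTheory Complex ProbabilityTheory
open scoped BigOperators ENNReal

namespace Emb

/-- Sums over disjoint blocks of independent real random variables are independent. -/
theorem block_indep {Ω ι : Type} [MeasurableSpace Ω] {μ : Measure Ω} {X : ℕ → Ω → ℝ}
    (hX : iIndepFun X μ) (hm : ∀ p, Measurable (X p)) (B : ι → Finset ℕ)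
    (hB : ∀ i j, i ≠ j → Disjoint (B i) (B j)) :
    iIndepFun (fun (j : ι) (ω : Ω) => ∑ p ∈ B j, X p ω) μ := by
  classical
  have : IsProbabilityMeasure μ := hX.isProbabilityMeasure
  rw [iIndepFun_iff_measure_inter_preimage_eq_mul]
  intro s A hA
  induction s using Finset.induction_on with
  | empty => simp
  | insert j0 s hj0 ih =>
    rw [Finset.prod_insert hj0, ← ih (fun i hi => hA i (Finset.mem_insert_of_mem hi)),
      Finset.set_biInter_insert]
    have hdisj : Disjoint (B j0) (s.biUnion B) := by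
      rw [Finset.disjoint_biUnion_right]
      intro j hj
      exact hB j0 j (fun h => hj0 (h ▸ hj))
    have hind := hX.indepFun_finset (B j0) (s.biUnion B) hdisj hm
    -- extension by zero
    have hext : ∀ (T : Finset ℕ) (p : ℕ), Measurable
        (fun x : T → ℝ => if h : p ∈ T then x ⟨p, h⟩ else 0) := by
      intro T p
      by_cases h : p ∈ T
      · simp only [dif_pos h]
        exact measurable_pi_apply _
      · simp only [dif_neg h]
        exact measurable_const
    have key := hind.measure_inter_preimage_eq_mul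
      {x | ∑ p ∈ B j0, (if h : p ∈ B j0 then x ⟨p, h⟩ else 0) ∈ A j0}
      (⋂ j ∈ s, {x | ∑ p ∈ B j, (if h : p ∈ s.biUnion B then x ⟨p, h⟩ else 0) ∈ A j})
      ((Finset.measurable_fun_sum (B j0) (fun p _ => hext (B j0) p))
        (hA j0 (Finset.mem_insert_self _ _)))
      (Finset.measurableSet_biInter s fun j hj =>
        (Finset.measurable_fun_sum (B j) (fun p _ => hext (s.biUnion B) p))
        (hA j (Finset.mem_insert_of_mem hj)))
    have e1 : (fun a (i : (B j0 : Finset ℕ)) => X i a) ⁻¹'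
        {x | ∑ p ∈ B j0, (if h : p ∈ B j0 then x ⟨p, h⟩ else 0) ∈ A j0} =
        (fun ω => ∑ p ∈ B j0, X p ω) ⁻¹' A j0 := by
      ext ω
      simp only [Set.mem_preimage, Set.mem_ofPred_eq]
      have : ∑ p ∈ B j0, (if h : p ∈ B j0 then X p ω else 0) = ∑ p ∈ B j0, X p ω :=
        Finset.sum_congr rfl (fun p hp => by rw [dif_pos hp])
      rw [this]
    have e2 : (fun a (i : (s.biUnion B : Finset ℕ)) => X i a) ⁻¹'
        (⋂ j ∈ s, {x | ∑ p ∈ B j, (if h : p ∈ s.biUnion B then x ⟨p, h⟩ else 0) ∈ A j}) =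
        ⋂ j ∈ s, (fun ω => ∑ p ∈ B j, X p ω) ⁻¹' A j := by
      ext ω
      simp only [Set.mem_preimage, Set.mem_iInter, Set.mem_ofPred_eq]
      refine forall₂_congr (fun j hj => ?_)
      have : ∑ p ∈ B j, (if h : p ∈ s.biUnion B then X p ω else 0) = ∑ p ∈ B j, X p ω :=
        Finset.sum_congr rfl (fun p hp => by
          rw [dif_pos (Finset.mem_biUnion.mpr ⟨j, hj, hp⟩)])
      rw [this]
    rw [e1, e2] at key
    exact key

/-- Telescoping of the blocks. -/
theorem sum_blocks (g : ℕ → ℝ) (l0 j : ℕ) :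
    ∑ i ∈ Finset.range j, ∑ p ∈ blk (l0 + i), g p = ∑ p ∈ pr (l0 + j) \ pr l0, g p := by
  have h1 : ∀ i, ∑ p ∈ blk (l0 + i), g p =
      ∑ p ∈ pr (l0 + (i + 1)), g p - ∑ p ∈ pr (l0 + i), g p := by
    intro i
    have hsub : pr (l0 + i) ⊆ pr (l0 + (i + 1)) := pr_mono (by omega)
    have := Finset.sum_sdiff (f := g) hsub
    unfold blk
    rw [← this]
    rw [show l0 + (i + 1) = l0 + i + 1 by ring]
    ring
  have hsub : pr l0 ⊆ pr (l0 + j) := pr_mono (by omega)
  have h2 := Finset.sum_sdiff (f := g) hsub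
  simp_rw [h1]
  rw [Finset.sum_range_sub (fun i => ∑ p ∈ pr (l0 + i), g p), ← h2]
  simp

theorem log_muL (l0 j : ℕ) (t : ℝ) (ω : Om) :
    Real.log (muL (l0 + j) t ω) = Real.log (muL l0 t ω) + psum (step l0 t) j ω +
      (∑ p ∈ pr (l0 + j) \ pr l0, -Real.log (1 - 1 / (p : ℝ)) - j * Real.log 2) := by
  have h1 : ∀ l, Real.log (muL l t ω) =
      ∑ p ∈ pr l, Real.log (d1 p t (ω p)) - l * Real.log 2 := by
    intro l
    unfold muL
    rw [Real.log_mul (by positivity) (dd_pos (fun p hp => pr_prime hp) t ω).ne', Real.log_inv,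
      Real.log_pow]
    unfold dd
    rw [Real.log_prod (fun p hp => (d1_pos (pr_prime hp) t (ω p)).ne')]
    ring
  have h2 : psum (step l0 t) j ω = ∑ p ∈ pr (l0 + j) \ pr l0, xx p t (ω p) := by
    unfold psum step
    exact sum_blocks (fun p => xx p t (ω p)) l0 j
  have hsub : pr l0 ⊆ pr (l0 + j) := pr_mono (by omega)
  have h3 := Finset.sum_sdiff (f := fun p => Real.log (d1 p t (ω p))) hsub
  have h4 : ∑ p ∈ pr (l0 + j) \ pr l0, xx p t (ω p) +
      ∑ p ∈ pr (l0 + j) \ pr l0, -Real.log (1 - 1 / (p : ℝ)) =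
      ∑ p ∈ pr (l0 + j) \ pr l0, Real.log (d1 p t (ω p)) := by
    rw [← Finset.sum_add_distrib]
    refine Finset.sum_congr rfl (fun p _ => ?_)
    unfold xx
    ring
  rw [h1, h1, h2, ← h3, ← h4]
  push_cast
  ring

theorem blk_prime {l p : ℕ} (hp : p ∈ blk l) : p.Prime :=
  pr_prime (Finset.mem_sdiff.mp hp).1

theorem blk_disj {i j : ℕ} (h : i < j) : Disjoint (blk i) (blk j) := by
  rw [Finset.disjoint_left]
  intro p hp hq
  exact (Finset.mem_sdiff.mp hq).2 (pr_mono (by omega) (Finset.mem_sdiff.mp hp).1)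

theorem walk_hyp : ∃ c K : ℝ, 0 < c ∧ 0 ≤ K ∧ ∀ (l0 n l : ℕ), l0 + n ≤ l → ∀ t : ℝ,
    WalkHyp (tilt (pr l) t) c K n (step l0 t) := by
  obtain ⟨K1, hK1, hsum⟩ := sum_inv_block
  have hlog2 : 0 < Real.log 2 := Real.log_pos (by norm_num)
  refine ⟨Real.log 2 / 20, 72 * (Real.log 2 + K1) + K1 / 10, by positivity, by positivity, ?_⟩
  intro l0 n l hl t
  have hS : ∀ p ∈ pr l, p.Prime := fun p hp => pr_prime hp
  have : IsProbabilityMeasure (tilt (pr l) t) := tilt_prob hS t
  -- the random variables of the single primes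
  set X : ℕ → Om → ℝ := fun p ω => if p.Prime then xx p t (ω p) else 0 with hXdef
  have hXm : ∀ p, Measurable (X p) := by
    intro p
    by_cases hp : p.Prime
    · simp only [hXdef, if_pos hp]
      exact (continuous_xx hp t).measurable.comp (measurable_pi_apply p)
    · simp only [hXdef, if_neg hp]
      exact measurable_const
  have hXind : iIndepFun X (tilt (pr l) t) := by
    have := (tilt_indep hS t).comp (fun p x => if p.Prime then xx p t x else 0) (by
      intro p
      by_cases hp : p.Prime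
      · simp only [if_pos hp]
        exact (continuous_xx hp t).measurable
      · simp only [if_neg hp]
        exact measurable_const)
    exact this
  have hstep : ∀ i, step l0 t i = fun ω => ∑ p ∈ blk (l0 + i), X p ω := by
    intro i
    ext ω
    unfold step
    refine Finset.sum_congr rfl (fun p hp => ?_)
    simp only [hXdef, if_pos (blk_prime hp)]
  have hblk : ∀ i, i < n → blk (l0 + i) ⊆ pr l := by
    intro i hi p hp
    exact pr_mono (by omega) (Finset.mem_sdiff.mp hp).1
  have hXmean : ∀ p ∈ pr l, ∫ ω, X p ω ∂(tilt (pr l) t) = 0 := by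
    intro p hp
    simp only [hXdef, if_pos (hS p hp)]
    rw [tilt_coord_real hS t hp (xx p t) (continuous_xx (hS p hp) t)]
    exact int_xx (hS p hp) t
  have hXbd : ∀ p ∈ pr l, ∀ ω, X p ω ∈ Set.Icc (-(12 / Real.sqrt p)) (12 / Real.sqrt p) := by
    intro p hp ω
    simp only [hXdef, if_pos (hS p hp)]
    exact abs_le.mp (abs_xx (hS p hp) t (ω p))
  have hXint : ∀ p ∈ pr l, Integrable (X p) (tilt (pr l) t) := by
    intro p hp
    refine Integrable.of_bound (hXm p).aestronglyMeasurable (12 / Real.sqrt p)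
      (Filter.Eventually.of_forall fun ω => ?_)
    rw [Real.norm_eq_abs]
    exact abs_le.mpr (hXbd p hp ω)
  have hXsub : ∀ p ∈ pr l, HasSubgaussianMGF (X p)
      ((‖12 / Real.sqrt p - -(12 / Real.sqrt p)‖₊ / 2) ^ 2) (tilt (pr l) t) := by
    intro p hp
    exact hasSubgaussianMGF_of_mem_Icc_of_integral_eq_zero (hXm p).aemeasurable
      (Filter.Eventually.of_forall (hXbd p hp)) (hXmean p hp)
  have hssub : ∀ i, i < n → HasSubgaussianMGF (step l0 t i)
      (∑ p ∈ blk (l0 + i), (‖12 / Real.sqrt p - -(12 / Real.sqrt p)‖₊ / 2) ^ 2)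
      (tilt (pr l) t) := by
    intro i hi
    rw [hstep i]
    exact HasSubgaussianMGF.sum_of_iIndepFun hXind (fun p hp => hXsub p (hblk i hi hp))
  have hcoef : ∀ i, ((∑ p ∈ blk (l0 + i),
      (‖12 / Real.sqrt p - -(12 / Real.sqrt p)‖₊ / 2) ^ 2 : NNReal) : ℝ) ≤
      144 * (Real.log 2 + K1) := by
    intro i
    have h1 := (hsum (l0 + i) 1).2
    rw [Nat.cast_one, mul_one] at h1
    push_cast
    calc ∑ p ∈ blk (l0 + i), (‖12 / Real.sqrt p - -(12 / Real.sqrt p)‖ / 2) ^ 2
        = ∑ p ∈ blk (l0 + i), 144 * (1 / (p : ℝ)) := by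
          refine Finset.sum_congr rfl (fun p hp => ?_)
          have hp0 : (0 : ℝ) < p := by exact_mod_cast (blk_prime hp).pos
          have hsq : Real.sqrt p ^ 2 = p := Real.sq_sqrt hp0.le
          have hs0 : 0 < Real.sqrt p := Real.sqrt_pos.mpr hp0
          rw [Real.norm_eq_abs, abs_of_pos (by
            have : 0 < 12 / Real.sqrt p := by positivity
            linarith)]
          have : (12 / Real.sqrt p - -(12 / Real.sqrt p)) / 2 = 12 / Real.sqrt p := by ring
          rw [this, div_pow, hsq]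
          ring
      _ = 144 * ∑ p ∈ blk (l0 + i), 1 / (p : ℝ) := by rw [Finset.mul_sum]
      _ ≤ 144 * (Real.log 2 + K1) := by
          have : ∑ p ∈ blk (l0 + i), 1 / (p : ℝ) ≤ Real.log 2 + K1 := h1
          linarith
  refine ⟨?_, ?_, ?_, ?_, ?_, ?_⟩
  · intro i hi
    rw [hstep i]
    exact Finset.measurable_fun_sum _ (fun p _ => hXm p)
  · have := block_indep hXind hXm (fun i : Fin n => blk (l0 + i)) (by
      intro i j hij
      rcases lt_trichotomy (i : ℕ) (j : ℕ) with h | h | h
      · exact blk_disj (by omega)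
      · exact absurd (Fin.ext h) hij
      · exact (blk_disj (by omega)).symm)
    convert this using 2 with i
    exact hstep i
  · intro i hi
    rw [hstep i, integral_finsetSum _ (fun p hp => hXint p (hblk i hi hp))]
    exact Finset.sum_eq_zero (fun p hp => hXmean p (hblk i hi hp))
  · intro i hi θ
    exact (hssub i hi).integrable_exp_mul θ
  · intro i hi θ
    refine ((hssub i hi).mgf_le θ).trans ?_
    apply Real.exp_le_exp.mpr
    have h1 := hcoef i
    have h2 : 0 ≤ θ ^ 2 := sq_nonneg θ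
    have h3 : 0 ≤ K1 / 10 := by positivity
    nlinarith [mul_le_mul_of_nonneg_right h1 h2, mul_nonneg h3 h2]
  · have hvar : ∀ i ∈ Finset.range n, (1 / 10 : ℝ) * ∑ p ∈ blk (l0 + i), 1 / (p : ℝ) ≤
        ∫ ω, (step l0 t i ω) ^ 2 ∂(tilt (pr l) t) := by
      intro i hi
      rw [Finset.mem_range] at hi
      have hmem : ∀ p ∈ blk (l0 + i), MemLp (X p) 2 (tilt (pr l) t) := by
        intro p hp
        refine MemLp.of_bound (hXm p).aestronglyMeasurable (12 / Real.sqrt p)
          (Filter.Eventually.of_forall fun ω => ?_)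
        rw [Real.norm_eq_abs]
        exact abs_le.mpr (hXbd p (hblk i hi hp) ω)
      have hv := IndepFun.variance_sum hmem (fun p _ q _ hpq => hXind.indepFun hpq)
      have hmean : ∫ ω, (∑ p ∈ blk (l0 + i), X p) ω ∂(tilt (pr l) t) = 0 := by
        simp only [Finset.sum_apply]
        rw [integral_finsetSum _ (fun p hp => hXint p (hblk i hi hp))]
        exact Finset.sum_eq_zero (fun p hp => hXmean p (hblk i hi hp))
      have hmeas : Measurable (∑ p ∈ blk (l0 + i), X p) := by
        have := Finset.measurable_fun_sum (blk (l0 + i)) (fun p _ => hXm p)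
        convert this using 1
        ext ω
        simp only [Finset.sum_apply]
      rw [variance_of_integral_eq_zero hmeas.aemeasurable hmean] at hv
      have hs : ∫ ω, (step l0 t i ω) ^ 2 ∂(tilt (pr l) t) =
          ∫ ω, ((∑ p ∈ blk (l0 + i), X p) ω) ^ 2 ∂(tilt (pr l) t) := by
        rw [hstep i]
        simp only [Finset.sum_apply]
      rw [hs, hv, Finset.mul_sum]
      refine Finset.sum_le_sum (fun p hp => ?_)
      have hpl := hblk i hi hp
      rw [variance_of_integral_eq_zero (hXm p).aemeasurable (hXmean p hpl)]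
      simp only [hXdef, if_pos (hS p hpl)]
      rw [tilt_coord_real hS t hpl (fun x => xx p t x ^ 2) ((continuous_xx (hS p hpl) t).pow 2)]
      have := var_xx (hS p hpl) t
      calc (1 / 10 : ℝ) * (1 / (p : ℝ)) = (1 / 10 : ℝ) / p := by ring
        _ ≤ _ := this
    have h1 := (hsum l0 n).1
    have h2 : ∑ i ∈ Finset.range n, (1 / 10 : ℝ) * ∑ p ∈ blk (l0 + i), 1 / (p : ℝ) =
        (1 / 10 : ℝ) * ∑ p ∈ pr (l0 + n) \ pr l0, 1 / (p : ℝ) := by
      rw [← Finset.mul_sum, sum_blocks (fun p => 1 / (p : ℝ)) l0 n]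
    have h3 := Finset.sum_le_sum hvar
    rw [h2] at h3
    have h4 : 0 ≤ 72 * (Real.log 2 + K1) := by positivity
    linarith

end Emb
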