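import Pool.Agent.Lib.Emb.RW2
import Pool.Agent.Lib.Emb.Walk

/-!
# Chunk K1: negative moments of the distance to the running maximum

`rho_le`: by `log_muL` and `sum_log_block`,
`log rho = - max_{i ≤ j} (log muL(l0+i) - log muL(l0+j) + c log((1+j)/(1+i)))
   ≤ - (max_{i≤j} S_i - S_j) + 2K`.
`rho_moment`: `exp_runMax` with `walk_hyp` (walk of length `j` under `tilt (pr l) t`, `l ≥ l0+j`).
-/

open MeasureTheory Complex ProbabilityTheory
open scoped BigOperators ENNReal

namespace Emb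

theorem rho_le (c : ℝ) (hc : 0 ≤ c) : ∃ K : ℝ, 0 < K ∧ ∀ (l0 j : ℕ) (t : ℝ) (ω : Om),
    rho c l0 j t ω ≤ K * Real.exp
      (-(runMax (fun i => psum (step l0 t) i ω) j - psum (step l0 t) j ω)) := by
  obtain ⟨K0, hK0, hK⟩ := sum_log_block
  refine ⟨Real.exp (2 * K0), Real.exp_pos _, fun l0 j t ω => ?_⟩
  obtain ⟨i, hi, hmax⟩ := Finset.exists_mem_eq_sup' (⟨0, by simp⟩ : (Finset.range (j + 1)).Nonempty)
    (fun i => psum (step l0 t) i ω)
  have hij : i ≤ j := by simpa [Nat.lt_succ_iff] using hi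
  have hrm : runMax (fun i => psum (step l0 t) i ω) j = psum (step l0 t) i ω := hmax
  rw [hrm]
  have hmi := muL_pos (l0 + i) t ω
  have hmj := muL_pos (l0 + j) t ω
  have hL := Lam_pos c l0 j t ω
  have hle := le_Lam c l0 hij t ω
  have hi0 : (0 : ℝ) < (1 + (i : ℝ)) ^ c := Real.rpow_pos_of_pos (by positivity) _
  have hj0 : (0 : ℝ) < (1 + (j : ℝ)) ^ c := Real.rpow_pos_of_pos (by positivity) _
  have hijc : (1 + (i : ℝ)) ^ c ≤ (1 + (j : ℝ)) ^ c :=
    Real.rpow_le_rpow (by positivity) (by have : (i : ℝ) ≤ j := by exact_mod_cast hij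
                                          linarith) hc
  -- denominators
  have h1 : muL (l0 + i) t ω ≤ (1 + (j : ℝ)) ^ c * Lam c l0 j t ω := by
    have h2 : muL (l0 + i) t ω ≤ (1 + (i : ℝ)) ^ c * Lam c l0 j t ω := by
      rw [div_le_iff₀ hi0] at hle
      linarith
    exact h2.trans (mul_le_mul_of_nonneg_right hijc hL.le)
  have h3 : rho c l0 j t ω ≤ muL (l0 + j) t ω / muL (l0 + i) t ω := by
    unfold rho
    exact div_le_div_of_nonneg_left hmj.le hmi h1
  refine h3.trans ?_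
  have h4 : muL (l0 + j) t ω / muL (l0 + i) t ω =
      Real.exp (Real.log (muL (l0 + j) t ω) - Real.log (muL (l0 + i) t ω)) := by
    rw [Real.exp_sub, Real.exp_log hmj, Real.exp_log hmi]
  rw [h4, ← Real.exp_add]
  apply Real.exp_le_exp.mpr
  have hj' := (abs_le.mp (hK l0 j))
  have hi' := (abs_le.mp (hK l0 i))
  rw [log_muL l0 j, log_muL l0 i]
  linarith [hj'.1, hj'.2, hi'.1, hi'.2]

theorem rho_moment (c θ β : ℝ) (hc : 0 ≤ c) (hθ : 0 < θ) (hβ : β < 1 / 2) :
    ∃ C : ℝ, 0 < C ∧ ∀ (l0 j l : ℕ), l0 + j ≤ l → ∀ t : ℝ,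
    ∫⁻ ω, ENNReal.ofReal (rho c l0 j t ω ^ θ) ∂(tilt (pr l) t) ≤
      ENNReal.ofReal (C * (1 + (j : ℝ)) ^ (-β)) := by
  obtain ⟨K1, hK1, hρ⟩ := rho_le c hc
  obtain ⟨c0, K, hc0, hK, hW⟩ := walk_hyp
  obtain ⟨C, hC, hE⟩ := exp_runMax c0 K (1 / 2 - β) θ hc0 hK (by linarith) hθ
  refine ⟨K1 ^ θ * C, by positivity, fun l0 j l hl t => ?_⟩
  haveI := tilt_prob (S := pr l) (fun p hp => pr_prime hp) t
  have hw := hW l0 j l hl t
  have hE' := hE Om (tilt (pr l) t) j (step l0 t) hw
  have hmeas : ∀ i, i ≤ j → Measurable (fun ω => psum (step l0 t) i ω) := by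
    intro i hi
    unfold psum
    apply Finset.measurable_sum
    intro k hk
    exact hw.meas k (lt_of_lt_of_le (Finset.mem_range.mp hk) hi)
  have hmax : Measurable (fun ω => runMax (fun i => psum (step l0 t) i ω) j) := by
    unfold runMax
    have := Finset.measurable_range_sup'' (n := j)
      (f := fun i ω => psum (step l0 t) i ω) (fun k hk => hmeas k hk)
    exact this
  set F : Om → ℝ := fun ω => Real.exp
      (-θ * (runMax (fun i => psum (step l0 t) i ω) j - psum (step l0 t) j ω)) with hF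
  have hFm : Measurable F := by
    rw [hF]
    exact Real.measurable_exp.comp ((hmax.sub (hmeas j le_rfl)).const_mul _)
  have hge : ∀ ω, psum (step l0 t) j ω ≤ runMax (fun i => psum (step l0 t) i ω) j := by
    intro ω
    exact Finset.le_sup' (fun i => psum (step l0 t) i ω) (Finset.mem_range.mpr (Nat.lt_succ_self j))
  have hF1 : ∀ ω, F ω ≤ 1 := by
    intro ω
    rw [hF]
    apply Real.exp_le_one_iff.mpr
    have := hge ω
    nlinarith
  have hFi : Integrable F (tilt (pr l) t) := by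
    refine Integrable.mono' (integrable_const (1 : ℝ)) hFm.aestronglyMeasurable ?_
    filter_upwards with ω
    rw [Real.norm_eq_abs, abs_of_pos (Real.exp_pos _)]
    exact hF1 ω
  have hpt : ∀ ω, rho c l0 j t ω ^ θ ≤ K1 ^ θ * F ω := by
    intro ω
    have h1 := hρ l0 j t ω
    have h0 := (rho_pos c l0 j t ω).le
    calc rho c l0 j t ω ^ θ ≤ (K1 * Real.exp
        (-(runMax (fun i => psum (step l0 t) i ω) j - psum (step l0 t) j ω))) ^ θ :=
          Real.rpow_le_rpow h0 h1 hθ.le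
      _ = K1 ^ θ * F ω := by
          rw [Real.mul_rpow hK1.le (Real.exp_pos _).le, ← Real.exp_mul]
          rw [hF]
          congr 2
          ring
  calc ∫⁻ ω, ENNReal.ofReal (rho c l0 j t ω ^ θ) ∂(tilt (pr l) t)
      ≤ ∫⁻ ω, ENNReal.ofReal (K1 ^ θ * F ω) ∂(tilt (pr l) t) :=
        lintegral_mono fun ω => ENNReal.ofReal_le_ofReal (hpt ω)
    _ = ENNReal.ofReal (∫ ω, K1 ^ θ * F ω ∂(tilt (pr l) t)) := by
        rw [ofReal_integral_eq_lintegral_ofReal (hFi.const_mul _)]
        filter_upwards with ω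
        have : 0 < F ω := Real.exp_pos _
        positivity
    _ ≤ ENNReal.ofReal (K1 ^ θ * C * (1 + (j : ℝ)) ^ (-β)) := by
        apply ENNReal.ofReal_le_ofReal
        rw [integral_const_mul, mul_assoc]
        apply mul_le_mul_of_nonneg_left _ (by positivity)
        refine hE'.trans (le_of_eq ?_)
        congr 1
        rw [add_comm]
        congr 1
        ring

end Emb
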