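import Mathlib

/-!
# Chunk NL: a finite large sieve inequality on `[0,1]`

Write `ξ_i = 2π k_i + θ_i`, `k_i ∈ ℤ`, `θ_i ∈ [0, 2π)`.  Then
`∫_0^1 φ(t) e^{itξ_i} dt = ∑_{j≥0} (iθ_i)^j/j! ∫_0^1 t^j φ(t) e^{2πi k_i t} dt`, so
`|…| ≤ ∑_j (2π)^j/j! |c_j(k_i)|`, `c_j(k)` the Fourier coefficients of `t^j φ`;
Bessel: `∑_k |c_j(k)|² ≤ ∫_0^1 |t^j φ|² ≤ ∫_0^1 |φ|²`; the total weight of the `i` with given `k_i` is
`≤ 7ρ` (the interval `[2πk, 2π(k+1))` is covered by 7 unit intervals).  Minkowski: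
`∑ w_i |…|² ≤ 7ρ (∑_j (2π)^j/j!)² ∫|φ|²`.
(Alternative: `sup_{[v,v+1]} |h|² ≤ 2∫|h|² + 2∫|h'|²` and Plancherel.)
-/

open MeasureTheory Complex
open scoped BigOperators

namespace Emb

/-- Bessel's inequality -/
private theorem nl_bessel {g : ℝ → ℂ} (hg : Continuous g) (K : Finset ℤ) :
    ∑ k ∈ K, ‖∫ t in (0 : ℝ)..1, g t * Complex.exp (((t * (2 * Real.pi * k) : ℝ) : ℂ) * I)‖ ^ 2 ≤
      ∫ t in (0 : ℝ)..1, ‖g t‖ ^ 2 := by
  have hL2 : MemLp g 2 (volume.restrict (Set.Ioc (0 : ℝ) 1)) := by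
    obtain ⟨B, hB⟩ := isCompact_Icc.exists_bound_of_continuousOn (hg.continuousOn (s := Set.Icc 0 1))
    refine MemLp.of_bound hg.aestronglyMeasurable B ?_
    rw [ae_restrict_iff' measurableSet_Ioc]
    exact Filter.Eventually.of_forall fun t ht => hB t (Set.Ioc_subset_Icc_self ht)
  have h := hasSum_sq_fourierCoeffOn (zero_lt_one' ℝ) hL2
  have h2 := ((Equiv.neg ℤ).hasSum_iff).2 h
  rw [sub_zero, inv_one, one_smul] at h2
  have e : ∀ k : ℤ, ((fun i => ‖fourierCoeffOn (zero_lt_one' ℝ) g i‖ ^ 2) ∘ (Equiv.neg ℤ)) k =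
      ‖∫ t in (0 : ℝ)..1, g t * Complex.exp (((t * (2 * Real.pi * k) : ℝ) : ℂ) * I)‖ ^ 2 := by
    intro k
    show ‖fourierCoeffOn (zero_lt_one' ℝ) g (-k)‖ ^ 2 = _
    rw [fourierCoeffOn_eq_integral, sub_zero, div_one, one_smul, neg_neg]
    congr 2
    apply intervalIntegral.integral_congr
    intro t _
    simp only [smul_eq_mul]
    rw [fourier_coe_apply, mul_comm]
    congr 2
    push_cast
    ring
  calc _ = ∑ k ∈ K, ((fun i => ‖fourierCoeffOn (zero_lt_one' ℝ) g i‖ ^ 2) ∘ (Equiv.neg ℤ)) k :=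
        Finset.sum_congr rfl (fun k _ => (e k).symm)
    _ ≤ _ := sum_le_hasSum K (fun k _ => sq_nonneg _) h2

/-- Cauchy–Schwarz for series -/
private theorem nl_cs {a x : ℕ → ℝ} (ha : ∀ j, 0 ≤ a j) (hs : Summable a)
    (h1 : Summable fun j => a j * x j) (h2 : Summable fun j => a j * x j ^ 2) :
    (∑' j, a j * x j) ^ 2 ≤ (∑' j, a j) * ∑' j, a j * x j ^ 2 := by
  set A := ∑' j, a j with hA
  set B := ∑' j, a j * x j with hB
  set C := ∑' j, a j * x j ^ 2 with hC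
  have key : ∀ s : ℝ, 0 ≤ C - 2 * s * B + s ^ 2 * A := by
    intro s
    have h3 := (h2.hasSum.sub (h1.hasSum.mul_left (2 * s))).add (hs.hasSum.mul_left (s ^ 2))
    refine h3.nonneg ?_
    intro j
    have : a j * x j ^ 2 - 2 * s * (a j * x j) + s ^ 2 * a j = a j * (x j - s) ^ 2 := by ring
    rw [this]
    exact mul_nonneg (ha j) (sq_nonneg _)
  have hA0 : 0 ≤ A := tsum_nonneg ha
  rcases hA0.lt_or_eq with hA0 | hA0
  · have h3 := key (B / A)
    have h4 : C - 2 * (B / A) * B + (B / A) ^ 2 * A = C - B ^ 2 / A := by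
      field_simp
      ring
    rw [h4, sub_nonneg, div_le_iff₀ hA0] at h3
    linarith
  · have h5 : ∀ j, a j = 0 := by
      intro j
      have h6 := hs.le_tsum j (fun i _ => ha i)
      rw [← hA, ← hA0] at h6
      exact le_antisymm h6 (ha j)
    have h7 : B = 0 := by
      rw [hB]
      simp [h5]
    rw [h7, ← hA0]
    simp

private noncomputable def nlk (x : ℝ) : ℤ := ⌊x / (2 * Real.pi)⌋

private noncomputable def nlc (φ : ℝ → ℂ) (j : ℕ) (k : ℤ) : ℂ :=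
  ∫ t in (0 : ℝ)..1, ((t : ℂ) ^ j * φ t) * Complex.exp (((t * (2 * Real.pi * k) : ℝ) : ℂ) * I)

private theorem nl_theta (x : ℝ) :
    0 ≤ x - 2 * Real.pi * nlk x ∧ x - 2 * Real.pi * nlk x ≤ 2 * Real.pi := by
  have hpi := Real.pi_pos
  have h1 := Int.floor_le (x / (2 * Real.pi))
  have h2 := (Int.lt_floor_add_one (x / (2 * Real.pi))).le
  rw [le_div_iff₀ (by positivity)] at h1
  rw [div_le_iff₀ (by positivity)] at h2
  unfold nlk
  constructor <;> linarith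

private theorem nl_c_bound {φ : ℝ → ℂ} (hφ : Continuous φ) (j : ℕ) (k : ℤ) :
    ‖nlc φ j k‖ ≤ ∫ t in (0 : ℝ)..1, ‖φ t‖ := by
  unfold nlc
  refine (intervalIntegral.norm_integral_le_integral_norm (by norm_num)).trans ?_
  refine intervalIntegral.integral_mono_on (by norm_num)
    (Continuous.intervalIntegrable (by fun_prop) _ _)
    (Continuous.intervalIntegrable (by fun_prop) _ _) ?_
  intro t ht
  rw [norm_mul, norm_mul, Complex.norm_exp_ofReal_mul_I, mul_one, norm_pow, Complex.norm_real,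
    Real.norm_of_nonneg ht.1]
  have h1 : t ^ j ≤ 1 := pow_le_one₀ ht.1 ht.2
  nlinarith [norm_nonneg (φ t)]

/-- Taylor expansion -/
private theorem nl_taylor {φ : ℝ → ℂ} (hφ : Continuous φ) (x : ℝ) :
    HasSum (fun j : ℕ => ((x - 2 * Real.pi * nlk x : ℝ) * I : ℂ) ^ j / (j.factorial : ℂ) *
      nlc φ j (nlk x)) (∫ t in (0 : ℝ)..1, φ t * Complex.exp (((t * x : ℝ) : ℂ) * I)) := by
  set θ : ℝ := x - 2 * Real.pi * nlk x with hθ
  obtain ⟨h0, h1⟩ := nl_theta x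
  rw [← hθ] at h0 h1
  have key := intervalIntegral.hasSum_integral_of_dominated_convergence (μ := volume) (a := 0)
    (b := 1)
    (F := fun (j : ℕ) (t : ℝ) => ((θ : ℝ) * I : ℂ) ^ j / (j.factorial : ℂ) *
      (((t : ℂ) ^ j * φ t) * Complex.exp (((t * (2 * Real.pi * nlk x) : ℝ) : ℂ) * I)))
    (f := fun t : ℝ => φ t * Complex.exp (((t * x : ℝ) : ℂ) * I))
    (fun (j : ℕ) (t : ℝ) => (2 * Real.pi) ^ j / (j.factorial : ℝ) * ‖φ t‖)
    (fun j => (Continuous.aestronglyMeasurable (by fun_prop)))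
    (fun j => Filter.Eventually.of_forall fun t ht => ?_)
    (Filter.Eventually.of_forall fun t ht => ?_) ?_
    (Filter.Eventually.of_forall fun t ht => ?_)
  · refine key.congr_fun ?_
    intro j
    rw [intervalIntegral.integral_const_mul]
    rfl
  · rw [Set.uIoc_of_le (by norm_num)] at ht
    rw [norm_mul, norm_mul, norm_mul, Complex.norm_exp_ofReal_mul_I, mul_one, norm_div, norm_pow,
      norm_mul, Complex.norm_I, mul_one, Complex.norm_real, Real.norm_of_nonneg h0,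
      Complex.norm_natCast, norm_pow, Complex.norm_real, Real.norm_of_nonneg ht.1.le]
    have h2 : t ^ j ≤ 1 := pow_le_one₀ ht.1.le ht.2
    have h3 : θ ^ j ≤ (2 * Real.pi) ^ j := pow_le_pow_left₀ h0 h1 j
    have h4 : (0 : ℝ) < j.factorial := by exact_mod_cast Nat.factorial_pos j
    have h5 : 0 ≤ ‖φ t‖ := norm_nonneg _
    have h6 : t ^ j * ‖φ t‖ ≤ ‖φ t‖ := by nlinarith
    have h7 : θ ^ j / (j.factorial : ℝ) ≤ (2 * Real.pi) ^ j / (j.factorial : ℝ) := by gcongr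
    exact mul_le_mul h7 h6 (mul_nonneg (pow_nonneg ht.1.le _) h5) (by positivity)
  · exact (Real.summable_pow_div_factorial (2 * Real.pi)).mul_right _
  · have e : (fun t : ℝ => ∑' j : ℕ, (2 * Real.pi) ^ j / (j.factorial : ℝ) * ‖φ t‖) =
        fun t => (∑' j : ℕ, (2 * Real.pi) ^ j / (j.factorial : ℝ)) * ‖φ t‖ := by
      funext t
      rw [tsum_mul_right]
    rw [e]
    exact Continuous.intervalIntegrable (by fun_prop) _ _
  · have h2 := NormedSpace.expSeries_div_hasSum_exp (𝔸 := ℂ) (((t * θ : ℝ) : ℂ) * I)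
    rw [← Complex.exp_eq_exp_ℂ] at h2
    have h3 := h2.mul_left (φ t * Complex.exp (((t * (2 * Real.pi * nlk x) : ℝ) : ℂ) * I))
    have e1 : φ t * Complex.exp (((t * (2 * Real.pi * nlk x) : ℝ) : ℂ) * I) *
        Complex.exp (((t * θ : ℝ) : ℂ) * I) = φ t * Complex.exp (((t * x : ℝ) : ℂ) * I) := by
      rw [mul_assoc, ← Complex.exp_add]
      congr 2
      rw [hθ]
      push_cast
      ring
    rw [e1] at h3
    refine h3.congr_fun ?_
    intro j
    push_cast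
    ring

private theorem nl_weights (S : Finset ℕ) (w ξ : ℕ → ℝ) (ρ : ℝ) (hw : ∀ i ∈ S, 0 ≤ w i)
    (h : ∀ v : ℝ, ∑ i ∈ S.filter (fun i : ℕ => v ≤ ξ i ∧ ξ i < v + 1), w i ≤ ρ) (k : ℤ) :
    ∑ i ∈ S.filter (fun i : ℕ => nlk (ξ i) = k), w i ≤ 7 * ρ := by
  have hpi := Real.pi_pos
  have hpi2 := Real.pi_lt_d2
  have h1 : ∑ i ∈ S.filter (fun i : ℕ => nlk (ξ i) = k), w i =
      ∑ m ∈ Finset.range 7, ∑ i ∈ (S.filter (fun i : ℕ => nlk (ξ i) = k)).filter
        (fun i : ℕ => ⌊ξ i - 2 * Real.pi * k⌋₊ = m), w i := by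
    rw [Finset.sum_fiberwise_of_maps_to]
    intro i hi
    rw [Finset.mem_filter] at hi
    rw [Finset.mem_range]
    have h2 := nl_theta (ξ i)
    rw [hi.2] at h2
    rw [Nat.floor_lt h2.1]
    push_cast
    linarith [h2.2]
  rw [h1]
  have h2 : ∀ m ∈ Finset.range 7, ∑ i ∈ (S.filter (fun i : ℕ => nlk (ξ i) = k)).filter
        (fun i : ℕ => ⌊ξ i - 2 * Real.pi * k⌋₊ = m), w i ≤ ρ := by
    intro m _
    refine le_trans ?_ (h (2 * Real.pi * k + m))
    refine Finset.sum_le_sum_of_subset_of_nonneg ?_ ?_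
    · intro i hi
      rw [Finset.mem_filter, Finset.mem_filter] at hi
      obtain ⟨⟨hiS, hik⟩, him⟩ := hi
      have h3 := (nl_theta (ξ i)).1
      rw [hik] at h3
      rw [Finset.mem_filter]
      have h4 := Nat.floor_le h3
      have h5 := Nat.lt_floor_add_one (ξ i - 2 * Real.pi * k)
      rw [him] at h4 h5
      exact ⟨hiS, by linarith, by linarith⟩
    · intro i hi _
      exact hw i (Finset.mem_filter.1 hi).1
  refine (Finset.sum_le_sum h2).trans ?_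
  simp

theorem ls_finite : ∃ C : ℝ, 0 < C ∧ ∀ (S : Finset ℕ) (w ξ : ℕ → ℝ) (ρ : ℝ),
    (∀ i ∈ S, 0 ≤ w i) → (∀ v : ℝ, ∑ i ∈ S.filter (fun i : ℕ => v ≤ ξ i ∧ ξ i < v + 1), w i ≤ ρ) →
    ∀ φ : ℝ → ℂ, Continuous φ →
      ∑ i ∈ S, w i * ‖∫ t in (0 : ℝ)..1, φ t * Complex.exp (((t * ξ i : ℝ) : ℂ) * I)‖ ^ 2 ≤
        C * ρ * ∫ t in (0 : ℝ)..1, ‖φ t‖ ^ 2 := by
  classical
  have hpi := Real.pi_pos
  set a : ℕ → ℝ := fun j => (2 * Real.pi) ^ j / (j.factorial : ℝ) with ha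
  have hs : Summable a := Real.summable_pow_div_factorial (2 * Real.pi)
  have ha0 : ∀ j, 0 ≤ a j := fun j => by
    rw [ha]
    positivity
  set A := ∑' j, a j with hA
  have hA1 : 0 < A := by
    have h1 := hs.le_tsum 0 (fun i _ => ha0 i)
    have h2 : a 0 = 1 := by simp [ha]
    rw [h2] at h1
    exact lt_of_lt_of_le one_pos h1
  refine ⟨7 * A ^ 2, by positivity, ?_⟩
  intro S w ξ ρ hw hρ φ hφ
  set E : ℝ := ∫ t in (0 : ℝ)..1, ‖φ t‖ ^ 2 with hE
  set M : ℝ := ∫ t in (0 : ℝ)..1, ‖φ t‖ with hM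
  have hρ0 : 0 ≤ ρ := le_trans (Finset.sum_nonneg fun i hi => hw i (Finset.mem_filter.1 hi).1) (hρ 0)
  have hM0 : 0 ≤ M := intervalIntegral.integral_nonneg (by norm_num) (fun t _ => norm_nonneg _)
  have hE0 : 0 ≤ E := intervalIntegral.integral_nonneg (by norm_num) (fun t _ => sq_nonneg _)
  have s1 : ∀ k : ℤ, Summable fun j => a j * ‖nlc φ j k‖ := by
    intro k
    refine Summable.of_nonneg_of_le (fun j => mul_nonneg (ha0 j) (norm_nonneg _)) ?_
      (hs.mul_right M)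
    intro j
    exact mul_le_mul_of_nonneg_left (nl_c_bound hφ j k) (ha0 j)
  have s2 : ∀ k : ℤ, Summable fun j => a j * ‖nlc φ j k‖ ^ 2 := by
    intro k
    refine Summable.of_nonneg_of_le (fun j => mul_nonneg (ha0 j) (sq_nonneg _)) ?_
      (hs.mul_right (M ^ 2))
    intro j
    exact mul_le_mul_of_nonneg_left (pow_le_pow_left₀ (norm_nonneg _) (nl_c_bound hφ j k) 2) (ha0 j)
  -- pointwise bound
  have hpt : ∀ x : ℝ, ‖∫ t in (0 : ℝ)..1, φ t * Complex.exp (((t * x : ℝ) : ℂ) * I)‖ ^ 2 ≤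
      A * ∑' j, a j * ‖nlc φ j (nlk x)‖ ^ 2 := by
    intro x
    refine le_trans ?_ (nl_cs ha0 hs (s1 (nlk x)) (s2 (nlk x)))
    refine pow_le_pow_left₀ (norm_nonneg _) ?_ 2
    have h1 := nl_taylor hφ x
    rw [← h1.tsum_eq]
    refine tsum_of_norm_bounded (s1 (nlk x)).hasSum ?_
    intro j
    obtain ⟨h0, h2⟩ := nl_theta x
    rw [norm_mul, norm_div, norm_pow, norm_mul, Complex.norm_I, mul_one, Complex.norm_real,
      Real.norm_of_nonneg h0, Complex.norm_natCast]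
    refine mul_le_mul_of_nonneg_right ?_ (norm_nonneg _)
    rw [ha]
    have h4 : (0 : ℝ) < j.factorial := by exact_mod_cast Nat.factorial_pos j
    show _ / _ ≤ _ / _
    gcongr
  -- each power
  have hj : ∀ j : ℕ, ∑ i ∈ S, w i * ‖nlc φ j (nlk (ξ i))‖ ^ 2 ≤ 7 * ρ * E := by
    intro j
    have h1 : ∑ i ∈ S, w i * ‖nlc φ j (nlk (ξ i))‖ ^ 2 =
        ∑ k ∈ S.image (fun i => nlk (ξ i)), ∑ i ∈ S.filter (fun i : ℕ => nlk (ξ i) = k),
          w i * ‖nlc φ j (nlk (ξ i))‖ ^ 2 := by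
      rw [Finset.sum_fiberwise_of_maps_to]
      intro i hi
      exact Finset.mem_image_of_mem _ hi
    rw [h1]
    have h2 : ∀ k ∈ S.image (fun i => nlk (ξ i)), ∑ i ∈ S.filter (fun i : ℕ => nlk (ξ i) = k),
          w i * ‖nlc φ j (nlk (ξ i))‖ ^ 2 ≤ 7 * ρ * ‖nlc φ j k‖ ^ 2 := by
      intro k _
      have h3 : ∑ i ∈ S.filter (fun i : ℕ => nlk (ξ i) = k), w i * ‖nlc φ j (nlk (ξ i))‖ ^ 2 =
          (∑ i ∈ S.filter (fun i : ℕ => nlk (ξ i) = k), w i) * ‖nlc φ j k‖ ^ 2 := by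
        rw [Finset.sum_mul]
        refine Finset.sum_congr rfl fun i hi => ?_
        rw [(Finset.mem_filter.1 hi).2]
      rw [h3]
      exact mul_le_mul_of_nonneg_right (nl_weights S w ξ ρ hw hρ k) (sq_nonneg _)
    refine (Finset.sum_le_sum h2).trans ?_
    rw [← Finset.mul_sum]
    refine mul_le_mul_of_nonneg_left ?_ (by positivity)
    refine (nl_bessel (g := fun t : ℝ => (t : ℂ) ^ j * φ t) (by fun_prop) _).trans ?_
    refine intervalIntegral.integral_mono_on (by norm_num)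
      (Continuous.intervalIntegrable (by fun_prop) _ _)
      (Continuous.intervalIntegrable (by fun_prop) _ _) ?_
    intro t ht
    rw [norm_mul, norm_pow, Complex.norm_real, Real.norm_of_nonneg ht.1]
    have h4 : t ^ j ≤ 1 := pow_le_one₀ ht.1 ht.2
    refine pow_le_pow_left₀ (mul_nonneg (pow_nonneg ht.1 _) (norm_nonneg _)) ?_ 2
    nlinarith [norm_nonneg (φ t)]
  calc ∑ i ∈ S, w i * ‖∫ t in (0 : ℝ)..1, φ t * Complex.exp (((t * ξ i : ℝ) : ℂ) * I)‖ ^ 2
      ≤ ∑ i ∈ S, w i * (A * ∑' j, a j * ‖nlc φ j (nlk (ξ i))‖ ^ 2) :=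
        Finset.sum_le_sum fun i hi => mul_le_mul_of_nonneg_left (hpt (ξ i)) (hw i hi)
    _ = A * ∑ i ∈ S, ∑' j, a j * (w i * ‖nlc φ j (nlk (ξ i))‖ ^ 2) := by
        rw [Finset.mul_sum]
        refine Finset.sum_congr rfl fun i _ => ?_
        have e : ∀ j, a j * (w i * ‖nlc φ j (nlk (ξ i))‖ ^ 2) =
            w i * (a j * ‖nlc φ j (nlk (ξ i))‖ ^ 2) := fun j => by ring
        simp only [e, tsum_mul_left]
        ring
    _ = A * ∑' j, ∑ i ∈ S, a j * (w i * ‖nlc φ j (nlk (ξ i))‖ ^ 2) := by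
        congr 1
        symm
        refine Summable.tsum_finsetSum fun i _ => ?_
        refine ((s2 (nlk (ξ i))).mul_left (w i)).congr ?_
        intro j
        ring
    _ ≤ A * ∑' j, a j * (7 * ρ * E) := by
        refine mul_le_mul_of_nonneg_left ?_ hA1.le
        refine Summable.tsum_le_tsum (fun j => ?_) ?_ (hs.mul_right _)
        · rw [← Finset.mul_sum]
          exact mul_le_mul_of_nonneg_left (hj j) (ha0 j)
        · refine summable_sum fun i _ => ?_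
          refine ((s2 (nlk (ξ i))).mul_left (w i)).congr ?_
          intro j
          ring
    _ = 7 * A ^ 2 * ρ * E := by
        rw [tsum_mul_right, ← hA]
        ring

end Emb
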