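import Pool.Agent.Lib.Emb.ExpD
import Pool.Agent.Lib.Emb.NegDefs
import Pool.Agent.Lib.Emb.NT1

/-!
# Chunk NW: the total mass of the critical cascade tends to zero in `L^r`, `r < 1`

Let `L_n = ∑_{j ≤ n} DD 1 (1/4) 0 0 j` (`c = 1`), `E L_n ≤ C` (`lintegral_sum_DD`),
`θ = (1-r)/r`.  Hölder with exponents `1/r`, `1/(1-r)` applied to
`W^r = (W L^{-θ})^r L^{θ r}`, `θ r = 1 - r`: `E W^r ≤ (E[W L^{-θ}])^r (E L)^{1-r}`.
`E[W L^{-θ}] = ∫_0^1 E_t[L^{-θ}] dt ≤ ∫_0^1 E_t[Lam 1 0 n t ^{-θ}] dt` (`path_Lam`, `lintegral_tilt`),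
and by `log_muL` (with `l0 = 0`, `pr 0 = ∅`, `muL 0 = 1`) and `sum_log_block`
`Lam 1 0 n t ≥ e^{-K} exp(max_{i≤n} (S_i - log(1+i)))`, so
`E_t[Lam^{-θ}] ≤ e^{Kθ} φ(n) → 0` by `exp_runMax_log` and `walk_hyp`.
-/

open MeasureTheory Complex ProbabilityTheory Filter
open scoped BigOperators ENNReal

namespace Emb

theorem NW_log_muL_zero (t : ℝ) (ω : Om) : Real.log (muL 0 t ω) = 0 := by
  unfold muL dd
  rw [pr_zeroE]
  simp

theorem NW_Lam_ge : ∃ K : ℝ, 0 < K ∧ ∀ (n : ℕ) (t : ℝ) (ω : Om),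
    Real.exp (-K) * Real.exp (runMax (fun j => psum (step 0 t) j ω - 1 * Real.log (1 + j)) n) ≤
      Lam 1 0 n t ω := by
  obtain ⟨K, hK, h⟩ := sum_log_block
  refine ⟨K, hK, fun n t ω => ?_⟩
  obtain ⟨i, hi, hmax⟩ := Finset.exists_mem_eq_sup' (⟨0, by simp⟩ : (Finset.range (n + 1)).Nonempty)
    (fun j : ℕ => psum (step 0 t) j ω - 1 * Real.log (1 + j))
  have hin : i ≤ n := by simpa [Nat.lt_succ_iff] using hi
  have hrm : runMax (fun j => psum (step 0 t) j ω - 1 * Real.log (1 + j)) n =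
      psum (step 0 t) i ω - 1 * Real.log (1 + i) := hmax
  rw [hrm]
  refine le_trans ?_ (le_Lam 1 0 hin t ω)
  have hm := muL_pos (0 + i) t ω
  have hi0 : (0 : ℝ) < 1 + (i : ℝ) := by positivity
  rw [Real.rpow_one, ← Real.exp_add, ← Real.exp_log (div_pos hm hi0)]
  apply Real.exp_le_exp.mpr
  rw [Real.log_div hm.ne' hi0.ne', log_muL 0 i, NW_log_muL_zero]
  have := (abs_le.mp (h 0 i)).1
  linarith

theorem exp_Lam_neg (θ : ℝ) (hθ : 0 < θ) :
    ∃ φ : ℕ → ℝ, Tendsto φ atTop (nhds 0) ∧ ∀ (n : ℕ) (t : ℝ),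
      ∫⁻ ω, ENNReal.ofReal (Lam 1 0 n t ω ^ (-θ)) ∂(tilt (pr n) t) ≤ ENNReal.ofReal (φ n) := by
  obtain ⟨K, hK, hL⟩ := NW_Lam_ge
  obtain ⟨c, K1, hc, hK1, hW⟩ := walk_hyp
  obtain ⟨φ, hφ, h⟩ := exp_runMax_log c K1 1 θ hc hK1 zero_le_one hθ
  refine ⟨fun n => Real.exp (K * θ) * φ n, by simpa using hφ.const_mul (Real.exp (K * θ)),
    fun n t => ?_⟩
  have hP : IsProbabilityMeasure (tilt (pr n) t) := tilt_prob (fun p hp => pr_prime hp) t
  have hwalk := hW 0 n n (by omega) t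
  have hh := h Om (tilt (pr n) t) n (step 0 t) hwalk
  set R : Om → ℝ := fun ω => runMax (fun j => psum (step 0 t) j ω - 1 * Real.log (1 + j)) n
    with hR
  have hR0 : ∀ ω, 0 ≤ R ω := by
    intro ω
    have h1 := Finset.le_sup' (fun j : ℕ => psum (step 0 t) j ω - 1 * Real.log (1 + j))
      (show 0 ∈ Finset.range (n + 1) by simp)
    have h2 : psum (step 0 t) 0 ω - 1 * Real.log (1 + (0 : ℕ)) = 0 := by simp [psum]
    rw [h2] at h1
    exact h1
  have hpt : ∀ ω, Lam 1 0 n t ω ^ (-θ) ≤ Real.exp (K * θ) * Real.exp (-θ * R ω) := by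
    intro ω
    have h1 := hL n t ω
    have h2 : Real.exp (K * θ) * Real.exp (-θ * R ω) =
        (Real.exp (-K) * Real.exp (R ω)) ^ (-θ) := by
      rw [← Real.exp_add, ← Real.exp_add, ← Real.exp_mul]
      congr 1
      ring
    rw [h2]
    exact Real.rpow_le_rpow_of_nonpos (by positivity) h1 (by linarith)
  have hmeasS : ∀ j, j ≤ n → Measurable (fun ω => psum (step 0 t) j ω) := by
    intro j hj
    unfold psum
    exact Finset.measurable_sum _ fun i hi => hwalk.meas i (by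
      have := Finset.mem_range.mp hi
      omega)
  have hRm : Measurable R := by
    have h1 : Measurable fun ω => (Finset.range (n + 1)).sup' Finset.nonempty_range_add_one
        (fun (j : ℕ) => psum (step 0 t) j ω - 1 * Real.log (1 + j)) :=
      Finset.measurable_range_sup'' fun k hk => (hmeasS k hk).sub_const _
    exact h1
  have hint : Integrable (fun ω => Real.exp (-θ * R ω)) (tilt (pr n) t) := by
    refine Integrable.of_bound (C := 1) (hRm.const_mul (-θ)).exp.aestronglyMeasurable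
      (Filter.Eventually.of_forall fun ω => ?_)
    rw [Real.norm_eq_abs, abs_of_pos (Real.exp_pos _)]
    exact Real.exp_le_one_iff.mpr (by nlinarith [hR0 ω])
  calc ∫⁻ ω, ENNReal.ofReal (Lam 1 0 n t ω ^ (-θ)) ∂(tilt (pr n) t)
      ≤ ∫⁻ ω, ENNReal.ofReal (Real.exp (K * θ) * Real.exp (-θ * R ω)) ∂(tilt (pr n) t) :=
        lintegral_mono fun ω => ENNReal.ofReal_le_ofReal (hpt ω)
    _ = ENNReal.ofReal (∫ ω, Real.exp (K * θ) * Real.exp (-θ * R ω) ∂(tilt (pr n) t)) := by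
        rw [ofReal_integral_eq_lintegral_ofReal (hint.const_mul _)
          (Filter.Eventually.of_forall fun ω => by positivity)]
    _ ≤ ENNReal.ofReal (Real.exp (K * θ) * φ n) := by
        rw [integral_const_mul]
        exact ENNReal.ofReal_le_ofReal (mul_le_mul_of_nonneg_left hh (Real.exp_pos _).le)

theorem WW_tendsto (r : ℝ) (hr0 : 0 < r) (hr1 : r < 1) :
    Tendsto (fun n => ∫⁻ ω, WW n ω ^ r ∂mu) atTop (nhds 0) := by
  obtain ⟨C, hC, hD⟩ := lintegral_sum_DD 1 (1 / 4) (by norm_num) (by norm_num) le_rfl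
  set θ : ℝ := (1 - r) / r with hθ
  have hθ0 : 0 < θ := div_pos (by linarith) hr0
  obtain ⟨φ, hφ, hφ'⟩ := exp_Lam_neg θ hθ0
  have key : ∀ n, ∫⁻ ω, WW n ω ^ r ∂mu ≤
      ENNReal.ofReal (φ n) ^ r * ENNReal.ofReal C ^ (1 - r) := by
    intro n
    set L : Om → ℝ≥0∞ := fun ω => ∑ j ∈ Finset.range (n + 1), DD 1 (1 / 4) 0 0 j ω with hL
    have hLm : Measurable L := Finset.measurable_sum _ fun j _ => measurable_DD 1 (1 / 4) 0 0 j
    have hEL : ∫⁻ ω, L ω ∂mu ≤ ENNReal.ofReal C := by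
      have := hD 0 0 (n + 1)
      rw [pow_zero, inv_one, ENNReal.ofReal_one, mul_one] at this
      exact this
    have hLtop : ∀ᵐ ω ∂mu, L ω < ∞ :=
      ae_lt_top hLm (hEL.trans_lt ENNReal.ofReal_lt_top).ne
    have hLam : ∀ (t : ℝ), t ∈ cell 0 0 → ∀ ω, ENNReal.ofReal (Lam 1 0 n t ω) ≤ L ω :=
      fun t ht ω => path_Lam 1 (1 / 4) zero_le_one (by norm_num) le_rfl 0 0 n t ht ω
    have h0cell : (0 : ℝ) ∈ cell 0 0 := by
      unfold cell
      simp
    have hL0 : ∀ ω, L ω ≠ 0 := by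
      intro ω h0
      have := hLam 0 h0cell ω
      rw [h0] at this
      have h1 := ENNReal.ofReal_pos.mpr (Lam_pos 1 0 n 0 ω)
      exact absurd (this.trans_lt h1) (lt_irrefl _)
    have hWm : Measurable (WW n) := by
      unfold WW
      have hm : Measurable fun z : ℝ × Om => ENNReal.ofReal (dd (pr n) z.1 z.2) :=
        (continuous_dd (S := pr n) (fun p hp => pr_prime hp)).measurable.ennreal_ofReal
      exact hm.lintegral_prod_left'
    -- the pairing
    have hWL : ∫⁻ ω, WW n ω * L ω ^ (-θ) ∂mu ≤ ENNReal.ofReal (φ n) := by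
      have hF : Measurable (Function.uncurry fun (t : ℝ) (ω : Om) => Lam 1 0 n t ω ^ (-θ)) :=
        (continuous_Lam 1 0 n).measurable.pow_const (-θ)
      have h1 := D_tonelli n 0 0 (fun t ω => Lam 1 0 n t ω ^ (-θ)) hF (φ n) (fun t => hφ' n t)
      refine le_trans (lintegral_mono fun ω => ?_) (h1.trans (by simp))
      unfold WW
      have hdd : Measurable fun t : ℝ => ENNReal.ofReal (dd (pr n) t ω) :=
        ((continuous_dd (S := pr n) (fun p hp => pr_prime hp)).comp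
          (Continuous.prodMk_left ω)).measurable.ennreal_ofReal
      rw [← lintegral_mul_const _ hdd]
      refine setLIntegral_mono' measurableSet_Ico fun t ht => ?_
      rw [ENNReal.ofReal_mul (dd_pos (fun p hp => pr_prime hp) t ω).le]
      gcongr
      rw [← ENNReal.ofReal_rpow_of_pos (Lam_pos 1 0 n t ω)]
      rw [ENNReal.rpow_neg, ENNReal.rpow_neg]
      exact ENNReal.inv_le_inv.mpr (ENNReal.rpow_le_rpow (hLam t ht ω) hθ0.le)
    -- Hölder
    have hpq : (1 / r).HolderConjugate (1 / (1 - r)) := by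
      rw [Real.holderConjugate_iff]
      refine ⟨by rw [lt_div_iff₀ hr0]; linarith, ?_⟩
      simp
    have hhol := ENNReal.lintegral_mul_le_Lp_mul_Lq mu hpq
      (f := fun ω => (WW n ω * L ω ^ (-θ)) ^ r) (g := fun ω => L ω ^ (1 - r))
      ((hWm.mul (hLm.pow_const _)).pow_const r).aemeasurable
      (hLm.pow_const _).aemeasurable
    have e1 : ∫⁻ ω, WW n ω ^ r ∂mu =
        ∫⁻ ω, ((fun ω => (WW n ω * L ω ^ (-θ)) ^ r) * (fun ω => L ω ^ (1 - r))) ω ∂mu := by
      refine lintegral_congr_ae ?_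
      filter_upwards [hLtop] with ω hω
      simp only [Pi.mul_apply]
      rw [ENNReal.mul_rpow_of_nonneg _ _ hr0.le, ← ENNReal.rpow_mul, mul_assoc,
        ← ENNReal.rpow_add _ _ (hL0 ω) hω.ne]
      have : -θ * r + (1 - r) = 0 := by rw [hθ]; field_simp; ring
      rw [this, ENNReal.rpow_zero, mul_one]
    rw [e1]
    refine hhol.trans ?_
    simp only [one_div_one_div]
    have e2 : ∀ ω, ((WW n ω * L ω ^ (-θ)) ^ r) ^ (1 / r) = WW n ω * L ω ^ (-θ) := by
      intro ω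
      rw [← ENNReal.rpow_mul, mul_one_div_cancel hr0.ne', ENNReal.rpow_one]
    have e3 : ∀ ω, (L ω ^ (1 - r)) ^ (1 / (1 - r)) = L ω := by
      intro ω
      rw [← ENNReal.rpow_mul, mul_one_div_cancel (by linarith), ENNReal.rpow_one]
    simp only [e2, e3]
    gcongr
  have hlim : Tendsto (fun n => ENNReal.ofReal (φ n) ^ r * ENNReal.ofReal C ^ (1 - r)) atTop
      (nhds 0) := by
    have h1 : Tendsto (fun n => ENNReal.ofReal (φ n)) atTop (nhds 0) := by
      have := (ENNReal.continuous_ofReal.tendsto 0).comp hφ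
      rw [ENNReal.ofReal_zero] at this
      exact this
    have h2 : Tendsto (fun n => ENNReal.ofReal (φ n) ^ r) atTop (nhds 0) := by
      have := (ENNReal.continuous_rpow_const (y := r)).tendsto 0 |>.comp h1
      simpa [ENNReal.zero_rpow_of_pos hr0, Function.comp_def] using this
    have h3 := ENNReal.Tendsto.mul_const h2
      (b := ENNReal.ofReal C ^ (1 - r)) (Or.inr (ENNReal.rpow_ne_top_of_nonneg (by linarith)
        ENNReal.ofReal_ne_top))
    simpa using h3
  exact tendsto_of_tendsto_of_tendsto_of_le_of_le tendsto_const_nhds hlim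
    (fun n => bot_le) key

end Emb
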