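import Pool.Agent.Lib.Emb.CoreBasic

/-!
# Chunk A1: derivative of `muL`, Sobolev inequality

`∂_t y_p = i log p y_p`, so `∂_t log d_p = 2 Re (i log p (k_p - 1))` and
`∂_t log muL_l = 2 Re (i UU (pr l) t)`.
Sobolev: `f t ≤ average of f + ∫ |f'|`.
-/

open MeasureTheory Complex ProbabilityTheory
open scoped BigOperators ENNReal

namespace Emb

lemma a1_yy_ne {p : ℕ} (hp : p.Prime) (t : ℝ) (x : UnitAddCircle) : 1 - yy p t x ≠ 0 := by
  intro h
  have h1 : yy p t x = 1 := (sub_eq_zero.1 h).symm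
  have h2 := norm_yy p t x
  rw [h1, norm_one] at h2
  have h3 : Real.sqrt p = 1 := by rw [← inv_inv (Real.sqrt p), ← h2, inv_one]
  rw [Real.sqrt_eq_one] at h3
  have h4 := hp.two_le
  have h5 : p = 1 := by exact_mod_cast h3
  omega

lemma a1_deriv_yy (p : ℕ) (t : ℝ) (x : UnitAddCircle) :
    HasDerivAt (fun s : ℝ => yy p s x) (yy p t x * ((Real.log p : ℂ) * I)) t := by
  unfold yy
  have h1 : HasDerivAt (fun s : ℝ => ((s * Real.log p : ℝ) : ℂ) * I) ((Real.log p : ℂ) * I) t := by
    have h2 : HasDerivAt (fun s : ℝ => ((s * Real.log p : ℝ) : ℂ)) (Real.log p : ℂ) t := by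
      have h3 : HasDerivAt (fun s : ℝ => s * Real.log p) (Real.log p) t := by
        simpa using (hasDerivAt_id t).mul_const (Real.log p)
      exact h3.ofReal_comp
    exact h2.mul_const I
  have h4 := (h1.cexp).const_mul (fourier 1 x * (((Real.sqrt p)⁻¹ : ℝ) : ℂ))
  refine h4.congr_deriv ?_
  ring

lemma a1_deriv_k1 {p : ℕ} (hp : p.Prime) (t : ℝ) (x : UnitAddCircle) :
    HasDerivAt (fun s : ℝ => k1 p s x)
      (k1 p t x * (I * ((Real.log p : ℂ) * (k1 p t x - 1)))) t := by
  unfold k1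
  have hne := a1_yy_ne hp t x
  have h1 := ((a1_deriv_yy p t x).const_sub 1).inv hne
  refine h1.congr_deriv ?_
  field_simp
  ring

lemma a1_deriv_d1 {p : ℕ} (hp : p.Prime) (t : ℝ) (x : UnitAddCircle) :
    HasDerivAt (fun s : ℝ => d1 p s x)
      (d1 p t x * (2 * (I * ((Real.log p : ℂ) * (k1 p t x - 1))).re)) t := by
  have h1 := a1_deriv_k1 hp t x
  set a : ℂ := I * ((Real.log p : ℂ) * (k1 p t x - 1)) with ha
  have hre : HasDerivAt (fun s : ℝ => (k1 p s x).re) (k1 p t x * a).re t :=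
    Complex.reCLM.hasFDerivAt.comp_hasDerivAt t h1
  have him : HasDerivAt (fun s : ℝ => (k1 p s x).im) (k1 p t x * a).im t :=
    Complex.imCLM.hasFDerivAt.comp_hasDerivAt t h1
  have h2 : ∀ s : ℝ, d1 p s x = (1 - 1 / (p : ℝ)) * ((k1 p s x).re ^ 2 + (k1 p s x).im ^ 2) := by
    intro s
    unfold d1
    rw [Complex.sq_norm, Complex.normSq_apply]
    ring
  have h3 : HasDerivAt (fun s : ℝ => (1 - 1 / (p : ℝ)) *
      ((k1 p s x).re ^ 2 + (k1 p s x).im ^ 2))
      ((1 - 1 / (p : ℝ)) * (((2 : ℕ) : ℝ) * (k1 p t x).re ^ (2 - 1) * (k1 p t x * a).re +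
        ((2 : ℕ) : ℝ) * (k1 p t x).im ^ (2 - 1) * (k1 p t x * a).im)) t :=
    ((hre.pow 2).add (him.pow 2)).const_mul _
  have h4 : (fun s : ℝ => d1 p s x) = fun s : ℝ => (1 - 1 / (p : ℝ)) *
      ((k1 p s x).re ^ 2 + (k1 p s x).im ^ 2) := funext h2
  rw [h4]
  refine h3.congr_deriv ?_
  rw [h2 t, Complex.mul_re (k1 p t x) a, Complex.mul_im (k1 p t x) a]
  push_cast
  ring

lemma a1_deriv_dd (S : Finset ℕ) (hS : ∀ p ∈ S, p.Prime) (t : ℝ) (ω : Om) :
    HasDerivAt (fun s : ℝ => dd S s ω) (dd S t ω * (2 * (I * UU S t ω).re)) t := by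
  classical
  induction S using Finset.induction_on with
  | empty =>
    have h1 : (fun s : ℝ => dd ∅ s ω) = fun _ => 1 := by funext s; simp [dd]
    rw [h1]
    refine (hasDerivAt_const t (1 : ℝ)).congr_deriv ?_
    simp [UU]
  | insert p S hp ih =>
    have h1 := ih fun p hp => hS p (Finset.mem_insert_of_mem hp)
    have h2 := a1_deriv_d1 (hS p (Finset.mem_insert_self _ _)) t (ω p)
    have h3 : (fun s : ℝ => dd (insert p S) s ω) = fun s => d1 p s (ω p) * dd S s ω := by
      funext s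
      unfold dd
      rw [Finset.prod_insert hp]
    rw [h3]
    refine (h2.mul h1).congr_deriv ?_
    have h4 : dd (insert p S) t ω = d1 p t (ω p) * dd S t ω := congrFun h3 t
    have h5 : UU (insert p S) t ω = (Real.log p : ℂ) * (k1 p t (ω p) - 1) + UU S t ω := by
      unfold UU
      rw [Finset.sum_insert hp]
    rw [h4, h5, mul_add, Complex.add_re]
    ring

theorem hasDerivAt_muL (l : ℕ) (t : ℝ) (ω : Om) :
    HasDerivAt (fun s => muL l s ω)
      (muL l t ω * (2 * (Complex.I * UU (pr l) t ω).re)) t := by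
  have h1 := (a1_deriv_dd (pr l) (fun p hp => pr_prime hp) t ω).const_mul (((2 : ℝ) ^ l)⁻¹)
  unfold muL
  refine h1.congr_deriv ?_
  ring

/-- Sobolev inequality on an interval. -/
theorem sobolev (u v : ℝ) (huv : u < v) (f f' : ℝ → ℝ) (hf : ∀ t, HasDerivAt f (f' t) t)
    (hf' : Continuous f') (h0 : ∀ t, 0 ≤ f t) (t : ℝ) (ht : t ∈ Set.Icc u v) :
    f t ≤ (v - u)⁻¹ * (∫ s in u..v, f s) + ∫ s in u..v, |f' s| := by
  have _ := h0
  have hfc : Continuous f := continuous_iff_continuousAt.2 fun s => (hf s).continuousAt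
  set B : ℝ := ∫ s in u..v, |f' s| with hB
  have hab : Continuous fun s => |f' s| := hf'.abs
  have h1 : ∀ s ∈ Set.Icc u v, f t ≤ f s + B := by
    intro s hs
    have h2 : ∫ τ in s..t, f' τ = f t - f s :=
      intervalIntegral.integral_eq_sub_of_hasDerivAt (fun τ _ => hf τ)
        (hf'.intervalIntegrable _ _)
    have h3 : abs (∫ τ in s..t, f' τ) ≤ abs (∫ τ in s..t, abs (f' τ)) := by
      have := intervalIntegral.norm_integral_le_abs_integral_norm (f := f') (a := s) (b := t)
        (μ := volume)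
      simpa only [Real.norm_eq_abs] using this
    have h4 : abs (∫ τ in s..t, abs (f' τ)) ≤ abs (∫ τ in u..v, abs (f' τ)) := by
      apply intervalIntegral.abs_integral_mono_interval
      · intro τ hτ
        rw [Set.mem_uIoc] at hτ ⊢
        rcases hτ with hτ | hτ
        · left
          exact ⟨lt_of_le_of_lt hs.1 hτ.1, hτ.2.trans ht.2⟩
        · left
          exact ⟨lt_of_le_of_lt ht.1 hτ.1, hτ.2.trans hs.2⟩
      · exact Filter.Eventually.of_forall fun τ => abs_nonneg _
      · exact hab.intervalIntegrable _ _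
    have h5 : abs (∫ τ in u..v, abs (f' τ)) = B := by
      rw [abs_of_nonneg]
      exact intervalIntegral.integral_nonneg huv.le fun τ _ => abs_nonneg _
    rw [h2] at h3
    have h6 := le_abs_self (f t - f s)
    linarith
  have h2 : ∫ _s in u..v, f t ≤ ∫ s in u..v, (f s + B) :=
    intervalIntegral.integral_mono_on huv.le (continuous_const.intervalIntegrable _ _)
      ((hfc.add continuous_const).intervalIntegrable _ _) fun s hs => h1 s hs
  rw [intervalIntegral.integral_const, intervalIntegral.integral_add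
    (hfc.intervalIntegrable _ _) (continuous_const.intervalIntegrable _ _),
    intervalIntegral.integral_const, smul_eq_mul, smul_eq_mul] at h2
  have h3 : 0 < v - u := by linarith
  have h4 : f t ≤ (v - u)⁻¹ * ((∫ s in u..v, f s) + (v - u) * B) := by
    rw [le_inv_mul_iff₀ h3]
    exact h2
  refine h4.trans (le_of_eq ?_)
  field_simp

end Emb
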