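import Pool.Agent.Lib.Emb.Tilt2

/-!
# Chunk P: facts about one prime

Write `y = yy p t x`, `|y| = p^{-1/2} ≤ 0.7072`.
`E_t` = integral against `d1 p t x dx`.  Basic fact: `E_t y^n = p^{-n}` for `n ≥ 0`
(`|1-y|^{-2} = ∑ y^j conj(y)^k`, orthogonality), hence for an absolutely convergent power series
`F(y) = ∑ a_n y^n`: `E_t F(y) = F(1/p)`.
-/

open MeasureTheory Complex ProbabilityTheory
open scoped BigOperators ENNReal

namespace Emb

theorem prime1_int_fourier (n : ℤ) :
    ∫ x : UnitAddCircle, (fourier n x : ℂ) ∂haar1 = if n = 0 then 1 else 0 := by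
  have h := congrFun (fourierCoeff_fourier (T := 1) n) 0
  unfold fourierCoeff at h
  simp only [neg_zero, fourier_zero, one_smul] at h
  show ∫ x : AddCircle (1 : ℝ), (fourier n x : ℂ) ∂AddCircle.haarAddCircle = _
  rw [h]
  by_cases hn : n = 0
  · subst hn
    simp
  · rw [if_neg hn, Pi.single_eq_of_ne (Ne.symm hn)]

/-- the coefficient of `y` -/
noncomputable def prime1_z (p : ℕ) (t : ℝ) : ℂ :=
  (((Real.sqrt p)⁻¹ : ℝ) : ℂ) * Complex.exp (((t * Real.log p : ℝ) : ℂ) * I)

theorem prime1_yy (p : ℕ) (t : ℝ) (x : UnitAddCircle) :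
    yy p t x = prime1_z p t * fourier 1 x := by
  unfold yy prime1_z
  ring

theorem prime1_z_mul (p : ℕ) (t : ℝ) :
    prime1_z p t * (starRingEnd ℂ) (prime1_z p t) = (p : ℂ)⁻¹ := by
  rw [Complex.mul_conj, Complex.normSq_eq_norm_sq]
  unfold prime1_z
  rw [norm_mul, Complex.norm_exp_ofReal_mul_I, mul_one, Complex.norm_real, Real.norm_eq_abs, sq_abs,
    inv_pow, Real.sq_sqrt (Nat.cast_nonneg p)]
  push_cast
  rfl

theorem prime1_fourier_pow (n : ℕ) (x : UnitAddCircle) :
    (fourier 1 x : ℂ) ^ n = fourier (n : ℤ) x := by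
  induction n with
  | zero => simp
  | succ n ih =>
    rw [pow_succ, ih, ← fourier_add]
    push_cast
    rfl

theorem prime1_prod (p : ℕ) (t : ℝ) (m n : ℕ) (x : UnitAddCircle) :
    (yy p t x) ^ m * (starRingEnd ℂ) (yy p t x) ^ n =
      prime1_z p t ^ m * (starRingEnd ℂ) (prime1_z p t) ^ n * fourier ((m : ℤ) - n) x := by
  have hc : (starRingEnd ℂ) (fourier 1 x : ℂ) ^ n = fourier (-(n : ℤ)) x := by
    rw [← map_pow, prime1_fourier_pow, fourier_neg]
  rw [prime1_yy, map_mul, mul_pow, mul_pow, prime1_fourier_pow, hc, sub_eq_add_neg, fourier_add]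
  ring

/-- orthogonality -/
theorem prime1_orth (p : ℕ) (t : ℝ) (m n : ℕ) :
    ∫ x, (yy p t x) ^ m * (starRingEnd ℂ) (yy p t x) ^ n ∂haar1 =
      if m = n then ((p : ℂ)⁻¹) ^ n else 0 := by
  simp_rw [prime1_prod]
  rw [integral_const_mul, prime1_int_fourier]
  by_cases h : m = n
  · subst h
    rw [if_pos (by omega), if_pos rfl, mul_one, ← mul_pow, prime1_z_mul]
  · rw [if_neg (by omega), if_neg h, mul_zero]

theorem prime1_continuous_yy (p : ℕ) (t : ℝ) : Continuous fun x => yy p t x :=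
  (coreBasic_continuous_yy p).comp (Continuous.prodMk_right t)

theorem prime1_integrable {f : UnitAddCircle → ℂ} (hf : Continuous f) : Integrable f haar1 :=
  hf.integrable_of_hasCompactSupport (HasCompactSupport.of_compactSpace f)

theorem prime1_integrable_real {f : UnitAddCircle → ℝ} (hf : Continuous f) :
    Integrable f haar1 :=
  hf.integrable_of_hasCompactSupport (HasCompactSupport.of_compactSpace f)

/-- Integration of a power series in `y` against a continuous function. -/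
theorem prime1_series (p : ℕ) (t : ℝ) (a : ℕ → ℂ)
    (ha : Summable fun n => ‖a n‖ * (Real.sqrt p)⁻¹ ^ n) (g : UnitAddCircle → ℂ)
    (hg : Continuous g) :
    HasSum (fun n => a n * ∫ x, g x * (yy p t x) ^ n ∂haar1)
      (∫ x, g x * ∑' n, a n * (yy p t x) ^ n ∂haar1) := by
  obtain ⟨C, hC⟩ : ∃ C : ℝ, ∀ x, ‖g x‖ ≤ C := by
    obtain ⟨C, hC⟩ := isCompact_univ.exists_bound_of_continuousOn hg.continuousOn
    exact ⟨C, fun x => hC x (Set.mem_univ x)⟩
  have h1 : ∀ n, Integrable (fun x => g x * (a n * (yy p t x) ^ n)) haar1 := fun n =>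
    prime1_integrable (hg.mul (continuous_const.mul ((prime1_continuous_yy p t).pow n)))
  have h2 : Summable fun n => ∫ x, ‖g x * (a n * (yy p t x) ^ n)‖ ∂haar1 := by
    refine Summable.of_nonneg_of_le (fun n => integral_nonneg fun x => norm_nonneg _) ?_
      (ha.mul_left C)
    intro n
    have h3 : ∀ x, ‖g x * (a n * (yy p t x) ^ n)‖ ≤ C * (‖a n‖ * (Real.sqrt p)⁻¹ ^ n) := by
      intro x
      rw [norm_mul, norm_mul, norm_pow, norm_yy]
      exact mul_le_mul_of_nonneg_right (hC x) (by positivity)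
    calc ∫ x, ‖g x * (a n * (yy p t x) ^ n)‖ ∂haar1
        ≤ ∫ x, C * (‖a n‖ * (Real.sqrt p)⁻¹ ^ n) ∂haar1 :=
          integral_mono (h1 n).norm (integrable_const _) h3
      _ = C * (‖a n‖ * (Real.sqrt p)⁻¹ ^ n) := by
          rw [integral_const]
          simp
  have h4 := hasSum_integral_of_summable_integral_norm h1 h2
  have e1 : (fun n => ∫ x, g x * (a n * (yy p t x) ^ n) ∂haar1) =
      fun n => a n * ∫ x, g x * (yy p t x) ^ n ∂haar1 := by
    funext n
    rw [← integral_const_mul]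
    refine integral_congr_ae (Filter.Eventually.of_forall fun x => ?_)
    show g x * (a n * (yy p t x) ^ n) = a n * (g x * (yy p t x) ^ n)
    ring
  have e2 : (fun x => ∑' n, g x * (a n * (yy p t x) ^ n)) =
      fun x => g x * ∑' n, a n * (yy p t x) ^ n := by
    funext x
    rw [tsum_mul_left]
  rw [e1] at h4
  simp_rw [tsum_mul_left] at h4
  exact h4

theorem prime1_sqrt_lt {p : ℕ} (hp : p.Prime) : (Real.sqrt p)⁻¹ < 1 := by
  apply inv_lt_one_of_one_lt₀
  rw [Real.lt_sqrt (by norm_num)]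
  have : (2 : ℝ) ≤ p := by exact_mod_cast hp.two_le
  linarith

/-- the Poisson kernel -/
theorem prime1_d1 {p : ℕ} (hp : p.Prime) (t : ℝ) (x : UnitAddCircle) :
    (d1 p t x : ℂ) = k1 p t x + (starRingEnd ℂ) (k1 p t x) - 1 := by
  have hne := coreBasic_ne hp t x
  have hne' : 1 - (starRingEnd ℂ) (yy p t x) ≠ 0 := by
    have := (map_ne_zero (starRingEnd ℂ)).2 hne
    simpa using this
  have h1 : yy p t x * (starRingEnd ℂ) (yy p t x) = (p : ℂ)⁻¹ := by
    rw [Complex.mul_conj, Complex.normSq_eq_norm_sq, norm_yy, inv_pow,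
      Real.sq_sqrt (Nat.cast_nonneg p)]
    push_cast
    rfl
  have h2 : ((‖k1 p t x‖ ^ 2 : ℝ) : ℂ) = k1 p t x * (starRingEnd ℂ) (k1 p t x) := by
    rw [Complex.mul_conj, Complex.normSq_eq_norm_sq]
  have h3 : (starRingEnd ℂ) (k1 p t x) = (1 - (starRingEnd ℂ) (yy p t x))⁻¹ := by
    unfold k1
    rw [map_inv₀, map_sub, map_one]
  unfold d1
  push_cast
  have h4 : ((‖k1 p t x‖ : ℝ) : ℂ) ^ 2 = k1 p t x * (starRingEnd ℂ) (k1 p t x) := by
    rw [← h2]
    push_cast
    rfl
  rw [h4, h3, one_div, ← h1]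
  unfold k1
  field_simp
  ring

theorem prime1_k1_tsum {p : ℕ} (hp : p.Prime) (t : ℝ) (x : UnitAddCircle) :
    k1 p t x = ∑' n : ℕ, (1 : ℂ) * (yy p t x) ^ n := by
  simp only [one_mul]
  rw [tsum_geometric_of_norm_lt_one (coreBasic_yy_lt hp t x)]
  rfl

theorem prime1_continuous_k1 {p : ℕ} (hp : p.Prime) (t : ℝ) :
    Continuous fun x : UnitAddCircle => k1 p t x := by
  have h : Continuous fun x : UnitAddCircle => (t, x) := Continuous.prodMk_right t
  have h2 := (continuous_k1 hp).comp h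
  exact h2

theorem prime1_continuous_d1 {p : ℕ} (hp : p.Prime) (t : ℝ) : Continuous fun x => d1 p t x :=
  continuous_const.mul ((prime1_continuous_k1 hp t).norm.pow 2)

theorem prime1_int_yy_k1 {p : ℕ} (hp : p.Prime) (t : ℝ) (n : ℕ) :
    ∫ x, (yy p t x) ^ n * k1 p t x ∂haar1 = if n = 0 then 1 else 0 := by
  have h := prime1_series p t (fun _ => 1) (by
    simp only [norm_one, one_mul]
    exact summable_geometric_of_lt_one (by positivity) (prime1_sqrt_lt hp))
    (fun x => (yy p t x) ^ n) ((prime1_continuous_yy p t).pow n)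
  simp_rw [← prime1_k1_tsum hp t] at h
  rw [← h.tsum_eq]
  have e : ∀ m : ℕ, (1 : ℂ) * ∫ x, (yy p t x) ^ n * (yy p t x) ^ m ∂haar1 =
      if n + m = 0 then 1 else 0 := by
    intro m
    have := prime1_orth p t (n + m) 0
    simp only [pow_zero, mul_one] at this
    simp_rw [← pow_add]
    rw [one_mul, this]
  simp_rw [e]
  by_cases hn : n = 0
  · subst hn
    rw [tsum_eq_single 0 (fun m hm => if_neg (by omega))]
  · rw [if_neg hn]
    have e0 : (fun m : ℕ => if n + m = 0 then (1 : ℂ) else 0) = fun _ => 0 := by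
      funext m
      rw [if_neg (by omega)]
    rw [e0, tsum_zero]

theorem prime1_int_yy_conj_k1 {p : ℕ} (hp : p.Prime) (t : ℝ) (n : ℕ) :
    ∫ x, (yy p t x) ^ n * (starRingEnd ℂ) (k1 p t x) ∂haar1 = ((p : ℂ)⁻¹) ^ n := by
  have h := prime1_series p t (fun _ => 1) (by
    simp only [norm_one, one_mul]
    exact summable_geometric_of_lt_one (by positivity) (prime1_sqrt_lt hp))
    (fun x => (starRingEnd ℂ) (yy p t x) ^ n)
    ((Complex.continuous_conj.comp (prime1_continuous_yy p t)).pow n)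
  simp_rw [← prime1_k1_tsum hp t] at h
  have e : ∀ m : ℕ, (1 : ℂ) * ∫ x, (starRingEnd ℂ) (yy p t x) ^ n * (yy p t x) ^ m ∂haar1 =
      if m = n then ((p : ℂ)⁻¹) ^ n else 0 := by
    intro m
    rw [one_mul, ← prime1_orth p t m n]
    refine integral_congr_ae (Filter.Eventually.of_forall fun x => ?_)
    show (starRingEnd ℂ) (yy p t x) ^ n * (yy p t x) ^ m
      = (yy p t x) ^ m * (starRingEnd ℂ) (yy p t x) ^ n
    ring
  simp_rw [e] at h
  have h2 := h.tsum_eq
  rw [tsum_ite_eq] at h2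
  have h3 : ∫ x, (yy p t x) ^ n * (starRingEnd ℂ) (k1 p t x) ∂haar1 =
      (starRingEnd ℂ) (∫ x, (starRingEnd ℂ) (yy p t x) ^ n * k1 p t x ∂haar1) := by
    rw [← integral_conj]
    refine integral_congr_ae (Filter.Eventually.of_forall fun x => ?_)
    show _ = (starRingEnd ℂ) ((starRingEnd ℂ) (yy p t x) ^ n * k1 p t x)
    rw [map_mul, map_pow, Complex.conj_conj]
  rw [h3, ← h2]
  simp

theorem int_yy_pow {p : ℕ} (hp : p.Prime) (t : ℝ) (n : ℕ) :
    ∫ x, (d1 p t x : ℂ) * (yy p t x) ^ n ∂haar1 = ((p : ℂ)⁻¹) ^ n := by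
  have h1 : ∀ x, (d1 p t x : ℂ) * (yy p t x) ^ n =
      (yy p t x) ^ n * k1 p t x + (yy p t x) ^ n * (starRingEnd ℂ) (k1 p t x)
        - (yy p t x) ^ n * (starRingEnd ℂ) (yy p t x) ^ 0 := by
    intro x
    rw [prime1_d1 hp t x]
    ring
  simp_rw [h1]
  have i1 : Integrable (fun x => (yy p t x) ^ n * k1 p t x) haar1 :=
    prime1_integrable (((prime1_continuous_yy p t).pow n).mul (prime1_continuous_k1 hp t))
  have i2 : Integrable (fun x => (yy p t x) ^ n * (starRingEnd ℂ) (k1 p t x)) haar1 :=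
    prime1_integrable (((prime1_continuous_yy p t).pow n).mul
      (Complex.continuous_conj.comp (prime1_continuous_k1 hp t)))
  have i3 : Integrable (fun x => (yy p t x) ^ n * (starRingEnd ℂ) (yy p t x) ^ 0) haar1 :=
    prime1_integrable (((prime1_continuous_yy p t).pow n).mul
      ((Complex.continuous_conj.comp (prime1_continuous_yy p t)).pow 0))
  rw [integral_sub ?_ i3, integral_add i1 i2, prime1_int_yy_k1 hp,
    prime1_int_yy_conj_k1 hp, prime1_orth]
  rotate_left
  · exact i1.add i2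
  by_cases hn : n = 0
  · subst hn
    simp
  · simp [hn]

/-- `E_t F(y) = F(1/p)`. -/
theorem prime1_mean {p : ℕ} (hp : p.Prime) (t : ℝ) (a : ℕ → ℂ)
    (ha : Summable fun n => ‖a n‖ * (Real.sqrt p)⁻¹ ^ n) :
    HasSum (fun n => a n * ((p : ℂ)⁻¹) ^ n)
      (∫ x, (d1 p t x : ℂ) * ∑' n, a n * (yy p t x) ^ n ∂haar1) := by
  have h := prime1_series p t a ha (fun x => (d1 p t x : ℂ))
    (Complex.continuous_ofReal.comp (prime1_continuous_d1 hp t))
  simp_rw [int_yy_pow hp] at h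
  exact h

/-- `E_t (k_p - 1) = 1/(p-1)`. -/
theorem int_k1 {p : ℕ} (hp : p.Prime) (t : ℝ) :
    ∫ x, (d1 p t x : ℂ) * (k1 p t x - 1) ∂haar1 = 1 / ((p : ℂ) - 1) := by
  have hp2 : (2 : ℝ) ≤ p := by exact_mod_cast hp.two_le
  have h := prime1_mean hp t (fun _ => 1) (by
    simp only [norm_one, one_mul]
    exact summable_geometric_of_lt_one (by positivity) (prime1_sqrt_lt hp))
  simp_rw [← prime1_k1_tsum hp t] at h
  have h1 := h.tsum_eq
  simp only [one_mul] at h1
  have hlt : ‖(p : ℂ)⁻¹‖ < 1 := by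
    rw [norm_inv, Complex.norm_natCast]
    exact inv_lt_one_of_one_lt₀ (by linarith)
  rw [tsum_geometric_of_norm_lt_one hlt] at h1
  have h0 := int_yy_pow hp t 0
  simp only [pow_zero, mul_one] at h0
  have i1 : Integrable (fun x => (d1 p t x : ℂ) * k1 p t x) haar1 :=
    prime1_integrable ((Complex.continuous_ofReal.comp (prime1_continuous_d1 hp t)).mul
      (prime1_continuous_k1 hp t))
  have i2 : Integrable (fun x => (d1 p t x : ℂ)) haar1 :=
    prime1_integrable (Complex.continuous_ofReal.comp (prime1_continuous_d1 hp t))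
  simp_rw [mul_sub, mul_one]
  rw [integral_sub i1 i2, ← h1, h0]
  have hp0 : (p : ℂ) ≠ 0 := by exact_mod_cast hp.ne_zero
  have hp1 : (p : ℂ) - 1 ≠ 0 := by
    rw [sub_ne_zero]
    exact_mod_cast hp.one_lt.ne'
  field_simp
  ring

/-- `‖k_p - 1‖ ≤ 4 / √p`. -/
theorem norm_k1_sub {p : ℕ} (hp : p.Prime) (t : ℝ) (x : UnitAddCircle) :
    ‖k1 p t x - 1‖ ≤ 4 / Real.sqrt p := by
  have hne := coreBasic_ne hp t x
  have hp2 : (2 : ℝ) ≤ p := by exact_mod_cast hp.two_le
  have hs0 : 0 < Real.sqrt p := Real.sqrt_pos.2 (by linarith)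
  have hs : (Real.sqrt p)⁻¹ ≤ 3 / 4 := by
    rw [inv_le_comm₀ hs0 (by norm_num)]
    apply Real.le_sqrt_of_sq_le
    norm_num
    linarith
  have h1 : k1 p t x - 1 = yy p t x * k1 p t x := by
    unfold k1
    field_simp
    ring
  have h2 : (1 : ℝ) / 4 ≤ ‖1 - yy p t x‖ := by
    have h3 := norm_sub_norm_le (1 : ℂ) (yy p t x)
    rw [norm_one, norm_yy] at h3
    linarith
  rw [h1, norm_mul, norm_yy]
  unfold k1
  rw [norm_inv]
  have h4 : ‖1 - yy p t x‖⁻¹ ≤ 4 := by
    rw [inv_le_comm₀ (by linarith) (by norm_num)]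
    linarith
  calc (Real.sqrt p)⁻¹ * ‖1 - yy p t x‖⁻¹ ≤ (Real.sqrt p)⁻¹ * 4 :=
        mul_le_mul_of_nonneg_left h4 (by positivity)
    _ = 4 / Real.sqrt p := by ring

end Emb
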