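import Pool.Agent.Lib.Emb.Prime1

/-!
# Chunk P2: the centred logarithm of the Poisson density of one prime
-/

open MeasureTheory Complex ProbabilityTheory
open scoped BigOperators ENNReal

namespace Emb

/-- `- log (1 - y)`. -/
noncomputable def prime2_L (p : ℕ) (t : ℝ) (x : UnitAddCircle) : ℂ := -Complex.log (1 - yy p t x)

theorem prime2_L_tsum {p : ℕ} (hp : p.Prime) (t : ℝ) (x : UnitAddCircle) :
    prime2_L p t x = ∑' n : ℕ, ((n : ℂ))⁻¹ * (yy p t x) ^ n := by
  have h := Complex.hasSum_taylorSeries_neg_log (coreBasic_yy_lt hp t x)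
  unfold prime2_L
  rw [← h.tsum_eq]
  refine tsum_congr fun n => ?_
  rw [div_eq_mul_inv, mul_comm]

theorem prime2_summable {p : ℕ} (hp : p.Prime) :
    Summable fun n : ℕ => ‖((n : ℂ))⁻¹‖ * (Real.sqrt p)⁻¹ ^ n := by
  refine Summable.of_nonneg_of_le (fun n => by positivity) (fun n => ?_)
    (summable_geometric_of_lt_one (by positivity) (prime1_sqrt_lt hp))
  have h : ‖((n : ℂ))⁻¹‖ ≤ 1 := by
    rw [norm_inv, Complex.norm_natCast]
    rcases Nat.eq_zero_or_pos n with h0 | h0
    · subst h0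
      simp
    · exact inv_le_one_of_one_le₀ (by exact_mod_cast h0)
  exact mul_le_of_le_one_left (by positivity) h

theorem prime2_re_pos {p : ℕ} (hp : p.Prime) (t : ℝ) (x : UnitAddCircle) :
    0 < (1 - yy p t x).re := by
  have h1 := Complex.re_le_norm (yy p t x)
  have h2 := coreBasic_yy_lt hp t x
  rw [Complex.sub_re, Complex.one_re]
  linarith

theorem prime2_continuous_L {p : ℕ} (hp : p.Prime) (t : ℝ) :
    Continuous fun x : UnitAddCircle => prime2_L p t x := by
  unfold prime2_L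
  refine (Continuous.clog (continuous_const.sub (prime1_continuous_yy p t)) fun x => ?_).neg
  exact Or.inl (prime2_re_pos hp t x)

theorem prime2_xx {p : ℕ} (hp : p.Prime) (t : ℝ) (x : UnitAddCircle) :
    xx p t x = 2 * Real.log (1 - 1 / (p : ℝ)) + 2 * (prime2_L p t x).re := by
  have h1 := coreBasic_one_sub hp
  have hne := coreBasic_ne hp t x
  have h2 : ‖k1 p t x‖ ≠ 0 := norm_ne_zero_iff.2 (inv_ne_zero hne)
  unfold xx d1
  rw [Real.log_mul h1.ne' (pow_ne_zero 2 h2), Real.log_pow]
  have h3 : Real.log ‖k1 p t x‖ = (prime2_L p t x).re := by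
    unfold prime2_L k1
    rw [Complex.neg_re, Complex.log_re, norm_inv, Real.log_inv]
  rw [h3]
  push_cast
  ring

theorem continuous_xx {p : ℕ} (hp : p.Prime) (t : ℝ) : Continuous (xx p t) := by
  have h : xx p t = fun x => 2 * Real.log (1 - 1 / (p : ℝ)) + 2 * (prime2_L p t x).re := by
    funext x
    exact prime2_xx hp t x
  rw [h]
  exact continuous_const.add
    (continuous_const.mul (Complex.continuous_re.comp (prime2_continuous_L hp t)))

theorem prime2_xx_complex {p : ℕ} (hp : p.Prime) (t : ℝ) (x : UnitAddCircle) :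
    (xx p t x : ℂ) = 2 * (Real.log (1 - 1 / (p : ℝ)) : ℂ) + prime2_L p t x
      + (starRingEnd ℂ) (prime2_L p t x) := by
  rw [prime2_xx hp t x, add_assoc, Complex.add_conj]
  push_cast
  ring

theorem prime2_int_d1_L {p : ℕ} (hp : p.Prime) (t : ℝ) :
    ∫ x, (d1 p t x : ℂ) * prime2_L p t x ∂haar1 = -(Real.log (1 - 1 / (p : ℝ)) : ℂ) := by
  have h := prime1_mean hp t (fun n : ℕ => ((n : ℂ))⁻¹) (prime2_summable hp)
  simp_rw [← prime2_L_tsum hp t] at h
  have hp2 : (2 : ℝ) ≤ p := by exact_mod_cast hp.two_le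
  have hlt : ‖(p : ℂ)⁻¹‖ < 1 := by
    rw [norm_inv, Complex.norm_natCast]
    exact inv_lt_one_of_one_lt₀ (by linarith)
  have h2 := Complex.hasSum_taylorSeries_neg_log hlt
  have h3 : (fun n : ℕ => ((n : ℂ))⁻¹ * ((p : ℂ)⁻¹) ^ n) = fun n : ℕ => ((p : ℂ)⁻¹) ^ n / n := by
    funext n
    rw [div_eq_mul_inv, mul_comm]
  rw [h3] at h
  rw [h.unique h2]
  have h4 : (1 : ℂ) - (p : ℂ)⁻¹ = ((1 - 1 / (p : ℝ) : ℝ) : ℂ) := by
    push_cast
    rw [one_div]
  rw [h4, ← Complex.ofReal_log (coreBasic_one_sub hp).le]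

/-- `E_t xx = 0`, because `E_t log (1 - y) = log (1 - 1/p)`. -/
theorem int_xx {p : ℕ} (hp : p.Prime) (t : ℝ) : ∫ x, d1 p t x * xx p t x ∂haar1 = 0 := by
  have hd : Continuous fun x : UnitAddCircle => (d1 p t x : ℂ) :=
    Complex.continuous_ofReal.comp (prime1_continuous_d1 hp t)
  have i1 : Integrable (fun x => (d1 p t x : ℂ) * (2 * (Real.log (1 - 1 / (p : ℝ)) : ℂ))) haar1 :=
    prime1_integrable (hd.mul continuous_const)
  have i2 : Integrable (fun x => (d1 p t x : ℂ) * prime2_L p t x) haar1 :=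
    prime1_integrable (hd.mul (prime2_continuous_L hp t))
  have i3 : Integrable (fun x => (starRingEnd ℂ) ((d1 p t x : ℂ) * prime2_L p t x)) haar1 :=
    prime1_integrable (Complex.continuous_conj.comp (hd.mul (prime2_continuous_L hp t)))
  have h0 : ∫ x, (d1 p t x : ℂ) ∂haar1 = 1 := by
    have := int_yy_pow hp t 0
    simpa using this
  have h1 : ((∫ x, d1 p t x * xx p t x ∂haar1 : ℝ) : ℂ) = 0 := by
    rw [← integral_complex_ofReal]
    have e : ∀ x, ((d1 p t x * xx p t x : ℝ) : ℂ) =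
        (d1 p t x : ℂ) * (2 * (Real.log (1 - 1 / (p : ℝ)) : ℂ)) +
          (d1 p t x : ℂ) * prime2_L p t x +
          (starRingEnd ℂ) ((d1 p t x : ℂ) * prime2_L p t x) := by
      intro x
      rw [map_mul, Complex.conj_ofReal]
      push_cast
      rw [prime2_xx_complex hp t x]
      push_cast
      ring
    simp_rw [e]
    rw [integral_add ?_ i3, integral_add i1 i2, integral_mul_const, h0, prime2_int_d1_L hp t,
      integral_conj, prime2_int_d1_L hp t, map_neg, Complex.conj_ofReal]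
    · ring
    · exact i1.add i2
  exact_mod_cast h1

/-- `|xx| ≤ 12 / √p`: `xx = 2 log(1-1/p) - 2 log|1-y|` and `|log(1-u)| ≤ u/(1-u)`. -/
theorem abs_xx {p : ℕ} (hp : p.Prime) (t : ℝ) (x : UnitAddCircle) :
    |xx p t x| ≤ 12 / Real.sqrt p := by
  have hp2 : (2 : ℝ) ≤ p := by exact_mod_cast hp.two_le
  have hp0 : (0 : ℝ) < p := by linarith
  have hs0 : 0 < Real.sqrt p := Real.sqrt_pos.2 hp0
  set r : ℝ := (Real.sqrt p)⁻¹ with hr
  have hr0 : 0 < r := inv_pos.2 hs0
  have hr2 : r ^ 2 = 1 / p := by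
    rw [hr, inv_pow, Real.sq_sqrt hp0.le, one_div]
  have hr2' : r ^ 2 ≤ 1 / 2 := by
    rw [hr2]
    exact one_div_le_one_div_of_le (by norm_num) hp2
  have hr1 : r ≤ 0.7072 := by
    by_contra hcon
    push Not at hcon
    nlinarith
  have h1 := coreBasic_one_sub hp
  have hne := coreBasic_ne hp t x
  have hny : ‖yy p t x‖ = r := norm_yy p t x
  -- the two logarithms
  have hlog1 : |Real.log (1 - 1 / (p : ℝ))| ≤ r ^ 2 / (1 - r ^ 2) := by
    rw [← hr2] at h1 ⊢
    rw [abs_le]
    constructor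
    · have := Real.one_sub_inv_le_log_of_pos h1
      have e : 1 - (1 - r ^ 2)⁻¹ = -(r ^ 2 / (1 - r ^ 2)) := by
        field_simp
        ring
      rw [← e]
      exact this
    · have := Real.log_nonpos h1.le (by nlinarith)
      have : 0 ≤ r ^ 2 / (1 - r ^ 2) := by positivity
      linarith
  have hb1 : 1 - r ≤ ‖1 - yy p t x‖ := by
    have h3 := norm_sub_norm_le (1 : ℂ) (yy p t x)
    rw [norm_one, hny] at h3
    exact h3
  have hb2 : ‖1 - yy p t x‖ ≤ 1 + r := by
    have h3 := norm_sub_le (1 : ℂ) (yy p t x)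
    rw [norm_one, hny] at h3
    exact h3
  have h1r : 0 < 1 - r := by linarith
  have hlog2 : |Real.log ‖1 - yy p t x‖| ≤ r / (1 - r) := by
    rw [abs_le]
    constructor
    · have h3 := Real.log_le_log h1r hb1
      have h4 := Real.one_sub_inv_le_log_of_pos h1r
      have e : 1 - (1 - r)⁻¹ = -(r / (1 - r)) := by
        field_simp
        ring
      rw [e] at h4
      linarith
    · have h3 := Real.log_le_log (by linarith) hb2
      have h4 := Real.log_le_sub_one_of_pos (show 0 < 1 + r by linarith)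
      have h5 : r ≤ r / (1 - r) := by
        rw [le_div_iff₀ h1r]
        nlinarith
      linarith
  have hxx : xx p t x = 2 * Real.log (1 - 1 / (p : ℝ)) - 2 * Real.log ‖1 - yy p t x‖ := by
    rw [prime2_xx hp t x]
    unfold prime2_L
    rw [Complex.neg_re, Complex.log_re]
    ring
  have h6 : |xx p t x| ≤ 2 * (r ^ 2 / (1 - r ^ 2)) + 2 * (r / (1 - r)) := by
    rw [hxx]
    calc |2 * Real.log (1 - 1 / (p : ℝ)) - 2 * Real.log ‖1 - yy p t x‖|
        ≤ |2 * Real.log (1 - 1 / (p : ℝ))| + |2 * Real.log ‖1 - yy p t x‖| := abs_sub _ _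
      _ = 2 * |Real.log (1 - 1 / (p : ℝ))| + 2 * |Real.log ‖1 - yy p t x‖| := by
          rw [abs_mul, abs_mul, abs_of_pos (by norm_num : (0 : ℝ) < 2)]
      _ ≤ _ := by linarith
  refine h6.trans ?_
  have h7 : 12 / Real.sqrt p = 12 * r := by
    rw [hr]
    ring
  rw [h7]
  have h8 : 0 < 1 - r ^ 2 := by linarith
  have h9 : 2 * (r ^ 2 / (1 - r ^ 2)) + 2 * (r / (1 - r))
      = (4 * r ^ 2 + 2 * r) / (1 - r ^ 2) := by
    have : (1 - r ^ 2) = (1 - r) * (1 + r) := by ring
    rw [this]
    have h10 : 1 + r ≠ 0 := by linarith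
    field_simp
    ring
  rw [h9, div_le_iff₀ h8]
  nlinarith [mul_nonneg hr0.le (show (0 : ℝ) ≤ 10 - 12 * r ^ 2 - 4 * r by nlinarith)]

theorem prime2_int_L_yy {p : ℕ} (hp : p.Prime) (t : ℝ) :
    ∫ x, yy p t x * prime2_L p t x ∂haar1 = 0 := by
  have h := prime1_series p t (fun n : ℕ => ((n : ℂ))⁻¹) (prime2_summable hp)
    (fun x => yy p t x) (prime1_continuous_yy p t)
  simp_rw [← prime2_L_tsum hp t] at h
  rw [← h.tsum_eq]
  have e : (fun n : ℕ => ((n : ℂ))⁻¹ * ∫ x, yy p t x * (yy p t x) ^ n ∂haar1) = fun _ => 0 := by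
    funext n
    have := prime1_orth p t (n + 1) 0
    simp only [pow_zero, mul_one] at this
    simp_rw [← pow_succ']
    rw [this, if_neg (by omega), mul_zero]
  rw [e, tsum_zero]

theorem prime2_int_L_conj {p : ℕ} (hp : p.Prime) (t : ℝ) :
    ∫ x, (starRingEnd ℂ) (yy p t x) * prime2_L p t x ∂haar1 = (p : ℂ)⁻¹ := by
  have h := prime1_series p t (fun n : ℕ => ((n : ℂ))⁻¹) (prime2_summable hp)
    (fun x => (starRingEnd ℂ) (yy p t x))
    (Complex.continuous_conj.comp (prime1_continuous_yy p t))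
  simp_rw [← prime2_L_tsum hp t] at h
  rw [← h.tsum_eq]
  have e : (fun n : ℕ => ((n : ℂ))⁻¹ * ∫ x, (starRingEnd ℂ) (yy p t x) * (yy p t x) ^ n ∂haar1) =
      fun n : ℕ => if n = 1 then (p : ℂ)⁻¹ else 0 := by
    funext n
    have := prime1_orth p t n 1
    simp only [pow_one] at this
    have e2 : ∫ x, (starRingEnd ℂ) (yy p t x) * (yy p t x) ^ n ∂haar1 =
        ∫ x, (yy p t x) ^ n * (starRingEnd ℂ) (yy p t x) ∂haar1 := by
      refine integral_congr_ae (Filter.Eventually.of_forall fun x => ?_)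
      exact mul_comm _ _
    rw [e2, this]
    by_cases hn : n = 1
    · subst hn
      simp
    · simp [hn]
  rw [e, tsum_ite_eq]

/-- Variance lower bound `E_t xx² ≥ (1/10)/p`: pointwise `d1 ≥ (1-p^{-1/2})/(1+p^{-1/2}) ≥ 0.17`,
and under Haar measure, by Bessel for the characters `±1`,
`∫ xx² ≥ 2 |c_1|² = 2/p`, as `xx = const + ∑_{n≥1} (y^n + conj y^n)/n`. -/
theorem var_xx {p : ℕ} (hp : p.Prime) (t : ℝ) :
    (1 / 10 : ℝ) / p ≤ ∫ x, d1 p t x * (xx p t x) ^ 2 ∂haar1 := by
  have hp2 : (2 : ℝ) ≤ p := by exact_mod_cast hp.two_le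
  have hp0 : (0 : ℝ) < p := by linarith
  have cy := prime1_continuous_yy p t
  have cyc : Continuous fun x : UnitAddCircle => (starRingEnd ℂ) (yy p t x) :=
    Complex.continuous_conj.comp cy
  have cL := prime2_continuous_L hp t
  have cx := continuous_xx hp t
  have cd := prime1_continuous_d1 hp t
  set h : UnitAddCircle → ℝ := fun x => 2 * (yy p t x).re with hh
  have ch : Continuous h := continuous_const.mul (Complex.continuous_re.comp cy)
  have hcx : ∀ x, (h x : ℂ) = yy p t x + (starRingEnd ℂ) (yy p t x) := by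
    intro x
    rw [Complex.add_conj]
  -- moments of order one
  have o1 : ∫ x, yy p t x ∂haar1 = 0 := by
    have := prime1_orth p t 1 0
    simpa using this
  have o1c : ∫ x, (starRingEnd ℂ) (yy p t x) ∂haar1 = 0 := by
    rw [integral_conj, o1, map_zero]
  have hxh : ∫ x, xx p t x * h x ∂haar1 = 2 / p := by
    have h1 : ((∫ x, xx p t x * h x ∂haar1 : ℝ) : ℂ) = 2 / p := by
      rw [← integral_complex_ofReal]
      have e : ∀ x, ((xx p t x * h x : ℝ) : ℂ) =
          2 * (Real.log (1 - 1 / (p : ℝ)) : ℂ) * yy p t x +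
          2 * (Real.log (1 - 1 / (p : ℝ)) : ℂ) * (starRingEnd ℂ) (yy p t x) +
          yy p t x * prime2_L p t x + (starRingEnd ℂ) (yy p t x) * prime2_L p t x +
          (starRingEnd ℂ) ((starRingEnd ℂ) (yy p t x) * prime2_L p t x) +
          (starRingEnd ℂ) (yy p t x * prime2_L p t x) := by
        intro x
        rw [map_mul, map_mul, Complex.conj_conj, Complex.ofReal_mul, hcx,
          prime2_xx_complex hp t x]
        ring
      simp_rw [e]
      have i1 : Integrable (fun x => 2 * (Real.log (1 - 1 / (p : ℝ)) : ℂ) * yy p t x) haar1 :=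
        prime1_integrable (continuous_const.mul cy)
      have i2 : Integrable (fun x => 2 * (Real.log (1 - 1 / (p : ℝ)) : ℂ) *
          (starRingEnd ℂ) (yy p t x)) haar1 := prime1_integrable (continuous_const.mul cyc)
      have i3 : Integrable (fun x => yy p t x * prime2_L p t x) haar1 :=
        prime1_integrable (cy.mul cL)
      have i4 : Integrable (fun x => (starRingEnd ℂ) (yy p t x) * prime2_L p t x) haar1 :=
        prime1_integrable (cyc.mul cL)
      have i5 : Integrable (fun x => (starRingEnd ℂ)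
          ((starRingEnd ℂ) (yy p t x) * prime2_L p t x)) haar1 :=
        prime1_integrable (Complex.continuous_conj.comp (cyc.mul cL))
      have i6 : Integrable (fun x => (starRingEnd ℂ) (yy p t x * prime2_L p t x)) haar1 :=
        prime1_integrable (Complex.continuous_conj.comp (cy.mul cL))
      rw [integral_add ?_ i6, integral_add ?_ i5, integral_add ?_ i4, integral_add ?_ i3,
        integral_add i1 i2, integral_const_mul, integral_const_mul, o1, o1c,
        prime2_int_L_yy hp t, prime2_int_L_conj hp t, integral_conj, prime2_int_L_conj hp t,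
        integral_conj, prime2_int_L_yy hp t]
      · simp
        ring
      · exact i1.add i2
      · exact (i1.add i2).add i3
      · exact ((i1.add i2).add i3).add i4
      · exact (((i1.add i2).add i3).add i4).add i5
    have h2 : ((2 / (p : ℝ) : ℝ) : ℂ) = 2 / (p : ℂ) := by push_cast; rfl
    rw [← h2] at h1
    exact Complex.ofReal_injective h1
  have hh2 : ∫ x, h x ^ 2 ∂haar1 = 2 / p := by
    have h1 : ((∫ x, h x ^ 2 ∂haar1 : ℝ) : ℂ) = 2 / p := by
      rw [← integral_complex_ofReal]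
      have e : ∀ x, ((h x ^ 2 : ℝ) : ℂ) =
          (yy p t x) ^ 2 * (starRingEnd ℂ) (yy p t x) ^ 0 +
          2 * ((yy p t x) ^ 1 * (starRingEnd ℂ) (yy p t x) ^ 1) +
          (yy p t x) ^ 0 * (starRingEnd ℂ) (yy p t x) ^ 2 := by
        intro x
        rw [Complex.ofReal_pow, hcx]
        ring
      simp_rw [e]
      have i1 : Integrable (fun x => (yy p t x) ^ 2 * (starRingEnd ℂ) (yy p t x) ^ 0) haar1 :=
        prime1_integrable ((cy.pow 2).mul (cyc.pow 0))
      have i2 : Integrable (fun x => 2 * ((yy p t x) ^ 1 * (starRingEnd ℂ) (yy p t x) ^ 1))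
          haar1 := prime1_integrable (continuous_const.mul ((cy.pow 1).mul (cyc.pow 1)))
      have i3 : Integrable (fun x => (yy p t x) ^ 0 * (starRingEnd ℂ) (yy p t x) ^ 2) haar1 :=
        prime1_integrable ((cy.pow 0).mul (cyc.pow 2))
      rw [integral_add ?_ i3, integral_add i1 i2, integral_const_mul, prime1_orth, prime1_orth,
        prime1_orth]
      · simp
        ring
      · exact i1.add i2
    have h2 : ((2 / (p : ℝ) : ℝ) : ℂ) = 2 / (p : ℂ) := by push_cast; rfl
    rw [← h2] at h1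
    exact Complex.ofReal_injective h1
  have hd : ∀ x, (1 : ℝ) / 8 ≤ d1 p t x := by
    intro x
    have hne := coreBasic_ne hp t x
    have h3 : ‖1 - yy p t x‖ ≤ 2 := by
      have h4 := norm_sub_le (1 : ℂ) (yy p t x)
      have h5 := coreBasic_yy_lt hp t x
      rw [norm_one] at h4
      linarith
    have h4 : 0 < ‖1 - yy p t x‖ := norm_pos_iff.2 hne
    have h5 : (1 : ℝ) / 2 ≤ ‖k1 p t x‖ := by
      unfold k1
      rw [norm_inv, one_div]
      exact inv_anti₀ h4 h3
    have h6 : (1 : ℝ) / 2 ≤ 1 - 1 / (p : ℝ) := by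
      have : 1 / (p : ℝ) ≤ 1 / 2 := one_div_le_one_div_of_le (by norm_num) hp2
      linarith
    unfold d1
    have h7 : (1 : ℝ) / 4 ≤ ‖k1 p t x‖ ^ 2 := by nlinarith
    nlinarith
  have hfin : ∀ x, 1 / 8 * (2 * (xx p t x * h x) - h x ^ 2) ≤ d1 p t x * (xx p t x) ^ 2 := by
    intro x
    have h1 := hd x
    have h2 : 2 * (xx p t x * h x) - h x ^ 2 ≤ (xx p t x) ^ 2 := by
      nlinarith [sq_nonneg (xx p t x - h x)]
    have h3 : 0 ≤ (xx p t x) ^ 2 := sq_nonneg _
    nlinarith
  have j1 : Integrable (fun x => xx p t x * h x) haar1 := prime1_integrable_real (cx.mul ch)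
  have j2 : Integrable (fun x => h x ^ 2) haar1 := prime1_integrable_real (ch.pow 2)
  have j3 : Integrable (fun x => d1 p t x * (xx p t x) ^ 2) haar1 :=
    prime1_integrable_real (cd.mul (cx.pow 2))
  have j4 : Integrable (fun x => 1 / 8 * (2 * (xx p t x * h x) - h x ^ 2)) haar1 :=
    ((j1.const_mul 2).sub j2).const_mul (1 / 8)
  have h10 := integral_mono j4 j3 hfin
  rw [integral_const_mul, integral_sub (j1.const_mul 2) j2, integral_const_mul, hxh, hh2] at h10
  refine le_trans ?_ h10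
  have h11 : (1 : ℝ) / 8 * (2 * (2 / p) - 2 / p) = (1 / 4) / p := by
    field_simp
    ring
  rw [h11]
  exact div_le_div_of_nonneg_right (by norm_num) hp0.le

end Emb
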