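import Pool.Agent.Lib.Emb.RWDefs

/-!
# Chunk RW1: persistence

Proof (write `R_j = psum Y j`, `A_i` the event that `R_{i'} ≥ -x` for all `i' ≤ i`, `τ` the first
`i` with `R_i < -x`).  Let `T = ∑_{i<n} Y_i 1_{A_i}` (this is `R_{τ ∧ n}`).  As `1_{A_i}` depends on
`Y_0..Y_{i-1}` only:
* `E T = 0`, `E T² = ∑_{i<n} Var(Y_i) P(A_i) ≥ P(A_n) (c n - K)` (orthogonality; `P(A_i) ≥ P(A_n)`);
* on `A_n` one has `T = R_n ≥ -x`; off `A_n` one has `-x - |Y_{τ-1}| ≤ T < -x`.  So with
  `B ≥ max |Y_i|`: `T ≥ -x - B`, hence `|T| ≤ T + 2 (x + B)`, `E|T| ≤ 2 (x + E B)` and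
  `|T| ≤ |R_n| + x + B` everywhere. We use `B = b + b^(1-k) ∑ |Y_i|^k`, `b = N^(δ/2)`, `N = n + 1`
  for the first and `B = (∑ |Y_i|^k)^(1/k)` for the second bound.
* Moments: `E|Y_i|^k ≤ C_k` and `E|R_n|^k ≤ C_k N^(k/2)`, from `E exp(θ R_n) ≤ exp(K θ² n)` with
  `θ = ± N^(-1/2)` and `u^k ≤ k! θ^(-k) e^(θ u)`.
* `T² ≤ λ |T| + λ^(2-k) |T|^k` with `λ = x N^(1/2+δ/2)`, `k ≥ 2/δ`.
Therefore `P(A_n) (c n - K) ≤ D x² N^(1/2+δ)`, and `c N P(A_n) ≤ (D + c + K) x² N^(1/2+δ)`.
-/

open MeasureTheory ProbabilityTheory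

namespace Emb

/-! ### the deterministic part -/

/-- partial sums of a sequence -/
noncomputable def rwps (y : ℕ → ℝ) (j : ℕ) : ℝ := ∑ i ∈ Finset.range j, y i

/-- the partial sums stay above `-x` up to time `m` -/
def rwGd (x : ℝ) (m : ℕ) : Set (ℕ → ℝ) := {y | ∀ j : ℕ, j ≤ m → -x ≤ rwps y j}

/-- the stopped sum -/
noncomputable def rwT (x : ℝ) (m : ℕ) (y : ℕ → ℝ) : ℝ :=
  ∑ i ∈ Finset.range m, (rwGd x i).indicator (fun y => y i) y

lemma rwps_congr {y y' : ℕ → ℝ} {m : ℕ} (h : ∀ i < m, y i = y' i) {j : ℕ} (hj : j ≤ m) :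
    rwps y j = rwps y' j :=
  Finset.sum_congr rfl fun i hi => h i ((Finset.mem_range.1 hi).trans_le hj)

lemma rwGd_congr {x : ℝ} {y y' : ℕ → ℝ} {m : ℕ} (h : ∀ i < m, y i = y' i) {j : ℕ} (hj : j ≤ m) :
    y ∈ rwGd x j ↔ y' ∈ rwGd x j := by
  unfold rwGd
  simp only [Set.mem_ofPred_eq]
  refine forall_congr' fun i => forall_congr' fun hi => ?_
  rw [rwps_congr h (hi.trans hj)]

lemma rwT_congr {x : ℝ} {y y' : ℕ → ℝ} {m : ℕ} (h : ∀ i < m, y i = y' i) :
    rwT x m y = rwT x m y' := by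
  refine Finset.sum_congr rfl fun i hi => ?_
  have hi' := Finset.mem_range.1 hi
  by_cases hy : y ∈ rwGd x i
  · rw [Set.indicator_of_mem hy, Set.indicator_of_mem ((rwGd_congr h hi'.le).1 hy), h i hi']
  · rw [Set.indicator_of_notMem hy,
      Set.indicator_of_notMem (fun h' => hy ((rwGd_congr h hi'.le).2 h'))]

lemma rwps_meas (j : ℕ) : Measurable (fun y : ℕ → ℝ => rwps y j) := by
  unfold rwps
  exact Finset.measurable_fun_sum _ fun i _ => measurable_pi_apply i

lemma rwGd_meas (x : ℝ) (m : ℕ) : MeasurableSet (rwGd x m) := by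
  have : rwGd x m = ⋂ j ∈ Finset.range (m + 1), {y | -x ≤ rwps y j} := by
    ext y
    simp [rwGd]
  rw [this]
  exact Finset.measurableSet_biInter _ fun j _ => measurableSet_le measurable_const (rwps_meas j)

lemma rwT_meas (x : ℝ) (m : ℕ) : Measurable (rwT x m) := by
  unfold rwT
  exact Finset.measurable_fun_sum _ fun i _ => (measurable_pi_apply i).indicator (rwGd_meas x i)

lemma rwT_succ (x : ℝ) (m : ℕ) (y : ℕ → ℝ) :
    rwT x (m + 1) y = rwT x m y + (rwGd x m).indicator (fun y => y m) y :=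
  Finset.sum_range_succ _ _

lemma rwps_succ (y : ℕ → ℝ) (m : ℕ) : rwps y (m + 1) = rwps y m + y m :=
  Finset.sum_range_succ _ _

/-- pointwise description of the stopped sum -/
lemma rwT_cases {x : ℝ} {B : ℝ} (hx : 0 ≤ x) {n : ℕ} (y : ℕ → ℝ) (hB : ∀ i < n, |y i| ≤ B) :
    ∀ m ≤ n, (y ∈ rwGd x m → rwT x m y = rwps y m) ∧
      (y ∉ rwGd x m → -x - B ≤ rwT x m y ∧ rwT x m y < -x) := by
  intro m
  induction m with
  | zero =>
    intro _
    refine ⟨fun _ => by simp [rwT, rwps], fun h => absurd ?_ h⟩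
    intro j hj
    have : j = 0 := by omega
    subst this
    simp [rwps, hx]
  | succ m ih =>
    intro hmn
    obtain ⟨h1, h2⟩ := ih (by omega)
    have hsub : y ∈ rwGd x (m + 1) → y ∈ rwGd x m := fun h j hj => h j (by omega)
    rw [rwT_succ]
    constructor
    · intro h
      rw [h1 (hsub h), Set.indicator_of_mem (hsub h), rwps_succ]
    · intro h
      by_cases hm : y ∈ rwGd x m
      · rw [h1 hm, Set.indicator_of_mem hm]
        have h4 : -x ≤ rwps y m := hm m le_rfl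
        have h5 := (abs_le.1 (hB m (by omega))).1
        constructor
        · linarith
        · rw [← rwps_succ]
          by_contra hcon
          push Not at hcon
          apply h
          intro j hj
          rcases Nat.lt_or_ge j (m + 1) with hj' | hj'
          · exact hm j (by omega)
          · have : j = m + 1 := by omega
            rw [this]; exact hcon
      · rw [Set.indicator_of_notMem hm, add_zero]
        exact h2 hm

/-! ### independence of the past -/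

section prob

variable {Ω : Type} [MeasurableSpace Ω] {μ : Measure Ω} [IsProbabilityMeasure μ]

omit [IsProbabilityMeasure μ] in
lemma rw_indep {n : ℕ} {Y : ℕ → Ω → ℝ} (hm : ∀ i, Measurable (Y i))
    (hI : iIndepFun (fun i : Fin n => Y i) μ) {m : ℕ} (hmn : m < n) {φ : (ℕ → ℝ) → ℝ}
    (hφ : Measurable φ) (hdep : ∀ y y' : ℕ → ℝ, (∀ i < m, y i = y' i) → φ y = φ y') :
    IndepFun (fun ω => φ (fun i => Y i ω)) (Y m) μ := by
  classical
  let S : Finset (Fin n) := Finset.univ.filter (fun i => (i : ℕ) < m)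
  let T : Finset (Fin n) := {⟨m, hmn⟩}
  have hST : Disjoint S T := by
    rw [Finset.disjoint_left]
    intro i hi hi'
    have h1 : (i : ℕ) < m := (Finset.mem_filter.1 hi).2
    have h2 : i = ⟨m, hmn⟩ := Finset.mem_singleton.1 hi'
    rw [h2] at h1
    exact lt_irrefl _ h1
  have h := hI.indepFun_finset S T hST (fun i => hm i)
  let ext : (S → ℝ) → (ℕ → ℝ) := fun z i =>
    if h : i < m then z ⟨⟨i, h.trans hmn⟩, by simp [S, h]⟩ else 0
  have hext : Measurable ext := measurable_pi_iff.2 fun i => by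
    by_cases h : i < m
    · simp only [ext, dif_pos h]
      exact measurable_pi_apply _
    · simp only [ext, dif_neg h]
      exact measurable_const
  have h2 := h.comp (hφ.comp hext)
    (measurable_pi_apply (⟨⟨m, hmn⟩, Finset.mem_singleton_self _⟩ : T))
  have e : (fun ω => φ (fun i => Y i ω)) =
      (φ ∘ ext) ∘ (fun a (i : S) => (fun i : Fin n => Y i) i a) := by
    funext ω
    apply hdep
    intro i hi
    simp only [ext, dif_pos hi]
  rw [e]
  exact h2

omit [IsProbabilityMeasure μ] in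
lemma rw_memLp {X : Ω → ℝ} (hexp : ∀ θ : ℝ, Integrable (fun ω => Real.exp (θ * X ω)) μ)
    (p : NNReal) : MemLp X p μ := by
  apply memLp_of_mem_interior_integrableExpSet
  have : integrableExpSet X μ = Set.univ := Set.eq_univ_of_forall fun θ => hexp θ
  rw [this]
  simp

omit [IsProbabilityMeasure μ] in
/-- moments from exponential moments -/
lemma rw_moment {X : Ω → ℝ} (hX : Measurable X) {M s : ℝ} (hs : 0 < s)
    (hp : Integrable (fun ω => Real.exp (s⁻¹ * X ω)) μ)
    (hn : Integrable (fun ω => Real.exp (-s⁻¹ * X ω)) μ)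
    (h1 : ∫ ω, Real.exp (s⁻¹ * X ω) ∂μ ≤ M) (h2 : ∫ ω, Real.exp (-s⁻¹ * X ω) ∂μ ≤ M) (k : ℕ) :
    Integrable (fun ω => |X ω| ^ k) μ ∧ ∫ ω, |X ω| ^ k ∂μ ≤ 2 * k.factorial * M * s ^ k := by
  have hpt : ∀ ω, |X ω| ^ k ≤
      (s ^ k * k.factorial) * (Real.exp (s⁻¹ * X ω) + Real.exp (-s⁻¹ * X ω)) := by
    intro ω
    have e1 : |X ω| ^ k = s ^ k * (s⁻¹ * |X ω|) ^ k := by
      rw [mul_pow, ← mul_assoc, ← mul_pow, mul_inv_cancel₀ hs.ne', one_pow, one_mul]
    have e2 : (s⁻¹ * |X ω|) ^ k ≤ k.factorial * Real.exp (s⁻¹ * |X ω|) := by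
      have := Real.pow_div_factorial_le_exp (x := s⁻¹ * |X ω|) (by positivity) k
      rw [div_le_iff₀ (by positivity)] at this
      linarith
    have e3 : Real.exp (s⁻¹ * |X ω|) ≤ Real.exp (s⁻¹ * X ω) + Real.exp (-s⁻¹ * X ω) := by
      rcases abs_cases (X ω) with ⟨h, _⟩ | ⟨h, _⟩
      · rw [h]
        linarith [Real.exp_pos (-s⁻¹ * X ω)]
      · rw [h]
        have : s⁻¹ * -X ω = -s⁻¹ * X ω := by ring
        rw [this]
        linarith [Real.exp_pos (s⁻¹ * X ω)]
    rw [e1]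
    calc s ^ k * (s⁻¹ * |X ω|) ^ k ≤ s ^ k * (k.factorial * Real.exp (s⁻¹ * |X ω|)) := by gcongr
      _ ≤ s ^ k * (k.factorial * (Real.exp (s⁻¹ * X ω) + Real.exp (-s⁻¹ * X ω))) := by gcongr
      _ = _ := by ring
  have hint : Integrable (fun ω => (s ^ k * k.factorial) *
      (Real.exp (s⁻¹ * X ω) + Real.exp (-s⁻¹ * X ω))) μ := (hp.add hn).const_mul _
  have hintX : Integrable (fun ω => |X ω| ^ k) μ := by
    refine hint.mono' ((continuous_abs.measurable.comp hX).pow_const k).aestronglyMeasurable ?_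
    refine Filter.Eventually.of_forall fun ω => ?_
    rw [Real.norm_of_nonneg (by positivity)]
    exact hpt ω
  refine ⟨hintX, ?_⟩
  calc ∫ ω, |X ω| ^ k ∂μ ≤ ∫ ω, (s ^ k * k.factorial) *
        (Real.exp (s⁻¹ * X ω) + Real.exp (-s⁻¹ * X ω)) ∂μ := integral_mono hintX hint hpt
    _ = (s ^ k * k.factorial) * (∫ ω, Real.exp (s⁻¹ * X ω) ∂μ +
        ∫ ω, Real.exp (-s⁻¹ * X ω) ∂μ) := by
        rw [integral_const_mul, integral_add hp hn]
    _ ≤ (s ^ k * k.factorial) * (M + M) := by gcongr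
    _ = _ := by ring

variable {c K : ℝ} {n : ℕ} {Y : ℕ → Ω → ℝ}

omit [IsProbabilityMeasure μ] in
lemma rwT_memLp (h : WalkHyp μ c K n Y) (hm : ∀ i, Measurable (Y i)) (x : ℝ) {m : ℕ}
    (hmn : m ≤ n) (p : NNReal) : MemLp (fun ω => rwT x m (fun i => Y i ω)) p μ := by
  unfold rwT
  have hY : Measurable (fun ω => (fun i => Y i ω)) := measurable_pi_iff.2 hm
  refine memLp_finsetSum _ fun i hi => ?_
  have h1 : MemLp (Y i) p μ := rw_memLp (h.expi i ((Finset.mem_range.1 hi).trans_le hmn)) p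
  exact h1.indicator (hY (rwGd_meas x i))

/-- first and second moment of the stopped sum -/
lemma rw_second (h : WalkHyp μ c K n Y) (hm : ∀ i, Measurable (Y i)) (x : ℝ) : ∀ m ≤ n,
    ∫ ω, rwT x m (fun i => Y i ω) ∂μ = 0 ∧
    (∑ i ∈ Finset.range m, ∫ ω, (Y i ω) ^ 2 ∂μ) * μ.real {ω | (fun i => Y i ω) ∈ rwGd x n} ≤
      ∫ ω, (rwT x m (fun i => Y i ω)) ^ 2 ∂μ := by
  have hY : Measurable (fun ω => (fun i => Y i ω)) := measurable_pi_iff.2 hm
  intro m
  induction m with
  | zero => intro _; simp [rwT]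
  | succ m ih =>
    intro hmn
    have hmn' : m < n := hmn
    obtain ⟨ih1, ih2⟩ := ih hmn'.le
    let g : (ℕ → ℝ) → ℝ := (rwGd x m).indicator (fun _ => 1)
    have hg : Measurable g := measurable_const.indicator (rwGd_meas x m)
    have hgdep : ∀ y y' : ℕ → ℝ, (∀ i < m, y i = y' i) → g y = g y' := by
      intro y y' hyy
      by_cases hy : y ∈ rwGd x m
      · simp only [g]
        rw [Set.indicator_of_mem hy, Set.indicator_of_mem ((rwGd_congr hyy le_rfl).1 hy)]
      · simp only [g]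
        rw [Set.indicator_of_notMem hy,
          Set.indicator_of_notMem (fun h' => hy ((rwGd_congr hyy le_rfl).2 h'))]
    have hg2 : ∀ y, g y * g y = g y := by
      intro y
      by_cases hy : y ∈ rwGd x m
      · simp only [g]
        rw [Set.indicator_of_mem hy, one_mul]
      · simp only [g]
        rw [Set.indicator_of_notMem hy, mul_zero]
    have hsucc : ∀ ω, rwT x (m + 1) (fun i => Y i ω) =
        rwT x m (fun i => Y i ω) + g (fun i => Y i ω) * Y m ω := by
      intro ω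
      rw [rwT_succ]
      congr 1
      by_cases hy : (fun i => Y i ω) ∈ rwGd x m
      · simp only [g]
        rw [Set.indicator_of_mem hy, Set.indicator_of_mem hy, one_mul]
      · simp only [g]
        rw [Set.indicator_of_notMem hy, Set.indicator_of_notMem hy, zero_mul]
    have hTm : MemLp (fun ω => rwT x m (fun i => Y i ω)) 2 μ :=
      rwT_memLp h hm x hmn'.le 2
    have hYm : MemLp (Y m) 2 μ := rw_memLp (h.expi m hmn') 2
    have hgY : MemLp (fun ω => g (fun i => Y i ω) * Y m ω) 2 μ := by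
      have h1 : MemLp ((fun ω => (fun i => Y i ω)) ⁻¹' (rwGd x m) |>.indicator (Y m))
          2 μ := hYm.indicator (hY (rwGd_meas x m))
      refine h1.congr_norm ?_ (Filter.Eventually.of_forall fun ω => ?_)
      · exact ((hg.comp hY).mul (hm m)).aestronglyMeasurable
      · by_cases hy : (fun i => Y i ω) ∈ rwGd x m
        · simp only [g]
          rw [Set.indicator_of_mem (show ω ∈ (fun ω => (fun i => Y i ω)) ⁻¹' (rwGd x m) from hy),
            Set.indicator_of_mem hy, one_mul]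
        · simp only [g]
          rw [Set.indicator_of_notMem
            (show ω ∉ (fun ω => (fun i => Y i ω)) ⁻¹' (rwGd x m) from hy),
            Set.indicator_of_notMem hy, zero_mul]
    have i1 : ∫ ω, g (fun i => Y i ω) * Y m ω ∂μ = 0 := by
      have h1 := rw_indep hm h.indep hmn' hg hgdep
      rw [h1.integral_fun_mul_eq_mul_integral (hg.comp hY).aestronglyMeasurable
        (hm m).aestronglyMeasurable]
      have h2 := h.mean m hmn'
      rw [h2, mul_zero]
    have i2 : ∫ ω, (rwT x m (fun i => Y i ω) * g (fun i => Y i ω)) * Y m ω ∂μ = 0 := by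
      have h1 := rw_indep hm h.indep hmn' (φ := fun y => rwT x m y * g y)
        ((rwT_meas x m).mul hg) (fun y y' hyy => by rw [rwT_congr hyy, hgdep y y' hyy])
      rw [h1.integral_fun_mul_eq_mul_integral
        (((rwT_meas x m).mul hg).comp hY).aestronglyMeasurable (hm m).aestronglyMeasurable]
      have h2 := h.mean m hmn'
      rw [h2, mul_zero]
    have i3 : ∫ ω, g (fun i => Y i ω) * (Y m ω) ^ 2 ∂μ =
        μ.real {ω | (fun i => Y i ω) ∈ rwGd x m} * ∫ ω, (Y m ω) ^ 2 ∂μ := by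
      have h1 := rw_indep hm h.indep hmn' hg hgdep
      have h2 := h1.comp (φ := id) (ψ := fun z : ℝ => z ^ 2) measurable_id
        (measurable_id.pow_const 2)
      have h3 := h2.integral_fun_mul_eq_mul_integral (hg.comp hY).aestronglyMeasurable
        ((hm m).pow_const 2).aestronglyMeasurable
      have h4 : ∫ ω, g (fun i => Y i ω) ∂μ = μ.real {ω | (fun i => Y i ω) ∈ rwGd x m} :=
        integral_indicator_one (μ := μ)
          (s := {ω | (fun i => Y i ω) ∈ rwGd x m}) (hY (rwGd_meas x m))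
      rw [← h4]
      exact h3
    have e1 : ∀ ω, (rwT x (m + 1) (fun i => Y i ω)) ^ 2 =
        (rwT x m (fun i => Y i ω)) ^ 2 +
        2 * ((rwT x m (fun i => Y i ω) * g (fun i => Y i ω)) * Y m ω) +
        g (fun i => Y i ω) * (Y m ω) ^ 2 := by
      intro ω
      rw [hsucc ω]
      have := hg2 (fun i => Y i ω)
      linear_combination (Y m ω) ^ 2 * this
    have j1 : Integrable (fun ω => (rwT x m (fun i => Y i ω)) ^ 2) μ := hTm.integrable_sq
    have j2 : Integrable (fun ω => (rwT x m (fun i => Y i ω) * g (fun i => Y i ω)) * Y m ω) μ := by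
      have h1 : Integrable (fun ω => rwT x m (fun i => Y i ω) * (g (fun i => Y i ω) * Y m ω)) μ :=
        MemLp.integrable_mul hTm hgY
      refine h1.congr (Filter.Eventually.of_forall fun ω => ?_)
      exact (mul_assoc _ _ _).symm
    have j3 : Integrable (fun ω => g (fun i => Y i ω) * (Y m ω) ^ 2) μ := by
      have h1 : Integrable (fun ω => (g (fun i => Y i ω) * Y m ω) ^ 2) μ := hgY.integrable_sq
      refine h1.congr (Filter.Eventually.of_forall fun ω => ?_)
      have := hg2 (fun i => Y i ω)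
      simp only
      linear_combination (Y m ω) ^ 2 * this
    constructor
    · simp only [hsucc]
      rw [integral_add (hTm.integrable (by norm_num)) (hgY.integrable (by norm_num)), ih1, i1,
        add_zero]
    · simp only [e1]
      have hsplit : ∫ ω, ((rwT x m (fun i => Y i ω)) ^ 2 +
          2 * ((rwT x m (fun i => Y i ω) * g (fun i => Y i ω)) * Y m ω) +
          g (fun i => Y i ω) * (Y m ω) ^ 2) ∂μ =
          ∫ ω, (rwT x m (fun i => Y i ω)) ^ 2 ∂μ +
          μ.real {ω | (fun i => Y i ω) ∈ rwGd x m} * ∫ ω, (Y m ω) ^ 2 ∂μ := by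
        have j12 : Integrable (fun ω => (rwT x m (fun i => Y i ω)) ^ 2 +
          2 * ((rwT x m (fun i => Y i ω) * g (fun i => Y i ω)) * Y m ω)) μ :=
          j1.add (j2.const_mul 2)
        rw [integral_add j12 j3, integral_add j1 (j2.const_mul 2),
          integral_const_mul, i2, i3, mul_zero, add_zero]
      rw [hsplit, Finset.sum_range_succ, add_mul]
      refine add_le_add ih2 ?_
      rw [mul_comm]
      refine mul_le_mul_of_nonneg_right ?_ (integral_nonneg fun ω => sq_nonneg _)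
      exact measureReal_mono (fun ω hω j hj => hω j (hj.trans hmn'.le))

/-- exponential moments of the whole sum -/
lemma rw_expsum (h : WalkHyp μ c K n Y) (hm : ∀ i, Measurable (Y i)) (θ : ℝ) :
    Integrable (fun ω => Real.exp (θ * rwps (fun i => Y i ω) n)) μ ∧
    ∫ ω, Real.exp (θ * rwps (fun i => Y i ω) n) ∂μ ≤ Real.exp (K * θ ^ 2 * n) := by
  have e : ∀ ω, rwps (fun i => Y i ω) n = (∑ i : Fin n, Y i) ω := by
    intro ω
    rw [Finset.sum_apply]
    exact Finset.sum_range (fun i => Y i ω)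
  constructor
  · have h1 := h.indep.integrable_exp_mul_sum (t := θ) (fun i => hm i) (s := Finset.univ)
      (fun i _ => h.expi i i.2 θ)
    refine h1.congr (Filter.Eventually.of_forall fun ω => ?_)
    simp only [e ω]
  · have h1 := h.indep.mgf_sum (t := θ) (fun i => hm i) Finset.univ
    have h2 : ∫ ω, Real.exp (θ * rwps (fun i => Y i ω) n) ∂μ = mgf (∑ i : Fin n, Y i) μ θ := by
      unfold mgf
      simp only [e]
    rw [h2, h1]
    calc ∏ i : Fin n, mgf (Y i) μ θ ≤ ∏ _i : Fin n, Real.exp (K * θ ^ 2) :=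
          Finset.prod_le_prod (fun i _ => mgf_nonneg) (fun i _ => h.subg i i.2 θ)
      _ = Real.exp (K * θ ^ 2 * n) := by
          rw [Finset.prod_const, Finset.card_univ, Fintype.card_fin, ← Real.exp_nat_mul]
          congr 1
          ring

end prob

/-! ### pointwise inequalities -/

lemma rw_pt1 {x b : ℝ} (hx : 0 ≤ x) (hb : 0 < b) {n k : ℕ} (hk : 1 ≤ k) (y : ℕ → ℝ) :
    |rwT x n y| ≤ rwT x n y + 2 * (x + (b + b / b ^ k * ∑ i ∈ Finset.range n, |y i| ^ k)) := by
  have hB : ∀ i < n, |y i| ≤ b + b / b ^ k * ∑ i ∈ Finset.range n, |y i| ^ k := by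
    intro i hi
    have h1 : |y i| ^ k ≤ ∑ i ∈ Finset.range n, |y i| ^ k :=
      Finset.single_le_sum (f := fun i => |y i| ^ k) (fun _ _ => by positivity)
        (Finset.mem_range.2 hi)
    have h2 : |y i| ≤ b + b / b ^ k * |y i| ^ k := by
      rcases le_total (|y i|) b with h | h
      · have : 0 ≤ b / b ^ k * |y i| ^ k := by positivity
        linarith
      · have h3 : 1 ≤ |y i| / b := by rwa [le_div_iff₀ hb, one_mul]
        have h4 : |y i| / b ≤ (|y i| / b) ^ k := le_self_pow₀ h3 (by omega)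
        have h5 : b / b ^ k * |y i| ^ k = b * (|y i| / b) ^ k := by
          rw [div_pow]; ring
        rw [h5]
        have h6 : |y i| = b * (|y i| / b) := by field_simp
        calc |y i| = b * (|y i| / b) := h6
          _ ≤ b * (|y i| / b) ^ k := by gcongr
          _ ≤ _ := by linarith
    calc |y i| ≤ b + b / b ^ k * |y i| ^ k := h2
      _ ≤ _ := by gcongr
  have hB0 : 0 ≤ b + b / b ^ k * ∑ i ∈ Finset.range n, |y i| ^ k := by positivity
  obtain ⟨h1, h2⟩ := rwT_cases hx y hB n le_rfl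
  have h3 : -x - (b + b / b ^ k * ∑ i ∈ Finset.range n, |y i| ^ k) ≤ rwT x n y := by
    by_cases hy : y ∈ rwGd x n
    · rw [h1 hy]
      have := hy n le_rfl
      linarith
    · exact (h2 hy).1
  rcases abs_cases (rwT x n y) with ⟨h, _⟩ | ⟨h, _⟩ <;> rw [h] <;> linarith

lemma rw_pow3 {a b c : ℝ} (ha : 0 ≤ a) (hb : 0 ≤ b) (hc : 0 ≤ c) (k : ℕ) :
    (a + b + c) ^ k ≤ 3 ^ k * (a ^ k + b ^ k + c ^ k) := by
  have h1 : a + b + c ≤ 3 * max a (max b c) := by
    have := le_max_left a (max b c)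
    have := le_max_right a (max b c)
    have := le_max_left b c
    have := le_max_right b c
    linarith
  have h2 : (max a (max b c)) ^ k ≤ a ^ k + b ^ k + c ^ k := by
    have := pow_nonneg ha k
    have := pow_nonneg hb k
    have := pow_nonneg hc k
    rcases max_choice a (max b c) with h | h
    · rw [h]; linarith
    · rw [h]
      rcases max_choice b c with h' | h' <;> rw [h'] <;> linarith
  calc (a + b + c) ^ k ≤ (3 * max a (max b c)) ^ k := pow_le_pow_left₀ (by positivity) h1 k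
    _ = 3 ^ k * (max a (max b c)) ^ k := mul_pow _ _ _
    _ ≤ _ := by gcongr

lemma rw_pt2 {x : ℝ} (hx : 0 ≤ x) {n k : ℕ} (hk : 1 ≤ k) (y : ℕ → ℝ) :
    |rwT x n y| ^ k ≤ 3 ^ k * (|rwps y n| ^ k + x ^ k + ∑ i ∈ Finset.range n, |y i| ^ k) := by
  set s : ℝ := ∑ i ∈ Finset.range n, |y i| ^ k with hs
  have hs0 : 0 ≤ s := Finset.sum_nonneg fun _ _ => by positivity
  set B : ℝ := s ^ ((k : ℝ)⁻¹) with hBdef
  have hB0 : 0 ≤ B := Real.rpow_nonneg hs0 _
  have hBk : B ^ k = s := Real.rpow_inv_natCast_pow hs0 (by omega)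
  have hB : ∀ i < n, |y i| ≤ B := by
    intro i hi
    have h1 : |y i| ^ k ≤ s :=
      Finset.single_le_sum (f := fun i => |y i| ^ k) (fun _ _ => by positivity)
        (Finset.mem_range.2 hi)
    rw [← hBk] at h1
    exact le_of_pow_le_pow_left₀ (by omega) hB0 h1
  obtain ⟨h1, h2⟩ := rwT_cases hx y hB n le_rfl
  have h3 : |rwT x n y| ≤ |rwps y n| + x + B := by
    by_cases hy : y ∈ rwGd x n
    · rw [h1 hy]
      linarith
    · obtain ⟨h4, h5⟩ := h2 hy
      rw [abs_le]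
      have := abs_nonneg (rwps y n)
      constructor <;> linarith
  calc |rwT x n y| ^ k ≤ (|rwps y n| + x + B) ^ k := pow_le_pow_left₀ (abs_nonneg _) h3 k
    _ ≤ 3 ^ k * (|rwps y n| ^ k + x ^ k + B ^ k) := rw_pow3 (abs_nonneg _) hx hB0 k
    _ = _ := by rw [hBk]

lemma rw_young {t l : ℝ} (hl : 0 < l) {k : ℕ} (hk : 2 ≤ k) :
    t ^ 2 ≤ l * |t| + l ^ 2 / l ^ k * |t| ^ k := by
  rw [← sq_abs t]
  have ht := abs_nonneg t
  rcases le_total (|t|) l with h | h
  · have h1 : 0 ≤ l ^ 2 / l ^ k * |t| ^ k := by positivity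
    nlinarith
  · have h3 : 1 ≤ |t| / l := by rwa [le_div_iff₀ hl, one_mul]
    have h4 : (|t| / l) ^ 2 ≤ (|t| / l) ^ k := pow_le_pow_right₀ h3 hk
    have h5 : l ^ 2 / l ^ k * |t| ^ k = l ^ 2 * (|t| / l) ^ k := by
      rw [div_pow]; ring
    have h6 : |t| ^ 2 = l ^ 2 * (|t| / l) ^ 2 := by field_simp
    rw [h5]
    have h7 : 0 ≤ l * |t| := by positivity
    calc |t| ^ 2 = l ^ 2 * (|t| / l) ^ 2 := h6
      _ ≤ l ^ 2 * (|t| / l) ^ k := by gcongr
      _ ≤ _ := by linarith

/-- the second moment estimate -/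
lemma rw_main {Ω : Type} [MeasurableSpace Ω] {μ : Measure Ω} [IsProbabilityMeasure μ]
    {c K : ℝ} {n : ℕ} {Y : ℕ → Ω → ℝ} (hK : 0 ≤ K) (h : WalkHyp μ c K n Y)
    (hm : ∀ i, Measurable (Y i)) {x b l : ℝ} (hx : 0 ≤ x) (hb : 0 < b) (hl : 0 < l) {k : ℕ}
    (hk : 2 ≤ k) :
    (c * n - K) * μ.real {ω | (fun i => Y i ω) ∈ rwGd x n} ≤
      l * (2 * (x + (b + b / b ^ k * (n * (2 * k.factorial * Real.exp K))))) +
      l ^ 2 / l ^ k * (3 ^ k * ((2 * k.factorial * Real.exp K) * Real.sqrt ((n : ℝ) + 1) ^ k +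
        x ^ k + n * (2 * k.factorial * Real.exp K))) := by
  have hY : Measurable (fun ω => (fun i => Y i ω)) := measurable_pi_iff.2 hm
  set Ck : ℝ := 2 * k.factorial * Real.exp K with hCk
  set N : ℝ := (n : ℝ) + 1 with hN
  have hN0 : 0 < N := by positivity
  obtain ⟨m1, m2⟩ := rw_second h hm x n le_rfl
  -- moments of the steps
  have hYk : ∀ i < n, Integrable (fun ω => |Y i ω| ^ k) μ ∧ ∫ ω, |Y i ω| ^ k ∂μ ≤ Ck := by
    intro i hi
    have h1 := rw_moment (μ := μ) (X := Y i) (hm i) (M := Real.exp K) (s := 1) one_pos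
      (h.expi i hi _) (h.expi i hi _) (by
        refine (h.subg i hi _).trans (le_of_eq ?_)
        congr 1
        norm_num) (by
        refine (h.subg i hi _).trans (le_of_eq ?_)
        congr 1
        norm_num) k
    refine ⟨h1.1, h1.2.trans (le_of_eq ?_)⟩
    rw [one_pow, mul_one, hCk]
  have hSk : Integrable (fun ω => ∑ i ∈ Finset.range n, |Y i ω| ^ k) μ ∧
      ∫ ω, ∑ i ∈ Finset.range n, |Y i ω| ^ k ∂μ ≤ n * Ck := by
    refine ⟨integrable_finsetSum _ fun i hi => (hYk i (Finset.mem_range.1 hi)).1, ?_⟩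
    rw [integral_finsetSum _ fun i hi => (hYk i (Finset.mem_range.1 hi)).1]
    calc ∑ i ∈ Finset.range n, ∫ ω, |Y i ω| ^ k ∂μ ≤ ∑ _i ∈ Finset.range n, Ck :=
          Finset.sum_le_sum fun i hi => (hYk i (Finset.mem_range.1 hi)).2
      _ = n * Ck := by rw [Finset.sum_const, Finset.card_range, nsmul_eq_mul]
  -- moments of the sum
  have hs0 : 0 < Real.sqrt N := Real.sqrt_pos.2 hN0
  have hexpb : ∀ θ : ℝ, θ ^ 2 = N⁻¹ →
      ∫ ω, Real.exp (θ * rwps (fun i => Y i ω) n) ∂μ ≤ Real.exp K := by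
    intro θ hθ
    refine (rw_expsum h hm θ).2.trans (Real.exp_le_exp.2 ?_)
    rw [hθ, mul_assoc]
    have h1 : N⁻¹ * n ≤ 1 := by
      rw [inv_mul_le_iff₀ hN0]
      linarith
    nlinarith
  have hsq : (Real.sqrt N)⁻¹ ^ 2 = N⁻¹ := by rw [inv_pow, Real.sq_sqrt hN0.le]
  have hRk : Integrable (fun ω => |rwps (fun i => Y i ω) n| ^ k) μ ∧
      ∫ ω, |rwps (fun i => Y i ω) n| ^ k ∂μ ≤ Ck * Real.sqrt N ^ k := by
    have h1 := rw_moment (μ := μ) (X := fun ω => rwps (fun i => Y i ω) n)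
      ((rwps_meas n).comp hY) (M := Real.exp K) (s := Real.sqrt N) hs0
      (rw_expsum h hm _).1 (rw_expsum h hm _).1 (hexpb _ hsq)
      (hexpb _ (by rw [neg_sq]; exact hsq)) k
    exact h1
  have hTk : MemLp (fun ω => rwT x n (fun i => Y i ω)) (k : NNReal) μ := rwT_memLp h hm x le_rfl _
  have hT2 : MemLp (fun ω => rwT x n (fun i => Y i ω)) (2 : NNReal) μ := rwT_memLp h hm x le_rfl _
  have hT1 : Integrable (fun ω => rwT x n (fun i => Y i ω)) μ := hT2.integrable (by norm_num)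
  have hin1 : Integrable (fun ω => b / b ^ k * ∑ i ∈ Finset.range n, |Y i ω| ^ k) μ :=
    hSk.1.const_mul _
  have hin2 : Integrable (fun ω => b + b / b ^ k * ∑ i ∈ Finset.range n, |Y i ω| ^ k) μ :=
    (integrable_const _).add hin1
  have hin3 : Integrable (fun ω => x + (b + b / b ^ k * ∑ i ∈ Finset.range n, |Y i ω| ^ k)) μ :=
    (integrable_const _).add hin2
  have hin4 : Integrable (fun ω => 2 * (x + (b + b / b ^ k *
      ∑ i ∈ Finset.range n, |Y i ω| ^ k))) μ := hin3.const_mul _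
  have hin5 : Integrable (fun ω => |rwps (fun i => Y i ω) n| ^ k + x ^ k) μ :=
    hRk.1.add (integrable_const _)
  have hbd2 : Integrable (fun ω => 3 ^ k * (|rwps (fun i => Y i ω) n| ^ k + x ^ k +
      ∑ i ∈ Finset.range n, |Y i ω| ^ k)) μ :=
    (hin5.add hSk.1).const_mul _
  have hTki : Integrable (fun ω => |rwT x n (fun i => Y i ω)| ^ k) μ := by
    refine hbd2.mono' ((continuous_abs.measurable.comp
      ((rwT_meas x n).comp hY)).pow_const k).aestronglyMeasurable ?_
    refine Filter.Eventually.of_forall fun ω => ?_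
    rw [Real.norm_of_nonneg (by positivity)]
    exact rw_pt2 hx (by omega) _
  have b1 : ∫ ω, |rwT x n (fun i => Y i ω)| ∂μ ≤ 2 * (x + (b + b / b ^ k * (n * Ck))) := by
    calc ∫ ω, |rwT x n (fun i => Y i ω)| ∂μ ≤ ∫ ω, (rwT x n (fun i => Y i ω) +
          2 * (x + (b + b / b ^ k * ∑ i ∈ Finset.range n, |Y i ω| ^ k))) ∂μ := by
          refine integral_mono hT1.abs (hT1.add hin4) fun ω => rw_pt1 hx hb (by omega) _
      _ = 2 * (x + (b + b / b ^ k * ∫ ω, ∑ i ∈ Finset.range n, |Y i ω| ^ k ∂μ)) := by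
          rw [integral_add hT1 hin4, m1,
            zero_add, integral_const_mul, integral_add (integrable_const _) hin2,
            integral_add (integrable_const _) hin1, integral_const_mul]
          simp
      _ ≤ _ := by
          have := hSk.2
          gcongr
  have b2 : ∫ ω, |rwT x n (fun i => Y i ω)| ^ k ∂μ ≤
      3 ^ k * (Ck * Real.sqrt N ^ k + x ^ k + n * Ck) := by
    calc ∫ ω, |rwT x n (fun i => Y i ω)| ^ k ∂μ ≤ ∫ ω, 3 ^ k *
          (|rwps (fun i => Y i ω) n| ^ k + x ^ k + ∑ i ∈ Finset.range n, |Y i ω| ^ k) ∂μ :=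
          integral_mono hTki hbd2 fun ω => rw_pt2 hx (by omega) _
      _ = 3 ^ k * (∫ ω, |rwps (fun i => Y i ω) n| ^ k ∂μ + x ^ k +
          ∫ ω, ∑ i ∈ Finset.range n, |Y i ω| ^ k ∂μ) := by
          rw [integral_const_mul, integral_add hin5 hSk.1,
            integral_add hRk.1 (integrable_const _)]
          simp
      _ ≤ _ := by
          have h1 := hSk.2
          have h2 := hRk.2
          gcongr
  have b3 : ∫ ω, (rwT x n (fun i => Y i ω)) ^ 2 ∂μ ≤
      l * ∫ ω, |rwT x n (fun i => Y i ω)| ∂μ +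
      l ^ 2 / l ^ k * ∫ ω, |rwT x n (fun i => Y i ω)| ^ k ∂μ := by
    rw [← integral_const_mul, ← integral_const_mul, ← integral_add (hT1.abs.const_mul _)
      (hTki.const_mul _)]
    exact integral_mono hT2.integrable_sq ((hT1.abs.const_mul _).add (hTki.const_mul _))
      fun ω => rw_young hl hk
  have hP0 : 0 ≤ μ.real {ω | (fun i => Y i ω) ∈ rwGd x n} := measureReal_nonneg
  calc (c * n - K) * μ.real {ω | (fun i => Y i ω) ∈ rwGd x n} ≤
      (∑ i ∈ Finset.range n, ∫ ω, (Y i ω) ^ 2 ∂μ) *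
        μ.real {ω | (fun i => Y i ω) ∈ rwGd x n} := mul_le_mul_of_nonneg_right h.var hP0
    _ ≤ _ := m2
    _ ≤ _ := b3
    _ ≤ _ := by
      have h1 : 0 ≤ l ^ 2 / l ^ k := by positivity
      exact add_le_add (mul_le_mul_of_nonneg_left b1 hl.le) (mul_le_mul_of_nonneg_left b2 h1)

theorem persistence (c K δ : ℝ) (hc : 0 < c) (hK : 0 ≤ K) (hδ : 0 < δ) :
    ∃ C : ℝ, 0 < C ∧ ∀ (Ω : Type) [MeasurableSpace Ω] (μ : Measure Ω) [IsProbabilityMeasure μ]
      (n : ℕ) (Y : ℕ → Ω → ℝ), WalkHyp μ c K n Y → ∀ x : ℝ, 1 ≤ x →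
        μ.real {ω | ∀ j : ℕ, j ≤ n → -x ≤ psum Y j ω} ≤
          C * x ^ 3 * ((n : ℝ) + 1) ^ (-(1 / 2 : ℝ) + δ) := by
  obtain ⟨k, hk⟩ := exists_nat_ge (2 / δ + 2)
  have hk2 : 2 ≤ k := by
    have h1 : 0 < 2 / δ := by positivity
    have h2 : (2 : ℝ) ≤ k := by linarith
    exact_mod_cast h2
  have hkδ : 1 ≤ k * (δ / 2) := by
    have h1 : 2 / δ ≤ k := by linarith
    rw [div_le_iff₀ hδ] at h1
    linarith
  set Ck : ℝ := 2 * k.factorial * Real.exp K with hCk
  have hCk0 : 0 < Ck := by positivity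
  set D : ℝ := 2 * (2 + Ck) + 3 ^ k * (2 * Ck + 1) with hD
  have hD0 : 0 < D := by positivity
  refine ⟨(D + c + K) / c, by positivity, ?_⟩
  intro Ω _ μ _ n Y' h' x hx
  -- make all the steps measurable
  let Y : ℕ → Ω → ℝ := fun i => if i < n then Y' i else 0
  have hYY : ∀ i < n, Y i = Y' i := fun i hi => by simp only [Y]; rw [if_pos hi]
  have hm : ∀ i, Measurable (Y i) := by
    intro i
    by_cases hi : i < n
    · rw [hYY i hi]; exact h'.meas i hi
    · simp only [Y]; rw [if_neg hi]; exact measurable_const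
  have h : WalkHyp μ c K n Y := by
    refine ⟨fun i _ => hm i, ?_, ?_, ?_, ?_, ?_⟩
    · have : (fun i : Fin n => Y i) = fun i : Fin n => Y' i := by
        funext i; exact hYY i i.2
      rw [this]; exact h'.indep
    · intro i hi; rw [hYY i hi]; exact h'.mean i hi
    · intro i hi; rw [hYY i hi]; exact h'.expi i hi
    · intro i hi; rw [hYY i hi]; exact h'.subg i hi
    · have : ∑ i ∈ Finset.range n, ∫ ω, (Y i ω) ^ 2 ∂μ =
          ∑ i ∈ Finset.range n, ∫ ω, (Y' i ω) ^ 2 ∂μ :=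
        Finset.sum_congr rfl fun i hi => by rw [hYY i (Finset.mem_range.1 hi)]
      rw [this]; exact h'.var
  have hset : {ω | ∀ j : ℕ, j ≤ n → -x ≤ psum Y' j ω} = {ω | (fun i => Y i ω) ∈ rwGd x n} := by
    ext ω
    simp only [Set.mem_ofPred_eq, rwGd]
    refine forall_congr' fun j => forall_congr' fun hj => ?_
    have : psum Y' j ω = rwps (fun i => Y i ω) j :=
      Finset.sum_congr rfl fun i hi => by
        show Y' i ω = Y i ω
        rw [hYY i ((Finset.mem_range.1 hi).trans_le hj)]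
    rw [this]
  rw [hset]
  set N : ℝ := (n : ℝ) + 1 with hN
  have hn0 : (0 : ℝ) ≤ n := Nat.cast_nonneg n
  have hN1 : 1 ≤ N := by rw [hN]; linarith
  have hN0 : 0 < N := by linarith
  set s : ℝ := Real.sqrt N with hs
  have hs1 : 1 ≤ s := by rw [hs]; exact Real.one_le_sqrt.2 hN1
  have hss : s ^ 2 = N := Real.sq_sqrt hN0.le
  set b : ℝ := N ^ (δ / 2) with hb
  have hb1 : 1 ≤ b := Real.one_le_rpow hN1 (by positivity)
  have hb0 : 0 < b := by linarith
  have hbk : N ≤ b ^ k := by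
    rw [hb, ← Real.rpow_natCast, ← Real.rpow_mul hN0.le]
    calc N = N ^ (1 : ℝ) := (Real.rpow_one N).symm
      _ ≤ N ^ (δ / 2 * k) := Real.rpow_le_rpow_of_exponent_le hN1 (by linarith)
  have hx0 : 0 < x := by linarith
  set l : ℝ := x * s * b with hl
  have hl0 : 0 < l := by positivity
  have hmain := rw_main hK h hm hx0.le hb0 hl0 hk2
  rw [← hCk, ← hN, ← hs] at hmain
  set P : ℝ := μ.real {ω | (fun i => Y i ω) ∈ rwGd x n} with hP
  have hP0 : 0 ≤ P := measureReal_nonneg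
  have hP1 : P ≤ 1 := measureReal_le_one
  have hnN : (n : ℝ) ≤ N := by rw [hN]; linarith
  -- first term
  have t1 : l * (2 * (x + (b + b / b ^ k * (n * Ck)))) ≤ 2 * (2 + Ck) * (x ^ 2 * s * b ^ 2) := by
    have e1 : b / b ^ k * (n * Ck) ≤ b * Ck := by
      have : (n : ℝ) ≤ b ^ k := hnN.trans hbk
      calc b / b ^ k * (n * Ck) = b * Ck * (n / b ^ k) := by ring
        _ ≤ b * Ck * 1 := by
          gcongr
          rw [div_le_one (by positivity)]
          exact this
        _ = b * Ck := by ring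
    have e2 : x + (b + b / b ^ k * (n * Ck)) ≤ (2 + Ck) * (x * b) := by
      have e3 : x ≤ x * b := le_mul_of_one_le_right hx0.le hb1
      have e4 : b ≤ x * b := le_mul_of_one_le_left hb0.le hx
      have e5 : b * Ck ≤ x * b * Ck := mul_le_mul_of_nonneg_right e4 hCk0.le
      nlinarith
    calc l * (2 * (x + (b + b / b ^ k * (n * Ck)))) ≤ l * (2 * ((2 + Ck) * (x * b))) := by gcongr
      _ = _ := by rw [hl]; ring
  -- second term
  have t2 : l ^ 2 / l ^ k * (3 ^ k * (Ck * s ^ k + x ^ k + n * Ck)) ≤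
      3 ^ k * (2 * Ck + 1) * (x ^ 2 * s * b ^ 2) := by
    have hxk : 1 ≤ x ^ k := one_le_pow₀ hx
    have hsk : N ≤ s ^ k := by
      rw [← hss]; exact pow_le_pow_right₀ hs1 hk2
    have hsk1 : 1 ≤ s ^ k := one_le_pow₀ hs1
    have e1 : Ck * s ^ k + x ^ k + n * Ck ≤ (2 * Ck + 1) * (x ^ k * s ^ k) := by
      have f1 : s ^ k ≤ x ^ k * s ^ k := le_mul_of_one_le_left (by positivity) hxk
      have f2 : x ^ k ≤ x ^ k * s ^ k := le_mul_of_one_le_right (by positivity) hsk1
      have f3 : (n : ℝ) ≤ x ^ k * s ^ k := (hnN.trans hsk).trans f1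
      nlinarith [mul_le_mul_of_nonneg_left f1 hCk0.le, mul_le_mul_of_nonneg_left f3 hCk0.le]
    calc l ^ 2 / l ^ k * (3 ^ k * (Ck * s ^ k + x ^ k + n * Ck)) ≤
        l ^ 2 / l ^ k * (3 ^ k * ((2 * Ck + 1) * (x ^ k * s ^ k))) := by gcongr
      _ = 3 ^ k * (2 * Ck + 1) * (x ^ 2 * b ^ 2 * (s ^ 2 / b ^ k)) := by
          rw [hl]
          field_simp
          rw [mul_pow, mul_pow]
      _ ≤ 3 ^ k * (2 * Ck + 1) * (x ^ 2 * b ^ 2 * 1) := by
          gcongr
          rw [div_le_one (by positivity), hss]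
          exact hbk
      _ ≤ 3 ^ k * (2 * Ck + 1) * (x ^ 2 * b ^ 2 * s) := by gcongr
      _ = _ := by ring
  have t3 : (c * n - K) * P ≤ D * (x ^ 2 * s * b ^ 2) := by
    calc (c * n - K) * P ≤ _ := hmain
      _ ≤ 2 * (2 + Ck) * (x ^ 2 * s * b ^ 2) + 3 ^ k * (2 * Ck + 1) * (x ^ 2 * s * b ^ 2) :=
          add_le_add t1 t2
      _ = _ := by rw [hD]; ring
  have hE1 : 1 ≤ x ^ 2 * s * b ^ 2 := by
    have f1 : 1 ≤ x ^ 2 := one_le_pow₀ hx
    have f2 : 1 ≤ b ^ 2 := one_le_pow₀ hb1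
    have f3 : 1 ≤ x ^ 2 * s := one_le_mul_of_one_le_of_one_le f1 hs1
    exact one_le_mul_of_one_le_of_one_le f3 f2
  have t4 : c * N * P ≤ (D + c + K) * (x ^ 2 * s * b ^ 2) := by
    have f1 : c * N * P = (c * n - K) * P + (c + K) * P := by rw [hN]; ring
    have f2 : (c + K) * P ≤ (c + K) * (x ^ 2 * s * b ^ 2) :=
      mul_le_mul_of_nonneg_left (hP1.trans hE1) (by positivity)
    rw [f1]
    linarith
  have hsb : s * b ^ 2 = N * N ^ (-(1 / 2 : ℝ) + δ) := by
    rw [hs, hb, Real.sqrt_eq_rpow, ← Real.rpow_natCast, ← Real.rpow_mul hN0.le,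
      ← Real.rpow_add hN0]
    nth_rewrite 2 [← Real.rpow_one N]
    rw [← Real.rpow_add hN0]
    congr 1
    push_cast
    ring
  have t5 : P ≤ (D + c + K) / c * x ^ 2 * N ^ (-(1 / 2 : ℝ) + δ) := by
    have f1 : c * N * P ≤ c * N * ((D + c + K) / c * x ^ 2 * N ^ (-(1 / 2 : ℝ) + δ)) := by
      calc c * N * P ≤ (D + c + K) * (x ^ 2 * s * b ^ 2) := t4
        _ = (D + c + K) * x ^ 2 * (s * b ^ 2) := by ring
        _ = _ := by rw [hsb]; field_simp
    exact le_of_mul_le_mul_left f1 (by positivity)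
  refine t5.trans ?_
  have hx3 : x ^ 2 ≤ x ^ 3 := pow_le_pow_right₀ hx (by norm_num)
  have hp : 0 ≤ N ^ (-(1 / 2 : ℝ) + δ) := Real.rpow_nonneg hN0.le _
  gcongr

end Emb
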