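import Pool.Agent.Lib.Emb.RW1

/-!
# Chunk RW2: consequences of persistence

`exp_runMax`: reverse time. With `Y'_i = Y_{n-1-i}` (`i < n`), `psum Y' i = S_n - S_{n-i}`; the event
`max_{i ≤ n} (S_i - S_n) ≤ x` is `{psum Y' i ≥ -x for all i ≤ n}`. So
`E exp(-η M) ≤ ∑_{k ≥ 0} e^{-η k} P(M ≤ k+1) ≤ C ∑_k e^{-η k} (k+1)^3 (n+1)^(-1/2+δ)`.

`exp_runMax_log`: forward, apply `persistence` to `-Y`: if
`max_{j ≤ n} (S_j - c₀ log(1+j)) ≤ x` then `-S_j ≥ -(x + c₀ log(1+n))` for all `j ≤ n`, so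
`E exp(-θ H) ≤ e^{-θ k} + P(H ≤ k)`, `P(H ≤ k) ≤ C (k + 1 + c₀ log (1+n))^3 (n+1)^(-1/4)`.
-/

open MeasureTheory ProbabilityTheory Filter

namespace Emb

section

variable {Ω : Type} [MeasurableSpace Ω] {μ : Measure Ω} {c K : ℝ} {n : ℕ} {Y : ℕ → Ω → ℝ}

/-- time reversal of the hypotheses -/
lemma rw_reverse (h : WalkHyp μ c K n Y) : WalkHyp μ c K n (fun i => Y (n - 1 - i)) := by
  have hlt : ∀ i, i < n → n - 1 - i < n := fun i hi => by omega
  refine ⟨fun i hi => h.meas _ (hlt i hi), ?_, fun i hi => h.mean _ (hlt i hi),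
    fun i hi => h.expi _ (hlt i hi), fun i hi => h.subg _ (hlt i hi), ?_⟩
  · have h1 := h.indep.precomp (g := (Fin.rev : Fin n → Fin n)) Fin.rev_injective
    have h2 : (fun i : Fin n => (fun j : Fin n => Y j) (Fin.rev i)) =
        fun i : Fin n => Y (n - 1 - i) := by
      funext i
      show Y (Fin.rev i : Fin n) = Y (n - 1 - i)
      rw [Fin.val_rev]
      congr 1
      omega
    rw [← h2]
    exact h1
  · rw [Finset.sum_range_reflect (fun i => ∫ ω, (Y i ω) ^ 2 ∂μ)]
    exact h.var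

/-- change of sign -/
lemma rw_neg (h : WalkHyp μ c K n Y) : WalkHyp μ c K n (fun i ω => -Y i ω) := by
  refine ⟨fun i hi => (h.meas _ hi).neg, ?_, fun i hi => ?_, fun i hi θ => ?_,
    fun i hi θ => ?_, ?_⟩
  · exact h.indep.comp (fun _ x => -x) (fun _ => measurable_neg)
  · rw [integral_neg, h.mean i hi, neg_zero]
  · have h1 := h.expi i hi (-θ)
    refine h1.congr (Eventually.of_forall fun ω => ?_)
    simp only
    congr 1
    ring
  · have h1 := h.subg i hi (-θ)
    rw [neg_sq] at h1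
    refine le_trans (le_of_eq ?_) h1
    congr 1
    funext ω
    congr 1
    ring
  · simpa only [neg_sq] using h.var

lemma rw_psum_reverse (Y : ℕ → Ω → ℝ) {n i : ℕ} (hi : i ≤ n) (ω : Ω) :
    psum (fun i => Y (n - 1 - i)) i ω = psum Y n ω - psum Y (n - i) ω := by
  unfold psum
  induction i with
  | zero => simp
  | succ i ih =>
    rw [Finset.sum_range_succ, ih (by omega)]
    have h1 : n - i = (n - (i + 1)) + 1 := by omega
    rw [h1, Finset.sum_range_succ]
    have h2 : n - 1 - i = n - (i + 1) := by omega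
    have h3 : (fun i => Y (n - 1 - i)) i ω = Y (n - (i + 1)) ω := by
      show Y (n - 1 - i) ω = Y (n - (i + 1)) ω
      rw [h2]
    rw [h3]
    ring

omit [MeasurableSpace Ω] in
lemma rw_le_runMax (S : ℕ → ℝ) {n j : ℕ} (hj : j ≤ n) : S j ≤ runMax S n :=
  Finset.le_sup' S (Finset.mem_range.2 (by omega))

lemma rw_runMax_le (S : ℕ → ℝ) {n : ℕ} {x : ℝ} : runMax S n ≤ x ↔ ∀ j ≤ n, S j ≤ x := by
  unfold runMax
  rw [Finset.sup'_le_iff]
  refine forall_congr' fun j => ?_
  rw [Finset.mem_range, Nat.lt_succ_iff]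

/-- the persistence event is measurable -/
lemma rw_meas_event (hY : ∀ i, i < n → Measurable (Y i)) (x : ℝ) :
    MeasurableSet {ω | ∀ j : ℕ, j ≤ n → -x ≤ psum Y j ω} := by
  have : {ω | ∀ j : ℕ, j ≤ n → -x ≤ psum Y j ω} =
      ⋂ j ∈ Finset.range (n + 1), {ω | -x ≤ psum Y j ω} := by
    ext ω
    simp
  rw [this]
  refine Finset.measurableSet_biInter _ fun j hj => measurableSet_le measurable_const ?_
  unfold psum
  exact Finset.measurable_fun_sum _ fun i hi =>
    hY i (by have := Finset.mem_range.1 hi; have := Finset.mem_range.1 hj; omega)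

end

lemma rw_sum_pow_exp {η : ℝ} (hη : 0 < η) :
    Summable fun k : ℕ => Real.exp (-η * k) * ((k : ℝ) + 1) ^ 3 := by
  have h1 := Real.summable_pow_mul_exp_neg_nat_mul 3 hη
  have h2 := (summable_nat_add_iff 1).2 h1
  have h3 := h2.mul_left (Real.exp η)
  refine h3.congr fun k => ?_
  push_cast
  have : Real.exp (-η * k) = Real.exp η * Real.exp (-η * (k + 1)) := by
    rw [← Real.exp_add]
    congr 1
    ring
  rw [this]
  ring

theorem exp_runMax (c K δ η : ℝ) (hc : 0 < c) (hK : 0 ≤ K) (hδ : 0 < δ) (hη : 0 < η) :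
    ∃ C : ℝ, 0 < C ∧ ∀ (Ω : Type) [MeasurableSpace Ω] (μ : Measure Ω) [IsProbabilityMeasure μ]
      (n : ℕ) (Y : ℕ → Ω → ℝ), WalkHyp μ c K n Y →
        ∫ ω, Real.exp (-η * (runMax (fun j => psum Y j ω) n - psum Y n ω)) ∂μ ≤
          C * ((n : ℝ) + 1) ^ (-(1 / 2 : ℝ) + δ) := by
  obtain ⟨C, hC, hper⟩ := persistence c K δ hc hK hδ
  set Z : ℝ := ∑' k : ℕ, Real.exp (-η * k) * ((k : ℝ) + 1) ^ 3 with hZ
  have hZ0 : 0 ≤ Z := tsum_nonneg fun k => by positivity
  refine ⟨C * Z + 1, by positivity, ?_⟩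
  intro Ω _ μ _ n Y h
  have h' := rw_reverse h
  set N : ℝ := ((n : ℝ) + 1) ^ (-(1 / 2 : ℝ) + δ) with hN
  have hN0 : 0 < N := Real.rpow_pos_of_pos (by positivity) _
  -- the persistence events
  let E : ℕ → Set Ω := fun k =>
    {ω | ∀ j : ℕ, j ≤ n → -((k : ℝ) + 1) ≤ psum (fun i => Y (n - 1 - i)) j ω}
  have hE : ∀ k, MeasurableSet (E k) := fun k => rw_meas_event h'.meas _
  have hPE : ∀ k, μ.real (E k) ≤ C * ((k : ℝ) + 1) ^ 3 * N := by
    intro k
    have := hper Ω μ n _ h' ((k : ℝ) + 1) (by have : (0 : ℝ) ≤ k := Nat.cast_nonneg k; linarith)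
    exact this
  have hEM : ∀ ω (k : ℕ), runMax (fun j => psum Y j ω) n - psum Y n ω ≤ (k : ℝ) + 1 → ω ∈ E k := by
    intro ω k hk j hj
    rw [rw_psum_reverse Y hj]
    have h1 : psum Y (n - j) ω ≤ runMax (fun j => psum Y j ω) n :=
      rw_le_runMax (fun j => psum Y j ω) (by omega)
    linarith
  obtain ⟨L, hL⟩ : ∃ L : ℕ, Real.exp (-η * L) ≤ N := by
    have h1 : Tendsto (fun L : ℕ => Real.exp (-η * L)) atTop (nhds 0) := by
      have h2 : Tendsto (fun L : ℕ => -η * (L : ℝ)) atTop atBot :=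
        tendsto_natCast_atTop_atTop.const_mul_atTop_of_neg (by linarith)
      exact Real.tendsto_exp_atBot.comp h2
    exact ((h1.eventually (gt_mem_nhds hN0)).exists).imp fun L hL => le_of_lt hL
  have hpt : ∀ ω, Real.exp (-η * (runMax (fun j => psum Y j ω) n - psum Y n ω)) ≤
      ∑ k ∈ Finset.range L, Real.exp (-η * k) * (E k).indicator (fun _ => (1 : ℝ)) ω +
        Real.exp (-η * L) := by
    intro ω
    set M : ℝ := runMax (fun j => psum Y j ω) n - psum Y n ω with hM
    have hM0 : 0 ≤ M := by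
      have : psum Y n ω ≤ runMax (fun j => psum Y j ω) n :=
        rw_le_runMax (fun j => psum Y j ω) (le_refl n)
      linarith
    have hterm : ∀ k ∈ Finset.range L,
        0 ≤ Real.exp (-η * k) * (E k).indicator (fun _ => (1 : ℝ)) ω := fun k _ =>
      mul_nonneg (Real.exp_pos _).le (Set.indicator_nonneg (fun _ _ => zero_le_one) _)
    rcases lt_or_ge M L with hML | hML
    · have hk : ⌊M⌋₊ < L := (Nat.floor_lt hM0).2 hML
      have h1 : ω ∈ E ⌊M⌋₊ := hEM ω _ (Nat.lt_floor_add_one M).le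
      have h2 := Finset.single_le_sum hterm (Finset.mem_range.2 hk)
      rw [Set.indicator_of_mem h1, mul_one] at h2
      have h3 : Real.exp (-η * M) ≤ Real.exp (-η * ⌊M⌋₊) := by
        apply Real.exp_le_exp.2
        have := Nat.floor_le hM0
        nlinarith
      have h4 := (Real.exp_pos (-η * L)).le
      linarith
    · have h3 : Real.exp (-η * M) ≤ Real.exp (-η * L) := by
        apply Real.exp_le_exp.2
        nlinarith
      have h4 := Finset.sum_nonneg hterm
      linarith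
  have hint : ∀ k : ℕ, Integrable (fun ω => Real.exp (-η * k) *
      (E k).indicator (fun _ => (1 : ℝ)) ω) μ := fun k =>
    ((integrable_const (1 : ℝ)).indicator (hE k)).const_mul _
  have hints : Integrable (fun ω => ∑ k ∈ Finset.range L, Real.exp (-η * k) *
      (E k).indicator (fun _ => (1 : ℝ)) ω) μ := integrable_finsetSum _ fun k _ => hint k
  calc ∫ ω, Real.exp (-η * (runMax (fun j => psum Y j ω) n - psum Y n ω)) ∂μ
      ≤ ∫ ω, (∑ k ∈ Finset.range L, Real.exp (-η * k) *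
          (E k).indicator (fun _ => (1 : ℝ)) ω + Real.exp (-η * L)) ∂μ :=
        integral_mono_of_nonneg (Eventually.of_forall fun ω => (Real.exp_pos _).le)
          (hints.add (integrable_const _)) (Eventually.of_forall hpt)
    _ = ∑ k ∈ Finset.range L, Real.exp (-η * k) * μ.real (E k) + Real.exp (-η * L) := by
        rw [integral_add hints (integrable_const _), integral_finsetSum _ fun k _ => hint k]
        simp only [integral_const_mul, integral_const, probReal_univ, smul_eq_mul, one_mul]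
        congr 1
        refine Finset.sum_congr rfl fun k _ => ?_
        congr 1
        exact integral_indicator_one (μ := μ) (hE k)
    _ ≤ ∑ k ∈ Finset.range L, Real.exp (-η * k) * (C * ((k : ℝ) + 1) ^ 3 * N) + N := by
        refine add_le_add (Finset.sum_le_sum fun k _ => ?_) hL
        exact mul_le_mul_of_nonneg_left (hPE k) (Real.exp_pos _).le
    _ = C * N * (∑ k ∈ Finset.range L, Real.exp (-η * k) * ((k : ℝ) + 1) ^ 3) + N := by
        rw [Finset.mul_sum]
        congr 1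
        refine Finset.sum_congr rfl fun k _ => ?_
        ring
    _ ≤ C * N * Z + N := by
        have h1 : ∑ k ∈ Finset.range L, Real.exp (-η * k) * ((k : ℝ) + 1) ^ 3 ≤ Z :=
          (rw_sum_pow_exp hη).sum_le_tsum _ fun k _ => by positivity
        gcongr
    _ = (C * Z + 1) * N := by ring

theorem exp_runMax_log (c K c₀ θ : ℝ) (hc : 0 < c) (hK : 0 ≤ K) (hc₀ : 0 ≤ c₀) (hθ : 0 < θ) :
    ∃ φ : ℕ → ℝ, Tendsto φ atTop (nhds 0) ∧
      ∀ (Ω : Type) [MeasurableSpace Ω] (μ : Measure Ω) [IsProbabilityMeasure μ]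
      (n : ℕ) (Y : ℕ → Ω → ℝ), WalkHyp μ c K n Y →
        ∫ ω, Real.exp (-θ * runMax (fun j => psum Y j ω - c₀ * Real.log (1 + j)) n) ∂μ ≤ φ n := by
  obtain ⟨C, hC, hper⟩ := persistence c K (1 / 4) hc hK (by norm_num)
  set A : ℝ := 1 + 24 * (1 + c₀) with hA
  have hA0 : 0 < A := by positivity
  refine ⟨fun n => Real.exp (-θ) * ((n : ℝ) + 1) ^ (-θ) +
    C * A ^ 3 * ((n : ℝ) + 1) ^ (-(1 / 8 : ℝ)), ?_, ?_⟩
  · have hn : Tendsto (fun n : ℕ => (n : ℝ) + 1) atTop atTop :=
      tendsto_atTop_add_const_right _ _ tendsto_natCast_atTop_atTop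
    have h1 : Tendsto (fun n : ℕ => ((n : ℝ) + 1) ^ (-θ)) atTop (nhds 0) :=
      (tendsto_rpow_neg_atTop hθ).comp hn
    have h2 : Tendsto (fun n : ℕ => ((n : ℝ) + 1) ^ (-(1 / 8 : ℝ))) atTop (nhds 0) :=
      (tendsto_rpow_neg_atTop (by norm_num)).comp hn
    have h3 := (h1.const_mul (Real.exp (-θ))).add (h2.const_mul (C * A ^ 3))
    simpa using h3
  · intro Ω _ μ _ n Y h
    have h' := rw_neg h
    set N : ℝ := (n : ℝ) + 1 with hN
    have hN1 : 1 ≤ N := by have : (0 : ℝ) ≤ n := Nat.cast_nonneg n; linarith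
    have hN0 : 0 < N := by linarith
    have hlog0 : 0 ≤ Real.log N := Real.log_nonneg hN1
    set x : ℝ := 1 + Real.log N + c₀ * Real.log N with hx
    have hx1 : 1 ≤ x := by
      have : 0 ≤ c₀ * Real.log N := by positivity
      linarith
    let E : Set Ω := {ω | ∀ j : ℕ, j ≤ n → -x ≤ psum (fun i ω => -Y i ω) j ω}
    have hE : MeasurableSet E := rw_meas_event h'.meas _
    have hPE : μ.real E ≤ C * x ^ 3 * N ^ (-(1 / 2 : ℝ) + 1 / 4) := hper Ω μ n _ h' x hx1
    have hEM : ∀ ω, runMax (fun j => psum Y j ω - c₀ * Real.log (1 + j)) n ≤ 1 + Real.log N →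
        ω ∈ E := by
      intro ω hω j hj
      have h1 : psum Y j ω - c₀ * Real.log (1 + j) ≤ 1 + Real.log N :=
        (rw_runMax_le _).1 hω j hj
      have h2 : psum (fun i ω => -Y i ω) j ω = -psum Y j ω := by
        unfold psum
        exact Finset.sum_neg_distrib _
      have h3 : Real.log (1 + j) ≤ Real.log N := by
        apply Real.log_le_log (by positivity)
        have : (j : ℝ) ≤ n := by exact_mod_cast hj
        linarith
      have h4 : c₀ * Real.log (1 + j) ≤ c₀ * Real.log N := mul_le_mul_of_nonneg_left h3 hc₀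
      rw [h2]
      linarith
    have hM0 : ∀ ω, 0 ≤ runMax (fun j => psum Y j ω - c₀ * Real.log (1 + j)) n := by
      intro ω
      have h1 := rw_le_runMax (fun j => psum Y j ω - c₀ * Real.log (1 + j)) (Nat.zero_le n)
      simpa [psum] using h1
    have hpt : ∀ ω, Real.exp (-θ * runMax (fun j => psum Y j ω - c₀ * Real.log (1 + j)) n) ≤
        Real.exp (-θ * (1 + Real.log N)) + E.indicator (fun _ => (1 : ℝ)) ω := by
      intro ω
      rcases le_total (runMax (fun j => psum Y j ω - c₀ * Real.log (1 + j)) n)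
        (1 + Real.log N) with hle | hle
      · rw [Set.indicator_of_mem (hEM ω hle)]
        have h1 : Real.exp (-θ * runMax (fun j => psum Y j ω - c₀ * Real.log (1 + j)) n) ≤ 1 := by
          apply Real.exp_le_one_iff.2
          have := hM0 ω
          nlinarith
        have h2 := (Real.exp_pos (-θ * (1 + Real.log N))).le
        linarith
      · have h1 : Real.exp (-θ * runMax (fun j => psum Y j ω - c₀ * Real.log (1 + j)) n) ≤
            Real.exp (-θ * (1 + Real.log N)) := by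
          apply Real.exp_le_exp.2
          nlinarith
        have h2 : 0 ≤ E.indicator (fun _ => (1 : ℝ)) ω :=
          Set.indicator_nonneg (fun _ _ => zero_le_one) _
        linarith
    have hint : Integrable (E.indicator (fun _ => (1 : ℝ))) μ :=
      (integrable_const (1 : ℝ)).indicator hE
    have hxA : x ≤ A * N ^ (1 / 24 : ℝ) := by
      have h1 : Real.log N ≤ N ^ (1 / 24 : ℝ) / (1 / 24) := Real.log_le_rpow_div hN0.le (by norm_num)
      have h2 : 1 ≤ N ^ (1 / 24 : ℝ) := Real.one_le_rpow hN1 (by norm_num)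
      have h3 : Real.log N ≤ 24 * N ^ (1 / 24 : ℝ) := by linarith
      have h4 : (1 + c₀) * Real.log N ≤ (1 + c₀) * (24 * N ^ (1 / 24 : ℝ)) :=
        mul_le_mul_of_nonneg_left h3 (by positivity)
      calc x = 1 + (1 + c₀) * Real.log N := by rw [hx]; ring
        _ ≤ N ^ (1 / 24 : ℝ) + (1 + c₀) * (24 * N ^ (1 / 24 : ℝ)) := add_le_add h2 h4
        _ = A * N ^ (1 / 24 : ℝ) := by rw [hA]; ring
    have hfin : C * x ^ 3 * N ^ (-(1 / 2 : ℝ) + 1 / 4) ≤ C * A ^ 3 * N ^ (-(1 / 8 : ℝ)) := by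
      have h1 : x ^ 3 ≤ (A * N ^ (1 / 24 : ℝ)) ^ 3 := pow_le_pow_left₀ (by linarith) hxA 3
      have h2 : (A * N ^ (1 / 24 : ℝ)) ^ 3 = A ^ 3 * N ^ (1 / 8 : ℝ) := by
        rw [mul_pow, ← Real.rpow_natCast (N ^ (1 / 24 : ℝ)), ← Real.rpow_mul hN0.le]
        norm_num
      have h3 : N ^ (1 / 8 : ℝ) * N ^ (-(1 / 2 : ℝ) + 1 / 4) = N ^ (-(1 / 8 : ℝ)) := by
        rw [← Real.rpow_add hN0]
        norm_num
      rw [h2] at h1
      have h4 : 0 ≤ N ^ (-(1 / 2 : ℝ) + 1 / 4) := Real.rpow_nonneg hN0.le _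
      calc C * x ^ 3 * N ^ (-(1 / 2 : ℝ) + 1 / 4) ≤
          C * (A ^ 3 * N ^ (1 / 8 : ℝ)) * N ^ (-(1 / 2 : ℝ) + 1 / 4) := by gcongr
        _ = C * A ^ 3 * (N ^ (1 / 8 : ℝ) * N ^ (-(1 / 2 : ℝ) + 1 / 4)) := by ring
        _ = _ := by rw [h3]
    have hexp : Real.exp (-θ * (1 + Real.log N)) = Real.exp (-θ) * N ^ (-θ) := by
      rw [Real.rpow_def_of_pos hN0, ← Real.exp_add]
      congr 1
      ring
    calc ∫ ω, Real.exp (-θ * runMax (fun j => psum Y j ω - c₀ * Real.log (1 + j)) n) ∂μ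
        ≤ ∫ ω, (Real.exp (-θ * (1 + Real.log N)) + E.indicator (fun _ => (1 : ℝ)) ω) ∂μ :=
          integral_mono_of_nonneg (Eventually.of_forall fun ω => (Real.exp_pos _).le)
            ((integrable_const _).add hint) (Eventually.of_forall hpt)
      _ = Real.exp (-θ * (1 + Real.log N)) + μ.real E := by
          rw [integral_add (integrable_const _) hint]
          congr 1
          · simp
          · exact integral_indicator_one (μ := μ) hE
      _ ≤ _ := by
          rw [hexp]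
          exact add_le_add le_rfl (hPE.trans hfin)

end Emb
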