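import Pool.Agent.Lib.Emb.CoreBasic

/-!
# Chunk T: the tilted measure

`tilt S t = mu.withDensity (dd S t)`; it is the product measure whose factors are
`haar1.withDensity (d_p(t,·))` for `p ∈ S` and `haar1` otherwise (`Measure.eq_infinitePi`: check the
mass of boxes with finitely many sides, using `infinitePi_pi`, independence or
`lintegral_infinitePi_of_piFinset`/`Measure.infinitePi_map_restrict`).  Each factor is a probability
measure because of `int_d1` (chunk P1).
-/

open MeasureTheory Complex ProbabilityTheory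
open scoped BigOperators ENNReal

namespace Emb

theorem integral_fourier_ne {n : ℤ} (hn : n ≠ 0) :
    ∫ x : UnitAddCircle, (fourier n x : ℂ) ∂haar1 = 0 := by
  have h1 : ∫ x : UnitAddCircle, (fourier n (x + ((1 / 2 / n : ℝ) : UnitAddCircle)) : ℂ) ∂haar1
      = ∫ x : UnitAddCircle, (fourier n x : ℂ) ∂haar1 :=
    integral_add_right_eq_self (μ := haar1) (fun x : UnitAddCircle => (fourier n x : ℂ)) _
  have h2 : ∀ x : UnitAddCircle,
      (fourier n (x + ((1 / 2 / n : ℝ) : UnitAddCircle)) : ℂ) = - fourier n x := by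
    intro x
    exact fourier_add_half_inv_index hn one_pos x
  simp_rw [h2] at h1
  rw [integral_neg] at h1
  exact self_eq_neg.mp h1.symm

theorem fourier_one_pow (x : UnitAddCircle) (n : ℕ) :
    (fourier 1 x : ℂ) ^ n = fourier (n : ℤ) x := by
  rw [fourier_one, fourier_apply, natCast_zsmul, AddCircle.toCircle_nsmul, Circle.coe_pow]

theorem continuous_yyT (p : ℕ) (t : ℝ) : Continuous (yy p t) := by
  unfold yy
  fun_prop

theorem int_yy_pow_zero (p : ℕ) (t : ℝ) (n : ℕ) :
    ∫ x, (yy p t x) ^ (n + 1) ∂haar1 = 0 := by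
  unfold yy
  have h : ∀ x : UnitAddCircle, (fourier 1 x * (((Real.sqrt p)⁻¹ : ℝ) : ℂ) *
      Complex.exp (((t * Real.log p : ℝ) : ℂ) * I)) ^ (n + 1) =
      fourier ((n + 1 : ℕ) : ℤ) x * ((((Real.sqrt p)⁻¹ : ℝ) : ℂ) *
      Complex.exp (((t * Real.log p : ℝ) : ℂ) * I)) ^ (n + 1) := by
    intro x
    rw [mul_assoc, mul_pow, fourier_one_pow]
  simp_rw [h]
  rw [integral_mul_const, integral_fourier_ne (by positivity), zero_mul]

theorem sqrt_inv_lt_one {p : ℕ} (hp : p.Prime) : (Real.sqrt p)⁻¹ < 1 := by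
  have h2 : (1 : ℝ) < p := by exact_mod_cast hp.one_lt
  apply inv_lt_one_of_one_lt₀
  rw [Real.lt_sqrt (by norm_num)]
  simpa using h2

theorem norm_yy_lt_one {p : ℕ} (hp : p.Prime) (t : ℝ) (x : UnitAddCircle) :
    ‖yy p t x‖ < 1 := by
  rw [norm_yy]; exact sqrt_inv_lt_one hp

theorem one_sub_yy_ne {p : ℕ} (hp : p.Prime) (t : ℝ) (x : UnitAddCircle) :
    1 - yy p t x ≠ 0 := by
  intro h
  have h1 : yy p t x = 1 := by linear_combination -h
  have h2 := norm_yy_lt_one hp t x
  rw [h1, norm_one] at h2
  exact lt_irrefl _ h2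

theorem poisson_identity (y : ℂ) (hy : 1 - y ≠ 0) :
    (1 - ‖y‖ ^ 2) * ‖(1 - y)⁻¹‖ ^ 2 = 1 + 2 * (y * (1 - y)⁻¹).re := by
  have h1 : Complex.normSq (1 - y) ≠ 0 := by simpa using hy
  rw [norm_inv, inv_pow, Complex.sq_norm, Complex.sq_norm, Complex.mul_re, Complex.inv_re,
    Complex.inv_im]
  field_simp
  rw [Complex.normSq_apply, Complex.normSq_apply]
  simp only [Complex.sub_re, Complex.sub_im, Complex.one_re, Complex.one_im]
  ring

theorem d1_eq {p : ℕ} (hp : p.Prime) (t : ℝ) (x : UnitAddCircle) :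
    d1 p t x = 1 + 2 * (yy p t x * (1 - yy p t x)⁻¹).re := by
  rw [← poisson_identity _ (one_sub_yy_ne hp t x), norm_yy, inv_pow,
    Real.sq_sqrt (Nat.cast_nonneg p)]
  unfold d1 k1
  rw [one_div]

theorem int_yy_geom {p : ℕ} (hp : p.Prime) (t : ℝ) :
    ∫ x, yy p t x * (1 - yy p t x)⁻¹ ∂haar1 = 0 := by
  have h1 : ∀ x : UnitAddCircle, yy p t x * (1 - yy p t x)⁻¹ = ∑' n : ℕ, (yy p t x) ^ (n + 1) := by
    intro x
    rw [← tsum_geometric_of_norm_lt_one (norm_yy_lt_one hp t x), ← tsum_mul_left]
    congr 1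
    ext n
    ring
  simp_rw [h1]
  have h2 := hasSum_integral_of_summable_integral_norm (μ := haar1)
    (F := fun (n : ℕ) (x : UnitAddCircle) => (yy p t x) ^ (n + 1))
    (fun n => ((continuous_yyT p t).pow (n + 1)).integrable_of_hasCompactSupport
      (HasCompactSupport.of_compactSpace _)) ?_
  · rw [← h2.tsum_eq]
    simp only [int_yy_pow_zero, tsum_zero]
  · simp only [norm_pow, norm_yy, integral_const]
    have : Summable fun n : ℕ => ((Real.sqrt p)⁻¹) ^ (n + 1) := by
      have := summable_geometric_of_lt_one (by positivity) (sqrt_inv_lt_one hp)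
      exact (summable_nat_add_iff 1).mpr this
    simpa using this

/-- `∫ d_p = 1` (geometric series and orthogonality: `|1-y|^{-2} = ∑_{j,k} y^j conj(y)^k`, only
`j = k` survives: `∑ p^{-j} = (1-1/p)^{-1}`). -/
theorem int_d1 {p : ℕ} (hp : p.Prime) (t : ℝ) : ∫ x, d1 p t x ∂haar1 = 1 := by
  have hc : Continuous (fun x => yy p t x * (1 - yy p t x)⁻¹) :=
    (continuous_yyT p t).mul ((continuous_const.sub (continuous_yyT p t)).inv₀
      (fun x => one_sub_yy_ne hp t x))
  have hi : Integrable (fun x => yy p t x * (1 - yy p t x)⁻¹) haar1 :=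
    hc.integrable_of_hasCompactSupport (HasCompactSupport.of_compactSpace _)
  have hi2 : Integrable (fun x => 2 * (yy p t x * (1 - yy p t x)⁻¹).re) haar1 :=
    (hi.re).const_mul 2
  have h3 : ∫ x, (yy p t x * (1 - yy p t x)⁻¹).re ∂haar1 =
      (∫ x, yy p t x * (1 - yy p t x)⁻¹ ∂haar1).re := by
    exact integral_re hi
  simp_rw [d1_eq hp t]
  rw [integral_add (integrable_const _) hi2, integral_const_mul, h3, int_yy_geom hp t]
  simp

theorem continuous_d1T {p : ℕ} (hp : p.Prime) (t : ℝ) : Continuous (d1 p t) := by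
  unfold d1 k1
  have := ((continuous_const (y := (1 : ℂ))).sub (continuous_yyT p t)).inv₀
    (fun x => one_sub_yy_ne hp t x)
  exact continuous_const.mul (this.norm.pow 2)

/-- The factors of the tilted measure. -/
noncomputable def fac (S : Finset ℕ) (t : ℝ) (p : ℕ) : Measure UnitAddCircle :=
  if p ∈ S then haar1.withDensity (fun x => ENNReal.ofReal (d1 p t x)) else haar1

theorem fac_prob {S : Finset ℕ} (hS : ∀ p ∈ S, p.Prime) (t : ℝ) (p : ℕ) :
    IsProbabilityMeasure (fac S t p) := by
  unfold fac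
  split_ifs with h
  · refine ⟨?_⟩
    rw [withDensity_apply _ MeasurableSet.univ, Measure.restrict_univ,
      ← ofReal_integral_eq_lintegral_ofReal, int_d1 (hS p h) t, ENNReal.ofReal_one]
    · exact (continuous_d1T (hS p h) t).integrable_of_hasCompactSupport
        (HasCompactSupport.of_compactSpace _)
    · exact Filter.Eventually.of_forall (fun x => (d1_pos (hS p h) t x).le)
  · infer_instance

/-- Density of the factor `p` with respect to `haar1`. -/
noncomputable def den (S : Finset ℕ) (t : ℝ) (p : ℕ) (x : UnitAddCircle) : ℝ≥0∞ :=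
  if p ∈ S then ENNReal.ofReal (d1 p t x) else 1

theorem den_meas {S : Finset ℕ} (hS : ∀ p ∈ S, p.Prime) (t : ℝ) (p : ℕ) :
    Measurable (den S t p) := by
  unfold den
  split_ifs with h
  · exact (continuous_d1T (hS p h) t).measurable.ennreal_ofReal
  · exact measurable_const

theorem fac_apply {S : Finset ℕ} (t : ℝ) (p : ℕ) {A : Set UnitAddCircle}
    (hA : MeasurableSet A) :
    fac S t p A = ∫⁻ x, A.indicator (fun x => den S t p x) x ∂haar1 := by
  rw [lintegral_indicator hA]
  unfold fac den
  split_ifs with h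
  · rw [withDensity_apply _ hA]
  · simp

theorem ofReal_dd (S : Finset ℕ) (hS : ∀ p ∈ S, p.Prime) (t : ℝ) (ω : Om) (F : Finset ℕ)
    (hF : S ⊆ F) :
    ENNReal.ofReal (dd S t ω) = ∏ p ∈ F, den S t p (ω p) := by
  unfold dd
  rw [ENNReal.ofReal_prod_of_nonneg (fun p hp => (d1_pos (hS p hp) t _).le),
    ← Finset.prod_subset hF]
  · refine Finset.prod_congr rfl (fun p hp => ?_)
    unfold den
    rw [if_pos hp]
  · intro p _ hp
    unfold den
    rw [if_neg hp]

theorem continuous_dd_right {S : Finset ℕ} (hS : ∀ p ∈ S, p.Prime) (t : ℝ) :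
    Continuous (fun ω : Om => dd S t ω) := by
  have h := (continuous_dd hS)
  have h2 : Continuous (fun ω : Om => ((t, ω) : ℝ × Om)) := Continuous.prodMk_right t
  have h3 := h.comp h2
  simp only [Function.comp_def] at h3
  exact h3

theorem tilt_eq {S : Finset ℕ} (hS : ∀ p ∈ S, p.Prime) (t : ℝ) :
    tilt S t = Measure.infinitePi (fac S t) := by
  have hprob : ∀ p, IsProbabilityMeasure (fac S t p) := fac_prob hS t
  refine Measure.eq_infinitePi (fac S t) ?_
  intro s A hA
  have hbox : MeasurableSet (Set.pi (s : Set ℕ) A) :=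
    MeasurableSet.pi (Set.to_countable _) (fun i _ => hA i)
  unfold tilt
  rw [withDensity_apply _ hbox, ← lintegral_indicator hbox]
  classical
  -- the integrand is a product
  set B : ℕ → Set UnitAddCircle := fun p => if p ∈ s then A p else Set.univ with hB
  have hBm : ∀ p, MeasurableSet (B p) := by
    intro p
    simp only [hB]
    split_ifs
    · exact hA p
    · exact MeasurableSet.univ
  have hint : ∀ ω : Om, (Set.pi (s : Set ℕ) A).indicator
      (fun ω => ENNReal.ofReal (dd S t ω)) ω =
      ∏ p ∈ s ∪ S, (B p).indicator (fun x => den S t p x) (ω p) := by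
    intro ω
    by_cases hω : ω ∈ Set.pi (s : Set ℕ) A
    · rw [Set.indicator_of_mem hω, ofReal_dd S hS t ω (s ∪ S) Finset.subset_union_right]
      refine Finset.prod_congr rfl (fun p _ => ?_)
      rw [Set.indicator_of_mem]
      simp only [hB]
      split_ifs with hps
      · exact hω p hps
      · trivial
    · rw [Set.indicator_of_notMem hω]
      simp only [Set.mem_pi, not_forall] at hω
      obtain ⟨p, hps, hp⟩ := hω
      have hps' : p ∈ s := hps
      symm
      apply Finset.prod_eq_zero (Finset.mem_union_left S hps')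
      rw [Set.indicator_of_notMem]
      simp only [hB, if_pos hps']
      exact hp
  simp_rw [hint]
  have hind : iIndepFun (fun (p : ℕ) (ω : Om) => (B p).indicator (fun x => den S t p x) (ω p))
      mu := by
    unfold mu
    exact iIndepFun_infinitePi (fun p => (den_meas hS t p).indicator (hBm p))
  rw [lintegral_prod_eq_prod_lintegral_of_indepFun _ _ hind
    (fun p => ((den_meas hS t p).indicator (hBm p)).comp (measurable_pi_apply p))]
  have hcoord : ∀ p, ∫⁻ ω : Om, (B p).indicator (fun x => den S t p x) (ω p) ∂mu =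
      fac S t p (B p) := by
    intro p
    rw [fac_apply t p (hBm p)]
    have hmp : MeasurePreserving (Function.eval p) mu haar1 :=
      measurePreserving_eval_infinitePi (fun _ : ℕ => haar1) p
    exact hmp.lintegral_comp ((den_meas hS t p).indicator (hBm p))
  simp_rw [hcoord]
  rw [← Finset.prod_subset (Finset.subset_union_left (s₁ := s) (s₂ := S))]
  · refine Finset.prod_congr rfl (fun p hp => ?_)
    simp only [hB, if_pos hp]
  · intro p _ hp
    simp only [hB, if_neg hp]
    exact (hprob p).measure_univ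

theorem tilt_prob {S : Finset ℕ} (hS : ∀ p ∈ S, p.Prime) (t : ℝ) :
    IsProbabilityMeasure (tilt S t) := by
  have hprob : ∀ p, IsProbabilityMeasure (fac S t p) := fac_prob hS t
  rw [tilt_eq hS t]
  infer_instance

/-- Under the tilted measure the coordinates are independent. -/
theorem tilt_indep {S : Finset ℕ} (hS : ∀ p ∈ S, p.Prime) (t : ℝ) :
    iIndepFun (fun (p : ℕ) (ω : Om) => ω p) (tilt S t) := by
  have hprob : ∀ p, IsProbabilityMeasure (fac S t p) := fac_prob hS t
  rw [tilt_eq hS t]
  exact iIndepFun_infinitePi (fun p => measurable_id)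

/-- Expectation of a nonnegative measurable function. -/
theorem lintegral_tilt (S : Finset ℕ) (hS : ∀ p ∈ S, p.Prime) (t : ℝ) (f : Om → ℝ≥0∞)
    (hf : Measurable f) :
    ∫⁻ ω, f ω ∂(tilt S t) = ∫⁻ ω, ENNReal.ofReal (dd S t ω) * f ω ∂mu := by
  unfold tilt
  rw [lintegral_withDensity_eq_lintegral_mul _
    (continuous_dd_right hS t).measurable.ennreal_ofReal hf]
  rfl

end Emb
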