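import Pool.Agent.Lib.Emb.Tilt

/-!
# Chunk T2: expectations of functions of coordinates under the tilted measure

By `tilt_eq` the tilted measure is `Measure.infinitePi (fac S t)`; coordinates are measure preserving
(`measurePreserving_eval_infinitePi`) and independent (`tilt_indep`).
-/

open MeasureTheory Complex ProbabilityTheory
open scoped BigOperators ENNReal

namespace Emb

theorem tilt_mp {S : Finset ℕ} (hS : ∀ p ∈ S, p.Prime) (t : ℝ) (p : ℕ) :
    MeasurePreserving (Function.eval p) (tilt S t) (fac S t p) := by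
  have hprob : ∀ p, IsProbabilityMeasure (fac S t p) := fac_prob hS t
  rw [tilt_eq hS t]
  exact measurePreserving_eval_infinitePi (fac S t) p

/-- Expectation of a function of one coordinate, general codomain. -/
theorem tilt_coord_gen {E : Type} [NormedAddCommGroup E] [NormedSpace ℝ E]
    {S : Finset ℕ} (hS : ∀ p ∈ S, p.Prime) (t : ℝ) {p : ℕ} (hp : p ∈ S)
    (f : UnitAddCircle → E) (hf : AEStronglyMeasurable f (fac S t p)) :
    ∫ ω, f (ω p) ∂(tilt S t) = ∫ x, d1 p t x • f x ∂haar1 := by
  have h1 : ∫ ω, f (ω p) ∂(tilt S t) = ∫ x, f x ∂(fac S t p) := by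
    have h := tilt_mp hS t p
    rw [← h.map_eq] at hf ⊢
    exact (integral_map h.measurable.aemeasurable hf).symm
  rw [h1]
  unfold fac
  rw [if_pos hp, integral_withDensity_eq_integral_toReal_smul
    (continuous_d1T (hS p hp) t).measurable.ennreal_ofReal
    (Filter.Eventually.of_forall fun x => ENNReal.ofReal_lt_top)]
  refine integral_congr_ae (Filter.Eventually.of_forall fun x => ?_)
  simp only [ENNReal.toReal_ofReal (d1_pos (hS p hp) t x).le]

/-- Expectation of a function of one coordinate (in the tilted set). -/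
theorem tilt_coord {S : Finset ℕ} (hS : ∀ p ∈ S, p.Prime) (t : ℝ) {p : ℕ} (hp : p ∈ S)
    (f : UnitAddCircle → ℂ) (hf : Continuous f) :
    ∫ ω, f (ω p) ∂(tilt S t) = ∫ x, (d1 p t x : ℂ) * f x ∂haar1 := by
  rw [tilt_coord_gen hS t hp f hf.aestronglyMeasurable]
  simp only [Complex.real_smul]

/-- Same for real functions. -/
theorem tilt_coord_real {S : Finset ℕ} (hS : ∀ p ∈ S, p.Prime) (t : ℝ) {p : ℕ} (hp : p ∈ S)
    (f : UnitAddCircle → ℝ) (hf : Continuous f) :
    ∫ ω, f (ω p) ∂(tilt S t) = ∫ x, d1 p t x * f x ∂haar1 := by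
  rw [tilt_coord_gen hS t hp f hf.aestronglyMeasurable]
  simp only [smul_eq_mul]

/-- Exponential moments of sums of functions of the single coordinates. -/
theorem tilt_exp_sum {S : Finset ℕ} (hS : ∀ p ∈ S, p.Prime) (t : ℝ) (B : Finset ℕ)
    (f : ℕ → UnitAddCircle → ℝ) (hf : ∀ p, Continuous (f p)) :
    ∫ ω, Real.exp (∑ p ∈ B, f p (ω p)) ∂(tilt S t) =
      ∏ p ∈ B, ∫ ω, Real.exp (f p (ω p)) ∂(tilt S t) := by
  have hind : iIndepFun (fun (p : ℕ) (ω : Om) => f p (ω p)) (tilt S t) :=
    (tilt_indep hS t).comp f (fun p => (hf p).measurable)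
  have hm : ∀ p : ℕ, Measurable (fun ω : Om => f p (ω p)) := fun p =>
    (hf p).measurable.comp (measurable_pi_apply p)
  have h := hind.mgf_sum (t := 1) hm B
  simp only [mgf, one_mul, Finset.sum_apply] at h
  exact h

end Emb
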